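import Pool.Agent.HEI.StH

/-!
# HEI: there is no pair of classes with a visible relation
-/

set_option autoImplicit false
set_option linter.unusedVariables false

namespace HEI

open Set Pool.Agent.Helper5.DU Pool.Agent.Helper6.Str Pool.Agent.Helper79.VC
  Pool.Agent.Helper97.LO Pool.Agent.Helper97.VC HER HERN

/-! ## The sequences -/

/-- the sequence of `f` -/
def CLC_pi (f : ℕ → Bool) (i : ℕ) : Bool :=
  if i % 2 = 0 then false else if i % 4 = 1 then true else f (i / 4)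

theorem CLC_even (f : ℕ → Bool) (i : ℕ) (hi : i % 2 = 0) : CLC_pi f i = false := by
  unfold CLC_pi
  rw [if_pos hi]

theorem CLC_41 (f : ℕ → Bool) (i : ℕ) (hi : i % 4 = 1) : CLC_pi f i = true := by
  unfold CLC_pi
  rw [if_neg (by omega), if_pos hi]

theorem CLC_43 (f : ℕ → Bool) (i : ℕ) : CLC_pi f (4 * i + 3) = f i := by
  unfold CLC_pi
  rw [if_neg (by omega), if_neg (by omega)]
  congr 1
  omega

theorem CLC_nn (f : ℕ → Bool) (i : ℕ) (h : CLC_pi f i = true) : CLC_pi f (i + 1) = false := by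
  by_cases h2 : i % 2 = 0
  · rw [CLC_even f i h2] at h
    exact absurd h (by decide)
  · exact CLC_even f _ (by omega)

/-- the number of the `false` before `j` -/
def CLC_c (π : ℕ → Bool) (j : ℕ) : ℕ := Nat.count (fun i => π i = false) j

theorem CLC_c_lt {π : ℕ → Bool} {i j : ℕ} (hi : π i = false) (hij : i < j) :
    CLC_c π i < CLC_c π j := Nat.count_strict_mono (p := fun i => π i = false) hi hij

theorem CLC_c_le {π : ℕ → Bool} {i j : ℕ} (hij : i ≤ j) : CLC_c π i ≤ CLC_c π j :=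
  Nat.count_monotone (fun i => π i = false) hij

theorem CLC_c_congr {π π' : ℕ → Bool} : ∀ j : ℕ, (∀ i < j, π i = π' i) →
    CLC_c π j = CLC_c π' j := by
  intro j
  induction j with
  | zero => intro _; simp [CLC_c]
  | succ j ih =>
    intro h
    have h1 := ih fun i hi => h i (hi.trans (Nat.lt_succ_self j))
    have h2 := h j (Nat.lt_succ_self j)
    unfold CLC_c at h1 ⊢
    rw [Nat.count_succ, Nat.count_succ, h1, h2]

theorem CLC_inj1 {π π' : ℕ → Bool} (h : ∀ i, π i = true → π (i + 1) = false)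
    (hN : ∀ j, π j = true → ∃ j', π' j' = true ∧ CLC_c π j = CLC_c π' j') (j : ℕ)
    (ih : ∀ i < j, π i = π' i) (hj : π j = true) : π' j = true := by
  by_contra hc
  have hc' : π' j = false := by simpa using hc
  obtain ⟨j', hj', hcnt⟩ := hN j hj
  have h1 := CLC_c_congr j ih
  rcases lt_trichotomy j' j with h2 | h2 | h2
  · have h3 : π j' = true := by rw [ih j' h2, hj']
    have h4 := h j' h3
    by_cases h5 : j' + 1 = j
    · rw [h5, hj] at h4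
      exact absurd h4 (by decide)
    · have h6 : j' + 1 < j := by omega
      have h7 : π' (j' + 1) = false := by rw [← ih _ h6, h4]
      have h8 := CLC_c_lt h7 h6
      have h9 := CLC_c_le (π := π') (Nat.le_succ j')
      simp only [Nat.succ_eq_add_one] at h9
      omega
  · rw [h2] at hj'
    exact hc hj'
  · have h8 := CLC_c_lt hc' h2
    omega

theorem CLC_inj {π π' : ℕ → Bool} (h : ∀ i, π i = true → π (i + 1) = false)
    (h' : ∀ i, π' i = true → π' (i + 1) = false)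
    (hN : ∀ j, π j = true → ∃ j', π' j' = true ∧ CLC_c π j = CLC_c π' j')
    (hN' : ∀ j, π' j = true → ∃ j', π j' = true ∧ CLC_c π' j = CLC_c π j') (j : ℕ) :
    π j = π' j := by
  induction j using Nat.strong_induction_on with
  | _ j ih =>
    by_cases h1 : π j = true
    · rw [h1, CLC_inj1 h hN j ih h1]
    · by_cases h2 : π' j = true
      · exact absurd (CLC_inj1 h' hN' j (fun i hi => (ih i hi).symm) h2) h1
      · rw [Bool.not_eq_true] at h1 h2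
        rw [h1, h2]

/-! ## Images of blocks -/

section

variable {L : FirstOrder.Language.{0, 0}} {M : Type} {S : L.Structure M} {F : Set M} {T : Dt M}
  {g0 g h : Ordinal.{0}} {Ω E : Set M} {R : Set M → Set M → Prop} {b1 v1 b0 v0 : Set M} {k n : ℕ}

theorem CLC_img (hIMG : St_IMG) (hDDM : St_DDM) (hF : FS S F T g0) (hG : Gp S F T g0 g Ω)
    {D D' : Set M} {p : Set (M × M)} (hD : DD T Ω D) (hD' : DD T Ω D') (hp : Ps S F g D D' p)
    (hE : dg E ⊆ p) {b : Set M} (hb : Dm p b) (hbF : Fr T Ω E b) :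
    Fr T Ω E (Im p b) ∧ Im p b ⊆ D' := by
  obtain ⟨i1, i2, i3, -, -, i6, i7, i8⟩ := hIMG L M S F
  obtain ⟨-, -, d3, -, d5, -⟩ := hDDM L M S F T g0 hF
  have hU : Un T Ω := hG.1.2.2.2.1
  have hp0 : Ps S F g0 D D' p := i8 _ _ _ _ _ _ hG.1.1 hp Subset.rfl hp.2.1
  have hat : AtEq S S p := hp.2.2.2.atEq
  refine ⟨⟨(hF.vb D D' p (d3 Ω D hU hD) (d3 Ω D' hU hD') hp0 b hb).1 hbF.1, ?_, ?_⟩, ?_⟩
  · intro hs
    obtain ⟨x, hx⟩ := (hF.fin b hbF.1).2.1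
    obtain ⟨y, hy⟩ := hb x hx
    have h1 : y ∈ Ω := hs ⟨x, hx, hy⟩
    have h2 : x ∈ Ω := (hG.1.2.2.2.2 D D' p hD hD' hp (x, y) hy).2 h1
    exact disjoint_left.1 ((d5 Ω b hU hbF.1).1 hbF.2.1) hx h2
  · obtain ⟨h1, h2⟩ := i3 p E hat hE
    have h3 := ((i2 p b E hat hb h1).2.2.1).2 hbF.2.2
    rwa [h2] at h3
  · rintro y ⟨x, -, hxy⟩
    exact (hp.2.2.1 _ hxy).2

/-- a class is mapped into itself if it contains a fixed block -/
theorem CLC_cls (hIMG : St_IMG) (hDDM : St_DDM) (hF : FS S F T g0) (hG : Gp S F T g0 g Ω)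
    {D D' : Set M} {p : Set (M × M)} (hD : DD T Ω D) (hD' : DD T Ω D') (hp : Ps S F g D D' p)
    (hb0 : T.V k b1 b0) (hb0p : dg b0 ⊆ p) {b : Set M} (hb : Dm p b) (hV : T.V k b1 b) :
    T.V k b1 (Im p b) := by
  obtain ⟨i1, i2, i3, -, -, i6, i7, i8⟩ := hIMG L M S F
  obtain ⟨-, -, d3, -, d5, -⟩ := hDDM L M S F T g0 hF
  have hU : Un T Ω := hG.1.2.2.2.1
  have hp0 : Ps S F g0 D D' p := i8 _ _ _ _ _ _ hG.1.1 hp Subset.rfl hp.2.1
  have hat : AtEq S S p := hp.2.2.2.atEq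
  obtain ⟨h1, h2⟩ := i3 p b0 hat hb0p
  have h3 := (hF.vv D D' p (d3 Ω D hU hD) (d3 Ω D' hU hD') hp0 k b0 b h1 hb).1
    (hF.vt _ _ _ _ (hF.vs _ _ _ hb0) hV)
  rw [h2] at h3
  exact hF.vt _ _ _ _ hb0 h3

/-- the blocks of the class in `D` which are in relation with `v` -/
def CLC_B (T : Dt M) (Ω E : Set M) (R : Set M → Set M → Prop) (b1 : Set M) (k : ℕ)
    (D v : Set M) : Set (Set M) := {b | T.V k b1 b ∧ Fr T Ω E b ∧ b ⊆ D ∧ R b v}

theorem CLC_le (hIMG : St_IMG) (hDDM : St_DDM) (hF : FS S F T g0) (hG : Gp S F T g0 g Ω)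
    (hVr : Vr S F T Ω h E R) (hb0 : T.V k b1 b0) {D D' : Set M} {p : Set (M × M)}
    (hD : DD T Ω D) (hD' : DD T Ω D') (hp : Ps S F (max h g + 1) D D' p) (hE : dg E ⊆ p)
    (hb0p : dg b0 ⊆ p) {v : Set M} (hv : Dm p v) (hvF : Fr T Ω E v)
    (hfin : (CLC_B T Ω E R b1 k D v).Finite) :
    (CLC_B T Ω E R b1 k D v).encard ≤ (CLC_B T Ω E R b1 k D' (Im p v)).encard := by
  obtain ⟨i1, i2, i3, -, -, i6, i7, i8⟩ := hIMG L M S F
  have hfu : (⋃₀ CLC_B T Ω E R b1 k D v).Finite :=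
    hfin.sUnion fun b hb => (hF.fin b hb.2.1.1).1
  obtain ⟨q, hpq, hq, hqd⟩ := (i6 _ _ _ _ _ hp hfu).1 (sUnion_subset fun b hb => hb.2.2.1)
  have hqh : Ps S F h D D' q := i8 _ _ _ _ _ _ (le_max_left h g) hq Subset.rfl hq.2.1
  have hqg : Ps S F g D D' q := i8 _ _ _ _ _ _ (le_max_right h g) hq Subset.rfl hq.2.1
  have hat : AtEq S S q := hq.2.2.2.atEq
  have hdm : ∀ b ∈ CLC_B T Ω E R b1 k D v, Dm q b := fun b hb x hx => hqd x ⟨b, hb, hx⟩
  have hvq : Im q v = Im p v ∧ Dm q v := (i1 p v hp.2.2.2.atEq hv).2.2.2 q hpq hat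
  have hinj : InjOn (Im q) (CLC_B T Ω E R b1 k D v) := fun b hb b' hb' he =>
    ((i2 q b b' hat (hdm b hb) (hdm b' hb')).1).1 he
  rw [← hinj.encard_image]
  apply encard_le_encard
  rintro _ ⟨b, hb, rfl⟩
  obtain ⟨h1, h2⟩ := CLC_img hIMG hDDM hF hG hD hD' hqg (hE.trans hpq) (hdm b hb) hb.2.1
  refine ⟨CLC_cls hIMG hDDM hF hG hD hD' hqg hb0 (hb0p.trans hpq) (hdm b hb) hb.1, h1, h2, ?_⟩
  rw [← hvq.1]
  exact (hVr D D' q hD hD' hqh (hE.trans hpq) b v (hdm b hb) hvq.2 hb.2.1 hvF).1 hb.2.2.2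

/-- the properties of the sequences -/
structure CLC_P (T : Dt M) (Ω E : Set M) (R : Set M → Set M → Prop) (b1 v1 b0 v0 : Set M)
    (k n : ℕ) (π : ℕ → Bool) (s : ℕ → Set M) (D : Set M) : Prop where
  inj : Function.Injective s
  s0 : s 0 = b0
  s1 : s 1 = v0
  dd : DD T Ω D
  ed : E ⊆ D
  bk : ∀ i, π i = false → T.V k b1 (s i) ∧ Fr T Ω E (s i)
  vk : ∀ i, π i = true → T.V n v1 (s i) ∧ Fr T Ω E (s i)
  rl : ∀ i j, π i = false → π j = true → (R (s i) (s j) ↔ i < j)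
  cb : ∀ b, T.V k b1 b → Fr T Ω E b → (b ⊆ D ↔ ∃ i, π i = false ∧ b = s i)
  cv : ∀ b, T.V n v1 b → Fr T Ω E b → (b ⊆ D ↔ ∃ i, π i = true ∧ b = s i)

theorem CLC_cnt {π : ℕ → Bool} {s : ℕ → Set M} {D : Set M}
    (hP : CLC_P T Ω E R b1 v1 b0 v0 k n π s D) {j : ℕ} (hj : π j = true) :
    (CLC_B T Ω E R b1 k D (s j)).encard = (CLC_c π j : ℕ∞) := by
  have h1 : CLC_B T Ω E R b1 k D (s j) =
      s '' (((Finset.range j).filter fun i => π i = false : Finset ℕ) : Set ℕ) := by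
    ext b
    constructor
    · rintro ⟨h1, h2, h3, h4⟩
      obtain ⟨i, hi, rfl⟩ := (hP.cb b h1 h2).1 h3
      refine ⟨i, ?_, rfl⟩
      rw [Finset.mem_coe, Finset.mem_filter, Finset.mem_range]
      exact ⟨(hP.rl i j hi hj).1 h4, hi⟩
    · rintro ⟨i, hi, rfl⟩
      rw [Finset.mem_coe, Finset.mem_filter, Finset.mem_range] at hi
      obtain ⟨h1, h2⟩ := hP.bk i hi.2
      exact ⟨h1, h2, (hP.cb _ h1 h2).2 ⟨i, hi.2, rfl⟩, (hP.rl i j hi.2 hj).2 hi.1⟩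
  rw [h1, hP.inj.encard_image, encard_coe_eq_coe_finsetCard, CLC_c, Nat.count_eq_card_filter_range]

theorem CLC_swap_dg {A : Set M} {p : Set (M × M)} (h : dg A ⊆ p) : dg A ⊆ Prod.swap ⁻¹' p := by
  rintro _ ⟨a, ha, rfl⟩
  exact h ⟨a, ha, rfl⟩

theorem CLC_sub (hIMG : St_IMG) (hDDM : St_DDM) (hF : FS S F T g0) (hG : Gp S F T g0 g Ω)
    (hVr : Vr S F T Ω h E R) (hb0 : T.V k b1 b0) (hv0 : T.V n v1 v0) {G : Set M}
    (hGf : G.Finite) (hFG : F ⊆ G) (hEG : E ⊆ G) (hbG : b0 ⊆ G) (hvG : v0 ⊆ G)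
    {π π' : ℕ → Bool} {s s' : ℕ → Set M} {D D' : Set M}
    (hP : CLC_P T Ω E R b1 v1 b0 v0 k n π s D) (hP' : CLC_P T Ω E R b1 v1 b0 v0 k n π' s' D')
    (hGD : G ⊆ D) (hGD' : G ⊆ D')
    (hB : BFR S S D D' (Ordinal.omega0 * (max h g + 1 + 1)) (dg G)) :
    ∀ j, π j = true → ∃ j', π' j' = true ∧ CLC_c π j = CLC_c π' j' := by
  obtain ⟨i1, i2, i3, -, -, i6, i7, i8⟩ := hIMG L M S F
  intro j hj
  have hp0 : Ps S F (max h g + 1 + 1) D D' (dg G) := by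
    refine ⟨hGf.image _, image_mono hFG, ?_, hB⟩
    rintro _ ⟨a, ha, rfl⟩
    exact ⟨hGD ha, hGD' ha⟩
  obtain ⟨hv1, hv2⟩ := hP.vk j hj
  have hvD : s j ⊆ D := (hP.cv _ hv1 hv2).2 ⟨j, hj, rfl⟩
  obtain ⟨p, hpp, hp, hvp⟩ := (i6 _ _ _ _ _ hp0 (hF.fin _ hv2.1).1).1 hvD
  have hpg : Ps S F g D D' p :=
    i8 _ _ _ _ _ _ ((le_max_right h g).trans le_self_add) hp Subset.rfl hp.2.1
  have hat : AtEq S S p := hp.2.2.2.atEq
  have hEp : dg E ⊆ p := (image_mono hEG).trans hpp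
  have hbp : dg b0 ⊆ p := (image_mono hbG).trans hpp
  have hvp0 : dg v0 ⊆ p := (image_mono hvG).trans hpp
  obtain ⟨h1, h2⟩ := CLC_img hIMG hDDM hF hG hP.dd hP'.dd hpg hEp hvp hv2
  have h3 := CLC_cls hIMG hDDM hF hG hP.dd hP'.dd hpg hv0 hvp0 hvp hv1
  obtain ⟨j', hj', hjj⟩ := (hP'.cv _ h3 h1).1 h2
  refine ⟨j', hj', ?_⟩
  obtain ⟨-, e2, e3, -⟩ := i1 p (s j) hat hvp
  have f1 := CLC_cnt hP hj
  have f2 := CLC_cnt hP' hj'
  rw [← hjj] at f2
  have g1 : (CLC_B T Ω E R b1 k D (s j)).Finite := finite_of_encard_eq_coe f1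
  have g2 : (CLC_B T Ω E R b1 k D' (Im p (s j))).Finite := finite_of_encard_eq_coe f2
  have l1 := CLC_le hIMG hDDM hF hG hVr hb0 hP.dd hP'.dd hp hEp hbp hvp hv2 g1
  have l2 := CLC_le hIMG hDDM hF hG hVr hb0 hP'.dd hP.dd (i7 _ _ _ _ hp) (CLC_swap_dg hEp)
    (CLC_swap_dg hbp) e3 h1 g2
  rw [e2] at l2
  rw [f1, f2] at l1
  rw [f1, f2] at l2
  have l1' : CLC_c π j ≤ CLC_c π' j' := by exact_mod_cast l1
  have l2' : CLC_c π' j' ≤ CLC_c π j := by exact_mod_cast l2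
  omega

end

theorem CLC_lt {h : Ordinal.{0}} (hh : h < om1) : Ordinal.omega0 * h < om1 := by
  rw [lt_om1_iff] at hh ⊢
  rw [Ordinal.card_mul, Ordinal.card_omega0]
  exact (mul_le_mul' le_rfl hh).trans (by simp)

theorem thm_CLC (hIMG : St_IMG) (hDDM : St_DDM) (hVCU : St_VCU) (hCLS : St_CLS) : St_CLC := by
  intro L M S F T g0 g h Ω E R b1 v1 k n U1 hF hG hh hE hEX hb1 hv1 hb1Ω hv1Ω hdj hU1 hU1d hR1
    hR2 hVr
  obtain ⟨b0, hb0, v0, hv0, hv0F, hall⟩ := hCLS L M S F T g0 g Ω E R b1 v1 k n U1 hF hG hE hEX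
    hb1 hv1 hb1Ω hv1Ω hdj hU1 hU1d hR1 fun v hv hvF => (hR2 v hv hvF).subset fun b hb =>
      ⟨(hU1 b hb.1).1, (hU1 b hb.1).2, hb.2⟩
  have hex : ∀ f : ℕ → Bool, ∃ (s : ℕ → Set M) (D : Set M),
      CLC_P T Ω E R b1 v1 b0 v0 k n (CLC_pi f) s D := by
    intro f
    obtain ⟨s, D, a1, a2, a3, a4, a5, a6, a7, a8, a9, a10⟩ := hall (CLC_pi f)
      (CLC_even f 0 rfl) (CLC_41 f 1 rfl)
      (fun i => ⟨2 * i + 2, by omega, CLC_even f _ (by omega)⟩)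
      (fun i => ⟨4 * i + 5, by omega, CLC_41 f _ (by omega)⟩)
    exact ⟨s, D, a1, a2, a3, a4, a5, fun i hi => hU1 _ (a6 i hi), a7, a8, a9, a10⟩
  choose s D hP using hex
  have hb0V : T.V k b1 b0 := (hU1 b0 hb0).1
  have hb0F : Fr T Ω E b0 := (hU1 b0 hb0).2
  have hGD : ∀ f, F ∪ E ∪ b0 ∪ v0 ⊆ D f := by
    intro f
    refine union_subset (union_subset (union_subset ?_ (hP f).ed) ?_) ?_
    · exact hF.fa.trans (hP f).dd.2.1.1
    · exact ((hP f).cb b0 hb0V hb0F).2 ⟨0, CLC_even f 0 rfl, (hP f).s0.symm⟩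
    · exact ((hP f).cv v0 hv0 hv0F).2 ⟨1, CLC_41 f 1 rfl, (hP f).s1.symm⟩
  have hinf : ∀ f, (D f).Infinite := by
    intro f hfin
    have h1 : (s f '' {i | CLC_pi f i = false}).Finite := by
      refine hfin.finite_subsets.subset ?_
      rintro _ ⟨i, hi, rfl⟩
      obtain ⟨h1, h2⟩ := (hP f).bk i hi
      exact ((hP f).cb _ h1 h2).2 ⟨i, hi, rfl⟩
    have h2 : {i | CLC_pi f i = false}.Finite := h1.of_finite_image (hP f).inj.injOn
    obtain ⟨N, hN⟩ := h2.bddAbove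
    have h3 := hN (show 2 * N + 2 ∈ {i | CLC_pi f i = false} from CLC_even f _ (by omega))
    omega
  have hGf : (F ∪ E ∪ b0 ∪ v0).Finite :=
    (((hF.ff.union hE).union (hF.fin b0 hb0F.1).1).union (hF.fin v0 hv0F.1).1)
  have hγ : Ordinal.omega0 * (max h g + 1 + 1) < om1 :=
    CLC_lt (add_one_lt_om1 (add_one_lt_om1 (max_lt hh hG.1.2.1)))
  obtain ⟨f, f', hff, hB⟩ := hF.pig D (F ∪ E ∪ b0 ∪ v0) _ hGf
    (subset_union_left.trans (subset_union_left.trans subset_union_left)) hγ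
    fun f => ⟨(hP f).dd.1, hinf f, hGD f⟩
  have hB' : BFR S S (D f') (D f) (Ordinal.omega0 * (max h g + 1 + 1)) (dg (F ∪ E ∪ b0 ∪ v0)) :=
    hB.symm (by
      rintro _ ⟨a, ha, rfl⟩
      exact ⟨a, ha, rfl⟩)
  have hFG : F ⊆ F ∪ E ∪ b0 ∪ v0 :=
    subset_union_left.trans (subset_union_left.trans subset_union_left)
  have hEG : E ⊆ F ∪ E ∪ b0 ∪ v0 :=
    subset_union_right.trans (subset_union_left.trans subset_union_left)
  have hbG : b0 ⊆ F ∪ E ∪ b0 ∪ v0 := subset_union_right.trans subset_union_left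
  have hvG : v0 ⊆ F ∪ E ∪ b0 ∪ v0 := subset_union_right
  have key := CLC_inj (CLC_nn f) (CLC_nn f')
    (CLC_sub hIMG hDDM hF hG hVr hb0V hv0 hGf hFG hEG hbG hvG (hP f) (hP f') (hGD f) (hGD f') hB)
    (CLC_sub hIMG hDDM hF hG hVr hb0V hv0 hGf hFG hEG hbG hvG (hP f') (hP f) (hGD f') (hGD f) hB')
  apply hff
  funext i
  have := key (4 * i + 3)
  rwa [CLC_43, CLC_43] at this

end HEI
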