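import Pool.Agent.HEI.StK

/-!
# HEI: [CLO] a visible set without bad sets
-/

set_option autoImplicit false
set_option linter.unusedVariables false

namespace HEI

open Set Pool.Agent.Helper5.DU Pool.Agent.Helper6.Str Pool.Agent.Helper79.VC
  Pool.Agent.Helper97.LO Pool.Agent.Helper97.VC HER HERN

/-- a bad set contains a minimal one -/
lemma CLO_min {L : FirstOrder.Language.{0, 0}} {M : Type} (S : L.Structure M) (F : Set M)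
    (T : Dt M) (Ω a : Set M) (Z : Set (Set M)) (hZ : Bd S F T Ω a Z) :
    ∃ Z' ⊆ Z, Mb S F T Ω a Z' := by
  have hfin : {Z' | Z' ⊆ Z ∧ Bd S F T Ω a Z'}.Finite :=
    (hZ.1.finite_subsets).subset (fun Z' h => h.1)
  have hne : {Z' | Z' ⊆ Z ∧ Bd S F T Ω a Z'}.Nonempty := ⟨Z, subset_rfl, hZ⟩
  obtain ⟨Z', hmin⟩ := hfin.exists_minimal hne
  refine ⟨Z', hmin.prop.1, hmin.prop.2, ?_⟩
  intro Z'' hsub hB
  have h1 : Z' ⊆ Z'' := hmin.le_of_le ⟨hsub.trans hmin.prop.1, hB⟩ hsub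
  exact Set.Subset.antisymm hsub h1

theorem thm_CLO (hDDM : St_DDM) (hVCU : St_VCU) (hEQB : St_EQB) (hOPL : St_OPL)
    (hSQV : St_SQV) (hKIL : St_KIL) : St_CLO := by
  intro L M S F T g0 g1 Ω1 hFS hF3 hV1 hyp
  obtain ⟨-, -, -, -, hdis, -⟩ := hDDM L M S F T g0 hFS
  obtain ⟨γ, Ω, g, hVi, h10, hOp, hγ, hVg, hKl⟩ := hSQV L M S F T g0 g1 Ω1 hFS hF3 hV1
    (fun h Ω hV hs => (hyp h Ω hV hs).1)
  have hstep : ∀ i, Ω i ⊆ Ω (i + 1) := fun i => (Set.subset_union_left).trans (hOp i)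
  have hmono : Monotone Ω := monotone_nat_of_le_succ hstep
  have h1i : ∀ i, Ω1 ⊆ Ω i := fun i => h10.trans (hmono (Nat.zero_le i))
  have hsubU : ∀ i, Ω i ⊆ ⋃ j, Ω j := fun i => Set.subset_iUnion Ω i
  have h1U : Ω1 ⊆ ⋃ j, Ω j := (h1i 0).trans (hsubU 0)
  have hGpU : Gp S F T g0 g (⋃ j, Ω j) := (hyp g _ hVg h1U).1
  refine ⟨g, ⋃ j, Ω j, hGpU, ?_⟩
  intro a Z0 ha haU hBd0
  obtain ⟨Z, -, hMb⟩ := CLO_min S F T (⋃ j, Ω j) a Z0 hBd0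
  obtain ⟨z, hzZ, -⟩ := hMb.1.2.2
  obtain ⟨hzB, hzU⟩ := hMb.1.2.1 z hzZ
  -- `a` is contained in some `Ω i`
  have hai : ∃ i, a ⊆ Ω i := by
    have h2 : ∀ x ∈ a, ∃ i, x ∈ Ω i := fun x hx => Set.mem_iUnion.mp (haU hx)
    choose! ix hix using h2
    obtain ⟨B, hB⟩ := (ha.image ix).bddAbove
    exact ⟨B, fun x hx => hmono (hB ⟨x, hx, rfl⟩) (hix x hx)⟩
  obtain ⟨i, hai⟩ := hai
  -- the distance
  obtain ⟨h0, hgh0, hVh0⟩ := hOPL L M S F T g0 g (⋃ j, Ω j) hFS hF3 hGpU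
  have hUO : (⋃ j, Ω j) ⊆ Op S F T (⋃ j, Ω j) := Set.subset_union_left
  have hinf : ∀ n, {b | T.V n z b ∧ ¬ b ⊆ Op S F T (⋃ j, Ω j)}.Infinite := by
    intro n
    refine (hyp h0 _ hVh0 (h1U.trans hUO)).2 z hzB n ⟨z, hFS.vr n z hzB, ?_⟩
    exact fun hc => hzU (hc.trans h1U)
  obtain ⟨h, hVh, hkil⟩ := hKIL L M S F T g0 g (⋃ j, Ω j) a Z z hFS hF3 hGpU ha haU hMb hzZ hinf
  -- `z` is interior over `a` with respect to `Ω (i + 1)`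
  have hVi1 := hVi (i + 1)
  have hUni1 : Un T (Ω (i + 1)) := hVi1.2.2.2.1
  have hGpi1 : Gp S F T g0 (γ (i + 1)) (Ω (i + 1)) := (hyp _ _ hVi1 (h1i (i + 1))).1
  have hai1 : a ⊆ Ω (i + 1) := hai.trans (hstep i)
  have hfr : ∀ c ∈ T.Bk, ¬ c ⊆ Ω (i + 1) → Fr T (Ω (i + 1)) a c := by
    intro c hc hcΩ
    exact ⟨hc, hcΩ, ((hdis (Ω (i + 1)) c hUni1 hc).mp hcΩ).mono_right hai1⟩
  have hzi1 : ¬ z ⊆ Ω (i + 1) := fun hc => hzU (hc.trans (hsubU (i + 1)))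
  have hzFr := hfr z hzB hzi1
  have hnBz : ¬ Bz S F T (Ω (i + 1)) a z := by
    intro hBz
    have hBd : Bd S F T (Ω (i + 1)) a {z} := by
      refine ⟨Set.finite_singleton z, ?_, z, Set.mem_singleton z, ?_⟩
      · intro y hy
        rw [Set.mem_singleton_iff] at hy
        rw [hy]
        exact ⟨hzB, hzi1⟩
      · have e : a ∪ ⋃₀ (({z} : Set (Set M)) \ {z}) = a := by simp
        rw [e]; exact hBz
    have hMb1 : Mb S F T (Ω (i + 1)) a {z} := by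
      refine ⟨hBd, ?_⟩
      intro Z' hZ' hB'
      obtain ⟨y, hy, -⟩ := hB'.2.2
      have hyz : y = z := Set.mem_singleton_iff.mp (hZ' hy)
      refine Set.Subset.antisymm hZ' ?_
      intro x hx
      rw [Set.mem_singleton_iff] at hx
      rw [hx, ← hyz]; exact hy
    have hz1 : z ⊆ Op S F T (Ω (i + 1)) := by
      intro x hx
      right
      exact ⟨z, ⟨a, {z}, ha, hai1, hMb1, Set.mem_singleton z⟩, hx⟩
    exact hzU ((hz1.trans (hOp (i + 1))).trans (hsubU (i + 1 + 1)))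
  have hIn : In S F T (Ω (i + 1)) (γ (i + 1)) a z := by
    by_contra hcon
    exact hnBz ⟨γ (i + 1), hVi1.2.1, hzFr, hcon⟩
  obtain ⟨-, m, hm⟩ := hIn
  obtain ⟨c1, c2, k1, k2, hc1, hc2, hn1, hn2, hK⟩ := hkil m
  have hsubO : Ω (i + 1) ⊆ Op S F T (⋃ j, Ω j) := (hsubU (i + 1)).trans hUO
  have hc1B : c1 ∈ T.Bk := (hFS.vm m z c1 hc1).2.1
  have hc2B : c2 ∈ T.Bk := (hFS.vm m z c2 hc2).2.1
  have hn1' : ¬ c1 ⊆ Ω (i + 1) := fun hc => hn1 (hc.trans hsubO)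
  have hn2' : ¬ c2 ⊆ Ω (i + 1) := fun hc => hn2 (hc.trans hsubO)
  have hE1 := hm c1 hc1 (hfr c1 hc1B hn1')
  have hE2 := hm c2 hc2 (hfr c2 hc2B hn2')
  obtain ⟨-, e2, e3, -⟩ := hEQB L M S F T g0 (γ (i + 1)) (Ω (i + 1)) a hFS hGpi1 ha
    (hai1.trans hUni1.2.1)
  have hE12 := e3 c1 z c2 (e2 z c1 hE1) hE2
  have hKi := hKl i a k1 c1 k2 c2 ha hai hc1B hc2B
    ⟨h, Op S F T (⋃ j, Ω j), hVh, (hsubU i).trans hUO, hK⟩
  exact hKi c1 c2 (hFS.vr k1 c1 hc1B) (hFS.vr k2 c2 hc2B) hn1' hn2' hE12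

end HEI
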