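import Pool.Agent.HEI.StE

/-!
# HEI: fine dense sets are dense
-/

set_option autoImplicit false
set_option linter.unusedVariables false

namespace HEI

open Set Pool.Agent.Helper5.DU Pool.Agent.Helper6.Str Pool.Agent.Helper79.VC
  Pool.Agent.Helper97.LO Pool.Agent.Helper97.VC HER HERN

theorem thm_FDE (hG : St_GRP) (hB : St_BLK) (hLVF : St_LVF) : St_FDE := by
  intro L M S F m A D hL hfin hD
  obtain ⟨hDc, hDU, hAD, hDD⟩ := hD
  obtain ⟨hU1, hU2, hU3⟩ := hDU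
  refine ⟨hDc, hAD, ?_, ?_⟩
  · intro x hx hxA
    have hxb : x ∈ Bi S F univ x := (hLVF L M S F m A hL x hxA).2.2.2.2.1
    exact hU3 _ ⟨x, hxA, rfl⟩ ⟨x, hxb, hx⟩
  · intro n x hx
    obtain ⟨-, -, -, h4, -, -, -, -⟩ := hLVF L M S F m A hL x hx
    obtain ⟨g1, g2, g3, g4, g5, g6, g7⟩ := hG L M S F n univ
    by_cases hall : ∀ y, Cj S F n univ x y → y ∉ A → Bi S F univ y ⊆ D
    · refine (h4 n).mono ?_
      rintro B ⟨y, hy, hyA, rfl⟩
      have hyb : y ∈ Bi S F univ y := (hLVF L M S F m A hL y hyA).2.2.2.2.1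
      exact ⟨y, hall y hy hyA hyb, hyA, hy, rfl⟩
    · push Not at hall
      obtain ⟨y, hy, hyA, hyD⟩ := hall
      have hbA : ¬ Bi S F univ y ⊆ A := fun h => hyA
        (h (hLVF L M S F m A hL y hyA).2.2.2.2.1)
      rcases hDD (Bi S F univ y) ⟨y, hyA, rfl⟩ hbA n with h | h
      · refine h.mono ?_
        rintro b' ⟨⟨-, ⟨z, hz, hbz⟩, σ, hσ, hσb⟩, hb2, hb3⟩
        have hyb : y ∈ Bi S F univ y := (hLVF L M S F m A hL y hyA).2.2.2.2.1
        have h5 : σ y ∈ b' := by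
          rw [← hσb]
          exact mem_image_of_mem _ hyb
        rw [hbz] at h5
        obtain ⟨-, -, h6, -⟩ := hLVF L M S F m A hL z hz
        obtain ⟨h7, h8⟩ := h6 _ h5
        refine ⟨σ y, hb3 (by rw [hbz]; exact h5), h7, ?_, by rw [h8, hbz]⟩
        obtain ⟨τ, hτ, hτx⟩ := hy
        exact ⟨σ * τ, g2 _ _ hσ hτ, by rw [Equiv.Perm.mul_apply, hτx]⟩
      · exfalso
        exact hyD (h _ ⟨⟨y, hyA, rfl⟩, ⟨y, hyA, rfl⟩, 1, g1, by simp⟩)

end HEI
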