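import Pool.Agent.HEI.StK

/-!
# HEI: [KIL] the distance to the minimal bad sets is visible
-/

set_option autoImplicit false
set_option linter.unusedVariables false

namespace HEI

open Set Pool.Agent.Helper5.DU Pool.Agent.Helper6.Str Pool.Agent.Helper79.VC
  Pool.Agent.Helper97.LO Pool.Agent.Helper97.VC HER HERN

variable {L : FirstOrder.Language.{0, 0}} {M : Type}

/-- some element of a minimal bad set of size `k` over `a` is near `c` at level `n` -/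
def KIL_R (S : L.Structure M) (F : Set M) (T : Dt M) (Ω : Set M) (k : ℕ) (a c : Set M) (n : ℕ) :
    Prop :=
  ∃ Z', Mb S F T Ω a Z' ∧ Z'.encard = (k : ℕ∞) ∧ ∃ z' ∈ Z', T.V n z' c

theorem KIL_swap {β : Type} (F : Set M) (x x' : β → M) :
    Prod.swap ⁻¹' (dg F ∪ HERN.prs x x') = dg F ∪ HERN.prs x' x := by
  ext ⟨u, v⟩
  simp only [mem_preimage, Prod.swap_prod_mk, mem_union, HERN.prs, mem_range, mem_image,
    Prod.mk.injEq]
  constructor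
  · rintro (⟨y, hy, rfl, rfl⟩ | ⟨i, rfl, rfl⟩)
    · exact Or.inl ⟨_, hy, rfl, rfl⟩
    · exact Or.inr ⟨i, rfl, rfl⟩
  · rintro (⟨y, hy, rfl, rfl⟩ | ⟨i, rfl, rfl⟩)
    · exact Or.inl ⟨_, hy, rfl, rfl⟩
    · exact Or.inr ⟨i, rfl, rfl⟩

/-- the elements of minimal bad sets are contained in `Op Ω` -/
theorem KIL_sub {S : L.Structure M} {F : Set M} {T : Dt M} {Ω a : Set M} {Z : Set (Set M)}
    (haf : a.Finite) (haΩ : a ⊆ Ω) (hZ : Mb S F T Ω a Z) {z : Set M} (hz : z ∈ Z) :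
    z ⊆ Op S F T Ω :=
  fun y hy => Or.inr ⟨z, ⟨a, Z, haf, haΩ, hZ, hz⟩, hy⟩

/-- one step of the chain -/
theorem KIL_fwd (hIMG : St_IMG) (hDDM : St_DDM) {S : L.Structure M} {F : Set M} {T : Dt M}
    {g0 g h1 h : Ordinal.{0}} {Ω : Set M} (hFS : FS S F T g0) (hGp : Gp S F T g0 g Ω)
    (hUO : Un T (Op S F T Ω)) (hg : g ≤ h1) (hh : h1 + 1 ≤ h)
    (hVBB : ∀ D D' p, DD T Ω D → DD T Ω D' → Ps S F h1 D D' p → ∀ (a : Set M) (Z : Set (Set M)),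
      a.Finite → a ⊆ Ω → (∀ z ∈ Z, z ∈ T.Bk) → Dm p a → (∀ z ∈ Z, Dm p z) →
      (Mb S F T Ω a Z ↔ Mb S F T Ω (Im p a) (Im p '' Z)))
    {β γ : Type} [Finite β] (k : ℕ) (x x' : β ⊕ γ → M) (hst : Pp S F T (Op S F T Ω) h x x')
    (hxΩ : ∀ i, x (Sum.inl i) ∈ Ω) (n : ℕ) :
    (∀ i, x' (Sum.inl i) ∈ Ω) ∧
      (KIL_R S F T Ω k (range fun i => x (Sum.inl i)) (range fun i => x (Sum.inr i)) n →
        KIL_R S F T Ω k (range fun i => x' (Sum.inl i)) (range fun i => x' (Sum.inr i)) n) := by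
  obtain ⟨D, D', hD, hD', hp⟩ := hst
  obtain ⟨i1, i2, i3, i4, i5, i6, i7, i8⟩ := hIMG L M S F
  obtain ⟨d1, d2, d3, d4, d5, d6, d7, d8, d9⟩ := hDDM L M S F T g0 hFS
  obtain ⟨⟨hg0, hgl, hΩc, hUΩ, hvs⟩, hperf⟩ := hGp
  have hΩO : Ω ⊆ Op S F T Ω := subset_union_left
  have hDΩ := d2 Ω (Op S F T Ω) D hUΩ hUO hΩO hD
  have hD'Ω := d2 Ω (Op S F T Ω) D' hUΩ hUO hΩO hD'
  have hh1 : h1 ≤ h1 + 1 := by simp
  have hdgp : dg F ⊆ dg F ∪ HERN.prs x x' := subset_union_left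
  have hpg : Ps S F g D D' (dg F ∪ HERN.prs x x') :=
    i8 h g D D' _ _ (hg.trans (hh1.trans hh)) hp subset_rfl hdgp
  have hx'Ω : ∀ i, x' (Sum.inl i) ∈ Ω := fun i =>
    (hvs D D' _ hDΩ hD'Ω hpg (x (Sum.inl i), x' (Sum.inl i))
      (Or.inr ⟨Sum.inl i, rfl⟩)).1 (hxΩ i)
  refine ⟨hx'Ω, ?_⟩
  rintro ⟨Z', hZ', hZk, z', hz', hV⟩
  set p := dg F ∪ HERN.prs x x' with hpdef
  have hZfin : Z'.Finite := hZ'.1.1
  have hZB : ∀ z ∈ Z', z ∈ T.Bk := fun z hz => (hZ'.1.2.1 z hz).1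
  have haf : (range fun i => x (Sum.inl i)).Finite := finite_range _
  have haΩ : (range fun i => x (Sum.inl i)) ⊆ Ω := by
    rintro _ ⟨i, rfl⟩; exact hxΩ i
  have hUf : (⋃₀ Z').Finite := hZfin.sUnion fun z hz => (hFS.fin z (hZB z hz)).1
  have hUD : ⋃₀ Z' ⊆ D := by
    refine sUnion_subset fun z hz => ?_
    exact (KIL_sub haf haΩ hZ' hz).trans hD.2.2.1
  have hp1 : Ps S F (h1 + 1) D D' p := i8 h (h1 + 1) D D' p p hh hp subset_rfl hdgp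
  obtain ⟨p', hpp', hp', hdm⟩ := (i6 h1 D D' p (⋃₀ Z') hp1 hUf).1 hUD
  have hat : AtEq S S p' := hp'.2.2.2.atEq
  have ha1 : ∀ i : β, ((x (Sum.inl i), x' (Sum.inl i)) : M × M) ∈ p' := fun i =>
    hpp' (Or.inr ⟨Sum.inl i, rfl⟩)
  have ha2 : ∀ i : γ, ((x (Sum.inr i), x' (Sum.inr i)) : M × M) ∈ p' := fun i =>
    hpp' (Or.inr ⟨Sum.inr i, rfl⟩)
  obtain ⟨hda, hia⟩ := i5 p' β (fun i => x (Sum.inl i)) (fun i => x' (Sum.inl i)) hat ha1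
  obtain ⟨hdc, hic⟩ := i5 p' γ (fun i => x (Sum.inr i)) (fun i => x' (Sum.inr i)) hat ha2
  have hdz : ∀ z ∈ Z', Dm p' z := fun z hz y hy => hdm y ⟨z, hz, hy⟩
  have hMb := (hVBB D D' p' hDΩ hD'Ω hp' _ Z' haf haΩ hZB hda hdz).1 hZ'
  rw [hia] at hMb
  refine ⟨Im p' '' Z', hMb, ?_, Im p' z', ⟨z', hz', rfl⟩, ?_⟩
  · rw [InjOn.encard_image ?_, hZk]
    intro b hb b' hb' hbb
    exact (i2 p' b b' hat (hdz b hb) (hdz b' hb')).1.1 hbb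
  · have hpg0 : Ps S F g0 D D' p' := i8 h1 g0 D D' p' p' (hg0.trans hg) hp' subset_rfl hp'.2.1
    have := (hFS.vv D D' p' (d3 Ω D hUΩ hDΩ) (d3 Ω D' hUΩ hD'Ω) hpg0 n z' _ (hdz z' hz') hdc).1 hV
    rw [hic] at this
    exact this

/-- steps are symmetric -/
theorem KIL_sym (hIMG : St_IMG) {S : L.Structure M} {F : Set M} {T : Dt M} {h : Ordinal.{0}}
    {Ω : Set M} {β : Type} {x x' : β → M} (hst : Pp S F T Ω h x x') : Pp S F T Ω h x' x := by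
  obtain ⟨D, D', hD, hD', hp⟩ := hst
  obtain ⟨i1, i2, i3, i4, i5, i6, i7, i8⟩ := hIMG L M S F
  have := i7 h D D' _ hp
  rw [KIL_swap] at this
  exact ⟨D', D, hD', hD, this⟩

/-- the invariant along the chain -/
theorem KIL_chain (hIMG : St_IMG) (hDDM : St_DDM) {S : L.Structure M} {F : Set M} {T : Dt M}
    {g0 g h1 h : Ordinal.{0}} {Ω : Set M} (hFS : FS S F T g0) (hGp : Gp S F T g0 g Ω)
    (hUO : Un T (Op S F T Ω)) (hg : g ≤ h1) (hh : h1 + 1 ≤ h)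
    (hVBB : ∀ D D' p, DD T Ω D → DD T Ω D' → Ps S F h1 D D' p → ∀ (a : Set M) (Z : Set (Set M)),
      a.Finite → a ⊆ Ω → (∀ z ∈ Z, z ∈ T.Bk) → Dm p a → (∀ z ∈ Z, Dm p z) →
      (Mb S F T Ω a Z ↔ Mb S F T Ω (Im p a) (Im p '' Z)))
    {β γ : Type} [Finite β] (k : ℕ) (x x' : β ⊕ γ → M) (hst : Ee S F T (Op S F T Ω) h x x')
    (hxΩ : ∀ i, x (Sum.inl i) ∈ Ω) (n : ℕ) :
    (∀ i, x' (Sum.inl i) ∈ Ω) ∧
      (KIL_R S F T Ω k (range fun i => x (Sum.inl i)) (range fun i => x (Sum.inr i)) n ↔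
        KIL_R S F T Ω k (range fun i => x' (Sum.inl i)) (range fun i => x' (Sum.inr i)) n) := by
  have key : ∀ y y' : β ⊕ γ → M, Pp S F T (Op S F T Ω) h y y' → (∀ i, y (Sum.inl i) ∈ Ω) →
      (∀ i, y' (Sum.inl i) ∈ Ω) ∧
      (KIL_R S F T Ω k (range fun i => y (Sum.inl i)) (range fun i => y (Sum.inr i)) n ↔
        KIL_R S F T Ω k (range fun i => y' (Sum.inl i)) (range fun i => y' (Sum.inr i)) n) := by
    intro y y' hy hyΩ
    obtain ⟨h2, h3⟩ := KIL_fwd hIMG hDDM hFS hGp hUO hg hh hVBB k y y' hy hyΩ n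
    exact ⟨h2, h3, (KIL_fwd hIMG hDDM hFS hGp hUO hg hh hVBB k y' y (KIL_sym hIMG hy) h2 n).2⟩
  unfold Ee at hst
  induction hst with
  | single h2 => exact key _ _ h2 hxΩ
  | tail h2 h3 ih =>
    obtain ⟨h4, h5⟩ := key _ _ h3 ih.1
    exact ⟨h4, ih.2.trans h5⟩

theorem KIL_th (hDDM : St_DDM) (hVCU : St_VCU) (hEQB : St_EQB) (hMNX : St_MNX)
    {S : L.Structure M} {F : Set M} {T : Dt M} {g0 g : Ordinal.{0}} {Ω a : Set M}
    {Z : Set (Set M)} {z : Set M} (hFS : FS S F T g0) (hF3 : F3 T) (hGp : Gp S F T g0 g Ω)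
    (haf : a.Finite) (haΩ : a ⊆ Ω) (hZ : Mb S F T Ω a Z) (hz : z ∈ Z) : Th T z := by
  obtain ⟨hzB, hzΩ⟩ := hZ.1.2.1 z hz
  rcases hF3 z hzB with h | h
  · exact h
  · exfalso
    obtain ⟨g', hg', hBx⟩ := hMNX L M S F T g0 g Ω a Z hFS hF3 hGp haf haΩ hZ z hz
    set E := a ∪ ⋃₀ (Z \ {z}) with hE
    have hEf : E.Finite := haf.union ((hZ.1.1.subset sdiff_subset).sUnion fun y hy =>
      (hFS.fin y (hZ.1.2.1 y hy.1).1).1)
    have hEX : E ⊆ T.X := by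
      rintro y (hy | ⟨b, hb, hy⟩)
      · exact hGp.1.2.2.2.1.2.1 (haΩ hy)
      · exact Or.inr ⟨b, (hZ.1.2.1 b hb.1).1, hy⟩
    have hm : max g g' < om1 := max_lt hGp.1.2.1 hg'
    have hGp' : Gp S F T g0 (max g g') Ω :=
      ⟨(hVCU L M S F T g0 hFS).1 g (max g g') Ω (le_max_left _ _) hm hGp.1, hGp.2⟩
    obtain ⟨e1, e2, e3, e4, e5, e6, e7, e8, e9⟩ :=
      hEQB L M S F T g0 (max g g') Ω E hFS hGp' hEf hEX
    have h1 := (e6 g' (max g g') z (le_max_right _ _)).2 hBx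
    exact h1.2 (e8 z h h1.1)

/-- [KIL] the distance to the minimal bad sets is visible -/
theorem thm_KIL (hIMG : St_IMG) (hDDM : St_DDM) (hVCU : St_VCU) (hGPD : St_GPD) (hEQB : St_EQB)
    (hMNX : St_MNX) (hMNF : St_MNF) (hVBB : St_VBB) (hOPL : St_OPL) : St_KIL := by
  intro L M S F T g0 g Ω a Z z hFS hF3 hGp haf haΩ hZ hz hinf
  obtain ⟨h1, hg1, h1l, hv⟩ := hVBB L M S F T g0 g Ω hFS hF3 hGp
  obtain ⟨h2, hg2, hO⟩ := hOPL L M S F T g0 g Ω hFS hF3 hGp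
  have h1' : h1 + 1 < om1 :=
    add_lt_om1 h1l (Ordinal.one_lt_omega0.trans_le (Ordinal.omega0_le_omega 1))
  have hm : max (h1 + 1) h2 < om1 := max_lt h1' hO.2.1
  have hO' := (hVCU L M S F T g0 hFS).1 h2 (max (h1 + 1) h2) _ (le_max_right _ _) hm hO
  refine ⟨max (h1 + 1) h2, hO', fun m => ?_⟩
  have hth := KIL_th hDDM hVCU hEQB hMNX hFS hF3 hGp haf haΩ hZ hz
  have hzO : z ⊆ Op S F T Ω := KIL_sub haf haΩ hZ hz
  obtain ⟨hzB, hzΩ⟩ := hZ.1.2.1 z hz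
  -- the finite set of all elements of the minimal bad sets of the same size
  set k := Z.ncard with hk
  have hZk : Z.encard = (k : ℕ∞) := by
    rw [hk, hZ.1.1.cast_ncard_eq]
  have hFFf : {z' | ∃ Z', Mb S F T Ω a Z' ∧ Z'.encard = (k : ℕ∞) ∧ z' ∈ Z'}.Finite := by
    have := hMNF L M S F T g0 g Ω a k hFS hF3 hGp haf haΩ
    refine (this.sUnion fun Z' hZ' => hZ'.1.1.1).subset ?_
    rintro z' ⟨Z', h3, h4, h5⟩
    exact ⟨Z', ⟨h3, h4⟩, h5⟩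
  have hsep : ∃ n1, m ≤ n1 ∧ ∀ z' ∈ {z' | ∃ Z', Mb S F T Ω a Z' ∧ Z'.encard = (k : ℕ∞) ∧ z' ∈ Z'},
      z' ≠ z → ¬ T.V n1 z z' := by
    have h3 : ∀ z' : Set M, ∃ n, z' ≠ z → ¬ T.V n z z' := by
      intro z'
      by_cases h4 : z' = z
      · exact ⟨0, fun h5 => absurd h4 h5⟩
      · by_contra hcon
        push Not at hcon
        exact h4 (hth z' fun n => (hcon n).2)
    choose f hf using h3
    obtain ⟨N, hN⟩ := (hFFf.image f).bddAbove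
    refine ⟨max m N, le_max_left _ _, fun z' hz' hne hV => hf z' hne ?_⟩
    exact hFS.vd _ _ _ _ ((hN ⟨z', hz', rfl⟩).trans (le_max_right _ _)) hV
  obtain ⟨n1, hmn1, hn1⟩ := hsep
  have hR : ∀ c, T.V n1 z c → ∀ n, n1 ≤ n → (KIL_R S F T Ω k a c n ↔ T.V n z c) := by
    intro c hc n hn
    constructor
    · rintro ⟨Z', h3, h4, z', h5, h6⟩
      by_cases h7 : z' = z
      · rw [← h7]; exact h6
      · exfalso
        refine hn1 z' ⟨Z', h3, h4, h5⟩ h7 ?_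
        exact hFS.vt _ _ _ _ hc (hFS.vs _ _ _ (hFS.vd _ _ _ _ hn h6))
    · intro h3
      exact ⟨Z, hZ, hZk, z, hz, h3⟩
  obtain ⟨c1, hc1, hc1O⟩ := (hinf n1).nonempty
  have hne1 : c1 ≠ z := fun h3 => hc1O (h3 ▸ hzO)
  have hex : ∃ n, ¬ T.V n z c1 := by
    by_contra hcon
    push Not at hcon
    exact hne1 (hth c1 hcon)
  obtain ⟨k1, hk1⟩ := hex
  have hk1n : n1 ≤ k1 := by
    by_contra hlt
    exact hk1 (hFS.vd _ _ _ _ (not_le.1 hlt).le hc1)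
  obtain ⟨c2, hc2, hc2O⟩ := (hinf k1).nonempty
  refine ⟨c1, c2, k1, k1, hFS.vd _ _ _ _ hmn1 hc1, hFS.vd _ _ _ _ (hmn1.trans hk1n) hc2, hc1O,
    hc2O, ?_⟩
  intro c c' hcc hcc' hcO hcO' hEb
  obtain ⟨q, w, w', hw, hw', hwc, hwc', hEe⟩ := hEb
  have : Finite a := haf.to_subtype
  obtain ⟨-, hiff⟩ := KIL_chain hIMG hDDM hFS hGp hO.2.2.2.1 hg1 (le_max_left _ _) hv k
    (tp a w) (tp a w') hEe (fun i => haΩ i.2) k1
  have ha' : (range fun i : a => tp a w (Sum.inl i)) = a := by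
    simp [tp]
  have ha'' : (range fun i : a => tp a w' (Sum.inl i)) = a := by
    simp [tp]
  have hcr : (range fun i : Fin q => tp a w (Sum.inr i)) = c := by
    rw [← hwc]; rfl
  have hcr' : (range fun i : Fin q => tp a w' (Sum.inr i)) = c' := by
    rw [← hwc']; rfl
  rw [ha', ha'', hcr, hcr'] at hiff
  have hc'1 : T.V k1 z c' := hFS.vt _ _ _ _ hc2 hcc'
  have hc'n : T.V n1 z c' := hFS.vd _ _ _ _ hk1n hc'1
  have hcn : T.V n1 z c := hFS.vt _ _ _ _ hc1 (hFS.vd _ _ _ _ hk1n hcc)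
  have h3 := (hR c hcn k1 hk1n).1 (hiff.2 ((hR c' hc'n k1 hk1n).2 hc'1))
  exact hk1 (hFS.vt _ _ _ _ h3 (hFS.vs _ _ _ hcc))

end HEI
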