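import Pool.Agent.HEI.StK

/-!
# HEI [LFN]: locally finite visible hypergraphs are finite (helper49)
-/

set_option autoImplicit false
set_option linter.unusedVariables false

namespace HEI

open Set Pool.Agent.Helper5.DU Pool.Agent.Helper6.Str Pool.Agent.Helper79.VC
  Pool.Agent.Helper97.LO Pool.Agent.Helper97.VC HER HERN

section

variable {M : Type}

theorem LFN_enum {α : Type} {Z : Set α} {m : ℕ} (h : Z.encard = m) :
    ∃ f : Fin m → α, Function.Injective f ∧ range f = Z := by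
  have hfin : Z.Finite := Set.finite_of_encard_eq_coe h
  have hc : Nat.card Z = m := by
    rw [Nat.card_coe_set_eq, Set.ncard, h]
    rfl
  have := hfin.to_subtype
  obtain ⟨e⟩ : Nonempty (Z ≃ Fin m) := ⟨Finite.equivFinOfCardEq hc⟩
  refine ⟨fun i => (e.symm i : α), Subtype.val_injective.comp e.symm.injective, ?_⟩
  ext x
  constructor
  · rintro ⟨i, rfl⟩
    exact (e.symm i).2
  · intro hx
    exact ⟨e ⟨x, hx⟩, by simp⟩

theorem LFN_mul {γ : Ordinal.{0}} (h : γ < om1) : Ordinal.omega0.{0} * γ < om1 := by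
  rw [lt_om1_iff] at h ⊢
  rw [Ordinal.card_mul]
  calc Ordinal.card Ordinal.omega0.{0} * γ.card ≤ Cardinal.aleph0 * Cardinal.aleph0 :=
        mul_le_mul' (by rw [Ordinal.card_omega0]) h
    _ = Cardinal.aleph0 := Cardinal.aleph0_mul_aleph0

/-- the two blocks are in one member of `H` -/
def LFN_cf (H : Set (Set (Set M))) (x y : Set M) : Prop := ∃ Z ∈ H, x ∈ Z ∧ y ∈ Z

theorem LFN_cf_symm {H : Set (Set (Set M))} {x y : Set M} (h : LFN_cf H x y) :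
    LFN_cf H y x := by
  obtain ⟨Z, h1, h2, h3⟩ := h
  exact ⟨Z, h1, h3, h2⟩

theorem LFN_cf_fin {H : Set (Set (Set M))} (h1 : ∀ Z ∈ H, Z.Finite)
    (h2 : ∀ b, {Z | Z ∈ H ∧ b ∈ Z}.Finite) (x : Set M) : {z | LFN_cf H z x}.Finite := by
  refine ((h2 x).biUnion (t := fun Z => Z) (fun Z hZ => h1 Z hZ.1)).subset ?_
  rintro z ⟨Z, hZ, hz, hx⟩
  exact mem_biUnion (show Z ∈ {Z | Z ∈ H ∧ x ∈ Z} from ⟨hZ, hx⟩) hz

/-- the conditions of one choice -/
def LFN_P (T : Dt M) (Ω : Set M) (H : Set (Set (Set M))) (q : ℕ → ℕ × Set M) (n : ℕ)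
    (X : Set (Set M × Set (Set M))) (a : Set M × Set (Set M)) : Prop :=
  a.2 ∈ H ∧ ((∀ a' ∈ X, a'.2 ∈ H) → T.V (q n).1 (q n).2 a.1 ∧ ¬ a.1 ⊆ Ω ∧
    (∀ a' ∈ X, a.1 ≠ a'.1) ∧
    (∀ a' ∈ X, ∀ x, (x = a'.1 ∨ x ∈ a'.2) → ¬ LFN_cf H a.1 x ∧ ∀ z ∈ a.2, ¬ LFN_cf H z x) ∧
    ∀ z ∈ a.2, ¬ LFN_cf H z a.1)

theorem LFN_ex (T : Dt M) (Ω : Set M) (H : Set (Set (Set M))) (q : ℕ → ℕ × Set M)
    (hinf : H.Infinite) (h1 : ∀ Z ∈ H, Z.Finite) (h2 : ∀ b, {Z | Z ∈ H ∧ b ∈ Z}.Finite)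
    (hq : ∀ n, {b' | T.V (q n).1 (q n).2 b' ∧ ¬ b' ⊆ Ω}.Infinite) (n : ℕ)
    (X : Set (Set M × Set (Set M))) (hX : X.Finite) : ∃ a, LFN_P T Ω H q n X a := by
  by_cases hXH : ∀ a' ∈ X, a'.2 ∈ H
  · obtain ⟨Y, hY⟩ : ∃ Y : Set (Set M), Y = {x | ∃ a' ∈ X, x = a'.1 ∨ x ∈ a'.2} := ⟨_, rfl⟩
    have hYf : Y.Finite := by
      have h3 : Y ⊆ ⋃ a' ∈ X, ({a'.1} ∪ a'.2) := by
        rw [hY]
        rintro x ⟨a', ha', hx⟩
        refine mem_biUnion ha' ?_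
        rcases hx with hx | hx
        · exact Or.inl hx
        · exact Or.inr hx
      exact (hX.biUnion fun a' ha' => (finite_singleton _).union (h1 _ (hXH a' ha'))).subset h3
    obtain ⟨N, hN⟩ : ∃ N : Set (Set M), N = {z | ∃ x ∈ Y, LFN_cf H z x} := ⟨_, rfl⟩
    have hNf : N.Finite := by
      have h3 : N ⊆ ⋃ x ∈ Y, {z | LFN_cf H z x} := by
        rw [hN]
        rintro z ⟨x, hx, hz⟩
        exact mem_biUnion hx hz
      exact (hYf.biUnion fun x _ => LFN_cf_fin h1 h2 x).subset h3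
    obtain ⟨d, hd, hdN⟩ := ((hq n).sdiff (hYf.union hNf)).nonempty
    have hWf : (N ∪ {z | LFN_cf H z d}).Finite := hNf.union (LFN_cf_fin h1 h2 d)
    have h4 : {Z | Z ∈ H ∧ ∃ z ∈ N ∪ {z | LFN_cf H z d}, z ∈ Z}.Finite := by
      refine (hWf.biUnion (t := fun z => {Z | Z ∈ H ∧ z ∈ Z}) fun z _ => h2 z).subset ?_
      rintro Z ⟨hZ, z, hz, hzZ⟩
      exact mem_biUnion hz ⟨hZ, hzZ⟩
    obtain ⟨Z, hZ, hZn⟩ := (hinf.sdiff h4).nonempty
    have hZ' : ∀ z ∈ Z, z ∉ N ∪ {z | LFN_cf H z d} := fun z hz hzN => hZn ⟨hZ, z, hzN, hz⟩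
    refine ⟨(d, Z), hZ, fun _ => ⟨hd.1, hd.2, ?_, ?_, ?_⟩⟩
    · intro a' ha' hda
      apply hdN
      left
      rw [hY]
      exact ⟨a', ha', Or.inl hda⟩
    · intro a' ha' x hx
      have hxY : x ∈ Y := by
        rw [hY]
        exact ⟨a', ha', hx⟩
      refine ⟨fun hc => hdN (Or.inr ?_), fun z hz hc => hZ' z hz (Or.inl ?_)⟩
      · rw [hN]
        exact ⟨x, hxY, hc⟩
      · rw [hN]
        exact ⟨x, hxY, hc⟩
    · intro z hz hc
      exact hZ' z hz (Or.inr hc)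
  · obtain ⟨Z, hZ⟩ := hinf.nonempty
    exact ⟨(∅, Z), hZ, fun h => absurd h hXH⟩

/-- the members of `H` made of chosen blocks -/
theorem LFN_claim {H : Set (Set (Set M))} {k : ℕ} (s : ℕ → Set M × Set (Set M))
    (hc : ∀ Z ∈ H, Z.encard = (k + 2 : ℕ)) (hH : ∀ n, (s n).2 ∈ H)
    (h4 : ∀ n i, i < n → ∀ x, (x = (s i).1 ∨ x ∈ (s i).2) →
      ¬ LFN_cf H (s n).1 x ∧ ∀ z ∈ (s n).2, ¬ LFN_cf H z x)
    (h5 : ∀ n, ∀ z ∈ (s n).2, ¬ LFN_cf H z (s n).1) (N : Set ℕ) (Z : Set (Set M)) (hZ : Z ∈ H)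
    (hch : ∀ z ∈ Z, (∃ i, z = (s i).1) ∨ ∃ i ∈ N, z ∈ (s i).2) : ∃ i ∈ N, Z = (s i).2 := by
  have hdd : ∀ i j, i ≠ j → ¬ LFN_cf H (s i).1 (s j).1 := by
    intro i j hij hcf
    rcases lt_or_gt_of_ne hij with h | h
    · exact (h4 j i h _ (Or.inl rfl)).1 (LFN_cf_symm hcf)
    · exact (h4 i j h _ (Or.inl rfl)).1 hcf
  have hdz : ∀ i j, ∀ z ∈ (s j).2, ¬ LFN_cf H z (s i).1 := by
    intro i j z hz hcf
    rcases lt_trichotomy i j with h | h | h
    · exact (h4 j i h _ (Or.inl rfl)).2 z hz hcf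
    · subst h
      exact h5 i z hz hcf
    · exact (h4 i j h z (Or.inr hz)).1 (LFN_cf_symm hcf)
  have hzz : ∀ i j, i ≠ j → ∀ z ∈ (s i).2, ∀ z' ∈ (s j).2, ¬ LFN_cf H z z' := by
    intro i j hij z hz z' hz' hcf
    rcases lt_or_gt_of_ne hij with h | h
    · exact (h4 j i h z (Or.inr hz)).2 z' hz' (LFN_cf_symm hcf)
    · exact (h4 i j h z' (Or.inr hz')).2 z hz hcf
  have hne : Z.Nonempty := by
    rw [← Set.encard_pos, hc Z hZ]
    exact_mod_cast Nat.succ_pos _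
  obtain ⟨z0, hz0⟩ := hne
  rcases hch z0 hz0 with ⟨i, hi⟩ | ⟨i, hiN, hi⟩
  · exfalso
    obtain ⟨z1, hz1, hz10⟩ : ∃ z1 ∈ Z, z1 ≠ z0 := by
      by_contra hcon
      push Not at hcon
      have h6 : Z ⊆ {z0} := fun z hz => hcon z hz
      have h7 := Set.encard_le_encard h6
      rw [hc Z hZ, Set.encard_singleton] at h7
      have h8 : k + 2 ≤ 1 := by exact_mod_cast h7
      omega
    rcases hch z1 hz1 with ⟨j, hj⟩ | ⟨j, hjN, hj⟩
    · have hij : i ≠ j := by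
        intro h
        subst h
        exact hz10 (hj.trans hi.symm)
      exact hdd i j hij (hi ▸ hj ▸ ⟨Z, hZ, hz0, hz1⟩)
    · exact hdz i j z1 hj (hi ▸ ⟨Z, hZ, hz1, hz0⟩)
  · refine ⟨i, hiN, ?_⟩
    have hsub : Z ⊆ (s i).2 := by
      intro z hz
      rcases hch z hz with ⟨j, hj⟩ | ⟨j, hjN, hj⟩
      · exact absurd (hj ▸ ⟨Z, hZ, hz0, hz⟩ : LFN_cf H z0 (s j).1) (hdz j i z0 hi)
      · by_cases hij : i = j
        · subst hij
          exact hj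
        · exact absurd ⟨Z, hZ, hz0, hz⟩ (hzz i j hij z0 hi z hj)
    have hfin : (s i).2.Finite := Set.finite_of_encard_eq_coe (hc _ (hH i))
    exact (hfin.subset hsub).eq_of_subset_of_encard_le hsub (by rw [hc _ (hH i), hc Z hZ])

end

theorem thm_LFN (hI : St_IMG) (hD : St_DDM) (hR : St_RQE) (hS : St_SEQ) (hDC : St_DCD) :
    St_LFN := by
  intro L M S F T g0 g Ω E k H hF hF3 hG hE hEX hH1 hH2 hH3 hH4
  by_contra hinf
  have hinf : H.Infinite := hinf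
  obtain ⟨i1, i2, i3, i4, i5, i6, i7, i8⟩ := hI L M S F
  obtain ⟨d1, d2, d3, d4, d5, d6, d7, d8, d9⟩ := hD L M S F T g0 hF
  have hfinZ : ∀ Z ∈ H, Z.Finite := fun Z hZ => Set.finite_of_encard_eq_coe (hH1 Z hZ).1
  have hΩu : Un T Ω := hG.1.2.2.2.1
  have hΩc : Ω.Countable := hG.1.2.2.1
  have hmeet : {b | b ∈ T.Bk ∧ ¬ Disjoint b E}.Finite := d9 E hE
  -- (a) the blocks are thin
  have hthin : ∀ Z ∈ H, ∀ z ∈ Z, Th T z := by
    intro Z hZ z hz
    have hfr := (hH1 Z hZ).2 z hz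
    rcases hF3 z hfr.1 with h | ⟨n, hn⟩
    · exact h
    · exfalso
      obtain ⟨y, hyZ, hyz⟩ : ∃ y ∈ Z, y ≠ z := by
        by_contra hcon
        push Not at hcon
        have h6 : Z ⊆ {z} := fun y hy => hcon y hy
        have h7 := Set.encard_le_encard h6
        rw [(hH1 Z hZ).1, Set.encard_singleton] at h7
        have h8 : k + 2 ≤ 1 := by exact_mod_cast h7
        omega
      have hQ := (hG.2 z hfr.1 hfr.2.1 n).sdiff (hmeet.union (hfinZ Z hZ))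
      have hinj : Set.InjOn (fun z' => insert z' (Z \ {z}))
          ({b' | T.V n z b' ∧ ¬ b' ⊆ Ω} \ ({b | b ∈ T.Bk ∧ ¬ Disjoint b E} ∪ Z)) := by
        intro u hu v hv huv
        have h1 : u ∈ insert v (Z \ {z}) := by
          rw [← show insert u (Z \ {z}) = insert v (Z \ {z}) from huv]
          exact mem_insert _ _
        rcases h1 with h1 | h1
        · exact h1
        · exact absurd (Or.inr h1.1) hu.2
      refine (hQ.image hinj).mono ?_ (hH2 y)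
      rintro _ ⟨z', ⟨⟨hz'1, hz'2⟩, hz'3⟩, rfl⟩
      have hz'B : z' ∈ T.Bk := (hF.vm _ _ _ hz'1).2.1
      refine ⟨hH4 Z hZ z hz z' (fun h => hz'3 (Or.inr h)) ⟨hz'B, hz'2, ?_⟩ (hn z' hz'1), ?_⟩
      · by_contra h
        exact hz'3 (Or.inl ⟨hz'B, h⟩)
      · exact mem_insert_of_mem _ ⟨hyZ, hyz⟩
  -- (b) the sequence
  obtain ⟨q, hq1, hq2⟩ := hR L M S F T g0 Ω hF (by
    obtain ⟨Z, hZ⟩ := hinf.nonempty
    have hne : Z.Nonempty := by
      rw [← Set.encard_pos, (hH1 Z hZ).1]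
      exact_mod_cast Nat.succ_pos _
    obtain ⟨z, hz⟩ := hne
    exact ⟨z, ((hH1 Z hZ).2 z hz).1, ((hH1 Z hZ).2 z hz).2.1⟩)
  obtain ⟨s, hs⟩ := hS (Set M × Set (Set M)) (LFN_P T Ω H q)
    (LFN_ex T Ω H q hinf hfinZ hH2 fun n => hG.2 _ (hq1 n).1 (hq1 n).2 _)
  have hsH : ∀ n, (s n).2 ∈ H := fun n => (hs n).1
  have hs' := fun n => (hs n).2 (by
    rintro _ ⟨i, _, rfl⟩
    exact hsH i)
  have hsV : ∀ n, T.V (q n).1 (q n).2 (s n).1 := fun n => (hs' n).1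
  have hsΩ : ∀ n, ¬ (s n).1 ⊆ Ω := fun n => (hs' n).2.1
  have hsne : ∀ n i, i < n → (s n).1 ≠ (s i).1 := fun n i hi =>
    (hs' n).2.2.1 (s i) ⟨i, hi, rfl⟩
  have hs4 : ∀ n i, i < n → ∀ x, (x = (s i).1 ∨ x ∈ (s i).2) →
      ¬ LFN_cf H (s n).1 x ∧ ∀ z ∈ (s n).2, ¬ LFN_cf H z x := fun n i hi =>
    (hs' n).2.2.2.1 (s i) ⟨i, hi, rfl⟩
  have hs5 : ∀ n, ∀ z ∈ (s n).2, ¬ LFN_cf H z (s n).1 := fun n => (hs' n).2.2.2.2
  have hsB : ∀ n, (s n).1 ∈ T.Bk := fun n => (hF.vm _ _ _ (hsV n)).2.1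
  have hsinj : Function.Injective (fun n => (s n).1) := by
    intro i j hij
    by_contra hne
    rcases lt_or_gt_of_ne hne with h | h
    · exact hsne j i h hij.symm
    · exact hsne i j h hij
  have hclaim := LFN_claim s (fun Z hZ => (hH1 Z hZ).1) hsH hs4 hs5
  -- the sets `D`
  obtain ⟨C, hC⟩ : ∃ C : Set ℕ → Set (Set M), C = fun N =>
      (range fun n => (s n).1) ∪ (⋃ i ∈ N, (s i).2) ∪ {b | b ∈ T.Bk ∧ ¬ Disjoint b E} :=
    ⟨_, rfl⟩
  have hCmem : ∀ N b, b ∈ C N ↔ ((∃ n, (s n).1 = b) ∨ ∃ i ∈ N, b ∈ (s i).2) ∨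
      (b ∈ T.Bk ∧ ¬ Disjoint b E) := by
    intro N b
    rw [hC]
    simp only [mem_union, mem_range, mem_iUnion, exists_prop, mem_ofPred_eq]
  have hCB : ∀ N, C N ⊆ T.Bk := by
    intro N b hb
    rw [hCmem] at hb
    rcases hb with (⟨n, rfl⟩ | ⟨i, _, hi⟩) | hb
    · exact hsB n
    · exact ((hH1 _ (hsH i)).2 b hi).1
    · exact hb.1
  have hCc : ∀ N, (C N).Countable := by
    intro N
    rw [hC]
    refine ((countable_range _).union ?_).union hmeet.countable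
    exact (Set.to_countable N).biUnion fun i _ => (hfinZ _ (hsH i)).countable
  obtain ⟨D, hDdef⟩ : ∃ D : Set ℕ → Set M, D = fun N => Ω ∪ ⋃₀ C N := ⟨_, rfl⟩
  have hDblk : ∀ N, ∀ b ∈ T.Bk, (b ∩ D N).Nonempty → b ⊆ Ω ∨ b ∈ C N := by
    rintro N b hb ⟨x, hxb, hxD⟩
    rw [hDdef] at hxD
    rcases hxD with hx | ⟨c, hc, hxc⟩
    · exact Or.inl (hΩu.2.2 b hb ⟨x, hxb, hx⟩)
    · right
      rw [hF.dis b hb c (hCB N hc) ⟨x, hxb, hxc⟩]
      exact hc
  have hCD : ∀ N, ∀ b ∈ C N, b ⊆ D N := by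
    intro N b hb x hx
    rw [hDdef]
    exact Or.inr ⟨b, hb, hx⟩
  have hΩD : ∀ N, Ω ⊆ D N := by
    intro N
    rw [hDdef]
    exact subset_union_left
  have hDc : ∀ N, (D N).Countable := by
    intro N
    rw [hDdef]
    exact hΩc.union ((hCc N).sUnion fun b hb => (hF.fin b (hCB N hb)).1.countable)
  have hDun : ∀ N, Un T (D N) := by
    intro N
    refine ⟨hΩu.1.trans (hΩD N), ?_, ?_⟩
    · rw [hDdef]
      rintro x (hx | ⟨c, hc, hxc⟩)
      · exact hΩu.2.1 hx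
      · exact Or.inr ⟨c, hCB N hc, hxc⟩
    · intro b hb hne
      rcases hDblk N b hb hne with h | h
      · exact h.trans (hΩD N)
      · exact hCD N b h
  have hDD : ∀ N, DD T Ω (D N) := by
    intro N
    refine ⟨hDc N, hDun N, hΩD N, fun b hb hbΩ n => Or.inl ?_⟩
    have h1 := (hq2 n b hb hbΩ).image hsinj.injOn
    refine h1.mono ?_
    rintro _ ⟨m, ⟨hm1, hm2⟩, rfl⟩
    refine ⟨?_, hsΩ m, hCD N _ ?_⟩
    · have h2 := hsV m
      rw [hm1] at h2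
      exact hF.vt n _ _ _ hm2 h2
    · rw [hCmem]
      exact Or.inl (Or.inl ⟨m, rfl⟩)
  have hDmono : ∀ N, D N ⊆ D univ := by
    intro N
    rw [hDdef]
    refine union_subset_union_right _ (sUnion_subset_sUnion ?_)
    intro b hb
    rw [hCmem] at hb ⊢
    rcases hb with (h | ⟨i, _, hi⟩) | h
    · exact Or.inl (Or.inl h)
    · exact Or.inl (Or.inr ⟨i, mem_univ _, hi⟩)
    · exact Or.inr h
  have hED : ∀ N, E ⊆ D N := by
    intro N x hx
    rcases hEX hx with h | ⟨b, hb, hxb⟩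
    · exact hΩD N (hΩu.1 h)
    · refine hCD N b ?_ hxb
      rw [hCmem]
      exact Or.inr ⟨hb, Set.not_disjoint_iff.2 ⟨x, hxb, hx⟩⟩
  -- (c)
  obtain ⟨h, hh, hvis⟩ := hH3 (D univ) (hDc univ)
  have hen : ∀ i, ∃ f : Fin (k + 1 + 1) → Set M, Function.Injective f ∧ range f = (s i).2 :=
    fun i => LFN_enum (hH1 _ (hsH i)).1
  choose Z hZinj hZr using hen
  have hZmem : ∀ i a, Z i a ∈ (s i).2 := fun i a => by
    rw [← hZr i]
    exact mem_range_self a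
  have hZB : ∀ i a, Z i a ∈ T.Bk := fun i a => ((hH1 _ (hsH i)).2 _ (hZmem i a)).1
  refine hDC L M S F T g0 (k + 1) Z (F ∪ E) (Ordinal.omega0 * h) D hF hZB ?_
    (hF.ff.union hE) subset_union_left (LFN_mul hh) ?_ ?_
  · intro i a j b hab
    have h1 : Z j b = Z i a := hthin _ (hsH i) _ (hZmem i a) _ hab
    have hij : i = j := by
      by_contra hne
      have hcf : LFN_cf H (Z i a) (Z j b) := by
        rw [h1]
        exact ⟨_, hsH i, hZmem i a, hZmem i a⟩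
      rcases lt_or_gt_of_ne hne with h2 | h2
      · exact (hs4 j i h2 _ (Or.inr (hZmem i a))).2 _ (hZmem j b) (LFN_cf_symm hcf)
      · exact (hs4 i j h2 _ (Or.inr (hZmem j b))).2 _ (hZmem i a) hcf
    subst hij
    exact ⟨rfl, (hZinj i h1).symm⟩
  · intro N hN
    refine ⟨d3 Ω (D N) hΩu (hDD N), union_subset ?_ (hED N), fun i hi a => ?_⟩
    · exact hF.fa.trans (hΩu.1.trans (hΩD N))
    · refine hCD N _ ?_
      rw [hCmem]
      exact Or.inl (Or.inr ⟨i, hi, hZmem i a⟩)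
  · intro N N' hN hN' p hp hGp hpD hbf i hi hdm
    have hdg : dg F ⊆ p ∧ dg E ⊆ p := by
      constructor
      · exact (image_mono subset_union_left).trans hGp
      · exact (image_mono subset_union_right).trans hGp
    have hat : AtEq S S p := hbf.atEq
    have hdm' : ∀ z ∈ (s i).2, Dm p z := by
      intro z hz
      rw [← hZr i] at hz
      obtain ⟨a, rfl⟩ := hz
      exact hdm a
    have hIH : Im p '' (s i).2 ∈ H :=
      hvis (D N) (D N') p (hDD N) (hDD N') (hDmono N) (hDmono N') ⟨hp, hdg.1, hpD, hbf⟩ hdg.2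
        _ (hsH i) hdm'
    obtain ⟨j, hj, hje⟩ := hclaim N' _ hIH (by
      rintro z ⟨w, hw, rfl⟩
      obtain ⟨f1, f2, f3⟩ := (hH1 _ hIH).2 (Im p w) ⟨w, hw, rfl⟩
      obtain ⟨x, hx⟩ := (hF.fin _ f1).2.1
      have hxD : x ∈ D N' := by
        obtain ⟨y, _, hy⟩ := hx
        exact (hpD _ hy).2
      rcases hDblk N' (Im p w) f1 ⟨x, hx, hxD⟩ with h3 | h3
      · exact absurd h3 f2
      · rw [hCmem] at h3
        rcases h3 with (⟨m, hm⟩ | h3) | h3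
        · exact Or.inl ⟨m, hm.symm⟩
        · exact Or.inr h3
        · exact absurd f3 h3.2)
    have hex : ∀ a, ∃ b, Z j b = Im p (Z i a) := by
      intro a
      have h3 : Im p (Z i a) ∈ (s j).2 := by
        rw [← hje]
        exact ⟨_, hZmem i a, rfl⟩
      rw [← hZr j] at h3
      exact h3
    choose e he using hex
    have heinj : Function.Injective e := by
      intro a a' haa
      have h3 : Im p (Z i a) = Im p (Z i a') := by
        rw [← he a, ← he a', haa]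
      exact hZinj i (((i2 p _ _ hat (hdm a) (hdm a')).1).1 h3)
    refine ⟨j, hj, Equiv.ofBijective e (Finite.injective_iff_bijective.1 heinj), fun a n => ?_⟩
    show T.V n (Im p (Z i a)) (Z j (e a))
    rw [← he a]
    exact hF.vr n _ (hZB j (e a))

end HEI
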