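import Pool.Agent.HEI.StA

/-!
# HEI [AEL]: elements of `A` which are good in `D` (helper38)
-/

set_option autoImplicit false
set_option linter.unusedVariables false

namespace HEI

open Set Pool.Agent.Helper5.DU Pool.Agent.Helper6.Str Pool.Agent.Helper79.VC
  Pool.Agent.Helper97.LO Pool.Agent.Helper97.VC HER HERN

section

variable {L : FirstOrder.Language.{0, 0}} {M : Type} {S : L.Structure M} {F X Y : Set M}
  {n k : ℕ}

theorem AEL_row_le {J β : Type} {w : J → β → M} (hR : Ro S F n X w) (hk : k ≤ n) :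
    Ro S F k X w :=
  ⟨hR.1, hR.2.1, fun i j hij => (hR.2.2 i j hij).le hk⟩

theorem AEL_dj {J β : Type} {w : J → β → M} (hR : Ro S F n X w) {i j : J} (hij : i ≠ j) :
    Dj (w i) (w j) :=
  ⟨fun p q h => (hR.2.1 i p i q h).2, fun p q h => (hR.2.1 j p j q h).2,
    fun p q h => hij (hR.2.1 i p j q h).1⟩

/-- the exchange of two members of a row -/
theorem AEL_xc (hG : St_GRP) {J β : Type} [Finite β] {w : J → β → M} (hR : Ro S F n X w)
    {i j : J} (hij : i ≠ j) : ∃ σ : Equiv.Perm M, Xc (w i) (w j) σ ∧ Ph S F n X σ := by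
  obtain ⟨-, -, -, -, -, g6, g7⟩ := hG L M S F n X
  have h1 := AEL_dj hR hij
  obtain ⟨σ, hσ⟩ := g6 β (w i) (w j) h1
  exact ⟨σ, hσ, (g7 β (w i) (w j) σ h1 hσ (hR.1 i) (hR.1 j)).2 (hR.2.2 i j hij)⟩

/-- support of an exchange -/
theorem AEL_supp {β : Type} {w w' : β → M} {σ : Equiv.Perm M} (hσ : Xc w w' σ) {x : M}
    (hx : σ x ≠ x) : x ∈ range w ∨ x ∈ range w' := by
  by_contra h
  rw [not_or] at h
  exact hx (hσ.2.2 x h.1 h.2)

/-- rows in smaller sets -/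
theorem AEL_down {J β : Type} {w : J → β → M} (hR : Ro S F n univ w) (hY : ∀ i p, w i p ∈ Y) :
    Ro S F n Y w := by
  refine ⟨hY, hR.2.1, fun i j hij => (hR.2.2 i j hij).anti ?_⟩
  rintro a ((⟨h1, h2, h3, h4⟩ | h) | h)
  · exact Or.inl (Or.inl ⟨h1, mem_univ _, h3, h4⟩)
  · exact Or.inl (Or.inr h)
  · exact Or.inr h

/-- the row of a good subset of the first member of a row -/
theorem AEL_sub (hG : St_GRP) (hB : St_BLK) (hC : St_CNJ) {b : ℕ} {w : ℕ → Fin (b + 1) → M}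
    (hR : Ro S F k X w) {G : Set M} (hGs : Gs S F k X G) (hsub : G ⊆ range (w 0)) :
    ∃ (b' : ℕ) (e : Fin (b' + 1) → Fin (b + 1)), range (fun p => w 0 (e p)) = G ∧
      Ro S F k X (fun i p => w i (e p)) := by
  obtain ⟨b1, -, -, b4, -⟩ := hB L M S F k X
  obtain ⟨-, ⟨x, hx⟩, -⟩ := b1 G hGs
  obtain ⟨c, ⟨E⟩⟩ := Finite.exists_equiv_fin ({p | w 0 p ∈ G} : Set (Fin (b + 1)))
  obtain ⟨p0, hp0⟩ := hsub hx
  have hp0G : w 0 p0 ∈ G := by
    rw [hp0]
    exact hx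
  rcases c with _ | b'
  · exact (E ⟨p0, hp0G⟩).elim0
  obtain ⟨e, he, hr⟩ : ∃ e : Fin (b' + 1) → Fin (b + 1), Function.Injective e ∧
      range (fun p => w 0 (e p)) = G := by
    refine ⟨fun p => (E.symm p).1, fun p q h => E.symm.injective (Subtype.ext h), ?_⟩
    ext z
    constructor
    · rintro ⟨p, rfl⟩
      exact (E.symm p).2
    · intro hz
      obtain ⟨p, hp⟩ := hsub hz
      have hpG : w 0 p ∈ G := by
        rw [hp]
        exact hz
      refine ⟨E ⟨p, hpG⟩, ?_⟩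
      show w 0 (E.symm (E ⟨p, hpG⟩)).1 = z
      rw [Equiv.symm_apply_apply]
      exact hp
  refine ⟨b', e, hr, fun i p => hR.1 i _, fun i p j q h => ?_,
    fun i j hij => ?_⟩
  · obtain ⟨h1, h2⟩ := hR.2.1 i _ j _ h
    exact ⟨h1, he h2⟩
  · have hgi : Gs S F k X (range (fun p : Fin (b' + 1) => w i (e p))) := by
      by_cases hi : 0 = i
      · rw [← hi, hr]
        exact hGs
      · obtain ⟨σ, hσ, hP⟩ := AEL_xc hG hR hi
        have h1 := b4 σ G hP hGs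
        have h2 : σ '' G = range (fun p : Fin (b' + 1) => w i (e p)) := by
          rw [← hr, ← range_comp]
          congr 1
          funext p
          exact hσ.1 _
        rw [← h2]
        exact h1
    obtain ⟨σ, hσ, hP⟩ := AEL_xc hG hR hij
    have h1 := (hC L M S F k X σ hP).1 (Fin (b' + 1)) (fun p => w i (e p))
      (fun p q h => he (hR.2.1 i _ i _ h).2) hgi (fun p q h => by
        rw [hσ.1] at h
        exact hij (hR.2.1 j _ i _ h).1.symm)
    have h2 : (fun p : Fin (b' + 1) => σ (w i (e p))) = fun p => w j (e p) := by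
      funext p
      exact hσ.1 _
    rw [h2] at h1
    exact h1.2.2.2

/-- rows in `D` with members in `A` are rows in `M` -/
theorem AEL_up (hG : St_GRP) (hRDV : St_RDV) {m : ℕ → ℕ} {A : Set M} {C : Set (Set M)}
    (hL : Lv S F m A) (hP : PD S F A C) {b : ℕ} {w : ℕ → Fin (b + 1) → M}
    (hR : Ro S F n (A ∪ ⋃₀ C) w) (hA : ∀ i p, w i p ∈ A) : Ro S F n univ w := by
  refine ⟨fun i p => mem_univ _, hR.2.1, fun i j hij => ?_⟩
  obtain ⟨σ, hσ, hPh⟩ := AEL_xc hG hR hij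
  obtain ⟨-, -, -, -, -, -, g7⟩ := hG L M S F n univ
  refine (g7 _ (w i) (w j) σ (AEL_dj hR hij) hσ (fun _ => mem_univ _) (fun _ => mem_univ _)).1 ?_
  refine hRDV L M S F m A C n σ hL hP hPh fun x hx => Or.inl ?_
  rcases AEL_supp hσ hx with ⟨p, rfl⟩ | ⟨p, rfl⟩
  · exact hA i p
  · exact hA j p

end

theorem thm_AEL (hG : St_GRP) (hB : St_BLK) (hC : St_CNJ) (hRDV : St_RDV) (hPBL : St_PBL) :
    St_AEL := by
  intro L M S F m A C x hL hP hxA
  set D : Set M := A ∪ ⋃₀ C with hD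
  -- (1), for all elements of `A`
  have c1 : ∀ z ∈ A, ∀ n, Gx S F n D z → Bl S F n D z ⊆ A := by
    intro z hz n hg y hy
    obtain ⟨b1, b2, b3, -⟩ := hB L M S F n D
    obtain ⟨hgs, hzz⟩ := b2 z hg
    have hyD : y ∈ D := (b1 _ hgs).2.2 hy
    rcases hyD with h | ⟨P, hPC, hyP⟩
    · exact h
    · exfalso
      obtain ⟨l, hl⟩ := hPBL L M S F m A C hL hP P hPC
      obtain ⟨-, -, -, -, -, h6, -⟩ := hl y hyP
      have h7 : z ∈ Bl S F n D y := by
        rw [(b3 z y hg hy).2]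
        exact hzz
      exact (hl z (h6 n h7)).1 hz
  -- (2)
  have c2 : ∀ n k, n ≤ k → T2 S F A n D x → T2 S F A k D x := by
    rintro n k hk h y ⟨σ, hσ, hy⟩
    exact h y ⟨σ, (hG L M S F k D).2.2.2.1 n σ hk hσ, hy⟩
  -- the row of the block
  have row : ∀ n, Gx S F n D x → T2 S F A n D x → ∃ (b : ℕ) (w : ℕ → Fin (b + 1) → M),
      Ro S F n D w ∧ range (w 0) = Bl S F n D x ∧ (∀ i p, w i p ∈ A) ∧ Ro S F n univ w := by
    intro n hg hT
    obtain ⟨b1, b2, -, -, b5, -⟩ := hB L M S F n D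
    obtain ⟨⟨b, w, hR, hr⟩, hxx⟩ := b2 x hg
    have hwA : ∀ i p, w i p ∈ A := by
      intro i p
      by_cases hi : 0 = i
      · subst hi
        refine c1 x hxA n hg ?_
        rw [← hr]
        exact mem_range_self p
      · obtain ⟨σ, hσ, hPh⟩ := AEL_xc hG hR hi
        have h1 : σ x ∈ A := hT _ ⟨σ, hPh, rfl⟩
        obtain ⟨h2, h3⟩ := b5 σ x hPh hg
        refine c1 (σ x) h1 n h2 ?_
        rw [h3, ← hr, ← hσ.1 p]
        exact mem_image_of_mem _ (mem_range_self p)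
    exact ⟨b, w, hR, hr, hwA, AEL_up hG hRDV hL hP hR hwA⟩
  -- (3)
  have c3 : ∀ n k, k ≤ n → Gx S F n D x → T2 S F A n D x → Gx S F k univ x ∧
      Bl S F k D x = Bl S F k univ x := by
    intro n k hk hg hT
    obtain ⟨b, w, hR, hr, hwA, hRM⟩ := row n hg hT
    obtain ⟨-, b2, -, -, -, -, b7⟩ := hB L M S F k D
    obtain ⟨hgk, hsub⟩ := b7 n x hk hg
    obtain ⟨hgs, hxk⟩ := b2 x hgk
    rw [← hr] at hsub
    obtain ⟨b', e, he, hRo⟩ := AEL_sub hG hB hC (AEL_row_le hR hk) hgs hsub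
    have hup := AEL_up hG hRDV hL hP hRo fun i p => hwA i (e p)
    have hgM : Gs S F k univ (Bl S F k D x) := ⟨b', _, hup, he⟩
    have hgx : Gx S F k univ x := ⟨_, hgM, hxk⟩
    refine ⟨hgx, ?_⟩
    have hle : Bl S F k univ x ⊆ Bl S F k D x := fun y hy => hy _ hgM hxk
    refine Subset.antisymm ?_ hle
    obtain ⟨-, m2, -⟩ := hB L M S F k univ
    obtain ⟨hus, hux⟩ := m2 x hgx
    obtain ⟨b'', e', he', hRo'⟩ := AEL_sub hG hB hC (AEL_row_le hRM hk) hus (hle.trans hsub)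
    have hdown : Ro S F k D (fun i p => w i (e' p)) := AEL_down hRo' fun i p => hR.1 i _
    have hgD : Gs S F k D (Bl S F k univ x) := ⟨b'', _, hdown, he'⟩
    exact fun y hy => hy _ hgD hux
  refine ⟨c1 x hxA, c2, c3, ?_, ?_⟩
  · -- (4)
    rintro n y hg hT ⟨σ, hσ, rfl⟩
    obtain ⟨b, w, hR, hr, hwA, hRM⟩ := row n hg hT
    obtain ⟨-, b2, -, -, b5, -⟩ := hB L M S F n D
    obtain ⟨-, hxx⟩ := b2 x hg
    obtain ⟨h2, h3⟩ := b5 σ x hσ hg
    have hσA : Bl S F n D (σ x) ⊆ A := c1 (σ x) (hT _ ⟨σ, hσ, rfl⟩) n h2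
    -- a member of the row off the support of `σ`
    obtain ⟨i, hi0, hi⟩ : ∃ i, 0 ≠ i ∧ ∀ p, σ (w i p) = w i p := by
      by_contra hcon
      push Not at hcon
      have hch : ∀ i : ℕ, ∃ p, σ (w (i + 1) p) ≠ w (i + 1) p := fun i =>
        hcon (i + 1) (Nat.succ_ne_zero i).symm
      choose f hf using hch
      have hinj : Function.Injective fun i => w (i + 1) (f i) := fun i j h => by
        have := (hR.2.1 _ _ _ _ h).1
        omega
      exact (infinite_range_of_injective hinj) (hσ.1.subset (by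
        rintro _ ⟨i, rfl⟩
        exact hf i))
    obtain ⟨p, hp⟩ : x ∈ range (w 0) := by
      rw [hr]
      exact hxx
    obtain ⟨ρ, hρ, hρP⟩ := AEL_xc hG hR hi0
    obtain ⟨ρ', hρ', hρP'⟩ := AEL_xc hG hRM hi0
    obtain ⟨-, gm, gi, -, -, -, -⟩ := hG L M S F n D
    obtain ⟨-, um, ui, -, -, -, -⟩ := hG L M S F n univ
    have hτ : Ph S F n D (σ * ρ * σ⁻¹) := gm _ _ (gm _ _ hσ hρP) (gi _ hσ)
    have hinv : ∀ z, σ⁻¹ (σ z) = z := fun z => σ.symm_apply_apply z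
    have hinv' : ∀ z, σ (σ⁻¹ z) = z := fun z => σ.apply_symm_apply z
    have hτM : Ph S F n univ (σ * ρ * σ⁻¹) := by
      refine hRDV L M S F m A C n _ hL hP hτ fun z hz => Or.inl ?_
      have hz' : ρ (σ⁻¹ z) ≠ σ⁻¹ z := by
        intro h
        apply hz
        show σ (ρ (σ⁻¹ z)) = z
        rw [h, hinv']
      rcases AEL_supp hρ hz' with h | ⟨q, hq⟩
      · apply hσA
        rw [h3, ← hr]
        exact ⟨σ⁻¹ z, h, hinv' z⟩
      · have h5 : z = w i q := by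
          rw [← hi q, hq, hinv']
        rw [h5]
        exact hwA i q
    -- `σ x ↦ w i p` and `x ↦ w i p`
    have e1 : (σ * ρ * σ⁻¹) (σ x) = w i p := by
      show σ (ρ (σ⁻¹ (σ x))) = w i p
      rw [hinv, ← hp, hρ.1, hi]
    have e2 : ρ' x = w i p := by
      rw [← hp, hρ'.1]
    refine ⟨(σ * ρ * σ⁻¹)⁻¹ * ρ', um _ _ (ui _ hτM) hρP', ?_⟩
    show (σ * ρ * σ⁻¹)⁻¹ (ρ' x) = σ x
    rw [e2, ← e1]
    exact (σ * ρ * σ⁻¹).symm_apply_apply (σ x)
  · -- (5)
    rintro hg ⟨n, hn⟩ k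
    exact c3 (max n k) k (le_max_right _ _) (hg _) (c2 n _ (le_max_left _ _) hn)

end HEI
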