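import Pool.Agent.HEI.StA

/-!
# HEI: uniform visibility of the set `A`
-/

set_option autoImplicit false
set_option linter.unusedVariables false

namespace HEI

open Set Pool.Agent.Helper5.DU Pool.Agent.Helper6.Str Pool.Agent.Helper79.VC
  Pool.Agent.Helper97.LO Pool.Agent.Helper97.VC HER HERN

variable {L : FirstOrder.Language.{0, 0}} {M : Type}

/-- the statement of the module for one element -/
def ASH_star (S : L.Structure M) (F A : Set M) (γ : Ordinal.{0}) (x : M) : Prop :=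
  ∀ (C C' : Set (Set M)) (p : Set (M × M)) (y : M), PD S F A C → PD S F A C' → p.Finite →
    dg F ⊆ p → (∀ a ∈ p, a.1 ∈ A ∪ ⋃₀ C ∧ a.2 ∈ A ∪ ⋃₀ C') →
    BFR S S (A ∪ ⋃₀ C) (A ∪ ⋃₀ C') γ p → (y, x) ∈ p → y ∈ ⋃₀ C →
    T1 S F A (A ∪ ⋃₀ C') x

theorem ASH_star.mono {S : L.Structure M} {F A : Set M} {γ γ' : Ordinal.{0}} {x : M}
    (h : γ ≤ γ') (h1 : ASH_star S F A γ x) : ASH_star S F A γ' x :=
  fun C C' p y hC hC' hp hF hD hB hy hyC => h1 C C' p y hC hC' hp hF hD (hB.mono h) hy hyC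

/-- the set `A#` -/
def ASH_A (S : L.Structure M) (F A : Set M) : Set M :=
  {x | x ∈ A ∧ ∃ γ < om1, ASH_star S F A γ x}

theorem ASH_om (k : ℕ) : Ordinal.omega0.{0} * k < om1 := by
  induction k with
  | zero => simpa using Ordinal.omega_pos 1
  | succ k ih =>
    rw [Nat.cast_succ, mul_add, mul_one]
    exact add_lt_om1 ih omega_lt_om1

theorem ASH_om4 : Ordinal.omega0.{0} * 4 < Ordinal.omega0 * 5 := by
  have h : (4 : Ordinal.{0}) < 5 := by exact_mod_cast (by norm_num : (4 : ℕ) < 5)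
  exact mul_lt_mul_of_pos_left h Ordinal.omega0_pos

theorem ASH_om5 : Ordinal.omega0.{0} * 5 < om1 := by
  have := ASH_om 5
  exact_mod_cast this

/-- `T1` from the failure of `T2` -/
theorem ASH_basic (hV : St_VIS) (hP : St_PBL) {S : L.Structure M} {F : Set M} {m : ℕ → ℕ}
    {A : Set M} (hL : Lv S F m A) {C C' : Set (Set M)} {p : Set (M × M)} {x y : M}
    {γ : Ordinal.{0}} (hC : PD S F A C) (hF : dg F ⊆ p)
    (hD : ∀ a ∈ p, a.1 ∈ A ∪ ⋃₀ C ∧ a.2 ∈ A ∪ ⋃₀ C')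
    (hB : BFR S S (A ∪ ⋃₀ C) (A ∪ ⋃₀ C') γ p) (hγ : Ordinal.omega0 * 4 ≤ γ)
    (hy : (y, x) ∈ p) (hyC : y ∈ ⋃₀ C) :
    (∀ n, Gx S F n (A ∪ ⋃₀ C) y) ∧ (∀ n, Gx S F n (A ∪ ⋃₀ C') x) ∧
      ∀ n, (Bl S F n (A ∪ ⋃₀ C') x).encard ≤ m n := by
  obtain ⟨P, hPC, hyP⟩ := hyC
  obtain ⟨l, hl⟩ := hP L M S F m A C hL hC P hPC
  obtain ⟨h1, h2, h3, h4, h5, h6, h7, h8, h9⟩ := hl y hyP
  have hv := hV L M S F _ _ γ p hL.ff hγ hF hD hB
  refine ⟨h3, fun n => (hv.2.1 n _ hy).mp (h3 n), fun n => ?_⟩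
  have := hv.2.2.2.2.1 n _ hy (h3 n)
  rw [← this]
  exact h8 n

/-- [ASH] uniform visibility of `A` -/
theorem thm_ASH (hG : St_GRP) (hBL : St_BLK) (hCN : St_CNJ) (hU : St_UTL) (hV : St_VIS)
    (hLV : St_LVF) (hP : St_PBL) (hA : St_AEL) : St_ASH := by
  intro L M S F m A hL
  have key : Cls S F m (ASH_A S F A) := by
    have hsub : ASH_A S F A ⊆ A := fun x hx => hx.1
    refine ⟨fun n x hx => ?_, fun n x hx => ?_, fun n x x1 hx hgx hx1 => ?_, fun n x0 hfin => ?_⟩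
    · -- gd
      have hxA : x ∈ A := hL.cl.gd n x hx
      refine ⟨hxA, _, ASH_om5, ?_⟩
      intro C C' p y hC hC' hp hF hD hB hy hyC
      obtain ⟨b1, b2, b3⟩ := ASH_basic hV hP hL hC hF hD hB ASH_om4.le hy hyC
      refine fun k => ⟨b2 k, fun ht => ?_⟩
      exact hx (((hA L M S F m A C' x hL hC' hxA).2.2.2.2 b2 ⟨k, ht⟩ n).1)
    · -- sz
      have hxA : x ∈ A := hL.cl.sz n x hx
      refine ⟨hxA, _, ASH_om5, ?_⟩
      intro C C' p y hC hC' hp hF hD hB hy hyC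
      obtain ⟨b1, b2, b3⟩ := ASH_basic hV hP hL hC hF hD hB ASH_om4.le hy hyC
      refine fun k => ⟨b2 k, fun ht => hx ?_⟩
      rw [← ((hA L M S F m A C' x hL hC' hxA).2.2.2.2 b2 ⟨k, ht⟩ n).2]
      exact b3 n
    · -- bl
      obtain ⟨hxA, γx, hγx, hst⟩ := hx
      have hx1A : x1 ∈ A := hL.cl.bl n x x1 hxA hgx hx1
      refine ⟨hx1A, γx + Ordinal.omega0 * 5, add_lt_om1 hγx ASH_om5, ?_⟩
      intro C C' p y1 hC hC' hp hF hD hB hy hyC
      have hlt : γx + Ordinal.omega0 * 4 < γx + Ordinal.omega0 * 5 := add_lt_add_right ASH_om4 γx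
      have hle4 : Ordinal.omega0 * 4 ≤ γx + Ordinal.omega0 * 4 := le_add_self
      obtain ⟨b1, b2, b3⟩ := ASH_basic hV hP hL hC hF hD hB (hle4.trans hlt.le) hy hyC
      refine fun k => ⟨b2 k, fun ht => ?_⟩
      obtain ⟨a1, a2, a3, a4, a5⟩ := hA L M S F m A C' x1 hL hC' hx1A
      have ht' : T2 S F A (max k n) (A ∪ ⋃₀ C') x1 := a2 k (max k n) (le_max_left _ _) ht
      have ha5 := a5 b2 ⟨k, ht⟩
      have hBu := hBL L M S F n univ
      have hxx : x ∈ Bl S F n univ x1 := by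
        rw [(hBu.2.2.1 x x1 hgx hx1).2]
        exact (hBu.2.1 x hgx).2
      rw [← (ha5 n).2] at hxx
      obtain ⟨y, hyD, hB'⟩ := hB.back hlt (Or.inl hxA : x ∈ A ∪ ⋃₀ C')
      have hF' : dg F ⊆ insert (y, x) p := hF.trans (subset_insert _ _)
      have hD' : ∀ a ∈ insert (y, x) p, a.1 ∈ A ∪ ⋃₀ C ∧ a.2 ∈ A ∪ ⋃₀ C' := by
        rintro a (rfl | ha)
        · exact ⟨hyD, Or.inl hxA⟩
        · exact hD a ha
      have hv := hV L M S F _ _ _ _ hL.ff hle4 hF' hD' hB'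
      obtain ⟨P, hPC, hyP⟩ := hyC
      obtain ⟨l, hl⟩ := hP L M S F m A C hL hC P hPC
      obtain ⟨h1, h2, h3, h4, h5, h6, h7, h8, h9⟩ := hl y1 hyP
      have hyB : y ∈ Bl S F n (A ∪ ⋃₀ C) y1 :=
        (hv.2.2.1 n (y1, x1) (mem_insert_of_mem _ hy) (y, x) (mem_insert _ _) (h3 n)).mpr hxx
      have hyC' : y ∈ ⋃₀ C := ⟨P, hPC, h6 n hyB⟩
      have hT := hst C C' _ y hC hC' (hp.insert _) hF' hD' (hB'.mono le_self_add)
        (mem_insert _ _) hyC'
      refine (hT (max k n)).2 ?_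
      rintro z ⟨σ, hσ, rfl⟩
      have hBD := hBL L M S F (max k n) (A ∪ ⋃₀ C')
      have hxB : x ∈ Bl S F (max k n) (A ∪ ⋃₀ C') x1 :=
        ((hBL L M S F n (A ∪ ⋃₀ C')).2.2.2.2.2.2 (max k n) x1 (le_max_right _ _)
          (b2 (max k n))).2 hxx
      have hσ1 : σ x1 ∈ A := ht' _ ⟨σ, hσ, rfl⟩
      obtain ⟨c1, c2⟩ := hBD.2.2.2.2.1 σ x1 hσ (b2 _)
      have hc3 := (hA L M S F m A C' (σ x1) hL hC' hσ1).1 (max k n) c1
      apply hc3
      rw [c2]
      exact mem_image_of_mem σ hxB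
    · -- ob
      have horbA : ∀ y, Cj S F n univ x0 y → y ∈ A := by
        refine hL.cl.ob n x0 (hfin.subset ?_)
        rintro B ⟨y, h1, h2, h3⟩
        exact ⟨y, h1, fun h => h2 (hsub h), h3⟩
      intro x hx
      have hxA : x ∈ A := horbA x hx
      -- the bound of the ordinals
      have hcnt : Countable {z : M | z ∈ ASH_A S F A} := (hL.ac.mono hsub).to_subtype
      choose g hg1 hg2 using fun z : {z : M | z ∈ ASH_A S F A} => z.2.2
      obtain ⟨γ0, hγ0, hle⟩ := exists_bound hg1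
      refine ⟨hxA, γ0 + Ordinal.omega0 * 5, add_lt_om1 hγ0 ASH_om5, ?_⟩
      intro C C' p y hC hC' hp hF hD hB hy hyC
      have hlt : γ0 + Ordinal.omega0 * 4 < γ0 + Ordinal.omega0 * 5 := add_lt_add_right ASH_om4 γ0
      have hle4 : Ordinal.omega0 * 4 ≤ γ0 + Ordinal.omega0 * 4 := le_add_self
      obtain ⟨b1, b2, b3⟩ := ASH_basic hV hP hL hC hF hD hB (hle4.trans hlt.le) hy hyC
      refine fun k => ⟨b2 k, fun ht => ?_⟩
      obtain ⟨a1, a2, a3, a4, a5⟩ := hA L M S F m A C' x hL hC' hxA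
      have ht' : T2 S F A (max k n) (A ∪ ⋃₀ C') x := a2 k (max k n) (le_max_left _ _) ht
      obtain ⟨P, hPC, hyP⟩ := hyC
      obtain ⟨l, hl⟩ := hP L M S F m A C hL hC P hPC
      obtain ⟨h1, h2, h3, h4, h5, h6, h7, h8, h9⟩ := hl y hyP
      -- finitely many `∞`-blocks, infinitely many pieces
      set Bad := {B | ∃ y, Cj S F n univ x0 y ∧ y ∉ ASH_A S F A ∧ B = Bi S F univ y} with hBad
      set r := hfin.toFinset.card with hr
      obtain ⟨T, hT1, hT2⟩ := (h9 (max k n)).exists_subset_card_eq (r + 1)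
      have hbij : ∃ e : Fin (r + 1) → Set M, Function.Injective e ∧ ∀ i, e i ∈ T := by
        have hc : Fintype.card (Fin (r + 1)) = Fintype.card T := by simp [hT2]
        let e := (Fintype.equivOfCardEq hc)
        exact ⟨fun i => (e i).1, fun i j hij => e.injective (Subtype.ext hij), fun i => (e i).2⟩
      obtain ⟨Q, hQi, hQT⟩ := hbij
      have hQ : ∀ i, Q i ∈ C ∧ ∃ y' ∈ Q i, Cj S F (max k n) (A ∪ ⋃₀ C) y y' :=
        fun i => hT1 (hQT i)
      choose hQC yy hyy hcj using hQ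
      have hmany : γ0 + Ordinal.omega0 * 4 + ((r + 1 : ℕ) : Ordinal.{0}) ≤
          γ0 + Ordinal.omega0 * 5 := by
        rw [add_assoc]
        refine add_le_add_right ?_ γ0
        have h5 : (5 : Ordinal.{0}) = 4 + 1 := by norm_num
        rw [h5, mul_add, mul_one]
        exact add_le_add_right (Ordinal.natCast_lt_omega0 _).le _
      obtain ⟨xx, hxxD, hB'⟩ := BFR.forth_many (r + 1) (hB.mono hmany) yy
        (fun i => Or.inr ⟨Q i, hQC i, hyy i⟩)
      set p' := p ∪ range fun i => (yy i, xx i) with hp'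
      have hF' : dg F ⊆ p' := hF.trans subset_union_left
      have hD' : ∀ a ∈ p', a.1 ∈ A ∪ ⋃₀ C ∧ a.2 ∈ A ∪ ⋃₀ C' := by
        rintro a (ha | ⟨i, rfl⟩)
        · exact hD a ha
        · exact ⟨Or.inr ⟨Q i, hQC i, hyy i⟩, hxxD i⟩
      have hfp' : p'.Finite := hp.union (finite_range _)
      have hv := hV L M S F _ _ _ _ hL.ff hle4 hF' hD' hB'
      have hmy : (y, x) ∈ p' := Or.inl hy
      have hmi : ∀ i, (yy i, xx i) ∈ p' := fun i => Or.inr ⟨i, rfl⟩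
      have hcx : ∀ i, Cj S F (max k n) (A ∪ ⋃₀ C') x (xx i) := fun i =>
        (hv.2.2.2.1 (max k n) _ hmy _ (hmi i) (h3 _)).mp (hcj i)
      have hxxA : ∀ i, xx i ∈ A := fun i => ht' _ (hcx i)
      have htr : ∀ i, T2 S F A (max k n) (A ∪ ⋃₀ C') (xx i) := by
        intro i z hz
        obtain ⟨σ, hσ, hσx⟩ := hcx i
        obtain ⟨τ, hτ, hτx⟩ := hz
        refine ht' z ⟨τ * σ, (hG L M S F (max k n) (A ∪ ⋃₀ C')).2.1 τ σ hτ hσ, ?_⟩
        rw [Equiv.Perm.mul_apply, hσx, hτx]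
      have hbi := fun i => ASH_basic hV hP hL hC hF' hD' hB' hle4 (hmi i)
        (⟨Q i, hQC i, hyy i⟩ : yy i ∈ ⋃₀ C)
      have hBi : ∀ i, Bi S F (A ∪ ⋃₀ C') (xx i) = Bi S F univ (xx i) := by
        intro i
        have := (hA L M S F m A C' (xx i) hL hC' (hxxA i)).2.2.2.2 (hbi i).2.1 ⟨_, htr i⟩
        unfold Bi
        exact iUnion_congr fun j => (this j).2
      have hself : ∀ i j : Fin (r + 1), Bi S F univ (xx i) = Bi S F univ (xx j) → i = j := by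
        intro i j hij
        have h10 : xx j ∈ Bi S F (A ∪ ⋃₀ C') (xx i) := by
          rw [hBi i, hij]
          exact mem_iUnion.mpr ⟨0, fun B _ hB => hB⟩
        obtain ⟨u, hu⟩ := mem_iUnion.mp h10
        have h11 : yy j ∈ Bl S F u (A ∪ ⋃₀ C) (yy i) :=
          (hv.2.2.1 u _ (hmi i) _ (hmi j) ((hbi i).1 u)).mpr hu
        obtain ⟨l', hl'⟩ := hP L M S F m A C hL hC (Q i) (hQC i)
        obtain ⟨g1, g2, g3, g4, g5, g6, g7, g8, g9⟩ := hl' (yy i) (hyy i)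
        have h12 : yy j ∈ Q i := g6 u h11
        exact hQi (hC.ds (Q i) (hQC i) (Q j) (hQC j) (yy j) h12 (yy j) (hyy j) rfl)
      have horb : ∀ i, Cj S F n univ x0 (xx i) := by
        intro i
        obtain ⟨σ, hσ, hσx⟩ := a4 (max k n) (xx i) (b2 _) ht' (hcx i)
        obtain ⟨τ, hτ, hτx⟩ := hx
        refine ⟨σ * τ, (hG L M S F n univ).2.1 σ τ
          ((hG L M S F (max k n) univ).2.2.2.1 n σ (le_max_right _ _) hσ) hτ, ?_⟩
        rw [Equiv.Perm.mul_apply, hτx, hσx]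
      -- one of them is in `A#`
      have hex : ∃ i, xx i ∈ ASH_A S F A := by
        by_contra hno
        push Not at hno
        have hmap : ∀ i, Bi S F univ (xx i) ∈ hfin.toFinset := fun i =>
          hfin.mem_toFinset.mpr ⟨xx i, horb i, hno i, rfl⟩
        have hcard : Fintype.card (Fin (r + 1)) ≤ hfin.toFinset.card := by
          rw [← Finset.card_univ]
          exact Finset.card_le_card_of_injOn (fun i => Bi S F univ (xx i))
            (fun i _ => hmap i) (fun i _ j _ h => hself i j h)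
        rw [Fintype.card_fin] at hcard
        omega
      obtain ⟨i, hi⟩ := hex
      have h13 := (hg2 ⟨xx i, hi⟩).mono (hle ⟨xx i, hi⟩)
      have h14 := h13 C C' p' (yy i) hC hC' hfp' hF' hD' (hB'.mono le_self_add) (hmi i)
        ⟨Q i, hQC i, hyy i⟩
      exact (h14 (max k n)).2 (htr i)
  have hAA : A ⊆ ASH_A S F A := hL.least _ key
  have hcnt : Countable A := hL.ac.to_subtype
  choose g hg1 hg2 using fun z : A => (hAA z.2).2
  obtain ⟨γ0, hγ0, hle⟩ := exists_bound hg1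
  refine ⟨γ0 + Ordinal.omega0 * 5, add_lt_om1 hγ0 ASH_om5, le_add_self, ?_⟩
  intro C C' p x y hC hC' hp hF hD hB hy hyC hxA
  exact (hg2 ⟨x, hxA⟩).mono ((hle ⟨x, hxA⟩).trans le_self_add) C C' p y hC hC' hp hF hD hB hy hyC

end HEI
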