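import Pool.Agent.HEI.StA

/-!
# HEI: the `∞`-blocks outside of `A` are finite (BFT)
-/

set_option autoImplicit false
set_option linter.unusedVariables false

namespace HEI

open Set Pool.Agent.Helper5.DU Pool.Agent.Helper6.Str Pool.Agent.Helper79.VC
  Pool.Agent.Helper97.LO Pool.Agent.Helper97.VC HER HERN

variable {L : FirstOrder.Language.{0, 0}} {M : Type}

theorem BFT_piece {S : L.Structure M} {F : Set M} {m : ℕ → ℕ} {A : Set M} {C : Set (Set M)}
    (hL : Lv S F m A) (hC : PD S F A C) {P : Set M} (hP : P ∈ C) : P.Finite := by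
  obtain ⟨x, l, hx, rfl, -⟩ := hC.pc P hP
  have h1 : (Bl S F l univ x).encard ≤ m l := by
    by_contra h
    exact hx (hL.cl.sz l x h)
  exact Set.finite_of_encard_le_coe h1

theorem BFT_ctb {S : L.Structure M} {F : Set M} {m : ℕ → ℕ} {A : Set M} {C : Set (Set M)}
    (hL : Lv S F m A) (hC : PD S F A C) : (A ∪ ⋃₀ C).Countable :=
  hL.ac.union (hC.ctb.sUnion fun P hP => (BFT_piece hL hC hP).countable)

theorem BFT_inf {S : L.Structure M} {F : Set M} {A : Set M} {C : Set (Set M)}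
    (hC : PD S F A C) {P : Set M} (hP : P ∈ C) : (A ∪ ⋃₀ C).Infinite := by
  intro hfin
  obtain ⟨x, l, -, -, h⟩ := hC.pc P hP
  refine h l le_rfl (hfin.finite_subsets.subset ?_)
  rintro P' ⟨hP', -⟩
  exact (subset_sUnion_of_mem hP').trans subset_union_right

/-- the image of an `∞`-block with finitely many elements -/
theorem BFT_img (hBLK : St_BLK) {S : L.Structure M} {F : Set M} {X Y : Set M}
    {K l : ℕ} {u v : Fin K → M} (hu : Function.Injective u) (hv : Function.Injective v) (i : Fin K)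
    (hG : ∀ n, Gx S F n X (u i)) (hl : ∀ n, l ≤ n → Bl S F n X (u i) = range u)
    (h2 : ∀ n, Gx S F n X (u i) ↔ Gx S F n Y (v i))
    (h3 : ∀ n i', Gx S F n X (u i) → (u i' ∈ Bl S F n X (u i) ↔ v i' ∈ Bl S F n Y (v i)))
    (h5 : ∀ n, Gx S F n X (u i) → (Bl S F n X (u i)).encard = (Bl S F n Y (v i)).encard) :
    Bi S F Y (v i) = range v := by
  have hGY : ∀ n, Gx S F n Y (v i) := fun n => (h2 n).1 (hG n)
  have hcu : (range u).encard = K := by
    rw [← image_univ, hu.injOn.encard_image, encard_univ]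
    simp
  have hcv : (range v).encard = K := by
    rw [← image_univ, hv.injOn.encard_image, encard_univ]
    simp
  have hbig : ∀ n, l ≤ n → Bl S F n Y (v i) = range v := by
    intro n hn
    have e1 : (Bl S F n Y (v i)).encard = K := by
      rw [← h5 n (hG n), hl n hn, hcu]
    have e2 : range v ⊆ Bl S F n Y (v i) := by
      rintro _ ⟨i', rfl⟩
      refine (h3 n i' (hG n)).1 ?_
      rw [hl n hn]
      exact ⟨i', rfl⟩
    exact ((finite_range v).eq_of_subset_of_encard_le e2 (by rw [e1, hcv])).symm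
  refine subset_antisymm ?_ ?_
  · refine iUnion_subset fun n => ?_
    have e1 := ((hBLK L M S F n Y).2.2.2.2.2.2 (max n l) (v i) (le_max_left _ _)
      (hGY (max n l))).2
    rw [hbig _ (le_max_right _ _)] at e1
    exact e1
  · rw [← hbig l le_rfl]
    exact subset_iUnion (fun n => Bl S F n Y (v i)) l

theorem thm_BFT (hBLK : St_BLK) (hVIS : St_VIS) (hPBL : St_PBL) (hASH : St_ASH) (hTYI : St_TYI)
    (hEXA : St_EXA) (hEXB : St_EXB) (hEFM : St_EFM) : St_BFT := by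
  intro L M S F m A hL x0 hx0
  by_contra hinf
  obtain ⟨C, k, hk, hPD, h3, h4⟩ := hEFM L M S F m A x0 hL hx0 hinf
  obtain ⟨γ, hγ1, hγ5, hash⟩ := hASH L M S F m A hL
  have hFin := hL.ff
  obtain ⟨f, g, hfg, hB⟩ := hL.pig (fun f => A ∪ ⋃₀ C f) F (γ + Ordinal.omega0) hFin
    Subset.rfl (add_lt_om1 hγ1 omega_lt_om1) (fun f => by
      obtain ⟨P, hP, -⟩ := h4 f 0
      exact ⟨BFT_ctb hL (hPD f), BFT_inf (hPD f) hP, hL.fa.trans subset_union_left⟩)
  obtain ⟨j, hj⟩ := Function.ne_iff.1 hfg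
  have hK : ∀ i, k j (f j) ≠ k i (g i) := by
    intro i h
    obtain ⟨rfl, h2⟩ := hk _ _ _ _ h
    exact hj h2
  obtain ⟨P, hP, hPK, hPne, hPy⟩ := h4 f j
  have hXf := hEXA L M S F m A (C f) hL (hPD f) P hP hPy
  obtain ⟨l, hl⟩ := hPBL L M S F m A (C f) hL (hPD f) P hP
  have hPfin := BFT_piece hL (hPD f) hP
  obtain ⟨u, hu, hur⟩ : ∃ u : Fin (k j (f j)) → M, Function.Injective u ∧ range u = P := by
    have hn : P.ncard = k j (f j) := by
      have := hPfin.cast_ncard_eq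
      rw [hPK] at this
      exact_mod_cast this
    have := hPfin.to_subtype
    have e : Fin (k j (f j)) ≃ P := by
      refine (finCongr hn.symm).trans ?_
      exact (Finite.equivFinOfCardEq rfl).symm
    refine ⟨fun i => (e i : M), fun a b hab => e.injective (Subtype.ext hab), ?_⟩
    have h1 : (fun i => (e i : M)) = Subtype.val ∘ e := rfl
    rw [h1, e.surjective.range_comp, Subtype.range_coe]
  have hPD' : P ⊆ A ∪ ⋃₀ C f := (subset_sUnion_of_mem hP).trans subset_union_right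
  obtain ⟨v, hv, hB'⟩ := BFR.forth_many (k j (f j)) (hB.mono (add_le_add_right
    (Ordinal.natCast_lt_omega0 (k j (f j))).le γ)) u (fun i => hPD' (hur ▸ ⟨i, rfl⟩))
  obtain ⟨p, hp⟩ : ∃ p, p = dg F ∪ range fun i => (u i, v i) := ⟨_, rfl⟩
  rw [← hp] at hB'
  have hpF : dg F ⊆ p := hp ▸ subset_union_left
  have hpu : ∀ i, (u i, v i) ∈ p := fun i => hp ▸ Or.inr ⟨i, rfl⟩
  have hpfin : p.Finite := by
    rw [hp]
    exact (hFin.image _).union (finite_range _)
  have hpD : ∀ a ∈ p, a.1 ∈ A ∪ ⋃₀ C f ∧ a.2 ∈ A ∪ ⋃₀ C g := by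
    intro a ha
    rw [hp] at ha
    rcases ha with ha | ⟨i, rfl⟩
    · obtain ⟨h1, h2⟩ := mem_dg.1 ha
      exact ⟨Or.inl (hL.fa h1), Or.inl (hL.fa (h2 ▸ h1))⟩
    · exact ⟨hPD' (hur ▸ ⟨i, rfl⟩), hv i⟩
  have hγ4 : Ordinal.omega0 * 4 ≤ γ :=
    (mul_le_mul_right (by norm_num : (4 : Ordinal.{0}) ≤ 5) _).trans hγ5
  obtain ⟨-, v2, v3, -, v5, v6⟩ := hVIS L M S F (A ∪ ⋃₀ C f) (A ∪ ⋃₀ C g) γ p hFin hγ4 hpF hpD hB'
  have hvinj : Function.Injective v := by
    intro a b hab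
    have h1 := (hB'.atEq.1 _ (hpu a) _ (hpu b)).2 hab
    exact hu h1
  have hvK : (range v).encard = (k j (f j) : ℕ∞) := by
    rw [← image_univ, hvinj.injOn.encard_image, encard_univ]
    simp
  have hBi : ∀ i, Bi S F (A ∪ ⋃₀ C g) (v i) = range v := by
    intro i
    obtain ⟨-, -, q3, -, q5, -⟩ := hl (u i) (hur ▸ ⟨i, rfl⟩)
    exact BFT_img hBLK (X := A ∪ ⋃₀ C f) (l := l) hu hvinj i q3
      (fun n hn => (q5 n hn).trans hur.symm)
      (fun n => v2 n _ (hpu i)) (fun n i' => v3 n _ (hpu i) _ (hpu i'))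
      (fun n => v5 n _ (hpu i))
  have hXg : Xt S F (A ∪ ⋃₀ C g) (range v) := by
    intro m0
    obtain ⟨m1, hm1, hE⟩ := hXf m0
    rw [← hur] at hE
    exact ⟨m1, hm1, (v6 m1 _ u v hu hpu).1 hE⟩
  obtain ⟨y, hy⟩ := hPne
  rw [← hur] at hy
  obtain ⟨i, rfl⟩ := hy
  by_cases hxA : v i ∈ A
  · have hT1 := hash (C f) (C g) p (v i) (u i) (hPD f) (hPD g) hpfin hpF hpD hB' (hpu i)
      (mem_sUnion_of_mem (hur ▸ ⟨i, rfl⟩) hP) hxA
    obtain ⟨P2, hP2, hP2c, y2, hy2, hy2n⟩ := hTYI L M S F m A (C g) (v i) hL (hPD g) hxA hT1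
      (by rw [hBi i]; exact finite_range v)
    rcases h3 g P2 hP2 with h | ⟨i2, h⟩
    · exact hy2n (h y2 hy2).2
    · rw [hBi i, hvK, h] at hP2c
      exact hK i2 (by exact_mod_cast hP2c)
  · have hxD := hv i
    rcases hxD with hxD | hxD
    · exact hxA hxD
    · obtain ⟨P2, hP2, hxP2⟩ := hxD
      obtain ⟨l2, hl2⟩ := hPBL L M S F m A (C g) hL (hPD g) P2 hP2
      obtain ⟨-, q2, -, -, -, -, q7, -⟩ := hl2 (v i) hxP2
      have hPP : P2 = range v := q7.symm.trans (hBi i)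
      rcases h3 g P2 hP2 with h | ⟨i2, h⟩
      · obtain ⟨⟨-, -, hW⟩, hP2B⟩ := h (v i) hxP2
        rw [← hP2B] at hW
        apply hW
        intro m0
        rw [← hPP] at hXg
        obtain ⟨m1, hm1, hE⟩ := hXg (max m0 l2)
        exact ⟨m1, (le_max_left _ _).trans hm1, hEXB L M S F m A (C g) hL (hPD g) P2 hP2 (v i)
          hxP2 hP2B l2 m1 q2 ((le_max_right _ _).trans hm1) hE⟩
      · rw [hPP, hvK] at h
        exact hK i2 (by exact_mod_cast h)

end HEI
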