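import Pool.Agent.HEI.StA

/-!
# HEI: blocks
-/

set_option autoImplicit false
set_option linter.unusedVariables false

namespace HEI

open Set Pool.Agent.Helper5.DU Pool.Agent.Helper6.Str Pool.Agent.Helper79.VC
  Pool.Agent.Helper97.LO Pool.Agent.Helper97.VC HER HERN

section

variable {L : FirstOrder.Language.{0, 0}} {M : Type} {S : L.Structure M} {F : Set M} {n : ℕ}
  {X : Set M}

private theorem BLK_fin {B : Set M} (h : Gs S F n X B) : B.Finite ∧ B.Nonempty ∧ B ⊆ X := by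
  obtain ⟨b, w, hw, rfl⟩ := h
  refine ⟨finite_range _, range_nonempty _, ?_⟩
  rintro _ ⟨p, rfl⟩
  exact hw.1 0 p

private theorem BLK_le {m : ℕ} {B : Set M} (hnm : n ≤ m) (h : Gs S F m X B) : Gs S F n X B := by
  obtain ⟨b, w, hw, rfl⟩ := h
  exact ⟨b, w, ⟨hw.1, hw.2.1, fun i j hij => (hw.2.2 i j hij).le hnm⟩, rfl⟩

private theorem BLK_min (hI : ∀ B B' : Set M, Gs S F n X B → Gs S F n X B' →
      ((B ∩ B').Nonempty → Gs S F n X (B ∩ B')) ∧ (B' ⊂ B → Gs S F n X (B \ B')))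
    {x : M} (hx : Gx S F n X x) : Gs S F n X (Bl S F n X x) ∧ x ∈ Bl S F n X x := by
  obtain ⟨B0, hB0, hxB0⟩ := hx
  have hex : ∃ k : ℕ, ∃ B, Gs S F n X B ∧ x ∈ B ∧ B.ncard = k := ⟨_, B0, hB0, hxB0, rfl⟩
  classical
  obtain ⟨B, hB, hxB, hc⟩ := Nat.find_spec hex
  have hmin : ∀ B', Gs S F n X B' → x ∈ B' → B ⊆ B' := by
    intro B' hB' hxB'
    have h1 : Gs S F n X (B ∩ B') := (hI B B' hB hB').1 ⟨x, hxB, hxB'⟩
    have h2 : Nat.find hex ≤ (B ∩ B').ncard := Nat.find_min' hex ⟨_, h1, ⟨hxB, hxB'⟩, rfl⟩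
    rw [← hc] at h2
    have h3 : B ∩ B' = B := Set.eq_of_subset_of_ncard_le inter_subset_left h2 (BLK_fin hB).1
    rw [← h3]
    exact inter_subset_right
  have hBl : Bl S F n X x = B := by
    apply Subset.antisymm
    · intro y hy
      exact hy B hB hxB
    · intro y hy B' hB' hxB'
      exact hmin B' hB' hxB' hy
  rw [hBl]
  exact ⟨hB, hxB⟩

private theorem BLK_blk (hI : ∀ B B' : Set M, Gs S F n X B → Gs S F n X B' →
      ((B ∩ B').Nonempty → Gs S F n X (B ∩ B')) ∧ (B' ⊂ B → Gs S F n X (B \ B')))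
    {x y : M} (hx : Gx S F n X x) (hy : y ∈ Bl S F n X x) :
    Gx S F n X y ∧ Bl S F n X y = Bl S F n X x := by
  obtain ⟨h1, h2⟩ := BLK_min hI hx
  have hgy : Gx S F n X y := ⟨_, h1, hy⟩
  obtain ⟨h3, h4⟩ := BLK_min hI hgy
  have h5 : Bl S F n X y ⊆ Bl S F n X x := fun z hz => hz _ h1 hy
  have h6 : x ∈ Bl S F n X y := by
    by_contra hne
    have h7 : Bl S F n X y ⊂ Bl S F n X x := ⟨h5, fun hs => hne (hs h2)⟩
    have h8 := (hI _ _ h1 h3).2 h7
    exact (hy _ h8 ⟨h2, hne⟩).2 h4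
  exact ⟨hgy, Subset.antisymm h5 fun z hz => hz _ h3 h6⟩

private theorem BLK_mem {σ : Equiv.Perm M} (h : Ph S F n X σ) {x : M} (hx : x ∈ X) : σ x ∈ X := by
  by_cases h1 : σ x = x
  · rw [h1]
    exact hx
  · exact h.2.1 _ fun h2 => h1 (σ.injective h2)

private theorem BLK_inv (σ : Equiv.Perm M) (x : M) : σ (σ⁻¹ x) = x := σ.apply_symm_apply x

private theorem BLK_inv' (σ : Equiv.Perm M) (x : M) : σ⁻¹ (σ x) = x := σ.symm_apply_apply x

private theorem BLK_img (hG : St_GRP) {σ : Equiv.Perm M} {B : Set M} (h : Ph S F n X σ)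
    (hB : Gs S F n X B) : Gs S F n X (σ '' B) := by
  obtain ⟨-, hmul, hinv, -, -, hex, hiff⟩ := hG L M S F n X
  obtain ⟨b, w, hw, rfl⟩ := hB
  refine ⟨b, fun i p => σ (w i p), ⟨fun i p => BLK_mem h (hw.1 i p), ?_, ?_⟩, ?_⟩
  · intro i p j q hpq
    exact hw.2.1 i p j q (σ.injective hpq)
  · intro i j hij
    have hd : Dj (w i) (w j) := by
      refine ⟨fun p q hpq => (hw.2.1 i p i q hpq).2, fun p q hpq => (hw.2.1 j p j q hpq).2, ?_⟩
      intro p q hpq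
      exact hij (hw.2.1 i p j q hpq).1
    obtain ⟨ρ, hρ⟩ := hex (Fin (b + 1)) (w i) (w j) hd
    have hPρ : Ph S F n X ρ :=
      (hiff (Fin (b + 1)) (w i) (w j) ρ hd hρ (hw.1 i) (hw.1 j)).2 (hw.2.2 i j hij)
    have hd' : Dj (fun p => σ (w i p)) (fun p => σ (w j p)) :=
      ⟨fun p q hpq => hd.1 (σ.injective hpq), fun p q hpq => hd.2.1 (σ.injective hpq),
        fun p q hpq => hd.2.2 p q (σ.injective hpq)⟩
    have hP : Ph S F n X (σ * ρ * σ⁻¹) := hmul _ _ (hmul _ _ h hPρ) (hinv _ h)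
    have hX : Xc (fun p => σ (w i p)) (fun p => σ (w j p)) (σ * ρ * σ⁻¹) := by
      refine ⟨fun p => ?_, fun p => ?_, fun x hx hx' => ?_⟩
      · show σ (ρ (σ⁻¹ (σ (w i p)))) = σ (w j p)
        rw [BLK_inv', hρ.1]
      · show σ (ρ (σ⁻¹ (σ (w j p)))) = σ (w i p)
        rw [BLK_inv', hρ.2.1]
      · show σ (ρ (σ⁻¹ x)) = x
        rw [hρ.2.2, BLK_inv]
        · rintro ⟨p, hp⟩
          exact hx ⟨p, by
            show σ (w i p) = x
            rw [hp, BLK_inv]⟩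
        · rintro ⟨p, hp⟩
          exact hx' ⟨p, by
            show σ (w j p) = x
            rw [hp, BLK_inv]⟩
    exact (hiff (Fin (b + 1)) _ _ _ hd' hX (fun p => BLK_mem h (hw.1 i p))
      (fun p => BLK_mem h (hw.1 j p))).1 hP
  · rw [← range_comp]
    rfl

end

theorem thm_BLK (hG : St_GRP) (hI : St_INT) : St_BLK := by
  intro L M S F n X
  have hI' := hI L M S F n X
  refine ⟨fun B hB => BLK_fin hB, fun x hx => BLK_min hI' hx,
    fun x y hx hy => BLK_blk hI' hx hy, fun σ B h hB => BLK_img hG h hB, ?_,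
    fun m B hm hB => BLK_le hm hB, ?_⟩
  · intro σ x h hx
    obtain ⟨h1, h2⟩ := BLK_min hI' hx
    have h3 := BLK_img hG h h1
    have h4 : Gx S F n X (σ x) := ⟨_, h3, ⟨x, h2, rfl⟩⟩
    refine ⟨h4, ?_⟩
    obtain ⟨h5, h6⟩ := BLK_min hI' h4
    have hs : Ph S F n X σ⁻¹ := (hG L M S F n X).2.2.1 _ h
    have h7 := BLK_img hG hs h5
    apply Subset.antisymm
    · intro y hy
      exact hy _ h3 ⟨x, h2, rfl⟩
    · rintro _ ⟨y, hy, rfl⟩
      have h8 : y ∈ (σ⁻¹ : Equiv.Perm M) '' Bl S F n X (σ x) := hy _ h7 ⟨σ x, h6, BLK_inv' σ x⟩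
      obtain ⟨z, hz, rfl⟩ := h8
      rw [BLK_inv]
      exact hz
  · intro m x hm hx
    obtain ⟨h1, h2⟩ := BLK_min (hI L M S F m X) hx
    have h3 := BLK_le hm h1
    exact ⟨⟨_, h3, h2⟩, fun y hy => hy _ h3 h2⟩

end HEI
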