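import Pool.Agent.HEI.StA

/-!
# HEI: the least closed set (module CLA, helper34)
-/

set_option autoImplicit false
set_option linter.unusedVariables false
set_option linter.unusedSectionVars false

namespace HEI

open Set Pool.Agent.Helper5.DU Pool.Agent.Helper6.Str Pool.Agent.Helper79.VC
  Pool.Agent.Helper97.LO Pool.Agent.Helper97.VC HER HERN

variable {L : FirstOrder.Language.{0, 0}} {M : Type}

theorem CLA_cj_symm (hG : St_GRP) {S : L.Structure M} {F X : Set M} {n : ℕ} {x y : M}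
    (h : Cj S F n X x y) : Cj S F n X y x := by
  obtain ⟨σ, hσ, rfl⟩ := h
  exact ⟨σ⁻¹, (hG L M S F n X).2.2.1 σ hσ, by simp⟩

theorem CLA_cj_trans (hG : St_GRP) {S : L.Structure M} {F X : Set M} {n : ℕ} {x y z : M}
    (h : Cj S F n X x y) (h' : Cj S F n X y z) : Cj S F n X x z := by
  obtain ⟨σ, hσ, rfl⟩ := h
  obtain ⟨τ, hτ, rfl⟩ := h'
  exact ⟨τ * σ, (hG L M S F n X).2.1 τ σ hτ hσ, rfl⟩

/-- elements outside of `N n` -/
theorem CLA_out (hG : St_GRP) {S : L.Structure M} {F : Set M} {n b c : ℕ} {x : M}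
    {V : Set (Fin b → M)} (hb : b ≤ c) (hV : ¬ V.Countable)
    (hd : ∀ v ∈ V, ∀ v' ∈ V, ∀ p q, v p = v' q → v = v' ∧ p = q)
    (ht : ∀ v ∈ V, ∀ v' ∈ V, v ≠ v' → TE S F n (SW univ v v')) (hx : ∃ v ∈ V, x ∈ range v) :
    Gx S F n univ x ∧ (Bl S F n univ x).encard ≤ c ∧ ¬ {y | Cj S F n univ x y}.Countable := by
  obtain ⟨v0, hv0, p0, hp0⟩ := hx
  obtain ⟨b', rfl⟩ : ∃ b', b = b' + 1 := ⟨b - 1, by have := p0.2; omega⟩
  have hgs : Gs S F n univ (range v0) := by
    have hinf : (V \ {v0}).Infinite := by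
      intro hf
      apply hV
      refine ((hf.countable).union (countable_singleton v0)).mono ?_
      intro v hv
      by_cases h : v = v0
      · exact Or.inr h
      · exact Or.inl ⟨hv, h⟩
    have hi := hinf.to_subtype
    obtain ⟨e⟩ : Nonempty (ℕ ↪ ((V \ {v0} : Set (Fin (b' + 1) → M)) : Type)) :=
      ⟨Infinite.natEmbedding _⟩
    obtain ⟨w, hw0, hw1⟩ : ∃ w : ℕ → Fin (b' + 1) → M, w 0 = v0 ∧
        ∀ k, w (k + 1) = ((e k : (V \ {v0} : Set (Fin (b' + 1) → M))) : Fin (b' + 1) → M) :=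
      ⟨fun k => Nat.casesOn k v0 fun k => ((e k : (V \ {v0} : Set (Fin (b' + 1) → M))) :
        Fin (b' + 1) → M), rfl, fun k => rfl⟩
    have hwV : ∀ k, w k ∈ V := by
      intro k
      rcases k with _ | k
      · rw [hw0]
        exact hv0
      · rw [hw1]
        exact (e k).2.1
    have hinj : ∀ i j, w i = w j → i = j := by
      intro i j hij
      rcases i with _ | i <;> rcases j with _ | j
      · rfl
      · rw [hw0, hw1] at hij
        exact absurd hij.symm (e j).2.2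
      · rw [hw0, hw1] at hij
        exact absurd hij (e i).2.2
      · rw [hw1, hw1] at hij
        rw [e.injective (Subtype.ext hij)]
    refine ⟨b', w, ⟨fun i p => mem_univ _, fun i p j q h => ?_, fun i j hij => ?_⟩, by rw [hw0]⟩
    · obtain ⟨h1, h2⟩ := hd _ (hwV i) _ (hwV j) p q h
      exact ⟨hinj i j h1, h2⟩
    · exact ht _ (hwV i) _ (hwV j) fun h => hij (hinj i j h)
  refine ⟨⟨_, hgs, p0, hp0⟩, ?_, ?_⟩
  · have hsub : Bl S F n univ x ⊆ range v0 := fun y hy => hy _ hgs ⟨p0, hp0⟩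
    refine (encard_le_encard hsub).trans ?_
    rw [← image_univ]
    refine (encard_image_le _ _).trans ?_
    rw [encard_univ, ENat.card_eq_coe_fintype_card, Fintype.card_fin]
    exact_mod_cast hb
  · intro hc
    apply hV
    have h1 : (V \ {v0}).Countable := by
      have h2 : MapsTo (fun v : Fin (b' + 1) → M => v p0) (V \ {v0})
          {y | Cj S F n univ x y} := by
        rintro v ⟨hv, hvne⟩
        have hdj : Dj v0 v := by
          refine ⟨fun p q h => (hd _ hv0 _ hv0 p q h).2, fun p q h => (hd _ hv _ hv p q h).2,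
            fun p q h => hvne (hd _ hv0 _ hv p q h).1.symm⟩
        obtain ⟨σ, hσ⟩ := (hG L M S F n univ).2.2.2.2.2.1 _ v0 v hdj
        refine ⟨σ, ((hG L M S F n univ).2.2.2.2.2.2 _ v0 v σ hdj hσ (fun p => mem_univ _)
          fun p => mem_univ _).2 (ht _ hv0 _ hv (Ne.symm hvne)), ?_⟩
        rw [← hp0]
        exact hσ.1 p0
      have h3 : InjOn (fun v : Fin (b' + 1) → M => v p0) (V \ {v0}) :=
        fun v hv v' hv' h => (hd v hv.1 v' hv'.1 p0 p0 h).1
      exact h2.countable_of_injOn h3 hc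
    refine (h1.union (countable_singleton v0)).mono ?_
    intro v hv
    by_cases h : v = v0
    · exact Or.inr h
    · exact Or.inl ⟨hv, h⟩

theorem thm_CLA (hG : St_GRP) (hB : St_BLK) (hO : St_ORB) (hL : St_LVR) : St_CLA := by
  intro L M S F hC
  obtain ⟨m, N, hm, hN, hV⟩ := hL L M S F hC
  have hout : ∀ n, ∀ x ∉ N n, Gx S F n univ x ∧ (Bl S F n univ x).encard ≤ m n ∧
      ¬ {y | Cj S F n univ x y}.Countable := by
    intro n x hx
    obtain ⟨b, V, hb, hVc, hd, ht, hxV⟩ := hV n x hx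
    exact CLA_out hG hb hVc hd ht hxV
  -- a countable closed set
  obtain ⟨Q, hQ, hQc⟩ : ∃ Q : Set M, Cls S F m Q ∧ Q.Countable := by
    refine ⟨(⋃ n, N n) ∪ ⋃ n, ⋃ x ∈ {x | x ∈ (⋃ k, N k) ∧ Gx S F n univ x}, Bl S F n univ x,
      ⟨fun n x hx => ?_, fun n x hx => ?_, fun k y z hy hgy hz => ?_, fun n x hfin y hxy => ?_⟩,
      ?_⟩
    · by_contra hc
      have h1 : x ∉ N n := fun h => hc (Or.inl (mem_iUnion.2 ⟨n, h⟩))
      exact hx (hout n x h1).1
    · by_contra hc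
      have h1 : x ∉ N n := fun h => hc (Or.inl (mem_iUnion.2 ⟨n, h⟩))
      exact hx (hout n x h1).2.1
    · rcases hy with hy | hy
      · refine Or.inr (mem_iUnion.2 ⟨k, mem_iUnion₂.2 ⟨y, ⟨hy, hgy⟩, hz⟩⟩)
      · obtain ⟨n, hy⟩ := mem_iUnion.1 hy
        obtain ⟨x, ⟨hx, hgx⟩, hy⟩ := mem_iUnion₂.1 hy
        obtain ⟨hgy', hby⟩ := (hB L M S F n univ).2.2.1 x y hgx hy
        rcases le_total k n with h | h
        · refine Or.inr (mem_iUnion.2 ⟨n, mem_iUnion₂.2 ⟨x, ⟨hx, hgx⟩, ?_⟩⟩)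
          rw [← hby]
          exact ((hB L M S F k univ).2.2.2.2.2.2 n y h hgy').2 hz
        · have h1 : x ∈ Bl S F k univ y := by
            refine ((hB L M S F n univ).2.2.2.2.2.2 k y h hgy).2 ?_
            rw [hby]
            exact ((hB L M S F n univ).2.1 x hgx).2
          obtain ⟨h2, h3⟩ := (hB L M S F k univ).2.2.1 y x hgy h1
          refine Or.inr (mem_iUnion.2 ⟨k, mem_iUnion₂.2 ⟨x, ⟨hx, h2⟩, ?_⟩⟩)
          rw [h3]
          exact hz
    · by_contra hc
      set Q : Set M := (⋃ n, N n) ∪ ⋃ n, ⋃ x ∈ {x | x ∈ (⋃ k, N k) ∧ Gx S F n univ x},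
        Bl S F n univ x with hQdef
      have hyn : y ∉ N n := fun h => hc (Or.inl (mem_iUnion.2 ⟨n, h⟩))
      have hun := (hout n y hyn).2.2
      have hQc : Q.Countable := by
        refine (countable_iUnion hN).union (countable_iUnion fun n => ?_)
        refine Countable.biUnion ?_ fun x hx => ?_
        · exact (countable_iUnion hN).mono fun x hx => hx.1
        · exact ((hB L M S F n univ).1 _ ((hB L M S F n univ).2.1 x hx.2).1).1.countable
      apply hun
      have h1 : {z | Cj S F n univ y z} ⊆ Q ∪ ⋃₀ {B | (∃ y, Cj S F n univ x y ∧ y ∉ Q ∧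
          B = Bi S F univ y)} := by
        intro z hz
        by_cases hzQ : z ∈ Q
        · exact Or.inl hzQ
        · refine Or.inr ⟨Bi S F univ z, ⟨z, CLA_cj_trans hG hxy hz, hzQ, rfl⟩, ?_⟩
          have hz0 : z ∉ N 0 := fun h => hzQ (Or.inl (mem_iUnion.2 ⟨0, h⟩))
          exact mem_iUnion.2 ⟨0, ((hB L M S F 0 univ).2.1 z (hout 0 z hz0).1).2⟩
      refine Countable.mono h1 (hQc.union ?_)
      refine hfin.countable.sUnion ?_
      rintro B ⟨z, hz, hzQ, rfl⟩
      refine countable_iUnion fun k => ?_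
      have hzk : z ∉ N k := fun h => hzQ (Or.inl (mem_iUnion.2 ⟨k, h⟩))
      exact ((hB L M S F k univ).1 _ ((hB L M S F k univ).2.1 z (hout k z hzk).1).1).1.countable
    · refine (countable_iUnion hN).union (countable_iUnion fun n => ?_)
      refine Countable.biUnion ?_ fun x hx => ?_
      · exact (countable_iUnion hN).mono fun x hx => hx.1
      · exact ((hB L M S F n univ).1 _ ((hB L M S F n univ).2.1 x hx.2).1).1.countable
  -- the least closed set
  obtain ⟨A, hA⟩ : ∃ A : Set M, A = {x | ∀ Q, Cls S F m Q → x ∈ Q} := ⟨_, rfl⟩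
  have hAle : ∀ Q, Cls S F m Q → A ⊆ Q := by
    intro Q hQ x hx
    rw [hA] at hx
    exact hx Q hQ
  have hcl : Cls S F m A := by
    refine ⟨fun n x hx => ?_, fun n x hx => ?_, fun n x y hx hg hy => ?_, fun n x hf y hy => ?_⟩
    · rw [hA]
      exact fun Q hQ => hQ.gd n x hx
    · rw [hA]
      exact fun Q hQ => hQ.sz n x hx
    · rw [hA]
      exact fun Q hQ => hQ.bl n x y (hAle Q hQ hx) hg hy
    · rw [hA]
      refine fun Q hQ => hQ.ob n x (hf.subset ?_) y hy
      rintro B ⟨z, h1, h2, h3⟩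
      exact ⟨z, h1, fun h => h2 (hAle Q hQ h), h3⟩
  refine ⟨m, A, ⟨hC.pig, hC.fin, hm, hQc.mono (hAle Q hQ), fun x hx => ?_, hcl, hAle,
    fun n => ?_⟩⟩
  · refine hcl.gd 1 x ?_
    rintro ⟨B, ⟨b, w, ⟨-, hw2, hw3⟩, rfl⟩, p, hp⟩
    have h1 := hw3 0 1 (by norm_num) {(w 0 p, w 1 p)} (by
      rintro _ rfl
      exact Or.inl (Or.inr ⟨p, rfl⟩)) (by simp)
    have h2 := h1.1 (x, x) (Or.inl ⟨x, hx, rfl⟩) (w 0 p, w 1 p) (Or.inr rfl)
    have h3 : x = w 1 p := h2.1 hp.symm
    have h4 := (hw2 0 p 1 p (hp.trans h3)).1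
    omega
  · obtain ⟨R, hR, hR2⟩ := hO L M S F n (m n) hC.fin hC.rows
    have hch : ∀ y, ∃ z, (∃ z', z' ∉ A ∧ Cj S F n univ y z') → z ∉ A ∧ Cj S F n univ y z := by
      intro y
      by_cases h : ∃ z', z' ∉ A ∧ Cj S F n univ y z'
      · obtain ⟨z, hz⟩ := h
        exact ⟨z, fun _ => hz⟩
      · exact ⟨y, fun h' => absurd h' h⟩
    choose f hf using hch
    refine ⟨f '' {y | y ∈ R ∧ ∃ z', z' ∉ A ∧ Cj S F n univ y z'},
      (hR.subset fun y hy => hy.1).image f, ?_, ?_⟩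
    · rintro _ ⟨y, hy, rfl⟩
      exact (hf y hy.2).1
    · intro x hx
      have hg : Gx S F n univ x := by
        by_contra h
        exact hx (hcl.gd n x h)
      have hs : (Bl S F n univ x).encard ≤ m n := by
        by_contra h
        exact hx (hcl.sz n x h)
      obtain ⟨y, hy, hyx⟩ := hR2 x hg hs
      refine ⟨f y, ⟨y, ⟨hy, x, hx, hyx⟩, rfl⟩, ?_⟩
      exact CLA_cj_trans hG (CLA_cj_symm hG (hf y ⟨x, hx, hyx⟩).2) hyx

end HEI
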