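import Pool.Agent.HEI.StA

/-!
# HEI [CNJ]: conjugate good sets can be exchanged (helper9)
-/

set_option autoImplicit false
set_option linter.unusedVariables false

namespace HEI

open Set Pool.Agent.Helper5.DU Pool.Agent.Helper6.Str Pool.Agent.Helper79.VC
  Pool.Agent.Helper97.LO Pool.Agent.Helper97.VC HER HERN

/-- a member of a row which avoids a finite set -/
theorem CNJ_avoid {M : Type} {b : ℕ} {v : ℕ → Fin (b + 1) → M}
    (hv : ∀ i p j q, v i p = v j q → i = j ∧ p = q) {E : Set M} (hE : E.Finite) :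
    ∃ i, i ≠ 0 ∧ ∀ p, v i p ∉ E := by
  by_contra h
  push Not at h
  have h1 : ∀ i : ℕ, ∃ p, v (i + 1) p ∈ E := fun i => h (i + 1) (Nat.succ_ne_zero i)
  choose p hp using h1
  have hinj : Function.Injective fun i : ℕ => v (i + 1) (p i) := by
    intro i j hij
    have := (hv _ _ _ _ hij).1
    omega
  exact (Set.infinite_of_injective_forall_mem hinj hp) hE

theorem CNJ_main (hGRP : St_GRP) {L : FirstOrder.Language.{0, 0}} {M : Type} {S : L.Structure M}
    {F : Set M} {n : ℕ} {X : Set M} {σ : Equiv.Perm M} (hσ : Ph S F n X σ) {β : Type}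
    {w : β → M} (hw : Function.Injective w) (hG : Gs S F n X (range w))
    (hd : ∀ p q, σ (w p) ≠ w q) : Sw S F n X w (fun p => σ (w p)) := by
  obtain ⟨-, gmul, ginv, -, -, gex, gte⟩ := hGRP L M S F n X
  obtain ⟨b, v, ⟨hv1, hv2, hv3⟩, hv0⟩ := hG
  have hwX : ∀ p, w p ∈ X := by
    intro p
    have : w p ∈ range (v 0) := by
      rw [hv0]
      exact ⟨p, rfl⟩
    obtain ⟨q, hq⟩ := this
    rw [← hq]
    exact hv1 0 q
  have hσX : ∀ x ∈ X, σ x ∈ X := by
    intro x hx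
    by_cases h1 : σ x = x
    · rw [h1]
      exact hx
    · exact hσ.2.1 (σ x) fun h2 => h1 (σ.injective h2)
  have hσwX : ∀ p, σ (w p) ∈ X := fun p => hσX _ (hwX p)
  have hwf : (range w).Finite := by
    rw [← hv0]
    exact finite_range _
  have : Finite β := Set.finite_range_iff hw |>.1 hwf
  have hDj : Dj w (fun p => σ (w p)) :=
    ⟨hw, fun p q h => hw (σ.injective h), fun p q h => hd q p h.symm⟩
  obtain ⟨i, hi0, hi⟩ := CNJ_avoid hv2 ((hσ.1.union hwf).union (hwf.image σ))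
  have hiσ : ∀ p, σ (v i p) = v i p := by
    intro p
    by_contra h
    exact hi p (Or.inl (Or.inl h))
  have hiσ' : ∀ p, σ⁻¹ (v i p) = v i p := by
    intro p
    have h1 : σ⁻¹ (σ (v i p)) = v i p := σ.symm_apply_apply _
    rwa [hiσ] at h1
  have hiw : ∀ p q, v i p ≠ w q := fun p q h => hi p (Or.inl (Or.inr ⟨q, h.symm⟩))
  have hiσw : ∀ p q, v i p ≠ σ (w q) := fun p q h =>
    hi p (Or.inr ⟨w q, ⟨q, rfl⟩, h.symm⟩)
  -- the exchange of `v 0` and `v i`
  have hD0 : Dj (v 0) (v i) :=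
    ⟨fun p q h => (hv2 _ _ _ _ h).2, fun p q h => (hv2 _ _ _ _ h).2, fun p q h =>
      hi0 (hv2 _ _ _ _ h).1.symm⟩
  obtain ⟨a, ha⟩ := gex _ (v 0) (v i) hD0
  have haP : Ph S F n X a :=
    (gte _ (v 0) (v i) a hD0 ha (hv1 0) (hv1 i)).2 (hv3 0 i fun h => hi0 h.symm)
  have hcP : Ph S F n X (σ * a * σ⁻¹) := gmul _ _ (gmul _ _ hσ haP) (ginv _ hσ)
  have hgP : Ph S F n X (a * (σ * a * σ⁻¹) * a) := gmul _ _ (gmul _ _ haP hcP) haP
  obtain ⟨a1, a2, a3⟩ := ha
  have hσσ : ∀ x, σ (σ⁻¹ x) = x := fun x => σ.apply_symm_apply x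
  have hσσ' : ∀ x, σ⁻¹ (σ x) = x := fun x => σ.symm_apply_apply x
  have hgv : ∀ x, (a * (σ * a * σ⁻¹) * a) x = a (σ (a (σ⁻¹ (a x)))) := fun x => rfl
  -- elements of `v 0` are elements of `w`
  have hv0w : ∀ q, ∃ p, w p = v 0 q := by
    intro q
    have : v 0 q ∈ range w := by
      rw [← hv0]
      exact ⟨q, rfl⟩
    exact this
  have hwv0 : ∀ p, ∃ q, v 0 q = w p := by
    intro p
    have : w p ∈ range (v 0) := by
      rw [hv0]
      exact ⟨p, rfl⟩
    exact this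
  have haσ : ∀ p, a (σ (w p)) = σ (w p) := by
    intro p
    refine a3 _ ?_ ?_
    · rw [hv0]
      rintro ⟨q, hq⟩
      exact hd p q hq.symm
    · rintro ⟨q, hq⟩
      exact hiσw q p hq
  have haσ' : ∀ p, a (σ⁻¹ (w p)) = σ⁻¹ (w p) := by
    intro p
    refine a3 _ ?_ ?_
    · rw [hv0]
      rintro ⟨q, hq⟩
      refine hd q p ?_
      rw [hq, hσσ]
    · rintro ⟨q, hq⟩
      refine hiw q p ?_
      rw [← hiσ, hq, hσσ]
  have hX : Xc w (fun p => σ (w p)) (a * (σ * a * σ⁻¹) * a) := by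
    refine ⟨fun p => ?_, fun p => ?_, fun x hx hx' => ?_⟩
    · obtain ⟨q, hq⟩ := hwv0 p
      rw [hgv]
      show a (σ (a (σ⁻¹ (a (w p))))) = σ (w p)
      rw [← hq, a1, hiσ', a2, hq, haσ]
    · obtain ⟨q, hq⟩ := hwv0 p
      rw [hgv]
      show a (σ (a (σ⁻¹ (a (σ (w p)))))) = w p
      rw [haσ, hσσ', ← hq, a1, hiσ, a2]
    · rw [hgv]
      by_cases hxi : x ∈ range (v i)
      · obtain ⟨q, rfl⟩ := hxi
        obtain ⟨p, hp⟩ := hv0w q
        rw [a2, ← hp, haσ', hσσ, hp, a1]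
      · have h1 : a x = x := a3 x (by rw [hv0]; exact hx) hxi
        have h2 : a (σ⁻¹ x) = σ⁻¹ x := by
          refine a3 _ ?_ ?_
          · rw [hv0]
            rintro ⟨q, hq⟩
            refine hx' ⟨q, ?_⟩
            show σ (w q) = x
            rw [hq, hσσ]
          · rintro ⟨q, hq⟩
            refine hxi ⟨q, ?_⟩
            rw [← hiσ, hq, hσσ]
        rw [h1, h2, hσσ, h1]
  exact ⟨hDj, hwX, hσwX, (gte _ w (fun p => σ (w p)) _ hDj hX hwX hσwX).1 hgP⟩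

theorem thm_CNJ (hGRP : St_GRP) (hBLK : St_BLK) : St_CNJ := by
  intro L M S F n X σ hσ
  obtain ⟨-, b2, b3, -, b5, -, -⟩ := hBLK L M S F n X
  refine ⟨fun β w hw hG hd => CNJ_main hGRP hσ hw hG hd, ?_⟩
  intro x hx hσx k w hw hwr
  obtain ⟨h1, h2⟩ := b5 σ x hσ hx
  refine ⟨CNJ_main hGRP hσ hw ?_ ?_, ?_⟩
  · rw [hwr]
    exact (b2 x hx).1
  · intro p q h
    have h3 : w q ∈ Bl S F n X x := by
      rw [← hwr]
      exact ⟨q, rfl⟩
    have h4 : w q ∈ Bl S F n X (σ x) := by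
      rw [h2, ← h, ← hwr]
      exact ⟨w p, ⟨p, rfl⟩, rfl⟩
    have h5 := (b3 x (w q) hx h3).2
    have h6 := (b3 (σ x) (w q) h1 h4).2
    apply hσx
    rw [← h5, h6]
    exact (b2 (σ x) h1).2
  · rw [h2, ← hwr, ← range_comp]
    rfl

end HEI
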