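import Pool.Agent.HEI.StA

/-!
# HEI, module EFM: the set of pieces (helper77)

Statement and proof: see `St_EFM` in `Pool/Agent/HEI/StA.lean`.
-/

set_option autoImplicit false
set_option linter.unusedVariables false

namespace HEI

open Set Pool.Agent.Helper5.DU Pool.Agent.Helper6.Str Pool.Agent.Helper79.VC
  Pool.Agent.Helper97.LO Pool.Agent.Helper97.VC HER HERN

variable {L : FirstOrder.Language.{0, 0}} {M : Type} {S : L.Structure M} {F : Set M}
  {m : ℕ → ℕ} {A : Set M}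

/-! ## Elements outside of `A` -/

theorem EFM_gx (hV : St_LVF) (h : Lv S F m A) {x : M} (hx : x ∉ A) (n : ℕ) :
    Gx S F n univ x := (hV L M S F m A h x hx).1 n

theorem EFM_self (hB : St_BLK) (hV : St_LVF) (h : Lv S F m A) {x : M} (hx : x ∉ A) (n : ℕ) :
    x ∈ Bl S F n univ x := ((hB L M S F n univ).2.1 x (EFM_gx hV h hx n)).2

theorem EFM_fin (hB : St_BLK) (hV : St_LVF) (h : Lv S F m A) {x : M} (hx : x ∉ A) (n : ℕ) :
    (Bl S F n univ x).Finite :=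
  ((hB L M S F n univ).1 _ ((hB L M S F n univ).2.1 x (EFM_gx hV h hx n)).1).1

theorem EFM_sub (x : M) (n : ℕ) : Bl S F n univ x ⊆ Bi S F univ x :=
  subset_iUnion (fun n => Bl S F n univ x) n

theorem EFM_bi (hV : St_LVF) (h : Lv S F m A) {x : M} (hx : x ∉ A) {n : ℕ} {y : M}
    (hy : y ∈ Bl S F n univ x) : y ∉ A ∧ Bi S F univ y = Bi S F univ x :=
  (hV L M S F m A h x hx).2.2.1 y (EFM_sub x n hy)

theorem EFM_mono (hB : St_BLK) (hV : St_LVF) (h : Lv S F m A) {x : M} (hx : x ∉ A) {n k : ℕ}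
    (hnk : n ≤ k) : Bl S F n univ x ⊆ Bl S F k univ x :=
  ((hB L M S F n univ).2.2.2.2.2.2 k x hnk (EFM_gx hV h hx k)).2

theorem EFM_refl (hG : St_GRP) (S : L.Structure M) (F : Set M) (n : ℕ) (x : M) :
    Cj S F n univ x x := ⟨1, (hG L M S F n univ).1, rfl⟩

theorem EFM_le (hG : St_GRP) {n k : ℕ} (hnk : n ≤ k) {x y : M} (h : Cj S F k univ x y) :
    Cj S F n univ x y := by
  obtain ⟨σ, h1, h2⟩ := h
  exact ⟨σ, (hG L M S F k univ).2.2.2.1 n σ hnk h1, h2⟩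

theorem EFM_trans (hG : St_GRP) {n : ℕ} {x y z : M} (h : Cj S F n univ x y)
    (h' : Cj S F n univ y z) : Cj S F n univ x z := by
  obtain ⟨σ, h1, h2⟩ := h
  obtain ⟨τ, h3, h4⟩ := h'
  refine ⟨τ * σ, (hG L M S F n univ).2.1 τ σ h3 h1, ?_⟩
  rw [Equiv.Perm.mul_apply, h2, h4]

/-- the blocks of conjugate elements -/
theorem EFM_perm (hG : St_GRP) (hB : St_BLK) (hV : St_LVF) (h : Lv S F m A) {x x' : M}
    (hx : x ∉ A) {k : ℕ} (hc : Cj S F k univ x x') :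
    ∃ σ : Equiv.Perm M, ∀ l, l ≤ k → Bl S F l univ x' = σ '' Bl S F l univ x := by
  obtain ⟨σ, h1, h2⟩ := hc
  refine ⟨σ, fun l hl => ?_⟩
  have h3 := ((hB L M S F l univ).2.2.2.2.1 σ x ((hG L M S F k univ).2.2.2.1 l σ hl h1)
    (EFM_gx hV h hx l)).2
  rw [h2] at h3
  exact h3

theorem EFM_enc (hG : St_GRP) (hB : St_BLK) (hV : St_LVF) (h : Lv S F m A) {x x' : M}
    (hx : x ∉ A) {l k : ℕ} (hl : l ≤ k) (hc : Cj S F k univ x x') :
    (Bl S F l univ x').encard = (Bl S F l univ x).encard := by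
  obtain ⟨σ, h1⟩ := EFM_perm hG hB hV h hx hc
  rw [h1 l hl]
  exact σ.injective.encard_image _

/-- conjugates of proper blocks are proper -/
theorem EFM_ne (hG : St_GRP) (hB : St_BLK) (hV : St_LVF) (h : Lv S F m A) {y : M}
    (hy : y ∉ A) {l : ℕ} (hne : Bl S F l univ y ≠ Bi S F univ y) :
    ∃ k, l ≤ k ∧ ∀ y', Cj S F k univ y y' → Bl S F l univ y' ≠ Bi S F univ y' := by
  obtain ⟨z, hz1, hz2⟩ : ∃ z ∈ Bi S F univ y, z ∉ Bl S F l univ y := by
    by_contra hcon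
    push Not at hcon
    exact hne (Subset.antisymm (EFM_sub y l) hcon)
  obtain ⟨l', hl'⟩ := mem_iUnion.1 hz1
  refine ⟨max l l', le_max_left _ _, fun y' hc heq => ?_⟩
  obtain ⟨σ, h1⟩ := EFM_perm hG hB hV h hy hc
  have h2 : σ z ∈ Bl S F l' univ y' := by
    rw [h1 l' (le_max_right _ _)]
    exact mem_image_of_mem _ hl'
  have h3 : σ z ∈ Bl S F l univ y' := by
    rw [heq]
    exact EFM_sub y' l' h2
  rw [h1 l (le_max_left _ _)] at h3
  obtain ⟨w, hw1, hw2⟩ := h3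
  rw [σ.injective hw2] at hw1
  exact hz2 hw1

/-- infinitely many `∞`-blocks of conjugates, different from a given one -/
theorem EFM_inf (hV : St_LVF) (h : Lv S F m A) {y : M} (hy : y ∉ A) (k : ℕ) (B0 : Set M) :
    {B | ∃ y', Cj S F k univ y y' ∧ y' ∉ A ∧ B ≠ B0 ∧ B = Bi S F univ y'}.Infinite := by
  have h1 := ((hV L M S F m A h y hy).2.2.2.1 k).sdiff (finite_singleton B0)
  refine h1.mono ?_
  rintro B ⟨⟨y', h2, h3, h4⟩, h5⟩
  exact ⟨y', h2, h3, h5, h4⟩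

/-! ## Objects -/

/-- the conclusion of `St_WMX` -/
def EFM_WX (S : L.Structure M) (F : Set M) (A : Set M) (y : M) (l : ℕ) : Prop :=
  ∀ y', y' ∉ A → Cj S F l univ y y' → Bi S F univ y' = Bl S F l univ y' ∧
    ∀ k, l ≤ k → ¬ Em S F k univ (Bi S F univ y')

theorem EFM_WX_conj (hG : St_GRP) {y y' : M} {l k : ℕ} (hk : l ≤ k)
    (hw : EFM_WX S F A y l) (hc : Cj S F k univ y y') : EFM_WX S F A y' l :=
  fun z hz hz' => hw z hz (EFM_trans hG (EFM_le hG hk hc) hz')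

/-- objects: an element outside of `A`, a level, a tag (`true`: `ext`, `false`: `max`) -/
structure EFM_Ob (S : L.Structure M) (F : Set M) (A : Set M) where
  y : M
  l : ℕ
  t : Bool
  hy : y ∉ A
  hw : t = false → EFM_WX S F A y l

/-- the piece -/
def EFM_pc (e : EFM_Ob S F A) : Set M := Bl S F e.l univ e.y

/-- the key -/
def EFM_key (e : EFM_Ob S F A) : Set M := Bi S F univ e.y

/-- conjugate objects -/
def EFM_T (n : ℕ) (e : EFM_Ob S F A) : Set (EFM_Ob S F A) :=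
  {e' | e'.l = e.l ∧ e'.t = e.t ∧ Cj S F (max n e.l) univ e.y e'.y}

theorem EFM_T_inf (hG : St_GRP) (hV : St_LVF) (h : Lv S F m A) (n : ℕ) (e : EFM_Ob S F A) :
    (EFM_key '' EFM_T n e).Infinite := by
  refine ((hV L M S F m A h e.y e.hy).2.2.2.1 (max n e.l)).mono ?_
  rintro B ⟨y, h1, h2, rfl⟩
  exact ⟨⟨y, e.l, e.t, h2, fun ht => EFM_WX_conj hG (le_max_right _ _) (e.hw ht) h1⟩,
    ⟨rfl, rfl, h1⟩, rfl⟩

/-- the requirements of the second kind -/
def EFM_V2 (S : L.Structure M) (F : Set M) (A : Set M) (n : ℕ) (x : M) :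
    Set (EFM_Ob S F A) := {e | e.t = false ∧ Rx S F n x (EFM_pc e)}

/-- the requirement of the first kind -/
def EFM_V1 (S : L.Structure M) (F : Set M) (A : Set M) :
    Set (EFM_Ob S F A) := {e | e.t = true ∧ EFM_pc e ≠ EFM_key e}

/-- the requirements of the third kind -/
def EFM_V3 (S : L.Structure M) (F : Set M) (A : Set M) (n : ℕ) (x : M) :
    Set (EFM_Ob S F A) :=
  {e | e.t = true ∧ Rx S F n x (EFM_pc e) ∧
    (EFM_pc e ≠ EFM_key e ∨ (EFM_pc e = EFM_key e ∧ Xt S F univ (EFM_key e)))}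

/-- objects of size greater than `K` -/
def EFM_big (S : L.Structure M) (F : Set M) (A : Set M) (K : ℕ) :
    Set (EFM_Ob S F A) := {e | (K : ℕ∞) < (EFM_pc e).encard}

theorem EFM_V1_inf (hG : St_GRP) (hB : St_BLK) (hV : St_LVF) (h : Lv S F m A) {x0 : M}
    (hx0 : x0 ∉ A) (hi : ¬ (Bi S F univ x0).Finite) (K : ℕ) :
    (EFM_key '' (EFM_V1 S F A ∩ EFM_big S F A K)).Infinite := by
  obtain ⟨l, hl⟩ : ∃ l, (K : ℕ∞) < (Bl S F l univ x0).encard := by
    by_contra hcon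
    push Not at hcon
    -- a subset of `Bi x0` with `K + 1` elements
    obtain ⟨s, hs1, hs2⟩ := Set.Infinite.exists_subset_card_eq hi (K + 1)
    have h1 : ∀ z : s, ∃ n, z.1 ∈ Bl S F n univ x0 := fun z => mem_iUnion.1 (hs1 z.2)
    choose g hg using h1
    obtain ⟨N, hN⟩ := (Set.finite_range g).bddAbove
    have h2 : (s : Set M) ⊆ Bl S F N univ x0 := by
      intro z hz
      exact EFM_mono hB hV h hx0 (hN (mem_range_self ⟨z, hz⟩)) (hg ⟨z, hz⟩)
    have h3 := (encard_le_encard h2).trans (hcon N)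
    rw [encard_coe_eq_coe_finsetCard, hs2] at h3
    have h4 : K + 1 ≤ K := by exact_mod_cast h3
    omega
  have hne : Bl S F l univ x0 ≠ Bi S F univ x0 := by
    intro heq
    rw [← heq] at hi
    exact hi (EFM_fin hB hV h hx0 l)
  obtain ⟨k, hk, hk'⟩ := EFM_ne hG hB hV h hx0 hne
  refine ((hV L M S F m A h x0 hx0).2.2.2.1 k).mono ?_
  rintro B ⟨y, h1, h2, rfl⟩
  refine ⟨⟨y, l, true, h2, fun ht => by cases ht⟩, ⟨⟨rfl, hk' y h1⟩, ?_⟩, rfl⟩
  show (K : ℕ∞) < (Bl S F l univ y).encard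
  rw [EFM_enc hG hB hV h hx0 hk h1]
  exact hl

theorem EFM_V2_inf (hG : St_GRP) (hV : St_LVF) (hW : St_WMX) (hR : St_RXC)
    (h : Lv S F m A) {n : ℕ} {x : M} (hx : x ∉ A)
    (h2 : ∃ y, Wm S F A y ∧ Rx S F n x (Bi S F univ y)) :
    (EFM_key '' EFM_V2 S F A n x).Infinite := by
  obtain ⟨y, hy, hxy⟩ := h2
  obtain ⟨l, hl⟩ := hW L M S F m A y h hy
  have hyA : y ∉ A := hy.1
  have hbl : Bi S F univ y = Bl S F l univ y := (hl y hyA (EFM_refl hG S F l y)).1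
  have hne : Bi S F univ x ≠ Bi S F univ y := by
    obtain ⟨k, u, v, h3, h4, h5⟩ := hxy
    intro heq
    have h6 : x ∈ Bi S F univ y := by
      rw [← heq]
      exact (hV L M S F m A h x hx).2.2.2.2.1
    have h7 : y ∈ Bi S F univ y := (hV L M S F m A h y hyA).2.2.2.2.1
    -- some element of the block of `x` is in `range u`
    have h8 : Bl S F n univ x ⊆ Bi S F univ y := by
      rw [← heq]
      exact EFM_sub x n
    have h9 : ∃ z, z ∈ Bl S F n univ x := by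
      refine ⟨x, fun B hB hxB => hxB⟩
    obtain ⟨z, hz⟩ := h9
    have hz' := h8 hz
    rw [← h3] at hz
    obtain ⟨p, hp⟩ := hz
    by_cases hzv : z ∈ range v
    · obtain ⟨q, hq⟩ := hzv
      exact h5.1.2.2 p q (hp.trans hq.symm)
    · have h10 := h5.2.1 p
      rw [hp] at h10
      exact h10.2 ⟨hz', hzv⟩
  rw [hbl] at hxy
  refine (EFM_inf hV h hyA (max n l) (Bi S F univ x)).mono ?_
  rintro B ⟨y', h3, h4, h5, rfl⟩
  refine ⟨⟨y', l, false, h4, fun _ => EFM_WX_conj hG (le_max_right _ _) hl h3⟩,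
    ⟨rfl, ?_⟩, rfl⟩
  exact (hR L M S F m A n h).2.2 x y y' l (max n l) hx hyA h4 (le_max_left _ _)
    (le_max_right _ _) h3 hne (fun h6 => h5 h6.symm) hxy

theorem EFM_V3_inf (hG : St_GRP) (hB : St_BLK) (hV : St_LVF) (hR : St_RXC)
    (h : Lv S F m A) {n : ℕ} {x : M} (hx : x ∉ A)
    (h3 : ∀ K : ℕ, ∃ (y : M) (l : ℕ), y ∉ A ∧ n ≤ l ∧ Rx S F n x (Bl S F l univ y) ∧
      Bi S F univ y ≠ Bi S F univ x ∧ (K : ℕ∞) < (Bl S F l univ y).encard ∧
      (Bl S F l univ y ≠ Bi S F univ y ∨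
        (Bl S F l univ y = Bi S F univ y ∧ Xt S F univ (Bi S F univ y)))) (K : ℕ) :
    (EFM_key '' (EFM_V3 S F A n x ∩ EFM_big S F A K)).Infinite := by
  by_cases hc : ∃ (y : M) (l : ℕ), y ∉ A ∧ n ≤ l ∧ Rx S F n x (Bl S F l univ y) ∧
      Bi S F univ y ≠ Bi S F univ x ∧ (K : ℕ∞) < (Bl S F l univ y).encard ∧
      Bl S F l univ y ≠ Bi S F univ y
  · obtain ⟨y, l, hy, hnl, hxy, hne, hK, hp⟩ := hc
    obtain ⟨k, hk, hk'⟩ := EFM_ne hG hB hV h hy hp
    refine (EFM_inf hV h hy k (Bi S F univ x)).mono ?_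
    rintro B ⟨y', h4, h5, h6, rfl⟩
    refine ⟨⟨y', l, true, h5, fun ht => by cases ht⟩, ⟨⟨rfl, ?_, Or.inl (hk' y' h4)⟩, ?_⟩, rfl⟩
    · exact (hR L M S F m A n h).2.2 x y y' l k hx hy h5 (hnl.trans hk) hk h4
        (fun h7 => hne h7.symm) (fun h7 => h6 h7.symm) hxy
    · show (K : ℕ∞) < (Bl S F l univ y').encard
      rw [EFM_enc hG hB hV h hy hk h4]
      exact hK
  · push Not at hc
    -- all of them are `∞`-blocks, take larger and larger sizes
    intro hfin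
    obtain ⟨N, hN⟩ : ∃ N : ℕ, ∀ B ∈ EFM_key '' (EFM_V3 S F A n x ∩ EFM_big S F A K),
        B.Finite → B.encard ≤ N := by
      have h4 : ((fun B : Set M => B.ncard) ''
          (EFM_key '' (EFM_V3 S F A n x ∩ EFM_big S F A K))).Finite := hfin.image _
      obtain ⟨N, hN⟩ := h4.bddAbove
      refine ⟨N, fun B hB hf => ?_⟩
      have h5 := hN (mem_image_of_mem _ hB)
      rw [← hf.cast_ncard_eq]
      exact_mod_cast h5
    obtain ⟨y, l, hy, hnl, hxy, hne, hK, hp⟩ := h3 (max K N)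
    have hK1 : (K : ℕ∞) < (Bl S F l univ y).encard :=
      lt_of_le_of_lt (by exact_mod_cast le_max_left K N) hK
    have heq := hc y l hy hnl hxy hne hK1
    have hX : Xt S F univ (Bi S F univ y) := by
      rcases hp with hp | hp
      · exact absurd heq hp
      · exact hp.2
    have h5 := hN (Bi S F univ y) ⟨⟨y, l, true, hy, fun ht => by cases ht⟩,
      ⟨⟨rfl, hxy, Or.inr ⟨heq, hX⟩⟩, hK1⟩, rfl⟩ (by
        rw [← heq]
        exact EFM_fin hB hV h hy l)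
    rw [← heq] at h5
    have h6 : ((max K N : ℕ) : ℕ∞) < N := lt_of_lt_of_le hK h5
    have h7 : max K N < N := by exact_mod_cast h6
    exact absurd (le_max_right K N) (not_le.2 h7)

/-! ## Combinatorics -/

theorem EFM_seq (g : ℕ → Set ℕ) (hg : ∀ i K, ∃ k ∈ g i, K < k) :
    ∃ κ : ℕ → ℕ, StrictMono κ ∧ ∀ i, κ i ∈ g i := by
  choose φ h1 h2 using hg
  obtain ⟨κ, hκ0, hκ⟩ : ∃ κ : ℕ → ℕ, κ 0 = φ 0 0 ∧ ∀ i, κ (i + 1) = φ (i + 1) (κ i) :=
    ⟨fun i => Nat.rec (φ 0 0) (fun i k => φ (i + 1) k) i, rfl, fun _ => rfl⟩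
  refine ⟨κ, strictMono_nat_of_lt_succ fun i => ?_, fun i => ?_⟩
  · rw [hκ]
    exact h2 _ _
  · cases i with
    | zero =>
      rw [hκ0]
      exact h1 _ _
    | succ i =>
      rw [hκ]
      exact h1 _ _

/-- only finitely many of the sets of a disjoint family meet a finite set -/
theorem EFM_meet {X : Type} {C : Set (Set X)} (hd : ∀ P ∈ C, ∀ P' ∈ C, ∀ x ∈ P, x ∈ P' → P = P')
    {E : Set X} (hE : E.Finite) : {P | P ∈ C ∧ ¬ Disjoint P E}.Finite := by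
  rcases isEmpty_or_nonempty X with hX | hX
  · refine (finite_empty).subset ?_
    rintro P ⟨-, hP⟩
    obtain ⟨x, -⟩ := Set.not_disjoint_iff.1 hP
    exact hX.elim x
  have h1 : ∀ P : Set X, ∃ x : X, (P ∈ C ∧ ¬ Disjoint P E) → x ∈ P ∧ x ∈ E := by
    intro P
    by_cases hP : P ∈ C ∧ ¬ Disjoint P E
    · obtain ⟨x, hx⟩ := Set.not_disjoint_iff.1 hP.2
      exact ⟨x, fun _ => hx⟩
    · exact ⟨Classical.arbitrary X, fun h => absurd h hP⟩
  choose g hg using h1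
  refine Set.Finite.of_injOn (f := g) (t := E) (fun P hP => (hg P hP).2) ?_ hE
  intro P hP P' hP' heq
  refine hd P hP.1 P' hP'.1 (g P) (hg P hP).1 ?_
  rw [heq]
  exact (hg P' hP').1

/-- Infinitely many pieces for `x` give infinitely many pieces for a conjugate of `x`. -/
theorem EFM_rx (hR : St_RXC) (h : Lv S F m A) {n : ℕ} {x x' : M} (hx : x ∉ A)
    (hc : Cj S F n univ x x') {C : Set (Set M)}
    (hd : ∀ P ∈ C, ∀ P' ∈ C, ∀ x ∈ P, x ∈ P' → P = P')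
    (hi : {P | P ∈ C ∧ Rx S F n x P}.Infinite) : {P | P ∈ C ∧ Rx S F n x' P}.Infinite := by
  obtain ⟨E, hE, h1⟩ := (hR L M S F m A n h).1 x x' hx hc
  refine (hi.sdiff (EFM_meet hd hE)).mono ?_
  rintro P ⟨⟨h2, h3⟩, h4⟩
  refine ⟨h2, h1 P ?_ h3⟩
  by_contra h5
  exact h4 ⟨h2, h5⟩

theorem thm_EFM (hG : St_GRP) (hB : St_BLK) (hV : St_LVF) (hW : St_WMX) (hD : St_REC)
    (hGR : St_GRW) (hR : St_RXC) : St_EFM := by
  intro L M S F m A x0 h hx0 hi0
  have horb := h.orb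
  choose R hRf hRA hRc using horb
  -- the index sets
  obtain ⟨J, hJ⟩ : ∃ J : Set (ℕ × M), J = {p | p.2 ∈ R p.1} := ⟨_, rfl⟩
  have hJc : J.Countable := by
    have h1 : J = ⋃ n, (fun x => (n, x)) '' R n := by
      ext p
      rw [hJ, mem_iUnion]
      constructor
      · intro hp
        exact ⟨p.1, p.2, hp, rfl⟩
      · rintro ⟨n, x, hx, rfl⟩
        exact hx
    rw [h1]
    exact countable_iUnion fun n => ((hRf n).image _).countable
  have hJc' : Countable J := hJc.to_subtype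
  obtain ⟨V, hV0, hV1⟩ : ∃ V : Option J → Set (EFM_Ob S F A), V none = EFM_V1 S F A ∧
      ∀ p : J, V (some p) = EFM_V3 S F A p.1.1 p.1.2 :=
    ⟨fun o => o.elim (EFM_V1 S F A) fun p => EFM_V3 S F A p.1.1 p.1.2, rfl, fun _ => rfl⟩
  obtain ⟨W0, hW0⟩ : ∃ W0 : Set (Option J),
      ∀ p, p ∈ W0 ↔ ∀ K, (EFM_key '' (V p ∩ EFM_big S F A K)).Infinite := ⟨{p | _}, fun _ => Iff.rfl⟩
  obtain ⟨U0, hU0⟩ : ∃ U0 : Set (Set (EFM_Ob S F A)), ∀ Y, Y ∈ U0 ↔ (EFM_key '' Y).Infinite ∧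
      ((∃ p : J, Y = EFM_V2 S F A p.1.1 p.1.2) ∨
        ∃ q : Option J × ℕ, Y = V q.1 ∩ EFM_big S F A q.2) := ⟨{Y | _}, fun _ => Iff.rfl⟩
  have hU0c : U0.Countable := by
    refine ((countable_range fun p : J => EFM_V2 S F A p.1.1 p.1.2).union
      (countable_range fun q : Option J × ℕ => V q.1 ∩ EFM_big S F A q.2)).mono ?_
    intro Y hY
    rcases ((hU0 Y).1 hY).2 with ⟨p, rfl⟩ | ⟨q, rfl⟩
    · exact Or.inl (mem_range_self p)
    · exact Or.inr (mem_range_self q)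
  have hnone : (none : Option J) ∈ W0 := by
    rw [hW0, hV0]
    exact fun K => EFM_V1_inf hG hB hV h hx0 hi0 K
  have hU0n : U0.Nonempty := by
    refine ⟨V none ∩ EFM_big S F A 0, (hU0 _).2 ⟨(hW0 _).1 hnone 0, Or.inr ⟨(none, 0), rfl⟩⟩⟩
  obtain ⟨U, hU⟩ := hU0c.exists_eq_range hU0n
  obtain ⟨W, hWr⟩ := (W0.to_countable).exists_eq_range ⟨none, hnone⟩
  -- the objects
  obtain ⟨E, hEc, hEk, hET, hEU⟩ := hD (EFM_Ob S F A) (Set M) EFM_key (fun n e => EFM_T n e) U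
    (fun n e => EFM_T_inf hG hV h n e) (fun r => by
      have h1 : U r ∈ U0 := by
        rw [hU]
        exact mem_range_self r
      exact ((hU0 _).1 h1).1)
  have hEU' : ∀ Y ∈ U0, (E ∩ Y).Infinite := by
    intro Y hY
    rw [hU] at hY
    obtain ⟨r, rfl⟩ := hY
    exact hEU r
  have hEV : ∀ p ∈ W0, ∀ K : ℕ, ∃ e ∈ E, e ∈ V p ∧ (K : ℕ∞) < (EFM_pc e).encard := by
    intro p hp K
    obtain ⟨e, he, he1, he2⟩ := (hEU' (V p ∩ EFM_big S F A K)
      ((hU0 _).2 ⟨(hW0 p).1 hp K, Or.inr ⟨(p, K), rfl⟩⟩)).nonempty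
    exact ⟨e, he, he1, he2⟩
  have hpf : ∀ e : EFM_Ob S F A, (EFM_pc e).Finite := fun e => EFM_fin hB hV h e.hy e.l
  -- the sizes
  obtain ⟨κ, hκm, hκ⟩ := EFM_seq
    (fun i => {k : ℕ | ∃ e ∈ E, e ∈ V (W (Nat.unpair (i / 2)).1) ∧ (EFM_pc e).encard = k})
    (by
      intro i K
      have h1 : W (Nat.unpair (i / 2)).1 ∈ W0 := by
        rw [hWr]
        exact mem_range_self _
      obtain ⟨e, he, he1, he2⟩ := hEV _ h1 K
      refine ⟨(EFM_pc e).ncard, ⟨e, he, he1, ((hpf e).cast_ncard_eq).symm⟩, ?_⟩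
      rw [← (hpf e).cast_ncard_eq] at he2
      exact_mod_cast he2)
  obtain ⟨k, hk⟩ : ∃ k : ℕ → Bool → ℕ, ∀ j ε, k j ε = κ (2 * j + ε.toNat) :=
    ⟨fun j ε => κ (2 * j + ε.toNat), fun _ _ => rfl⟩
  have hkinj : ∀ j ε i δ, k j ε = k i δ → j = i ∧ ε = δ := by
    intro j ε i δ heq
    rw [hk, hk] at heq
    have h1 := hκm.injective heq
    cases ε <;> cases δ <;> simp only [Bool.toNat_true, Bool.toNat_false] at h1
    · exact ⟨by omega, rfl⟩
    · omega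
    · omega
    · exact ⟨by omega, rfl⟩
  have hkE : ∀ j ε, ∃ e ∈ E, e ∈ V (W (Nat.unpair j).1) ∧ (EFM_pc e).encard = (k j ε : ℕ∞) := by
    intro j ε
    have h1 := hκ (2 * j + ε.toNat)
    have h2 : (2 * j + ε.toNat) / 2 = j := by
      cases ε <;> simp only [Bool.toNat_true, Bool.toNat_false] <;> omega
    obtain ⟨e, he, he1, he2⟩ := h1
    rw [h2] at he1
    refine ⟨e, he, he1, ?_⟩
    rw [he2, hk]
  obtain ⟨C, hC⟩ : ∃ C : (ℕ → Bool) → Set (Set M), ∀ f P, P ∈ C f ↔ ∃ e ∈ E, P = EFM_pc e ∧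
      (e.t = false ∨ ∃ j, (EFM_pc e).encard = (k j (f j) : ℕ∞)) :=
    ⟨fun f => {P | _}, fun _ _ => Iff.rfl⟩
  -- elements of pieces
  have hbi : ∀ (e : EFM_Ob S F A) (y : M), y ∈ EFM_pc e →
      y ∉ A ∧ Bi S F univ y = EFM_key e := fun e y hy => EFM_bi hV h e.hy hy
  have hself : ∀ e : EFM_Ob S F A, e.y ∈ EFM_pc e := fun e => EFM_self hB hV h e.hy e.l
  have hpcE : ∀ e ∈ E, ∀ e' ∈ E, ∀ y ∈ EFM_pc e, ∀ y' ∈ EFM_pc e',
      Bi S F univ y = Bi S F univ y' → e = e' := by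
    intro e he e' he' y hy y' hy' heq
    refine hEk e he e' he' ?_
    rw [← (hbi e y hy).2, ← (hbi e' y' hy').2, heq]
  have hinj : ∀ e ∈ E, ∀ e' ∈ E, EFM_pc e = EFM_pc e' → e = e' := by
    intro e he e' he' heq
    refine hpcE e he e' he' e.y (hself e) e.y ?_ rfl
    rw [← heq]
    exact hself e
  have hds : ∀ f, ∀ P ∈ C f, ∀ P' ∈ C f, ∀ x ∈ P, ∀ x' ∈ P',
      Bi S F univ x = Bi S F univ x' → P = P' := by
    intro f P hP P' hP' x hx x' hx' heq
    obtain ⟨e, he, rfl, -⟩ := (hC f P).1 hP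
    obtain ⟨e', he', rfl, -⟩ := (hC f P').1 hP'
    rw [hpcE e he e' he' x hx x' hx' heq]
  have hmax : ∀ e : EFM_Ob S F A, e.t = false → EFM_key e = EFM_pc e ∧ Wm S F A e.y := by
    intro e ht
    have h1 := e.hw ht e.y e.hy (EFM_refl hG S F e.l e.y)
    have h2 : Bi S F univ e.y = EFM_pc e := h1.1
    refine ⟨h2, e.hy, ?_, fun h3 => ?_⟩
    · rw [h2]
      exact hpf e
    · obtain ⟨m', h4, h5⟩ := h3 e.l
      exact h1.2 m' h4 h5
  have hrefl : ∀ (n : ℕ) (x : M), Cj S F n univ x x := EFM_refl hG S F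
  refine ⟨C, k, hkinj, fun f => ⟨?_, ?_, hds f, ?_⟩, ?_, ?_⟩
  · -- countable
    refine (hEc.image EFM_pc).mono ?_
    intro P hP
    obtain ⟨e, he, rfl, -⟩ := (hC f P).1 hP
    exact mem_image_of_mem _ he
  · -- partners
    intro P hP
    obtain ⟨e, he, rfl, ht⟩ := (hC f P).1 hP
    refine ⟨e.y, e.l, e.hy, rfl, fun n hn => ?_⟩
    have h1 := (hET e he n).image (f := EFM_pc) (fun a ha b hb hab => hinj a ha.1 b hb.1 hab)
    refine h1.mono ?_
    rintro _ ⟨e', ⟨he', hl, ht', hc⟩, rfl⟩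
    have h2 : EFM_pc e' = Bl S F e.l univ e'.y := by
      show Bl S F e'.l univ e'.y = _
      rw [hl]
    refine ⟨(hC f _).2 ⟨e', he', rfl, ?_⟩, e'.y, e'.hy, EFM_le hG (le_max_left _ _) hc, h2⟩
    rcases ht with ht | ⟨j, hj⟩
    · exact Or.inl (ht'.trans ht)
    · refine Or.inr ⟨j, ?_⟩
      rw [h2, EFM_enc hG hB hV h e.hy (le_max_right _ _) hc]
      exact hj
  · -- density
    intro n x' hx'
    obtain ⟨x, hx, hc⟩ := hRc n x' hx'
    have hxA := hRA n x hx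
    have hdC : ∀ P ∈ C f, ∀ P' ∈ C f, ∀ z ∈ P, z ∈ P' → P = P' :=
      fun P hP P' hP' z hz hz' => hds f P hP P' hP' z hz z hz' rfl
    rcases hGR L M S F m A n x h hxA with h1 | h1 | h1
    · exact Or.inr ((hR L M S F m A n h).2.1 x x' hxA hc h1)
    · refine Or.inl (EFM_rx hR h hxA hc hdC ?_)
      have h2 : EFM_V2 S F A n x ∈ U0 :=
        (hU0 _).2 ⟨EFM_V2_inf hG hV hW hR h hxA h1, Or.inl ⟨⟨(n, x), by rw [hJ]; exact hx⟩, rfl⟩⟩
      have h3 := (hEU' _ h2).image (f := EFM_pc) (fun a ha b hb hab => hinj a ha.1 b hb.1 hab)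
      refine h3.mono ?_
      rintro _ ⟨e, ⟨he, het, heR⟩, rfl⟩
      exact ⟨(hC f _).2 ⟨e, he, rfl, Or.inl het⟩, heR⟩
    · refine Or.inl (EFM_rx hR h hxA hc hdC ?_)
      obtain ⟨p, hp⟩ : ∃ p : J, p.1 = (n, x) := ⟨⟨(n, x), by rw [hJ]; exact hx⟩, rfl⟩
      have hpV : V (some p) = EFM_V3 S F A n x := by
        rw [hV1, hp]
      have h2 : some p ∈ W0 := by
        rw [hW0, hpV]
        exact fun K => EFM_V3_inf hG hB hV hR h hxA h1 K
      rw [hWr] at h2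
      obtain ⟨i, hi⟩ := h2
      have h3 : ∀ t : ℕ, ∃ e ∈ E, e ∈ V (some p) ∧
          (EFM_pc e).encard = (k (Nat.pair i t) (f (Nat.pair i t)) : ℕ∞) := by
        intro t
        have h4 := hkE (Nat.pair i t) (f (Nat.pair i t))
        rw [Nat.unpair_pair] at h4
        have h5 : W (i, t).1 = some p := hi
        rw [h5] at h4
        exact h4
      choose g hg1 hg2 hg3 using h3
      refine Set.infinite_of_injective_forall_mem (f := fun t => EFM_pc (g t)) ?_ ?_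
      · intro t t' heq
        have h4 : EFM_pc (g t) = EFM_pc (g t') := heq
        have h5 := hg3 t
        rw [h4, hg3 t'] at h5
        have h6 : k (Nat.pair i t') (f (Nat.pair i t')) = k (Nat.pair i t) (f (Nat.pair i t)) := by
          exact_mod_cast h5
        have h7 := (hkinj _ _ _ _ h6).1
        rw [Nat.pair_eq_pair] at h7
        exact h7.2.symm
      · intro t
        have h4 := hg2 t
        rw [hpV] at h4
        exact ⟨(hC f _).2 ⟨g t, hg1 t, rfl, Or.inr ⟨_, hg3 t⟩⟩, h4.2.1⟩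
  · -- sizes of the pieces
    intro f P hP
    obtain ⟨e, he, rfl, ht⟩ := (hC f P).1 hP
    rcases ht with ht | ⟨j, hj⟩
    · left
      intro y hy
      obtain ⟨h1, h2⟩ := hmax e ht
      obtain ⟨h3, h4⟩ := hbi e y hy
      have h5 : Bi S F univ e.y = EFM_key e := rfl
      refine ⟨⟨h3, ?_, ?_⟩, ?_⟩
      · rw [h4]
        exact h2.2.1
      · rw [h4]
        exact h2.2.2
      · rw [h4]
        exact h1.symm
    · exact Or.inr ⟨j, hj⟩
  · -- pieces of the given sizes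
    intro f j
    obtain ⟨e, he, he1, he2⟩ := hkE j (f j)
    refine ⟨EFM_pc e, (hC f _).2 ⟨e, he, rfl, Or.inr ⟨j, he2⟩⟩, he2, ⟨e.y, hself e⟩, ?_⟩
    intro y hy
    have h1 : EFM_pc e ≠ EFM_key e ∨ (EFM_pc e = EFM_key e ∧ Xt S F univ (EFM_key e)) := by
      rcases hcase : W (Nat.unpair j).1 with _ | p
      · rw [hcase, hV0] at he1
        exact Or.inl he1.2
      · rw [hcase, hV1] at he1
        exact he1.2.2
    rw [(hbi e y hy).2]
    rcases h1 with h1 | ⟨h1, h2⟩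
    · exact Or.inl h1
    · right
      rw [h1]
      exact h2

end HEI
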