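import Pool.Agent.HEI.StA
import Pool.Agent.HERN.TE

/-!
# HEI, module EXA: extendable pieces in `D` (helper2)
-/

set_option autoImplicit false
set_option linter.unusedVariables false

namespace HEI

open Set Pool.Agent.Helper5.DU Pool.Agent.Helper6.Str Pool.Agent.Helper79.VC
  Pool.Agent.Helper97.LO Pool.Agent.Helper97.VC HER HERN

variable {L : FirstOrder.Language.{0, 0}} {M : Type} {S : L.Structure M} {F : Set M}

theorem EXA_inv (σ : Equiv.Perm M) (x : M) : σ⁻¹ (σ x) = x := σ.symm_apply_apply x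

theorem EXA_SW_anti {β : Type} {X Y : Set M} (h : Y ⊆ X) (w v : β → M) :
    SW Y w v ⊆ SW X w v := by
  rintro a ((⟨h1, h2, h3, h4⟩ | h1) | h1)
  · exact Or.inl (Or.inl ⟨h1, h h2, h3, h4⟩)
  · exact Or.inl (Or.inr h1)
  · exact Or.inr h1

theorem EXA_enum {α : Type} {B : Set α} (hB : B.Finite) :
    ∃ (k : ℕ) (w : Fin k → α), Function.Injective w ∧ range w = B := by
  have := hB.to_subtype
  obtain ⟨k, ⟨e⟩⟩ := Finite.exists_equiv_fin B
  refine ⟨k, fun i => (e.symm i : α), fun i j h => e.symm.injective (Subtype.ext h), ?_⟩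
  ext x
  constructor
  · rintro ⟨i, rfl⟩
    exact (e.symm i).2
  · intro hx
    exact ⟨e ⟨x, hx⟩, by simp⟩

theorem EXA_enum' {α : Type} {B : Set α} (hB : B.Finite) (hne : B.Nonempty) :
    ∃ (b : ℕ) (w : Fin (b + 1) → α), Function.Injective w ∧ range w = B := by
  obtain ⟨k, w, hw, hr⟩ := EXA_enum hB
  cases k with
  | zero =>
    obtain ⟨x, hx⟩ := hne
    rw [← hr] at hx
    obtain ⟨i, _⟩ := hx
    exact i.elim0
  | succ b => exact ⟨b, w, hw, hr⟩

theorem EXA_Sw_le {n n' : ℕ} {X : Set M} {β : Type} {w w' : β → M} (h : n ≤ n')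
    (hS : Sw S F n' X w w') : Sw S F n X w w' :=
  ⟨hS.1, hS.2.1, hS.2.2.1, hS.2.2.2.le h⟩

/-- blocks of elements of `A` with infinitely many conjugate blocks in `A` -/
theorem EXA_zero (hGRP : St_GRP) (hBLK : St_BLK) (hCNJ : St_CNJ) (hRDV : St_RDV)
    {m : ℕ → ℕ} {A : Set M} {C : Set (Set M)} (hL : Lv S F m A) (hC : PD S F A C)
    {m' : ℕ} {y : M} (hy : y ∈ A) (hg : Gx S F m' univ y)
    (hinf : {B | ∃ z ∈ A, Cj S F m' univ y z ∧ B = Bl S F m' univ z}.Infinite) :
    Gx S F m' (A ∪ ⋃₀ C) y ∧ Bl S F m' (A ∪ ⋃₀ C) y = Bl S F m' univ y := by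
  obtain ⟨D, hD⟩ : ∃ D : Set M, D = A ∪ ⋃₀ C := ⟨_, rfl⟩
  rw [← hD]
  have hAD : A ⊆ D := by
    rw [hD]
    exact subset_union_left
  obtain ⟨hU1, hU2, hU3, hU4, hU5, -, -⟩ := hBLK L M S F m' univ
  obtain ⟨hD1, hD2, hD3, hD4, hD5, -, -⟩ := hBLK L M S F m' D
  obtain ⟨gU1, gUmul, gUinv, -, -, gUex, gUiff⟩ := hGRP L M S F m' univ
  obtain ⟨-, -, -, -, -, gDex, gDiff⟩ := hGRP L M S F m' D
  obtain ⟨C0, hC0⟩ : ∃ C0 : Set M, C0 = Bl S F m' univ y := ⟨_, rfl⟩
  obtain ⟨hGsC, hyC⟩ := hU2 y hg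
  rw [← hC0] at hGsC hyC ⊢
  -- the sequence of conjugates
  obtain ⟨Z, hZA, hZc, hZd⟩ : ∃ Z : ℕ → M, (∀ i, Z i ∈ A) ∧ (∀ i, Cj S F m' univ y (Z i)) ∧
      (Z 0 = y ∧ ∀ i j, i ≠ j → Bl S F m' univ (Z i) ≠ Bl S F m' univ (Z j)) := by
    have h1 := hinf.sdiff (finite_singleton C0)
    have h2 : ∀ i : ℕ, ∃ z ∈ A, Cj S F m' univ y z ∧
        (Set.Infinite.natEmbedding _ h1 i : Set M) = Bl S F m' univ z := fun i =>
      (Set.Infinite.natEmbedding _ h1 i).2.1
    choose z hz1 hz2 hz3 using h2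
    refine ⟨fun i => Nat.casesOn i y z, ?_, ?_, rfl, ?_⟩
    · intro i
      cases i with
      | zero => exact hy
      | succ i => exact hz1 i
    · intro i
      cases i with
      | zero => exact ⟨1, gU1, rfl⟩
      | succ i => exact hz2 i
    · intro i j hij
      cases i with
      | zero =>
        cases j with
        | zero => exact absurd rfl hij
        | succ j =>
          intro h3
          have h4 := (Set.Infinite.natEmbedding _ h1 j).2.2
          rw [hz3 j] at h4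
          exact h4 (by rw [mem_singleton_iff, hC0]; exact h3.symm)
      | succ i =>
        cases j with
        | zero =>
          intro h3
          have h4 := (Set.Infinite.natEmbedding _ h1 i).2.2
          rw [hz3 i] at h4
          exact h4 (by rw [mem_singleton_iff, hC0]; exact h3)
        | succ j =>
          intro h3
          have h4 : (Set.Infinite.natEmbedding _ h1 i : Set M) =
              (Set.Infinite.natEmbedding _ h1 j : Set M) := by
            rw [hz3 i, hz3 j]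
            exact h3
          have h5 := (Set.Infinite.natEmbedding _ h1).injective (Subtype.ext h4)
          exact hij (by rw [h5])
  obtain ⟨hZ0, hZd⟩ := hZd
  choose σ hσ hσy using hZc
  have hZg : ∀ i, Gx S F m' univ (Z i) := fun i => by
    rw [← hσy i]
    exact (hU5 (σ i) y (hσ i) hg).1
  have hZb : ∀ i, Bl S F m' univ (Z i) = σ i '' C0 := fun i => by
    rw [← hσy i, hC0]
    exact (hU5 (σ i) y (hσ i) hg).2
  have hZsub : ∀ i, Bl S F m' univ (Z i) ⊆ A := fun i t ht =>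
    hL.cl.bl m' (Z i) t (hZA i) (hZg i) ht
  have hZdis : ∀ i j t, t ∈ Bl S F m' univ (Z i) → t ∈ Bl S F m' univ (Z j) → i = j := by
    intro i j t h1 h2
    by_contra hij
    exact hZd i j hij (((hU3 _ _ (hZg i) h1).2).symm.trans (hU3 _ _ (hZg j) h2).2)
  obtain ⟨hfinC, hneC, -⟩ := hU1 C0 hGsC
  obtain ⟨b, w, hw, hrw⟩ := EXA_enum' hfinC hneC
  obtain ⟨W, hW⟩ : ∃ W : ℕ → Fin (b + 1) → M, ∀ i p, W i p = σ i (w p) :=
    ⟨fun i p => σ i (w p), fun _ _ => rfl⟩
  have hWi : ∀ i, Function.Injective (W i) := fun i p q hpq => by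
    rw [hW, hW] at hpq
    exact hw ((σ i).injective hpq)
  have hWr : ∀ i, range (W i) = Bl S F m' univ (Z i) := fun i => by
    rw [hZb, ← hrw, ← range_comp]
    congr 1
    funext p
    exact hW i p
  have hWb : ∀ i p, W i p ∈ Bl S F m' univ (Z i) := fun i p => by
    rw [← hWr]
    exact mem_range_self p
  have hWd : ∀ i p j q, W i p = W j q → i = j ∧ p = q := by
    intro i p j q h
    have h1 : i = j := hZdis i j (W i p) (hWb i p) (by rw [h]; exact hWb j q)
    subst h1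
    exact ⟨rfl, hWi i h⟩
  have hWA : ∀ i p, W i p ∈ A := fun i p => hZsub i (hWb i p)
  have hWS : ∀ i j, i ≠ j → Sw S F m' univ (W i) (W j) := by
    intro i j hij
    have h1 : Ph S F m' univ (σ j * (σ i)⁻¹) := gUmul _ _ (hσ j) (gUinv _ (hσ i))
    have h2 : (σ j * (σ i)⁻¹) (Z i) = Z j := by
      rw [Equiv.Perm.mul_apply, ← hσy i, EXA_inv, hσy j]
    have h3 : (σ j * (σ i)⁻¹) (Z i) ∉ Bl S F m' univ (Z i) := by
      rw [h2]
      intro h4
      exact hij (hZdis i j (Z j) h4 (hU2 _ (hZg j)).2)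
    have h4 := ((hCNJ L M S F m' univ _ h1).2 (Z i) (hZg i) h3 (b + 1) (W i) (hWi i)
      (hWr i)).1
    have h5 : (fun p => (σ j * (σ i)⁻¹) (W i p)) = W j := by
      funext p
      rw [Equiv.Perm.mul_apply, hW, EXA_inv, hW]
    rw [h5] at h4
    exact h4
  have hWT : ∀ i j, i ≠ j → TE S F m' (SW D (W i) (W j)) := fun i j hij =>
    (hWS i j hij).2.2.2.anti (EXA_SW_anti (subset_univ _) _ _)
  have hGsD : Gs S F m' D C0 := by
    refine ⟨b, W, ⟨fun i p => hAD (hWA i p), hWd, hWT⟩, ?_⟩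
    rw [hWr, hZ0, hC0]
  have hGxD : Gx S F m' D y := ⟨C0, hGsD, hyC⟩
  refine ⟨hGxD, Subset.antisymm (fun t ht => ht C0 hGsD hyC) ?_⟩
  obtain ⟨v, hv⟩ : ∃ v : Set M, v = Bl S F m' D y := ⟨_, rfl⟩
  obtain ⟨hGsv, hyv⟩ := hD2 y hGxD
  rw [← hv] at hGsv hyv ⊢
  have hvC : v ⊆ C0 := by
    rw [hv]
    exact fun t ht => ht C0 hGsD hyC
  obtain ⟨hfinv, hnev, -⟩ := hD1 v hGsv
  obtain ⟨t, V, hV, hVr⟩ := EXA_enum' hfinv hnev
  have he : ∀ q, ∃ p, W 0 p = V q := by
    intro q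
    have h1 : V q ∈ range (W 0) := by
      rw [hWr, hZ0, ← hC0]
      apply hvC
      rw [← hVr]
      exact mem_range_self q
    exact h1
  choose e he using he
  have hei : Function.Injective e := fun q q' h => by
    apply hV
    rw [← he q, ← he q', h]
  -- exchanges of the `W i`
  have hWDj : ∀ i j, i ≠ j → Dj (W i) (W j) := fun i j hij =>
    ⟨hWi i, hWi j, fun p q h => hij (hWd i p j q h).1⟩
  have hex : ∀ i j, i ≠ j → ∃ ρ, Xc (W i) (W j) ρ ∧ Ph S F m' D ρ := by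
    intro i j hij
    obtain ⟨ρ, hρ⟩ := gDex _ (W i) (W j) (hWDj i j hij)
    exact ⟨ρ, hρ, (gDiff _ (W i) (W j) ρ (hWDj i j hij) hρ (fun p => hAD (hWA i p))
      (fun p => hAD (hWA j p))).2 (hWT i j hij)⟩
  have hUi : ∀ i, Function.Injective (fun q => W i (e q)) := fun i q q' h =>
    hei (hWi i h)
  have hUG : ∀ i, Gs S F m' D (range (fun q => W i (e q))) := by
    intro i
    have h0 : range (fun q => W 0 (e q)) = v := by
      rw [← hVr]
      congr 1
      funext q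
      exact he q
    by_cases hi : i = 0
    · subst hi
      rw [h0]
      exact hGsv
    · obtain ⟨ρ, hρ, hρP⟩ := hex 0 i (fun h => hi h.symm)
      have h1 := hD4 ρ v hρP hGsv
      rw [← h0, ← range_comp] at h1
      have h2 : (ρ ∘ fun q => W 0 (e q)) = fun q => W i (e q) := by
        funext q
        exact hρ.1 (e q)
      rw [h2] at h1
      exact h1
  have hUS : ∀ i j, i ≠ j → TE S F m' (SW univ (fun q => W i (e q)) (fun q => W j (e q))) := by
    intro i j hij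
    obtain ⟨ρ, hρ, hρP⟩ := hex i j hij
    have h1 := (hCNJ L M S F m' D ρ hρP).1 (Fin (t + 1)) (fun q => W i (e q)) (hUi i) (hUG i)
      (fun p q h => by
        rw [hρ.1] at h
        exact hij (hWd _ _ _ _ h).1.symm)
    have h2 : (fun p => ρ (W i (e p))) = fun q => W j (e q) := by
      funext q
      exact hρ.1 (e q)
    rw [h2] at h1
    obtain ⟨τ, hτ⟩ := gDex _ _ _ h1.1
    have h3 := (gDiff _ _ _ τ h1.1 hτ h1.2.1 h1.2.2.1).2 h1.2.2.2
    have h4 : Ph S F m' univ τ := by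
      rw [hD] at h3
      refine hRDV L M S F m A C m' τ hL hC h3 fun x hx => Or.inl ?_
      by_cases hx1 : x ∈ range (fun q => W i (e q))
      · obtain ⟨q, rfl⟩ := hx1
        exact hWA i (e q)
      · by_cases hx2 : x ∈ range (fun q => W j (e q))
        · obtain ⟨q, rfl⟩ := hx2
          exact hWA j (e q)
        · exact absurd (hτ.2.2 x hx1 hx2) hx
    exact (gUiff _ _ _ τ h1.1 hτ (fun _ => mem_univ _) (fun _ => mem_univ _)).1 h4
  have hfin : Gs S F m' univ (range (fun q => W 0 (e q))) :=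
    ⟨t, fun i q => W i (e q), ⟨fun _ _ => mem_univ _, fun i p j q h => by
      obtain ⟨h1, h2⟩ := hWd _ _ _ _ h
      exact ⟨h1, hei h2⟩, hUS⟩, rfl⟩
  have h0 : range (fun q => W 0 (e q)) = v := by
    rw [← hVr]
    congr 1
    funext q
    exact he q
  rw [h0] at hfin
  rw [hC0]
  exact fun s hs => hs v hfin hyv

/-- extendability from an exchange -/
theorem EXA_core {D : Set M} {n m' : ℕ} {y : M} {k : ℕ} {u v : Fin k → M} {P B C0 : Set M}
    (hn : n ≤ m') (hyD : y ∈ D) (hg : Gx S F m' D y) (hb : Bl S F m' D y = C0) (hC0 : C0 ⊆ D)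
    (hu : range u = B) (hv : range v ⊆ C0) (hS : Sw S F n (univ \ (C0 \ range v)) u v)
    (hPB : P ⊆ B) (hPD : P ⊆ D) (hne : P ≠ B ∨ range v ≠ C0) (hDB : D ∩ B ⊆ P)
    (hdis : Disjoint P C0) : Em S F n D P := by
  obtain ⟨k1, e, he, her⟩ := EXA_enum (toFinite {i : Fin k | u i ∈ P})
  have heP : ∀ j, u (e j) ∈ P := by
    intro j
    have h1 : e j ∈ {i : Fin k | u i ∈ P} := by
      rw [← her]
      exact mem_range_self j
    exact h1
  have hru : range (fun j => u (e j)) = P := by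
    ext x
    constructor
    · rintro ⟨j, rfl⟩
      exact heP j
    · intro hx
      have h1 : x ∈ range u := by
        rw [hu]
        exact hPB hx
      obtain ⟨i, rfl⟩ := h1
      have h2 : i ∈ range e := by
        rw [her]
        exact hx
      obtain ⟨j, rfl⟩ := h2
      exact ⟨j, rfl⟩
  have hv1 : range (fun j => v (e j)) ⊆ C0 := by
    rintro _ ⟨j, rfl⟩
    exact hv (mem_range_self _)
  have hdisj : ∀ x, x ∈ P → x ∉ C0 := fun x h1 h2 => disjoint_left.1 hdis h1 h2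
  refine ⟨m', y, k1, fun j => u (e j), fun j => v (e j), hn, hyD, hg, by rw [hb]; exact hdis,
    hru, by rw [hb]; exact hv1, ?_, ?_⟩
  · rw [hb]
    intro h
    rcases hne with hne | hne
    · have h1 : ∃ x ∈ B, x ∉ P := by
        by_contra h2
        push Not at h2
        exact hne (Subset.antisymm hPB h2)
      obtain ⟨x, hx, hxP⟩ := h1
      rw [← hu] at hx
      obtain ⟨i, rfl⟩ := hx
      have h3 : v i ∈ range (fun j => v (e j)) := by
        rw [h]
        exact hv (mem_range_self i)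
      obtain ⟨j, hj⟩ := h3
      have h4 := hS.1.2.1 hj
      apply hxP
      rw [← h4]
      exact heP j
    · apply hne
      refine Subset.antisymm hv ?_
      rw [← h]
      rintro _ ⟨j, rfl⟩
      exact mem_range_self _
  · rw [hb]
    refine ⟨⟨fun i j h => he (hS.1.1 h), fun i j h => he (hS.1.2.1 h), fun i j h =>
      hS.1.2.2 _ _ h⟩, ?_, ?_, ?_⟩
    · intro j
      exact ⟨hPD (heP j), fun h => hdisj _ (heP j) h.1⟩
    · intro j
      exact ⟨hC0 (hv (mem_range_self _)), fun h => h.2 ⟨j, rfl⟩⟩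
    · refine hS.2.2.2.anti ?_
      rintro a ((⟨h1, h2, h3, h4⟩ | h1) | h1)
      · have h5 : a.1 ∉ C0 := fun h6 => h2.2 ⟨h6, h4⟩
        refine Or.inl (Or.inl ⟨h1, ⟨mem_univ _, fun h6 => h5 h6.1⟩, ?_, fun h6 => h5 (hv h6)⟩)
        rw [hu]
        intro h6
        apply h3
        rw [hru]
        exact hDB ⟨h2.1, h6⟩
      · obtain ⟨j, rfl⟩ := h1
        exact Or.inl (Or.inr ⟨e j, rfl⟩)
      · obtain ⟨j, rfl⟩ := h1
        exact Or.inr ⟨e j, rfl⟩

theorem thm_EXA (hGRP : St_GRP) (hBLK : St_BLK) (hCNJ : St_CNJ) (hUTL : St_UTL) (hLVF : St_LVF)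
    (hRDV : St_RDV) (hPBL : St_PBL) (hEXC : St_EXC) : St_EXA := by
  intro L M S F m A C hL hC P hP hPx m0
  have hPB := hPBL L M S F m A C hL hC
  obtain ⟨x, l, hx, hPl, -⟩ := hC.pc P hP
  obtain ⟨hx1, hx2, hx3, hx4, hx5, hx6, hx7, hx8⟩ := hLVF L M S F m A hL x hx
  have hxP : x ∈ P := by
    rw [hPl]
    exact ((hBLK L M S F l univ).2.1 x (hx1 l)).2
  have hPfin : P.Finite := by
    rw [hPl]
    exact ((hBLK L M S F l univ).1 _ ((hBLK L M S F l univ).2.1 x (hx1 l)).1).1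
  have hPA : ∀ t ∈ P, t ∉ A := by
    obtain ⟨lP, hlP⟩ := hPB P hP
    exact fun t ht => (hlP t ht).1
  have hPD : P ⊆ A ∪ ⋃₀ C := fun t ht => Or.inr ⟨P, hP, ht⟩
  -- the other pieces
  have hpc : ∀ P' ∈ C, P' ≠ P → Disjoint P P' := by
    intro P' hP' hne
    rw [disjoint_left]
    intro t h1 h2
    exact hne (hC.ds P' hP' P hP t h2 t h1 rfl)
  have hpf : ∀ P' ∈ C, P'.Finite ∧ P'.Nonempty := by
    intro P' hP'
    obtain ⟨x', l', hx', hPl', -⟩ := hC.pc P' hP'
    obtain ⟨hx1', -⟩ := hLVF L M S F m A hL x' hx'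
    rw [hPl']
    have h1 := (hBLK L M S F l' univ).1 _ ((hBLK L M S F l' univ).2.1 x' (hx1' l')).1
    exact ⟨h1.1, h1.2.1⟩
  have hpt : ∀ P' ∈ C, ∀ n, ∃ k' y', n ≤ k' ∧ y' ∈ A ∪ ⋃₀ C ∧ Gx S F k' (A ∪ ⋃₀ C) y' ∧
      Bl S F k' (A ∪ ⋃₀ C) y' = P' := by
    intro P' hP' n
    obtain ⟨l', hl'⟩ := hPB P' hP'
    obtain ⟨y', hy'⟩ := (hpf P' hP').2
    obtain ⟨-, -, h1, -, h2, -⟩ := hl' y' hy'
    exact ⟨max n l', y', le_max_left _ _, Or.inr ⟨P', hP', hy'⟩, h1 _, h2 _ (le_max_right _ _)⟩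
  have hgA : ∀ (n' : ℕ) (y' : M), y' ∈ A → Gx S F n' univ y' → Bl S F n' univ y' ⊆ A :=
    fun n' y' hy' hg' t ht => hL.cl.bl n' y' t hy' hg' ht
  have hdA : ∀ B : Set M, B ⊆ A → Disjoint P B := fun B hB => by
    rw [disjoint_left]
    exact fun t h1 h2 => hPA t h1 (hB h2)
  by_cases hnat : P = Bi S F univ x
  · -- natural pieces
    have hXt : Xt S F univ P := by
      rcases hPx x hxP with h | h
      · exact absurd hnat h
      · exact h
    obtain ⟨n, hn, m', y, k, u, v, hnm, -, hg, hdis, hu, hv, hvne, hS⟩ := hXt m0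
    refine ⟨n, hn, ?_⟩
    obtain ⟨hU1, hU2, hU3, hU4, hU5, -, -⟩ := hBLK L M S F m' univ
    obtain ⟨gU1, gUmul, gUinv, gUle, -, gUex, gUiff⟩ := hGRP L M S F m' univ
    have huP : ∀ i, u i ∈ P := fun i => by
      rw [← hu]
      exact mem_range_self i
    -- transport
    have htr : ∀ σ : Equiv.Perm M, Ph S F m' univ σ → Disjoint P (Bl S F m' univ (σ y)) →
        ∃ v' : Fin k → M, range v' ⊆ Bl S F m' univ (σ y) ∧ range v' ≠ Bl S F m' univ (σ y) ∧
          Sw S F n (univ \ (Bl S F m' univ (σ y) \ range v')) u v' := by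
      intro σ hσ hd
      obtain ⟨τ, hτ, hτσ, hτP⟩ := (hUTL L M S F m' univ).2.2.2.1 y σ P hg hσ hPfin hdis hd
      have hτy : τ y = σ y := hτσ y (hU2 y hg).2
      have hτB : Bl S F m' univ (σ y) = τ '' Bl S F m' univ y := by
        rw [← hτy]
        exact (hU5 τ y hτ hg).2
      have hτv : range (fun i => τ (v i)) = τ '' range v := by
        rw [← range_comp]
        rfl
      refine ⟨fun i => τ (v i), ?_, ?_, ?_⟩
      · rw [hτB, hτv]
        exact image_mono hv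
      · rw [hτB, hτv]
        intro h
        exact hvne (τ.injective.image_injective h)
      · have h1 := (hUTL L M S F n univ).1 k u v (Bl S F m' univ y \ range v) τ
          (gUle n τ hnm hτ) hS
        rw [image_sdiff τ.injective, ← hτB, ← hτv] at h1
        have h2 : (fun i => τ (u i)) = u := by
          funext i
          exact hτP _ (huP i)
        rw [h2] at h1
        exact h1
    by_cases hinf : {B | ∃ z ∈ A, Cj S F m' univ y z ∧ B = Bl S F m' univ z}.Infinite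
    · obtain ⟨_, z, hzA, ⟨σ, hσ, hσy⟩, -⟩ := hinf.nonempty
      have hgz : Gx S F m' univ z := by
        rw [← hσy]
        exact (hU5 σ y hσ hg).1
      have hzs := hgA m' z hzA hgz
      obtain ⟨v', hv'1, hv'2, hv'3⟩ := htr σ hσ (by rw [hσy]; exact hdA _ hzs)
      rw [hσy] at hv'1 hv'2 hv'3
      obtain ⟨h1, h2⟩ := EXA_zero hGRP hBLK hCNJ hRDV hL hC hzA hgz (hinf.mono (by
        rintro B ⟨z', hz', ⟨σ', hσ', hσ'y⟩, rfl⟩
        refine ⟨z', hz', ⟨σ' * σ⁻¹, gUmul _ _ hσ' (gUinv _ hσ), ?_⟩, rfl⟩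
        rw [Equiv.Perm.mul_apply, ← hσy, EXA_inv, hσ'y]))
      exact EXA_core hnm (Or.inl hzA) h1 h2 (hzs.trans subset_union_left) hu hv'1 hv'3
        Subset.rfl hPD (Or.inr hv'2) inter_subset_right (hdA _ hzs)
    · rw [not_infinite] at hinf
      have hEf : (P ∪ ⋃₀ {B | ∃ z ∈ A, Cj S F m' univ y z ∧ B = Bl S F m' univ z}).Finite := by
        refine hPfin.union (hinf.sUnion ?_)
        rintro B ⟨z, -, ⟨σ, hσ, rfl⟩, rfl⟩
        exact (hU1 _ (hU2 _ (hU5 σ y hσ hg).1).1).1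
      obtain ⟨τ, hτ, -, -, hτd⟩ := (hUTL L M S F m' univ).2.1 y _ hg hEf
      rw [← (hU5 τ y hτ hg).2] at hτd
      have hgz : Gx S F m' univ (τ y) := (hU5 τ y hτ hg).1
      have hzz := (hU2 _ hgz).2
      have hzA : τ y ∉ A := by
        intro h
        refine disjoint_left.1 hτd hzz (Or.inl (Or.inr ?_))
        exact ⟨_, ⟨τ y, h, ⟨τ, hτ, rfl⟩, rfl⟩, hzz⟩
      have hdz : Disjoint P (Bl S F m' univ (τ y)) := by
        rw [disjoint_left]
        exact fun t h1 h2 => disjoint_left.1 hτd h2 (Or.inl (Or.inl h1))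
      obtain ⟨v', hv'1, hv'2, hv'3⟩ := htr τ hτ hdz
      -- composition with the exchange of `PD.rd`
      have hcomp : ∀ (n2 : ℕ) (C2 : Set M) (k2 : ℕ) (u2 v2 : Fin k2 → M), m' ≤ n2 → C2.Finite →
          range u2 = Bl S F m' univ (τ y) → range v2 ⊆ C2 →
          Sw S F m' (univ \ (C2 \ range v2)) u2 v2 → Disjoint P C2 →
          ∃ v3 : Fin k → M, range v3 ⊆ C2 ∧ range v3 ≠ C2 ∧
            Sw S F n (univ \ (C2 \ range v3)) u v3 := by
        intro n2 C2 k2 u2 v2 hn2 hC2 hu2 hv2 hS2 hd2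
        have he : ∀ i, ∃ j, v' i = u2 j := by
          intro i
          have h1 : v' i ∈ range u2 := by
            rw [hu2]
            exact hv'1 (mem_range_self i)
          obtain ⟨j, hj⟩ := h1
          exact ⟨j, hj.symm⟩
        choose e he using he
        refine ⟨fun i => v2 (e i), ?_, ?_, ?_⟩
        · rintro _ ⟨i, rfl⟩
          exact hv2 (mem_range_self _)
        · intro h
          have h1 : ∃ t ∈ Bl S F m' univ (τ y), t ∉ range v' := by
            by_contra h2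
            push Not at h2
            exact hv'2 (Subset.antisymm hv'1 h2)
          obtain ⟨t, ht, ht'⟩ := h1
          rw [← hu2] at ht
          obtain ⟨j, rfl⟩ := ht
          have h3 : v2 j ∈ range (fun i => v2 (e i)) := by
            rw [h]
            exact hv2 (mem_range_self j)
          obtain ⟨i, hi⟩ := h3
          have h4 := hS2.1.2.1 hi
          apply ht'
          rw [← h4, ← he i]
          exact mem_range_self i
        · exact hEXC L M S F n m' k k2 (τ y) u v' u2 v2 C2 e hnm hgz hC2 hv'1 hv'3 hu2 hv2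
            (EXA_Sw_le hnm hS2) (by rw [hu]; exact hd2) (by rw [hu]; exact hdz) he
      rcases hC.rd m' (τ y) hzA with hrd | hrd
      · obtain ⟨P', ⟨hP', k2, u2, v2, hu2, hv2, hS2⟩, hne⟩ :=
          (hrd.sdiff (finite_singleton P)).nonempty
        have hne' : P' ≠ P := fun h => hne (mem_singleton_iff.2 h)
        obtain ⟨v3, h1, h2, h3⟩ := hcomp m' P' k2 u2 v2 le_rfl (hpf P' hP').1 hu2 hv2 hS2
          (hpc P' hP' hne')
        obtain ⟨k', y', h4, h5, h6, h7⟩ := hpt P' hP' n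
        exact EXA_core h4 h5 h6 h7 (fun t ht => Or.inr ⟨P', hP', ht⟩) hu h1 h3 Subset.rfl hPD
          (Or.inr h2) inter_subset_right (hpc P' hP' hne')
      · obtain ⟨n2, y', hn2, hy', hg', ⟨k2, u2, v2, hu2, hv2, hS2⟩, hinf'⟩ := hrd
        have hys := hgA n2 y' hy' hg'
        obtain ⟨v3, h1, h2, h3⟩ := hcomp n2 _ k2 u2 v2 hn2
          ((hBLK L M S F n2 univ).1 _ ((hBLK L M S F n2 univ).2.1 y' hg').1).1 hu2 hv2 hS2
          (hdA _ hys)
        obtain ⟨h4, h5⟩ := EXA_zero hGRP hBLK hCNJ hRDV hL hC hy' hg' hinf'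
        exact EXA_core (hnm.trans hn2) (Or.inl hy') h4 h5 (hys.trans subset_union_left) hu h1 h3
          Subset.rfl hPD (Or.inr h2) inter_subset_right (hdA _ hys)
  · -- truncated pieces
    have hPs : P ⊆ Bi S F univ x := by
      rw [hPl]
      exact subset_iUnion (fun n => Bl S F n univ x) l
    have h1 : ∃ t ∈ Bi S F univ x, t ∉ P := by
      by_contra h2
      push Not at h2
      exact hnat (Subset.antisymm hPs h2)
    obtain ⟨t, ht, htP⟩ := h1
    obtain ⟨n1, hn1⟩ := mem_iUnion.1 ht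
    obtain ⟨m1, hm1⟩ : ∃ m1, m1 = max m0 (max l n1) := ⟨_, rfl⟩
    have hm10 : m0 ≤ m1 := by rw [hm1]; exact le_max_left _ _
    have hm1l : l ≤ m1 := by rw [hm1]; exact (le_max_left _ _).trans (le_max_right _ _)
    have hm1n : n1 ≤ m1 := by rw [hm1]; exact (le_max_right _ _).trans (le_max_right _ _)
    have hPB1 : P ⊆ Bl S F m1 univ x := by
      rw [hPl]
      exact ((hBLK L M S F l univ).2.2.2.2.2.2 m1 x hm1l (hx1 m1)).2
    have htB : t ∈ Bl S F m1 univ x :=
      ((hBLK L M S F n1 univ).2.2.2.2.2.2 m1 x hm1n (hx1 m1)).2 hn1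
    have hneB : P ≠ Bl S F m1 univ x := fun h => htP (by rw [h]; exact htB)
    have hDB : (A ∪ ⋃₀ C) ∩ Bl S F m1 univ x ⊆ P := by
      rintro a ⟨ha1, ha2⟩
      have h2 := hx3 a (mem_iUnion.2 ⟨m1, ha2⟩)
      rcases ha1 with ha1 | ⟨P'', hP'', ha1⟩
      · exact absurd ha1 h2.1
      · have h3 := hC.ds P'' hP'' P hP a ha1 x hxP h2.2
        rw [← h3]
        exact ha1
    refine ⟨m1, hm10, ?_⟩
    rcases hC.rd m1 x hx with hrd | hrd
    · obtain ⟨P', ⟨hP', k2, u2, v2, hu2, hv2, hS2⟩, hne⟩ :=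
        (hrd.sdiff (finite_singleton P)).nonempty
      have hne' : P' ≠ P := fun h => hne (mem_singleton_iff.2 h)
      obtain ⟨k', y', h4, h5, h6, h7⟩ := hpt P' hP' m1
      exact EXA_core h4 h5 h6 h7 (fun t ht => Or.inr ⟨P', hP', ht⟩) hu2 hv2 hS2 hPB1 hPD
        (Or.inl hneB) hDB (hpc P' hP' hne')
    · obtain ⟨n2, y', hn2, hy', hg', ⟨k2, u2, v2, hu2, hv2, hS2⟩, hinf'⟩ := hrd
      have hys := hgA n2 y' hy' hg'
      obtain ⟨h4, h5⟩ := EXA_zero hGRP hBLK hCNJ hRDV hL hC hy' hg' hinf'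
      exact EXA_core hn2 (Or.inl hy') h4 h5 (hys.trans subset_union_left) hu2 hv2 hS2 hPB1 hPD
        (Or.inl hneB) hDB (hdA _ hys)

end HEI
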