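import Pool.Agent.HEI.StA
import Pool.Agent.HERN.TE

/-!
# HEI [EXB]: pieces which are not extendable (helper43)
-/

set_option autoImplicit false
set_option linter.unusedVariables false

namespace HEI

open Set Pool.Agent.Helper5.DU Pool.Agent.Helper6.Str Pool.Agent.Helper79.VC
  Pool.Agent.Helper97.LO Pool.Agent.Helper97.VC HER HERN

variable {L : FirstOrder.Language.{0, 0}} {M : Type}

/-- from `D` to `univ` -/
theorem EXB_core {S : L.Structure M} {F : Set M} {k kk : ℕ} {D CD CM P : Set M}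
    {u v : Fin kk → M}
    (hmov : ∀ z : Set M, z.Finite → ∃ e : Equiv.Perm M, (∀ x ∈ P ∪ CM, e x = x) ∧
      (∀ x ∈ z, x ∉ P ∪ CM → e x ∈ D ∧ e x ∉ P ∪ CM) ∧
      TE S F k {a | a.1 ∈ z ∪ (P ∪ CM) ∧ a.2 = e a.1})
    (hu : range u = P) (hv : range v ⊆ CD) (hCD : CD ⊆ CM) (hdis : Disjoint P CM)
    (hsw : Sw S F k (D \ (CD \ range v)) u v) : Sw S F k (univ \ (CM \ range v)) u v := by
  obtain ⟨h1, h2, h3, h4⟩ := hsw
  refine ⟨h1, fun p => ⟨mem_univ _, fun h => ?_⟩, fun p => ⟨mem_univ _, fun h => ?_⟩, ?_⟩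
  · exact disjoint_left.1 hdis (hu ▸ mem_range_self p) h.1
  · exact h.2 (mem_range_self p)
  · intro q hq hn
    have hqf : q.Finite := finite_of_encard_le_coe hn
    obtain ⟨e, he1, he2, he3⟩ := hmov (Prod.fst '' q) (hqf.image _)
    have huK : ∀ p, u p ∈ P ∪ CM := fun p => Or.inl (hu ▸ mem_range_self p)
    have hvK : ∀ p, v p ∈ P ∪ CM := fun p => Or.inr (hCD (hv (mem_range_self p)))
    have h5 : TE S F k {a : M × M | a.2 ∈ Prod.fst '' q ∪ (P ∪ CM) ∧ a.1 = e a.2} :=
      he3.symm' fun a ha => ⟨ha.1, ha.2⟩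
    have h6 : TE S F k {a : M × M | ∃ b, (a.1, b) ∈ SW (D \ (CD \ range v)) u v ∧
        (b, a.2) ∈ {a : M × M | a.2 ∈ Prod.fst '' q ∪ (P ∪ CM) ∧ a.1 = e a.2}} :=
      h4.comp h5 fun a ha => ha
    have h7 : TE S F k q := by
      refine he3.comp h6 fun a ha => ⟨e a.1, ⟨Or.inl ⟨a, ha, rfl⟩, rfl⟩, e a.2, ?_, ?_, rfl⟩
      · rcases hq ha with (⟨h8, h9, h10, h11⟩ | ⟨p, hp⟩) | ⟨p, hp⟩
        · have h12 : a.1 ∉ P ∪ CM := by
            rintro (h13 | h13)
            · exact h10 (hu ▸ h13)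
            · exact h9.2 ⟨h13, h11⟩
          obtain ⟨h13, h14⟩ := he2 a.1 ⟨a, ha, rfl⟩ h12
          refine Or.inl (Or.inl ⟨by rw [h8], ⟨h13, fun h15 => ?_⟩, fun h15 => ?_, fun h15 => ?_⟩)
          · exact h14 (Or.inr (hCD h15.1))
          · exact h14 (Or.inl (hu ▸ h15))
          · exact h14 (Or.inr (hCD (hv h15)))
        · refine Or.inl (Or.inr ⟨p, ?_⟩)
          rw [← hp]
          show (u p, v p) = (e (u p), e (v p))
          rw [he1 _ (huK p), he1 _ (hvK p)]
        · refine Or.inr ⟨p, ?_⟩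
          rw [← hp]
          show (v p, u p) = (e (v p), e (u p))
          rw [he1 _ (huK p), he1 _ (hvK p)]
      · rcases hq ha with (⟨h8, h9, h10, h11⟩ | ⟨p, hp⟩) | ⟨p, hp⟩
        · exact Or.inl ⟨a, ha, h8⟩
        · rw [← hp]
          exact Or.inr (hvK p)
        · rw [← hp]
          exact Or.inr (huK p)
    exact h7.atEq hn

theorem thm_EXB (hGRP : St_GRP) (hBLK : St_BLK) (hCNJ : St_CNJ) (hUTL : St_UTL) (hLVF : St_LVF)
    (hRDV : St_RDV) (hMOV : St_MOV) (hPBL : St_PBL) (hAEL : St_AEL) : St_EXB := by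
  intro L M S F m A C hL hC P hP y0 hy0 hPi n k hPn hnk hEm
  set D := A ∪ ⋃₀ C with hD
  have hblk := fun n X => hBLK L M S F n X
  obtain ⟨l0, hl0⟩ := hPBL L M S F m A C hL hC P hP
  have hy0A : y0 ∉ A := (hl0 y0 hy0).1
  -- P is the k-block of y0
  have hsub : ∀ n x, Bl S F n univ x ⊆ Bi S F univ x := fun n x => subset_iUnion (fun n => Bl S F n univ x) n
  have hPk : P = Bl S F k univ y0 := by
    refine Subset.antisymm ?_ ?_
    · have h1 := ((hblk n univ).2.2.2.2.2.2 k y0 hnk ((hLVF L M S F m A hL y0 hy0A).1 k)).2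
      rw [hPn]
      exact h1
    · rw [hPi]
      exact hsub k y0
  have hPf : P.Finite := by
    rw [hPk]
    exact ((hblk k univ).1 _ ((hblk k univ).2.1 y0
      ((hLVF L M S F m A hL y0 hy0A).1 k)).1).1
  -- the argument for `CM`
  have hcore : ∀ (m' : ℕ) (y : M) (kk : ℕ) (u v : Fin kk → M), k ≤ m' → Gx S F m' univ y →
      Disjoint P (Bl S F m' univ y) → range u = P → range v ⊆ Bl S F m' D y →
      range v ≠ Bl S F m' D y → Bl S F m' D y ⊆ Bl S F m' univ y →
      Sw S F k (D \ (Bl S F m' D y \ range v)) u v → Em S F k univ P := by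
    intro m' y kk u v hk hy hdis hu hv hne hsb hsw
    refine ⟨m', y, kk, u, v, hk, mem_univ _, hy, hdis, hu, hv.trans hsb, fun h => ?_, ?_⟩
    · exact hne (Subset.antisymm hv (hsb.trans h.symm.subset))
    · refine EXB_core (fun z hz => ?_) hu hv hsb hdis hsw
      have hCMf : (Bl S F m' univ y).Finite :=
        ((hblk m' univ).1 _ ((hblk m' univ).2.1 y hy).1).1
      refine hMOV L M S F m A C k z (P ∪ Bl S F m' univ y) hL hC hz (hPf.union hCMf) ?_
      intro x hx hxK hxA hxD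
      have hxg := (hLVF L M S F m A hL x hxA).1 k
      rw [disjoint_left]
      rintro w hw (hwP | hwC)
      · have h1 := ((hblk k univ).2.2.1 x w hxg hw).2
        rw [hPk] at hwP
        have h2 := ((hblk k univ).2.2.1 y0 w ((hLVF L M S F m A hL y0 hy0A).1 k) hwP).2
        refine hxK (Or.inl ?_)
        rw [hPk, ← h2, h1]
        exact ((hblk k univ).2.1 x hxg).2
      · have h1 := ((hblk k univ).2.2.1 x w hxg hw).2
        obtain ⟨h2, h3⟩ := (hblk m' univ).2.2.1 y w hy hwC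
        have h4 := ((hblk k univ).2.2.2.2.2.2 m' w hk h2).2
        refine hxK (Or.inr ?_)
        rw [← h3]
        refine h4 ?_
        rw [h1]
        exact ((hblk k univ).2.1 x hxg).2
  -- case 1: `y` is in a piece
  have hcase1 : ∀ (m' : ℕ) (y : M) (kk : ℕ) (u v : Fin kk → M) (P' : Set M), P' ∈ C → y ∈ P' →
      k ≤ m' → Gx S F m' D y → Disjoint P (Bl S F m' D y) → range u = P →
      range v ⊆ Bl S F m' D y → range v ≠ Bl S F m' D y →
      Sw S F k (D \ (Bl S F m' D y \ range v)) u v → Em S F k univ P := by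
    intro m' y kk u v P' hP' hy hk hyg hdis hu hv hne hsw
    obtain ⟨l, hl⟩ := hPBL L M S F m A C hL hC P' hP'
    obtain ⟨hyA, hP'l, -, hle, hge, hin, -⟩ := hl y hy
    have hygu := (hLVF L M S F m A hL y hyA).1
    have hyB := (hLVF L M S F m A hL y hyA).2.2.1
    have hy0B := (hLVF L M S F m A hL y0 hy0A).2.2.1
    have hymem : y ∈ Bl S F m' D y := ((hblk m' D).2.1 y hyg).2
    have hBine : Bi S F univ y ≠ Bi S F univ y0 := by
      intro h
      have h1 := hC.ds P' hP' P hP y hy y0 hy0 h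
      rw [h1] at hy
      exact disjoint_left.1 hdis hy hymem
    refine hcore m' y kk u v hk (hygu m') ?_ hu hv hne ?_ hsw
    · rw [disjoint_left]
      intro w hwP hwC
      have h1 := (hyB w (hsub m' y hwC)).2
      rw [hPi] at hwP
      have h2 := (hy0B w hwP).2
      exact hBine (h1.symm.trans h2)
    · rcases le_total m' l with h | h
      · exact (hle m' h).subset
      · rw [hge m' h, hP'l]
        exact ((hblk l univ).2.2.2.2.2.2 m' y h (hygu m')).2
  obtain ⟨m', y, kk, u, v, hk, hyD, hyg, hdis, hu, hv, hne, hsw⟩ := hEm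
  by_cases hyA : y ∈ A
  swap
  · rcases hyD with h | ⟨P', hP', hyP'⟩
    · exact absurd h hyA
    · exact hcase1 m' y kk u v P' hP' hyP' hk hyg hdis hu hv hne hsw
  obtain ⟨a1, -, a3, -, -⟩ := hAEL L M S F m A C y hL hC hyA
  by_cases hT : T2 S F A m' D y
  · obtain ⟨h1, h2⟩ := a3 m' m' le_rfl hyg hT
    refine hcore m' y kk u v hk h1 ?_ hu hv hne h2.subset hsw
    rw [← h2]
    exact hdis
  · -- conjugate to a piece
    have hT' : ∃ y', Cj S F m' D y y' ∧ y' ∉ A := by
      by_contra h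
      refine hT fun z hz => ?_
      by_contra h1
      exact h ⟨z, hz, h1⟩
    obtain ⟨y', ⟨σ, hσ, hσy⟩, hy'A⟩ := hT'
    have hy'D : y' ∈ D := by
      have h1 : σ y ≠ y := fun h => hy'A (by rw [← hσy, h]; exact hyA)
      rw [← hσy]
      exact hσ.2.1 (σ y) fun h => h1 (σ.injective h)
    obtain ⟨P1, hP1, hy'P1⟩ : ∃ P1 ∈ C, y' ∈ P1 := by
      rcases hy'D with h | ⟨P1, h1, h2⟩
      · exact absurd h hy'A
      · exact ⟨P1, h1, h2⟩
    obtain ⟨l1, hl1⟩ := hPBL L M S F m A C hL hC P1 hP1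
    have hinf := (hl1 y' hy'P1).2.2.2.2.2.2.2.2 m'
    obtain ⟨P', ⟨hP', y2, hy2, σ2, hσ2, hσy2⟩, hP'ne⟩ := (hinf.sdiff (finite_singleton P)).nonempty
    have hP'ne : P' ≠ P := hP'ne
    obtain ⟨l2, hl2⟩ := hPBL L M S F m A C hL hC P' hP'
    have hy2A : y2 ∉ A := (hl2 y2 hy2).1
    have hρ : Ph S F m' D (σ2 * σ) := (hGRP L M S F m' D).2.1 σ2 σ hσ2 hσ
    have hρy : (σ2 * σ) y = y2 := by
      rw [Equiv.Perm.mul_apply, hσy, hσy2]
    have hρn : (σ2 * σ) y ∉ Bl S F m' D y := by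
      rw [hρy]
      exact fun h => hy2A (a1 m' hyg h)
    obtain ⟨τ, hτ, hττ, hτρ, hτs⟩ := (hUTL L M S F m' D).2.2.1 y (σ2 * σ) hyg hρ hρn
    have hymem : y ∈ Bl S F m' D y := ((hblk m' D).2.1 y hyg).2
    have hτy : τ y = y2 := by rw [hτρ y hymem, hρy]
    obtain ⟨hg2, hB2⟩ := (hblk m' D).2.2.2.2.1 τ y hτ hyg
    rw [hτy] at hg2 hB2
    have hB2P' : Bl S F m' D y2 ⊆ P' := (hl2 y2 hy2).2.2.2.2.2.1 m'
    have hPP' : Disjoint P P' := by
      rw [disjoint_left]
      intro w hw hw'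
      exact hP'ne (hC.ds P' hP' P hP w hw' w hw rfl)
    have hdis2 : Disjoint P (Bl S F m' D y2) := hPP'.mono_right hB2P'
    have hτu : ∀ i, τ (u i) = u i := by
      intro i
      by_contra h
      have hui : u i ∈ P := hu ▸ mem_range_self i
      rcases hτs (u i) h with h1 | h1
      · exact disjoint_left.1 hdis hui h1
      · rw [hρy] at h1
        exact disjoint_left.1 hdis2 hui h1
    have hτk : Ph S F k D τ := (hGRP L M S F m' D).2.2.2.1 k τ hk hτ
    have hsw2 := (hUTL L M S F k D).1 kk u v (Bl S F m' D y \ range v) τ hτk hsw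
    have him : τ '' (Bl S F m' D y \ range v) =
        Bl S F m' D y2 \ range (fun i => τ (v i)) := by
      rw [image_sdiff τ.injective, ← hB2]
      congr 1
      exact (range_comp τ v).symm
    have hτu' : (fun i => τ (u i)) = u := funext hτu
    rw [him, hτu'] at hsw2
    refine hcase1 m' y2 kk u (fun i => τ (v i)) P' hP' hy2 hk hg2 hdis2 hu ?_ ?_ hsw2
    · rintro _ ⟨i, rfl⟩
      rw [hB2]
      exact ⟨v i, hv (mem_range_self i), rfl⟩
    · intro h
      refine hne ?_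
      have h1 : τ '' range v = τ '' Bl S F m' D y := by
        rw [← hB2, ← h]
        exact (range_comp τ v).symm
      exact (image_injective.2 τ.injective) h1

end HEI
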