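import Pool.Agent.HEI.StA

/-!
# HEI [EXC]: composition of exchanges (helper13)
-/

set_option autoImplicit false
set_option linter.unusedVariables false

namespace HEI

open Set Pool.Agent.Helper5.DU Pool.Agent.Helper6.Str Pool.Agent.Helper79.VC
  Pool.Agent.Helper97.LO Pool.Agent.Helper97.VC HER HERN

section

variable {M β : Type}

theorem EXC_fix {X : Set M} {w w' : β → M} {x : M} (hx : x ∈ X) (h : x ∉ range w)
    (h' : x ∉ range w') : (x, x) ∈ SW X w w' :=
  Or.inl (Or.inl ⟨rfl, hx, h, h'⟩)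

theorem EXC_fst {X : Set M} {w w' : β → M} (p : β) : (w p, w' p) ∈ SW X w w' :=
  Or.inl (Or.inr ⟨p, rfl⟩)

theorem EXC_snd {X : Set M} {w w' : β → M} (p : β) : (w' p, w p) ∈ SW X w w' :=
  Or.inr ⟨p, rfl⟩

end

theorem thm_EXC (hGRP : St_GRP) (hBLK : St_BLK) (hCNJ : St_CNJ) (hUTL : St_UTL) : St_EXC := by
  intro L M S F n m' k k2 y u v u2 v2 C2 e hn hy hC2 hvC huv hu2 hv2 hu2v2 hd1 hd2 he
  have huv0 := huv
  have hu2v20 := hu2v2
  obtain ⟨⟨hui, hvi, huv'⟩, huX, hvX, hTE⟩ := huv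
  obtain ⟨⟨hu2i, hv2i, hu2v2'⟩, hu2X, hv2X, hTE2⟩ := hu2v2
  have hei : Function.Injective e := by
    intro i j hij
    apply hvi
    rw [he, he, hij]
  -- `C` is disjoint from `C2`
  have hCC2 : ∀ x ∈ Bl S F m' univ y, x ∉ C2 := by
    intro x hx hx2
    rw [← hu2] at hx
    obtain ⟨p, rfl⟩ := hx
    apply (hu2X p).2
    refine ⟨hx2, ?_⟩
    rintro ⟨q, hq⟩
    exact hu2v2' p q hq.symm
  refine ⟨⟨hui, fun i j hij => hei (hv2i hij), ?_⟩, ?_, ?_, ?_⟩
  · intro p q h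
    exact disjoint_left.mp hd1 ⟨p, rfl⟩ (h ▸ hv2 ⟨e q, rfl⟩)
  · intro p
    exact ⟨trivial, fun h => disjoint_left.mp hd1 ⟨p, rfl⟩ h.1⟩
  · intro p
    exact ⟨trivial, fun h => h.2 ⟨p, rfl⟩⟩
  · intro q hq hqn
    have hqf : q.Finite := finite_of_encard_le_coe hqn
    obtain ⟨τ, hτ, hτ2, hτ3, hτ4⟩ := (hUTL L M S F m' univ).2.1 y
      (range u ∪ C2 ∪ Prod.fst '' q) hy (((finite_range u).union hC2).union (hqf.image _))
    have hτn : Ph S F n univ τ := (hGRP L M S F m' univ).2.2.2.1 n τ hn hτ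
    -- `τ` fixes the elements outside of `C` and `τ '' C`
    have hfix : ∀ x, x ∉ Bl S F m' univ y → x ∉ τ '' Bl S F m' univ y → τ x = x := by
      intro x hx hx'
      by_contra h
      rcases hτ3 x h with h1 | h1
      · exact hx h1
      · exact hx' ⟨τ x, h1, hτ2 x⟩
    have hCs : ∀ x ∈ τ '' Bl S F m' univ y, x ∉ range u ∧ x ∉ C2 ∧ x ∉ Prod.fst '' q ∧
        x ∉ Bl S F m' univ y := by
      intro x hx
      have h1 := disjoint_left.mp hτ4 hx
      exact ⟨fun h => h1 (Or.inl (Or.inl (Or.inl h))), fun h => h1 (Or.inl (Or.inl (Or.inr h))),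
        fun h => h1 (Or.inl (Or.inr h)), fun h => h1 (Or.inr h)⟩
    have hu : (fun i => τ (u i)) = u := by
      funext i
      exact hfix _ (fun h => disjoint_left.mp hd2 ⟨i, rfl⟩ h) fun h => (hCs _ h).1 ⟨i, rfl⟩
    have hC2f : ∀ x ∈ C2, τ x = x := fun x hx =>
      hfix x (fun h => hCC2 x h hx) fun h => (hCs x h).2.1 hx
    have hv : (fun i => τ (v2 i)) = v2 := by
      funext i
      exact hC2f _ (hv2 ⟨i, rfl⟩)
    have hW2 : τ '' (C2 \ range v2) = C2 \ range v2 := by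
      have : EqOn τ id (C2 \ range v2) := fun x hx => hC2f x hx.1
      rw [this.image_eq, image_id]
    have h1 := (hUTL L M S F n univ).1 k u v (Bl S F m' univ y \ range v) τ hτn huv0
    have h2 := (hUTL L M S F n univ).1 k2 u2 v2 (C2 \ range v2) τ hτn hu2v20
    rw [hu] at h1
    rw [hv, hW2] at h2
    obtain ⟨-, -, -, hT1⟩ := h1
    obtain ⟨-, -, -, hT2⟩ := h2
    have hτC : ∀ x, x ∉ τ '' Bl S F m' univ y →
        x ∈ (univ \ τ '' (Bl S F m' univ y \ range v) : Set M) := by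
      intro x hx
      exact ⟨trivial, fun h => hx (image_mono sdiff_subset h)⟩
    have hτu2 : range (fun i => τ (u2 i)) = τ '' Bl S F m' univ y := by
      rw [← hu2, ← range_comp]
      rfl
    have hτv : ∀ i, τ (v i) ∈ τ '' Bl S F m' univ y := fun i => ⟨v i, hvC ⟨i, rfl⟩, rfl⟩
    -- the composition
    have h3 : TE S F n q := by
      refine hT1.comp (hT2.comp hT1 (r := {a | ∃ c,
        (a.1, c) ∈ SW (univ \ (C2 \ range v2)) (fun i => τ (u2 i)) v2 ∧
        (c, a.2) ∈ SW (univ \ τ '' (Bl S F m' univ y \ range v)) u (fun i => τ (v i))})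
        fun a ha => ha) ?_
      intro a ha
      have haC : a.1 ∉ τ '' Bl S F m' univ y := fun h => (hCs _ h).2.2.1 ⟨a, ha, rfl⟩
      rcases hq ha with (⟨h4, h5, h6, h7⟩ | ⟨i, rfl⟩) | ⟨i, rfl⟩
      · -- fixed elements
        have h8 : a.1 ∉ range fun i => τ (v i) := by
          rintro ⟨i, hi⟩
          exact haC (hi ▸ hτv i)
        have h9 : (a.1, a.1) ∈ SW (univ \ τ '' (Bl S F m' univ y \ range v)) u
            (fun i => τ (v i)) := EXC_fix (hτC _ haC) h6 h8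
        have h10 : a.1 ∉ C2 := fun h => h5.2 ⟨h, h7⟩
        refine ⟨a.1, h9, a.1, EXC_fix ⟨trivial, fun h => h10 h.1⟩ ?_ ?_, ?_⟩
        · rw [hτu2]
          exact haC
        · exact fun h => h10 (hv2 h)
        · rw [← h4]
          exact h9
      · -- `u i ↦ v2 (e i)`
        have h8 : v2 (e i) ∈ C2 := hv2 ⟨e i, rfl⟩
        have h9 : v2 (e i) ∉ τ '' Bl S F m' univ y := fun h => (hCs _ h).2.1 h8
        refine ⟨τ (v i), EXC_fst i, v2 (e i), ?_, EXC_fix (hτC _ h9) ?_ ?_⟩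
        · show (τ (v i), v2 (e i)) ∈ _
          rw [he]
          exact EXC_fst (w := fun i => τ (u2 i)) (w' := v2) (e i)
        · exact fun h => disjoint_left.mp hd1 h h8
        · rintro ⟨j, hj⟩
          exact h9 (hj ▸ hτv j)
      · -- `v2 (e i) ↦ u i`
        have h8 : v2 (e i) ∈ C2 := hv2 ⟨e i, rfl⟩
        have h9 : v2 (e i) ∉ τ '' Bl S F m' univ y := fun h => (hCs _ h).2.1 h8
        refine ⟨v2 (e i), EXC_fix (hτC _ h9) ?_ ?_, τ (v i), ?_, EXC_snd i⟩
        · exact fun h => disjoint_left.mp hd1 h h8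
        · rintro ⟨j, hj⟩
          have h10 : τ (v j) = v2 (e i) := hj
          exact h9 (h10 ▸ hτv j)
        · show (v2 (e i), τ (v i)) ∈ _
          rw [he]
          exact EXC_snd (w := fun i => τ (u2 i)) (w' := v2) (e i)
    exact h3.atEq hqn

end HEI
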