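import Pool.Agent.HEI.StA

/-!
# HEI [GRP]: permutations (helper9)
-/

set_option autoImplicit false
set_option linter.unusedVariables false

namespace HEI

open Set Pool.Agent.Helper5.DU Pool.Agent.Helper6.Str Pool.Agent.Helper79.VC
  Pool.Agent.Helper97.LO Pool.Agent.Helper97.VC HER HERN

section

variable {M β : Type}

/-- the exchange of two disjoint tuples -/
theorem GRP_swap (w w' : β → M) (h : Dj w w') : ∃ σ : Equiv.Perm M, Xc w w' σ := by
  classical
  obtain ⟨hi, hi', hd⟩ := h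
  obtain ⟨f, hf⟩ : ∃ f : M → M, f = fun x => if h : ∃ p, w p = x then w' h.choose
    else if h : ∃ p, w' p = x then w h.choose else x := ⟨_, rfl⟩
  have h1 : ∀ p, f (w p) = w' p := by
    intro p
    have h2 : ∃ q, w q = w p := ⟨p, rfl⟩
    rw [hf]
    simp only [dif_pos h2]
    exact congrArg w' (hi h2.choose_spec)
  have h3 : ∀ p, f (w' p) = w p := by
    intro p
    have h2 : ∃ q, w' q = w' p := ⟨p, rfl⟩
    have h4 : ¬ ∃ q, w q = w' p := by
      rintro ⟨q, hq⟩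
      exact hd q p hq
    rw [hf]
    simp only [dif_neg h4, dif_pos h2]
    exact congrArg w (hi' h2.choose_spec)
  have h5 : ∀ x, x ∉ range w → x ∉ range w' → f x = x := by
    intro x hx hx'
    have h6 : ¬ ∃ p, w p = x := hx
    have h7 : ¬ ∃ p, w' p = x := hx'
    rw [hf]
    simp only [dif_neg h6, dif_neg h7]
  have h8 : Function.Involutive f := by
    intro x
    by_cases hx : x ∈ range w
    · obtain ⟨p, rfl⟩ := hx
      rw [h1, h3]
    · by_cases hx' : x ∈ range w'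
      · obtain ⟨p, rfl⟩ := hx'
        rw [h3, h1]
      · rw [h5 x hx hx', h5 x hx hx']
  exact ⟨h8.toPerm f, h1, h3, h5⟩

theorem GRP_inv (σ : Equiv.Perm M) (x : M) : σ (σ⁻¹ x) = x :=
  σ.apply_symm_apply x

/-- the pairs of an exchange -/
theorem GRP_pairs {X : Set M} {w w' : β → M} {σ : Equiv.Perm M} (hσ : Xc w w' σ)
    (hw : ∀ p, w p ∈ X) (hw' : ∀ p, w' p ∈ X) :
    {a : M × M | a.1 ∈ X ∧ a.2 = σ a.1} = SW X w w' := by
  obtain ⟨h1, h2, h3⟩ := hσ
  ext ⟨x, y⟩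
  constructor
  · rintro ⟨hx, hy⟩
    simp only at hx hy
    subst hy
    by_cases h5 : x ∈ range w
    · obtain ⟨p, rfl⟩ := h5
      rw [h1]
      exact Or.inl (Or.inr ⟨p, rfl⟩)
    · by_cases h6 : x ∈ range w'
      · obtain ⟨p, rfl⟩ := h6
        rw [h2]
        exact Or.inr ⟨p, rfl⟩
      · rw [h3 x h5 h6]
        exact Or.inl (Or.inl ⟨rfl, hx, h5, h6⟩)
  · rintro ((⟨h5, h6, h7, h8⟩ | ⟨p, hp⟩) | ⟨p, hp⟩)
    · simp only at h5 h6 h7 h8
      subst h5
      exact ⟨h6, (h3 x h7 h8).symm⟩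
    · simp only [Prod.mk.injEq] at hp
      obtain ⟨rfl, rfl⟩ := hp
      exact ⟨hw p, (h1 p).symm⟩
    · simp only [Prod.mk.injEq] at hp
      obtain ⟨rfl, rfl⟩ := hp
      exact ⟨hw' p, (h2 p).symm⟩

/-- the support of an exchange -/
theorem GRP_supp {w w' : β → M} {σ : Equiv.Perm M} (hσ : Xc w w' σ) {x : M} (hx : σ x ≠ x) :
    x ∈ range w ∪ range w' := by
  by_contra h
  rw [mem_union, not_or] at h
  exact hx (hσ.2.2 x h.1 h.2)

variable {L : FirstOrder.Language.{0, 0}} {S : L.Structure M} {F X : Set M} {n : ℕ}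

theorem GRP_mem {σ : Equiv.Perm M} (h : Ph S F n X σ) {x : M} (hx : x ∈ X) : σ x ∈ X := by
  by_cases h1 : σ x = x
  · rw [h1]
    exact hx
  · exact h.2.1 (σ x) fun h2 => h1 (σ.injective h2)

theorem GRP_mem_iff {σ : Equiv.Perm M} (h : Ph S F n X σ) (x : M) : σ x ∈ X ↔ x ∈ X := by
  refine ⟨fun hx => ?_, GRP_mem h⟩
  by_cases h1 : σ x = x
  · rwa [h1] at hx
  · exact h.2.1 x h1

end

theorem thm_GRP : St_GRP := by
  intro L M S F n X
  refine ⟨⟨?_, fun x hx => absurd rfl hx, te_diag S F n fun a ha => ha.2.symm⟩, ?_, ?_, ?_, ?_,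
    ?_, ?_⟩
  · have : {x : M | (1 : Equiv.Perm M) x ≠ x} = ∅ := by
      ext x
      simp
    rw [this]
    exact finite_empty
  · intro σ τ hσ hτ
    refine ⟨(hσ.1.union hτ.1).subset fun x hx => ?_, fun x hx => ?_, hτ.2.2.comp hσ.2.2 ?_⟩
    · by_cases h1 : τ x = x
      · left
        have h2 : σ (τ x) ≠ x := hx
        rw [h1] at h2
        exact h2
      · exact Or.inr h1
    · by_cases h1 : τ x = x
      · have h2 : σ (τ x) ≠ x := hx
        rw [h1] at h2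
        exact hσ.2.1 x h2
      · exact hτ.2.1 x h1
    · rintro a ⟨ha, ha'⟩
      exact ⟨τ a.1, ⟨ha, rfl⟩, GRP_mem hτ ha, ha'⟩
  · intro σ hσ
    have h1 : ∀ x, σ⁻¹ x ≠ x → σ x ≠ x := by
      intro x hx h2
      apply hx
      have h3 : σ⁻¹ (σ x) = x := σ.symm_apply_apply x
      rwa [h2] at h3
    refine ⟨hσ.1.subset fun x hx => h1 x hx, fun x hx => hσ.2.1 x (h1 x hx), hσ.2.2.symm' ?_⟩
    rintro a ⟨ha, ha'⟩
    refine ⟨?_, ?_⟩
    · show a.2 ∈ X
      rw [← GRP_mem_iff hσ, ha', GRP_inv]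
      exact ha
    · show a.1 = σ a.2
      rw [ha', GRP_inv]
  · intro k σ hk hσ
    exact ⟨hσ.1, hσ.2.1, hσ.2.2.le hk⟩
  · intro Y σ hY hs hσ
    exact ⟨hσ.1, hs, hσ.2.2.anti fun a ha => ⟨hY ha.1, ha.2⟩⟩
  · intro β w w' hD
    exact GRP_swap w w' hD
  · intro β _ w w' σ hD hσ hw hw'
    unfold Ph
    rw [GRP_pairs hσ hw hw']
    refine ⟨fun h => h.2.2, fun h => ⟨?_, fun x hx => ?_, h⟩⟩
    · exact ((finite_range w).union (finite_range w')).subset fun x hx => GRP_supp hσ hx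
    · rcases GRP_supp hσ hx with ⟨p, rfl⟩ | ⟨p, rfl⟩
      · exact hw p
      · exact hw' p

end HEI
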