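import Pool.Agent.HEI.StA

/-!
# HEI [GRW]: how the requirements `PD.rd` can be satisfied (helper58)
-/

set_option autoImplicit false
set_option linter.unusedVariables false

namespace HEI

open Set Pool.Agent.Helper5.DU Pool.Agent.Helper6.Str Pool.Agent.Helper79.VC
  Pool.Agent.Helper97.LO Pool.Agent.Helper97.VC HER HERN

section GRW

variable {L : FirstOrder.Language.{0, 0}} {M : Type} {S : L.Structure M} {F A : Set M}

theorem GRW_SW {β : Type} {X Y : Set M} (h : Y ⊆ X) (w w' : β → M) : SW Y w w' ⊆ SW X w w' := by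
  rintro a ((⟨h1, h2, h3⟩ | h1) | h1)
  · exact Or.inl (Or.inl ⟨h1, h h2, h3⟩)
  · exact Or.inl (Or.inr h1)
  · exact Or.inr h1

/-- disjoint `∞`-blocks -/
theorem GRW_disj (h3 : ∀ x ∉ A, ∀ y ∈ Bi S F univ x, y ∉ A ∧ Bi S F univ y = Bi S F univ x)
    {x y : M} (hx : x ∉ A) (hy : y ∉ A) (h : Bi S F univ y ≠ Bi S F univ x) :
    Disjoint (Bi S F univ x) (Bi S F univ y) := by
  rw [Set.disjoint_left]
  intro z hz hz'
  exact h ((h3 y hy z hz').2.symm.trans (h3 x hx z hz).2)

/-- larger sets -/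
theorem GRW_mono {n : ℕ} {x : M} {P P' : Set M} (h : Rx S F n x P) (hP : P ⊆ P')
    (hd : Disjoint (Bl S F n univ x) P') : Rx S F n x P' := by
  obtain ⟨k, u, v, hu, hv, h1, h2, h3, h4⟩ := h
  refine ⟨k, u, v, hu, hv.trans hP, h1, fun p => ⟨mem_univ _, fun h5 => ?_⟩,
    fun p => ⟨mem_univ _, fun h5 => h5.2 (mem_range_self p)⟩, h4.anti (GRW_SW ?_ _ _)⟩
  · exact Set.disjoint_left.1 hd (hu ▸ mem_range_self p) h5.1
  · exact sdiff_subset_sdiff_right (sdiff_subset_sdiff_left hP)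

/-- states -/
structure GRW_S (S : L.Structure M) (F A : Set M) (n : ℕ) (x y : M) (l : ℕ) : Prop where
  nA : y ∉ A
  le : n ≤ l
  ne : Bi S F univ y ≠ Bi S F univ x
  rx : Rx S F n x (Bl S F l univ y)

end GRW

theorem thm_GRW (hGRP : St_GRP) (hBLK : St_BLK) (hCNJ : St_CNJ) (hUTL : St_UTL)
    (hLVF : St_LVF) (hEXC : St_EXC) : St_GRW := by
  intro L M S F m A n x hLv hx
  by_cases hRa : Ra S F A n x
  · exact Or.inl hRa
  by_cases hW : ∃ y, Wm S F A y ∧ Rx S F n x (Bi S F univ y)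
  · exact Or.inr (Or.inl hW)
  refine Or.inr (Or.inr ?_)
  have f1 : ∀ x ∉ A, ∀ n, Gx S F n univ x := fun x hx => (hLVF L M S F m A hLv x hx).1
  have f3 : ∀ x ∉ A, ∀ y ∈ Bi S F univ x, y ∉ A ∧ Bi S F univ y = Bi S F univ x :=
    fun x hx => (hLVF L M S F m A hLv x hx).2.2.1
  have f4 : ∀ x ∉ A, ∀ n,
      {B | ∃ y, Cj S F n univ x y ∧ y ∉ A ∧ B = Bi S F univ y}.Infinite :=
    fun x hx => (hLVF L M S F m A hLv x hx).2.2.2.1
  have f7 : ∀ x ∉ A, (Bi S F univ x).Finite → ∃ l, Bi S F univ x = Bl S F l univ x :=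
    fun x hx => (hLVF L M S F m A hLv x hx).2.2.2.2.2.2.2
  have bfin : ∀ n x, Gx S F n univ x → (Bl S F n univ x).Finite := fun n x h =>
    ((hBLK L M S F n univ).1 _ ((hBLK L M S F n univ).2.1 x h).1).1
  have bself : ∀ n x, Gx S F n univ x → x ∈ Bl S F n univ x := fun n x h =>
    ((hBLK L M S F n univ).2.1 x h).2
  have bmono : ∀ n l x, x ∉ A → n ≤ l → Bl S F n univ x ⊆ Bl S F l univ x := fun n l x h hl =>
    ((hBLK L M S F n univ).2.2.2.2.2.2 l x hl (f1 x h l)).2
  have bsub : ∀ n x, Bl S F n univ x ⊆ Bi S F univ x := fun n x =>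
    subset_iUnion (fun n => Bl S F n univ x) n
  have bA : ∀ n z, z ∈ A → Gx S F n univ z → Bl S F n univ z ⊆ A := fun n z hz hg t ht =>
    hLv.cl.bl n z t hz hg ht
  have bimg : ∀ n z (σ : Equiv.Perm M), Ph S F n univ σ → Gx S F n univ z →
      Gx S F n univ (σ z) ∧ Bl S F n univ (σ z) = σ '' Bl S F n univ z := fun n z σ h hg =>
    (hBLK L M S F n univ).2.2.2.2.1 σ z h hg
  have cjs : ∀ n a b, Cj S F n univ a b → Cj S F n univ b a := by
    rintro n a b ⟨σ, h1, h2⟩
    exact ⟨σ⁻¹, (hGRP L M S F n univ).2.2.1 σ h1, by rw [← h2]; simp⟩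
  have cjt : ∀ n a b c, Cj S F n univ a b → Cj S F n univ b c → Cj S F n univ a c := by
    rintro n a b c ⟨σ, h1, h2⟩ ⟨τ, h3, h4⟩
    exact ⟨τ * σ, (hGRP L M S F n univ).2.1 τ σ h3 h1, by rw [Equiv.Perm.mul_apply, h2, h4]⟩
  -- the first state
  have init : ∃ y l, GRW_S S F A n x y l := by
    obtain ⟨B, ⟨y, hy, hyA, rfl⟩, hB⟩ :=
      ((f4 x hx n).sdiff (finite_singleton (Bi S F univ x))).nonempty
    refine ⟨y, n, hyA, le_rfl, hB, ?_⟩
    obtain ⟨σ, h1, h2⟩ := hy
    have h3 : σ x ∉ Bl S F n univ x := by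
      intro h
      refine hB ?_
      have := (f3 x hx (σ x) (bsub n x h)).2
      rwa [h2] at this
    have hf := bfin n x (f1 x hx n)
    obtain ⟨k, w, hw, hwr⟩ : ∃ (k : ℕ) (w : Fin k → M), Function.Injective w ∧
        range w = Bl S F n univ x := by
      obtain ⟨k, w, hw⟩ := hf.fin_param
      exact ⟨k, w, hw⟩
    obtain ⟨h4, h5⟩ := (hCNJ L M S F n univ σ h1).2 x (f1 x hx n) h3 k w hw hwr
    refine ⟨k, w, fun p => σ (w p), hwr, ?_, ?_⟩
    · rw [h5, h2]
    · rw [h5, h2, sdiff_self, sdiff_empty]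
      exact h4
  -- larger levels
  have up : ∀ y l l', GRW_S S F A n x y l → l ≤ l' → GRW_S S F A n x y l' := by
    intro y l l' h hl
    refine ⟨h.nA, h.le.trans hl, h.ne, GRW_mono h.rx (bmono _ _ _ h.nA hl) ?_⟩
    exact (GRW_disj f3 hx h.nA h.ne).mono (bsub n x) (bsub l' y)
  -- normal form
  have norm : ∀ y l (K : ℕ), GRW_S S F A n x y l →
      (∃ l', GRW_S S F A n x y l' ∧ (K : ℕ∞) < (Bl S F l' univ y).encard ∧
        Bl S F l' univ y ≠ Bi S F univ y) ∨
      ∃ l', l ≤ l' ∧ GRW_S S F A n x y l' ∧ Bl S F l' univ y = Bi S F univ y ∧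
        Xt S F univ (Bi S F univ y) := by
    intro y l K h
    by_cases hfin : (Bi S F univ y).Finite
    · right
      obtain ⟨l0, hl0⟩ := f7 y h.nA hfin
      have h1 : Bl S F (max l l0) univ y = Bi S F univ y := by
        refine Subset.antisymm (bsub _ _) ?_
        rw [hl0]
        exact bmono _ _ _ h.nA (le_max_right _ _)
      have h2 := up y l (max l l0) h (le_max_left _ _)
      refine ⟨max l l0, le_max_left _ _, h2, h1, ?_⟩
      by_contra hx'
      refine hW ⟨y, ⟨h.nA, hfin, hx'⟩, ?_⟩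
      rw [← h1]
      exact h2.rx
    · left
      obtain ⟨T, hT, hTf, hTc⟩ := Set.Infinite.exists_subset_ncard_eq hfin (K + 1)
      have h1 : ∃ l', l ≤ l' ∧ T ⊆ Bl S F l' univ y := by
        choose! g hg using fun t (ht : t ∈ T) => mem_iUnion.1 (hT ht)
        obtain ⟨b, hb⟩ := (hTf.image g).bddAbove
        refine ⟨max l b, le_max_left _ _, fun t ht => ?_⟩
        exact bmono _ _ _ h.nA ((hb (mem_image_of_mem g ht)).trans (le_max_right _ _)) (hg t ht)
      obtain ⟨l', hl', hT'⟩ := h1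
      refine ⟨l', up y l l' h hl', ?_, ?_⟩
      · refine lt_of_lt_of_le ?_ (encard_le_encard hT')
        rw [← hTf.cast_ncard_eq, hTc]
        exact_mod_cast Nat.lt_succ_self K
      · intro h2
        exact hfin (h2 ▸ bfin l' y (f1 y h.nA l'))
  -- the step
  have step : ∀ y l, GRW_S S F A n x y l → Bl S F l univ y = Bi S F univ y →
      Xt S F univ (Bi S F univ y) → ∃ y' l', GRW_S S F A n x y' l' ∧
        (Bl S F l univ y).encard < (Bl S F l' univ y').encard := by
    intro y l h hl hX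
    obtain ⟨m1, hm1, m', y2, k2, u2, v2, hmm, -, hy2, hdis, hu2, hv2, hv2n, hSw⟩ := hX l
    obtain ⟨k, u, v, hu, hv, hSw1⟩ := h.rx
    have hnm1 : n ≤ m1 := h.le.trans hm1
    have hxy := GRW_disj f3 hx h.nA h.ne
    -- transfer
    have TR : ∀ z, Cj S F m' univ y2 z → Disjoint (Bi S F univ y) (Bl S F m' univ z) →
        Disjoint (Bl S F n univ x) (Bl S F m' univ z) → Rx S F n x (Bl S F m' univ z) ∧
        (Bl S F m' univ z).encard = (Bl S F m' univ y2).encard ∧ Gx S F m' univ z := by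
      rintro z ⟨σ, hσ, rfl⟩ hd1 hd2
      obtain ⟨hg, hb⟩ := bimg m' y2 σ hσ hy2
      obtain ⟨τ, hτ, hτi, hτf⟩ : ∃ τ : Equiv.Perm M, Ph S F m' univ τ ∧
          τ '' Bl S F m' univ y2 = Bl S F m' univ (σ y2) ∧ ∀ t ∈ Bi S F univ y, τ t = t := by
        by_cases hin : σ y2 ∈ Bl S F m' univ y2
        · refine ⟨1, (hGRP L M S F m' univ).1, ?_, fun t _ => rfl⟩
          rw [((hBLK L M S F m' univ).2.2.1 y2 (σ y2) hy2 hin).2]
          simp
        · obtain ⟨τ, h1, -, h2, h3⟩ := (hUTL L M S F m' univ).2.2.1 y2 σ hy2 hσ hin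
          refine ⟨τ, h1, ?_, fun t ht => ?_⟩
          · rw [hb]
            exact image_congr h2
          · by_contra h4
            rcases h3 t h4 with h5 | h5
            · exact Set.disjoint_left.1 hdis ht h5
            · exact Set.disjoint_left.1 hd1 ht h5
      refine ⟨?_, ?_, hg⟩
      · have h1 := (hUTL L M S F m1 univ).1 k2 u2 v2 (Bl S F m' univ y2 \ range v2) τ
          ((hGRP L M S F m' univ).2.2.2.1 m1 τ hmm hτ) hSw
        have h2 : τ '' (Bl S F m' univ y2 \ range v2) =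
            Bl S F m' univ (σ y2) \ range (fun i => τ (v2 i)) := by
          rw [image_sdiff τ.injective, hτi]
          congr 1
          rw [← range_comp]
          rfl
        have h3 : (fun i => τ (u2 i)) = u2 := by
          funext i
          exact hτf _ (hu2 ▸ mem_range_self i)
        rw [h2, h3] at h1
        have h4 : ∀ i, ∃ j, u2 j = v i := by
          intro i
          have : v i ∈ range u2 := by
            rw [hu2, ← hl]
            exact hv (mem_range_self i)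
          exact this
        choose e he using h4
        have h5 : Sw S F n (univ \ (Bl S F m' univ (σ y2) \ range (fun i => τ (v2 i)))) u2
            (fun i => τ (v2 i)) := ⟨h1.1, h1.2.1, h1.2.2.1, h1.2.2.2.le hnm1⟩
        have h6 : range (fun i => τ (v2 i)) ⊆ Bl S F m' univ (σ y2) := by
          rw [← hτi]
          rintro _ ⟨i, rfl⟩
          exact mem_image_of_mem _ (hv2 (mem_range_self i))
        have h7 := hEXC L M S F n l k k2 y u v u2 (fun i => τ (v2 i)) (Bl S F m' univ (σ y2)) e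
          h.le (f1 y h.nA l) (bfin _ _ hg) hv hSw1 (hu2.trans hl.symm) h6 h5 (hu ▸ hd2)
          (by
            rw [hu]
            exact hxy.mono (bsub n x) (bsub l y)) fun i => (he i).symm
        refine ⟨k, u, fun i => τ (v2 (e i)), hu, ?_, h7⟩
        rintro _ ⟨i, rfl⟩
        exact h6 (mem_range_self (e i))
      · rw [← hτi]
        exact τ.injective.encard_image _
    have hsz : (Bl S F l univ y).encard < (Bl S F m' univ y2).encard := by
      have h1 : (range v2).encard < (Bl S F m' univ y2).encard :=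
        (finite_range v2).encard_lt_encard (hv2.ssubset_of_ne hv2n)
      have h2 : (range v2).encard = (range u2).encard := by
        rw [← image_univ, ← image_univ, hSw.1.1.encard_image, hSw.1.2.1.encard_image]
      rw [hl, ← hu2, ← h2]
      exact h1
    by_cases hinf : {B | ∃ z ∈ A, Cj S F m' univ y2 z ∧ B = Bl S F m' univ z}.Infinite
    · exfalso
      obtain ⟨B, z, hzA, hz, rfl⟩ := hinf.nonempty
      have hgz : Gx S F m' univ z := by
        obtain ⟨σ, h1, h2⟩ := hz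
        rw [← h2]
        exact (bimg m' y2 σ h1 hy2).1
      have hA : ∀ t, t ∉ A → Disjoint (Bi S F univ t) (Bl S F m' univ z) := by
        intro t ht
        rw [Set.disjoint_left]
        intro a ha ha'
        exact (f3 t ht a ha).1 (bA m' z hzA hgz ha')
      obtain ⟨h1, -, -⟩ := TR z hz (hA y h.nA) ((hA x hx).mono_left (bsub n x))
      refine hRa ⟨m', z, hnm1.trans hmm, hzA, hgz, h1, hinf.mono ?_⟩
      rintro B ⟨z', hz', hc, rfl⟩
      exact ⟨z', hz', cjt _ _ _ _ (cjs _ _ _ hz) hc, rfl⟩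
    · rw [not_infinite] at hinf
      have hz0 : ∃ z0, z0 ∉ A ∧ Cj S F m' univ y2 z0 := by
        have hgB : ∀ B ∈ {B | ∃ z ∈ A, Cj S F m' univ y2 z ∧ B = Bl S F m' univ z},
            B.Finite := by
          rintro B ⟨z, -, ⟨σ, h1, h2⟩, rfl⟩
          refine bfin _ _ ?_
          rw [← h2]
          exact (bimg m' y2 σ h1 hy2).1
        obtain ⟨τ, h1, -, -, h2⟩ := (hUTL L M S F m' univ).2.1 y2
          (⋃₀ {B | ∃ z ∈ A, Cj S F m' univ y2 z ∧ B = Bl S F m' univ z}) hy2
          (hinf.sUnion hgB)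
        refine ⟨τ y2, fun h3 => ?_, τ, h1, rfl⟩
        have h4 := bimg m' y2 τ h1 hy2
        refine Set.disjoint_left.1 h2 (mem_image_of_mem τ (bself m' y2 hy2)) (Or.inl ?_)
        exact ⟨_, ⟨τ y2, h3, ⟨τ, h1, rfl⟩, rfl⟩, bself m' _ h4.1⟩
      obtain ⟨z0, hz0A, hz0⟩ := hz0
      obtain ⟨B, ⟨z, hz, hzA, rfl⟩, hB⟩ := ((f4 z0 hz0A m').sdiff
        ((finite_singleton (Bi S F univ y)).insert (Bi S F univ x))).nonempty
      rw [mem_insert_iff, mem_singleton_iff, not_or] at hB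
      have hd1 : Disjoint (Bi S F univ y) (Bl S F m' univ z) :=
        (GRW_disj f3 h.nA hzA hB.2).mono_right (bsub m' z)
      have hd2 : Disjoint (Bl S F n univ x) (Bl S F m' univ z) :=
        (GRW_disj f3 hx hzA hB.1).mono (bsub n x) (bsub m' z)
      obtain ⟨h1, h2, h3⟩ := TR z (cjt _ _ _ _ hz0 hz) hd1 hd2
      refine ⟨z, m', ⟨hzA, hnm1.trans hmm, hB.1, h1⟩, ?_⟩
      rw [h2]
      exact hsz
  -- large states
  have big : ∀ K : ℕ, ∃ y l, GRW_S S F A n x y l ∧ (K : ℕ∞) < (Bl S F l univ y).encard := by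
    intro K
    induction K with
    | zero =>
      obtain ⟨y, l, h⟩ := init
      refine ⟨y, l, h, ?_⟩
      rw [Nat.cast_zero, encard_pos]
      exact ⟨y, bself l y (f1 y h.nA l)⟩
    | succ K ih =>
      obtain ⟨y, l, h, hK⟩ := ih
      rcases norm y l (K + 1) h with ⟨l', h1, h2, -⟩ | ⟨l', h0, h1, h2, h3⟩
      · exact ⟨y, l', h1, h2⟩
      · obtain ⟨y', l'', h4, h5⟩ := step y l' h1 h2 h3
        refine ⟨y', l'', h4, ?_⟩
        have h6 : (K : ℕ∞) < (Bl S F l' univ y).encard :=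
          hK.trans_le (encard_le_encard (bmono _ _ _ h.nA h0))
        have h7 : ((K + 1 : ℕ) : ℕ∞) ≤ (Bl S F l' univ y).encard := by
          rw [Nat.cast_add, Nat.cast_one]
          exact Order.add_one_le_of_lt h6
        exact h7.trans_lt h5
  intro K
  obtain ⟨y, l, h, hK⟩ := big K
  rcases norm y l K h with ⟨l', h1, h2, h3⟩ | ⟨l', h0, h1, h2, h3⟩
  · exact ⟨y, l', h.nA, h1.le, h1.rx, h1.ne, h2, Or.inl h3⟩
  · refine ⟨y, l', h.nA, h1.le, h1.rx, h1.ne, ?_, Or.inr ⟨h2, h3⟩⟩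
    exact hK.trans_le (encard_le_encard (bmono _ _ _ h.nA h0))

end HEI
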