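import Pool.Agent.HEI.StA

/-!
# HEI [INF]: arbitrarily long rows (helper49)
-/

set_option autoImplicit false
set_option linter.unusedVariables false

namespace HEI

open Set Pool.Agent.Helper5.DU Pool.Agent.Helper6.Str Pool.Agent.Helper79.VC
  Pool.Agent.Helper97.LO Pool.Agent.Helper97.VC HER HERN

section

variable {L : FirstOrder.Language.{0, 0}} {M β : Type} {S : L.Structure M} {F X : Set M} {n : ℕ}

theorem INF_SW_comm (X : Set M) (w w' : β → M) : SW X w w' = SW X w' w := by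
  unfold SW
  ext a
  constructor
  · rintro ((⟨h1, h2, h3, h4⟩ | h) | h)
    · exact Or.inl (Or.inl ⟨h1, h2, h4, h3⟩)
    · exact Or.inr h
    · exact Or.inl (Or.inr h)
  · rintro ((⟨h1, h2, h3, h4⟩ | h) | h)
    · exact Or.inl (Or.inl ⟨h1, h2, h4, h3⟩)
    · exact Or.inr h
    · exact Or.inl (Or.inr h)

/-- two disjoint tuples which can be exchanged with `w` can be exchanged -/
theorem INF_tri (hG : St_GRP) [Finite β] {v v' w : β → M} (hd : Dj v v')
    (h : Sw S F n X v w) (h' : Sw S F n X v' w) : TE S F n (SW X v v') := by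
  obtain ⟨-, hmul, -, -, -, hex, hiff⟩ := hG L M S F n X
  obtain ⟨d1, x1, y1, t1⟩ := h
  obtain ⟨d2, x2, y2, t2⟩ := h'
  obtain ⟨σ, hσ⟩ := hex β v w d1
  obtain ⟨τ, hτ⟩ := hex β v' w d2
  have p1 := (hiff β v w σ d1 hσ x1 y1).2 t1
  have p2 := (hiff β v' w τ d2 hτ x2 y2).2 t2
  have p3 := hmul _ _ (hmul _ _ p1 p2) p1
  obtain ⟨a1, a2, a3⟩ := hσ
  obtain ⟨b1, b2, b3⟩ := hτ
  have c1 : ∀ p, τ (v p) = v p := by
    intro p
    apply b3
    · rintro ⟨q, hq⟩
      exact hd.2.2 p q hq.symm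
    · rintro ⟨q, hq⟩
      exact d1.2.2 p q hq.symm
  have c2 : ∀ p, σ (v' p) = v' p := by
    intro p
    apply a3
    · rintro ⟨q, hq⟩
      exact hd.2.2 q p hq
    · rintro ⟨q, hq⟩
      exact d2.2.2 p q hq.symm
  refine (hiff β v v' (σ * τ * σ) hd ⟨?_, ?_, ?_⟩ x1 x2).1 p3
  · intro p
    show σ (τ (σ (v p))) = v' p
    rw [a1, b2, c2]
  · intro p
    show σ (τ (σ (v' p))) = v p
    rw [c2, b1, a2]
  · intro x hx hx'
    show σ (τ (σ x)) = x
    by_cases hw : x ∈ range w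
    · obtain ⟨q, rfl⟩ := hw
      rw [a2, c1, a1]
    · rw [a3 x hx hw, b3 x hx' hw, a3 x hx hw]

/-- a tuple which can be exchanged with `w` and avoids a finite set -/
theorem INF_av (w : β → M)
    (h : ∀ k : ℕ, ∃ v : Fin (k + 1) → β → M, Ro S F n X v ∧ v 0 = w) (K : Finset M) :
    ∃ u : β → M, Sw S F n X u w ∧ ∀ p, u p ∉ K := by
  by_contra hc
  push Not at hc
  obtain ⟨v, ⟨h1, h2, h3⟩, h4⟩ := h (K.card + 1)
  have h5 : ∀ j : Fin (K.card + 1), Sw S F n X (v j.succ) w := by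
    intro j
    have hne : j.succ ≠ 0 := Fin.succ_ne_zero j
    rw [← h4]
    refine ⟨⟨fun p q hpq => (h2 _ p _ q hpq).2, fun p q hpq => (h2 _ p _ q hpq).2, ?_⟩,
      fun p => h1 _ p, fun p => h1 _ p, h3 _ _ hne⟩
    intro p q hpq
    exact hne (h2 _ p _ q hpq).1
  have h6 : ∀ j : Fin (K.card + 1), ∃ p, v j.succ p ∈ K := fun j => hc _ (h5 j)
  choose g hg using h6
  have h7 : Function.Injective (fun j : Fin (K.card + 1) => (⟨v j.succ (g j), hg j⟩ : K)) := by
    intro i j hij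
    have h8 : v i.succ (g i) = v j.succ (g j) := congrArg Subtype.val hij
    exact Fin.succ_injective _ (h2 _ _ _ _ h8).1
  have h8 := Fintype.card_le_of_injective _ h7
  rw [Fintype.card_fin, Fintype.card_coe] at h8
  omega

/-- the sequence `w, f 0, f 1, ...` -/
def INF_cons (w : β → M) (f : ℕ → β → M) : ℕ → β → M
  | 0 => w
  | k + 1 => f k

end

theorem thm_INF (hG : St_GRP) : St_INF := by
  classical
  intro L M S F n X β _ _ w h
  obtain ⟨f, hf, hr⟩ := exists_seq_of_forall_finset_exists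
    (fun u : β → M => Sw S F n X u w) (fun u u' : β → M => ∀ p q, u p ≠ u' q) (by
      intro s _
      haveI := Fintype.ofFinite β
      obtain ⟨u, hu, hK⟩ := INF_av w h (s.biUnion (fun u => Finset.univ.image u))
      refine ⟨u, hu, fun x hx p q hpq => hK q ?_⟩
      rw [Finset.mem_biUnion]
      exact ⟨x, hx, Finset.mem_image.2 ⟨p, Finset.mem_univ _, hpq⟩⟩)
  have hd : ∀ i j p q, i ≠ j → f i p ≠ f j q := by
    intro i j p q hij
    rcases lt_or_gt_of_ne hij with hlt | hlt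
    · exact hr i j hlt p q
    · exact (hr j i hlt q p).symm
  refine ⟨INF_cons w f, ⟨?_, ?_, ?_⟩, rfl⟩
  · rintro (_ | i) p
    · exact (hf 0).2.2.1 p
    · exact (hf i).2.1 p
  · rintro (_ | i) p (_ | j) q hpq
    · exact ⟨rfl, (hf 0).1.2.1 hpq⟩
    · exact absurd hpq.symm ((hf j).1.2.2 q p)
    · exact absurd hpq ((hf i).1.2.2 p q)
    · have hpq' : f i p = f j q := hpq
      by_cases hij : i = j
      · subst hij
        exact ⟨rfl, (hf i).1.1 hpq'⟩
      · exact absurd hpq' (hd i j p q hij)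
  · rintro (_ | i) (_ | j) hij
    · exact absurd rfl hij
    · show TE S F n (SW X w (f j))
      rw [INF_SW_comm]
      exact (hf j).2.2.2
    · exact (hf i).2.2.2
    · have hij' : i ≠ j := fun hh => hij (by rw [hh])
      exact INF_tri hG ⟨(hf i).1.1, (hf j).1.1, fun p q => hd i j p q hij'⟩ (hf i) (hf j)

end HEI
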