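import Pool.Agent.HEI.StA
import Pool.Agent.HERN.TE

/-!
# HEI [INT]: intersection and difference of good sets
-/

set_option autoImplicit false

namespace HEI

open Set Pool.Agent.Helper5.DU Pool.Agent.Helper6.Str Pool.Agent.Helper79.VC
  Pool.Agent.Helper97.LO Pool.Agent.Helper97.VC HER HERN

variable {L : FirstOrder.Language.{0, 0}} {M : Type}

/-- almost all members of a disjoint family avoid a finite set -/
theorem INT_far {γ : Type} (v : ℕ → γ → M) (hv : ∀ i p j q, v i p = v j q → i = j ∧ p = q)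
    (E : Set M) (hE : E.Finite) : ∃ K, ∀ k, K < k → ∀ p, v k p ∉ E := by
  classical
  have h1 : {k | ∃ p, v k p ∈ E}.Finite := by
    have hch : ∀ k, k ∈ {k | ∃ p, v k p ∈ E} → ∃ p, v k p ∈ E := fun k hk => hk
    by_cases hne : Nonempty γ
    · obtain ⟨p0⟩ := hne
      obtain ⟨f, hf⟩ : ∃ f : ℕ → γ, ∀ k ∈ {k | ∃ p, v k p ∈ E}, v k (f k) ∈ E := by
        refine ⟨fun k => if h : ∃ p, v k p ∈ E then h.choose else p0, fun k hk => ?_⟩
        have hk' : ∃ p, v k p ∈ E := hk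
        simp only [hk', dite_true]
        exact hk'.choose_spec
      refine Set.Finite.of_injOn (f := fun k => v k (f k)) (t := E) (fun k hk => hf k hk) ?_ hE
      intro k _ l _ h
      exact (hv _ _ _ _ h).1
    · refine Set.Finite.subset Set.finite_empty ?_
      rintro k ⟨p, -⟩
      exact absurd ⟨p⟩ hne
  obtain ⟨K, hK⟩ := h1.bddAbove
  refine ⟨K, fun k hk p hp => ?_⟩
  have := hK (show k ∈ {k | ∃ p, v k p ∈ E} from ⟨p, hp⟩)
  omega

/-- the values of the product of two exchanges -/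
theorem INT_cyc {β : Type} (w0 wl : β → M) (B' D : Set M) (t s : Equiv.Perm M)
    (ht : ∀ x, t (t x) = x) (htf : ∀ x, x ∉ B' → x ∉ D → t x = x) (htB : ∀ x ∈ B', t x ∈ D)
    (hs : Xc w0 wl s) (h0 : ∀ p, w0 p ∉ D) (h1 : ∀ p, wl p ∉ B') (h2 : ∀ p, wl p ∉ D) :
    (∀ p, w0 p ∉ B' → s (t (s (t (w0 p)))) = w0 p) ∧
    (∀ p, w0 p ∉ B' → s (t (s (t (wl p)))) = wl p) ∧
    (∀ p, w0 p ∈ B' → s (t (s (t (w0 p)))) = wl p) ∧
    (∀ p, w0 p ∈ B' → s (t (s (t (wl p)))) = t (w0 p)) ∧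
    (∀ p, w0 p ∈ B' → s (t (s (t (t (w0 p))))) = w0 p) ∧
    (∀ x, x ∉ range w0 → x ∉ range wl → x ∉ D → s (t (s (t x))) = x) := by
  obtain ⟨hs1, hs2, hs3⟩ := hs
  have hwl : ∀ p, t (wl p) = wl p := fun p => htf _ (h1 p) (h2 p)
  have hD : ∀ x ∈ D, s x = x := by
    intro x hx
    refine hs3 x ?_ ?_
    · rintro ⟨p, rfl⟩
      exact h0 p hx
    · rintro ⟨p, rfl⟩
      exact h2 p hx
  refine ⟨fun p hp => ?_, fun p hp => ?_, fun p hp => ?_, fun p hp => ?_, fun p hp => ?_,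
    fun x hx1 hx2 hx3 => ?_⟩
  · rw [htf _ hp (h0 p), hs1, hwl, hs2]
  · rw [hwl, hs2, htf _ hp (h0 p), hs1]
  · rw [hD _ (htB _ hp), ht, hs1]
  · rw [hwl, hs2, hD _ (htB _ hp)]
  · rw [ht, hs1, hwl, hs2]
  · by_cases hx : x ∈ B'
    · rw [hD _ (htB _ hx), ht, hs3 x hx1 hx2]
    · rw [htf x hx hx3, hs3 x hx1 hx2, htf x hx hx3, hs3 x hx1 hx2]

/-- exchanges of the `P`-parts -/
theorem INT_P (hG : St_GRP) (S : L.Structure M) (F : Set M) (n : ℕ) (X : Set M) {β β' : Type}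
    [Finite β] [Finite β'] (w : ℕ → β → M) (w' : ℕ → β' → M) (hw : Ro S F n X w)
    (hw' : Ro S F n X w') (k : ℕ) (hk : k ≠ 0) (hkB : ∀ p, w k p ∉ range (w' 0)) :
    TE S F n (SW X (fun p : {p | w 0 p ∈ range (w' 0)} => w 0 p)
      (fun p : {p | w 0 p ∈ range (w' 0)} => w k p)) := by
  obtain ⟨-, hmul, -, -, -, hex, hph⟩ := hG L M S F n X
  obtain ⟨hX, hinj, hrow⟩ := hw
  obtain ⟨hX', hinj', hrow'⟩ := hw'
  intro q hq hqn
  have hqf : q.Finite := by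
    refine Set.encard_lt_top_iff.1 (lt_of_le_of_lt hqn ?_)
    exact ENat.natCast_lt_top n
  obtain ⟨E, hE⟩ : ∃ E, E = Prod.fst '' q ∪ Prod.snd '' q := ⟨_, rfl⟩
  have hEf : E.Finite := by
    rw [hE]
    exact (hqf.image _).union (hqf.image _)
  obtain ⟨K1, hK1⟩ := INT_far w' hinj' (E ∪ (range (w 0) ∪ range (w k)))
    (hEf.union ((Set.finite_range _).union (Set.finite_range _)))
  obtain ⟨j, hj⟩ : ∃ j, j = K1 + 1 := ⟨_, rfl⟩
  have hj0 : j ≠ 0 := by omega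
  have hjE : ∀ p, w' j p ∉ E := fun p h => hK1 j (by omega) p (Or.inl h)
  have hj1 : ∀ p, w' j p ∉ range (w 0) := fun p h => hK1 j (by omega) p (Or.inr (Or.inl h))
  have hjk : ∀ p, w' j p ∉ range (w k) := fun p h => hK1 j (by omega) p (Or.inr (Or.inr h))
  obtain ⟨K2, hK2⟩ := INT_far w hinj (E ∪ (range (w' 0) ∪ range (w' j)))
    (hEf.union ((Set.finite_range _).union (Set.finite_range _)))
  obtain ⟨i, hi⟩ : ∃ i, i = K2 + k + 1 := ⟨_, rfl⟩
  have hi0 : i ≠ 0 := by omega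
  have hik : i ≠ k := by omega
  have hiE : ∀ p, w i p ∉ E := fun p h => hK2 i (by omega) p (Or.inl h)
  have hi1 : ∀ p, w i p ∉ range (w' 0) := fun p h => hK2 i (by omega) p (Or.inr (Or.inl h))
  have hij : ∀ p, w i p ∉ range (w' j) := fun p h => hK2 i (by omega) p (Or.inr (Or.inr h))
  have hDj : ∀ l, l ≠ 0 → Dj (w 0) (w l) := fun l hl =>
    ⟨fun p p' h => (hinj _ _ _ _ h).2, fun p p' h => (hinj _ _ _ _ h).2,
      fun p p' h => hl (hinj _ _ _ _ h).1.symm⟩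
  have hDj' : Dj (w' 0) (w' j) :=
    ⟨fun p p' h => (hinj' _ _ _ _ h).2, fun p p' h => (hinj' _ _ _ _ h).2,
      fun p p' h => hj0 (hinj' _ _ _ _ h).1.symm⟩
  obtain ⟨t, htX⟩ := hex β' (w' 0) (w' j) hDj'
  obtain ⟨s, hsX⟩ := hex β (w 0) (w i) (hDj i hi0)
  obtain ⟨r, hrX⟩ := hex β (w 0) (w k) (hDj k hk)
  have htP : Ph S F n X t := (hph β' _ _ t hDj' htX (fun p => hX' _ p) fun p => hX' _ p).2
    (hrow' 0 j hj0.symm)
  have hsP : Ph S F n X s := (hph β _ _ s (hDj i hi0) hsX (fun p => hX _ p) fun p => hX _ p).2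
    (hrow 0 i hi0.symm)
  have hrP : Ph S F n X r := (hph β _ _ r (hDj k hk) hrX (fun p => hX _ p) fun p => hX _ p).2
    (hrow 0 k hk.symm)
  have hσ : Ph S F n X (((s * t) * (s * t)) * ((r * t) * (r * t))) :=
    hmul _ _ (hmul _ _ (hmul _ _ hsP htP) (hmul _ _ hsP htP))
      (hmul _ _ (hmul _ _ hrP htP) (hmul _ _ hrP htP))
  have htt : ∀ x, t (t x) = x := by
    intro x
    by_cases h1 : x ∈ range (w' 0)
    · obtain ⟨p, rfl⟩ := h1
      rw [htX.1, htX.2.1]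
    · by_cases h2 : x ∈ range (w' j)
      · obtain ⟨p, rfl⟩ := h2
        rw [htX.2.1, htX.1]
      · rw [htX.2.2 x h1 h2, htX.2.2 x h1 h2]
  have htB : ∀ x ∈ range (w' 0), t x ∈ range (w' j) := by
    rintro _ ⟨p, rfl⟩
    exact ⟨p, (htX.1 p).symm⟩
  have h0D : ∀ p, w 0 p ∉ range (w' j) := by
    rintro p ⟨p', hp'⟩
    exact hj1 p' ⟨p, hp'.symm⟩
  have hkD : ∀ p, w k p ∉ range (w' j) := by
    rintro p ⟨p', hp'⟩
    exact hjk p' ⟨p, hp'.symm⟩
  obtain ⟨a1, a2, a3, a4, a5, a6⟩ := INT_cyc (w 0) (w i) (range (w' 0)) (range (w' j)) t s htt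
    htX.2.2 htB hsX h0D hi1 hij
  obtain ⟨b1, b2, b3, b4, b5, b6⟩ := INT_cyc (w 0) (w k) (range (w' 0)) (range (w' j)) t r htt
    htX.2.2 htB hrX h0D hkB hkD
  have hwk : ∀ p, s (t (s (t (w k p)))) = w k p := by
    intro p
    refine a6 _ ?_ ?_ (hkD p)
    · rintro ⟨p', h⟩
      exact hk (hinj _ _ _ _ h).1.symm
    · rintro ⟨p', h⟩
      exact hik (hinj _ _ _ _ h).1
  refine hσ.2.2 q ?_ hqn
  intro a ha
  have haE1 : a.1 ∈ E := by
    rw [hE]
    exact Or.inl ⟨a, ha, rfl⟩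
  show a.1 ∈ X ∧ a.2 = s (t (s (t (r (t (r (t a.1)))))))
  rcases hq ha with (⟨h1, h2, h3, h4⟩ | ⟨p, rfl⟩) | ⟨p, rfl⟩
  · refine ⟨h2, ?_⟩
    rw [← h1]
    have h5 : a.1 ∉ range (w' j) := by
      rintro ⟨p, h⟩
      apply hjE p
      rw [h]
      exact haE1
    have h6 : a.1 ∉ range (w i) := by
      rintro ⟨p, h⟩
      apply hiE p
      rw [h]
      exact haE1
    by_cases h7 : a.1 ∈ range (w 0)
    · obtain ⟨p, hp⟩ := h7
      have h8 : w 0 p ∉ range (w' 0) := fun h => h3 ⟨⟨p, h⟩, hp⟩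
      rw [← hp, b1 p h8, a1 p h8]
    · by_cases h8 : a.1 ∈ range (w k)
      · obtain ⟨p, hp⟩ := h8
        have h9 : w 0 p ∉ range (w' 0) := fun h => h4 ⟨⟨p, h⟩, hp⟩
        rw [← hp, b2 p h9, hwk p]
      · rw [b6 _ h7 h8 h5, a6 _ h7 h6 h5]
  · refine ⟨hX _ _, ?_⟩
    show w k p = _
    rw [b3 p p.2, hwk]
  · refine ⟨hX _ _, ?_⟩
    show w 0 p = _
    rw [b4 p p.2, a5 p p.2]

/-- rows from the exchanges with the first member -/
theorem INT_row (hG : St_GRP) (S : L.Structure M) (F : Set M) (n : ℕ) (X : Set M) {γ : Type}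
    [Finite γ] (v : ℕ → γ → M) (hX : ∀ i p, v i p ∈ X)
    (hinj : ∀ i p j q, v i p = v j q → i = j ∧ p = q)
    (h : ∀ m, m ≠ 0 → TE S F n (SW X (v 0) (v m))) : Ro S F n X v := by
  obtain ⟨-, hmul, -, -, -, hex, hph⟩ := hG L M S F n X
  have hDj : ∀ l m, l ≠ m → Dj (v l) (v m) := fun l m hlm =>
    ⟨fun p p' h => (hinj _ _ _ _ h).2, fun p p' h => (hinj _ _ _ _ h).2,
      fun p p' h => hlm (hinj _ _ _ _ h).1⟩
  have hphi : ∀ l m, l ≠ m → ∀ σ, Xc (v l) (v m) σ →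
      (Ph S F n X σ ↔ TE S F n (SW X (v l) (v m))) := fun l m hlm σ hσ =>
    hph γ _ _ σ (hDj l m hlm) hσ (fun p => hX _ p) fun p => hX _ p
  refine ⟨hX, hinj, fun i j hij => ?_⟩
  by_cases hi : i = 0
  · subst hi
    exact h j (Ne.symm hij)
  · obtain ⟨σ, hσ⟩ := hex γ (v 0) (v i) (hDj 0 i (Ne.symm hi))
    have hσP : Ph S F n X σ := (hphi 0 i (Ne.symm hi) σ hσ).2 (h i hi)
    by_cases hj : j = 0
    · subst hj
      exact (hphi i 0 hij σ ⟨hσ.2.1, hσ.1, fun x h1 h2 => hσ.2.2 x h2 h1⟩).1 hσP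
    · obtain ⟨τ, hτ⟩ := hex γ (v 0) (v j) (hDj 0 j (Ne.symm hj))
      have hτP : Ph S F n X τ := (hphi 0 j (Ne.symm hj) τ hτ).2 (h j hj)
      have hne : ∀ l m, l ≠ m → ∀ p, v l p ∉ range (v m) := by
        rintro l m hlm p ⟨p', hp'⟩
        exact hlm (hinj _ _ _ _ hp').1.symm
      refine (hphi i j hij (σ * τ * σ) ⟨fun p => ?_, fun p => ?_, fun x h1 h2 => ?_⟩).1
        (hmul _ _ (hmul _ _ hσP hτP) hσP)
      · show σ (τ (σ (v i p))) = v j p
        rw [hσ.2.1, hτ.1, hσ.2.2 _ (hne j 0 hj p) (hne j i (Ne.symm hij) p)]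
      · show σ (τ (σ (v j p))) = v i p
        rw [hσ.2.2 _ (hne j 0 hj p) (hne j i (Ne.symm hij) p), hτ.2.1, hσ.1]
      · show σ (τ (σ x)) = x
        by_cases h3 : x ∈ range (v 0)
        · obtain ⟨p, rfl⟩ := h3
          rw [hσ.1, hτ.2.2 _ (hne i 0 hi p) (hne i j hij p), hσ.2.1]
        · rw [hσ.2.2 x h3 h1, hτ.2.2 x h3 h2, hσ.2.2 x h3 h1]

/-- good sets from rows of tuples indexed by a finite type -/
theorem INT_gs (S : L.Structure M) (F : Set M) (n : ℕ) (X : Set M) {γ : Type}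
    [Finite γ] [Nonempty γ] (v : ℕ → γ → M) (h : Ro S F n X v) :
    Gs S F n X (range (v 0)) := by
  obtain ⟨b, hb⟩ : ∃ b, Nat.card γ = b + 1 :=
    ⟨Nat.card γ - 1, (Nat.sub_add_cancel Nat.card_pos).symm⟩
  obtain ⟨e⟩ : Nonempty (Fin (b + 1) ≃ γ) := by
    refine ⟨(Finite.equivFinOfCardEq hb).symm⟩
  obtain ⟨hX, hinj, hrow⟩ := h
  refine ⟨b, fun m => v m ∘ e, ⟨fun i p => hX _ _, fun i p j q h => ?_, fun i j hij => ?_⟩, ?_⟩
  · obtain ⟨h1, h2⟩ := hinj _ _ _ _ h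
    exact ⟨h1, e.injective h2⟩
  · refine (hrow i j hij).anti ?_
    rintro a ((⟨h1, h2, h3, h4⟩ | ⟨p, rfl⟩) | ⟨p, rfl⟩)
    · refine Or.inl (Or.inl ⟨h1, h2, ?_, ?_⟩)
      · rintro ⟨p, hp⟩
        exact h3 ⟨e.symm p, by simp [hp]⟩
      · rintro ⟨p, hp⟩
        exact h4 ⟨e.symm p, by simp [hp]⟩
    · exact Or.inl (Or.inr ⟨e p, rfl⟩)
    · exact Or.inr ⟨e p, rfl⟩
  · show range (v 0 ∘ e) = range (v 0)
    exact e.surjective.range_comp _

theorem thm_INT (hG : St_GRP) : St_INT := by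
  intro L M S F n X B B' hB hB'
  obtain ⟨b, w, hw, rfl⟩ := hB
  obtain ⟨b', w', hw', rfl⟩ := hB'
  obtain ⟨K, hK⟩ := INT_far w hw.2.1 (range (w' 0)) (Set.finite_range _)
  obtain ⟨e, he0, he1, heinj⟩ : ∃ e : ℕ → ℕ, e 0 = 0 ∧ (∀ m, m ≠ 0 → K < e m ∧ e m ≠ 0) ∧
      ∀ m m', e m = e m' → m = m' := by
    refine ⟨fun m => if m = 0 then 0 else K + m, by simp, fun m hm => ?_, fun m m' h => ?_⟩
    · simp only [hm, if_false]
      omega
    · by_cases h1 : m = 0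
      · by_cases h2 : m' = 0
        · rw [h1, h2]
        · simp only [h1, h2, if_true, if_false] at h
          omega
      · by_cases h2 : m' = 0
        · simp only [h1, h2, if_true, if_false] at h
          omega
        · simp only [h1, h2, if_false] at h
          omega
  have hPm : ∀ m, m ≠ 0 → TE S F n (SW X (fun p : {p | w 0 p ∈ range (w' 0)} => w 0 p)
      (fun p : {p | w 0 p ∈ range (w' 0)} => w (e m) p)) := fun m hm =>
    INT_P hG S F n X w w' hw hw' (e m) (he1 m hm).2 (hK (e m) (he1 m hm).1)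
  refine ⟨fun hne => ?_, fun hss => ?_⟩
  · have hnon : Nonempty {p | w 0 p ∈ range (w' 0)} := by
      obtain ⟨_, ⟨p, rfl⟩, hp⟩ := hne
      exact ⟨⟨p, hp⟩⟩
    have h1 := INT_gs S F n X (fun m (p : {p | w 0 p ∈ range (w' 0)}) => w (e m) p)
      (INT_row hG S F n X _ (fun i p => hw.1 _ _) (fun i p j q h => ?_) (fun m hm => ?_))
    · have h2 : range (fun p : {p | w 0 p ∈ range (w' 0)} => w (e 0) p) =
          range (w 0) ∩ range (w' 0) := by
        rw [he0]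
        ext x
        constructor
        · rintro ⟨p, rfl⟩
          exact ⟨⟨p, rfl⟩, p.2⟩
        · rintro ⟨⟨p, rfl⟩, hp⟩
          exact ⟨⟨p, hp⟩, rfl⟩
      rw [← h2]
      exact h1
    · obtain ⟨h2, h3⟩ := hw.2.1 _ _ _ _ h
      exact ⟨heinj _ _ h2, Subtype.ext h3⟩
    · simp only [he0]
      exact hPm m hm
  · have hnon : Nonempty {p | w 0 p ∉ range (w' 0)} := by
      obtain ⟨x, ⟨p, rfl⟩, hx⟩ := exists_of_ssubset hss
      exact ⟨⟨p, hx⟩⟩
    have h1 := INT_gs S F n X (fun m (p : {p | w 0 p ∉ range (w' 0)}) => w (e m) p)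
      (INT_row hG S F n X _ (fun i p => hw.1 _ _) (fun i p j q h => ?_) (fun m hm => ?_))
    · have h2 : range (fun p : {p | w 0 p ∉ range (w' 0)} => w (e 0) p) =
          range (w 0) \ range (w' 0) := by
        rw [he0]
        ext x
        constructor
        · rintro ⟨p, rfl⟩
          exact ⟨⟨p, rfl⟩, p.2⟩
        · rintro ⟨⟨p, rfl⟩, hp⟩
          exact ⟨⟨p, hp⟩, rfl⟩
      rw [← h2]
      exact h1
    · obtain ⟨h2, h3⟩ := hw.2.1 _ _ _ _ h
      exact ⟨heinj _ _ h2, Subtype.ext h3⟩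
    · obtain ⟨-, hmul, -, -, -, hex, hph⟩ := hG L M S F n X
      obtain ⟨hX, hinj, hrow⟩ := hw
      obtain ⟨k, hk⟩ : ∃ k, k = e m := ⟨_, rfl⟩
      have hk0 : k ≠ 0 := by
        rw [hk]
        exact (he1 m hm).2
      simp only [he0, ← hk]
      have h3 := hPm m hm
      rw [← hk] at h3
      have hD1 : Dj (w 0) (w k) :=
        ⟨fun p p' h => (hinj _ _ _ _ h).2, fun p p' h => (hinj _ _ _ _ h).2,
          fun p p' h => hk0 (hinj _ _ _ _ h).1.symm⟩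
      have hD2 : ∀ Q : Set (Fin (b + 1)), Dj (fun p : Q => w 0 p) (fun p : Q => w k p) :=
        fun Q => ⟨fun p p' h => Subtype.ext (hinj _ _ _ _ h).2,
          fun p p' h => Subtype.ext (hinj _ _ _ _ h).2,
          fun p p' h => hk0 (hinj _ _ _ _ h).1.symm⟩
      obtain ⟨σ, hσ⟩ := hex _ _ _ hD1
      obtain ⟨τ, hτ⟩ := hex _ _ _ (hD2 {p | w 0 p ∈ range (w' 0)})
      have hσP : Ph S F n X σ := (hph _ _ _ σ hD1 hσ (fun p => hX _ p) fun p => hX _ p).2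
        (hrow 0 k hk0.symm)
      have hτP : Ph S F n X τ := (hph _ _ _ τ (hD2 _) hτ (fun p => hX _ p) fun p => hX _ p).2 h3
      refine (hph _ _ _ (σ * τ) (hD2 _) ⟨fun p => ?_, fun p => ?_, fun x hx1 hx2 => ?_⟩
        (fun p => hX _ p) fun p => hX _ p).1 (hmul _ _ hσP hτP)
      · show σ (τ (w 0 p)) = w k p
        rw [hτ.2.2 (w 0 p) ?_ ?_, hσ.1]
        · rintro ⟨p', hp'⟩
          apply p.2
          have h4 : (p' : Fin (b + 1)) = p := (hinj _ _ _ _ hp').2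
          rw [← h4]
          exact p'.2
        · rintro ⟨p', hp'⟩
          exact hk0 (hinj _ _ _ _ hp').1
      · show σ (τ (w k p)) = w 0 p
        rw [hτ.2.2 (w k p) ?_ ?_, hσ.2.1]
        · rintro ⟨p', hp'⟩
          exact hk0 (hinj _ _ _ _ hp').1.symm
        · rintro ⟨p', hp'⟩
          apply p.2
          have h4 : (p' : Fin (b + 1)) = p := (hinj _ _ _ _ hp').2
          rw [← h4]
          exact p'.2
      · show σ (τ x) = x
        by_cases h4 : x ∈ range (w 0)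
        · obtain ⟨p, rfl⟩ := h4
          have h5 : w 0 p ∈ range (w' 0) := by
            by_contra h5
            exact hx1 ⟨⟨p, h5⟩, rfl⟩
          have h6 : τ (w 0 p) = w k p := hτ.1 ⟨p, h5⟩
          rw [h6, hσ.2.1]
        · by_cases h5 : x ∈ range (w k)
          · obtain ⟨p, rfl⟩ := h5
            have h6 : w 0 p ∈ range (w' 0) := by
              by_contra h6
              exact hx2 ⟨⟨p, h6⟩, rfl⟩
            have h7 : τ (w k p) = w 0 p := hτ.2.1 ⟨p, h6⟩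
            rw [h7, hσ.1]
          · rw [hτ.2.2 x ?_ ?_, hσ.2.2 x h4 h5]
            · rintro ⟨p, hp⟩
              exact h4 ⟨p, hp⟩
            · rintro ⟨p, hp⟩
              exact h5 ⟨p, hp⟩

end HEI
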