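import Pool.Agent.HEI.StA

/-!
# HEI [LVF]: elements outside of `A` (helper87)
-/

set_option autoImplicit false
set_option linter.unusedVariables false

namespace HEI

open Set Pool.Agent.Helper5.DU Pool.Agent.Helper6.Str Pool.Agent.Helper79.VC
  Pool.Agent.Helper97.LO Pool.Agent.Helper97.VC HER HERN

theorem thm_LVF (hG : St_GRP) (hB : St_BLK) : St_LVF := by
  intro L M S F m A hL x hx
  have h1 : ∀ z, z ∉ A → ∀ n, Gx S F n univ z := by
    intro z hz n
    by_contra h
    exact hz (hL.cl.gd n z h)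
  have hmono : ∀ z, z ∉ A → ∀ n k, n ≤ k → Bl S F n univ z ⊆ Bl S F k univ z := by
    intro z hz n k hnk
    exact ((hB L M S F n univ).2.2.2.2.2.2 k z hnk (h1 z hz k)).2
  have hself : ∀ z, z ∉ A → ∀ n, z ∈ Bl S F n univ z := by
    intro z hz n
    exact ((hB L M S F n univ).2.1 z (h1 z hz n)).2
  have hbl : ∀ n y, y ∈ Bl S F n univ x → Gx S F n univ y ∧ Bl S F n univ y = Bl S F n univ x := by
    intro n y hy
    exact (hB L M S F n univ).2.2.1 x y (h1 x hx n) hy
  have h3 : ∀ y ∈ Bi S F univ x, y ∉ A ∧ Bi S F univ y = Bi S F univ x := by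
    intro y hy
    obtain ⟨n, hn⟩ := mem_iUnion.1 hy
    have hyA : y ∉ A := by
      intro h
      obtain ⟨g1, g2⟩ := hbl n y hn
      have h2 : x ∈ Bl S F n univ y := by
        rw [g2]
        exact hself x hx n
      exact hx (hL.cl.bl n y x h g1 h2)
    refine ⟨hyA, ?_⟩
    have hk : ∀ k, n ≤ k → Bl S F k univ y = Bl S F k univ x := by
      intro k hk
      exact (hbl k y (hmono x hx n k hk hn)).2
    apply Subset.antisymm
    · intro z hz
      obtain ⟨j, hj⟩ := mem_iUnion.1 hz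
      refine mem_iUnion.2 ⟨max j n, ?_⟩
      rw [← hk (max j n) (le_max_right j n)]
      exact hmono y hyA j (max j n) (le_max_left j n) hj
    · intro z hz
      obtain ⟨j, hj⟩ := mem_iUnion.1 hz
      refine mem_iUnion.2 ⟨max j n, ?_⟩
      rw [hk (max j n) (le_max_right j n)]
      exact hmono x hx j (max j n) (le_max_left j n) hj
  have h4 : ∀ n, Cj S F n univ x x := by
    intro n
    exact ⟨1, (hG L M S F n univ).1, rfl⟩
  refine ⟨h1 x hx, ?_, h3, ?_, ?_, ?_, ?_, ?_⟩
  · intro n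
    by_contra h
    exact hx (hL.cl.sz n x h)
  · intro n hfin
    exact hx (hL.cl.ob n x hfin x (h4 n))
  · exact mem_iUnion.2 ⟨0, hself x hx 0⟩
  · refine countable_iUnion fun n => ?_
    exact ((hB L M S F n univ).1 _ ((hB L M S F n univ).2.1 x (h1 x hx n)).1).1.countable
  · rintro n y z ⟨σ, hσ, rfl⟩ ⟨τ, hτ, rfl⟩
    refine ⟨τ * σ⁻¹, (hG L M S F n univ).2.1 τ σ⁻¹ hτ ((hG L M S F n univ).2.2.1 σ hσ), ?_⟩
    simp
  · intro hfin
    have h5 : ∀ y, ∃ n, y ∈ Bi S F univ x → y ∈ Bl S F n univ x := by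
      intro y
      by_cases h : y ∈ Bi S F univ x
      · obtain ⟨n, hn⟩ := mem_iUnion.1 h
        exact ⟨n, fun _ => hn⟩
      · exact ⟨0, fun h' => absurd h' h⟩
    choose f hf using h5
    refine ⟨hfin.toFinset.sup f, Subset.antisymm ?_ ?_⟩
    · intro y hy
      exact hmono x hx (f y) _ (Finset.le_sup (f := f) (hfin.mem_toFinset.2 hy)) (hf y hy)
    · intro y hy
      exact mem_iUnion.2 ⟨_, hy⟩

end HEI
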