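import Pool.Agent.HEI.StA
import Pool.Agent.HERN.FIT

/-!
# HEI [LVL]: the blocks of level `n` (helper9; from HERN/FIT.lean and HERN/MAINN.lean)
-/

set_option autoImplicit false
set_option linter.unusedVariables false

namespace HEI

open Set Pool.Agent.Helper5.DU Pool.Agent.Helper6.Str Pool.Agent.Helper79.VC
  Pool.Agent.Helper97.LO Pool.Agent.Helper97.VC HER HERN

theorem LVL_fit {L : FirstOrder.Language.{0, 0}} {M : Type} {S : L.Structure M} {F : Set M}
    {r : ℕ} {I : ℕ → Type} {U : ∀ b, I b → Set (Fin b → M)} {cl : Set M → Set M}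
    {a0 A : Set M} {B : M → Set M} {m : ℕ} (hr : 2 ≤ r)
    (hL : ∀ m, r < m → IsEmpty (L.Relations m)) (hRep : Rep S F r U cl a0)
    (hC : Clos S F r U cl a0 A) (hB : BlkN S A B) (hBc : ∀ x ∉ A, (B x).Countable)
    (hfin : {D : Set M | ∃ x ∉ A, D = B x ∧ (m : ℕ∞) < D.encard}.Finite) :
    ∃ A' : Set M, BlkN S A' B ∧ (∀ x ∉ A', (B x).encard ≤ m) ∧
      ∀ x ∉ A', ¬ {y | y ∉ A' ∧ BIN S A' B x y}.Countable := by
  classical
  let A1 : Set M := A ∪ ⋃₀ {D : Set M | ∃ x ∉ A, D = B x ∧ (m : ℕ∞) < D.encard}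
  have hA1 : A ⊆ A1 := subset_union_left
  have hA1c : A1.Countable := by
    refine hB.ctbl.union (hfin.countable.sUnion ?_)
    rintro D ⟨x, hx, rfl, -⟩
    exact hBc x hx
  have hA1u : ∀ x ∈ A1, x ∉ A → B x ⊆ A1 := by
    rintro x (hx | ⟨D, ⟨y, hy, rfl, hD⟩, hxD⟩) hxA
    · exact absurd hx hxA
    · rw [(hB.out y hy x hxD).2]
      exact (subset_sUnion_of_mem (show B y ∈ {D : Set M | ∃ x ∉ A, D = B x ∧
        (m : ℕ∞) < D.encard} from ⟨y, hy, rfl, hD⟩)).trans subset_union_right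
  have hsm : ∀ x ∉ A1, (B x).encard ≤ m := by
    intro x hx
    by_contra h
    push Not at h
    have hxA : x ∉ A := fun h => hx (hA1 h)
    exact hx (Or.inr ⟨B x, ⟨x, hxA, rfl, h⟩, hB.self x hxA⟩)
  -- labellings and colours
  have hcol : ∀ s : ℕ, ∃ (C : Type) (_ : Finite C) (t : (Fin s → M) → C),
      ∀ c c' : Fin s → M, Function.Injective c → Function.Injective c' → Off A c → Off A c' →
        t c = t c' → AtEq S S (dg A ∪ prs c c') := fun s => FIT_col hr hL hRep hC s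
  choose C hCf t ht using hcol
  have hlab : ∀ x : M, ∃ κ : Option (Σ s : Fin (m + 1), Fin s × C s), x ∉ A1 →
      ∃ (s : Fin (m + 1)) (k : Fin s) (c : Fin s → M), Function.Injective c ∧ range c = B x ∧
        c k = x ∧ κ = some ⟨s, k, t s c⟩ := by
    intro x
    by_cases hx : x ∈ A1
    · exact ⟨none, fun h => absurd hx h⟩
    · have h1 : (B x).Finite := finite_of_encard_le_coe (hsm x hx)
      have : Finite (B x) := h1
      have h2 : Nat.card (B x) ≤ m := by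
        have h3 : (B x).encard = (Nat.card (B x) : ℕ∞) := by
          rw [Set.encard, ENat.card_eq_coe_natCard]
        have h4 := hsm x hx
        rw [h3] at h4
        exact_mod_cast h4
      let s : Fin (m + 1) := ⟨Nat.card (B x), Nat.lt_succ_of_le h2⟩
      let e : B x ≃ Fin (Nat.card (B x)) := Finite.equivFin (B x)
      let c : Fin s → M := fun i => (e.symm i : B x)
      have hxB : x ∈ B x := hB.self x fun h => hx (hA1 h)
      refine ⟨some ⟨s, e ⟨x, hxB⟩, t s c⟩, fun _ => ⟨s, e ⟨x, hxB⟩, c, ?_, ?_, ?_, rfl⟩⟩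
      · intro i j hij
        exact e.symm.injective (Subtype.ext hij)
      · apply Subset.antisymm
        · rintro _ ⟨i, rfl⟩
          exact (e.symm i).2
        · intro y hy
          exact ⟨e ⟨y, hy⟩, congrArg Subtype.val (e.symm_apply_apply ⟨y, hy⟩)⟩
      · exact congrArg Subtype.val (e.symm_apply_apply ⟨x, hxB⟩)
  choose κ hκ using hlab
  have hbin : ∀ x y, x ∉ A1 → y ∉ A1 → κ x = κ y → BIN S A B x y := by
    intro x y hx hy hxy
    have hxA : x ∉ A := fun h => hx (hA1 h)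
    have hyA : y ∉ A := fun h => hy (hA1 h)
    obtain ⟨s, k, c, hc1, hc2, hc3, hc4⟩ := hκ x hx
    obtain ⟨s', k', c', hc1', hc2', hc3', hc4'⟩ := hκ y hy
    rw [hc4, hc4', Option.some_inj, Sigma.mk.injEq] at hxy
    obtain ⟨hs, h2⟩ := hxy
    subst hs
    rw [heq_eq_eq, Prod.mk.injEq] at h2
    obtain ⟨h2, h3⟩ := h2
    subst h2
    have hoff : Off A c := fun i => (hB.out x hxA (c i) (hc2 ▸ ⟨i, rfl⟩)).1
    have hoff' : Off A c' := fun i => (hB.out y hyA (c' i) (hc2' ▸ ⟨i, rfl⟩)).1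
    have h4 := ht s c c' hc1 hc1' hoff hoff' h3
    let f : M → M := fun z => if h : ∃ i, c i = z then c' h.choose else z
    have hf : ∀ i, f (c i) = c' i := by
      intro i
      have h5 : ∃ j, c j = c i := ⟨i, rfl⟩
      simp only [f, dif_pos h5]
      rw [hc1 h5.choose_spec]
    refine ⟨f, ⟨?_, ?_, ?_⟩, ?_, h4.anti ?_⟩
    · intro z hz
      rw [← hc2] at hz
      obtain ⟨i, rfl⟩ := hz
      rw [hf, ← hc2']
      exact ⟨i, rfl⟩
    · intro z hz z' hz' hzz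
      rw [← hc2] at hz hz'
      obtain ⟨i, rfl⟩ := hz
      obtain ⟨j, rfl⟩ := hz'
      rw [hf, hf] at hzz
      rw [hc1' hzz]
    · intro z hz
      rw [← hc2'] at hz
      obtain ⟨i, rfl⟩ := hz
      exact ⟨c i, hc2 ▸ ⟨i, rfl⟩, hf i⟩
    · rw [← hc3, hf, hc3']
    · rintro a (⟨z, hz, rfl⟩ | ⟨ha1, ha2⟩)
      · exact Or.inl ⟨z, hz, rfl⟩
      · rw [← hc2] at ha1
        obtain ⟨i, hi⟩ := ha1
        refine Or.inr ⟨i, ?_⟩
        refine Prod.ext hi ?_
        rw [ha2, ← hi, hf]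
  -- the points whose isomorphism type occurs countably often
  let Z : Set M := {x | x ∉ A1 ∧ {y | y ∉ A1 ∧ BIN S A B x y}.Countable}
  have hZ : Z.Countable := by
    have h1 : Z ⊆ ⋃ k, {x | x ∈ Z ∧ κ x = k} := fun x hx => mem_iUnion.mpr ⟨κ x, hx, rfl⟩
    refine (countable_iUnion fun k => ?_).mono h1
    by_cases h2 : ∃ x, x ∈ Z ∧ κ x = k
    · obtain ⟨x, hx, hk⟩ := h2
      refine hx.2.mono ?_
      rintro y ⟨hy, hyk⟩
      exact ⟨hy.1, hbin x y hx.1 hy.1 (hk.trans hyk.symm)⟩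
    · refine countable_empty.mono ?_
      intro x hx
      exact h2 ⟨x, hx⟩
  let A2 : Set M := A1 ∪ ⋃ x ∈ Z, B x
  have hA12 : A1 ⊆ A2 := subset_union_left
  have hA2 : A ⊆ A2 := hA1.trans hA12
  have hA2c : A2.Countable :=
    hA1c.union (hZ.biUnion fun x hx => hBc x fun h => hx.1 (hA1 h))
  have hA2u : ∀ x ∈ A2, x ∉ A → B x ⊆ A2 := by
    rintro x (hx | hx) hxA
    · exact (hA1u x hx hxA).trans hA12
    · obtain ⟨y, hy, hxy⟩ := mem_iUnion₂.mp hx
      rw [(hB.out y (fun h => hy.1 (hA1 h)) x hxy).2]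
      exact (subset_biUnion_of_mem (u := fun x => B x) hy).trans subset_union_right
  have hnA1 : ∀ x, x ∉ A2 → x ∉ A1 := fun x hx h => hx (hA12 h)
  have hnA : ∀ x, x ∉ A2 → x ∉ A := fun x hx h => hx (hA2 h)
  have hbin2 : ∀ x y, x ∉ A2 → y ∉ A2 → BIN S A B x y → BIN S A2 B x y := fun x y hx hy h =>
    FIT_bin hB hA2 hA2u hx hy h
  refine ⟨A2, FIT_blk hB hA2 hA2c hA2u, fun x hx => hsm x (hnA1 x hx), ?_⟩
  intro x hx hcon
  have h1 : x ∉ Z := fun h => hx (Or.inr (mem_iUnion₂.mpr ⟨x, h, hB.self x (hnA x hx)⟩))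
  refine h1 ⟨hnA1 x hx, ?_⟩
  refine (hA2c.union hcon).mono ?_
  rintro y ⟨hy1, hy2⟩
  by_cases hy : y ∈ A2
  · exact Or.inl hy
  · exact Or.inr ⟨hy, hbin2 x y hx hy hy2⟩

theorem thm_LVL (h0 : HERN.St_PN0) (hS : HERN.St_PNS) (hREP : HERN.St_REP) (hCLX : HERN.St_CLX)
    (hBK : HERN.St_BK0) (hSIZ : HERN.St_SIZ) : St_LVL := by
  intro L M S F n hn hL hC
  have hPN : ∀ n, PN S F n := by
    intro n
    induction n with
    | zero => exact h0 L M S F hC
    | succ n ih => exact hS L M S F n hC ih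
  obtain ⟨I, U, cl, a0, hR⟩ := hREP L M S F n hC (hPN _)
  have hcl : ∀ A' : Set M, A'.Countable → ∃ B, A' ⊆ B ∧ Clos S F n U cl a0 B :=
    fun A' hA' => hCLX L M S F n I U cl a0 A' hC (hPN _) hR hA'
  obtain ⟨A, -, hA⟩ := hcl ∅ countable_empty
  obtain ⟨hB, hBc⟩ := hBK L M S F n I U cl a0 A hn hL hR hcl hA
  obtain ⟨m, hm⟩ := hSIZ L M S F n I U cl a0 A hC hR hcl hA
  obtain ⟨A', h1, h2, h3⟩ := LVL_fit hn hL hR hA hB hBc hm
  exact ⟨A', _, m, h1, h2, h3⟩

end HEI
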