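import Pool.Agent.HEI.StA
import Pool.Agent.HERN.TE

/-!
# HEI [MOV]: moving tuples into `D` (helper21)
-/

set_option autoImplicit false
set_option linter.unusedVariables false

namespace HEI

open Set Pool.Agent.Helper5.DU Pool.Agent.Helper6.Str Pool.Agent.Helper79.VC
  Pool.Agent.Helper97.LO Pool.Agent.Helper97.VC HER HERN

/-- a member of an infinite disjoint family which avoids a finite set -/
theorem MOV_pick {M : Type} {Q : Set (Set M)} (h : Q.Infinite)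
    (hd : ∀ P ∈ Q, ∀ P' ∈ Q, ∀ w, w ∈ P → w ∈ P' → P = P') (E : Set M) (hE : E.Finite) :
    ∃ P ∈ Q, Disjoint P E := by
  by_contra hno
  push Not at hno
  have h1 : ∀ P ∈ Q, ∃ w, w ∈ P ∧ w ∈ E := fun P hP => Set.not_disjoint_iff.1 (hno P hP)
  obtain ⟨P0, hP0⟩ := h.nonempty
  obtain ⟨w0, -⟩ := h1 P0 hP0
  have : Nonempty M := ⟨w0⟩
  apply h
  choose! f hf using h1
  exact Set.Finite.of_injOn (f := f) (fun P hP => (hf P hP).2)
    (fun P hP P' hP' he => hd P hP P' hP' (f P) (hf P hP).1 (he ▸ (hf P' hP').1)) hE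

section

variable {L : FirstOrder.Language.{0, 0}} {M : Type} {S : L.Structure M} {F : Set M} {m : ℕ → ℕ}
  {A : Set M} {C : Set (Set M)} {n : ℕ}

/-- the block of `x` can be exchanged with a part of a set `P ⊆ D` which avoids `E` -/
theorem MOV_one (hGRP : St_GRP) (hBLK : St_BLK) (hUTL : St_UTL) (hLVF : St_LVF)
    (hL : Lv S F m A) (hP : PD S F A C) {x : M} (hx : x ∉ A) (E : Set M) (hE : E.Finite) :
    ∃ (k : ℕ) (u v : Fin k → M) (P : Set M), range u = Bl S F n univ x ∧ range v ⊆ P ∧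
      P ⊆ A ∪ ⋃₀ C ∧ Disjoint P E ∧ Sw S F n (univ \ (P \ range v)) u v := by
  rcases hP.rd n x hx with h | ⟨m', y, hn, hy, hg, ⟨k, u, v, hu, hv, hs⟩, hinf⟩
  · obtain ⟨P, ⟨hPC, k, u, v, hu, hv, hs⟩, hd⟩ := MOV_pick h
      (fun P hP1 P' hP2 w hw hw' => hP.ds P hP1.1 P' hP2.1 w hw w hw' rfl) E hE
    exact ⟨k, u, v, P, hu, hv, (subset_sUnion_of_mem hPC).trans subset_union_right, hd, hs⟩
  · obtain ⟨b1, b2, b3, b4, b5, b6, b7⟩ := hBLK L M S F m' univ
    obtain ⟨l1, l2, l3, l4, l5, l6, l7, l8⟩ := hLVF L M S F m A hL x hx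
    have hyfin : (Bl S F m' univ y).Finite := (b1 _ (b2 y hg).1).1
    have hcj : ∀ w, Cj S F m' univ y w → Gx S F m' univ w := by
      rintro w ⟨σ, hσ, rfl⟩
      exact (b5 σ y hσ hg).1
    obtain ⟨P, ⟨w, hwA, hwc, rfl⟩, hd⟩ := MOV_pick hinf (by
      rintro P ⟨w, hw, hwc, rfl⟩ P' ⟨w', hw', hwc', rfl⟩ t ht ht'
      rw [← (b3 w t (hcj w hwc) ht).2, ← (b3 w' t (hcj w' hwc') ht').2])
      (E ∪ Bl S F m' univ y) (hE.union hyfin)
    rw [disjoint_union_right] at hd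
    obtain ⟨σ, hσ, hσy⟩ := hwc
    have hgw : Gx S F m' univ w := hcj w ⟨σ, hσ, hσy⟩
    have hww : w ∈ Bl S F m' univ w := (b2 w hgw).2
    have hnot : σ y ∉ Bl S F m' univ y := by
      rw [hσy]
      exact fun h => Set.disjoint_left.1 hd.2 hww h
    obtain ⟨-, -, t3, -, -⟩ := hUTL L M S F m' univ
    obtain ⟨τ, hτ, hτi, hτB, hτs⟩ := t3 y σ hg hσ hnot
    have himg : τ '' Bl S F m' univ y = Bl S F m' univ w := by
      rw [← hσy, (b5 σ y hσ hg).2]
      exact image_congr fun a ha => hτB a ha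
    -- the blocks in `A`
    have hyA : Bl S F m' univ y ⊆ A := fun a ha => hL.cl.bl m' y a hy hg ha
    have hwA' : Bl S F m' univ w ⊆ A := fun a ha => hL.cl.bl m' w a hwA hgw ha
    have hxA : ∀ a ∈ Bl S F n univ x, a ∉ A := fun a ha =>
      (l3 a (mem_iUnion.2 ⟨n, ha⟩)).1
    have hfix : ∀ a ∈ Bl S F n univ x, τ a = a := by
      intro a ha
      by_contra hne
      rcases hτs a hne with h | h
      · exact hxA a ha (hyA h)
      · rw [hσy] at h
        exact hxA a ha (hwA' h)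
    obtain ⟨-, -, -, g4, -⟩ := hGRP L M S F m' univ
    obtain ⟨t1, -⟩ := hUTL L M S F n univ
    have h1 := t1 k u v (Bl S F m' univ y \ range v) τ (g4 n τ hn hτ) hs
    have e1 : (fun i => τ (u i)) = u := by
      funext i
      exact hfix _ (hu ▸ mem_range_self i)
    have e2 : τ '' (Bl S F m' univ y \ range v) =
        Bl S F m' univ w \ range (fun i => τ (v i)) := by
      rw [image_sdiff τ.injective, himg]
      congr 1
      rw [← range_comp]
      rfl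
    rw [e1, e2] at h1
    refine ⟨k, u, fun i => τ (v i), Bl S F m' univ w, hu, ?_, hwA'.trans subset_union_left, hd.1,
      h1⟩
    rintro _ ⟨i, rfl⟩
    rw [← himg]
    exact mem_image_of_mem τ (hv (mem_range_self i))

theorem MOV_ind (hGRP : St_GRP) (hBLK : St_BLK) (hUTL : St_UTL) (hLVF : St_LVF)
    (hL : Lv S F m A) (hP : PD S F A C) (K : Set M) (hK : K.Finite) (N : ℕ) :
    ∀ z : Set M, z.Finite → (z \ (K ∪ (A ∪ ⋃₀ C))).ncard ≤ N →
      (∀ x ∈ z, x ∉ K → x ∉ A ∪ ⋃₀ C → Disjoint (Bl S F n univ x) K) →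
      ∃ e : Equiv.Perm M, (∀ x ∈ K, e x = x) ∧
        (∀ x ∈ z, x ∉ K → e x ∈ A ∪ ⋃₀ C ∧ e x ∉ K) ∧
        TE S F n {a | a.1 ∈ z ∪ K ∧ a.2 = e a.1} := by
  have hbase : ∀ z : Set M, z \ (K ∪ (A ∪ ⋃₀ C)) = ∅ → ∃ e : Equiv.Perm M, (∀ x ∈ K, e x = x) ∧
      (∀ x ∈ z, x ∉ K → e x ∈ A ∪ ⋃₀ C ∧ e x ∉ K) ∧
      TE S F n {a | a.1 ∈ z ∪ K ∧ a.2 = e a.1} := by
    intro z h0
    refine ⟨1, fun _ _ => rfl, fun x hx hxK => ⟨?_, hxK⟩, te_diag S F n ?_⟩
    · by_contra hD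
      have : x ∈ z \ (K ∪ (A ∪ ⋃₀ C)) := ⟨hx, fun h => h.elim hxK hD⟩
      rw [h0] at this
      exact this
    · rintro a ⟨_, ha⟩
      exact ha.symm
  induction N with
  | zero =>
    intro z hz hN _
    refine hbase z ?_
    exact (ncard_eq_zero (hz.subset sdiff_subset)).1 (Nat.le_zero.1 hN)
  | succ N ih =>
    intro z hz hN hdis
    by_cases h0 : z \ (K ∪ (A ∪ ⋃₀ C)) = ∅
    · exact hbase z h0
    obtain ⟨x, hxz, hxKD⟩ := nonempty_iff_ne_empty.2 h0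
    have hxK : x ∉ K := fun h => hxKD (Or.inl h)
    have hxD : x ∉ A ∪ ⋃₀ C := fun h => hxKD (Or.inr h)
    have hxA : x ∉ A := fun h => hxD (Or.inl h)
    obtain ⟨k, u, v, P, hu, hv, hPD, hPE, hs⟩ := MOV_one (n := n) hGRP hBLK hUTL hLVF hL hP hxA
      (z ∪ K) (hz.union hK)
    rw [disjoint_union_right] at hPE
    obtain ⟨-, -, -, -, -, g6, -⟩ := hGRP L M S F n univ
    obtain ⟨e1, x1, x2, x3⟩ := g6 (Fin k) u v hs.1
    have hBK := hdis x hxz hxK hxD
    have hnv : ∀ y, y ∈ z ∪ K → y ∉ range v := by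
      rintro y (hy | hy) h
      · exact Set.disjoint_left.1 hPE.1 (hv h) hy
      · exact Set.disjoint_left.1 hPE.2 (hv h) hy
    have hfK : ∀ y ∈ K, e1 y = y := by
      intro y hy
      refine x3 y ?_ (hnv y (Or.inr hy))
      rw [hu]
      exact fun h => Set.disjoint_left.1 hBK h hy
    have hfz : ∀ y ∈ z, y ∉ Bl S F n univ x → e1 y = y := by
      intro y hy h
      refine x3 y ?_ (hnv y (Or.inl hy))
      rw [hu]
      exact h
    have hB : ∀ y ∈ Bl S F n univ x, e1 y ∈ P := by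
      intro y hy
      rw [← hu] at hy
      obtain ⟨i, rfl⟩ := hy
      rw [x1 i]
      exact hv (mem_range_self i)
    obtain ⟨l1, -⟩ := hLVF L M S F m A hL x hxA
    obtain ⟨-, b2, -⟩ := hBLK L M S F n univ
    have hxx : x ∈ Bl S F n univ x := (b2 x (l1 n)).2
    have hbad : ∀ y' ∈ e1 '' z, y' ∉ A ∪ ⋃₀ C → y' ∈ z ∧ y' ≠ x := by
      rintro _ ⟨y, hy, rfl⟩ h
      have hyB : y ∉ Bl S F n univ x := fun hb => h (hPD (hB y hb))
      rw [hfz y hy hyB]
      refine ⟨hy, ?_⟩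
      rintro rfl
      exact hyB hxx
    have hTE1 : TE S F n {a | a.1 ∈ z ∪ K ∧ a.2 = e1 a.1} := by
      refine hs.2.2.2.anti ?_
      rintro ⟨a, b⟩ ⟨ha, hb⟩
      simp only at ha hb
      subst hb
      by_cases h : a ∈ range u
      · obtain ⟨i, rfl⟩ := h
        refine Or.inl (Or.inr ?_)
        rw [x1 i]
        exact mem_prs i
      · refine Or.inl (Or.inl ⟨?_, ⟨mem_univ _, ?_⟩, h, hnv a ha⟩)
        · exact (x3 a h (hnv a ha)).symm
        · rintro ⟨haP, _⟩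
          rcases ha with ha | ha
          · exact Set.disjoint_left.1 hPE.1 haP ha
          · exact Set.disjoint_left.1 hPE.2 haP ha
    have hcard : ((e1 '' z) \ (K ∪ (A ∪ ⋃₀ C))).ncard ≤ N := by
      have h1 : (e1 '' z) \ (K ∪ (A ∪ ⋃₀ C)) ⊆ (z \ (K ∪ (A ∪ ⋃₀ C))) \ {x} := by
        rintro y ⟨hy, hy'⟩
        obtain ⟨h2, h3⟩ := hbad y hy fun h => hy' (Or.inr h)
        exact ⟨⟨h2, hy'⟩, h3⟩
      have hfin : (z \ (K ∪ (A ∪ ⋃₀ C))).Finite := hz.subset sdiff_subset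
      have h2 := ncard_le_ncard h1 (hfin.subset sdiff_subset)
      have h3 := ncard_sdiff_singleton_add_one (s := z \ (K ∪ (A ∪ ⋃₀ C))) ⟨hxz, hxKD⟩ hfin
      omega
    obtain ⟨e2, y1, y2, y3⟩ := ih (e1 '' z) (hz.image _) hcard (by
      intro y hy hyK hyD
      exact hdis y (hbad y hy hyD).1 hyK hyD)
    refine ⟨e2 * e1, ?_, ?_, ?_⟩
    · intro y hy
      rw [Equiv.Perm.mul_apply, hfK y hy, y1 y hy]
    · intro y hy hyK
      rw [Equiv.Perm.mul_apply]
      refine y2 _ (mem_image_of_mem _ hy) fun h => hyK ?_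
      have h2 := hfK _ h
      rw [e1.injective h2] at h
      exact h
    · refine hTE1.comp y3 ?_
      rintro ⟨a, b⟩ ⟨ha, hb⟩
      refine ⟨e1 a, ⟨ha, rfl⟩, ?_, hb⟩
      rcases ha with ha | ha
      · exact Or.inl (mem_image_of_mem _ ha)
      · right
        change e1 a ∈ K
        rw [hfK a ha]
        exact ha

end

theorem thm_MOV (hGRP : St_GRP) (hBLK : St_BLK) (hUTL : St_UTL) (hLVF : St_LVF) : St_MOV := by
  intro L M S F m A C n z K hL hP hz hK hdis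
  refine MOV_ind hGRP hBLK hUTL hLVF hL hP K hK _ z hz le_rfl ?_
  intro x hx hxK hxD
  have hxA : x ∉ A := fun h => hxD (Or.inl h)
  obtain ⟨l1, -⟩ := hLVF L M S F m A hL x hxA
  obtain ⟨-, b2, -⟩ := hBLK L M S F n univ
  exact hdis x hx hxK hxA fun h => hxD (h (b2 x (l1 n)).2)

end HEI
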