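import Pool.Agent.HEI.StA

/-!
# HEI [ORB]: finitely many orbits (helper42)
-/

set_option autoImplicit false
set_option linter.unusedVariables false

namespace HEI

open Set Pool.Agent.Helper5.DU Pool.Agent.Helper6.Str Pool.Agent.Helper79.VC
  Pool.Agent.Helper97.LO Pool.Agent.Helper97.VC HER HERN

/-- successive choice of pairwise disjoint tuples -/
theorem ORB_choose {M β : Type} [Finite β] (V : ℕ → Set (β → M))
    (H : ∀ t (E : Set M), E.Finite → ∃ v ∈ V t, Disjoint (range v) E) :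
    ∃ v : ℕ → β → M, (∀ t, v t ∈ V t) ∧ ∀ s t, s < t → Disjoint (range (v t)) (range (v s)) := by
  classical
  choose f hf1 hf2 using fun t (E : {E : Set M // E.Finite}) => H t E.1 E.2
  let g : ℕ → {E : Set M // E.Finite} := fun t => Nat.rec ⟨∅, finite_empty⟩
    (fun t E => ⟨E.1 ∪ range (f t E), E.2.union (finite_range _)⟩) t
  have hg : ∀ t, (g (t + 1)).1 = (g t).1 ∪ range (f t (g t)) := fun t => rfl
  have hmono : Monotone fun t => (g t).1 := by
    apply monotone_nat_of_le_succ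
    intro t
    show (g t).1 ⊆ (g (t + 1)).1
    rw [hg]
    exact subset_union_left
  refine ⟨fun t => f t (g t), fun t => hf1 t _, fun s t hst => ?_⟩
  refine (hf2 t (g t)).mono_right ?_
  have h1 : (g (s + 1)).1 ⊆ (g t).1 := hmono hst
  refine Subset.trans ?_ h1
  rw [hg]
  exact subset_union_right

section

variable {L : FirstOrder.Language.{0, 0}} {M : Type} {S : L.Structure M} {F : Set M} {n : ℕ}

/-- tuples which are conjugate -/
def ORB_C (S : L.Structure M) (F : Set M) (n : ℕ) {β : Type} (v v' : β → M) : Prop :=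
  ∃ σ, Ph S F n univ σ ∧ ∀ p, σ (v p) = v' p

theorem ORB_C_symm (hG : St_GRP) {β : Type} {v v' : β → M} (h : ORB_C S F n v v') :
    ORB_C S F n v' v := by
  obtain ⟨σ, h1, h2⟩ := h
  refine ⟨σ⁻¹, (hG L M S F n univ).2.2.1 σ h1, fun p => ?_⟩
  rw [← h2 p]
  exact σ.symm_apply_apply _

theorem ORB_C_trans (hG : St_GRP) {β : Type} {v v' v'' : β → M} (h : ORB_C S F n v v')
    (h' : ORB_C S F n v' v'') : ORB_C S F n v v'' := by
  obtain ⟨σ, h1, h2⟩ := h
  obtain ⟨τ, h3, h4⟩ := h'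
  refine ⟨τ * σ, (hG L M S F n univ).2.1 τ σ h3 h1, fun p => ?_⟩
  show τ (σ (v p)) = _
  rw [h2, h4]

theorem ORB_C_refl (hG : St_GRP) {β : Type} (v : β → M) : ORB_C S F n v v :=
  ⟨1, (hG L M S F n univ).1, fun p => rfl⟩

theorem ORB_C_of_TE (hG : St_GRP) {β : Type} [Finite β] {v v' : β → M} (hd : Dj v v')
    (h : TE S F n (SW univ v v')) : ORB_C S F n v v' := by
  obtain ⟨σ, hσ⟩ := (hG L M S F n univ).2.2.2.2.2.1 β v v' hd
  exact ⟨σ, ((hG L M S F n univ).2.2.2.2.2.2 β v v' σ hd hσ (fun _ => mem_univ _)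
    (fun _ => mem_univ _)).2 h, hσ.1⟩

theorem ORB_dj {J β : Type} {w : J → β → M} {X : Set M} (h : Ro S F n X w) {i j : J}
    (hij : i ≠ j) : Dj (w i) (w j) :=
  ⟨fun p q hpq => (h.2.1 i p i q hpq).2, fun p q hpq => (h.2.1 j p j q hpq).2,
    fun p q hpq => hij (h.2.1 i p j q hpq).1⟩

theorem ORB_C_row (hG : St_GRP) {β : Type} [Finite β] {w : ℕ → β → M} (h : Ro S F n univ w)
    (i j : ℕ) : ORB_C S F n (w i) (w j) := by
  by_cases hij : i = j
  · subst hij
    exact ORB_C_refl hG _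
  · exact ORB_C_of_TE hG (ORB_dj h hij) (h.2.2 i j hij)

/-- the members of a row of positive level avoid `F` -/
theorem ORB_notF {β : Type} {w : ℕ → β → M} (h : Ro S F n univ w) (hn : 1 ≤ n) (i : ℕ)
    (p : β) : w i p ∉ F := by
  intro hF
  have h1 := h.2.2 i (i + 1) (by omega)
  have h2 := h1 {(w i p, w (i + 1) p)} (by
    rintro a rfl
    exact Or.inl (Or.inr ⟨p, rfl⟩)) (by
    rw [encard_singleton]
    exact_mod_cast hn)
  have h3 := h2.1 (w i p, w i p) (Or.inl ⟨w i p, hF, rfl⟩) (w i p, w (i + 1) p) (Or.inr rfl)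
  have h4 := h.2.1 i p (i + 1) p (h3.1 rfl)
  omega

/-- a member of a row which avoids a finite set -/
theorem ORB_avoid {β : Type} [Finite β] {w : ℕ → β → M} (h : Ro S F n univ w) (E : Set M)
    (hE : E.Finite) : ∃ i, Disjoint (range (w i)) E := by
  by_contra hcon
  push Not at hcon
  have h1 : ∀ i, ∃ p, w i p ∈ E := by
    intro i
    obtain ⟨x, ⟨p, rfl⟩, hx⟩ := not_disjoint_iff.1 (hcon i)
    exact ⟨p, hx⟩
  choose p hp using h1
  have h2 : Function.Injective fun i => (⟨w i (p i), hp i⟩ : E) := by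
    intro i j hij
    have h3 : w i (p i) = w j (p j) := congrArg Subtype.val hij
    exact (h.2.1 i _ j _ h3).1
  have := hE.to_subtype
  exact not_injective_infinite_finite _ h2

theorem ORB_size (hG : St_GRP) (hB : St_BLK) (hF : F.Finite) (hR : RowsP S F) (hn : 1 ≤ n)
    (c : ℕ) : ∃ R : Set M, R.Finite ∧ ∀ x, Gx S F n univ x →
      (Bl S F n univ x).encard = ((c + 1 : ℕ) : ℕ∞) → ∃ y ∈ R, Cj S F n univ y x := by
  classical
  by_contra hcon
  push Not at hcon
  -- a sequence of elements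
  obtain ⟨x, hx, hx'⟩ := exists_seq_of_forall_finset_exists
    (fun x => Gx S F n univ x ∧ (Bl S F n univ x).encard = ((c + 1 : ℕ) : ℕ∞))
    (fun x y => ∀ z ∈ Bl S F n univ x, ¬ Cj S F n univ z y) (by
      intro s hs
      obtain ⟨y, h1, h2, h3⟩ := hcon (⋃ x ∈ s, Bl S F n univ x) (by
        refine s.finite_toSet.biUnion fun x hx => ?_
        exact finite_of_encard_eq_coe (hs x hx).2)
      refine ⟨y, ⟨h1, h2⟩, fun x hx z hz => h3 z ?_⟩
      exact mem_iUnion₂.2 ⟨x, hx, hz⟩)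
  -- rows
  have h1 : ∀ i, ∃ w : ℕ → Fin (c + 1) → M, Ro S F n univ w ∧
      range (w 0) = Bl S F n univ (x i) := by
    intro i
    obtain ⟨b, w, hw1, hw2⟩ := ((hB L M S F n univ).2.1 (x i) (hx i).1).1
    have h2 : (range (w 0)).encard = ((b + 1 : ℕ) : ℕ∞) := by
      rw [← image_univ, (show Function.Injective (w 0) from
        fun p q hpq => (hw1.2.1 0 p 0 q hpq).2).encard_image, encard_univ, ENat.card_eq_coe_fintype_card,
        Fintype.card_fin]
    rw [hw2, (hx i).2] at h2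
    have h3 : c = b := by
      have := ENat.natCast_inj.1 h2
      omega
    subst h3
    exact ⟨w, hw1, hw2⟩
  choose w hw1 hw2 using h1
  -- tuples of different rows are not conjugate
  have hlt : ∀ i j, i < j → ∀ k l, ¬ ORB_C S F n (w i k) (w j l) := by
    intro i j hij k l hc
    have h2 := ORB_C_trans hG (ORB_C_trans hG (ORB_C_row hG (hw1 i) 0 k) hc)
      (ORB_C_row hG (hw1 j) l 0)
    obtain ⟨σ, h3, h4⟩ := h2
    have h5 : x j ∈ range (w j 0) := by
      rw [hw2]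
      exact ((hB L M S F n univ).2.1 (x j) (hx j).1).2
    obtain ⟨p, hp⟩ := h5
    refine hx' i j hij (w i 0 p) ?_ ⟨σ, h3, ?_⟩
    · rw [← hw2]
      exact ⟨p, rfl⟩
    · rw [h4, hp]
  have hne : ∀ i j, i ≠ j → ∀ k l, ¬ ORB_C S F n (w i k) (w j l) := by
    intro i j hij k l hc
    rcases lt_or_gt_of_ne hij with h | h
    · exact hlt i j h k l hc
    · exact hlt j i h l k (ORB_C_symm hG hc)
  -- choice of disjoint members
  obtain ⟨v, hv1, hv2⟩ := ORB_choose (fun t => range (w (Nat.unpair t).1)) (by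
    intro t E hE
    obtain ⟨i, hi⟩ := ORB_avoid (hw1 (Nat.unpair t).1) E hE
    exact ⟨_, ⟨i, rfl⟩, hi⟩)
  choose e he using hv1
  have hv3 : ∀ s t, s ≠ t → Disjoint (range (v s)) (range (v t)) := by
    intro s t hst
    rcases lt_or_gt_of_ne hst with h | h
    · exact (hv2 s t h).symm
    · exact hv2 t s h
  obtain ⟨W, hW⟩ : ∃ W : ℕ → ℕ → Fin (c + 1) → M, W = fun i k => v (Nat.pair i k) := ⟨_, rfl⟩
  obtain ⟨ee, hee⟩ : ∃ ee : ℕ → ℕ → ℕ, ee = fun i k => e (Nat.pair i k) := ⟨_, rfl⟩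
  have hWe : ∀ i k, W i k = w i (ee i k) := by
    intro i k
    rw [hW, hee]
    have := he (Nat.pair i k)
    simp only [Nat.unpair_pair] at this
    exact this.symm
  have hWd : ∀ i k j l, (i, k) ≠ (j, l) → Disjoint (range (W i k)) (range (W j l)) := by
    intro i k j l h
    rw [hW]
    refine hv3 _ _ fun h2 => h ?_
    have h3 := congrArg Nat.unpair h2
    simpa using h3
  have hWinj : ∀ i k, Function.Injective (W i k) := by
    intro i k p q hpq
    rw [hWe] at hpq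
    exact ((hw1 i).2.1 _ p _ q hpq).2
  have hWdj : ∀ i k j l, (i, k) ≠ (j, l) → Dj (W i k) (W j l) := by
    intro i k j l h
    refine ⟨hWinj i k, hWinj j l, fun p q hpq => ?_⟩
    exact (disjoint_left.1 (hWd i k j l h)) ⟨p, rfl⟩ ⟨q, hpq.symm⟩
  -- witnesses
  have hwit : ∀ i k j l, i ≠ j → ∃ q ⊆ SW univ (W i k) (W j l), q.encard ≤ n ∧
      ¬ AtEq S S (dg F ∪ q) := by
    intro i k j l hij
    by_contra h2
    push Not at h2
    have h3 : TE S F n (SW univ (W i k) (W j l)) := fun q hq hqn => h2 q hq hqn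
    have h4 := ORB_C_of_TE hG (hWdj i k j l (fun h => hij (congrArg Prod.fst h))) h3
    rw [hWe, hWe] at h4
    exact hne i j hij _ _ h4
  have hwit' : ∀ i k j l, ∃ q : Set (M × M), q.Countable ∧ (i ≠ j →
      q ⊆ SW univ (W i k) (W j l) ∧ q.encard ≤ n ∧ ¬ AtEq S S (dg F ∪ q)) := by
    intro i k j l
    by_cases hij : i = j
    · exact ⟨∅, countable_empty, fun h => (h hij).elim⟩
    · obtain ⟨q, h2, h3, h4⟩ := hwit i k j l hij
      exact ⟨q, (finite_of_encard_le_coe h3).countable, fun _ => ⟨h2, h3, h4⟩⟩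
  choose q hq1 hq2 using hwit'
  obtain ⟨X, hX⟩ : ∃ X : Set M, X = F ∪ (⋃ i, ⋃ k, range (W i k)) ∪
      ⋃ i, ⋃ k, ⋃ j, ⋃ l, Prod.fst '' q i k j l := ⟨_, rfl⟩
  have hXc : X.Countable := by
    rw [hX]
    refine (hF.countable.union ?_).union ?_
    · exact countable_iUnion fun i => countable_iUnion fun k => (finite_range _).countable
    · exact countable_iUnion fun i => countable_iUnion fun k => countable_iUnion fun j =>
        countable_iUnion fun l => (hq1 i k j l).image _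
  have hXW : ∀ i k p, W i k p ∈ X := by
    intro i k p
    rw [hX]
    exact Or.inl (Or.inr (mem_iUnion.2 ⟨i, mem_iUnion.2 ⟨k, ⟨p, rfl⟩⟩⟩))
  have hXF : F ⊆ X := by
    rw [hX]
    exact fun x hx => Or.inl (Or.inl hx)
  have hXq : ∀ i k j l, ∀ a ∈ q i k j l, a.1 ∈ X := by
    intro i k j l a ha
    rw [hX]
    exact Or.inr (mem_iUnion.2 ⟨i, mem_iUnion.2 ⟨k, mem_iUnion.2 ⟨j, mem_iUnion.2 ⟨l,
      ⟨a, ha, rfl⟩⟩⟩⟩⟩)
  refine hR F X n (Fin (c + 1)) W hF hXc hXF inter_subset_right ⟨?_, ?_, ?_, ?_⟩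
  · intro i k p _
    refine ⟨hXW i k p, ?_⟩
    rw [hWe]
    exact ORB_notF (hw1 i) hn _ p
  · intro i k p j l r _ _ h2
    by_cases h3 : (i, k) = (j, l)
    · obtain ⟨rfl, rfl⟩ := Prod.mk.inj h3
      exact ⟨rfl, rfl, hWinj i k h2⟩
    · exact ((disjoint_left.1 (hWd i k j l h3)) ⟨p, rfl⟩ ⟨r, h2.symm⟩).elim
  · intro i k l _ _ hkl
    have h2 : (i, k) ≠ (i, l) := fun h => hkl (congrArg Prod.snd h)
    have h3 : ee i k ≠ ee i l := by
      intro h3
      have h4 := hWd i k i l h2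
      rw [hWe, hWe, h3] at h4
      exact (disjoint_left.1 h4) ⟨0, rfl⟩ ⟨0, rfl⟩
    have h4 := (hw1 i).2.2 _ _ h3
    rw [← hWe, ← hWe] at h4
    refine h4.anti ?_
    rintro a ((⟨h5, -, h6, h7⟩ | h5) | h5)
    · exact Or.inl (Or.inl ⟨h5, mem_univ _, h6, h7⟩)
    · exact Or.inl (Or.inr h5)
    · exact Or.inr h5
  · intro i j k l hij _ _ hT
    obtain ⟨h2, h3, h4⟩ := hq2 i k j l hij
    refine h4 (hT _ ?_ h3)
    intro a ha
    rcases h2 ha with (⟨h5, -, h6, h7⟩ | h5) | h5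
    · exact Or.inl (Or.inl ⟨h5, hXq i k j l a ha, h6, h7⟩)
    · exact Or.inl (Or.inr h5)
    · exact Or.inr h5

/-- at level `0` all elements are conjugate -/
theorem ORB_zero (x y : M) : Cj S F 0 univ x y := by
  classical
  refine ⟨Equiv.swap x y, ⟨?_, fun _ _ => mem_univ _, ?_⟩, Equiv.swap_apply_left x y⟩
  · refine (toFinite {x, y}).subset ?_
    intro z hz
    by_contra h
    simp only [mem_insert_iff, mem_singleton_iff, not_or] at h
    exact hz (Equiv.swap_apply_of_ne_of_ne h.1 h.2)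
  · intro q _ hq
    have h1 : q = ∅ := by
      have : q.encard = 0 := by simpa using hq
      exact encard_eq_zero.1 this
    subst h1
    refine atEq_diag S ?_
    rintro a (⟨z, -, rfl⟩ | h)
    · rfl
    · exact h.elim

end

theorem thm_ORB (hG : St_GRP) (hB : St_BLK) : St_ORB := by
  classical
  intro L M S F n b hF hR
  rcases Nat.eq_zero_or_pos n with rfl | hn
  · by_cases h : ∃ x : M, True
    · obtain ⟨x, -⟩ := h
      exact ⟨{x}, finite_singleton x, fun y _ _ => ⟨x, rfl, ORB_zero x y⟩⟩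
    · exact ⟨∅, finite_empty, fun y _ _ => (h ⟨y, trivial⟩).elim⟩
  · choose R hR1 hR2 using fun c => ORB_size (L := L) (M := M) (S := S) (F := F) (n := n)
      hG hB hF hR hn c
    refine ⟨⋃ c ∈ Iio b, R c, (finite_Iio b).biUnion fun c _ => hR1 c, fun x hx hxb => ?_⟩
    have h1 := ((hB L M S F n univ).2.1 x hx).2
    have h2 : (Bl S F n univ x).Finite := finite_of_encard_le_coe hxb
    have h3 : (Bl S F n univ x).encard = ((Bl S F n univ x).ncard : ℕ∞) :=
      (h2.cast_ncard_eq).symm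
    have h4 : 0 < (Bl S F n univ x).ncard := (ncard_pos h2).2 ⟨x, h1⟩
    obtain ⟨c, hc⟩ : ∃ c, (Bl S F n univ x).ncard = c + 1 :=
      ⟨(Bl S F n univ x).ncard - 1, by omega⟩
    rw [hc] at h3
    obtain ⟨y, hy1, hy2⟩ := hR2 c x hx h3
    refine ⟨y, mem_iUnion₂.2 ⟨c, ?_, hy1⟩, hy2⟩
    rw [h3] at hxb
    have : c + 1 ≤ b := by exact_mod_cast hxb
    exact this

end HEI
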