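import Pool.Agent.HEI.StA
import Pool.Agent.HERN.TE

/-!
# HEI: the blocks of the elements of pieces in `D` (helper33)
-/

set_option autoImplicit false
set_option linter.unusedVariables false

namespace HEI

open Set Pool.Agent.Helper5.DU Pool.Agent.Helper6.Str Pool.Agent.Helper79.VC
  Pool.Agent.Helper97.LO Pool.Agent.Helper97.VC HER HERN

section aux

variable {L : FirstOrder.Language.{0, 0}} {M : Type}

theorem PBL_enum (B : Set M) (hf : B.Finite) (hn : B.Nonempty) :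
    ∃ (b : ℕ) (w : Fin (b + 1) → M), Function.Injective w ∧ range w = B := by
  obtain ⟨n, f, h1, h2⟩ := hf.fin_param
  cases n with
  | zero =>
    exfalso
    obtain ⟨x, hx⟩ := hn
    rw [← h2] at hx
    obtain ⟨i, -⟩ := hx
    exact i.elim0
  | succ b => exact ⟨b, f, h1, h2⟩

theorem PBL_row {b : ℕ} (S : L.Structure M) (F : Set M) (n : ℕ) (X : Set M)
    (σ : ℕ → Equiv.Perm M) (h0 : σ 0 = 1) (w : Fin (b + 1) → M)
    (h : ∀ i j, i ≠ j → Sw S F n X (fun p => σ i (w p)) (fun p => σ j (w p))) :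
    Gs S F n X (range w) := by
  refine ⟨b, fun i p => σ i (w p), ⟨?_, ?_, ?_⟩, ?_⟩
  · intro i p
    exact (h i (i + 1) (by omega)).2.1 p
  · intro i p j q hpq
    by_cases hij : i = j
    · subst hij
      exact ⟨rfl, (h i (i + 1) (by omega)).1.1 hpq⟩
    · exact absurd hpq ((h i j hij).1.2.2 p q)
  · intro i j hij
    exact (h i j hij).2.2.2
  · have : (fun p => σ 0 (w p)) = w := by
      funext p
      rw [h0]
      rfl
    exact congrArg range this

theorem PBL_swij (hGRP : St_GRP) (hBLK : St_BLK) (hCNJ : St_CNJ) (S : L.Structure M) (F : Set M)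
    (n : ℕ) (X : Set M) (τ τ' : Equiv.Perm M) (hτ : Ph S F n X τ) (hτ' : Ph S F n X τ')
    (y : M) (hy : Gx S F n X y) (k : ℕ) (w : Fin k → M) (hw : Function.Injective w)
    (hr : range w = Bl S F n X y) (hd : τ' y ∉ Bl S F n X (τ y)) :
    Sw S F n X (fun p => τ (w p)) (fun p => τ' (w p)) := by
  obtain ⟨g1, g2, g3, g4, g5, g6, g7⟩ := hGRP L M S F n X
  obtain ⟨b1, b2, b3, b4, b5, b6, b7⟩ := hBLK L M S F n X
  have hρ : Ph S F n X (τ' * τ⁻¹) := g2 _ _ hτ' (g3 _ hτ)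
  obtain ⟨h1, h2⟩ := b5 τ y hτ hy
  have hx : ∀ z, (τ' * τ⁻¹) (τ z) = τ' z := by
    intro z
    simp
  have hr2 : range (fun p => τ (w p)) = Bl S F n X (τ y) := by
    rw [h2, ← hr]
    exact range_comp τ w
  obtain ⟨h3, -⟩ := (hCNJ L M S F n X (τ' * τ⁻¹) hρ).2 (τ y) h1 (by rw [hx]; exact hd) k
    (fun p => τ (w p)) (τ.injective.comp hw) hr2
  have h4 : (fun p => (τ' * τ⁻¹) ((fun p => τ (w p)) p)) = fun p => τ' (w p) := by
    funext p
    exact hx (w p)
  rw [h4] at h3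
  exact h3

theorem PBL_restr {a b : ℕ} (S : L.Structure M) (F : Set M) (k : ℕ) (D : Set M)
    (u v : Fin a → M) (e : Fin b → Fin a) (he : Function.Injective e)
    (h : Sw S F k univ u v)
    (hu : ∀ x ∈ D, x ∈ range u → ∃ p, x = u (e p)) (hv : ∀ x ∈ D, x ∈ range v → ∃ p, x = v (e p))
    (hu' : ∀ p, u (e p) ∈ D) (hv' : ∀ p, v (e p) ∈ D) :
    Sw S F k D (fun p => u (e p)) (fun p => v (e p)) := by
  refine ⟨⟨h.1.1.comp he, h.1.2.1.comp he, fun p q => h.1.2.2 _ _⟩, hu', hv', h.2.2.2.anti ?_⟩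
  rintro a ((⟨h1, h2, h3, h4⟩ | ⟨p, rfl⟩) | ⟨p, rfl⟩)
  · refine Or.inl (Or.inl ⟨h1, mem_univ _, fun hh => ?_, fun hh => ?_⟩)
    · obtain ⟨p, hp⟩ := hu _ h2 hh
      exact h3 ⟨p, hp.symm⟩
    · obtain ⟨p, hp⟩ := hv _ h2 hh
      exact h4 ⟨p, hp.symm⟩
  · exact Or.inl (Or.inr ⟨e p, rfl⟩)
  · exact Or.inr ⟨e p, rfl⟩

theorem PBL_seq (hGRP : St_GRP) (S : L.Structure M) (F : Set M) (C : Set (Set M)) (A : Set M)
    (x : M) (l k : ℕ) (hx : x ∉ A) (hP : Bl S F l univ x ∈ C)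
    (hinf : {P' | P' ∈ C ∧ ∃ x', x' ∉ A ∧ Cj S F k univ x x' ∧
      P' = Bl S F l univ x'}.Infinite) :
    ∃ σ : ℕ → Equiv.Perm M, σ 0 = 1 ∧ (∀ i, Ph S F k univ (σ i)) ∧ (∀ i, σ i x ∉ A) ∧
      (∀ i, Bl S F l univ (σ i x) ∈ C) ∧
      ∀ i j, i ≠ j → Bl S F l univ (σ i x) ≠ Bl S F l univ (σ j x) := by
  classical
  have h1 := hinf.sdiff (finite_singleton (Bl S F l univ x))
  have f := h1.natEmbedding
  have h2 : ∀ i, ∃ τ : Equiv.Perm M, Ph S F k univ τ ∧ τ x ∉ A ∧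
      (f i : Set M) = Bl S F l univ (τ x) := by
    intro i
    obtain ⟨⟨hC, x', hx', ⟨τ, hτ, rfl⟩, hP'⟩, hne⟩ := (f i).2
    exact ⟨τ, hτ, hx', hP'⟩
  choose τ hτ1 hτ2 hτ3 using h2
  have hne : ∀ i, Bl S F l univ (τ i x) ≠ Bl S F l univ x := by
    intro i h
    rw [← hτ3] at h
    exact (f i).2.2 h
  have hC : ∀ i, Bl S F l univ (τ i x) ∈ C := by
    intro i
    rw [← hτ3]
    exact (f i).2.1.1
  have hinj : ∀ i j, i ≠ j → Bl S F l univ (τ i x) ≠ Bl S F l univ (τ j x) := by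
    intro i j hij h
    rw [← hτ3, ← hτ3] at h
    exact hij (f.injective (Subtype.ext h))
  refine ⟨fun i => Nat.casesOn i 1 τ, rfl, ?_, ?_, ?_, ?_⟩
  · intro i
    cases i with
    | zero => exact (hGRP L M S F k univ).1
    | succ i => exact hτ1 i
  · intro i
    cases i with
    | zero => exact hx
    | succ i => exact hτ2 i
  · intro i
    cases i with
    | zero => exact hP
    | succ i => exact hC i
  · intro i j hij
    cases i with
    | zero =>
      cases j with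
      | zero => exact absurd rfl hij
      | succ j => exact fun h => hne j h.symm
    | succ i =>
      cases j with
      | zero => exact fun h => hne i h
      | succ j => exact hinj i j (by omega)

/-- a sequence of partners of the piece `Bl l x` at the level `k` -/
structure PBL_S (S : L.Structure M) (F : Set M) (A : Set M) (C : Set (Set M)) (x : M) (l k : ℕ)
    (σ : ℕ → Equiv.Perm M) : Prop where
  z : σ 0 = 1
  ph : ∀ i, Ph S F k univ (σ i)
  inC : ∀ i, Bl S F l univ (σ i x) ∈ C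
  im : ∀ i, Bl S F l univ (σ i x) = σ i '' Bl S F l univ x
  imk : Bl S F k univ x ⊆ Bl S F k univ x ∧ ∀ i, Bl S F k univ (σ i x) = σ i '' Bl S F k univ x
  out : ∀ i j, i ≠ j → σ j x ∉ Bl S F k univ (σ i x)
  dj : ∀ i j, i ≠ j → ∀ y ∈ Bl S F l univ (σ i x), y ∉ Bl S F l univ (σ j x)
  cap : ∀ i, ∀ y ∈ A ∪ ⋃₀ C, y ∈ Bl S F k univ (σ i x) → y ∈ Bl S F l univ (σ i x)

theorem PBL_exS (hGRP : St_GRP) (hBLK : St_BLK) (hLVF : St_LVF) (S : L.Structure M) (F : Set M)
    (m : ℕ → ℕ) (A : Set M) (C : Set (Set M)) (hL : Lv S F m A) (hD : PD S F A C) (x : M)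
    (l k : ℕ) (hx : x ∉ A) (hlk : l ≤ k) (hP : Bl S F l univ x ∈ C)
    (hinf : {P' | P' ∈ C ∧ ∃ x', x' ∉ A ∧ Cj S F k univ x x' ∧
      P' = Bl S F l univ x'}.Infinite) :
    ∃ σ : ℕ → Equiv.Perm M, PBL_S S F A C x l k σ := by
  obtain ⟨σ, h0, h1, h2, h3, h4⟩ := PBL_seq hGRP S F C A x l k hx hP hinf
  have hl := hBLK L M S F l univ
  have hk := hBLK L M S F k univ
  have lvf := fun i => hLVF L M S F m A hL (σ i x) (h2 i)
  have lx := hLVF L M S F m A hL x hx
  have hsub : ∀ z n, Bl S F n univ z ⊆ Bi S F univ z := fun z n y hy => mem_iUnion.2 ⟨n, hy⟩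
  have hself : ∀ i, σ i x ∈ Bl S F l univ (σ i x) := fun i => (hl.2.1 _ ((lvf i).1 l)).2
  have hBi : ∀ i j, i ≠ j → Bi S F univ (σ i x) ≠ Bi S F univ (σ j x) := by
    intro i j hij h
    exact h4 i j hij (hD.ds _ (h3 i) _ (h3 j) _ (hself i) _ (hself j) h)
  have hin : ∀ i, ∀ y ∈ Bi S F univ (σ i x), Bi S F univ y = Bi S F univ (σ i x) :=
    fun i y hy => ((lvf i).2.2.1 y hy).2
  refine ⟨σ, h0, h1, h3, ?_, ⟨Subset.rfl, ?_⟩, ?_, ?_, ?_⟩
  · intro i
    exact (hl.2.2.2.2.1 (σ i) x ((hGRP L M S F k univ).2.2.2.1 l _ hlk (h1 i)) (lx.1 l)).2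
  · intro i
    exact (hk.2.2.2.2.1 (σ i) x (h1 i) (lx.1 k)).2
  · intro i j hij h
    exact hBi i j hij (hin i _ (hsub _ _ h)).symm
  · intro i j hij y hy hy'
    exact hBi i j hij ((hin i _ (hsub _ _ hy)).symm.trans (hin j _ (hsub _ _ hy')))
  · intro i y hy hyk
    have hyB := hsub _ _ hyk
    rcases hy with hy | ⟨P', hP', hyP'⟩
    · exact absurd hy ((lvf i).2.2.1 y hyB).1
    · have := hD.ds _ (h3 i) _ hP' _ (hself i) _ hyP' (hin i y hyB).symm
      rw [this]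
      exact hyP'

/-- the exchanges of the partners in `D` -/
theorem PBL_exD (hGRP : St_GRP) (hBLK : St_BLK) (hCNJ : St_CNJ) (S : L.Structure M)
    (F : Set M) (A : Set M) (C : Set (Set M)) (x : M) (l k : ℕ) (hlk : l ≤ k)
    (hx : Gx S F k univ x) (σ : ℕ → Equiv.Perm M) (hσ : PBL_S S F A C x l k σ) (b : ℕ)
    (w : Fin b → M) (hw : Function.Injective w) (hr : range w = Bl S F l univ x) (i j : ℕ)
    (hij : i ≠ j) :
    Sw S F k (A ∪ ⋃₀ C) (fun p => σ i (w p)) (fun p => σ j (w p)) := by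
  classical
  have hk := hBLK L M S F k univ
  have hl := hBLK L M S F l univ
  obtain ⟨c, W, hW, hrW⟩ := PBL_enum (Bl S F k univ x) (hk.1 _ (hk.2.1 x hx).1).1
    (hk.1 _ (hk.2.1 x hx).1).2.1
  have h1 := PBL_swij hGRP hBLK hCNJ S F k univ (σ i) (σ j) (hσ.ph i) (hσ.ph j) x hx (c + 1) W hW
    hrW (hσ.out i j hij)
  have h2 : ∀ p, ∃ q, W q = w p := by
    intro p
    have h3 : w p ∈ Bl S F l univ x := hr ▸ mem_range_self p
    have h4 : w p ∈ range W := by
      rw [hrW]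
      exact (hl.2.2.2.2.2.2 k x hlk hx).2 h3
    exact h4
  choose e he using h2
  have hei : Function.Injective e := by
    intro p q h
    apply hw
    rw [← he p, ← he q, h]
  have hmem : ∀ i p, σ i (w p) ∈ A ∪ ⋃₀ C := by
    intro i p
    refine Or.inr ⟨_, hσ.inC i, ?_⟩
    rw [hσ.im i]
    exact mem_image_of_mem _ (hr ▸ mem_range_self p)
  have hcap : ∀ i, ∀ y ∈ A ∪ ⋃₀ C, y ∈ range (fun q => σ i (W q)) → ∃ p, y = σ i (W (e p)) := by
    rintro i y hy ⟨q, rfl⟩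
    have h3 : σ i (W q) ∈ Bl S F k univ (σ i x) := by
      rw [hσ.imk.2 i]
      exact mem_image_of_mem _ (hrW ▸ mem_range_self q)
    have h4 := hσ.cap i _ hy h3
    rw [hσ.im i, ← hr] at h4
    obtain ⟨_, ⟨p, rfl⟩, hp⟩ := h4
    refine ⟨p, ?_⟩
    rw [he p]
    exact hp.symm
  have h5 := PBL_restr S F k (A ∪ ⋃₀ C) _ _ e hei h1 (hcap i) (hcap j)
    (fun p => by
      show σ i (W (e p)) ∈ _
      rw [he p]
      exact hmem i p)
    (fun p => by
      show σ j (W (e p)) ∈ _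
      rw [he p]
      exact hmem j p)
  have h6 : ∀ i, (fun p => (fun q => σ i (W q)) (e p)) = fun p => σ i (w p) := by
    intro i
    funext p
    show σ i (W (e p)) = _
    rw [he p]
  rw [h6 i, h6 j] at h5
  exact h5

/-- exchanges as permutations -/
theorem PBL_perm (hGRP : St_GRP) (S : L.Structure M) (F : Set M) (k : ℕ) (D : Set M) {b : ℕ}
    (u v : Fin b → M) (h : Sw S F k D u v) : ∃ t : Equiv.Perm M, Ph S F k D t ∧ Xc u v t := by
  obtain ⟨g1, g2, g3, g4, g5, g6, g7⟩ := hGRP L M S F k D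
  obtain ⟨t, ht⟩ := g6 (Fin b) u v h.1
  exact ⟨t, (g7 (Fin b) u v t h.1 ht h.2.1 h.2.2.1).2 h.2.2.2, ht⟩

/-- from `D` to `M` -/
theorem PBL_up (hGRP : St_GRP) (hRDV : St_RDV) (S : L.Structure M) (F : Set M)
    (m : ℕ → ℕ) (A : Set M) (C : Set (Set M)) (hL : Lv S F m A) (hD : PD S F A C) (n : ℕ) {b : ℕ}
    (u v : Fin b → M) (h : Sw S F n (A ∪ ⋃₀ C) u v)
    (hu : ∀ p, Bl S F n univ (u p) ⊆ A ∪ ⋃₀ C) (hv : ∀ p, Bl S F n univ (v p) ⊆ A ∪ ⋃₀ C) :
    Sw S F n univ u v := by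
  obtain ⟨t, ht, hX⟩ := PBL_perm hGRP S F n _ u v h
  have h1 : Ph S F n univ t := by
    refine hRDV L M S F m A C n t hL hD ht fun x hx => Or.inr ?_
    by_cases h2 : x ∈ range u
    · obtain ⟨p, rfl⟩ := h2
      exact hu p
    · by_cases h3 : x ∈ range v
      · obtain ⟨p, rfl⟩ := h3
        exact hv p
      · exact absurd (hX.2.2 x h2 h3) hx
  exact ⟨h.1, fun _ => mem_univ _, fun _ => mem_univ _,
    ((hGRP L M S F n univ).2.2.2.2.2.2 (Fin b) u v t h.1 hX (fun _ => mem_univ _)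
      fun _ => mem_univ _).1 h1⟩

end aux

theorem thm_PBL (hGRP : St_GRP) (hBLK : St_BLK) (hCNJ : St_CNJ) (hUTL : St_UTL)
    (hLVF : St_LVF) (hRDV : St_RDV) : St_PBL := by
  classical
  intro L M S F m A C hL hD P hPC
  obtain ⟨x, l, hxA, hPx, hpart⟩ := hD.pc P hPC
  refine ⟨l, ?_⟩
  set D : Set M := A ∪ ⋃₀ C with hDdef
  have lvf := fun z hz => hLVF L M S F m A hL z hz
  have lx := lvf x hxA
  have hsub : ∀ z n, Bl S F n univ z ⊆ Bi S F univ z := fun z n y hy => mem_iUnion.2 ⟨n, hy⟩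
  have blk := fun n X => hBLK L M S F n X
  have grp := fun n X => hGRP L M S F n X
  have hPC' : Bl S F l univ x ∈ C := hPx ▸ hPC
  -- elements of `P`
  have hyA : ∀ y ∈ P, y ∉ A := by
    intro y hy
    rw [hPx] at hy
    exact (lx.2.2.1 y (hsub _ _ hy)).1
  have hyB : ∀ y ∈ P, P = Bl S F l univ y := by
    intro y hy
    rw [hPx] at hy
    rw [hPx]
    exact ((blk l univ).2.2.1 x y (lx.1 l) hy).2.symm
  have hPD : P ⊆ D := fun y hy => Or.inr ⟨P, hPC, hy⟩
  -- the partners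
  have hexS : ∀ k, l ≤ k → ∃ σ : ℕ → Equiv.Perm M, PBL_S S F A C x l k σ := by
    intro k hk
    refine PBL_exS hGRP hBLK hLVF S F m A C hL hD x l k hxA hk hPC' ?_
    exact hpart k hk
  -- enumeration of `P`
  have hPg : Gs S F l univ P := by
    rw [hPx]
    exact ((blk l univ).2.1 x (lx.1 l)).1
  obtain ⟨b, w, hw, hr⟩ := PBL_enum P ((blk l univ).1 P hPg).1 ((blk l univ).1 P hPg).2.1
  have hr' : range w = Bl S F l univ x := hr.trans hPx
  -- exchanges in `D` as permutations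
  have hperm : ∀ k, l ≤ k → ∀ σ : ℕ → Equiv.Perm M, PBL_S S F A C x l k σ → ∀ i,
      ∃ t : Equiv.Perm M, Ph S F k D t ∧ (∀ y ∈ P, t y = σ i y) := by
    intro k hk σ hσ i
    by_cases hi : i = 0
    · refine ⟨1, (grp k D).1, fun y hy => ?_⟩
      rw [hi, hσ.z]
    · obtain ⟨t, ht, hX⟩ := PBL_perm hGRP S F k D _ _
        (PBL_exD hGRP hBLK hCNJ S F A C x l k hk (lx.1 k) σ hσ _ w hw hr' 0 i (Ne.symm hi))
      refine ⟨t, ht, fun y hy => ?_⟩
      rw [← hr] at hy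
      obtain ⟨p, rfl⟩ := hy
      have h1 := hX.1 p
      rw [hσ.z] at h1
      exact h1
  -- images of `P`
  have him : ∀ k, l ≤ k → ∀ σ : ℕ → Equiv.Perm M, PBL_S S F A C x l k σ → ∀ i, ∀ y ∈ P,
      σ i y ∈ Bl S F l univ (σ i x) := by
    intro k hk σ hσ i y hy
    rw [hσ.im i, ← hPx]
    exact mem_image_of_mem _ hy
  -- `P` is good in `D` at the levels `k ≥ l`
  have hgood : ∀ k, l ≤ k → Gs S F k D P := by
    intro k hk
    obtain ⟨σ, hσ⟩ := hexS k hk
    rw [← hr]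
    exact PBL_row S F k D σ hσ.z w fun i j hij =>
      PBL_exD hGRP hBLK hCNJ S F A C x l k hk (lx.1 k) σ hσ _ w hw hr' i j hij
  obtain ⟨σ, hσ⟩ := hexS l le_rfl
  -- the levels `n ≤ l`
  have hlow : ∀ n, n ≤ l → ∀ y ∈ P, Gs S F n D (Bl S F n univ y) ∧
      Bl S F n D y = Bl S F n univ y := by
    intro n hn y hy
    have hyG := lvf y (hyA y hy)
    have hBP : Bl S F n univ y ⊆ P := by
      intro z hz
      rw [hyB y hy]
      exact ((blk n univ).2.2.2.2.2.2 l y hn (hyG.1 l)).2 hz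
    have hyself : y ∈ Bl S F n univ y := ((blk n univ).2.1 y (hyG.1 n)).2
    have hphn : ∀ i, Ph S F n univ (σ i) := fun i => (grp l univ).2.2.2.1 n _ hn (hσ.ph i)
    have hPi : ∀ i, Bl S F l univ (σ i x) ⊆ D := fun i z hz => Or.inr ⟨_, hσ.inC i, hz⟩
    -- blocks of the elements of the partners
    have hbp : ∀ i, ∀ z ∈ Bl S F l univ (σ i x), Bl S F n univ z ⊆ Bl S F l univ (σ i x) := by
      intro i z hz
      have h1 : Gx S F l univ (σ i x) := ((blk l univ).2.2.2.2.1 (σ i) x (hσ.ph i) (lx.1 l)).1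
      obtain ⟨h2, h3⟩ := (blk l univ).2.2.1 (σ i x) z h1 hz
      rw [← h3]
      exact ((blk n univ).2.2.2.2.2.2 l z hn h2).2
    have h1 : Gs S F n D (Bl S F n univ y) := by
      have hg := ((blk n univ).2.1 y (hyG.1 n)).1
      obtain ⟨c, w', hw', hrw'⟩ := PBL_enum _ ((blk n univ).1 _ hg).1 ((blk n univ).1 _ hg).2.1
      rw [← hrw']
      refine PBL_row S F n D σ hσ.z w' fun i j hij => ?_
      have h2 := PBL_swij hGRP hBLK hCNJ S F n univ (σ i) (σ j) (hphn i) (hphn j) y (hyG.1 n) _ w'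
        hw' hrw' (fun h => hσ.dj j i (Ne.symm hij) _ (him l le_rfl σ hσ j y hy)
          (hbp i _ (him l le_rfl σ hσ i y hy) h))
      have h3 : ∀ i p, σ i (w' p) ∈ D := by
        intro i p
        refine hPi i (him l le_rfl σ hσ i _ (hBP ?_))
        rw [← hrw']
        exact mem_range_self p
      exact PBL_restr S F n D _ _ id Function.injective_id h2
        (fun z _ ⟨p, hp⟩ => ⟨p, hp.symm⟩) (fun z _ ⟨p, hp⟩ => ⟨p, hp.symm⟩) (h3 i) (h3 j)
    refine ⟨h1, ?_⟩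
    have hGx : Gx S F n D y := ⟨_, h1, hyself⟩
    have hQB : Bl S F n D y ⊆ Bl S F n univ y := fun z hz => hz _ h1 hyself
    refine Subset.antisymm hQB ?_
    obtain ⟨hQ, hyQ⟩ := (blk n D).2.1 y hGx
    obtain ⟨c, w'', hw'', hrw''⟩ := PBL_enum _ ((blk n D).1 _ hQ).1 ((blk n D).1 _ hQ).2.1
    have hQP : Bl S F n D y ⊆ P := hQB.trans hBP
    choose t ht1 ht2 using hperm l le_rfl σ hσ
    have hwP : ∀ p, w'' p ∈ P := fun p => hQP (hrw'' ▸ mem_range_self p)
    have h2 : Gs S F n univ (Bl S F n D y) := by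
      rw [← hrw'']
      refine PBL_row S F n univ σ hσ.z w'' fun i j hij => ?_
      have htn : ∀ i, Ph S F n D (t i) := fun i => (grp l D).2.2.2.1 n _ hn (ht1 i)
      have h3 := PBL_swij hGRP hBLK hCNJ S F n D (t i) (t j) (htn i) (htn j) y hGx _ w''
        hw'' hrw'' (fun h => by
          rw [((blk n D).2.2.2.2.1 (t i) y (htn i) hGx).2] at h
          obtain ⟨z, hz, hzy⟩ := h
          rw [ht2 i z (hQP hz), ht2 j y hy] at hzy
          have h4 := him l le_rfl σ hσ i z (hQP hz)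
          rw [hzy] at h4
          exact hσ.dj j i (Ne.symm hij) _ (him l le_rfl σ hσ j y hy) h4)
      have h5 : ∀ i, (fun p => t i (w'' p)) = fun p => σ i (w'' p) := by
        intro i
        funext p
        exact ht2 i _ (hwP p)
      rw [h5 i, h5 j] at h3
      have h6 : ∀ i p, Bl S F n univ (σ i (w'' p)) ⊆ D := fun i p =>
        (hbp i _ (him l le_rfl σ hσ i _ (hwP p))).trans (hPi i)
      exact PBL_up hGRP hRDV S F m A C hL hD n _ _ h3 (h6 i) (h6 j)
    exact fun z hz => hz _ h2 hyQ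
  intro y hy
  have hyG := lvf y (hyA y hy)
  -- goodness in `D`
  have hGxD : ∀ n, Gx S F n D y := by
    intro n
    have h1 : Gx S F (max n l) D y := ⟨P, hgood _ (le_max_right _ _), hy⟩
    exact ((blk n D).2.2.2.2.2.2 (max n l) y (le_max_left _ _) h1).1
  have hhigh : ∀ n, l ≤ n → Bl S F n D y = P := by
    intro n hn
    apply Subset.antisymm
    · exact fun z hz => hz _ (hgood n hn) hy
    · have h1 := ((blk l D).2.2.2.2.2.2 n y hn (hGxD n)).2
      rw [(hlow l le_rfl y hy).2, ← hyB y hy] at h1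
      exact h1
  have hall : ∀ n, Bl S F n D y ⊆ P := by
    intro n
    rcases le_total n l with hn | hn
    · rw [(hlow n hn y hy).2]
      intro z hz
      rw [hyB y hy]
      exact ((blk n univ).2.2.2.2.2.2 l y hn (hyG.1 l)).2 hz
    · rw [hhigh n hn]
  refine ⟨hyA y hy, hyB y hy, hGxD, fun n hn => (hlow n hn y hy).2, hhigh, hall, ?_, ?_, ?_⟩
  · apply Subset.antisymm
    · exact iUnion_subset hall
    · intro z hz
      refine mem_iUnion.2 ⟨l, ?_⟩
      rw [hhigh l le_rfl]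
      exact hz
  · intro n
    rcases le_total n l with hn | hn
    · rw [(hlow n hn y hy).2]
      exact hyG.2.1 n
    · rw [hhigh n hn, hyB y hy]
      refine (hyG.2.1 l).trans ?_
      exact_mod_cast hL.mm hn
  · intro n
    obtain ⟨ρ, hρ⟩ := hexS (max n l) (le_max_right _ _)
    have hinj : Function.Injective fun i => Bl S F l univ (ρ i x) := by
      intro i j hij
      by_contra hne
      have h1 := him _ (le_max_right n l) ρ hρ i y hy
      have h2 := hρ.dj i j hne _ h1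
      have h3 : Bl S F l univ (ρ i x) = Bl S F l univ (ρ j x) := hij
      rw [h3] at h1
      exact h2 h1
    refine (infinite_range_of_injective hinj).mono ?_
    rintro _ ⟨i, rfl⟩
    refine ⟨hρ.inC i, ρ i y, him _ (le_max_right n l) ρ hρ i y hy, ?_⟩
    obtain ⟨t, ht, ht2⟩ := hperm _ (le_max_right n l) ρ hρ i
    exact ⟨t, (grp _ D).2.2.2.1 n _ (le_max_left _ _) ht, ht2 y hy⟩

end HEI
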