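import Pool.Agent.HEI.StA
import Pool.Agent.HERN.TE

/-!
HEI, RDV: permutations of `D` with support in full blocks (helper16).
-/

set_option autoImplicit false

namespace HEI

open Set Pool.Agent.Helper5.DU Pool.Agent.Helper6.Str Pool.Agent.Helper79.VC
  Pool.Agent.Helper97.LO Pool.Agent.Helper97.VC HER HERN

theorem thm_RDV (hB : St_BLK) (hL : St_LVF) (hM : St_MOV) : St_RDV := by
  intro L M S F m A C n σ hv hpd hph hsup
  obtain ⟨hfin, hD, hTE⟩ := hph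
  refine ⟨hfin, fun x _ => mem_univ x, ?_⟩
  intro q hq hn
  have hqf : q.Finite := finite_of_encard_le_coe hn
  have hz : (Prod.fst '' q).Finite := hqf.image _
  have hside : ∀ x ∈ Prod.fst '' q, x ∉ {x | σ x ≠ x} → x ∉ A →
      ¬ Bl S F n univ x ⊆ A ∪ ⋃₀ C → Disjoint (Bl S F n univ x) {x | σ x ≠ x} := by
    intro x _ _ hxA hxD
    rw [Set.disjoint_left]
    intro w hw hwK
    obtain ⟨l1, -, l3, -⟩ := hL L M S F m A hv x hxA
    have hwBi : w ∈ Bi S F univ x := mem_iUnion.2 ⟨n, hw⟩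
    have hwA : w ∉ A := (l3 w hwBi).1
    obtain ⟨-, -, b3, -⟩ := hB L M S F n univ
    have hbw : Bl S F n univ w = Bl S F n univ x := (b3 x w (l1 n) hw).2
    rcases hsup w hwK with h | h
    · exact hwA h
    · rw [hbw] at h
      exact hxD h
  obtain ⟨e, he1, he2, he3⟩ := hM L M S F m A C n (Prod.fst '' q) {x | σ x ≠ x} hv hpd hz hfin hside
  have hσσ : ∀ x, σ x ≠ x → σ (σ x) ≠ σ x := fun x hx h => hx (σ.injective h)
  have h1 : TE S F n {a : M × M | a.1 ∈ Prod.fst '' q ∧ a.2 = σ (e a.1)} := by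
    refine he3.comp hTE fun a ha => ⟨e a.1, ⟨Or.inl ha.1, rfl⟩, ?_, ha.2⟩
    by_cases hk : σ a.1 ≠ a.1
    · have h2 := he1 a.1 hk
      show e a.1 ∈ A ∪ ⋃₀ C
      rw [h2]
      exact hD a.1 hk
    · exact (he2 a.1 ha.1 hk).1
  have h3 : TE S F n q := by
    refine h1.comp he3.symm fun a ha => ⟨σ (e a.1), ⟨⟨a, ha, rfl⟩, rfl⟩, ?_⟩
    have hqa : a.2 = σ a.1 := (hq ha).2
    show a.2 ∈ Prod.fst '' q ∪ {x | σ x ≠ x} ∧ σ (e a.1) = e a.2
    rw [hqa]
    by_cases hk : σ a.1 ≠ a.1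
    · refine ⟨Or.inr (hσσ _ hk), ?_⟩
      rw [he1 a.1 hk, he1 (σ a.1) (hσσ _ hk)]
    · have h4 := (he2 a.1 ⟨a, ha, rfl⟩ hk).2
      have h5 : σ (e a.1) = e a.1 := by
        by_contra h6
        exact h4 h6
      have h7 : σ a.1 = a.1 := not_not.1 hk
      rw [h5, h7]
      exact ⟨Or.inl ⟨a, ha, rfl⟩, rfl⟩
  exact h3.atEq hn

end HEI
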