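import Pool.Agent.HEI.StA

/-!
HEI, REC: dovetailing (helper16).
-/

set_option autoImplicit false

namespace HEI

open Set

theorem REC_ex {X K : Type} (key : X → K) (R : ℕ → (ℕ → X) → Set X)
    (hR : ∀ i p, (key '' R i p).Infinite) (i : ℕ) (p : ℕ → X) :
    ∃ y, y ∈ R i p ∧ ∀ j, j < i → key y ≠ key (p j) := by
  have h1 : {z | ∃ j, j < i ∧ z = key (p j)}.Finite := by
    have : {z | ∃ j, j < i ∧ z = key (p j)} ⊆ (fun j => key (p j)) '' Set.Iio i := by
      rintro z ⟨j, hj, rfl⟩
      exact ⟨j, hj, rfl⟩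
    exact ((Set.finite_Iio i).image _).subset this
  obtain ⟨z, hz, hz'⟩ := ((hR i p).sdiff h1).nonempty
  obtain ⟨y, hy, rfl⟩ := hz
  refine ⟨y, hy, fun j hj h => hz' ⟨j, hj, h⟩⟩

theorem REC_seq {X K : Type} (x0 : X) (key : X → K) (R : ℕ → (ℕ → X) → Set X)
    (hR : ∀ i p, (key '' R i p).Infinite)
    (hext : ∀ i p q, (∀ j, j < i → p j = q j) → R i p = R i q) :
    ∃ a : ℕ → X, (∀ i, a i ∈ R i a) ∧ ∀ i j, j < i → key (a i) ≠ key (a j) := by
  choose f hf1 hf2 using REC_ex key R hR
  let s : ℕ → (ℕ → X) := fun i => Nat.rec (fun _ => x0) (fun i p => Function.update p i (f i p)) i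
  have hs : ∀ i, s (i + 1) = Function.update (s i) i (f i (s i)) := fun i => rfl
  have h1 : ∀ j k, s (j + 1 + k) j = s (j + 1) j := by
    intro j k
    induction k with
    | zero => rfl
    | succ k ih =>
      rw [← add_assoc, hs, Function.update_of_ne (by omega), ih]
  have h2 : ∀ i j, j < i → s i j = s (j + 1) j := by
    intro i j hij
    obtain ⟨k, rfl⟩ : ∃ k, i = j + 1 + k := ⟨i - (j + 1), by omega⟩
    exact h1 j k
  have h3 : ∀ i, s (i + 1) i = f i (s i) := by
    intro i
    rw [hs, Function.update_self]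
  refine ⟨fun i => s (i + 1) i, fun i => ?_, fun i j hij => ?_⟩
  · have e1 : R i (fun i => s (i + 1) i) = R i (s i) := hext i _ _ fun j hj => (h2 i j hj).symm
    rw [e1]
    show s (i + 1) i ∈ R i (s i)
    rw [h3]
    exact hf1 i (s i)
  · show key (s (i + 1) i) ≠ key (s (j + 1) j)
    rw [h3 i, ← h2 i j hij]
    exact hf2 i (s i) j hij

theorem thm_REC : St_REC := by
  classical
  intro X K key T U hT hU
  obtain ⟨z, x0, -, -⟩ := (hU 0).nonempty
  let R : ℕ → (ℕ → X) → Set X := fun i p =>
    if 0 < (Nat.unpair (Nat.unpair i).2).1 ∧ (Nat.unpair (Nat.unpair i).2).1 - 1 < i then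
      T (Nat.unpair (Nat.unpair i).2).2 (p ((Nat.unpair (Nat.unpair i).2).1 - 1))
    else U (Nat.unpair (Nat.unpair i).2).2
  have hR : ∀ i p, (key '' R i p).Infinite := by
    intro i p
    dsimp only [R]
    split_ifs
    · exact hT _ _
    · exact hU _
  have hext : ∀ i p q, (∀ j, j < i → p j = q j) → R i p = R i q := by
    intro i p q h
    dsimp only [R]
    split_ifs with hc
    · rw [h _ hc.2]
    · rfl
  obtain ⟨a, ha, hkey⟩ := REC_seq x0 key R hR hext
  have hinj : ∀ i j, key (a i) = key (a j) → i = j := by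
    intro i j h
    rcases lt_trichotomy i j with h1 | h1 | h1
    · exact absurd h.symm (hkey j i h1)
    · exact h1
    · exact absurd h (hkey i j h1)
  refine ⟨range a, countable_range a, ?_, ?_, ?_⟩
  · rintro _ ⟨i, rfl⟩ _ ⟨j, rfl⟩ h
    rw [hinj i j h]
  · rintro _ ⟨j, rfl⟩ n
    apply Set.infinite_of_injective_forall_mem
      (f := fun c => a (Nat.pair c (Nat.pair (j + 1) n)))
    · intro c c' h
      have h2 := hinj _ _ (congrArg key h)
      rw [Nat.pair_eq_pair] at h2
      exact h2.1
    · intro c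
      refine ⟨⟨_, rfl⟩, ?_⟩
      have h1 := ha (Nat.pair c (Nat.pair (j + 1) n))
      dsimp only [R] at h1
      simp only [Nat.unpair_pair] at h1
      rw [if_pos] at h1
      · simpa using h1
      · have h3 := Nat.right_le_pair c (Nat.pair (j + 1) n)
        have h4 := Nat.left_le_pair (j + 1) n
        refine ⟨by omega, by omega⟩
  · intro r
    apply Set.infinite_of_injective_forall_mem
      (f := fun c => a (Nat.pair c (Nat.pair 0 r)))
    · intro c c' h
      have h2 := hinj _ _ (congrArg key h)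
      rw [Nat.pair_eq_pair] at h2
      exact h2.1
    · intro c
      refine ⟨⟨_, rfl⟩, ?_⟩
      have h1 := ha (Nat.pair c (Nat.pair 0 r))
      dsimp only [R] at h1
      simp only [Nat.unpair_pair] at h1
      rw [if_neg] at h1
      · exact h1
      · rintro ⟨h3, -⟩
        omega

end HEI
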