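import Pool.Agent.HEI.StA

/-!
# HEI: the structure of the `n`-types (module RED, helper34)
-/

set_option autoImplicit false
set_option linter.unusedVariables false
set_option linter.unusedSectionVars false

namespace HEI

open Set Pool.Agent.Helper5.DU Pool.Agent.Helper6.Str Pool.Agent.Helper79.VC
  Pool.Agent.Helper97.LO Pool.Agent.Helper97.VC HER HERN

variable {L : FirstOrder.Language.{0, 0}} {M N P : Type}

/-- the language of the `n`-types over `F` -/
def RED_L (L : FirstOrder.Language.{0, 0}) {M : Type} (F : Set M) (n : ℕ) :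
    FirstOrder.Language.{0, 0} where
  Functions := fun _ => Empty
  Relations := fun k => {_r : (Σ k', L.Relations k' × (Fin k' → F ⊕ Fin k)) // k ≤ n}

/-- the structure of the `n`-types, `c` interprets the elements of `F` -/
@[instance_reducible]
def RED_S (F : Set M) (n : ℕ) (T : L.Structure N) (c : F → N) : (RED_L L F n).Structure N where
  funMap := fun f => Empty.elim f
  RelMap := fun {k} r x => T.RelMap r.1.2.1 (fun i => Sum.elim c x (r.1.2.2 i))

theorem RED_atEq {F : Set M} {n : ℕ} {T : L.Structure N} {T2 : L.Structure P} {c : F → N}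
    {c2 : F → P} {Γ : Set (N × P)} (hc : ∀ a, (c a, c2 a) ∈ Γ) (h : AtEq T T2 Γ) :
    AtEq (RED_S F n T c) (RED_S F n T2 c2) Γ := by
  refine ⟨h.1, fun k r v hv => ?_⟩
  have h1 := h.2 r.1.1 r.1.2.1 (fun i => Sum.elim (fun a => (c a, c2 a)) v (r.1.2.2 i))
    (fun i => by
      rcases r.1.2.2 i with a | j
      · exact hc a
      · exact hv j)
  have e1 : (fun i => (Sum.elim (fun a => (c a, c2 a)) v (r.1.2.2 i)).1) =
      fun i => Sum.elim c (fun j => (v j).1) (r.1.2.2 i) := by
    funext i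
    rcases r.1.2.2 i with a | j <;> rfl
  have e2 : (fun i => (Sum.elim (fun a => (c a, c2 a)) v (r.1.2.2 i)).2) =
      fun i => Sum.elim c2 (fun j => (v j).2) (r.1.2.2 i) := by
    funext i
    rcases r.1.2.2 i with a | j <;> rfl
  rw [e1, e2] at h1
  exact h1

theorem RED_bfr {F : Set M} {n : ℕ} {T : L.Structure N} {T2 : L.Structure P} {c : F → N}
    {c2 : F → P} {X : Set N} {Y : Set P} (γ : Ordinal.{0}) :
    ∀ {Γ : Set (N × P)}, (∀ a, (c a, c2 a) ∈ Γ) → BFR T T2 X Y γ Γ →
      BFR (RED_S F n T c) (RED_S F n T2 c2) X Y γ Γ := by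
  induction γ using WellFoundedLT.induction with
  | _ γ ih =>
    intro Γ hc h
    rw [BFR.def] at h ⊢
    refine ⟨RED_atEq hc h.1, fun β hβ => ⟨fun x hx => ?_, fun y hy => ?_⟩⟩
    · obtain ⟨y, hy, h1⟩ := (h.2 β hβ).1 x hx
      exact ⟨y, hy, ih β hβ (fun a => mem_insert_of_mem _ (hc a)) h1⟩
    · obtain ⟨x, hx, h1⟩ := (h.2 β hβ).2 y hy
      exact ⟨x, hx, ih β hβ (fun a => mem_insert_of_mem _ (hc a)) h1⟩

theorem RED_pig {F : Set M} {n : ℕ} {T : L.Structure N} {c : F → N} {F1 F2 : Set N}
    (h : Pig T F1) (h1 : F1 ⊆ F2) (h2 : ∀ a, c a ∈ F2) : Pig (RED_S F n T c) F2 := by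
  intro X G γ hG hF hγ hX
  obtain ⟨f, g, hfg, h3⟩ := h X G γ hG (h1.trans hF) hγ hX
  exact ⟨f, g, hfg, RED_bfr γ (fun a => ⟨c a, hF (h2 a), rfl⟩) h3⟩

theorem RED_iff (S : L.Structure M) (F : Set M) (n : ℕ) (hn : 2 ≤ n) (p : Set (M × M)) :
    AtEq (RED_S F n S Subtype.val) (RED_S F n S Subtype.val) (dg F ∪ p) ↔ TE S F n p := by
  constructor
  · intro h q hq hqn
    have hfin : q.Finite := by
      rw [← encard_lt_top_iff]
      exact hqn.trans_lt (by exact_mod_cast WithTop.coe_lt_top n)
    refine ⟨fun a ha b hb => h.1 a (union_subset_union_right _ hq ha) b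
      (union_subset_union_right _ hq hb), fun k' R v hv => ?_⟩
    have := hfin.fintype
    have hcard : Fintype.card q ≤ n := by
      rw [← coe_fintypeCard] at hqn
      exact_mod_cast hqn
    obtain ⟨e⟩ : Nonempty (Fin (Fintype.card q) ≃ q) := ⟨(Fintype.equivFin q).symm⟩
    classical
    have hπ : ∀ i, ∃ t : F ⊕ Fin (Fintype.card q),
        Sum.elim (fun a : F => ((a : M), (a : M))) (fun j => ((e j : q) : M × M)) t = v i := by
      intro i
      rcases hv i with ⟨x, hx, hx'⟩ | h1
      · exact ⟨Sum.inl ⟨x, hx⟩, hx'⟩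
      · exact ⟨Sum.inr (e.symm ⟨v i, h1⟩), by simp⟩
    choose π hπ using hπ
    have h1 := h.2 (Fintype.card q) ⟨⟨k', R, π⟩, hcard⟩ (fun j => ((e j : q) : M × M))
      (fun j => Or.inr (hq (e j).2))
    have e1 : (fun i => (v i).1) =
        fun i => Sum.elim (Subtype.val : F → M) (fun j => ((e j : q) : M × M).1) (π i) := by
      funext i
      rw [← hπ i]
      rcases π i with a | j <;> rfl
    have e2 : (fun i => (v i).2) =
        fun i => Sum.elim (Subtype.val : F → M) (fun j => ((e j : q) : M × M).2) (π i) := by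
      funext i
      rw [← hπ i]
      rcases π i with a | j <;> rfl
    rw [e1, e2]
    exact h1
  · intro h
    refine ⟨fun a ha b hb => ?_, fun k r v hv => ?_⟩
    · have h1 := h ({a, b} ∩ p) inter_subset_right (by
        refine (encard_le_encard inter_subset_left).trans ((encard_insert_le _ _).trans ?_)
        rw [encard_singleton]
        exact_mod_cast hn)
      refine h1.1 a ?_ b ?_
      · rcases ha with ha | ha
        · exact Or.inl ha
        · exact Or.inr ⟨Or.inl rfl, ha⟩
      · rcases hb with hb | hb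
        · exact Or.inl hb
        · exact Or.inr ⟨Or.inr rfl, hb⟩
    · have h1 := h (range v ∩ p) inter_subset_right (by
        refine (encard_le_encard inter_subset_left).trans ?_
        rw [← image_univ]
        refine (encard_image_le _ _).trans ?_
        rw [encard_univ, ENat.card_eq_coe_fintype_card, Fintype.card_fin]
        exact_mod_cast r.2)
      have h2 : AtEq (RED_S F n S Subtype.val) (RED_S F n S Subtype.val)
          (dg F ∪ (range v ∩ p)) := RED_atEq (fun a => Or.inl ⟨a, a.2, rfl⟩) h1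
      refine h2.2 k r v fun i => ?_
      rcases hv i with h3 | h3
      · exact Or.inl h3
      · exact Or.inr ⟨mem_range_self i, h3⟩

theorem RED_vq {S : L.Structure M} {F : Set M} (hF : F.Finite) (n : ℕ) (h : VQp S) :
    VQp (RED_S F n S Subtype.val) := by
  intro β _ m W g hW
  have := hF.fintype
  obtain ⟨e⟩ : Nonempty (Fin (Fintype.card F) ≃ F) := ⟨(Fintype.equivFin F).symm⟩
  obtain ⟨N, T, F1, g2, u, hF1, hP, hu⟩ := h β (m + Fintype.card F) W
    (Fin.append g (fun i => (e i : M))) hW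
  refine ⟨N, RED_S F n T (fun a => g2 (Fin.natAdd m (e.symm a))),
    F1 ∪ range (fun a : F => g2 (Fin.natAdd m (e.symm a))), fun i => g2 (Fin.castAdd _ i), u,
    hF1.union (finite_range _), RED_pig hP subset_union_left
      (fun a => Or.inr (mem_range_self a)), fun s q hq => ?_⟩
  obtain ⟨a, ha, h1⟩ := hu s q hq
  refine ⟨a, ha, ?_⟩
  have h2 : AtEq (RED_S F n S Subtype.val) (RED_S F n T (fun a => g2 (Fin.natAdd m (e.symm a))))
      (prs (Fin.append g (fun i => (e i : M))) g2 ∪ ⋃ j, prs (W (a j)) (u (q j))) := by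
    refine RED_atEq (fun x => Or.inl ⟨Fin.natAdd m (e.symm x), ?_⟩) h1
    simp
  refine h2.anti (union_subset_union_left _ ?_)
  rintro _ ⟨i, rfl⟩
  refine ⟨Fin.castAdd _ i, ?_⟩
  simp

theorem thm_RED (h1 : HERN.St_FTN) (h2 : HERN.St_ROWS) (h3 : HERN.St_ORDB)
    (h4 : HERN.St_SYM) : St_RED := by
  intro L M S F n hn h
  have hinf : Infinite M := by
    by_contra hc
    rw [not_infinite_iff_finite] at hc
    exact h.unc (Set.to_countable _)
  have hpig : Pig (RED_S F n S Subtype.val) F :=
    RED_pig h.pig subset_rfl (fun a => a.2)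
  have hvq : VQp (RED_S F n S Subtype.val) := RED_vq h.fin n h.vq
  refine ⟨RED_L L F n, RED_S F n S Subtype.val, fun k hk => ⟨fun r => absurd r.2 (by omega)⟩,
    ⟨h.fin, h.unc, hpig, hvq, fun G hG hFG => ?_, h2 _ _ _ _ h.fin hpig, h3 _ _ _ _ h.fin hpig,
      h4 _ _ _ _ hvq⟩, RED_iff S F n hn⟩
  refine h1 _ _ _ _ hG hinf ?_
  intro X G' γ hG' hF' hγ hX
  exact hpig X G' γ hG' (hFG.trans hF') hγ hX

end HEI
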