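import Pool.Agent.HEI.StA

/-!
# HEI [RXC]: the relation `Rx` for conjugate elements (helper44)
-/

set_option autoImplicit false
set_option linter.unusedVariables false

namespace HEI

open Set Pool.Agent.Helper5.DU Pool.Agent.Helper6.Str Pool.Agent.Helper79.VC
  Pool.Agent.Helper97.LO Pool.Agent.Helper97.VC HER HERN

variable {L : FirstOrder.Language.{0, 0}} {M : Type} {S : L.Structure M} {F : Set M}

/-- transport of the target by a permutation which fixes the block of `x` -/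
theorem RXC_T (hU : St_UTL) {n : ℕ} {x : M} {P : Set M} {τ : Equiv.Perm M}
    (hτ : Ph S F n univ τ) (hfix : ∀ w ∈ Bl S F n univ x, τ w = w) (h : Rx S F n x P) :
    Rx S F n x (τ '' P) := by
  obtain ⟨k, u, v, hu, hv, hsw⟩ := h
  have h1 := (hU L M S F n univ).1 k u v (P \ range v) τ hτ hsw
  refine ⟨k, u, fun i => τ (v i), hu, ?_, ?_⟩
  · rintro _ ⟨i, rfl⟩
    exact mem_image_of_mem τ (hv (mem_range_self i))
  · have h2 : (fun i => τ (u i)) = u := funext fun i => hfix _ (hu ▸ mem_range_self i)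
    have h3 : τ '' (P \ range v) = τ '' P \ range (fun i => τ (v i)) := by
      rw [image_sdiff τ.injective, ← range_comp]
      rfl
    rw [h2, h3] at h1
    exact h1

/-- transport of the source by a permutation which fixes the target -/
theorem RXC_S (hB : St_BLK) (hU : St_UTL) {n : ℕ} {x : M} {P : Set M} {σ : Equiv.Perm M}
    (hσ : Ph S F n univ σ) (hx : Gx S F n univ x) (hfix : ∀ w ∈ P, σ w = w)
    (h : Rx S F n x P) : Rx S F n (σ x) P := by
  obtain ⟨k, u, v, hu, hv, hsw⟩ := h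
  have h1 := (hU L M S F n univ).1 k u v (P \ range v) σ hσ hsw
  have hb := ((hB L M S F n univ).2.2.2.2.1 σ x hσ hx).2
  refine ⟨k, fun i => σ (u i), v, ?_, hv, ?_⟩
  · rw [hb, ← hu, ← range_comp]
    rfl
  · have h2 : (fun i => σ (v i)) = v := funext fun i => hfix _ (hv (mem_range_self i))
    have h3 : σ '' (P \ range v) = P \ range v := by
      ext w
      constructor
      · rintro ⟨z, hz, rfl⟩
        rw [hfix z hz.1]
        exact hz
      · intro hw
        exact ⟨w, hw, hfix w hw.1⟩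
    rw [h2, h3] at h1
    exact h1

theorem RXC_Cj_symm (hG : St_GRP) {n : ℕ} {x y : M} (h : Cj S F n univ x y) :
    Cj S F n univ y x := by
  obtain ⟨σ, hσ, rfl⟩ := h
  exact ⟨σ⁻¹, (hG L M S F n univ).2.2.1 σ hσ, by simp⟩

theorem RXC_Cj_trans (hG : St_GRP) {n : ℕ} {x y z : M} (h : Cj S F n univ x y)
    (h' : Cj S F n univ y z) : Cj S F n univ x z := by
  obtain ⟨σ, hσ, rfl⟩ := h
  obtain ⟨τ, hτ, rfl⟩ := h'
  exact ⟨τ * σ, (hG L M S F n univ).2.1 τ σ hτ hσ, by simp⟩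

/-- an infinite set of blocks has a member disjoint from a given finite set -/
theorem RXC_off (hB : St_BLK) {n : ℕ} {K : Set (Set M)} {E : Set M} (hE : E.Finite)
    (hK : ∀ C ∈ K, ∃ z, Gx S F n univ z ∧ C = Bl S F n univ z) (hi : K.Infinite) :
    ∃ C ∈ K, Disjoint C E := by
  by_contra hcon
  push Not at hcon
  refine hi ((hE.image (fun e => Bl S F n univ e)).subset ?_)
  intro C hC
  obtain ⟨z, hz, rfl⟩ := hK C hC
  have h1 := hcon _ hC
  rw [not_disjoint_iff] at h1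
  obtain ⟨e, he1, he2⟩ := h1
  exact ⟨e, he2, ((hB L M S F n univ).2.2.1 z e hz he1).2⟩

theorem RXC_fin (hB : St_BLK) {n : ℕ} {x : M} (hx : Gx S F n univ x) :
    (Bl S F n univ x).Finite :=
  ((hB L M S F n univ).1 _ ((hB L M S F n univ).2.1 x hx).1).1

theorem thm_RXC (hG : St_GRP) (hB : St_BLK) (hU : St_UTL) (hF : St_LVF) : St_RXC := by
  intro L M S F m A n hL
  have key1 : ∀ x x', x ∉ A → Cj S F n univ x x' → ∃ E : Set M, E.Finite ∧ ∀ P, Disjoint P E →
      Rx S F n x P → Rx S F n x' P := by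
    rintro x _ hx ⟨σ, hσ, rfl⟩
    refine ⟨{w | σ w ≠ w}, hσ.1, fun P hP h => ?_⟩
    refine RXC_S hB hU hσ ((hF L M S F m A hL x hx).1 n) ?_ h
    intro w hw
    by_contra hne
    exact disjoint_left.mp hP hw hne
  refine ⟨key1, ?_, ?_⟩
  · intro x x' hx hxx' hRa
    obtain ⟨m', y, hnm, hyA, hgy, hrx, hinf⟩ := hRa
    obtain ⟨E, hE, hE1⟩ := key1 x x' hx hxx'
    have hgx := (hF L M S F m A hL x hx).1 n
    -- a block disjoint from `E`
    obtain ⟨C, ⟨z, hzA, hyz, rfl⟩, hdis⟩ := RXC_off (S := S) (F := F) (n := m') hB hE (by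
      rintro C ⟨z, hzA, ⟨σ, hσ, rfl⟩, rfl⟩
      exact ⟨σ y, ((hB L M S F m' univ).2.2.2.2.1 σ y hσ hgy).1, rfl⟩) hinf
    have hgz : Gx S F m' univ z := by
      obtain ⟨σ, hσ, rfl⟩ := hyz
      exact ((hB L M S F m' univ).2.2.2.2.1 σ y hσ hgy).1
    -- the block of `x` is disjoint from `A`
    have hBA : ∀ w ∈ Bl S F n univ x, w ∉ A := by
      intro w hw hwA
      have h1 := (hB L M S F n univ).2.2.1 x w hgx hw
      refine hx (hL.cl.bl n w x hwA h1.1 ?_)
      rw [h1.2]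
      exact ((hB L M S F n univ).2.1 x hgx).2
    have hyd : Disjoint (Bl S F n univ x) (Bl S F m' univ y) :=
      disjoint_left.mpr fun w hw hw' => hBA w hw (hL.cl.bl m' y w hyA hgy hw')
    have hzd : Disjoint (Bl S F n univ x) (Bl S F m' univ z) :=
      disjoint_left.mpr fun w hw hw' => hBA w hw (hL.cl.bl m' z w hzA hgz hw')
    refine ⟨m', z, hnm, hzA, hgz, hE1 _ hdis ?_, ?_⟩
    · obtain ⟨σ, hσ, rfl⟩ := hyz
      obtain ⟨τ, hτ, hτ1, hτ2⟩ := (hU L M S F m' univ).2.2.2.1 y σ (Bl S F n univ x) hgy hσ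
        (RXC_fin hB hgx) hyd hzd
      have h1 := RXC_T hU ((hG L M S F m' univ).2.2.2.1 n τ hnm hτ) hτ2 hrx
      have h2 := ((hB L M S F m' univ).2.2.2.2.1 τ y hτ hgy).2
      rw [hτ1 y ((hB L M S F m' univ).2.1 y hgy).2] at h2
      rw [h2]
      exact h1
    · refine hinf.mono ?_
      rintro C ⟨w, hwA, hyw, rfl⟩
      exact ⟨w, hwA, RXC_Cj_trans hG (RXC_Cj_symm hG hyz) hyw, rfl⟩
  · rintro x y _ l k hx hy hy' hnk hlk ⟨σ, hσ, rfl⟩ hxy hxy' hrx
    have hgx := (hF L M S F m A hL x hx).1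
    have hgy := (hF L M S F m A hL y hy).1
    have hBi : ∀ z, z ∉ A → Bi S F univ x ≠ Bi S F univ z →
        Disjoint (Bl S F n univ x) (Bl S F k univ z) := by
      intro z hz hne
      refine disjoint_left.mpr fun w hw hw' => hne ?_
      have h1 := ((hF L M S F m A hL x hx).2.2.1 w (mem_iUnion.mpr ⟨n, hw⟩)).2
      have h2 := ((hF L M S F m A hL z hz).2.2.1 w (mem_iUnion.mpr ⟨k, hw'⟩)).2
      rw [← h1, h2]
    obtain ⟨τ, hτ, hτ1, hτ2⟩ := (hU L M S F k univ).2.2.2.1 y σ (Bl S F n univ x) (hgy k) hσ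
      (RXC_fin hB (hgx n)) (hBi y hy hxy) (hBi _ hy' hxy')
    have h1 := RXC_T hU ((hG L M S F k univ).2.2.2.1 n τ hnk hτ) hτ2 hrx
    have h2 := ((hB L M S F l univ).2.2.2.2.1 τ y ((hG L M S F k univ).2.2.2.1 l τ hlk hτ)
      (hgy l)).2
    rw [hτ1 y ((hB L M S F k univ).2.1 y (hgy k)).2] at h2
    rw [h2]
    exact h1

end HEI
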