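import Pool.Agent.HEI.StA

/-!
# HEI: sizes of the `∞`-blocks of elements of `A` (module TYI, helper34)
-/

set_option autoImplicit false
set_option linter.unusedVariables false
set_option linter.unusedSectionVars false

namespace HEI

open Set Pool.Agent.Helper5.DU Pool.Agent.Helper6.Str Pool.Agent.Helper79.VC
  Pool.Agent.Helper97.LO Pool.Agent.Helper97.VC HER HERN

variable {L : FirstOrder.Language.{0, 0}} {M : Type}

theorem TYI_cj_trans (hG : St_GRP) {S : L.Structure M} {F X : Set M} {n : ℕ} {x y z : M}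
    (h : Cj S F n X x y) (h' : Cj S F n X y z) : Cj S F n X x z := by
  obtain ⟨σ, hσ, rfl⟩ := h
  obtain ⟨τ, hτ, rfl⟩ := h'
  exact ⟨τ * σ, (hG L M S F n X).2.1 τ σ hτ hσ, rfl⟩

theorem TYI_cj_le (hG : St_GRP) {S : L.Structure M} {F X : Set M} {n k : ℕ} {x y : M}
    (hk : k ≤ n) (h : Cj S F n X x y) : Cj S F k X x y := by
  obtain ⟨σ, hσ, rfl⟩ := h
  exact ⟨σ, (hG L M S F n X).2.2.2.1 k σ hk hσ, rfl⟩

theorem thm_TYI (hG : St_GRP) (hB : St_BLK) (hC : St_CNJ) (hU : St_UTL) (hL : St_LVF)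
    (hR : St_RDV) (hP : St_PBL) : St_TYI := by
  intro L M S F m A C x hA hPD hxA hT1 hfin
  by_contra hcon
  push Not at hcon
  obtain ⟨D, hD⟩ : ∃ D : Set M, D = A ∪ ⋃₀ C := ⟨_, rfl⟩
  rw [← hD] at hT1 hfin hcon
  obtain ⟨w, hw⟩ : ∃ w : Set M, w = Bi S F D x := ⟨_, rfl⟩
  rw [← hw] at hfin hcon
  have hmono : ∀ n k, n ≤ k → Bl S F n D x ⊆ Bl S F k D x := fun n k h =>
    ((hB L M S F n D).2.2.2.2.2.2 k x h (hT1 k).1).2
  -- the level from which the block is constant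
  obtain ⟨n1, hn1⟩ : ∃ n1, ∀ n, n1 ≤ n → Bl S F n D x = w := by
    have h1 : ∀ y : M, ∃ k, y ∈ w → y ∈ Bl S F k D x := by
      intro y
      by_cases hy : y ∈ w
      · rw [hw] at hy
        obtain ⟨k, hk⟩ := mem_iUnion.1 hy
        exact ⟨k, fun _ => hk⟩
      · exact ⟨0, fun h => absurd h hy⟩
    choose k hk using h1
    refine ⟨hfin.toFinset.sup k, fun n hn => Subset.antisymm ?_ fun y hy => ?_⟩
    · rw [hw]
      exact subset_iUnion (fun n => Bl S F n D x) n
    · exact hmono _ _ ((Finset.le_sup (by simpa using hy)).trans hn) (hk y hy)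
  have hPBL := hP L M S F m A C hA hPD
  rw [← hD] at hPBL
  have hxw : x ∈ w := by
    rw [← hn1 n1 le_rfl]
    exact ((hB L M S F n1 D).2.1 x (hT1 n1).1).2
  have hwA : w ⊆ A := by
    intro y hy
    by_contra hyA
    rw [← hn1 n1 le_rfl] at hy
    obtain ⟨h1, h2⟩ := (hB L M S F n1 D).2.2.1 x y (hT1 n1).1 hy
    have h3 : y ∈ D := ((hB L M S F n1 D).1 _ ((hB L M S F n1 D).2.1 x (hT1 n1).1).1).2.2 hy
    rw [hD] at h3
    rcases h3 with h3 | ⟨P, hPC, hyP⟩
    · exact hyA h3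
    · obtain ⟨l, hl⟩ := hPBL P hPC
      have h4 := (hl y hyP).2.2.2.2.2.1 n1
      rw [h2] at h4
      have h5 : x ∈ P := h4 ((hB L M S F n1 D).2.1 x (hT1 n1).1).2
      exact (hl x h5).1 hxA
  -- the main step
  have key : ∀ n, n1 ≤ n → ∃ τ : Equiv.Perm M, Ph S F n univ τ ∧ Bl S F n univ x = w ∧
      Gx S F n univ x ∧ ∀ z ∈ w, τ z ∉ A := by
    intro n hn
    obtain ⟨hgx, hnT⟩ := hT1 n
    unfold T2 at hnT
    push Not at hnT
    obtain ⟨y, ⟨σ, hσ, hσx⟩, hyA⟩ := hnT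
    obtain ⟨hgy, hbly⟩ := (hB L M S F n D).2.2.2.2.1 σ x hσ hgx
    rw [hσx] at hgy hbly
    rw [hn1 n hn] at hbly
    have hyD : y ∈ D := ((hB L M S F n D).1 _ ((hB L M S F n D).2.1 y hgy).1).2.2
      ((hB L M S F n D).2.1 y hgy).2
    have hyD' := hyD
    rw [hD] at hyD'
    rcases hyD' with h3 | ⟨P, hPC, hyP⟩
    · exact absurd h3 hyA
    obtain ⟨l, hl⟩ := hPBL P hPC
    obtain ⟨-, hl1, hl2, hl3, hl4, hl5, -, -, -⟩ := hl y hyP
    have hsz : (Bl S F n D y).encard = w.encard := by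
      rw [hbly]
      exact σ.injective.encard_image w
    -- the block of `y` is the same in `M`
    have hfull : Bl S F n univ y = Bl S F n D y := by
      rcases le_total n l with h | h
      · exact (hl3 n h).symm
      · rw [hl4 n h] at hsz ⊢
        have h6 := hcon P hPC hsz.symm y hyP
        refine Subset.antisymm ?_ ?_
        · rw [h6]
          exact subset_iUnion (fun n => Bl S F n univ y) n
        · conv_lhs => rw [hl1]
          exact ((hB L M S F l univ).2.2.2.2.2.2 n y h ((hL L M S F m A hA y hyA).1 n)).2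
    obtain ⟨τ, hτ, hτ2, hτσ, hτs⟩ := (hU L M S F n D).2.2.1 x σ hgx hσ (by
      rw [hσx, hn1 n hn]
      exact fun h => hyA (hwA h))
    have hτx : τ x = y := by
      rw [hτσ x ((hB L M S F n D).2.1 x hgx).2, hσx]
    have hgyM := (hL L M S F m A hA y hyA).1 n
    have hτM : Ph S F n univ τ := by
      refine hR L M S F m A C n τ hA hPD (by rw [← hD]; exact hτ) fun z hz => ?_
      rcases hτs z hz with h | h
      · rw [hn1 n hn] at h
        exact Or.inl (hwA h)
      · right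
        rw [hσx, ← hfull] at h
        rw [((hB L M S F n univ).2.2.1 y z hgyM h).2, hfull, ← hD]
        exact ((hB L M S F n D).1 _ ((hB L M S F n D).2.1 y hgy).1).2.2
    obtain ⟨h7, h8⟩ := (hB L M S F n univ).2.2.2.2.1 τ y hτM hgyM
    have hτy : τ y = x := by
      rw [← hτx, hτ2]
    rw [hτy] at h7 h8
    have h9 : Bl S F n D y = τ '' w := by
      have h10 := ((hB L M S F n D).2.2.2.2.1 τ x hτ hgx).2
      rw [hτx, hn1 n hn] at h10
      exact h10
    refine ⟨τ, hτM, ?_, h7, fun z hz => ?_⟩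
    · rw [h8, hfull, h9, image_image]
      simp only [hτ2, image_id']
    · have h11 : τ z ∈ Bl S F n univ y := by
        rw [hfull, h9]
        exact mem_image_of_mem τ hz
      exact ((hL L M S F m A hA y hyA).2.2.1 (τ z) (mem_iUnion.2 ⟨n, h11⟩)).1
  have hconj : ∀ n, ∀ z ∈ w, ∃ z', z' ∉ A ∧ Cj S F n univ z z' ∧ Cj S F n univ z' z := by
    intro n z hz
    obtain ⟨τ, hτ, -, -, h1⟩ := key (max n n1) (le_max_right _ _)
    refine ⟨τ z, h1 z hz, TYI_cj_le hG (le_max_left n n1) ⟨τ, hτ, rfl⟩,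
      TYI_cj_le hG (le_max_left n n1) ⟨τ⁻¹, (hG L M S F _ univ).2.2.1 τ hτ, by simp⟩⟩
  have hgood : ∀ n, ∀ z ∈ w, Gx S F n univ z ∧ (Bl S F n univ z).encard ≤ m n := by
    intro n z hz
    obtain ⟨z', hz', -, σ, hσ, hσz⟩ := hconj n z hz
    obtain ⟨h1, h2⟩ := (hB L M S F n univ).2.2.2.2.1 σ z' hσ ((hL L M S F m A hA z' hz').1 n)
    rw [hσz] at h1 h2
    refine ⟨h1, ?_⟩
    rw [h2, σ.injective.encard_image]
    exact (hL L M S F m A hA z' hz').2.1 n
  have hcl : Cls S F m (A \ w) := by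
    refine ⟨fun n z hz => ⟨hA.cl.gd n z hz, fun h => hz (hgood n z h).1⟩,
      fun n z hz => ⟨hA.cl.sz n z hz, fun h => hz (hgood n z h).2⟩,
      fun n z z' hz hg hz' => ⟨hA.cl.bl n z z' hz.1 hg hz', fun h => hz.2 ?_⟩,
      fun n z hf y hy => ?_⟩
    · obtain ⟨hg', hb'⟩ := (hB L M S F n univ).2.2.1 z z' hg hz'
      have h1 : z ∈ Bl S F n univ z' := by
        rw [hb']
        exact ((hB L M S F n univ).2.1 z hg).2
      obtain ⟨-, -, h2, h3, -⟩ := key (max n n1) (le_max_right _ _)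
      have h4 : z' ∈ Bl S F (max n n1) univ x := by
        rw [h2]
        exact h
      have h5 := ((hB L M S F (max n n1) univ).2.2.1 x z' h3 h4).2
      have h6 := ((hB L M S F n univ).2.2.2.2.2.2 (max n n1) z' (le_max_left _ _)
        (hgood _ z' h).1).2 h1
      rw [h5, h2] at h6
      exact h6
    · have h1 : ∀ y, Cj S F n univ z y → y ∈ A := by
        refine hA.cl.ob n z (hf.subset ?_)
        rintro B ⟨y, h1, h2, h3⟩
        exact ⟨y, h1, fun h => h2 h.1, h3⟩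
      refine ⟨h1 y hy, fun hyw => ?_⟩
      obtain ⟨y', hy', h2, -⟩ := hconj n y hyw
      exact hy' (h1 y' (TYI_cj_trans hG hy h2))
  exact (hA.least _ hcl hxA).2 hxw

end HEI
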