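import Pool.Agent.HEI.StA

/-!
# HEI [UTL]: utilities (helper17)
-/

set_option autoImplicit false
set_option linter.unusedVariables false

namespace HEI

open Set Pool.Agent.Helper5.DU Pool.Agent.Helper6.Str Pool.Agent.Helper79.VC
  Pool.Agent.Helper97.LO Pool.Agent.Helper97.VC HER HERN

section

variable {M β : Type}

theorem UTL_inv (σ : Equiv.Perm M) (x : M) : σ (σ⁻¹ x) = x :=
  σ.apply_symm_apply x

theorem UTL_inv' (σ : Equiv.Perm M) (x : M) : σ⁻¹ (σ x) = x :=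
  σ.symm_apply_apply x

/-- an exchange is an involution -/
theorem UTL_invol {w w' : β → M} {σ : Equiv.Perm M} (h : Xc w w' σ) (x : M) : σ (σ x) = x := by
  obtain ⟨h1, h2, h3⟩ := h
  by_cases hx : x ∈ range w
  · obtain ⟨p, rfl⟩ := hx
    rw [h1, h2]
  · by_cases hx' : x ∈ range w'
    · obtain ⟨p, rfl⟩ := hx'
      rw [h2, h1]
    · rw [h3 x hx hx', h3 x hx hx']

/-- the support of an exchange -/
theorem UTL_supp {w w' : β → M} {σ : Equiv.Perm M} (hσ : Xc w w' σ) {x : M} (hx : σ x ≠ x) :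
    x ∈ range w ∨ x ∈ range w' := by
  by_contra h
  rw [not_or] at h
  exact hx (hσ.2.2 x h.1 h.2)

variable {L : FirstOrder.Language.{0, 0}} {S : L.Structure M} {F X : Set M} {n : ℕ}

/-- the members of a row are almost all disjoint from a finite set -/
theorem UTL_off {b : ℕ} {w : ℕ → Fin (b + 1) → M} (hw : Ro S F n X w) {G : Set M}
    (hG : G.Finite) : ∃ i, ∀ p, w i p ∉ G := by
  by_contra hcon
  push Not at hcon
  choose p hp using hcon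
  have h1 : Function.Injective fun i => w i (p i) := by
    intro i j hij
    exact (hw.2.1 i (p i) j (p j) hij).1
  exact infinite_of_injective_forall_mem h1 hp hG

/-- two members of a row are disjoint injective tuples -/
theorem UTL_dj {b : ℕ} {w : ℕ → Fin (b + 1) → M} (hw : Ro S F n X w) {i j : ℕ}
    (hij : i ≠ j) : Dj (w i) (w j) :=
  ⟨fun p q h => (hw.2.1 i p i q h).2, fun p q h => (hw.2.1 j p j q h).2,
    fun p q h => hij (hw.2.1 i p j q h).1⟩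

/-- the exchange of two members of a row -/
theorem UTL_row (hG : St_GRP) {b : ℕ} {w : ℕ → Fin (b + 1) → M} (hw : Ro S F n X w) {i j : ℕ}
    (hij : i ≠ j) : ∃ τ, Ph S F n X τ ∧ Xc (w i) (w j) τ := by
  obtain ⟨-, -, -, -, -, h6, h7⟩ := hG L M S F n X
  obtain ⟨τ, hτ⟩ := h6 _ (w i) (w j) (UTL_dj hw hij)
  refine ⟨τ, ?_, hτ⟩
  rw [h7 _ (w i) (w j) τ (UTL_dj hw hij) hτ (hw.1 i) (hw.1 j)]
  exact hw.2.2 i j hij

/-- (1) -/
theorem UTL_conj (hG : St_GRP) {k : ℕ} {u v : Fin k → M} {W : Set M} {σ : Equiv.Perm M}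
    (hσ : Ph S F n X σ) (h : Sw S F n (X \ W) u v) :
    Sw S F n (X \ (σ '' W)) (fun i => σ (u i)) (fun i => σ (v i)) := by
  obtain ⟨-, -, h3, -⟩ := hG L M S F n X
  obtain ⟨⟨d1, d2, d3⟩, hu, hv, ht⟩ := h
  have hmem : ∀ {x : M}, x ∈ X → σ x ∈ X := by
    intro x hx
    by_cases h1 : σ x = x
    · rw [h1]
      exact hx
    · exact hσ.2.1 (σ x) fun h2 => h1 (σ.injective h2)
  have hmem' : ∀ {x : M}, x ∈ X → σ⁻¹ x ∈ X := by
    intro x hx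
    by_cases h1 : σ⁻¹ x = x
    · rw [h1]
      exact hx
    · refine hσ.2.1 (σ⁻¹ x) fun h2 => h1 ?_
      rw [UTL_inv] at h2
      exact h2.symm
  have hW : ∀ {x : M}, x ∉ W → σ x ∉ σ '' W := by
    rintro x hx ⟨y, hy, hyx⟩
    rw [σ.injective hyx] at hy
    exact hx hy
  refine ⟨⟨fun p q hpq => d1 (σ.injective hpq), fun p q hpq => d2 (σ.injective hpq),
    fun p q hpq => d3 p q (σ.injective hpq)⟩, fun p => ⟨hmem (hu p).1, hW (hu p).2⟩,
    fun p => ⟨hmem (hv p).1, hW (hv p).2⟩, ?_⟩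
  have h4 : TE S F n {a : M × M | a.1 ∈ X ∧ ∃ b, (σ⁻¹ a.1, b) ∈ SW (X \ W) u v ∧ a.2 = b} := by
    refine (h3 σ hσ).2.2.comp ht ?_
    rintro a ⟨ha, b, hb, hb'⟩
    refine ⟨σ⁻¹ a.1, ⟨ha, rfl⟩, ?_⟩
    rw [hb']
    exact hb
  refine h4.comp hσ.2.2 ?_
  rintro a ((⟨e1, e2, e3, e4⟩ | ⟨p, rfl⟩) | ⟨p, rfl⟩)
  · refine ⟨σ⁻¹ a.1, ⟨e2.1, σ⁻¹ a.1, Or.inl (Or.inl ⟨rfl, ⟨hmem' e2.1, fun h5 => e2.2 ?_⟩, ?_, ?_⟩),
      rfl⟩, hmem' e2.1, ?_⟩
    · exact ⟨_, h5, UTL_inv σ _⟩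
    · rintro ⟨p, hp⟩
      refine e3 ⟨p, ?_⟩
      show σ (u p) = a.1
      rw [hp, UTL_inv]
    · rintro ⟨p, hp⟩
      refine e4 ⟨p, ?_⟩
      show σ (v p) = a.1
      rw [hp, UTL_inv]
    · show a.2 = σ (σ⁻¹ a.1)
      rw [UTL_inv, e1]
  · refine ⟨v p, ⟨hmem (hu p).1, v p, Or.inl (Or.inr ⟨p, ?_⟩), rfl⟩, (hv p).1, rfl⟩
    show (u p, v p) = (σ⁻¹ (σ (u p)), v p)
    rw [UTL_inv']
  · refine ⟨u p, ⟨hmem (hv p).1, u p, Or.inr ⟨p, ?_⟩, rfl⟩, (hu p).1, rfl⟩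
    show (v p, u p) = (σ⁻¹ (σ (v p)), u p)
    rw [UTL_inv']

/-- (2) -/
theorem UTL_two (hG : St_GRP) (hB : St_BLK) (y : M) (E : Set M) (hy : Gx S F n X y)
    (hE : E.Finite) : ∃ τ : Equiv.Perm M, Ph S F n X τ ∧
    (∀ x, τ (τ x) = x) ∧ (∀ x, τ x ≠ x → x ∈ Bl S F n X y ∨ τ x ∈ Bl S F n X y) ∧
    Disjoint (τ '' Bl S F n X y) (E ∪ Bl S F n X y) := by
  obtain ⟨b1, b2, -⟩ := hB L M S F n X
  have hgs := (b2 y hy).1
  have hfin := (b1 _ hgs).1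
  obtain ⟨b, w, hw, hr⟩ := hgs
  obtain ⟨i, hi⟩ := UTL_off hw (hE.union hfin)
  have hi0 : 0 ≠ i := by
    rintro rfl
    refine hi 0 (Or.inr ?_)
    rw [← hr]
    exact mem_range_self _
  obtain ⟨τ, hτ, hx⟩ := UTL_row hG hw hi0
  refine ⟨τ, hτ, UTL_invol hx, fun x hxx => ?_, ?_⟩
  · rcases UTL_supp hx hxx with ⟨p, rfl⟩ | ⟨p, rfl⟩
    · left
      rw [← hr]
      exact mem_range_self _
    · right
      rw [hx.2.1, ← hr]
      exact mem_range_self _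
  · rw [disjoint_left]
    rintro _ ⟨x, hx', rfl⟩
    rw [← hr] at hx'
    obtain ⟨p, rfl⟩ := hx'
    rw [hx.1]
    exact hi p

/-- (3) -/
theorem UTL_three (hG : St_GRP) (hB : St_BLK) (hC : St_CNJ) (y : M) (σ : Equiv.Perm M)
    (hy : Gx S F n X y) (hσ : Ph S F n X σ) (hs : σ y ∉ Bl S F n X y) :
    ∃ τ : Equiv.Perm M, Ph S F n X τ ∧ (∀ x, τ (τ x) = x) ∧
    (∀ x ∈ Bl S F n X y, τ x = σ x) ∧
    ∀ x, τ x ≠ x → x ∈ Bl S F n X y ∨ x ∈ Bl S F n X (σ y) := by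
  obtain ⟨b1, b2, -⟩ := hB L M S F n X
  obtain ⟨-, -, -, -, -, h6, h7⟩ := hG L M S F n X
  obtain ⟨b, w, hw, hr⟩ := (b2 y hy).1
  have hwi : Function.Injective (w 0) := fun p q h => (hw.2.1 0 p 0 q h).2
  obtain ⟨⟨hD, s1, s2, s3⟩, hr'⟩ := (hC L M S F n X σ hσ).2 y hy hs (b + 1) (w 0) hwi hr
  obtain ⟨τ, hτ⟩ := h6 _ _ _ hD
  refine ⟨τ, (h7 _ _ _ τ hD hτ s1 s2).2 s3, UTL_invol hτ, fun x hx => ?_, fun x hx => ?_⟩
  · rw [← hr] at hx
    obtain ⟨p, rfl⟩ := hx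
    exact hτ.1 p
  · rw [← hr, ← hr']
    exact UTL_supp hτ hx

/-- (4) -/
theorem UTL_four (hG : St_GRP) (hB : St_BLK) (hC : St_CNJ) (y : M) (σ : Equiv.Perm M)
    (E : Set M) (hy : Gx S F n X y) (hσ : Ph S F n X σ) (hE : E.Finite)
    (hd : Disjoint E (Bl S F n X y)) (hd' : Disjoint E (Bl S F n X (σ y))) :
    ∃ τ : Equiv.Perm M, Ph S F n X τ ∧ (∀ x ∈ Bl S F n X y, τ x = σ x) ∧
      ∀ x ∈ E, τ x = x := by
  rw [disjoint_left] at hd hd'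
  by_cases hs : σ y ∈ Bl S F n X y
  · obtain ⟨b1, b2, b3, -, b5, -⟩ := hB L M S F n X
    obtain ⟨-, g2, g3, -⟩ := hG L M S F n X
    have hgs := (b2 y hy).1
    have hfin := (b1 _ hgs).1
    have himg : σ '' Bl S F n X y = Bl S F n X y := by
      rw [← (b5 σ y hσ hy).2, (b3 y (σ y) hy hs).2]
    obtain ⟨b, w, hw, hr⟩ := hgs
    obtain ⟨i, hi⟩ := UTL_off hw ((hE.union hfin).union hσ.1)
    have hi0 : 0 ≠ i := by
      rintro rfl
      refine hi 0 (Or.inl (Or.inr ?_))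
      rw [← hr]
      exact mem_range_self _
    have hfix : ∀ p, σ (w i p) = w i p := by
      intro p
      by_contra h
      exact hi p (Or.inr h)
    obtain ⟨τ, hτ, hx⟩ := UTL_row hG hw hi0
    refine ⟨σ * τ * σ⁻¹ * τ, g2 _ _ (g2 _ _ (g2 _ _ hσ hτ) (g3 _ hσ)) hτ, fun x hxx => ?_,
      fun x hxx => ?_⟩
    · rw [← hr] at hxx
      obtain ⟨p, rfl⟩ := hxx
      show σ (τ (σ⁻¹ (τ (w 0 p)))) = σ (w 0 p)
      rw [hx.1]
      have h1 : σ⁻¹ (w i p) = w i p := by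
        conv_lhs => rw [← hfix p]
        exact UTL_inv' σ _
      rw [h1, hx.2.1]
    · show σ (τ (σ⁻¹ (τ x))) = x
      have h0 : ∀ z, (z ∉ Bl S F n X y) → (∀ p, z ≠ w i p) → τ z = z := by
        intro z hz hz'
        refine hx.2.2 z ?_ ?_
        · rw [hr]
          exact hz
        · rintro ⟨p, hp⟩
          exact hz' p hp.symm
      have h1 : τ x = x := by
        refine h0 x (hd hxx) ?_
        rintro p rfl
        exact hi p (Or.inl (Or.inl hxx))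
      have h2 : τ (σ⁻¹ x) = σ⁻¹ x := by
        refine h0 _ ?_ ?_
        · intro h3
          refine hd hxx ?_
          rw [← himg]
          exact ⟨_, h3, UTL_inv σ x⟩
        · intro p hp
          have h4 : x = w i p := by
            rw [← hfix p, ← hp, UTL_inv]
          rw [h4] at hxx
          exact hi p (Or.inl (Or.inl hxx))
      rw [h1, h2, UTL_inv]
  · obtain ⟨τ, h1, h2, h3, h4⟩ := UTL_three hG hB hC y σ hy hσ hs
    refine ⟨τ, h1, h3, fun x hx => ?_⟩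
    by_contra h5
    exact (h4 x h5).elim (hd hx) (hd' hx)

end

theorem thm_UTL (hG : St_GRP) (hB : St_BLK) (hC : St_CNJ) : St_UTL := by
  intro L M S F n X
  refine ⟨fun k u v W σ hσ h => UTL_conj hG hσ h, fun y E hy hE => UTL_two hG hB y E hy hE,
    fun y σ hy hσ hs => UTL_three hG hB hC y σ hy hσ hs,
    fun y σ E hy hσ hE hd hd' => UTL_four hG hB hC y σ E hy hσ hE hd hd', ?_⟩
  rintro β Y w v hY ⟨hD, -, -, ht⟩ hm
  refine ⟨hD, fun p => (hm p).1, fun p => (hm p).2, ht.anti ?_⟩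
  rintro a ((⟨e1, e2, e3, e4⟩ | h) | h)
  · exact Or.inl (Or.inl ⟨e1, hY e2, e3, e4⟩)
  · exact Or.inl (Or.inr h)
  · exact Or.inr h

end HEI
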