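import Pool.Agent.HEI.StA
import Pool.Agent.HERN.TE

/-!
# HEI: the blocks are visible (helper65)
-/

set_option autoImplicit false
set_option linter.unusedVariables false

namespace HEI

open Set Pool.Agent.Helper5.DU Pool.Agent.Helper6.Str Pool.Agent.Helper79.VC
  Pool.Agent.Helper97.LO Pool.Agent.Helper97.VC HER HERN

section VIS

variable {L : FirstOrder.Language.{0, 0}} {M : Type} {S : L.Structure M}
  {F X Y : Set M} {γ : Ordinal.{0}} {p : Set (M × M)}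

/-- a back-and-forth position -/
structure VIS_Q (S : L.Structure M) (F X Y : Set M) (γ : Ordinal.{0}) (p : Set (M × M)) :
    Prop where
  dgF : dg F ⊆ p
  mem : ∀ a ∈ p, a.1 ∈ X ∧ a.2 ∈ Y
  bfr : BFR S S X Y γ p

theorem VIS_Q.symm (h : VIS_Q S F X Y γ p) : VIS_Q S F Y X γ (Prod.swap ⁻¹' p) := by
  refine ⟨?_, fun a ha => ?_, h.bfr.swap⟩
  · rintro _ ⟨x, hx, rfl⟩
    exact h.dgF ⟨x, hx, rfl⟩
  · have h1 := h.mem _ ha
    exact ⟨h1.2, h1.1⟩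

theorem VIS_Q.mono (h : VIS_Q S F X Y γ p) {δ : Ordinal.{0}} (hδ : δ ≤ γ) :
    VIS_Q S F X Y δ p := ⟨h.dgF, h.mem, h.bfr.mono hδ⟩

/-- equality of the partners -/
theorem VIS_Q.eqr (h : VIS_Q S F X Y γ p) {x y y' : M} (h1 : (x, y) ∈ p) (h2 : (x, y') ∈ p) :
    y = y' := (h.bfr.atEq.1 _ h1 _ h2).1 rfl

theorem VIS_Q.eql (h : VIS_Q S F X Y γ p) {x x' y : M} (h1 : (x, y) ∈ p) (h2 : (x', y) ∈ p) :
    x = x' := (h.bfr.atEq.1 _ h1 _ h2).2 rfl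

/-- finitely many moves -/
theorem VIS_ext {δ : Ordinal.{0}} (h : VIS_Q S F X Y γ p) (hγ : δ + Ordinal.omega0 ≤ γ)
    {E : Set M} (hE : E.Finite) (hEX : E ⊆ X) : ∃ p', p ⊆ p' ∧ VIS_Q S F X Y δ p' ∧
      ∀ x ∈ E, ∃ y, (x, y) ∈ p' := by
  obtain ⟨n, f, -, rfl⟩ := hE.fin_param
  have h1 : δ + (n : Ordinal.{0}) ≤ γ :=
    le_trans (add_le_add_right (Ordinal.natCast_lt_omega0 n).le δ) hγ
  obtain ⟨y, hy, h2⟩ := BFR.forth_many n (h.bfr.mono h1) f fun i => hEX (mem_range_self i)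
  refine ⟨p ∪ range fun i => (f i, y i), subset_union_left,
    ⟨h.dgF.trans subset_union_left, ?_, h2⟩, ?_⟩
  · rintro a (ha | ⟨i, rfl⟩)
    · exact h.mem a ha
    · exact ⟨hEX (mem_range_self i), hy i⟩
  · rintro _ ⟨i, rfl⟩
    exact ⟨y i, Or.inr ⟨i, rfl⟩⟩

/-- (1), one direction -/
theorem VIS_sw (h : VIS_Q S F X Y γ p) (hγ : Ordinal.omega0 ≤ γ) {β : Type} {w w' v v' : β → M}
    {W W' : Set M} {n : ℕ} (hw : ∀ i, (w i, v i) ∈ p) (hw' : ∀ i, (w' i, v' i) ∈ p)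
    (hW : ∀ x ∈ W, ∃ y ∈ W', (x, y) ∈ p) (hW' : ∀ y ∈ W', ∃ x ∈ W, (x, y) ∈ p)
    (hs : Sw S F n (X \ W) w w') : Sw S F n (Y \ W') v v' := by
  obtain ⟨⟨h1, h2, h3⟩, h4, h5, h6⟩ := hs
  have hnot : ∀ x y, (x, y) ∈ p → x ∉ W → y ∉ W' := by
    intro x y hxy hx hy
    obtain ⟨x', hx', h7⟩ := hW' y hy
    rw [h.eql hxy h7] at hx
    exact hx hx'
  refine ⟨⟨fun i j hij => ?_, fun i j hij => ?_, fun i j hij => ?_⟩, fun i => ?_, fun i => ?_,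
    ?_⟩
  · refine h1 (h.eql (hw i) ?_)
    rw [hij]
    exact hw j
  · refine h2 (h.eql (hw' i) ?_)
    rw [hij]
    exact hw' j
  · refine h3 i j (h.eql (hw i) ?_)
    rw [hij]
    exact hw' j
  · exact ⟨(h.mem _ (hw i)).2, hnot _ _ (hw i) (h4 i).2⟩
  · exact ⟨(h.mem _ (hw' i)).2, hnot _ _ (hw' i) (h5 i).2⟩
  · -- the types
    intro q hq hqn
    have hqf : q.Finite := finite_of_encard_le_coe hqn
    have hqY : ∀ a ∈ q, a.1 ∈ Y ∧ a.2 ∈ Y := by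
      intro a ha
      rcases hq ha with (⟨h7, h8, -, -⟩ | ⟨i, rfl⟩) | ⟨i, rfl⟩
      · exact ⟨h8.1, h7 ▸ h8.1⟩
      · exact ⟨(h.mem _ (hw i)).2, (h.mem _ (hw' i)).2⟩
      · exact ⟨(h.mem _ (hw' i)).2, (h.mem _ (hw i)).2⟩
    obtain ⟨p', hpp, hp', hd⟩ := VIS_ext (δ := 0) h.symm (by rw [zero_add]; exact hγ)
      (E := Prod.fst '' q ∪ Prod.snd '' q) ((hqf.image _).union (hqf.image _)) (by
        rintro _ (⟨a, ha, rfl⟩ | ⟨a, ha, rfl⟩)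
        · exact (hqY a ha).1
        · exact (hqY a ha).2)
    -- `p'` is a position for `Y`, `X`
    have hpp' : ∀ x y, (x, y) ∈ p → (y, x) ∈ p' := fun x y hxy => hpp hxy
    have hc : ∀ a : M × M, ∃ b : M × M, a ∈ q → (a.1, b.1) ∈ p' ∧ (a.2, b.2) ∈ p' := by
      intro a
      by_cases ha : a ∈ q
      · obtain ⟨x, hx⟩ := hd a.1 (Or.inl ⟨a, ha, rfl⟩)
        obtain ⟨y, hy⟩ := hd a.2 (Or.inr ⟨a, ha, rfl⟩)
        exact ⟨(x, y), fun _ => ⟨hx, hy⟩⟩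
      · exact ⟨a, fun h => absurd h ha⟩
    choose b hb using hc
    have hb1 : ∀ a ∈ q, (a.1, (b a).1) ∈ p' := fun a ha => (hb a ha).1
    have hb2 : ∀ a ∈ q, (a.2, (b a).2) ∈ p' := fun a ha => (hb a ha).2
    have hbq : b '' q ⊆ SW (X \ W) w w' := by
      rintro _ ⟨a, ha, rfl⟩
      have e1 := hb1 a ha
      have e2 := hb2 a ha
      rcases hq ha with (⟨h7, h8, h9, h10⟩ | ⟨i, rfl⟩) | ⟨i, rfl⟩
      · refine Or.inl (Or.inl ⟨?_, ⟨(hp'.mem _ e1).2, ?_⟩, ?_, ?_⟩)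
        · rw [← h7] at e2
          exact hp'.eqr e1 e2
        · intro h11
          obtain ⟨y, hy, h12⟩ := hW _ h11
          have h13 : a.1 = y := hp'.eql e1 (hpp' _ _ h12)
          rw [h13] at h8
          exact h8.2 hy
        · rintro ⟨i, hi⟩
          have h13 : a.1 = v i := hp'.eql e1 (by rw [← hi]; exact hpp' _ _ (hw i))
          exact h9 ⟨i, h13.symm⟩
        · rintro ⟨i, hi⟩
          have h13 : a.1 = v' i := hp'.eql e1 (by rw [← hi]; exact hpp' _ _ (hw' i))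
          exact h10 ⟨i, h13.symm⟩
      · refine Or.inl (Or.inr ⟨i, ?_⟩)
        exact Prod.ext (hp'.eqr (hpp' _ _ (hw i)) e1) (hp'.eqr (hpp' _ _ (hw' i)) e2)
      · refine Or.inr ⟨i, ?_⟩
        exact Prod.ext (hp'.eqr (hpp' _ _ (hw' i)) e1) (hp'.eqr (hpp' _ _ (hw i)) e2)
    have h7 := h6 (b '' q) hbq ((encard_image_le _ _).trans hqn)
    have h8 : AtEq S S p' := hp'.bfr.atEq
    have hF : ∀ x ∈ F, (x, x) ∈ p' := fun x hx => hpp' _ _ (h.dgF ⟨x, hx, rfl⟩)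
    have h9 : AtEq S S {a : M × M | ∃ c, (a.1, c) ∈ p' ∧ (c, a.2) ∈ dg F ∪ b '' q} :=
      AtEq.comp' h8 h7 fun a ha => ha
    refine AtEq.comp' h9 (AtEq.symm' h8 (r := Prod.swap ⁻¹' p') fun a ha => ha) ?_
    rintro a (⟨x, hx, rfl⟩ | ha)
    · exact ⟨x, ⟨x, hF x hx, Or.inl ⟨x, hx, rfl⟩⟩, hF x hx⟩
    · exact ⟨(b a).2, ⟨(b a).1, hb1 a ha, Or.inr ⟨a, ha, rfl⟩⟩, hb2 a ha⟩

/-- images of good sets -/
theorem VIS_gs (hI : St_INF) (h : VIS_Q S F X Y γ p)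
    (hγ : Ordinal.omega0 + Ordinal.omega0 ≤ γ) {n : ℕ} {B : Set M} (hB : Gs S F n X B)
    (hd : ∀ x ∈ B, ∃ y, (x, y) ∈ p) : Gs S F n Y {y | ∃ x ∈ B, (x, y) ∈ p} := by
  obtain ⟨b, w, ⟨hw1, hw2, hw3⟩, rfl⟩ := hB
  choose v0 hv0 using fun i => hd (w 0 i) (mem_range_self i)
  obtain ⟨v, hv, hv1⟩ := hI L M S F n Y (Fin (b + 1)) v0 (by
    intro k
    obtain ⟨p', hpp, hp', hd'⟩ := VIS_ext h hγ (E := ⋃ i : Fin (k + 1), range (w i))
      (finite_iUnion fun i => finite_range _) (by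
        refine iUnion_subset fun i => ?_
        rintro _ ⟨q, rfl⟩
        exact hw1 i q)
    choose v hv using fun (i : Fin (k + 1)) (q : Fin (b + 1)) =>
      hd' (w i q) (mem_iUnion.2 ⟨i, mem_range_self q⟩)
    refine ⟨v, ⟨fun i q => (hp'.mem _ (hv i q)).2, fun i q j r hqr => ?_, fun i j hij => ?_⟩, ?_⟩
    · have h1 := hw2 i q j r (hp'.eql (hv i q) (by rw [hqr]; exact hv j r))
      exact ⟨Fin.ext h1.1, h1.2⟩
    · have hij' : (i : ℕ) ≠ j := fun h => hij (Fin.ext h)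
      have h1 : Sw S F n (X \ ∅) (w i) (w j) := by
        rw [sdiff_empty]
        exact ⟨⟨fun q r hqr => (hw2 _ _ _ _ hqr).2, fun q r hqr => (hw2 _ _ _ _ hqr).2,
          fun q r hqr => hij' (hw2 _ _ _ _ hqr).1⟩, fun q => hw1 _ q, fun q => hw1 _ q,
          hw3 _ _ hij'⟩
      have h2 := VIS_sw hp' le_rfl (hv i) (hv j) (W := ∅) (W' := ∅)
        (fun x hx => absurd hx (notMem_empty x)) (fun x hx => absurd hx (notMem_empty x)) h1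
      rw [sdiff_empty] at h2
      exact h2.2.2.2
    · funext q
      exact hp'.eqr (hv 0 q) (hpp (hv0 q)))
  refine ⟨b, v, hv, ?_⟩
  rw [hv1]
  ext y
  constructor
  · rintro ⟨i, rfl⟩
    exact ⟨w 0 i, mem_range_self i, hv0 i⟩
  · rintro ⟨_, ⟨i, rfl⟩, hi⟩
    exact ⟨i, h.eqr (hv0 i) hi⟩

theorem VIS_gsf {n : ℕ} {B : Set M} (hB : Gs S F n X B) : B.Finite ∧ B ⊆ X := by
  obtain ⟨b, w, ⟨hw1, hw2, hw3⟩, rfl⟩ := hB
  refine ⟨finite_range _, ?_⟩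
  rintro _ ⟨i, rfl⟩
  exact hw1 0 i

theorem VIS_blf {n : ℕ} {x : M} (hx : Gx S F n X x) :
    (Bl S F n X x).Finite ∧ Bl S F n X x ⊆ X := by
  obtain ⟨B, hB, hxB⟩ := hx
  have h1 : Bl S F n X x ⊆ B := fun y hy => hy B hB hxB
  exact ⟨(VIS_gsf hB).1.subset h1, h1.trans (VIS_gsf hB).2⟩

theorem VIS_self {n : ℕ} {x : M} : x ∈ Bl S F n X x := fun B _ h => h

/-- (2), one direction -/
theorem VIS_gx (hI : St_INF) (h : VIS_Q S F X Y γ p)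
    (hγ : Ordinal.omega0 + Ordinal.omega0 + Ordinal.omega0 ≤ γ) {n : ℕ} {a : M × M}
    (ha : a ∈ p) (hx : Gx S F n X a.1) : Gx S F n Y a.2 := by
  obtain ⟨B, hB, haB⟩ := hx
  obtain ⟨p', hpp, hp', hd⟩ := VIS_ext h hγ (VIS_gsf hB).1 (VIS_gsf hB).2
  exact ⟨_, VIS_gs hI hp' le_rfl hB hd, a.1, haB, hpp ha⟩

/-- (3), one direction -/
theorem VIS_bl (hI : St_INF) (h : VIS_Q S F X Y γ p)
    (hγ : Ordinal.omega0 + Ordinal.omega0 + Ordinal.omega0 ≤ γ) {n : ℕ} {a a' : M × M}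
    (ha : a ∈ p) (ha' : a' ∈ p) (hx : a'.1 ∈ Bl S F n X a.1) : a'.2 ∈ Bl S F n Y a.2 := by
  intro B hB haB
  obtain ⟨p', hpp, hp', hd⟩ := VIS_ext h.symm hγ (VIS_gsf hB).1 (VIS_gsf hB).2
  have h1 : ∀ x y, (x, y) ∈ p → (y, x) ∈ p' := fun x y hxy => hpp hxy
  obtain ⟨y, hy, hy2⟩ := hx _ (VIS_gs hI hp' le_rfl hB hd) ⟨a.2, haB, h1 _ _ ha⟩
  have h2 : y = a'.2 := hp'.eql hy2 (h1 _ _ ha')
  rwa [← h2]

/-- the image of a block -/
theorem VIS_im (hB : St_BLK) (hI : St_INF) (h : VIS_Q S F X Y γ p)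
    (hγ : Ordinal.omega0 + Ordinal.omega0 + Ordinal.omega0 ≤ γ) {n : ℕ} {a : M × M}
    (ha : a ∈ p) (hx : Gx S F n X a.1) (hd : ∀ x ∈ Bl S F n X a.1, ∃ y, (x, y) ∈ p) :
    {y | ∃ x ∈ Bl S F n X a.1, (x, y) ∈ p} = Bl S F n Y a.2 := by
  refine Subset.antisymm ?_ fun y hy => ?_
  · rintro y ⟨x, hx1, hxy⟩
    exact VIS_bl hI h hγ (a' := (x, y)) ha hxy hx1
  · have h1 := ((hB L M S F n X).2.1 a.1 hx).1
    have hγ' : Ordinal.omega0 + Ordinal.omega0 ≤ γ := le_trans (le_self_add) hγ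
    exact hy _ (VIS_gs hI h hγ' h1 hd) ⟨a.1, VIS_self, ha⟩

/-- (5) -/
theorem VIS_enc (hB : St_BLK) (hI : St_INF) (h : VIS_Q S F X Y γ p)
    (hγ : Ordinal.omega0 + Ordinal.omega0 + Ordinal.omega0 + Ordinal.omega0 ≤ γ) {n : ℕ}
    {a : M × M} (ha : a ∈ p) (hx : Gx S F n X a.1) :
    (Bl S F n X a.1).encard = (Bl S F n Y a.2).encard := by
  obtain ⟨p', hpp, hp', hd⟩ := VIS_ext h hγ (VIS_blf hx).1 (VIS_blf hx).2
  have h1 := VIS_im hB hI hp' le_rfl (hpp ha) hx hd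
  choose! f hf using hd
  have h2 : f '' Bl S F n X a.1 = Bl S F n Y a.2 := by
    rw [← h1]
    ext y
    constructor
    · rintro ⟨x, hx1, rfl⟩
      exact ⟨x, hx1, hf x hx1⟩
    · rintro ⟨x, hx1, hxy⟩
      exact ⟨x, hx1, hp'.eqr (hf x hx1) hxy⟩
  rw [← h2]
  refine (InjOn.encard_image fun x hx1 x' hx1' hxx => ?_).symm
  exact hp'.eql (hf x hx1) (by rw [hxx]; exact hf x' hx1')

/-- (4), different blocks -/
theorem VIS_cj1 (hG : St_GRP) (hC : St_CNJ) (h : VIS_Q S F X Y γ p)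
    (hγ : Ordinal.omega0 + Ordinal.omega0 ≤ γ) {n : ℕ} {a a' : M × M}
    (ha : a ∈ p) (ha' : a' ∈ p) (hx : Gx S F n X a.1) (hn : a'.1 ∉ Bl S F n X a.1)
    (hc : Cj S F n X a.1 a'.1) : Cj S F n Y a.2 a'.2 := by
  obtain ⟨σ, hσ, hσa⟩ := hc
  obtain ⟨k, w, hwi, hwr⟩ := (VIS_blf hx).1.fin_param
  obtain ⟨h1, h2⟩ := (hC L M S F n X σ hσ).2 a.1 hx (by rw [hσa]; exact hn) k w hwi hwr
  obtain ⟨p', hpp, hp', hd⟩ := VIS_ext h hγ
    (E := range w ∪ range fun i => σ (w i)) ((finite_range _).union (finite_range _)) (by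
      rintro _ (⟨i, rfl⟩ | ⟨i, rfl⟩)
      · exact h1.2.1 i
      · exact h1.2.2.1 i)
  choose v hv using fun i => hd (w i) (Or.inl ⟨i, rfl⟩)
  choose v' hv' using fun i => hd (σ (w i)) (Or.inr ⟨i, rfl⟩)
  have h3 : Sw S F n (Y \ ∅) v v' := VIS_sw hp' le_rfl hv hv' (W := ∅) (W' := ∅)
    (fun x hx => absurd hx (notMem_empty x)) (fun x hx => absurd hx (notMem_empty x))
    (by rw [sdiff_empty]; exact h1)
  rw [sdiff_empty] at h3
  obtain ⟨-, -, -, -, -, h4, h5⟩ := hG L M S F n Y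
  obtain ⟨τ, hτ⟩ := h4 (Fin k) v v' h3.1
  obtain ⟨i, hi⟩ : a.1 ∈ range w := by
    rw [hwr]
    exact VIS_self
  refine ⟨τ, (h5 (Fin k) v v' τ h3.1 hτ h3.2.1 h3.2.2.1).2 h3.2.2.2, ?_⟩
  have h6 : v i = a.2 := hp'.eqr (x := a.1) (by rw [← hi]; exact hv i) (hpp ha)
  have h7 : v' i = a'.2 := hp'.eqr (x := a'.1) (by
    have h8 := hv' i
    rw [hi, hσa] at h8
    exact h8) (hpp ha')
  rw [← h6, hτ.1 i, h7]

/-- (4), one direction -/
theorem VIS_cj (hG : St_GRP) (hB : St_BLK) (hC : St_CNJ) (hU : St_UTL)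
    (h : VIS_Q S F X Y γ p)
    (hγ : Ordinal.omega0 + Ordinal.omega0 + Ordinal.omega0 ≤ γ) {n : ℕ} {a a' : M × M}
    (ha : a ∈ p) (ha' : a' ∈ p) (hx : Gx S F n X a.1)
    (hc : Cj S F n X a.1 a'.1) : Cj S F n Y a.2 a'.2 := by
  by_cases hn : a'.1 ∈ Bl S F n X a.1
  · obtain ⟨τ, hτ, hτ2, hτ3, hτ4⟩ := (hU L M S F n X).2.1 a.1 ∅ hx finite_empty
    have hx'' : τ a.1 ∉ Bl S F n X a.1 := fun h1 =>
      disjoint_left.1 hτ4 (mem_image_of_mem τ VIS_self) (Or.inr h1)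
    have hne : τ (τ a.1) ≠ τ a.1 := by
      rw [hτ2]
      intro h1
      rw [← h1] at hx''
      exact hx'' VIS_self
    have hX'' : τ a.1 ∈ X := hτ.2.1 _ hne
    obtain ⟨p', hpp, hp', hd⟩ := VIS_ext h hγ (E := {τ a.1}) (finite_singleton _)
      (singleton_subset_iff.2 hX'')
    obtain ⟨y, hy⟩ := hd _ rfl
    obtain ⟨hx3, hx4⟩ := (hB L M S F n X).2.2.1 a.1 a'.1 hx hn
    have h1 : Cj S F n Y a.2 y := VIS_cj1 hG hC hp' le_rfl (a' := (τ a.1, y)) (hpp ha) hy hx hx''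
      ⟨τ, hτ, rfl⟩
    obtain ⟨σ, hσ, hσa⟩ := hc
    have h2 : Cj S F n Y a'.2 y := by
      refine VIS_cj1 hG hC hp' le_rfl (a' := (τ a.1, y)) (hpp ha') hy hx3 ?_
        ⟨τ * σ⁻¹, ?_, ?_⟩
      · rw [hx4]
        exact hx''
      · exact (hG L M S F n X).2.1 _ _ hτ ((hG L M S F n X).2.2.1 _ hσ)
      · rw [Equiv.Perm.mul_apply, ← hσa]
        exact congrArg τ (Equiv.symm_apply_apply σ a.1)
    obtain ⟨τ1, hτ1, e1⟩ := h1
    obtain ⟨τ2, hτ2', e2⟩ := h2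
    refine ⟨τ2⁻¹ * τ1, (hG L M S F n Y).2.1 _ _ ((hG L M S F n Y).2.2.1 _ hτ2') hτ1, ?_⟩
    rw [Equiv.Perm.mul_apply, e1, ← e2]
    exact Equiv.symm_apply_apply τ2 a'.2
  · exact VIS_cj1 hG hC h (le_trans le_self_add hγ) ha ha' hx hn hc

/-- (6), one direction -/
theorem VIS_em (hB : St_BLK) (hI : St_INF) (h : VIS_Q S F X Y γ p)
    (hγ : Ordinal.omega0 + Ordinal.omega0 + Ordinal.omega0 + Ordinal.omega0 ≤ γ) {n k : ℕ}
    {w v : Fin k → M} (hw : ∀ i, (w i, v i) ∈ p) (he : Em S F n X (range w)) :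
    Em S F n Y (range v) := by
  obtain ⟨m', y, k', u, c, hm, hyX, hyg, hdis, hur, hcr, hcn, hsw⟩ := he
  obtain ⟨p', hpp, hp', hd⟩ := VIS_ext h hγ (VIS_blf hyg).1 (VIS_blf hyg).2
  obtain ⟨z, hz⟩ := hd y VIS_self
  have him := VIS_im hB hI hp' le_rfl (a := (y, z)) hz hyg hd
  have hu' : ∀ i, ∃ j, w j = u i := fun i => by
    have h1 : u i ∈ range w := by
      rw [← hur]
      exact mem_range_self i
    exact h1
  choose j hj using hu'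
  have hu : ∀ i, (u i, v (j i)) ∈ p' := fun i => by
    rw [← hj]
    exact hpp (hw _)
  choose c' hc' using fun i => hd (c i) (hcr (mem_range_self i))
  have hBl : ∀ x y', (x, y') ∈ p' → (x ∈ Bl S F m' X y ↔ y' ∈ Bl S F m' Y z) := by
    intro x y' hxy
    show _ ↔ y' ∈ Bl S F m' Y (y, z).2
    rw [← him]
    constructor
    · intro h1
      exact ⟨x, h1, hxy⟩
    · rintro ⟨x', hx', hxy'⟩
      rw [hp'.eql hxy hxy']
      exact hx'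
  have hrc : ∀ x y', (x, y') ∈ p' → (x ∈ range c ↔ y' ∈ range c') := by
    intro x y' hxy
    constructor
    · rintro ⟨i, rfl⟩
      exact ⟨i, hp'.eqr (hc' i) hxy⟩
    · rintro ⟨i, rfl⟩
      exact ⟨i, hp'.eql (hc' i) hxy⟩
  refine ⟨m', z, k', fun i => v (j i), c', hm, (hp'.mem _ hz).2,
    VIS_gx hI hp' le_rfl (a := (y, z)) hz hyg, ?_, ?_, ?_, ?_, ?_⟩
  · rw [disjoint_left]
    rintro _ ⟨i, rfl⟩ h1
    exact disjoint_left.1 hdis ⟨i, rfl⟩ ((hBl _ _ (hpp (hw i))).2 h1)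
  · refine Subset.antisymm ?_ ?_
    · rintro _ ⟨i, rfl⟩
      exact mem_range_self _
    · rintro _ ⟨i, rfl⟩
      have h1 : w i ∈ range u := by
        rw [hur]
        exact mem_range_self i
      obtain ⟨l, hl⟩ := h1
      refine ⟨l, hp'.eqr (hu l) ?_⟩
      rw [hl]
      exact hpp (hw i)
  · rintro _ ⟨i, rfl⟩
    exact (hBl _ _ (hc' i)).1 (hcr (mem_range_self i))
  · intro h1
    refine hcn (Subset.antisymm hcr fun x hx => ?_)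
    obtain ⟨y', hy'⟩ := hd x hx
    refine (hrc _ _ hy').2 ?_
    rw [h1]
    exact (hBl _ _ hy').1 hx
  · refine VIS_sw hp' (le_trans le_self_add le_self_add) hu hc' (W := Bl S F m' X y \ range c) ?_
      ?_ hsw
    · rintro x ⟨hx1, hx2⟩
      obtain ⟨y', hy'⟩ := hd x hx1
      exact ⟨y', ⟨(hBl _ _ hy').1 hx1, fun h1 => hx2 ((hrc _ _ hy').2 h1)⟩, hy'⟩
    · rintro y' ⟨hy1, hy2⟩
      have h1 : y' ∈ {y' | ∃ x ∈ Bl S F m' X y, (x, y') ∈ p'} := by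
        have h2 := him
        dsimp only at h2
        rw [h2]
        exact hy1
      obtain ⟨x, hx, hxy⟩ := h1
      exact ⟨x, ⟨hx, fun h1 => hy2 ((hrc _ _ hxy).1 h1)⟩, hxy⟩

end VIS

theorem thm_VIS (hG : St_GRP) (hI : St_INF) (hB : St_BLK) (hC : St_CNJ) (hU : St_UTL) :
    St_VIS := by
  intro L M S F X Y γ p hF hγ hdg hmem hbfr
  have h : VIS_Q S F X Y γ p := ⟨hdg, hmem, hbfr⟩
  have hs : VIS_Q S F Y X γ (Prod.swap ⁻¹' p) := h.symm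
  have h4 : Ordinal.omega0 + Ordinal.omega0 + Ordinal.omega0 + Ordinal.omega0 ≤ γ := by
    refine le_trans (le_of_eq ?_) hγ
    have h5 : (4 : Ordinal.{0}) = 1 + 1 + 1 + 1 := by norm_num
    rw [h5, mul_add, mul_add, mul_add, mul_one]
  have h3 : Ordinal.omega0 + Ordinal.omega0 + Ordinal.omega0 ≤ γ := le_trans le_self_add h4
  have h1 : Ordinal.omega0 ≤ γ := le_trans (le_trans le_self_add le_self_add) h3
  refine ⟨?_, ?_, ?_, ?_, ?_, ?_⟩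
  · intro β _ w w' v v' W W' n hw hW hW'
    constructor
    · exact VIS_sw h h1 (fun i => (hw i).1) (fun i => (hw i).2) hW hW'
    · refine VIS_sw hs h1 (fun i => (hw i).1) (fun i => (hw i).2) ?_ ?_
      · exact fun y hy => hW' y hy
      · exact fun x hx => hW x hx
  · intro n a ha
    exact ⟨VIS_gx hI h h3 ha, VIS_gx hI hs h3 (a := a.swap) ha⟩
  · intro n a ha a' ha' _
    exact ⟨VIS_bl hI h h3 ha ha', VIS_bl hI hs h3 (a := a.swap) (a' := a'.swap) ha ha'⟩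
  · intro n a ha a' ha' hx
    exact ⟨VIS_cj hG hB hC hU h h3 ha ha' hx,
      VIS_cj hG hB hC hU hs h3 (a := a.swap) (a' := a'.swap) ha ha' (VIS_gx hI h h3 ha hx)⟩
  · intro n a ha hx
    exact VIS_enc hB hI h h4 ha hx
  · intro n k w v _ hw
    exact ⟨VIS_em hB hI h h4 hw, VIS_em hB hI hs h4 (w := v) (v := w) hw⟩

end HEI
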