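import Pool.Agent.HEI.StA

/-!
# HEI [WMX]: blocks which are not extendable (helper13)
-/

set_option autoImplicit false
set_option linter.unusedVariables false

namespace HEI

open Set Pool.Agent.Helper5.DU Pool.Agent.Helper6.Str Pool.Agent.Helper79.VC
  Pool.Agent.Helper97.LO Pool.Agent.Helper97.VC HER HERN

/-- a finite set is the range of an injective tuple -/
theorem WMX_enum {M : Type} {B : Set M} (hB : B.Finite) :
    ∃ (k : ℕ) (w : Fin k → M), Function.Injective w ∧ range w = B := by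
  classical
  obtain ⟨s, rfl⟩ := hB.exists_finset_coe
  refine ⟨s.card, fun i => (s.equivFin.symm i : M), ?_, ?_⟩
  · exact Subtype.val_injective.comp s.equivFin.symm.injective
  · ext x
    constructor
    · rintro ⟨i, rfl⟩
      exact (s.equivFin.symm i).2
    · intro hx
      exact ⟨s.equivFin ⟨x, hx⟩, by simp⟩

theorem WMX_Sw_le {L : FirstOrder.Language.{0, 0}} {M β : Type} {S : L.Structure M} {F X : Set M}
    {n k : ℕ} {w w' : β → M} (h : Sw S F n X w w') (hk : k ≤ n) : Sw S F k X w w' :=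
  ⟨h.1, h.2.1, h.2.2.1, h.2.2.2.le hk⟩

theorem thm_WMX (hGRP : St_GRP) (hBLK : St_BLK) (hCNJ : St_CNJ) (hUTL : St_UTL)
    (hLVF : St_LVF) : St_WMX := by
  intro L M S F m A y hLv hWm
  obtain ⟨hyA, hyf, hyX⟩ := hWm
  have hy := hLVF L M S F m A hLv y hyA
  obtain ⟨hy1, hy2, hy3, hy4, hy5, hy6, hy7, hy8⟩ := hy
  obtain ⟨l0, hl0⟩ := hy8 hyf
  unfold Xt at hyX
  push Not at hyX
  obtain ⟨m0, hm0⟩ := hyX
  -- monotonicity of the blocks
  have hmono : ∀ x, x ∉ A → ∀ i j, i ≤ j → Bl S F i univ x ⊆ Bl S F j univ x := by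
    intro x hx i j hij
    exact ((hBLK L M S F i univ).2.2.2.2.2.2 j x hij ((hLVF L M S F m A hLv x hx).1 j)).2
  have hsub : ∀ x i, Bl S F i univ x ⊆ Bi S F univ x := fun x i =>
    subset_iUnion (fun n => Bl S F n univ x) i
  obtain ⟨l, hl, hlm⟩ : ∃ l, l0 ≤ l ∧ m0 ≤ l := ⟨max l0 m0, le_max_left _ _, le_max_right _ _⟩
  have hBl : Bl S F l univ y = Bi S F univ y := by
    refine (hsub y l).antisymm ?_
    rw [hl0]
    exact hmono y hyA l0 l hl
  refine ⟨l, fun y' hy'A hC => ?_⟩
  obtain ⟨hz1, hz2, hz3, hz4, hz5, hz6, hz7, hz8⟩ := hLVF L M S F m A hLv y' hy'A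
  by_cases hyy : y' ∈ Bi S F univ y
  · -- the same block
    have h1 : Bi S F univ y' = Bi S F univ y := (hy3 y' hyy).2
    have h2 : Bl S F l univ y' = Bl S F l univ y :=
      ((hBLK L M S F l univ).2.2.1 y y' (hy1 l) (hBl.symm ▸ hyy)).2
    refine ⟨by rw [h1, h2, hBl], fun k hk => ?_⟩
    rw [h1]
    exact hm0 k (hlm.trans hk)
  · obtain ⟨σ, hσ, rfl⟩ := hC
    have hnot : σ y ∉ Bl S F l univ y := by
      rw [hBl]
      exact hyy
    -- the two `∞`-blocks are disjoint
    have hdis : Disjoint (Bi S F univ y) (Bi S F univ (σ y)) := by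
      rw [disjoint_left]
      intro z h1 h2
      apply hyy
      rw [← (hy3 z h1).2, (hz3 z h2).2]
      exact hz5
    obtain ⟨k1, w, hwi, hw⟩ := WMX_enum (hBl.symm ▸ hyf : (Bl S F l univ y).Finite)
    obtain ⟨hSw, hw'⟩ := (hCNJ L M S F l univ σ hσ).2 y (hy1 l) hnot k1 w hwi hw
    obtain ⟨w', hww⟩ : ∃ w' : Fin k1 → M, w' = fun p => σ (w p) := ⟨_, rfl⟩
    rw [← hww] at hSw hw'
    -- restriction
    have hres : ∀ W : Set M, Disjoint (Bi S F univ y) W → Disjoint (range w') W →
        Sw S F l (univ \ W) w w' := by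
      intro W h1 h2
      refine (hUTL L M S F l univ).2.2.2.2 (Fin k1) (univ \ W) w w' (subset_univ _) hSw
        fun i => ⟨⟨trivial, fun h => ?_⟩, ⟨trivial, fun h => ?_⟩⟩
      · refine disjoint_left.mp h1 ?_ h
        rw [← hBl, ← hw]
        exact ⟨i, rfl⟩
      · exact disjoint_left.mp h2 ⟨i, rfl⟩ h
    have hBi : Bi S F univ (σ y) = Bl S F l univ (σ y) := by
      by_contra h
      have h1 : ∃ j, ¬ Bl S F j univ (σ y) ⊆ Bl S F l univ (σ y) := by
        by_contra h2
        push Not at h2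
        exact h ((iUnion_subset h2).antisymm (hsub _ l))
      obtain ⟨j, hj⟩ := h1
      have hlj : l ≤ j := by
        by_contra h2
        exact hj (hmono _ hy'A j l (not_le.mp h2).le)
      have hdj : Disjoint (Bi S F univ y) (Bl S F j univ (σ y)) := hdis.mono_right (hsub _ j)
      refine hm0 l hlm ⟨j, σ y, k1, w, w', hlj, trivial, hz1 j, hdj, by rw [hw, hBl], ?_, ?_,
        hres _ ?_ ?_⟩
      · rw [hw']
        exact hmono _ hy'A l j hlj
      · intro h2
        apply hj
        rw [← h2, hw']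
      · exact hdj.mono_right sdiff_subset
      · exact disjoint_sdiff_right
    refine ⟨hBi, fun k hk hEm => ?_⟩
    obtain ⟨m', y2, k2, u, v, hkm, -, hy2g, hd, hu, hv, hvn, hS⟩ := hEm
    have hyf' : (Bi S F univ (σ y)).Finite := by
      rw [hBi, ← hw']
      exact finite_range w'
    -- conjugate such that the block of `y2` is disjoint from `Bi y`
    obtain ⟨τ, hτ, hτ2, hτ3, hτ4⟩ := (hUTL L M S F m' univ).2.1 y2
      (Bi S F univ y ∪ Bi S F univ (σ y)) hy2g (hyf.union hyf')
    have hτk : Ph S F k univ τ := (hGRP L M S F m' univ).2.2.2.1 k τ hkm hτ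
    have hτu : (fun i => τ (u i)) = u := by
      funext i
      have h1 : u i ∈ Bi S F univ (σ y) := hu ▸ mem_range_self i
      by_contra h
      rcases hτ3 _ h with h2 | h2
      · exact disjoint_left.mp hd h1 h2
      · exact disjoint_left.mp hτ4 ⟨_, h2, hτ2 _⟩ (Or.inl (Or.inr h1))
    obtain ⟨hg3, hb3⟩ := (hBLK L M S F m' univ).2.2.2.2.1 τ y2 hτ hy2g
    have hS1 := (hUTL L M S F k univ).1 k2 u v (Bl S F m' univ y2 \ range v) τ hτk hS
    rw [hτu] at hS1
    -- conjugate by the exchange of `Bi y` and `Bi y'`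
    obtain ⟨ρ, hρ⟩ := (hGRP L M S F l univ).2.2.2.2.2.1 (Fin k1) w w' hSw.1
    have hρl : Ph S F l univ ρ :=
      ((hGRP L M S F l univ).2.2.2.2.2.2 (Fin k1) w w' ρ hSw.1 hρ (fun _ => trivial)
        fun _ => trivial).mpr hSw.2.2.2
    have hd3 : ∀ x ∈ τ '' Bl S F m' univ y2, x ∉ Bi S F univ y ∧ x ∉ Bi S F univ (σ y) := by
      intro x hx
      have h1 := disjoint_left.mp hτ4 hx
      exact ⟨fun h => h1 (Or.inl (Or.inl h)), fun h => h1 (Or.inl (Or.inr h))⟩
    have hρf : ∀ x ∈ τ '' Bl S F m' univ y2, ρ x = x := by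
      intro x hx
      refine hρ.2.2 x ?_ ?_
      · rw [hw, hBl]
        exact (hd3 x hx).1
      · rw [hw', ← hBi]
        exact (hd3 x hx).2
    have hW : ρ '' (τ '' (Bl S F m' univ y2 \ range v)) = τ '' (Bl S F m' univ y2 \ range v) := by
      have : EqOn ρ id (τ '' (Bl S F m' univ y2 \ range v)) := fun x hx =>
        hρf x (image_mono sdiff_subset hx)
      rw [this.image_eq, image_id]
    have hρv : (fun i => ρ (τ (v i))) = fun i => τ (v i) := by
      funext i
      exact hρf _ ⟨v i, hv ⟨i, rfl⟩, rfl⟩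
    have hS2 := (hUTL L M S F l univ).1 k2 u (fun i => τ (v i))
      (τ '' (Bl S F m' univ y2 \ range v)) ρ hρl (WMX_Sw_le hS1 hk)
    rw [hW, hρv] at hS2
    have hru : range (fun i => ρ (u i)) = Bi S F univ y := by
      have h1 : range (fun i => ρ (u i)) = ρ '' range u := by
        rw [← range_comp]
        rfl
      have h2 : ρ '' range w' = range w := by
        rw [← range_comp]
        congr 1
        funext i
        exact hρ.2.1 i
      rw [h1, hu, hBi, ← hw', h2, hw, hBl]
    have hrv : range (fun i => τ (v i)) = τ '' range v := by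
      rw [← range_comp]
      rfl
    refine hm0 l hlm ⟨m', τ y2, k2, fun i => ρ (u i), fun i => τ (v i), hk.trans hkm, trivial,
      hg3, ?_, hru, ?_, ?_, ?_⟩
    · rw [hb3, disjoint_left]
      exact fun x h1 h2 => (hd3 x h2).1 h1
    · rw [hb3, hrv]
      exact image_mono hv
    · rw [hb3, hrv]
      exact fun h => hvn (τ.injective.image_injective h)
    · rw [hb3, hrv, ← image_sdiff τ.injective]
      exact hS2

end HEI
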