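import Pool.Agent.HERN.ALL
import Pool.Agent.HEI.AEL
import Pool.Agent.HEI.ASH
import Pool.Agent.HEI.BFT
import Pool.Agent.HEI.BLK
import Pool.Agent.HEI.CLA
import Pool.Agent.HEI.CNJ
import Pool.Agent.HEI.EFM
import Pool.Agent.HEI.EXA
import Pool.Agent.HEI.EXB
import Pool.Agent.HEI.EXC
import Pool.Agent.HEI.GRP
import Pool.Agent.HEI.GRW
import Pool.Agent.HEI.INF
import Pool.Agent.HEI.INT
import Pool.Agent.HEI.LVF
import Pool.Agent.HEI.LVL
import Pool.Agent.HEI.LVR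
import Pool.Agent.HEI.MOV
import Pool.Agent.HEI.ORB
import Pool.Agent.HEI.PBL
import Pool.Agent.HEI.RDV
import Pool.Agent.HEI.REC
import Pool.Agent.HEI.RED
import Pool.Agent.HEI.RXC
import Pool.Agent.HEI.TYI
import Pool.Agent.HEI.UTL
import Pool.Agent.HEI.VIS
import Pool.Agent.HEI.WMX

/-!
# HEI: modules A-D together
-/

set_option autoImplicit false

namespace HEI

theorem all_BLK : St_BLK := thm_BLK thm_GRP (thm_INT thm_GRP)

theorem all_CNJ : St_CNJ := thm_CNJ thm_GRP all_BLK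

theorem all_UTL : St_UTL := thm_UTL thm_GRP all_BLK all_CNJ

theorem all_INF : St_INF := thm_INF thm_GRP

theorem all_VIS : St_VIS := thm_VIS thm_GRP all_INF all_BLK all_CNJ all_UTL

theorem all_LVF : St_LVF := thm_LVF thm_GRP all_BLK

theorem all_RED : St_RED :=
  thm_RED (HERN.thm_FTN HERN.thm_RAMN) HERN.all_ROWS HERN.thm_ORDB HERN.all_SYM

theorem all_LVL : St_LVL :=
  thm_LVL HERN.thm_PN0 HERN.all_PNS HERN.thm_REP (HERN.thm_CLX HERN.thm_BAD)
    (HERN.thm_BK0 HERN.thm_CH (HERN.thm_FRC HERN.thm_CH HERN.thm_CHE HERN.thm_CHG))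
    (HERN.thm_SIZ HERN.thm_A0 HERN.thm_HCO HERN.thm_WIN)

theorem all_CLA : St_CLA :=
  thm_CLA thm_GRP all_BLK (thm_ORB thm_GRP all_BLK) (thm_LVR all_RED all_LVL)

theorem all_MOV : St_MOV := thm_MOV thm_GRP all_BLK all_UTL all_LVF

theorem all_RDV : St_RDV := thm_RDV all_BLK all_LVF all_MOV

theorem all_PBL : St_PBL := thm_PBL thm_GRP all_BLK all_CNJ all_UTL all_LVF all_RDV

theorem all_AEL : St_AEL := thm_AEL thm_GRP all_BLK all_CNJ all_RDV all_PBL

theorem all_ASH : St_ASH :=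
  thm_ASH thm_GRP all_BLK all_CNJ all_UTL all_VIS all_LVF all_PBL all_AEL

theorem all_TYI : St_TYI := thm_TYI thm_GRP all_BLK all_CNJ all_UTL all_LVF all_RDV all_PBL

theorem all_EXC : St_EXC := thm_EXC thm_GRP all_BLK all_CNJ all_UTL

theorem all_EXA : St_EXA :=
  thm_EXA thm_GRP all_BLK all_CNJ all_UTL all_LVF all_RDV all_PBL all_EXC

theorem all_EXB : St_EXB :=
  thm_EXB thm_GRP all_BLK all_CNJ all_UTL all_LVF all_RDV all_MOV all_PBL all_AEL

theorem all_WMX : St_WMX := thm_WMX thm_GRP all_BLK all_CNJ all_UTL all_LVF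

theorem all_EFM : St_EFM :=
  thm_EFM thm_GRP all_BLK all_LVF all_WMX thm_REC
    (thm_GRW thm_GRP all_BLK all_CNJ all_UTL all_LVF all_EXC)
    (thm_RXC thm_GRP all_BLK all_UTL all_LVF)

theorem all_BFT : St_BFT :=
  thm_BFT all_BLK all_VIS all_PBL all_ASH all_TYI all_EXA all_EXB all_EFM

end HEI
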