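import Pool.Agent.HEI.StK

/-!
# HEI [MBS]: exchange of blocks of one type preserves minimal bad sets (helper29)
-/

set_option autoImplicit false
set_option linter.unusedVariables false

namespace HEI

open Set Pool.Agent.Helper5.DU Pool.Agent.Helper6.Str Pool.Agent.Helper79.VC
  Pool.Agent.Helper97.LO Pool.Agent.Helper97.VC HER HERN

variable {L : FirstOrder.Language.{0, 0}} {M : Type} {S : L.Structure M} {F : Set M} {T : Dt M}
  {g0 g : Ordinal.{0}} {Ω : Set M}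

/-- boundary blocks are mapped to boundary blocks -/
theorem MBS_bz (hDDM : St_DDM) (hVCU : St_VCU) (hGPD : St_GPD) (hEQB : St_EQB) (hTRN : St_TRN)
    (hFS : FS S F T g0) (hF3 : F3 T) (hGp : Gp S F T g0 g Ω) {b b' : Set M}
    {σ : Equiv.Perm M} (hb : b ∈ T.Bk) (hb' : b' ∈ T.Bk) (hbΩ : ¬ b ⊆ Ω) (hb'Ω : ¬ b' ⊆ Ω)
    (h1 : ∀ x, σ (σ x) = x) (h2 : ∀ x, σ x ≠ x → x ∈ b ∨ x ∈ b') (h3 : σ '' b = b')
    (h4 : AtEq S S {a | a.2 = σ a.1}) {E y : Set M} (hE : E.Finite) (hEX : E ⊆ T.X)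
    (hy : Bz S F T Ω E y) : Bz S F T Ω (σ '' E) (σ '' y) := by
  obtain ⟨h, hh, hBx⟩ := hy
  have hE6 := (hEQB L M S F T g0 g Ω E hFS hGp hE hEX).2.2.2.2.2.1
  have hBx' : Bx S F T Ω (max g h) E y := (hE6 h (max g h) y (le_max_right _ _)).2 hBx
  have hmax : max g h < om1 := max_lt hGp.1.2.1 hh
  have hGh : Gp S F T g0 (max g h) Ω :=
    ⟨(hVCU L M S F T g0 hFS).1 g (max g h) Ω (le_max_left _ _) hmax hGp.1, hGp.2⟩
  have : Finite E := hE.to_subtype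
  obtain ⟨k, w, hwi, hwr⟩ := (hFS.fin y hBx.1.1).1.fin_param
  have hX : ∀ i : E ⊕ Fin k, Sum.elim (fun e : E => (e : M)) w i ∈ T.X := by
    rintro (i | i)
    · exact hEX i.2
    · refine Or.inr ⟨y, hBx.1.1, ?_⟩
      rw [← hwr]
      exact ⟨i, rfl⟩
  have hEe := (hGPD L M S F T g0 (max g h) Ω hFS hGh (E ⊕ Fin k)).2.2.2.2.2 b b' σ
    (max g h + 1) (Sum.elim (fun e : E => (e : M)) w) hb hb' hbΩ hb'Ω h1 h2 h3 h4 hX
  have he : (fun i => σ (Sum.elim (fun e : E => (e : M)) w i)) =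
      Sum.elim (fun e : E => σ (e : M)) (fun i => σ (w i)) := by
    funext i
    rcases i with i | i <;> rfl
  rw [he] at hEe
  have hr : range (fun e : E => (e : M)) = E := Subtype.range_coe
  have hr1 : range (fun e : E => σ (e : M)) = σ '' E := by
    ext u
    constructor
    · rintro ⟨e, rfl⟩
      exact ⟨e, e.2, rfl⟩
    · rintro ⟨e, he, rfl⟩
      exact ⟨⟨e, he⟩, rfl⟩
  have hr2 : range (fun i => σ (w i)) = σ '' y := by
    rw [← hwr]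
    ext u
    constructor
    · rintro ⟨e, rfl⟩
      exact ⟨w e, ⟨e, rfl⟩, rfl⟩
    · rintro ⟨_, ⟨e, rfl⟩, rfl⟩
      exact ⟨e, rfl⟩
  have hT := hTRN L M S F T g0 (max g h) Ω hFS hF3 hGh E (fun e : E => (e : M))
    (fun e : E => σ (e : M)) k w (fun i => σ (w i)) hEe
  rw [hr, hr1, hr2, hwr] at hT
  exact ⟨max g h, hmax, (hT hBx.1).2.2.1 hBx'⟩

/-- the image of a block -/
theorem MBS_im (hFS : FS S F T g0) {b b' : Set M} {σ : Equiv.Perm M} (hb : b ∈ T.Bk)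
    (hb' : b' ∈ T.Bk) (h1 : ∀ x, σ (σ x) = x) (h2 : ∀ x, σ x ≠ x → x ∈ b ∨ x ∈ b')
    (h3 : σ '' b = b') {c : Set M} (hc : c ∈ T.Bk) :
    (c = b ∧ σ '' c = b') ∨ (c = b' ∧ σ '' c = b) ∨ (c ≠ b ∧ c ≠ b' ∧ σ '' c = c) := by
  by_cases hcb : c = b
  · left
    exact ⟨hcb, by rw [hcb]; exact h3⟩
  by_cases hcb' : c = b'
  · right; left
    refine ⟨hcb', ?_⟩
    rw [hcb', ← h3, ← image_comp]
    have : (σ : M → M) ∘ σ = id := funext h1
    rw [this, image_id]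
  · right; right
    refine ⟨hcb, hcb', ?_⟩
    have hfix : ∀ x ∈ c, σ x = x := by
      intro x hx
      by_contra hne
      rcases h2 x hne with h | h
      · exact hcb (hFS.dis c hc b hb ⟨x, hx, h⟩)
      · exact hcb' (hFS.dis c hc b' hb' ⟨x, hx, h⟩)
    ext x
    constructor
    · rintro ⟨u, hu, rfl⟩
      rw [hfix u hu]
      exact hu
    · intro hx
      exact ⟨x, hx, hfix x hx⟩

/-- bad sets are mapped to bad sets -/
theorem MBS_bd (hDDM : St_DDM) (hVCU : St_VCU) (hGPD : St_GPD) (hEQB : St_EQB) (hTRN : St_TRN)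
    (hFS : FS S F T g0) (hF3 : F3 T) (hGp : Gp S F T g0 g Ω) {b b' : Set M}
    {σ : Equiv.Perm M} (hb : b ∈ T.Bk) (hb' : b' ∈ T.Bk) (hbΩ : ¬ b ⊆ Ω) (hb'Ω : ¬ b' ⊆ Ω)
    (h1 : ∀ x, σ (σ x) = x) (h2 : ∀ x, σ x ≠ x → x ∈ b ∨ x ∈ b') (h3 : σ '' b = b')
    (h4 : AtEq S S {a | a.2 = σ a.1}) {a : Set M} (haf : a.Finite) (haΩ : a ⊆ Ω)
    {Z : Set (Set M)} (hZ : Bd S F T Ω a Z) : Bd S F T Ω a ((fun c => σ '' c) '' Z) := by
  have hUn : Un T Ω := hGp.1.2.2.2.1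
  have h5 := (hDDM L M S F T g0 hFS).2.2.2.2.1
  obtain ⟨hZf, hZb, y, hyZ, hyB⟩ := hZ
  refine ⟨hZf.image _, ?_, σ '' y, ⟨y, hyZ, rfl⟩, ?_⟩
  · rintro _ ⟨c, hc, rfl⟩
    obtain ⟨hc1, hc2⟩ := hZb c hc
    show σ '' c ∈ T.Bk ∧ ¬ σ '' c ⊆ Ω
    rcases MBS_im hFS hb hb' h1 h2 h3 hc1 with ⟨_, h⟩ | ⟨_, h⟩ | ⟨_, _, h⟩
    · rw [h]; exact ⟨hb', hb'Ω⟩
    · rw [h]; exact ⟨hb, hbΩ⟩
    · rw [h]; exact ⟨hc1, hc2⟩
  · have hinj : Function.Injective (fun c : Set M => σ '' c) := σ.injective.image_injective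
    have he1 : ((fun c : Set M => σ '' c) '' Z) \ {σ '' y} =
        (fun c : Set M => σ '' c) '' (Z \ {y}) := by
      rw [image_sdiff hinj, image_singleton]
    have he2 : σ '' a = a := by
      have hfix : ∀ x ∈ a, σ x = x := by
        intro x hx
        by_contra hne
        rcases h2 x hne with h | h
        · exact Set.disjoint_left.1 ((h5 Ω b hUn hb).1 hbΩ) h (haΩ hx)
        · exact Set.disjoint_left.1 ((h5 Ω b' hUn hb').1 hb'Ω) h (haΩ hx)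
      ext x
      constructor
      · rintro ⟨u, hu, rfl⟩
        rw [hfix u hu]
        exact hu
      · intro hx
        exact ⟨x, hx, hfix x hx⟩
    have he3 : a ∪ ⋃₀ (((fun c : Set M => σ '' c) '' Z) \ {σ '' y}) =
        σ '' (a ∪ ⋃₀ (Z \ {y})) := by
      rw [he1, image_union, he2, image_sUnion]
    rw [he3]
    refine MBS_bz hDDM hVCU hGPD hEQB hTRN hFS hF3 hGp hb hb' hbΩ hb'Ω h1 h2 h3 h4 ?_ ?_ hyB
    · refine haf.union (Finite.sUnion (hZf.subset sdiff_subset) ?_)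
      intro c hc
      exact (hFS.fin c (hZb c hc.1).1).1
    · rintro x (hx | ⟨c, hc, hx⟩)
      · exact hUn.2.1 (haΩ hx)
      · exact Or.inr ⟨c, (hZb c hc.1).1, hx⟩

/-- [MBS] -/
theorem thm_MBS (hDDM : St_DDM) (hVCU : St_VCU) (hGPD : St_GPD) (hEQB : St_EQB)
    (hTRN : St_TRN) : St_MBS := by
  intro L M S F T g0 g Ω a Z z z' hFS hF3 hGp haf haΩ hMb hz hz' hz'B hz'Ω hV
  have hne : z ≠ z' := fun e => hz' (e ▸ hz)
  obtain ⟨σ, h1, h2, h3, h4⟩ := hFS.au z z' hne hV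
  have hzB := (hMb.1.2.1 z hz).1
  have hzΩ := (hMb.1.2.1 z hz).2
  have hss : ∀ c : Set M, σ '' (σ '' c) = c := by
    intro c
    rw [← image_comp]
    have : (σ : M → M) ∘ σ = id := funext h1
    rw [this, image_id]
  have hSS : ∀ C : Set (Set M), (fun c => σ '' c) '' ((fun c => σ '' c) '' C) = C := by
    intro C
    rw [← image_comp]
    have : ((fun c : Set M => σ '' c) ∘ (fun c => σ '' c)) = id := funext hss
    rw [this, image_id]
  have hbd : ∀ C, Bd S F T Ω a C → Bd S F T Ω a ((fun c => σ '' c) '' C) := fun C hC =>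
    MBS_bd hDDM hVCU hGPD hEQB hTRN hFS hF3 hGp hzB hz'B hzΩ hz'Ω h1 h2 h3 h4 haf haΩ hC
  have hZ : (fun c => σ '' c) '' Z = insert z' (Z \ {z}) := by
    ext c
    constructor
    · rintro ⟨d, hd, rfl⟩
      show σ '' d ∈ insert z' (Z \ {z})
      rcases MBS_im hFS hzB hz'B h1 h2 h3 (hMb.1.2.1 d hd).1 with ⟨_, h⟩ | ⟨h', _⟩ | ⟨hn, _, h⟩
      · rw [h]; exact Or.inl rfl
      · exact absurd (h' ▸ hd) hz'
      · rw [h]; exact Or.inr ⟨hd, hn⟩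
    · rintro (rfl | ⟨hc, hcz⟩)
      · exact ⟨z, hz, h3⟩
      · refine ⟨c, hc, ?_⟩
        rcases MBS_im hFS hzB hz'B h1 h2 h3 (hMb.1.2.1 c hc).1 with ⟨h', _⟩ | ⟨h', _⟩ | ⟨_, _, h⟩
        · exact absurd h' hcz
        · exact absurd (h' ▸ hc) hz'
        · exact h
  rw [← hZ]
  refine ⟨hbd Z hMb.1, ?_⟩
  intro Z' hZ' hBd
  have h5 := hMb.2 ((fun c => σ '' c) '' Z') ?_ (hbd Z' hBd)
  · rw [← h5, hSS]
  · have := image_mono (f := fun c : Set M => σ '' c) hZ'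
    rwa [hSS] at this

end HEI
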