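import Pool.Agent.HEI.StK

/-!
# HEI, module MNF: finitely many minimal bad sets of size `k`
-/

set_option autoImplicit false
set_option linter.unusedVariables false

namespace HEI

open Set Pool.Agent.Helper5.DU Pool.Agent.Helper6.Str Pool.Agent.Helper79.VC
  Pool.Agent.Helper97.LO Pool.Agent.Helper97.VC HER HERN

/-- [MNF] finitely many minimal bad sets of size `k` -/
theorem thm_MNF (hIMG : St_IMG) (hDDM : St_DDM) (hBXF : St_BXF) (hMNX : St_MNX)
    (hVBA : St_VBA) (hLFN : St_LFN) (hMBS : St_MBS) : St_MNF := by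
  intro L M S F T g0 g Ω a k hFS hF3 hG ha haΩ
  obtain ⟨i1, i2, i3, i4, i5, i6, i7, i8⟩ := hIMG L M S F
  obtain ⟨d1, d2, d3, d4, d5, d6, d7, d8, d9⟩ := hDDM L M S F T g0 hFS
  have hUn : Un T Ω := hG.1.2.2.2.1
  have haX : a ⊆ T.X := haΩ.trans hUn.2.1
  have claim : ∀ (j : ℕ) (Y0 : Set (Set M)), Y0.Finite → Y0.encard + (j : ℕ∞) = (k : ℕ∞) →
      {Z | Y0 ⊆ Z ∧ Mb S F T Ω a Z ∧ Z.encard = (k : ℕ∞)}.Finite := by
    intro j
    induction j with
    | zero =>
      intro Y0 hY0 hcard
      refine (Set.finite_singleton Y0).subset ?_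
      rintro Z ⟨hsub, hM, hZ⟩
      rw [Nat.cast_zero, add_zero] at hcard
      have h9 : Z.encard ≤ Y0.encard := by rw [hZ, ← hcard]
      have h10 : Y0 = Z := hY0.eq_of_subset_of_encard_le hsub h9
      exact h10.symm
    | succ j ih =>
      intro Y0 hY0 hcard
      by_cases hex : ∃ Z, Y0 ⊆ Z ∧ Mb S F T Ω a Z ∧ Z.encard = (k : ℕ∞)
      swap
      · have h0 : {Z | Y0 ⊆ Z ∧ Mb S F T Ω a Z ∧ Z.encard = (k : ℕ∞)} = ∅ := by
          ext Z
          simp only [mem_ofPred_eq, mem_empty_iff_false, iff_false]
          exact fun h => hex ⟨Z, h⟩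
        rw [h0]
        exact Set.finite_empty
      have hYb : ∀ y ∈ Y0, y ∈ T.Bk ∧ ¬ y ⊆ Ω := by
        obtain ⟨Z, h1, h2, h3⟩ := hex
        exact fun y hy => h2.1.2.1 y (h1 hy)
      set E : Set M := a ∪ ⋃₀ Y0 with hE
      have hEf : E.Finite := ha.union (hY0.sUnion fun y hy => (hFS.fin y (hYb y hy).1).1)
      have hEX : E ⊆ T.X := union_subset haX
        (sUnion_subset fun y hy x hx => Or.inr ⟨y, (hYb y hy).1, hx⟩)
      have hYE : ∀ y ∈ Y0, y ⊆ E := fun y hy x hx => Or.inr ⟨y, hy, hx⟩
      -- blocks outside of `Ω` which are not in `Y0` are free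
      have hfree : ∀ z ∈ T.Bk, ¬ z ⊆ Ω → z ∉ Y0 → Fr T Ω E z := by
        intro z hz hzΩ hzY
        refine ⟨hz, hzΩ, ?_⟩
        rw [hE, disjoint_union_right]
        refine ⟨((d5 Ω z hUn hz).1 hzΩ).mono_right haΩ, ?_⟩
        rw [disjoint_sUnion_right]
        intro y hy
        rw [disjoint_iff_inter_eq_empty]
        by_contra hne
        have h1 := hFS.dis z hz y (hYb y hy).1 (nonempty_iff_ne_empty.2 hne)
        exact hzY (h1 ▸ hy)
      have hnotin : ∀ z, Fr T Ω E z → z ∉ Y0 := by
        intro z hz hzY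
        obtain ⟨x, hx⟩ := (hFS.fin z hz.1).2.1
        exact (disjoint_left.1 hz.2.2 hx) (hYE z hzY hx)
      rcases Nat.eq_zero_or_pos j with rfl | hj
      · -- one element is missing
        have hfin := (hBXF L M S F T g0 g Ω E hFS hF3 hG hEf hEX).1
        refine (hfin.image fun z => insert z Y0).subset ?_
        rintro Z ⟨hsub, hM, hZ⟩
        have h1 : (Z \ Y0).encard = 1 := by
          have h2 := encard_sdiff_add_encard_of_subset hsub
          rw [hZ, ← hcard, add_comm] at h2
          have h3 := ENat.add_right_injective_of_ne_top (encard_ne_top_iff.2 hY0) h2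
          rw [h3]
          norm_num
        obtain ⟨z, hz⟩ := encard_eq_one.1 h1
        have hzZ : z ∈ Z \ Y0 := by rw [hz]; exact mem_singleton z
        have h2 : insert z Y0 = Z := by
          rw [← union_singleton, ← hz]
          exact union_sdiff_cancel hsub
        have h3 : Z \ {z} = Y0 := by
          rw [← h2]
          exact insert_sdiff_self_of_notMem hzZ.2
        refine ⟨z, ?_, h2⟩
        have h4 := hMNX L M S F T g0 g Ω a Z hFS hF3 hG ha haΩ hM z hzZ.1
        rw [h3] at h4
        exact h4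
      · -- at least two elements are missing
        obtain ⟨j', rfl⟩ : ∃ j', j = j' + 1 := ⟨j - 1, by omega⟩
        set H : Set (Set (Set M)) :=
          {W | ∃ Z, Y0 ⊆ Z ∧ Mb S F T Ω a Z ∧ Z.encard = (k : ℕ∞) ∧ W = Z \ Y0} with hH
        have hHf : H.Finite := by
          refine hLFN L M S F T g0 g Ω E j' H hFS hF3 hG hEf hEX ?_ ?_ ?_ ?_
          · -- sizes
            rintro W ⟨Z, hsub, hM, hZ, rfl⟩
            refine ⟨?_, fun z hz => ?_⟩
            · have h2 := encard_sdiff_add_encard_of_subset hsub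
              rw [hZ, ← hcard, add_comm] at h2
              have h3 := ENat.add_right_injective_of_ne_top (encard_ne_top_iff.2 hY0) h2
              rw [h3]
            · exact hfree z (hM.1.2.1 z hz.1).1 (hM.1.2.1 z hz.1).2 hz.2
          · -- finite degrees
            intro b
            by_cases hb : b ∈ Y0
            · have h0 : {Z | Z ∈ H ∧ b ∈ Z} = ∅ := by
                ext W
                simp only [mem_ofPred_eq, mem_empty_iff_false, iff_false]
                rintro ⟨⟨Z, hsub, hM, hZ, rfl⟩, hbW⟩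
                exact hbW.2 hb
              rw [h0]
              exact Set.finite_empty
            · have h1 := ih (insert b Y0) (hY0.insert b) (by
                rw [encard_insert_of_notMem hb, ← hcard]
                push_cast
                ring)
              refine (h1.image fun Z => Z \ Y0).subset ?_
              rintro W ⟨⟨Z, hsub, hM, hZ, rfl⟩, hbW⟩
              exact ⟨Z, ⟨insert_subset hbW.1 hsub, hM, hZ⟩, rfl⟩
          · -- visibility
            intro Ds hDs
            obtain ⟨h, hg, ho, hV⟩ := hVBA L M S F T g0 g Ω Ds hFS hF3 hG hDs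
            refine ⟨h, ho, ?_⟩
            rintro D D' p hD hD' hDs1 hDs2 hp hEp W ⟨Z, hsub, hM, hZ, rfl⟩ hdm
            have hAt : AtEq S S p := hp.2.2.2.atEq
            have hEa : dg a ⊆ p := fun x hx => hEp (by
              obtain ⟨y, hy, rfl⟩ := hx
              exact ⟨y, Or.inl hy, rfl⟩)
            have hEy : ∀ y ∈ Y0, dg y ⊆ p := fun y hy x hx => hEp (by
              obtain ⟨u, hu, rfl⟩ := hx
              exact ⟨u, hYE y hy hu, rfl⟩)
            obtain ⟨ha1, ha2⟩ := i3 p a hAt hEa
            have hy1 : ∀ y ∈ Y0, Dm p y ∧ Im p y = y := fun y hy => i3 p y hAt (hEy y hy)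
            have hdZ : ∀ z ∈ Z, Dm p z := by
              intro z hz
              by_cases hzY : z ∈ Y0
              · exact (hy1 z hzY).1
              · exact hdm z ⟨hz, hzY⟩
            have hM' := (hV D D' p hD hD' hDs1 hDs2 hp a Z ha haΩ (fun z hz => (hM.1.2.1 z hz).1)
              ha1 hdZ).1 hM
            rw [ha2] at hM'
            have hinj : InjOn (Im p) Z := fun z hz z' hz' h =>
              (i2 p z z' hAt (hdZ z hz) (hdZ z' hz')).1.1 h
            refine ⟨Im p '' Z, ?_, hM', ?_, ?_⟩
            · intro y hy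
              exact ⟨y, hsub hy, (hy1 y hy).2⟩
            · rw [hinj.encard_image, hZ]
            · ext u
              constructor
              · rintro ⟨z, hz, rfl⟩
                refine ⟨⟨z, hz.1, rfl⟩, fun hu => hz.2 ?_⟩
                have h1 := (hy1 _ hu).2
                have h2 := (i2 p (Im p z) z hAt (hy1 _ hu).1 (hdZ z hz.1)).1.1 h1
                rw [h2] at hu
                exact hu
              · rintro ⟨⟨z, hz, rfl⟩, hu⟩
                refine ⟨z, ⟨hz, fun hzY => hu ?_⟩, rfl⟩
                rw [(hy1 z hzY).2]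
                exact hzY
          · -- exchange
            rintro W ⟨Z, hsub, hM, hZ, rfl⟩ z hz z' hz' hFr hV
            have hz'Y := hnotin z' hFr
            have hz'Z : z' ∉ Z := fun h => hz' ⟨h, hz'Y⟩
            have hM' := hMBS L M S F T g0 g Ω a Z z z' hFS hF3 hG ha haΩ hM hz.1 hz'Z hFr.1
              hFr.2.1 hV
            refine ⟨insert z' (Z \ {z}), ?_, hM', ?_, ?_⟩
            · intro y hy
              refine Or.inr ⟨hsub hy, ?_⟩
              rintro rfl
              exact hz.2 hy
            · rw [encard_insert_of_notMem (fun h => hz'Z h.1), encard_sdiff_singleton_add_one hz.1, hZ]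
            · ext u
              simp only [mem_insert_iff, mem_sdiff, mem_singleton_iff]
              constructor
              · rintro (rfl | ⟨⟨h1, h2⟩, h3⟩)
                · exact ⟨Or.inl rfl, hz'Y⟩
                · exact ⟨Or.inr ⟨h1, h3⟩, h2⟩
              · rintro ⟨rfl | ⟨h1, h3⟩, h2⟩
                · exact Or.inl rfl
                · exact Or.inr ⟨⟨h1, h2⟩, h3⟩
        refine (hHf.image fun W => W ∪ Y0).subset ?_
        rintro Z ⟨hsub, hM, hZ⟩
        exact ⟨Z \ Y0, ⟨Z, hsub, hM, hZ, rfl⟩, sdiff_union_of_subset hsub⟩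
  have h := claim k ∅ Set.finite_empty (by rw [encard_empty, zero_add])
  refine h.subset ?_
  rintro Z ⟨hM, hZ⟩
  exact ⟨empty_subset _, hM, hZ⟩

end HEI
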