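import Pool.Agent.HEI.StK

/-!
# HEI: one level for all minimal bad sets
-/

set_option autoImplicit false
set_option linter.unusedVariables false

namespace HEI

open Set Pool.Agent.Helper5.DU Pool.Agent.Helper6.Str Pool.Agent.Helper79.VC
  Pool.Agent.Helper97.LO Pool.Agent.Helper97.VC HER HERN

/-- [MNL] one level for all minimal bad sets -/
theorem thm_MNL (hVCU : St_VCU) (hEQB : St_EQB) (hMNX : St_MNX) (hMNF : St_MNF) : St_MNL := by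
  intro L M S F T g0 g Ω hFS hF3 hG
  obtain ⟨hg0, hg, hΩc, hΩU, -⟩ := hG.1
  -- countably many minimal bad sets
  have hZc : ∀ a : Set M, a.Finite → a ⊆ Ω → {Z | Mb S F T Ω a Z}.Countable := by
    intro a ha haΩ
    have h1 : {Z | Mb S F T Ω a Z} ⊆ ⋃ k : ℕ, {Z | Mb S F T Ω a Z ∧ Z.encard = (k : ℕ∞)} := by
      intro Z hZ
      have hfin : Z.Finite := hZ.1.1
      refine mem_iUnion.mpr ⟨Z.ncard, hZ, ?_⟩
      exact hfin.cast_ncard_eq.symm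
    exact (countable_iUnion fun k =>
      (hMNF L M S F T g0 g Ω a k hFS hF3 hG ha haΩ).countable).mono h1
  have hac : {a : Set M | a.Finite ∧ a ⊆ Ω}.Countable := countable_ofPred_finite_subset hΩc
  have hPc : {q : Set M × Set (Set M) | (q.1.Finite ∧ q.1 ⊆ Ω) ∧ Mb S F T Ω q.1 q.2}.Countable := by
    have h1 : {q : Set M × Set (Set M) | (q.1.Finite ∧ q.1 ⊆ Ω) ∧ Mb S F T Ω q.1 q.2} ⊆
        ⋃ a ∈ {a : Set M | a.Finite ∧ a ⊆ Ω}, (fun Z => (a, Z)) '' {Z | Mb S F T Ω a Z} := by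
      rintro ⟨a, Z⟩ ⟨h2, h3⟩
      exact mem_biUnion (x := a) h2 ⟨Z, h3, rfl⟩
    exact (hac.biUnion fun a ha => (hZc a ha.1 ha.2).image _).mono h1
  have hzc : {z | ∃ (a : Set M) (Z : Set (Set M)), a.Finite ∧ a ⊆ Ω ∧ Mb S F T Ω a Z ∧
      z ∈ Z}.Countable := by
    have h1 : {z | ∃ (a : Set M) (Z : Set (Set M)), a.Finite ∧ a ⊆ Ω ∧ Mb S F T Ω a Z ∧ z ∈ Z} ⊆
        ⋃ q ∈ {q : Set M × Set (Set M) | (q.1.Finite ∧ q.1 ⊆ Ω) ∧ Mb S F T Ω q.1 q.2}, q.2 := by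
      rintro z ⟨a, Z, h2, h3, h4, h5⟩
      exact mem_biUnion (x := (a, Z)) ⟨⟨h2, h3⟩, h4⟩ h5
    exact (hPc.biUnion fun q hq => hq.2.1.1.countable).mono h1
  refine ⟨?_, ?_⟩
  · refine hΩc.union (hzc.sUnion ?_)
    rintro z ⟨a, Z, h2, h3, h4, h5⟩
    exact (hFS.fin z (h4.1.2.1 z h5).1).1.countable
  · have hTc : {q : (Set M × Set (Set M)) × Set M | ((q.1.1.Finite ∧ q.1.1 ⊆ Ω) ∧
        Mb S F T Ω q.1.1 q.1.2) ∧ q.2 ∈ q.1.2}.Countable := by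
      have h1 : {q : (Set M × Set (Set M)) × Set M | ((q.1.1.Finite ∧ q.1.1 ⊆ Ω) ∧
          Mb S F T Ω q.1.1 q.1.2) ∧ q.2 ∈ q.1.2} ⊆
          ⋃ q ∈ {q : Set M × Set (Set M) | (q.1.Finite ∧ q.1 ⊆ Ω) ∧ Mb S F T Ω q.1 q.2},
            (fun z => (q, z)) '' q.2 := by
        rintro ⟨q, z⟩ ⟨h2, h3⟩
        exact mem_biUnion (x := q) h2 ⟨z, h3, rfl⟩
      exact (hPc.biUnion fun q hq => (hq.2.1.1.countable).image _).mono h1
    have hcnt := hTc.to_subtype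
    have hlv : ∀ q : {q : (Set M × Set (Set M)) × Set M | ((q.1.1.Finite ∧ q.1.1 ⊆ Ω) ∧
        Mb S F T Ω q.1.1 q.1.2) ∧ q.2 ∈ q.1.2}, ∃ h < om1,
        Bx S F T Ω h (q.1.1.1 ∪ ⋃₀ (q.1.1.2 \ {q.1.2})) q.1.2 := by
      rintro ⟨⟨⟨a, Z⟩, z⟩, ⟨h1, h2⟩, h3⟩
      exact hMNX L M S F T g0 g Ω a Z hFS hF3 hG h1.1 h1.2 h2 z h3
    choose lv hlv1 hlv2 using hlv
    obtain ⟨h1, hh1, hle⟩ := exists_bound hlv1
    refine ⟨max g h1, le_max_left _ _, max_lt hg hh1, fun a Z ha haΩ hMb z hz => ?_⟩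
    have hE : (a ∪ ⋃₀ (Z \ {z})).Finite := by
      refine ha.union (Set.Finite.sUnion (hMb.1.1.subset sdiff_subset) fun y hy => ?_)
      exact (hFS.fin y (hMb.1.2.1 y hy.1).1).1
    have hEX : a ∪ ⋃₀ (Z \ {z}) ⊆ T.X := by
      refine union_subset (haΩ.trans hΩU.2.1) (sUnion_subset fun y hy => ?_)
      exact (subset_sUnion_of_mem (hMb.1.2.1 y hy.1).1).trans subset_union_right
    have h6 := ((hEQB L M S F T g0 g Ω _ hFS hG hE hEX).2.2.2.2.2.1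
      (lv ⟨((a, Z), z), ⟨⟨ha, haΩ⟩, hMb⟩, hz⟩) (max g h1) z
      ((hle _).trans (le_max_right _ _))).2
    exact h6 (hlv2 ⟨((a, Z), z), ⟨⟨ha, haΩ⟩, hMb⟩, hz⟩)

end HEI
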