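import Pool.Agent.HEI.StK

/-!
# HEI [OPL]: the elements of the minimal bad sets (helper51)
-/

set_option autoImplicit false
set_option linter.unusedVariables false

namespace HEI

open Set Pool.Agent.Helper5.DU Pool.Agent.Helper6.Str Pool.Agent.Helper79.VC
  Pool.Agent.Helper97.LO Pool.Agent.Helper97.VC HER HERN

variable {L : FirstOrder.Language.{0, 0}} {M : Type} {S : L.Structure M} {F : Set M} {T : Dt M}
  {g0 : Ordinal.{0}} {Ω : Set M}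

theorem OPL_un (hFS : FS S F T g0) (hΩ : Un T Ω) : Un T (Op S F T Ω) := by
  refine ⟨fun x hx => Or.inl (hΩ.1 hx), ?_, ?_⟩
  · rintro x (hx | ⟨z, ⟨a, Z, ha, haΩ, hMb, hz⟩, hx⟩)
    · exact hΩ.2.1 hx
    · exact Or.inr ⟨z, (hMb.1.2.1 z hz).1, hx⟩
  · rintro b hb ⟨x, hxb, hx | ⟨z, ⟨a, Z, ha, haΩ, hMb, hz⟩, hx⟩⟩
    · exact fun y hy => Or.inl (hΩ.2.2 b hb ⟨x, hxb, hx⟩ hy)
    · have hbz : b = z := hFS.dis b hb z (hMb.1.2.1 z hz).1 ⟨x, hxb, hx⟩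
      rw [hbz]
      exact fun y hy => Or.inr ⟨z, ⟨a, Z, ha, haΩ, hMb, hz⟩, hy⟩

theorem OPL_one (hIMG : St_IMG) (hFS : FS S F T g0) {g h0 : Ordinal.{0}} (hgh : g ≤ h0)
    (hvis : ∀ D D' p, DD T Ω D → DD T Ω D' → Ps S F g D D' p → ∀ a ∈ p, a.1 ∈ Ω ↔ a.2 ∈ Ω)
    (hV : ∀ D D' p, DD T Ω D → DD T Ω D' →
      Ps S F h0 D D' p → ∀ (a : Set M) (Z : Set (Set M)), a.Finite → a ⊆ Ω →
      (∀ z ∈ Z, z ∈ T.Bk) → Dm p a → (∀ z ∈ Z, Dm p z) →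
      (Mb S F T Ω a Z ↔ Mb S F T Ω (Im p a) (Im p '' Z)))
    {D D' : Set M} {p : Set (M × M)} (hD : DD T Ω D) (hD' : DD T Ω D')
    (hsub : Op S F T Ω ⊆ D) (hp : Ps S F (h0 + 1) D D' p) {x x' : M} (hx : (x, x') ∈ p)
    (hxO : x ∈ Op S F T Ω) : x' ∈ Op S F T Ω := by
  obtain ⟨-, -, -, -, -, i6, -, i8⟩ := hIMG L M S F
  have hle : g ≤ h0 + 1 := hgh.trans le_self_add
  rcases hxO with hxO | ⟨z, ⟨a, Z, ha, haΩ, hMb, hz⟩, hxz⟩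
  · exact Or.inl ((hvis D D' p hD hD' (i8 _ _ D D' p p hle hp Subset.rfl hp.2.1) _ hx).1 hxO)
  · have hZB : ∀ z ∈ Z, z ∈ T.Bk := fun z hz => (hMb.1.2.1 z hz).1
    have hfin : (a ∪ ⋃₀ Z).Finite :=
      ha.union (hMb.1.1.sUnion fun z hz => (hFS.fin z (hZB z hz)).1)
    have hsubD : a ∪ ⋃₀ Z ⊆ D := by
      rintro y (hy | ⟨z', hz', hy⟩)
      · exact hsub (Or.inl (haΩ hy))
      · exact hsub (Or.inr ⟨z', ⟨a, Z, ha, haΩ, hMb, hz'⟩, hy⟩)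
    obtain ⟨p', hpp', hp', hdm⟩ := (i6 h0 D D' p _ hp hfin).1 hsubD
    have hMb' : Mb S F T Ω (Im p' a) (Im p' '' Z) :=
      (hV D D' p' hD hD' hp' a Z ha haΩ hZB (fun y hy => hdm y (Or.inl hy))
        (fun z' hz' y hy => hdm y (Or.inr ⟨z', hz', hy⟩))).1 hMb
    have hvp : ∀ c ∈ p', c.1 ∈ Ω ↔ c.2 ∈ Ω :=
      hvis D D' p' hD hD' (i8 _ _ D D' p' p' hgh hp' Subset.rfl hp'.2.1)
    refine Or.inr ⟨Im p' z, ⟨Im p' a, Im p' '' Z, ?_, ?_, hMb', mem_image_of_mem _ hz⟩,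
      ⟨x, hxz, hpp' hx⟩⟩
    · refine (hp'.1.image Prod.snd).subset ?_
      rintro y ⟨w, hw, hwy⟩
      exact ⟨(w, y), hwy, rfl⟩
    · rintro y ⟨w, hw, hwy⟩
      exact (hvp _ hwy).1 (haΩ hw)

/-- [OPL] -/
theorem thm_OPL (hIMG : St_IMG) (hDDM : St_DDM) (hMNL : St_MNL) (hVBB : St_VBB) : St_OPL := by
  intro L M S F T g0 g Ω hFS hF3 hGp
  obtain ⟨-, d2, -, -, -, -, -, -, -⟩ := hDDM L M S F T g0 hFS
  obtain ⟨-, -, -, -, -, -, i7, i8⟩ := hIMG L M S F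
  obtain ⟨hg0, hgl, hΩc, hΩu, hvis⟩ := hGp.1
  obtain ⟨hOc, -⟩ := hMNL L M S F T g0 g Ω hFS hF3 hGp
  obtain ⟨h0, hgh, hhl, hV⟩ := hVBB L M S F T g0 g Ω hFS hF3 hGp
  have hun := OPL_un (S := S) (F := F) hFS hΩu
  have hsub : Ω ⊆ Op S F T Ω := fun x hx => Or.inl hx
  refine ⟨h0 + 1, hgh.trans le_self_add, hg0.trans (hgh.trans le_self_add),
    add_one_lt_om1 hhl, hOc, hun, ?_⟩
  intro D D' p hD hD' hp a ha
  have hDD := d2 Ω _ D hΩu hun hsub hD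
  have hDD' := d2 Ω _ D' hΩu hun hsub hD'
  constructor
  · exact fun h => OPL_one hIMG hFS hgh hvis hV hDD hDD' hD.2.2.1 hp (x := a.1) (x' := a.2) ha h
  · exact fun h => OPL_one hIMG hFS hgh hvis hV hDD' hDD hD'.2.2.1 (i7 _ _ _ _ hp)
      (x := a.2) (x' := a.1) ha h

end HEI
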