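import Pool.Agent.HEI.StK

/-!
# HEI: [SQV] the sequence of visible sets
-/

set_option autoImplicit false
set_option linter.unusedVariables false

namespace HEI

open Set Pool.Agent.Helper5.DU Pool.Agent.Helper6.Str Pool.Agent.Helper79.VC
  Pool.Agent.Helper97.LO Pool.Agent.Helper97.VC HER HERN

theorem thm_SQV (hVCU : St_VCU) (hSTP : St_STP) : St_SQV := by
  intro L M S F T g0 g1 Ω1 hFS hF3 hV1 hGp
  obtain ⟨-, -, hU⟩ := hVCU L M S F T g0 hFS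
  have hex : ∀ x : {x : Ordinal.{0} × Set M // Vs S F T g0 x.1 x.2 ∧ Ω1 ⊆ x.2},
      ∃ y : {x : Ordinal.{0} × Set M // Vs S F T g0 x.1 x.2 ∧ Ω1 ⊆ x.2},
        x.1.1 ≤ y.1.1 ∧ Op S F T x.1.2 ⊆ y.1.2 ∧
        ∀ (a : Set M) (n : ℕ) (b : Set M) (n' : ℕ) (b' : Set M), a.Finite → a ⊆ x.1.2 →
          b ∈ T.Bk → b' ∈ T.Bk →
          (∃ g2 Ω2, Vs S F T g0 g2 Ω2 ∧ x.1.2 ⊆ Ω2 ∧ Kl S F T g2 Ω2 a n b n' b') →
          Kl S F T y.1.1 y.1.2 a n b n' b' := by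
    rintro ⟨⟨g, Ω⟩, hV, hsub⟩
    obtain ⟨g', Ω', hV', hgg, hOp, hK⟩ := hSTP L M S F T g0 g Ω hFS hF3 (hGp g Ω hV hsub)
    refine ⟨⟨(g', Ω'), hV', ?_⟩, hgg, hOp, hK⟩
    exact hsub.trans ((Set.subset_union_left).trans hOp)
  choose nx hnx1 hnx2 hnx3 using hex
  let x0 : {x : Ordinal.{0} × Set M // Vs S F T g0 x.1 x.2 ∧ Ω1 ⊆ x.2} :=
    ⟨(g1, Ω1), hV1, subset_rfl⟩
  let sq : ℕ → {x : Ordinal.{0} × Set M // Vs S F T g0 x.1 x.2 ∧ Ω1 ⊆ x.2} :=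
    fun i => Nat.rec x0 (fun _ y => nx y) i
  have hs : ∀ i, sq (i + 1) = nx (sq i) := fun i => rfl
  obtain ⟨h, hVh, hle⟩ := hU (fun i => (sq i).1.1) (fun i => (sq i).1.2) (fun i => (sq i).2.1)
  refine ⟨fun i => (sq i).1.1, fun i => (sq i).1.2, h, fun i => (sq i).2.1, (sq 0).2.2, ?_, ?_,
    hVh, ?_⟩
  · intro i
    have := hnx2 (sq i)
    rw [← hs i] at this
    exact this
  · intro i
    refine ⟨?_, hle i⟩
    have := hnx1 (sq i)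
    rw [← hs i] at this
    exact this
  · intro i a n b n' b' ha ha' hb hb' hex
    have := hnx3 (sq i) a n b n' b' ha ha' hb hb' hex
    rw [← hs i] at this
    exact this

end HEI
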