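import Pool.Agent.HEI.StK

/-!
# HEI: one step of the closure
-/

set_option autoImplicit false
set_option linter.unusedVariables false

namespace HEI

open Set Pool.Agent.Helper5.DU Pool.Agent.Helper6.Str Pool.Agent.Helper79.VC
  Pool.Agent.Helper97.LO Pool.Agent.Helper97.VC HER HERN

section

variable {L : FirstOrder.Language.{0, 0}} {M : Type} {S : L.Structure M} {F : Set M} {T : Dt M}
  {g0 : Ordinal.{0}}

private theorem STP_mono (hD : St_DDM) (hFS : FS S F T g0) {g2 g' : Ordinal.{0}} {Ω2 Ω' : Set M}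
    (h2 : Vs S F T g0 g2 Ω2) (h' : Vs S F T g0 g' Ω') (hg : g2 ≤ g') (hΩ : Ω2 ⊆ Ω')
    {a : Set M} {n : ℕ} {b : Set M} {n' : ℕ} {b' : Set M}
    (hK : Kl S F T g2 Ω2 a n b n' b') : Kl S F T g' Ω' a n b n' b' := by
  intro c c' hc hc' hcΩ hcΩ' hE
  refine hK c c' hc hc' (fun h => hcΩ (h.trans hΩ)) (fun h => hcΩ' (h.trans hΩ)) ?_
  obtain ⟨k, w, w', hw, hw', hr, hr', hEe⟩ := hE
  refine ⟨k, w, w', hw, hw', hr, hr', ?_⟩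
  refine Relation.TransGen.mono ?_ _ _ hEe
  rintro y y' ⟨D, D', hDD, hDD', h1, h2', h3, h4⟩
  obtain ⟨-, hmon, -⟩ := hD L M S F T g0 hFS
  exact ⟨D, D', hmon Ω2 Ω' D h2.2.2.2.1 h'.2.2.2.1 hΩ hDD,
    hmon Ω2 Ω' D' h2.2.2.2.1 h'.2.2.2.1 hΩ hDD', h1, h2', h3,
    h4.mono (mul_le_mul_right hg _)⟩

private theorem STP_cls (hFS : FS S F T g0) {g : Ordinal.{0}} {Ω : Set M}
    {a : Set M} {n : ℕ} {b c : Set M} {n' : ℕ} {b' c' : Set M} (hbc : T.V n b c)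
    (hbc' : T.V n' b' c') (hK : Kl S F T g Ω a n b n' b') : Kl S F T g Ω a n c n' c' := by
  intro d d' hd hd' h1 h2
  exact hK d d' (hFS.vt n b c d hbc hd) (hFS.vt n' b' c' d' hbc' hd') h1 h2

end

theorem thm_STP (hD : St_DDM) (hV : St_VCU) (hO : St_OPL) : St_STP := by
  classical
  intro L M S F T g0 g Ω hFS hF3 hGp
  obtain ⟨h0, hgh0, hVs0⟩ := hO L M S F T g0 g Ω hFS hF3 hGp
  choose R hRf hR using hFS.vf
  let J : Set (Set M × (ℕ × Set M) × (ℕ × Set M)) :=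
    {j | (j.1.Finite ∧ j.1 ⊆ Ω) ∧ (∃ k, j.2.1.2 ∈ R j.2.1.1 k) ∧ ∃ k, j.2.2.2 ∈ R j.2.2.1 k}
  have hQ : {q : ℕ × Set M | ∃ k, q.2 ∈ R q.1 k}.Countable := by
    have h1 : {q : ℕ × Set M | ∃ k, q.2 ∈ R q.1 k} ⊆ ⋃ n, ⋃ k, (fun c => (n, c)) '' R n k := by
      rintro ⟨n, c⟩ ⟨k, hk⟩
      exact mem_iUnion.2 ⟨n, mem_iUnion.2 ⟨k, c, hk, rfl⟩⟩
    exact (countable_iUnion fun n => countable_iUnion fun k =>
      ((hRf n k).image _).countable).mono h1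
  have hJ : J.Countable := by
    have h1 : J ⊆ {a : Set M | a.Finite ∧ a ⊆ Ω} ×ˢ
        ({q : ℕ × Set M | ∃ k, q.2 ∈ R q.1 k} ×ˢ {q : ℕ × Set M | ∃ k, q.2 ∈ R q.1 k}) := by
      rintro ⟨a, q, q'⟩ ⟨h1, h2, h3⟩
      exact ⟨h1, h2, h3⟩
    exact ((countable_ofPred_finite_subset hGp.1.2.2.1).prod (hQ.prod hQ)).mono h1
  have hf : ∀ j : Set M × (ℕ × Set M) × (ℕ × Set M), ∃ q : Ordinal.{0} × Set M,
      Vs S F T g0 q.1 q.2 ∧ ((∃ g2 Ω2, Vs S F T g0 g2 Ω2 ∧ Ω ⊆ Ω2 ∧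
        Kl S F T g2 Ω2 j.1 j.2.1.1 j.2.1.2 j.2.2.1 j.2.2.2) →
        Kl S F T q.1 q.2 j.1 j.2.1.1 j.2.1.2 j.2.2.1 j.2.2.2) := by
    intro j
    by_cases h : ∃ g2 Ω2, Vs S F T g0 g2 Ω2 ∧ Ω ⊆ Ω2 ∧
        Kl S F T g2 Ω2 j.1 j.2.1.1 j.2.1.2 j.2.2.1 j.2.2.2
    · obtain ⟨g2, Ω2, h1, h2, h3⟩ := h
      exact ⟨(g2, Ω2), h1, fun _ => h3⟩
    · exact ⟨(g, Ω), hGp.1, fun h' => absurd h' h⟩
  choose f hf1 hf2 using hf
  obtain ⟨e, he⟩ := countable_iff_exists_subset_range.1 hJ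
  let u : ℕ → Ordinal.{0} × Set M := fun i => Nat.casesOn i (h0, Op S F T Ω) fun i => f (e i)
  have hu : ∀ i, Vs S F T g0 (u i).1 (u i).2 := by
    intro i
    cases i with
    | zero => exact hVs0
    | succ i => exact hf1 (e i)
  obtain ⟨h, hh1, hh2⟩ := (hV L M S F T g0 hFS).2.2 (fun i => (u i).1) (fun i => (u i).2) hu
  refine ⟨h, ⋃ i, (u i).2, hh1, hgh0.trans (hh2 0), subset_iUnion (fun i => (u i).2) 0, ?_⟩
  intro a n b n' b' ha haΩ hb hb' hex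
  obtain ⟨k, hk⟩ := (hFS.fin b hb).1.exists_encard_eq_coe
  obtain ⟨k', hk'⟩ := (hFS.fin b' hb').1.exists_encard_eq_coe
  obtain ⟨c, hcR, hcV⟩ := hR n k b hb hk
  obtain ⟨c', hcR', hcV'⟩ := hR n' k' b' hb' hk'
  have hj : (a, (n, c), (n', c')) ∈ J := ⟨⟨ha, haΩ⟩, ⟨k, hcR⟩, ⟨k', hcR'⟩⟩
  obtain ⟨i, hi⟩ := he hj
  have h1 : Kl S F T (f (e i)).1 (f (e i)).2 a n c n' c' := by
    have h2 := hf2 (e i)
    rw [hi] at h2 ⊢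
    apply h2
    obtain ⟨g2, Ω2, h3, h4, h5⟩ := hex
    exact ⟨g2, Ω2, h3, h4, STP_cls hFS (hFS.vs n c b hcV) (hFS.vs n' c' b' hcV') h5⟩
  exact STP_cls hFS hcV hcV' (STP_mono hD hFS (hf1 (e i)) hh1 (hh2 (i + 1))
    (subset_iUnion (fun i => (u i).2) (i + 1)) h1)

end HEI
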