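import Pool.Agent.HEI.StK

/-!
# HEI, module VBB: minimal bad sets are visible
-/

set_option autoImplicit false
set_option linter.unusedVariables false

namespace HEI

open Set Pool.Agent.Helper5.DU Pool.Agent.Helper6.Str Pool.Agent.Helper79.VC
  Pool.Agent.Helper97.LO Pool.Agent.Helper97.VC HER HERN

/-- every bad set contains a minimal bad set -/
theorem VBB_min {L : FirstOrder.Language.{0, 0}} {M : Type} (S : L.Structure M)
    (F : Set M) (T : Dt M) (Ω a : Set M) : ∀ (n : ℕ) (Z : Set (Set M)), Z.ncard = n →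
    Bd S F T Ω a Z → ∃ Z', Z' ⊆ Z ∧ Mb S F T Ω a Z' := by
  intro n
  induction n using Nat.strong_induction_on with
  | _ n ih =>
    intro Z hn hZ
    by_cases h : ∀ Z', Z' ⊆ Z → Bd S F T Ω a Z' → Z' = Z
    · exact ⟨Z, Subset.rfl, hZ, h⟩
    · push Not at h
      obtain ⟨Z', h1, h2, h3⟩ := h
      have h4 : Z'.ncard < n := by
        rw [← hn]
        exact ncard_lt_ncard (h1.ssubset_of_ne h3) hZ.1
      obtain ⟨Z'', h5, h6⟩ := ih _ h4 Z' rfl h2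
      exact ⟨Z'', h5.trans h1, h6⟩

theorem thm_VBB (hI : St_IMG) (hV : St_VBT) (hM : St_MNL) : St_VBB := by
  intro L M S F T g0 g Ω hFS hF3 hG
  obtain ⟨-, h0, hg, ho, hlev⟩ := hM L M S F T g0 g Ω hFS hF3 hG
  obtain ⟨i1, i2, i3, i4, i5, i6, i7, i8⟩ := hI L M S F
  -- transport of minimal bad sets
  have key : ∀ D D' p, DD T Ω D → DD T Ω D' → Ps S F (h0 + 1) D D' p →
      ∀ (a : Set M) (Z : Set (Set M)), a.Finite → a ⊆ Ω → Dm p a → (∀ z ∈ Z, Dm p z) →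
      Mb S F T Ω a Z → Bd S F T Ω (Im p a) (Im p '' Z) := by
    rintro D D' p hD hD' hp a Z ha haΩ hpa hpZ hMb
    obtain ⟨⟨hZ, hZb, z, hz, hBz⟩, -⟩ := id hMb
    obtain ⟨⟨h1, h2, h3, h4⟩, h5⟩ := hV L M S F T g0 g h0 Ω hFS hF3 hG hg ho D D' p hD hD' hp a Z
      ha haΩ hZ hZb hpa hpZ
    exact ⟨h3, h4, Im p z, ⟨z, hz, rfl⟩, h0, ho, h5 z hz (hlev a Z ha haΩ hMb z hz)⟩
  have key2 : ∀ D D' p, DD T Ω D → DD T Ω D' → Ps S F (h0 + 1) D D' p →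
      ∀ (a : Set M) (Z : Set (Set M)), a.Finite → a ⊆ Ω → Dm p a → (∀ z ∈ Z, Dm p z) →
      Mb S F T Ω a Z → Mb S F T Ω (Im p a) (Im p '' Z) := by
    rintro D D' p hD hD' hp a Z ha haΩ hpa hpZ hMb
    have hAt : AtEq S S p := by
      have := hp.2.2.2
      rw [BFR.def] at this
      exact this.1
    obtain ⟨⟨ha1, ha2, -, -⟩, -⟩ := hV L M S F T g0 g h0 Ω hFS hF3 hG hg ho D D' p hD hD' hp a ∅
      ha haΩ finite_empty (by simp) hpa (by simp)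
    have hinv : ∀ b : Set M, Dm p b → Im (Prod.swap ⁻¹' p) (Im p b) = b ∧
        Dm (Prod.swap ⁻¹' p) (Im p b) := fun b hb => ⟨(i1 p b hAt hb).2.1, (i1 p b hAt hb).2.2.1⟩
    refine ⟨key D D' p hD hD' hp a Z ha haΩ hpa hpZ hMb, fun Z1 hZ1 hB1 => ?_⟩
    obtain ⟨Z2, hZ2, hM2⟩ := VBB_min S F T Ω (Im p a) _ Z1 rfl hB1
    have h1 := key D' D (Prod.swap ⁻¹' p) hD' hD (i7 _ _ _ _ hp) (Im p a) Z2
      ha2 ha1 (hinv a hpa).2 (by
        intro y hy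
        obtain ⟨z, hz, rfl⟩ := hZ1 (hZ2 hy)
        exact (hinv z (hpZ z hz)).2) hM2
    rw [(hinv a hpa).1] at h1
    have h2 : Im (Prod.swap ⁻¹' p) '' Z2 ⊆ Z := by
      rintro _ ⟨y, hy, rfl⟩
      obtain ⟨z, hz, rfl⟩ := hZ1 (hZ2 hy)
      rw [(hinv z (hpZ z hz)).1]
      exact hz
    have h3 := hMb.2 _ h2 h1
    refine Subset.antisymm hZ1 ?_
    rintro _ ⟨z, hz, rfl⟩
    rw [← h3] at hz
    obtain ⟨y, hy, rfl⟩ := hz
    obtain ⟨z', hz', rfl⟩ := hZ1 (hZ2 hy)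
    rw [(hinv z' (hpZ z' hz')).1]
    exact hZ2 hy
  refine ⟨h0 + 1, hg.trans (le_self_add), add_one_lt_om1 ho, ?_⟩
  intro D D' p hD hD' hp a Z ha haΩ hZb hpa hpZ
  have hAt : AtEq S S p := by
    have := hp.2.2.2
    rw [BFR.def] at this
    exact this.1
  obtain ⟨⟨ha1, ha2, -, -⟩, -⟩ := hV L M S F T g0 g h0 Ω hFS hF3 hG hg ho D D' p hD hD' hp a ∅
    ha haΩ finite_empty (by simp) hpa (by simp)
  have hinv : ∀ b : Set M, Dm p b → Im (Prod.swap ⁻¹' p) (Im p b) = b ∧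
      Dm (Prod.swap ⁻¹' p) (Im p b) := fun b hb => ⟨(i1 p b hAt hb).2.1, (i1 p b hAt hb).2.2.1⟩
  refine ⟨key2 D D' p hD hD' hp a Z ha haΩ hpa hpZ, fun hMb => ?_⟩
  have h1 := key2 D' D (Prod.swap ⁻¹' p) hD' hD (i7 _ _ _ _ hp) (Im p a) (Im p '' Z) ha2 ha1
    (hinv a hpa).2 (by
      rintro _ ⟨z, hz, rfl⟩
      exact (hinv z (hpZ z hz)).2) hMb
  rw [(hinv a hpa).1] at h1
  have h2 : Im (Prod.swap ⁻¹' p) '' (Im p '' Z) = Z := by
    rw [image_image]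
    ext z
    constructor
    · rintro ⟨z', hz', rfl⟩
      change Im (Prod.swap ⁻¹' p) (Im p z') ∈ Z
      rw [(hinv z' (hpZ z' hz')).1]
      exact hz'
    · intro hz
      exact ⟨z, hz, (hinv z (hpZ z hz)).1⟩
  rwa [h2] at h1

end HEI
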