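import Pool.Agent.HEI.ALLG
import Pool.Agent.HEI.MAINI
import Pool.Agent.HEI.FDE
import Pool.Agent.HEI.CLC
import Pool.Agent.HEI.LFN
import Pool.Agent.HEI.MBS
import Pool.Agent.HEI.MNF
import Pool.Agent.HEI.MNL
import Pool.Agent.HEI.VBB
import Pool.Agent.HEI.OPL
import Pool.Agent.HEI.STP
import Pool.Agent.HEI.SQV
import Pool.Agent.HEI.KIL
import Pool.Agent.HEI.CLO

/-!
# HEI: all modules together
-/

set_option autoImplicit false

namespace HEI

theorem all_FSA : St_FSA := all_FSA_of (thm_FDE thm_GRP all_BLK all_LVF)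

theorem all_CLC : St_CLC :=
  thm_CLC thm_IMG thm_DDM all_VCU (thm_CLS thm_DDM thm_RQE thm_SEQ)

theorem all_MNX : St_MNX := all_MNX_of all_CLC

theorem all_LFN : St_LFN := thm_LFN thm_IMG thm_DDM thm_RQE thm_SEQ all_DCD

theorem all_MBS : St_MBS := thm_MBS thm_DDM all_VCU all_GPD all_EQB all_TRN

theorem all_MNF : St_MNF :=
  thm_MNF thm_IMG thm_DDM all_BXF all_MNX all_VBA all_LFN all_MBS

theorem all_MNL : St_MNL := thm_MNL all_VCU all_EQB all_MNX all_MNF

theorem all_VBB : St_VBB := thm_VBB thm_IMG all_VBT all_MNL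

theorem all_OPL : St_OPL := thm_OPL thm_IMG thm_DDM all_MNL all_VBB

theorem all_SQV : St_SQV := thm_SQV all_VCU (thm_STP thm_DDM all_VCU all_OPL)

theorem all_KIL : St_KIL :=
  thm_KIL thm_IMG thm_DDM all_VCU all_GPD all_EQB all_MNX all_MNF all_VBB all_OPL

theorem all_CLO : St_CLO := thm_CLO thm_DDM all_VCU all_EQB all_OPL all_SQV all_KIL

/-- fine systems are tame -/
theorem all_TMX : St_TMX := by
  intro L M S F T g0 hFS h3
  obtain ⟨g1, Ω1, hV, hP⟩ := all_PFT L M S F T g0 hFS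
  obtain ⟨g, Ω, hG, hB⟩ := all_CLO L M S F T g0 g1 Ω1 hFS h3 hV hP
  exact all_BAF L M S F T g0 g Ω hFS h3 hG
    (all_EMP L M S F T g0 g Ω hFS hG fun a ha haΩ Z => hB a Z ha haΩ)

/-- the large structures of hereditary classes are tame -/
theorem all_MAINI : St_MAINI := thm_MAINI all_FSA all_THN all_TMX

end HEI
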