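import Pool.Agent.HEI.StE

/-!
# HEI: the set `A` is visible
-/

set_option autoImplicit false
set_option linter.unusedVariables false

namespace HEI

open Set Pool.Agent.Helper5.DU Pool.Agent.Helper6.Str Pool.Agent.Helper79.VC
  Pool.Agent.Helper97.LO Pool.Agent.Helper97.VC HER HERN

variable {L : FirstOrder.Language.{0, 0}} {M : Type}

/-- the statement of the module for one element -/
def AVI_star (S : L.Structure M) (F A : Set M) (γ : Ordinal.{0}) (x : M) : Prop :=
  ∀ (D D' : Set M) (p : Set (M × M)) (y : M), DE S F A D → DE S F A D' → p.Finite →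
    dg F ⊆ p → (∀ a ∈ p, a.1 ∈ D ∧ a.2 ∈ D') → BFR S S D D' γ p → (y, x) ∈ p → y ∈ A

theorem AVI_star.mono {S : L.Structure M} {F A : Set M} {γ γ' : Ordinal.{0}} {x : M}
    (h : γ ≤ γ') (h1 : AVI_star S F A γ x) : AVI_star S F A γ' x :=
  fun D D' p y hC hC' hp hF hD hB hy => h1 D D' p y hC hC' hp hF hD (hB.mono h) hy

/-- the set `A#` -/
def AVI_A (S : L.Structure M) (F A : Set M) : Set M :=
  {x | x ∈ A ∧ ∃ γ < om1, AVI_star S F A γ x}

theorem AVI_om (k : ℕ) : Ordinal.omega0.{0} * k < om1 := by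
  induction k with
  | zero => simpa using Ordinal.omega_pos 1
  | succ k ih =>
    rw [Nat.cast_succ, mul_add, mul_one]
    exact add_lt_om1 ih omega_lt_om1

theorem AVI_om45 : Ordinal.omega0.{0} * 4 < Ordinal.omega0 * 5 := by
  have h : (4 : Ordinal.{0}) < 5 := by exact_mod_cast (by norm_num : (4 : ℕ) < 5)
  exact mul_lt_mul_of_pos_left h Ordinal.omega0_pos

theorem AVI_om5 : Ordinal.omega0.{0} * 5 < om1 := by
  have := AVI_om 5
  exact_mod_cast this

/-- goodness, block sizes -/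
theorem AVI_basic (hV : St_VIS) (hDN : St_DEN) {S : L.Structure M} {F : Set M} {m : ℕ → ℕ}
    {A : Set M} (hL : Lv S F m A) {D D' : Set M} {p : Set (M × M)} {x y : M}
    {γ : Ordinal.{0}} (hE : DE S F A D) (hE' : DE S F A D') (hF : dg F ⊆ p)
    (hD : ∀ a ∈ p, a.1 ∈ D ∧ a.2 ∈ D') (hB : BFR S S D D' γ p)
    (hγ : Ordinal.omega0 * 4 ≤ γ) (hy : (y, x) ∈ p) :
    (∀ n, Gx S F n univ y ↔ Gx S F n univ x) ∧
      ∀ n, Gx S F n univ x → (Bl S F n univ y).encard = (Bl S F n univ x).encard := by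
  have hv := hV L M S F _ _ γ p hL.ff hγ hF hD hB
  have d := hDN L M S F m A D hL hE
  have d' := hDN L M S F m A D' hL hE'
  have hg : ∀ n, Gx S F n univ y ↔ Gx S F n univ x := fun n =>
    ((d.2.1 n y (hD _ hy).1).symm.trans (hv.2.1 n _ hy)).trans (d'.2.1 n x (hD _ hy).2)
  refine ⟨hg, fun n hn => ?_⟩
  have hn' := (hg n).mpr hn
  have h1 := hv.2.2.2.2.1 n _ hy ((d.2.1 n y (hD _ hy).1).mpr hn')
  rw [← (d.2.2.1 n y (hD _ hy).1 hn').1, ← (d'.2.2.1 n x (hD _ hy).2 hn).1]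
  exact h1

/-- blocks and conjugacy -/
theorem AVI_pair (hV : St_VIS) (hDN : St_DEN) {S : L.Structure M} {F : Set M} {m : ℕ → ℕ}
    {A : Set M} (hL : Lv S F m A) {D D' : Set M} {p : Set (M × M)} {x y x1 y1 : M}
    {γ : Ordinal.{0}} (hE : DE S F A D) (hE' : DE S F A D') (hF : dg F ⊆ p)
    (hD : ∀ a ∈ p, a.1 ∈ D ∧ a.2 ∈ D') (hB : BFR S S D D' γ p)
    (hγ : Ordinal.omega0 * 4 ≤ γ) (hy : (y, x) ∈ p) (hy1 : (y1, x1) ∈ p) (n : ℕ)
    (hg : Gx S F n univ x) :
    (y1 ∈ Bl S F n univ y ↔ x1 ∈ Bl S F n univ x) ∧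
      (Cj S F n univ y y1 ↔ Cj S F n univ x x1) := by
  have hv := hV L M S F _ _ γ p hL.ff hγ hF hD hB
  have d := hDN L M S F m A D hL hE
  have d' := hDN L M S F m A D' hL hE'
  have hgy := ((AVI_basic hV hDN hL hE hE' hF hD hB hγ hy).1 n).mpr hg
  have hgD := (d.2.1 n y (hD _ hy).1).mpr hgy
  have h1 := hv.2.2.1 n _ hy _ hy1 hgD
  have h2 := hv.2.2.2.1 n _ hy _ hy1 hgD
  constructor
  · rw [← (d.2.2.1 n y (hD _ hy).1 hgy).1, ← (d'.2.2.1 n x (hD _ hy).2 hg).1]
    exact h1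
  · rw [← d.2.2.2 n y (hD _ hy).1 y1 (hD _ hy1).1 hgy,
      ← d'.2.2.2 n x (hD _ hy).2 x1 (hD _ hy1).2 hg]
    exact h2

/-- [AVI] `A` is visible -/
theorem thm_AVI (hG : St_GRP) (hBL : St_BLK) (hV : St_VIS) (hLV : St_LVF) (hDN : St_DEN) :
    St_AVI := by
  intro L M S F m A hL
  have key : Cls S F m (AVI_A S F A) := by
    have hsub : AVI_A S F A ⊆ A := fun x hx => hx.1
    refine ⟨fun n x hx => ?_, fun n x hx => ?_, fun n x x1 hx hgx hx1 => ?_, fun n x0 hfin => ?_⟩
    · -- gd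
      refine ⟨hL.cl.gd n x hx, _, AVI_om5, ?_⟩
      intro D D' p y hE hE' hp hF hD hB hy
      have b1 := (AVI_basic hV hDN hL hE hE' hF hD hB AVI_om45.le hy).1
      exact hL.cl.gd n y fun h => hx ((b1 n).mp h)
    · -- sz
      refine ⟨hL.cl.sz n x hx, _, AVI_om5, ?_⟩
      intro D D' p y hE hE' hp hF hD hB hy
      obtain ⟨b1, b2⟩ := AVI_basic hV hDN hL hE hE' hF hD hB AVI_om45.le hy
      by_cases hg : Gx S F n univ x
      · refine hL.cl.sz n y ?_
        rw [b2 n hg]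
        exact hx
      · exact hL.cl.gd n y fun h => hg ((b1 n).mp h)
    · -- bl
      obtain ⟨hxA, γx, hγx, hst⟩ := hx
      have hx1A : x1 ∈ A := hL.cl.bl n x x1 hxA hgx hx1
      refine ⟨hx1A, γx + Ordinal.omega0 * 5, add_lt_om1 hγx AVI_om5, ?_⟩
      intro D D' p y1 hE hE' hp hF hD hB hy1
      have hlt : γx + Ordinal.omega0 * 4 < γx + Ordinal.omega0 * 5 :=
        add_lt_add_right AVI_om45 γx
      have hle4 : Ordinal.omega0 * 4 ≤ γx + Ordinal.omega0 * 4 := le_add_self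
      have hBu := hBL L M S F n univ
      obtain ⟨hgx1, hbx1⟩ := hBu.2.2.1 x x1 hgx hx1
      have hxx : x ∈ Bl S F n univ x1 := by
        rw [hbx1]
        exact (hBu.2.1 x hgx).2
      obtain ⟨y, hyD, hB'⟩ := hB.back hlt (hE'.2.1 hxA)
      have hF' : dg F ⊆ insert (y, x) p := hF.trans (subset_insert _ _)
      have hD' : ∀ a ∈ insert (y, x) p, a.1 ∈ D ∧ a.2 ∈ D' := by
        rintro a (rfl | ha)
        · exact ⟨hyD, hE'.2.1 hxA⟩
        · exact hD a ha
      have hyA : y ∈ A := hst D D' _ y hE hE' (hp.insert _) hF' hD'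
        (hB'.mono le_self_add) (mem_insert _ _)
      have hpr := AVI_pair hV hDN hL hE hE' hF' hD' hB' hle4
        (mem_insert_of_mem _ hy1) (mem_insert _ _) n hgx1
      have hyy : y ∈ Bl S F n univ y1 := hpr.1.mpr hxx
      have hgy1 : Gx S F n univ y1 := ((AVI_basic hV hDN hL hE hE' hF' hD' hB' hle4
        (mem_insert_of_mem _ hy1)).1 n).mpr hgx1
      obtain ⟨hgy, hby⟩ := hBu.2.2.1 y1 y hgy1 hyy
      refine hL.cl.bl n y y1 hyA hgy ?_
      rw [hby]
      exact (hBu.2.1 y1 hgy1).2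
    · -- ob
      have horbA : ∀ y, Cj S F n univ x0 y → y ∈ A := by
        refine hL.cl.ob n x0 (hfin.subset ?_)
        rintro B ⟨y, h1, h2, h3⟩
        exact ⟨y, h1, fun h => h2 (hsub h), h3⟩
      intro x hx
      have hxA : x ∈ A := horbA x hx
      -- the bound of the ordinals
      have hcnt : Countable {z : M | z ∈ AVI_A S F A} := (hL.ac.mono hsub).to_subtype
      choose g hg1 hg2 using fun z : {z : M | z ∈ AVI_A S F A} => z.2.2
      obtain ⟨γ0, hγ0, hle⟩ := exists_bound hg1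
      refine ⟨hxA, γ0 + Ordinal.omega0 * 5, add_lt_om1 hγ0 AVI_om5, ?_⟩
      intro D D' p y hE hE' hp hF hD hB hy
      by_contra hyA
      have hlt : γ0 + Ordinal.omega0 * 4 < γ0 + Ordinal.omega0 * 5 :=
        add_lt_add_right AVI_om45 γ0
      have hle4 : Ordinal.omega0 * 4 ≤ γ0 + Ordinal.omega0 * 4 := le_add_self
      obtain ⟨b1, b2⟩ := AVI_basic hV hDN hL hE hE' hF hD hB (hle4.trans hlt.le) hy
      have hgx : ∀ k, Gx S F k univ x := fun k =>
        (b1 k).mp ((hLV L M S F m A hL y hyA).1 k)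
      set r := hfin.toFinset.card with hr
      obtain ⟨T, hT1, hT2⟩ := (hE.2.2.2 n y hyA).exists_subset_card_eq (r + 1)
      have hbij : ∃ e : Fin (r + 1) → Set M, Function.Injective e ∧ ∀ i, e i ∈ T := by
        have hc : Fintype.card (Fin (r + 1)) = Fintype.card T := by simp [hT2]
        let e := (Fintype.equivOfCardEq hc)
        exact ⟨fun i => (e i).1, fun i j hij => e.injective (Subtype.ext hij), fun i => (e i).2⟩
      obtain ⟨Q, hQi, hQT⟩ := hbij
      have hQ : ∀ i, ∃ y' ∈ D, y' ∉ A ∧ Cj S F n univ y y' ∧ Q i = Bi S F univ y' :=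
        fun i => hT1 (hQT i)
      choose yy hyD hynA hcj hQe using hQ
      have hmany : γ0 + Ordinal.omega0 * 4 + ((r + 1 : ℕ) : Ordinal.{0}) ≤
          γ0 + Ordinal.omega0 * 5 := by
        rw [add_assoc]
        refine add_le_add_right ?_ γ0
        have h5 : (5 : Ordinal.{0}) = 4 + 1 := by norm_num
        rw [h5, mul_add, mul_one]
        exact add_le_add_right (Ordinal.natCast_lt_omega0 _).le _
      obtain ⟨xx, hxxD, hB'⟩ := BFR.forth_many (r + 1) (hB.mono hmany) yy hyD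
      set p' := p ∪ range fun i => (yy i, xx i) with hp'
      have hF' : dg F ⊆ p' := hF.trans subset_union_left
      have hD' : ∀ a ∈ p', a.1 ∈ D ∧ a.2 ∈ D' := by
        rintro a (ha | ⟨i, rfl⟩)
        · exact hD a ha
        · exact ⟨hyD i, hxxD i⟩
      have hfp' : p'.Finite := hp.union (finite_range _)
      have hmy : (y, x) ∈ p' := Or.inl hy
      have hmi : ∀ i, (yy i, xx i) ∈ p' := fun i => Or.inr ⟨i, rfl⟩
      have hcx : ∀ i, Cj S F n univ x (xx i) := fun i =>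
        (AVI_pair hV hDN hL hE hE' hF' hD' hB' hle4 hmy (hmi i) n (hgx n)).2.mp (hcj i)
      have hgxx : ∀ i k, Gx S F k univ (xx i) := fun i k =>
        ((AVI_basic hV hDN hL hE hE' hF' hD' hB' hle4 (hmi i)).1 k).mp
          ((hLV L M S F m A hL (yy i) (hynA i)).1 k)
      have hself : ∀ i j : Fin (r + 1), Bi S F univ (xx i) = Bi S F univ (xx j) → i = j := by
        intro i j hij
        have h10 : xx j ∈ Bi S F univ (xx i) := by
          rw [hij]
          exact mem_iUnion.mpr ⟨0, fun B _ hB => hB⟩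
        obtain ⟨u, hu⟩ := mem_iUnion.mp h10
        have h11 : yy j ∈ Bl S F u univ (yy i) :=
          (AVI_pair hV hDN hL hE hE' hF' hD' hB' hle4 (hmi i) (hmi j) u (hgxx i u)).1.mpr hu
        have h12 : yy j ∈ Bi S F univ (yy i) := mem_iUnion.mpr ⟨u, h11⟩
        have h13 := ((hLV L M S F m A hL (yy i) (hynA i)).2.2.1 (yy j) h12).2
        refine hQi ?_
        rw [hQe i, hQe j, h13]
      have horb : ∀ i, Cj S F n univ x0 (xx i) := by
        intro i
        obtain ⟨σ, hσ, hσx⟩ := hcx i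
        obtain ⟨τ, hτ, hτx⟩ := hx
        refine ⟨σ * τ, (hG L M S F n univ).2.1 σ τ hσ hτ, ?_⟩
        rw [Equiv.Perm.mul_apply, hτx, hσx]
      -- one of them is in `A#`
      have hex : ∃ i, xx i ∈ AVI_A S F A := by
        by_contra hno
        push Not at hno
        have hmap : ∀ i, Bi S F univ (xx i) ∈ hfin.toFinset := fun i =>
          hfin.mem_toFinset.mpr ⟨xx i, horb i, hno i, rfl⟩
        have hcard : Fintype.card (Fin (r + 1)) ≤ hfin.toFinset.card := by
          rw [← Finset.card_univ]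
          exact Finset.card_le_card_of_injOn (fun i => Bi S F univ (xx i))
            (fun i _ => hmap i) (fun i _ j _ h => hself i j h)
        rw [Fintype.card_fin] at hcard
        omega
      obtain ⟨i, hi⟩ := hex
      exact hynA i (((hg2 ⟨xx i, hi⟩).mono (hle ⟨xx i, hi⟩)) D D' p' (yy i) hE hE' hfp' hF' hD'
        (hB'.mono le_self_add) (hmi i))
  have hAA : A ⊆ AVI_A S F A := hL.least _ key
  have hcnt : Countable A := hL.ac.to_subtype
  choose g hg1 hg2 using fun z : A => (hAA z.2).2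
  obtain ⟨γ0, hγ0, hle⟩ := exists_bound hg1
  have hall : ∀ x ∈ A, AVI_star S F A (γ0 + Ordinal.omega0 * 5) x := fun x hx =>
    (hg2 ⟨x, hx⟩).mono ((hle ⟨x, hx⟩).trans le_self_add)
  refine ⟨γ0 + Ordinal.omega0 * 5, add_lt_om1 hγ0 AVI_om5, AVI_om45.le.trans le_add_self, ?_⟩
  intro D D' p hE hE' hp hF hD hB a ha
  constructor
  · intro h1
    refine hall a.1 h1 D' D (Prod.swap ⁻¹' p) a.2 hE' hE ?_ ?_ ?_ hB.swap ?_
    · exact hp.preimage (Prod.swap_injective.injOn)
    · rintro _ ⟨x, hx, rfl⟩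
      exact hF ⟨x, hx, rfl⟩
    · intro b hb
      exact ⟨(hD _ hb).2, (hD _ hb).1⟩
    · exact ha
  · intro h2
    exact hall a.2 h2 D D' p a.1 hE hE' hp hF hD hB ha

end HEI
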