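import Pool.Agent.HEI.StI

/-!
# HEI [BAF]: back and forth (helper34)
-/

set_option autoImplicit false
set_option linter.unusedVariables false

namespace HEI

open Set Pool.Agent.Helper5.DU Pool.Agent.Helper6.Str Pool.Agent.Helper79.VC
  Pool.Agent.Helper97.LO Pool.Agent.Helper97.VC HER HERN

theorem BAF_prs {M : Type} {k : ℕ} (x y : Fin k → M) (u u' : M) :
    insert (u, u') (HERN.prs x y) ⊆
      HERN.prs (Fin.snoc (α := fun _ => M) x u : Fin (k + 1) → M)
        (Fin.snoc (α := fun _ => M) y u') := by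
  rintro a (rfl | ⟨i, rfl⟩)
  · refine ⟨Fin.last k, ?_⟩
    simp
  · refine ⟨Fin.castSucc i, ?_⟩
    simp

/-- [BAF] -/
theorem thm_BAF (hDDM : St_DDM) (hVCU : St_VCU) (hGPD : St_GPD) (hXTD : St_XTD)
    (hSTB : St_STB) : St_BAF := by
  intro L M S F T g0 g Ω hFS hF3 hGp hB
  have hUn : Un T Ω := hGp.1.2.2.2.1
  have hΩc : Ω.Countable := hGp.1.2.2.1
  obtain ⟨-, -, -, -, -, -, -, d8, -⟩ := hDDM L M S F T g0 hFS
  obtain ⟨v1, -, -⟩ := hVCU L M S F T g0 hFS
  obtain ⟨D, hD, -⟩ := d8 Ω ∅ hΩc hUn finite_empty (empty_subset _) hGp.2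
  obtain ⟨g1, hgg1, hg1, hst⟩ := hSTB L M S F T g0 g Ω D hFS hF3 hGp hB hD
  have hGp1 : Gp S F T g0 g1 Ω := ⟨v1 g g1 Ω hgg1 hg1 hGp.1, hGp.2⟩
  have hg12 : g1 + 2 < om1 := add_lt_om1 hg1 (natCast_lt_om1 2)
  have hle2 : g1 ≤ g1 + 2 := le_self_add
  refine ⟨M, S, D, hD.1, ?_⟩
  have key : ∀ (γ : Ordinal.{0}) (k : ℕ) (x y : Fin k → M), Ee S F T Ω g1 x y →
      (∀ i, y i ∈ D) → BFR S S T.X D γ (dg F ∪ HERN.prs x y) := by
    intro γ
    induction γ using WellFoundedLT.induction with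
    | _ γ ih =>
      intro k x y hE hy
      obtain ⟨-, p2, -, -, p5, -⟩ := hGPD L M S F T g0 g1 Ω hFS hGp1 (Fin k)
      have h5 := p5 x y hE
      rw [BFR.def]
      refine ⟨h5.2.1, fun β hβ => ⟨fun u hu => ?_, fun v hv => ?_⟩⟩
      · obtain ⟨u', hu', hE'⟩ := hXTD L M S F T g0 g1 Ω hFS hF3 hGp1 hB g1 D k x y u le_rfl hg1
          hD (hst (g1 + 2) k x y hle2 hg12 hE) hy hu
        refine ⟨u', hu', BFR.anti ?_ (ih β hβ (k + 1) _ _ hE' ?_)⟩
        · rw [← union_insert]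
          exact union_subset_union_right _ (BAF_prs x y u u')
        · intro i
          refine Fin.lastCases ?_ (fun i => ?_) i
          · rw [Fin.snoc_last]
            exact hu'
          · rw [Fin.snoc_castSucc]
            exact hy i
      · obtain ⟨D', hD', hxD'⟩ := d8 Ω (range x) hΩc hUn (finite_range x)
          (range_subset_iff.2 fun i => (h5.1 i).1) hGp.2
        obtain ⟨u, hu, hE'⟩ := hXTD L M S F T g0 g1 Ω hFS hF3 hGp1 hB g1 D' k y x v le_rfl hg1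
          hD' (hst (g1 + 2) k y x hle2 hg12 (p2 g1 x y hE)) (fun i => hxD' ⟨i, rfl⟩)
          (hD.2.1.2.1 hv)
        obtain ⟨-, q2, -⟩ := hGPD L M S F T g0 g1 Ω hFS hGp1 (Fin (k + 1))
        refine ⟨u, hD'.2.1.2.1 hu, BFR.anti ?_ (ih β hβ (k + 1) _ _ (q2 g1 _ _ hE') ?_)⟩
        · rw [← union_insert]
          exact union_subset_union_right _ (BAF_prs x y u v)
        · intro i
          refine Fin.lastCases ?_ (fun i => ?_) i
          · rw [Fin.snoc_last]
            exact hv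
          · rw [Fin.snoc_castSucc]
            exact hy i
  intro γ _
  obtain ⟨p1, -⟩ := hGPD L M S F T g0 g1 Ω hFS hGp1 (Fin 0)
  exact BFR.anti (empty_subset _) (key γ 0 (fun i => i.elim0) (fun i => i.elim0)
    (p1 g1 _ fun i => i.elim0) fun i => i.elim0)

end HEI
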