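import Pool.Agent.HEI.StH

/-!
# HEI: the boundary of a finite set is finite
-/

set_option autoImplicit false
set_option linter.unusedVariables false

namespace HEI

open Set Pool.Agent.Helper5.DU Pool.Agent.Helper6.Str Pool.Agent.Helper79.VC
  Pool.Agent.Helper97.LO Pool.Agent.Helper97.VC HER HERN

/-- [BXF] the boundary of `E` is finite -/
theorem thm_BXF (hVCU : St_VCU) (hEQB : St_EQB) (hBXY : St_BXY) : St_BXF := by
  intro L M S F T g0 g Ω E hFS hF3 hG hE hEX
  have hGp : ∀ h', g ≤ h' → h' < om1 → Gp S F T g0 h' Ω := fun h' h1 h2 =>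
    ⟨(hVCU L M S F T g0 hFS).1 g h' Ω h1 h2 hG.1, hG.2⟩
  have hg : g < om1 := hG.1.2.1
  have hup : ∀ (h h' : Ordinal.{0}) b, h ≤ h' → Bx S F T Ω h E b → Bx S F T Ω h' E b :=
    fun h h' b hh hb => ((hEQB L M S F T g0 g Ω E hFS hG hE hEX).2.2.2.2.2.1 h h' b hh).2 hb
  have hfin : {b | Bz S F T Ω E b}.Finite := by
    by_contra hinf
    have hinf : {b | Bz S F T Ω E b}.Infinite := hinf
    set e := hinf.natEmbedding with he
    choose lv hlv1 hlv2 using fun i : ℕ => (e i).2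
    obtain ⟨h1, hh1, hle⟩ := exists_bound hlv1
    have hh : max g h1 < om1 := max_lt hg hh1
    have h2 := (hBXY L M S F T g0 (max g h1) Ω E hFS hF3 (hGp _ (le_max_left _ _) hh) hE hEX).2
    have h3 : ∀ i, (e i).1 ∈ {b | Bx S F T Ω (max g h1) E b} := fun i =>
      hup (lv i) _ _ ((hle i).trans (le_max_right _ _)) (hlv2 i)
    have h4 : Function.Injective fun i => (e i).1 := fun i j hij =>
      e.injective (Subtype.ext hij)
    exact (infinite_of_injective_forall_mem h4 h3) h2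
  refine ⟨hfin, ?_⟩
  have hcnt : Countable {b | Bz S F T Ω E b} := hfin.countable.to_subtype
  choose lv hlv1 hlv2 using fun b : {b | Bz S F T Ω E b} => b.2
  obtain ⟨h1, hh1, hle⟩ := exists_bound hlv1
  refine ⟨max g h1, le_max_left _ _, max_lt hg hh1, fun h' h2 h3 b => ⟨fun hb => ?_, fun hb => ?_⟩⟩
  · exact hup (lv ⟨b, hb⟩) _ _ (((hle ⟨b, hb⟩).trans (le_max_right _ _)).trans h2) (hlv2 ⟨b, hb⟩)
  · exact ⟨h', h3, hb⟩

end HEI
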