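import Pool.Agent.HEI.StG

/-!
# HEI: [BXY] finitely many boundary blocks
-/

set_option autoImplicit false
set_option linter.unusedVariables false

namespace HEI

open Set Pool.Agent.Helper5.DU Pool.Agent.Helper6.Str Pool.Agent.Helper79.VC
  Pool.Agent.Helper97.LO Pool.Agent.Helper97.VC HER HERN

/-- a sequence in a finite set takes some value infinitely often -/
lemma BXY_pig {α : Type} (s : Set α) (hs : s.Finite) (d : ℕ → α) (hd : ∀ n, d n ∈ s) :
    ∃ a ∈ s, ∀ n, ∃ k, n ≤ k ∧ d k = a := by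
  by_contra hcon
  push Not at hcon
  have h1 : ∀ a ∈ s, ∃ N, ∀ k, N ≤ k → d k ≠ a := hcon
  choose! N hN using h1
  obtain ⟨B, hB⟩ := (hs.image N).bddAbove
  have h2 := hN (d B) (hd B) B (hB ⟨d B, hd B, rfl⟩)
  exact h2 rfl

theorem thm_BXY (hEQB : St_EQB) (hITD : St_ITD) (hBYF : St_BYF) : St_BXY := by
  intro L M S F T g0 g Ω E hFS hF3 hGp hEf hEX
  obtain ⟨e1, e2, e3, e4, e5, e6, e7, e8, e9, e10, e11, e12⟩ :=
    hEQB L M S F T g0 g Ω E hFS hGp hEf hEX
  have hfin := hBYF L M S F T g0 g Ω E hFS hF3 hGp hEf hEX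
  have key : ∀ b, Bx S F T Ω g E b → By S F T Ω g E b := by
    intro b hb
    by_contra hnB
    obtain ⟨hFr, hnI⟩ := hb
    have h0 : ∃ n0, ∀ c, T.V n0 b c → In S F T Ω g E c → Eb S F T Ω g E b c := by
      by_contra hcon
      apply hnB
      refine ⟨hFr, fun n => ?_⟩
      by_contra h3
      apply hcon
      refine ⟨n, fun c hc hI => ?_⟩
      by_contra h4
      exact h3 ⟨c, hc, hI, h4⟩
    obtain ⟨n0, hn0⟩ := h0
    have h1 : ∀ n, ∃ d, T.V (max n n0) b d ∧ Fr T Ω E d ∧ ¬ Eb S F T Ω g E b d := by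
      intro n
      by_contra hcon
      apply hnI
      refine ⟨hFr, max n n0, fun b' hV hF' => ?_⟩
      by_contra h4
      exact hcon ⟨b', hV, hF', h4⟩
    choose d hdV hdF hdE using h1
    have hclaim : ∀ n, d n ∈ {b | By S F T Ω g E b} := by
      intro n
      by_contra hnd
      have h5 : ∃ m, ∀ c, T.V m (d n) c → In S F T Ω g E c → Eb S F T Ω g E (d n) c := by
        by_contra hcon
        apply hnd
        refine ⟨hdF n, fun m => ?_⟩
        by_contra h3
        apply hcon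
        refine ⟨m, fun c hc hI => ?_⟩
        by_contra h4
        exact h3 ⟨c, hc, hI, h4⟩
      obtain ⟨m, hm⟩ := h5
      obtain ⟨c, hcV, hcI⟩ := (hITD L M S F T g0 g Ω E (max m n0) (d n) hFS hF3 hGp hEf hEX
        (hdF n).1 (hdF n).2.1).nonempty
      have h6 : T.V n0 b c := by
        refine hFS.vt n0 b (d n) c ?_ ?_
        · exact hFS.vd n0 (max n n0) b (d n) (le_max_right _ _) (hdV n)
        · exact hFS.vd n0 (max m n0) (d n) c (le_max_right _ _) hcV
      have h7 : Eb S F T Ω g E b c := hn0 c h6 hcI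
      have h8 : Eb S F T Ω g E (d n) c :=
        hm c (hFS.vd m (max m n0) (d n) c (le_max_left _ _) hcV) hcI
      exact hdE n (e3 b c (d n) h7 (e2 (d n) c h8))
    obtain ⟨a, haB, hak⟩ := BXY_pig _ hfin d hclaim
    have h9 : ∀ n, T.V n b a := by
      intro n
      obtain ⟨k, hk, rfl⟩ := hak n
      exact hFS.vd n (max k n0) b (d k) (hk.trans (le_max_left _ _)) (hdV k)
    obtain ⟨k, -, hk⟩ := hak 0
    have h10 : Eb S F T Ω g E b a := e7 b a h9 hFr (by rw [← hk]; exact hdF k)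
    exact hdE k (by rw [hk]; exact h10)
  exact ⟨key, hfin.subset fun b hb => key b hb⟩

end HEI
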