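import Pool.Agent.HEI.StG

/-!
# HEI [BYF]: finitely many blocks near non equivalent interior blocks (helper2)
-/

set_option autoImplicit false
set_option linter.unusedVariables false

namespace HEI

open Set Pool.Agent.Helper5.DU Pool.Agent.Helper6.Str Pool.Agent.Helper79.VC
  Pool.Agent.Helper97.LO Pool.Agent.Helper97.VC HER HERN

private theorem BYF_lt {g : Ordinal.{0}} (h : g < om1) : Ordinal.omega0 * (g + 1) < om1 := by
  have h1 := add_one_lt_om1 h
  rw [lt_om1_iff] at h1 ⊢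
  rw [Ordinal.card_mul]
  have h2 : Ordinal.card Ordinal.omega0.{0} ≤ Cardinal.aleph0 := le_of_eq Ordinal.card_omega0
  calc Ordinal.card Ordinal.omega0 * (g + 1).card ≤ Cardinal.aleph0 * Cardinal.aleph0 :=
        mul_le_mul' h2 h1
    _ = Cardinal.aleph0 := Cardinal.aleph0_mul_aleph0

/-- [BYF] -/
theorem thm_BYF (hIMG : St_IMG) (hDDM : St_DDM) (hEQB : St_EQB) (hITD : St_ITD)
    (hDCD : St_DCD) : St_BYF := by
  intro L M S F T g0 g Ω E hFS hF3 hGp hE hET
  obtain ⟨dd1, -, dd3, -, -, dd6, dd7, -, dd9⟩ := hDDM L M S F T g0 hFS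
  obtain ⟨-, eq2, eq3, -, -, -, eq7, -, eq9, -, eq11, -⟩ := hEQB L M S F T g0 g Ω E hFS hGp hE hET
  obtain ⟨im1, -, -, -, -, im6, -, im8⟩ := hIMG L M S F
  have hGp' : Gp S F T g0 g Ω := hGp
  obtain ⟨⟨hg0, hg1, hΩc, hΩu, -⟩, hperf⟩ := hGp
  have hthin : ∀ b, By S F T Ω g E b → Th T b := by
    intro b hb
    rcases hF3 b hb.1.1 with h | h
    · exact h
    · exfalso
      obtain ⟨n, hn⟩ := h
      obtain ⟨c, hc1, hc2, hc3⟩ := hb.2 n
      exact hc3 (eq7 b c (hn c hc1) hb.1 hc2.1)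
  by_contra hinf
  have hinf' : {b | By S F T Ω g E b}.Infinite := hinf
  set e := hinf'.natEmbedding with he
  set f : ℕ → Set M := fun i => (e i : Set M) with hf
  have hfi : Function.Injective f := fun i j h => e.injective (Subtype.ext h)
  have hfB : ∀ i, By S F T Ω g E (f i) := fun i => (e i).2
  obtain ⟨D0, hD0, hD0'⟩ := dd6 Ω {c | In S F T Ω g E c} hΩc hΩu (by
    intro b hb hbΩ n
    refine (hITD L M S F T g0 g Ω E n b hFS hF3 hGp' hE hET hb hbΩ).mono ?_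
    rintro c ⟨h1, h2⟩
    exact ⟨h2, h1, h2.1.2.1⟩)
  have hCE := dd9 E hE
  set CE : Set (Set M) := {b | b ∈ T.Bk ∧ ¬ Disjoint b E} with hCEdef
  set D : Set ℕ → Set M := fun N => D0 ∪ ⋃₀ (CE ∪ f '' N) with hD
  have hDD : ∀ N, DD T Ω (D N) := by
    intro N
    refine dd1 Ω D0 (CE ∪ f '' N) hD0 ?_ ?_
    · exact hCE.countable.union ((Set.to_countable N).image f)
    · rintro b (hb | ⟨i, -, rfl⟩)
      · exact hb.1
      · exact (hfB i).1.1
  have hAΩ : T.A ⊆ Ω := hΩu.1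
  have hΩD : ∀ N, Ω ⊆ D N := fun N => (hDD N).2.2.1
  have hED : ∀ N, E ⊆ D N := by
    intro N x hx
    rcases hET hx with h | ⟨b, hb, hxb⟩
    · exact hΩD N (hAΩ h)
    · refine Or.inr ⟨b, Or.inl ⟨hb, ?_⟩, hxb⟩
      intro hdis
      exact (Set.disjoint_left.mp hdis) hxb hx
  refine hDCD L M S F T g0 0 (fun i _ => f i) (F ∪ E) (Ordinal.omega0 * (g + 1)) D hFS
    (fun i _ => (hfB i).1.1) ?_ (hFS.ff.union hE) subset_union_left (BYF_lt hg1) ?_ ?_
  · intro i a j b h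
    refine ⟨hfi ?_, Fin.ext (by omega)⟩
    exact (hthin (f i) (hfB i) (f j) h).symm
  · intro N hN
    refine ⟨dd3 Ω (D N) hΩu (hDD N), union_subset (hFS.fa.trans (hAΩ.trans (hΩD N))) (hED N), ?_⟩
    intro i hi a x hx
    exact Or.inr ⟨f i, Or.inr ⟨i, hi, rfl⟩, hx⟩
  · intro N N' hN hN' p hpf hpG hpD hpB i hi hDm
    have hDm' : Dm p (f i) := hDm 0
    have hgF : dg F ⊆ p := (dg_mono subset_union_left).trans hpG
    have hgE : dg E ⊆ p := (dg_mono subset_union_right).trans hpG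
    have hPs1 : Ps S F (g + 1) (D N) (D N') p := ⟨hpf, hgF, hpD, hpB⟩
    have hPs : Ps S F g (D N) (D N') p :=
      im8 (g + 1) g (D N) (D N') p p le_self_add hPs1 subset_rfl hgF
    obtain ⟨hFr', hEb'⟩ := eq11 (D N) (D N') p (f i) (hDD N) (hDD N') hPs hgE hDm' (hfB i).1
    by_cases hj : ∃ j ∈ N', Im p (f i) = f j
    · obtain ⟨j, hj1, hj2⟩ := hj
      refine ⟨j, hj1, Equiv.refl _, fun a n => ?_⟩
      change T.V n (Im p (f i)) (f j)
      rw [hj2]
      exact hFS.vr n (f j) (hfB j).1.1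
    · exfalso
      push Not at hj
      have hsub : Im p (f i) ⊆ D0 := by
        rintro y hy
        have hy' := hy
        obtain ⟨x, hx, hxy⟩ := hy
        rcases (hpD _ hxy).2 with h | ⟨c, hc | ⟨j, hj1, rfl⟩, hyc⟩
        · exact h
        · exfalso
          have : c = Im p (f i) := hFS.dis c hc.1 _ hFr'.1 ⟨y, hyc, hy'⟩
          rw [this] at hc
          exact hc.2 hFr'.2.2
        · exfalso
          have : f j = Im p (f i) := hFS.dis _ (hfB j).1.1 _ hFr'.1 ⟨y, hyc, hy'⟩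
          exact hj j hj1 this.symm
      have hIn' : In S F T Ω g E (Im p (f i)) := by
        rcases hD0' _ hFr'.1 hsub with h | h
        · exact absurd h hFr'.2.1
        · exact h
      obtain ⟨n, hn⟩ := eq9 _ hIn'
      obtain ⟨c, hc1, hc2, hc3⟩ := (hfB i).2 n
      obtain ⟨m, hm⟩ := eq9 _ hc2
      have hcB := hc2.1.1
      have hinfd := dd7 Ω (D N) hperf (hDD N) c hcB hc2.1.2.1 (max n m)
      obtain ⟨d, ⟨hd1, hd2, hd3⟩, hd4⟩ := (hinfd.sdiff hCE).nonempty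
      have hdB : d ∈ T.Bk := (hFS.vm _ _ _ hd1).2.1
      have hdE : Disjoint d E := by
        by_contra h
        exact hd4 ⟨hdB, h⟩
      have hdFr : Fr T Ω E d := ⟨hdB, hd2, hdE⟩
      have hcd := hm d (hFS.vd m (max n m) c d (le_max_right _ _) hd1) hdFr
      have hVcd : T.V n c d := hFS.vd n (max n m) c d (le_max_left _ _) hd1
      have hVfd : T.V n (f i) d := hFS.vt n _ _ _ hc1 hVcd
      obtain ⟨p', hpp', hPs', hDmd⟩ := (im6 g (D N) (D N') p d hPs1 (hFS.fin d hdB).1).1 hd3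
      have hat' : AtEq S S p' := hPs'.2.2.2.atEq
      have hat : AtEq S S p := hPs.2.2.2.atEq
      obtain ⟨hImeq, hDmfi⟩ := (im1 p (f i) hat hDm').2.2.2 p' hpp' hat'
      have hPs0 : Ps S F g0 (D N) (D N') p' :=
        im8 g g0 (D N) (D N') p' p' hg0 hPs' subset_rfl hPs'.2.1
      have hVd' := (hFS.vv (D N) (D N') p' (dd3 Ω (D N) hΩu (hDD N)) (dd3 Ω (D N') hΩu (hDD N'))
        hPs0 n (f i) d hDmfi hDmd).mp hVfd
      rw [hImeq] at hVd'
      obtain ⟨hFrd', hEbd'⟩ := eq11 (D N) (D N') p' d (hDD N) (hDD N') hPs' (hgE.trans hpp') hDmd hdFr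
      have h1 := (hn (Im p' d) hVd' hFrd').2
      exact hc3 (eq3 _ _ _ hEb' (eq3 _ _ _ h1 (eq3 _ _ _ (eq2 _ _ hEbd') (eq2 _ _ hcd.2))))

end HEI
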