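import Pool.Agent.HEI.StH

/-!
# HEI: alternating sequences (helper33)
-/

set_option autoImplicit false
set_option linter.unusedVariables false

namespace HEI

open Set Pool.Agent.Helper5.DU Pool.Agent.Helper6.Str Pool.Agent.Helper79.VC
  Pool.Agent.Helper97.LO Pool.Agent.Helper97.VC HER HERN

/-- choice of an element outside of a finite set, preferably in `A` -/
theorem CLS_pick {α : Type} (A B Z : Set α) (hB : B.Infinite) (hAB : A ⊆ B) (hZ : Z.Finite) :
    ∃ a ∈ B, a ∉ Z ∧ (A.Infinite → a ∈ A) := by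
  by_cases h : A.Infinite
  · obtain ⟨a, ha, haZ⟩ := (h.sdiff hZ).nonempty
    exact ⟨a, hAB ha, haZ, fun _ => ha⟩
  · obtain ⟨a, ha, haZ⟩ := (hB.sdiff hZ).nonempty
    exact ⟨a, ha, haZ, fun h' => absurd h' h⟩

/-- a countable infinite subset, if there is one -/
theorem CLS_sub {α : Type} (A : Set α) : ∃ W : Set α, W ⊆ A ∧ W.Countable ∧
    (A.Infinite → W.Infinite) := by
  by_cases h : A.Infinite
  · obtain ⟨f⟩ : Nonempty (ℕ ↪ A) := ⟨h.natEmbedding⟩
    refine ⟨range fun i => (f i : α), ?_, countable_range _, fun _ => ?_⟩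
    · rintro _ ⟨i, rfl⟩
      exact (f i).2
    · exact infinite_range_of_injective fun i j hij => f.injective (Subtype.ext hij)
  · exact ⟨∅, empty_subset _, countable_empty, fun h' => absurd h' h⟩

theorem thm_CLS (hDDM : St_DDM) (hRQE : St_RQE) (hSEQ : St_SEQ) : St_CLS := by
  classical
  intro L M S F T g0 g Ω E R b1 v1 k n U1 hFS hGp hEf hEX hb1 hv1 hb1Ω hv1Ω hUt hU1 hU1i hRf hRf'
  obtain ⟨d1, d2, d3, d4, d5, d6, d7, d8, d9⟩ := hDDM L M S F T g0 hFS
  obtain ⟨⟨hgg, hgo, hΩc, hΩU, hΩv⟩, hperf⟩ := hGp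
  obtain ⟨q, hq1, hq2⟩ := hRQE L M S F T g0 Ω hFS ⟨b1, hb1, hb1Ω⟩
  have hEhf : {b | b ∈ T.Bk ∧ ¬ Disjoint b E}.Finite := d9 E hEf
  -- free blocks are infinite in each neighbourhood
  have hfree : ∀ b ∈ T.Bk, ¬ b ⊆ Ω → ∀ m, {b' | T.V m b b' ∧ Fr T Ω E b'}.Infinite := by
    intro b hb hbΩ m
    refine ((hperf b hb hbΩ m).sdiff hEhf).mono ?_
    rintro b' ⟨⟨h1, h2⟩, h3⟩
    have h4 := (hFS.vm m b b' h1).2.1
    refine ⟨h1, h4, h2, ?_⟩
    by_contra h5
    exact h3 ⟨h4, h5⟩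
  have hU1inf : U1.Infinite :=
    (hU1i b1 (hFS.vr k b1 hb1) hb1Ω 0).mono fun b hb => hb.1
  obtain ⟨b0, hb0⟩ := hU1inf.nonempty
  -- the block `v0`
  obtain ⟨v0, hv0, hv0R⟩ := ((hfree v1 hv1 hv1Ω n).sdiff (hRf b0 hb0)).nonempty
  have hRv0 : R b0 v0 := by
    by_contra h
    exact hv0R ⟨hv0.1, hv0.2, h⟩
  refine ⟨b0, hb0, v0, hv0.1, hv0.2, ?_⟩
  -- the set `S0`
  have hW : ∀ j : ℕ, ∃ W : Set (Set M), W ⊆ {b' | T.V (q j).1 (q j).2 b' ∧ ¬ b' ⊆ Ω ∧
      ¬ T.V k b1 b' ∧ ¬ T.V n v1 b'} ∧ W.Countable ∧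
      ({b' | T.V (q j).1 (q j).2 b' ∧ ¬ b' ⊆ Ω ∧ ¬ T.V k b1 b' ∧ ¬ T.V n v1 b'}.Infinite →
        W.Infinite) := fun j => CLS_sub _
  choose W hW1 hW2 hW3 using hW
  intro π hπ0 hπ1 hπf hπt
  have hpf : (setOf fun l => π l = false).Infinite :=
    infinite_of_forall_exists_gt fun i => by
      obtain ⟨j, h1, h2⟩ := hπf i
      exact ⟨j, h2, h1⟩
  have hpt : (setOf fun l => π l = true).Infinite :=
    infinite_of_forall_exists_gt fun i => by
      obtain ⟨j, h1, h2⟩ := hπt i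
      exact ⟨j, h2, h1⟩
  -- the sequence
  let c0 : ℕ → ℕ := fun i => Nat.count (fun l => π l = false) i
  let c1 : ℕ → ℕ := fun i => Nat.count (fun l => π l = true) i
  obtain ⟨s, hs⟩ := hSEQ (Set M) (fun i X a =>
    (i = 0 → a = b0) ∧ (i = 1 → a = v0) ∧
    (2 ≤ i → π i = false → a ∉ X ∧ a ∈ U1 ∧ (∀ x ∈ X, T.V n v1 x → Fr T Ω E x → ¬ R a x) ∧
      ({b' | b' ∈ U1 ∧ T.V (q (c0 i)).1 (q (c0 i)).2 b'}.Infinite →
        T.V (q (c0 i)).1 (q (c0 i)).2 a)) ∧
    (2 ≤ i → π i = true → a ∉ X ∧ (T.V n v1 a ∧ Fr T Ω E a) ∧ (∀ x ∈ X, x ∈ U1 → R x a) ∧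
      ({v' | (T.V n v1 v' ∧ Fr T Ω E v') ∧ T.V (q (c1 i)).1 (q (c1 i)).2 v'}.Infinite →
        T.V (q (c1 i)).1 (q (c1 i)).2 a))) (by
    intro i X hX
    by_cases h0 : i = 0
    · exact ⟨b0, fun _ => rfl, by omega, by omega, by omega⟩
    by_cases h1 : i = 1
    · exact ⟨v0, by omega, fun _ => rfl, by omega, by omega⟩
    cases hπi : π i with
    | false =>
      have hZ : (X ∪ ⋃ x ∈ {x | x ∈ X ∧ T.V n v1 x ∧ Fr T Ω E x},
          {b | b ∈ U1 ∧ R b x}).Finite := by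
        refine hX.union ((hX.subset fun x hx => hx.1).biUnion fun x hx => ?_)
        exact hRf' x hx.2.1 hx.2.2
      obtain ⟨a, ha, haZ, haA⟩ := CLS_pick
        {b' | b' ∈ U1 ∧ T.V (q (c0 i)).1 (q (c0 i)).2 b'} U1 _ hU1inf (fun b hb => hb.1) hZ
      refine ⟨a, by omega, by omega, fun _ _ => ⟨fun h => haZ (Or.inl h), ha, ?_,
        fun h => (haA h).2⟩, fun _ h => by simp at h⟩
      intro x hx hVx hFx hR
      refine haZ (Or.inr (mem_iUnion₂.2 ⟨x, ⟨hx, hVx, hFx⟩, ha, hR⟩))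
    | true =>
      have hZ : (X ∪ ⋃ x ∈ {x | x ∈ X ∧ x ∈ U1},
          {v | T.V n v1 v ∧ Fr T Ω E v ∧ ¬ R x v}).Finite := by
        refine hX.union ((hX.subset fun x hx => hx.1).biUnion fun x hx => ?_)
        exact hRf x hx.2
      obtain ⟨a, ha, haZ, haA⟩ := CLS_pick
        {v' | (T.V n v1 v' ∧ Fr T Ω E v') ∧ T.V (q (c1 i)).1 (q (c1 i)).2 v'}
        {v' | T.V n v1 v' ∧ Fr T Ω E v'} _ (hfree v1 hv1 hv1Ω n) (fun b hb => hb.1) hZ
      refine ⟨a, by omega, by omega, fun _ h => by simp at h,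
        fun _ _ => ⟨fun h => haZ (Or.inl h), ha, ?_, fun h => (haA h).2⟩⟩
      intro x hx hxU
      by_contra hR
      refine haZ (Or.inr (mem_iUnion₂.2 ⟨x, ⟨hx, hxU⟩, ha.1, ha.2, hR⟩)))
  have hs0 : s 0 = b0 := (hs 0).1 rfl
  have hs1 : s 1 = v0 := (hs 1).2.1 rfl
  have hge : ∀ i, i ≠ 0 → i ≠ 1 → 2 ≤ i := fun i h h' => by omega
  have hsF : ∀ i, π i = false → s i ∈ U1 := by
    intro i hi
    by_cases h0 : i = 0
    · rw [h0, hs0]
      exact hb0
    · have h1 : i ≠ 1 := by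
        rintro rfl
        rw [hπ1] at hi
        cases hi
      exact ((hs i).2.2.1 (hge i h0 h1) hi).2.1
  have hsT : ∀ i, π i = true → T.V n v1 (s i) ∧ Fr T Ω E (s i) := by
    intro i hi
    by_cases h1 : i = 1
    · rw [h1, hs1]
      exact hv0
    · have h0 : i ≠ 0 := by
        rintro rfl
        rw [hπ0] at hi
        cases hi
      exact ((hs i).2.2.2 (hge i h0 h1) hi).2.1
  have hsFr : ∀ i, Fr T Ω E (s i) := by
    intro i
    cases hi : π i with
    | false => exact (hU1 _ (hsF i hi)).2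
    | true => exact (hsT i hi).2
  have hsne : ∀ i j, i < j → s i ≠ s j := by
    intro i j hij h
    by_cases hj : j = 1
    · have hi : i = 0 := by omega
      rw [hj, hi, hs0, hs1] at h
      refine hUt b0 (hU1 b0 hb0).1 ?_
      rw [h]
      exact hv0.1
    · have h2 : 2 ≤ j := by omega
      have hmem : s j ∈ s '' {l | l < j} := ⟨i, hij, h⟩
      cases hπj : π j with
      | false => exact ((hs j).2.2.1 h2 hπj).1 hmem
      | true => exact ((hs j).2.2.2 h2 hπj).1 hmem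
  have hsinj : Function.Injective s := by
    intro i j h
    rcases lt_trichotomy i j with h' | h' | h'
    · exact absurd h (hsne i j h')
    · exact h'
    · exact absurd h.symm (hsne j i h')
  -- the set `D`
  set Cs : Set (Set M) := (⋃ j, W j) ∪ range s ∪ {b | b ∈ T.Bk ∧ ¬ Disjoint b E} with hCs
  have hCB : Cs ⊆ T.Bk := by
    rintro b ((hb | ⟨i, rfl⟩) | hb)
    · obtain ⟨j, hj⟩ := mem_iUnion.1 hb
      exact (hFS.vm _ _ _ (hW1 j hj).1).2.1
    · exact (hsFr i).1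
    · exact hb.1
  have hCc : Cs.Countable := ((countable_iUnion hW2).union (countable_range s)).union
    hEhf.countable
  set D : Set M := Ω ∪ ⋃₀ Cs with hD
  have hCD : ∀ b ∈ Cs, b ⊆ D := fun b hb x hx => Or.inr ⟨b, hb, hx⟩
  have hsD : ∀ i, s i ⊆ D := fun i => hCD _ (Or.inl (Or.inr ⟨i, rfl⟩))
  have hmeet : ∀ b ∈ T.Bk, (b ∩ D).Nonempty → b ⊆ Ω ∨ b ∈ Cs := by
    rintro b hb ⟨x, hxb, hx | ⟨c, hc, hxc⟩⟩
    · exact Or.inl (hΩU.2.2 b hb ⟨x, hxb, hx⟩)
    · rw [hFS.dis b hb c (hCB hc) ⟨x, hxb, hxc⟩]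
      exact Or.inr hc
  have hDun : Un T D := by
    refine ⟨fun x hx => Or.inl (hΩU.1 hx), ?_, ?_⟩
    · rintro x (hx | ⟨b, hb, hx⟩)
      · exact hΩU.2.1 hx
      · exact Or.inr ⟨b, hCB hb, hx⟩
    · intro b hb hbD
      rcases hmeet b hb hbD with h | h
      · exact fun x hx => Or.inl (h hx)
      · exact hCD b h
  -- indices of the sequence
  have hcount0 : ∀ j, 1 ≤ j → ∃ i, 2 ≤ i ∧ π i = false ∧ c0 i = j := by
    intro j hj
    refine ⟨Nat.nth (fun l => π l = false) j, ?_, Nat.nth_mem_of_infinite hpf j,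
      Nat.count_nth_of_infinite hpf j⟩
    have h1 : Nat.nth (fun l => π l = false) 0 < Nat.nth (fun l => π l = false) j :=
      Nat.nth_strictMono hpf hj
    have h2 := Nat.nth_mem_of_infinite hpf j
    apply hge
    · omega
    · intro h
      rw [h, hπ1] at h2
      cases h2
  have hcount1 : ∀ j, 1 ≤ j → ∃ i, 2 ≤ i ∧ π i = true ∧ c1 i = j := by
    intro j hj
    refine ⟨Nat.nth (fun l => π l = true) j, ?_, Nat.nth_mem_of_infinite hpt j,
      Nat.count_nth_of_infinite hpt j⟩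
    have h1 : Nat.nth (fun l => π l = true) 0 < Nat.nth (fun l => π l = true) j :=
      Nat.nth_strictMono hpt hj
    have h2 := Nat.nth_mem_of_infinite hpt 0
    have h3 : Nat.nth (fun l => π l = true) 0 ≠ 0 := by
      intro h
      rw [h, hπ0] at h2
      cases h2
    omega
  have hDD : DD T Ω D := by
    refine ⟨?_, hDun, fun x hx => Or.inl hx, ?_⟩
    · refine hΩc.union (hCc.sUnion fun b hb => ?_)
      exact (hFS.fin b (hCB hb)).1.countable
    · intro b hb hbΩ m0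
      left
      set m : ℕ := max m0 (max k n) with hm
      have hkm : k ≤ m := (le_max_left _ _).trans (le_max_right _ _)
      have hnm : n ≤ m := (le_max_right _ _).trans (le_max_right _ _)
      have hmm : m0 ≤ m := le_max_left _ _
      suffices h : {b' | T.V m b b' ∧ ¬ b' ⊆ Ω ∧ b' ⊆ D}.Infinite from
        h.mono fun b' hb' => ⟨hFS.vd _ _ _ _ hmm hb'.1, hb'.2⟩
      have hqm := hq2 m b hb hbΩ
      have hqm' : ({j | (q j).1 = m ∧ T.V m b (q j).2} \ {0}).Infinite :=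
        hqm.sdiff (finite_singleton 0)
      by_cases hbU : T.V k b1 b
      · -- members of the sequence with `π i = false`
        have h1 : ∀ j ∈ {j | (q j).1 = m ∧ T.V m b (q j).2} \ {0},
            ∃ i, c0 i = j ∧ T.V m b (s i) ∧ ¬ s i ⊆ Ω ∧ s i ⊆ D := by
          rintro j ⟨⟨hj1, hj2⟩, hj0⟩
          obtain ⟨i, hi2, hiπ, hic⟩ := hcount0 j (Nat.one_le_iff_ne_zero.2 hj0)
          refine ⟨i, hic, ?_, (hsFr i).2.1, hsD i⟩
          have h2 := ((hs i).2.2.1 hi2 hiπ).2.2.2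
          rw [hic, hj1] at h2
          refine hFS.vt m _ _ _ hj2 (h2 ?_)
          exact hU1i (q j).2 (hFS.vt k _ _ _ hbU (hFS.vd k m _ _ hkm hj2)) (hq1 j).2 m
        intro hfin
        apply hqm'
        have h3 : (s ⁻¹' {b' | T.V m b b' ∧ ¬ b' ⊆ Ω ∧ b' ⊆ D}).Finite :=
          hfin.preimage hsinj.injOn
        refine (h3.image c0).subset ?_
        intro j hj
        obtain ⟨i, hi, h4⟩ := h1 j hj
        exact ⟨i, h4, hi⟩
      · by_cases hbt : T.V n v1 b
        · have h1 : ∀ j ∈ {j | (q j).1 = m ∧ T.V m b (q j).2} \ {0},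
              ∃ i, c1 i = j ∧ T.V m b (s i) ∧ ¬ s i ⊆ Ω ∧ s i ⊆ D := by
            rintro j ⟨⟨hj1, hj2⟩, hj0⟩
            obtain ⟨i, hi2, hiπ, hic⟩ := hcount1 j (Nat.one_le_iff_ne_zero.2 hj0)
            refine ⟨i, hic, ?_, (hsFr i).2.1, hsD i⟩
            have h2 := ((hs i).2.2.2 hi2 hiπ).2.2.2
            rw [hic, hj1] at h2
            refine hFS.vt m _ _ _ hj2 (h2 ?_)
            refine (hfree (q j).2 (hq1 j).1 (hq1 j).2 m).mono ?_
            rintro v' ⟨h3, h4⟩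
            refine ⟨⟨?_, h4⟩, h3⟩
            exact hFS.vt n _ _ _ (hFS.vt n _ _ _ hbt (hFS.vd n m _ _ hnm hj2))
              (hFS.vd n m _ _ hnm h3)
          intro hfin
          apply hqm'
          have h3 : (s ⁻¹' {b' | T.V m b b' ∧ ¬ b' ⊆ Ω ∧ b' ⊆ D}).Finite :=
            hfin.preimage hsinj.injOn
          refine (h3.image c1).subset ?_
          intro j hj
          obtain ⟨i, hi, h4⟩ := h1 j hj
          exact ⟨i, h4, hi⟩
        · obtain ⟨j, hj1, hj2⟩ := hqm.nonempty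
          have h1 : (W j).Infinite := by
            apply hW3
            refine (hperf b hb hbΩ m).mono ?_
            rintro b' ⟨h2, h3⟩
            refine ⟨?_, h3, ?_, ?_⟩
            · rw [hj1]
              exact hFS.vt m _ _ _ (hFS.vs m _ _ hj2) h2
            · intro h4
              exact hbU (hFS.vt k _ _ _ h4 (hFS.vs k _ _ (hFS.vd k m _ _ hkm h2)))
            · intro h4
              exact hbt (hFS.vt n _ _ _ h4 (hFS.vs n _ _ (hFS.vd n m _ _ hnm h2)))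
          refine h1.mono ?_
          intro b' hb'
          have h2 := hW1 j hb'
          have h3 := h2.1
          rw [hj1] at h3
          exact ⟨hFS.vt m _ _ _ hj2 h3, h2.2.1,
            hCD b' (Or.inl (Or.inl (mem_iUnion.2 ⟨j, hb'⟩)))⟩
  -- the blocks of `D`
  have hblk : ∀ b, Fr T Ω E b → b ⊆ D → (b ∈ ⋃ j, W j) ∨ ∃ i, b = s i := by
    intro b hb hbD
    obtain ⟨x, hx⟩ := (hFS.fin b hb.1).2.1
    rcases hmeet b hb.1 ⟨x, hx, hbD hx⟩ with h | ((h | ⟨i, hi⟩) | h)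
    · exact absurd h hb.2.1
    · exact Or.inl h
    · exact Or.inr ⟨i, hi.symm⟩
    · exact absurd hb.2.2 h.2
  refine ⟨s, D, hsinj, hs0, hs1, hDD, ?_, hsF, hsT, ?_, ?_, ?_⟩
  · intro x hx
    rcases hEX hx with h | ⟨b, hb, hxb⟩
    · exact Or.inl (hΩU.1 h)
    · refine Or.inr ⟨b, Or.inr ⟨hb, ?_⟩, hxb⟩
      exact fun h => Set.disjoint_left.1 h hxb hx
  · intro i j hi hj
    constructor
    · intro hR
      by_contra hij
      have hne : i ≠ j := by
        rintro rfl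
        rw [hi] at hj
        cases hj
      have hji : j < i := by omega
      have h1 : i ≠ 1 := by
        rintro rfl
        rw [hπ1] at hi
        cases hi
      have h2 : 2 ≤ i := by omega
      exact ((hs i).2.2.1 h2 hi).2.2.1 (s j) ⟨j, hji, rfl⟩ (hsT j hj).1 (hsT j hj).2 hR
    · intro hij
      by_cases h1 : j = 1
      · have h0 : i = 0 := by omega
        rw [h1, h0, hs0, hs1]
        exact hRv0
      · have h2 : 2 ≤ j := by omega
        exact ((hs j).2.2.2 h2 hj).2.2.1 (s i) ⟨i, hij, rfl⟩ (hsF i hi)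
  · intro b hbV hbF
    constructor
    · intro hbD
      rcases hblk b hbF hbD with h | ⟨i, rfl⟩
      · obtain ⟨j, hj⟩ := mem_iUnion.1 h
        exact absurd hbV (hW1 j hj).2.2.1
      · cases hi : π i with
        | false => exact ⟨i, hi, rfl⟩
        | true => exact absurd (hsT i hi).1 (hUt _ hbV)
    · rintro ⟨i, -, rfl⟩
      exact hsD i
  · intro b hbV hbF
    constructor
    · intro hbD
      rcases hblk b hbF hbD with h | ⟨i, rfl⟩
      · obtain ⟨j, hj⟩ := mem_iUnion.1 h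
        exact absurd hbV (hW1 j hj).2.2.2
      · cases hi : π i with
        | true => exact ⟨i, hi, rfl⟩
        | false => exact absurd hbV (hUt _ (hU1 _ (hsF i hi)).1)
    · rintro ⟨i, -, rfl⟩
      exact hsD i

end HEI
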