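import Pool.Agent.HEI.StH

/-!
# HEI [COL]: a colour which is dense in a neighbourhood
-/

set_option autoImplicit false
set_option linter.unusedVariables false

namespace HEI

open Set Pool.Agent.Helper5.DU Pool.Agent.Helper6.Str Pool.Agent.Helper79.VC
  Pool.Agent.Helper97.LO Pool.Agent.Helper97.VC HER HERN

/-- [COL]. -/
theorem thm_COL (hDDM : St_DDM) : St_COL := by
  intro L M S F T g0 g Ω E b0 n0 C _ c hFS hG hE hb0 hb0Ω
  obtain ⟨-, -, -, -, -, -, -, -, h9⟩ := hDDM L M S F T g0 hFS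
  by_contra hcon
  have key : ∀ K : Set C, K.Finite → ∃ (b1 : Set M) (k : ℕ), n0 ≤ k ∧ T.V n0 b0 b1 ∧
      ¬ b1 ⊆ Ω ∧ ∀ κ ∈ K, {b' | T.V k b1 b' ∧ Fr T Ω E b' ∧ c b' = κ}.Finite := by
    intro K hK
    induction K, hK using Set.Finite.induction_on with
    | empty => exact ⟨b0, n0, le_rfl, hFS.vr n0 b0 hb0, hb0Ω, fun κ h => h.elim⟩
    | @insert κ K _ _ ih =>
      obtain ⟨b1, k, hk, h01, hb1, hfin⟩ := ih
      by_cases hex : ∃ b m, T.V k b1 b ∧ ¬ b ⊆ Ω ∧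
          {b' | T.V m b b' ∧ Fr T Ω E b' ∧ c b' = κ}.Finite
      · obtain ⟨b, m, hb, hbΩ, hm⟩ := hex
        refine ⟨b, max m k, hk.trans (le_max_right _ _),
          hFS.vt n0 b0 b1 b h01 (hFS.vd n0 k b1 b hk hb), hbΩ, ?_⟩
        rintro κ' (rfl | hκ')
        · refine hm.subset ?_
          rintro b' ⟨h1, h2, h3⟩
          exact ⟨hFS.vd m _ b b' (le_max_left _ _) h1, h2, h3⟩
        · refine (hfin κ' hκ').subset ?_
          rintro b' ⟨h1, h2, h3⟩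
          exact ⟨hFS.vt k b1 b b' hb (hFS.vd k _ b b' (le_max_right _ _) h1), h2, h3⟩
      · exact absurd ⟨κ, b1, k, hk, h01, hb1, fun b hb hbΩ m hfm =>
          hex ⟨b, m, hb, hbΩ, hfm⟩⟩ hcon
  obtain ⟨b1, k, hk, h01, hb1, hfin⟩ := key univ finite_univ
  have hb1B : b1 ∈ T.Bk := (hFS.vm n0 b0 b1 h01).2.1
  refine hG.2 b1 hb1B hb1 k ?_
  refine ((finite_univ.biUnion hfin).union (h9 E hE)).subset ?_
  rintro b' ⟨h1, h2⟩
  have hB' : b' ∈ T.Bk := (hFS.vm k b1 b' h1).2.1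
  by_cases hd : Disjoint b' E
  · exact Or.inl (mem_iUnion₂.2 ⟨c b', mem_univ _, h1, ⟨hB', h2, hd⟩, rfl⟩)
  · exact Or.inr ⟨hB', hd⟩

end HEI
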