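import Pool.Agent.HEI.StE

/-!
# HEI: the decoding lemma
-/

set_option autoImplicit false
set_option linter.unusedVariables false

namespace HEI

open Set Pool.Agent.Helper5.DU Pool.Agent.Helper6.Str Pool.Agent.Helper79.VC
  Pool.Agent.Helper97.LO Pool.Agent.Helper97.VC HER HERN

variable {L : FirstOrder.Language.{0, 0}} {M : Type}

/-- the separation level -/
noncomputable def DCD_dl {k : ℕ} (T : Dt M) (Z : ℕ → Fin (k + 1) → Set M) (i : ℕ) (a : Fin (k + 1))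
    (j : ℕ) (b : Fin (k + 1)) : ℕ := sInf {n | ¬ T.V n (Z i a) (Z j b)}

/-- the indices which code `f` -/
def DCD_I (f : ℕ → Bool) : Set ℕ := {m | ∃ j : ℕ, m = 2 * j + (if f j then 1 else 0)}

theorem DCD_I_inf (f : ℕ → Bool) : (DCD_I f).Infinite := by
  have h : Function.Injective (fun j : ℕ => 2 * j + (if f j then 1 else 0)) := by
    intro i j hij
    simp only at hij
    split_ifs at hij <;> omega
  refine (Set.infinite_range_of_injective h).mono ?_
  rintro _ ⟨j, rfl⟩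
  exact ⟨j, rfl⟩

theorem DCD_I_inj {f g : ℕ → Bool} (h : DCD_I f = DCD_I g) : f = g := by
  funext j
  have h1 : 2 * j + (if f j then 1 else 0) ∈ DCD_I g := by
    rw [← h]; exact ⟨j, rfl⟩
  obtain ⟨j', hj'⟩ := h1
  have hjj : j' = j := by
    split_ifs at hj' <;> omega
  subst hjj
  cases h1 : f j' <;> cases h2 : g j' <;> simp [h1, h2] at hj' ⊢

theorem DCD_om {g : Ordinal.{0}} (hg : g < om1) : Ordinal.omega0 * g < om1 := by
  rw [lt_om1_iff] at hg ⊢
  rw [Ordinal.card_mul, Ordinal.card_omega0]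
  exact (mul_le_mul' le_rfl hg).trans (le_of_eq Cardinal.aleph0_mul_aleph0)

theorem DCD_sup {k : ℕ} (e : Equiv.Perm (Fin (k + 1))) (g : Fin (k + 1) → ℕ) :
    (Finset.univ.sup fun a => g (e a)) = Finset.univ.sup g := by
  apply le_antisymm
  · exact Finset.sup_le fun a _ => Finset.le_sup (f := g) (Finset.mem_univ (e a))
  · refine Finset.sup_le fun a _ => ?_
    have := Finset.le_sup (f := fun a => g (e a)) (Finset.mem_univ (e.symm a))
    simpa using this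

/-- one direction of the decoding -/
theorem DCD_key (hIMG : St_IMG) {S : L.Structure M} {F : Set M} {T : Dt M} {g0 : Ordinal.{0}}
    {k : ℕ} {Z : ℕ → Fin (k + 1) → Set M} {G : Set M} {γ : Ordinal.{0}} {D : Set ℕ → Set M}
    (hFS : FS S F T g0) (hZ : ∀ i a, Z i a ∈ T.Bk)
    (hsep : ∀ i a j b, (∀ n, T.V n (Z i a) (Z j b)) → i = j ∧ a = b) (hG : G.Finite) (hFG : F ⊆ G)
    (hD : ∀ N : Set ℕ, N.Infinite → DD T T.A (D N) ∧ G ⊆ D N ∧ ∀ i ∈ N, ∀ a, Z i a ⊆ D N)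
    (hdec : ∀ N N' : Set ℕ, N.Infinite → N'.Infinite → ∀ p : Set (M × M), p.Finite → dg G ⊆ p →
      (∀ a ∈ p, a.1 ∈ D N ∧ a.2 ∈ D N') → BFR S S (D N) (D N') γ p → ∀ i ∈ N,
      (∀ a, Dm p (Z i a)) → ∃ j ∈ N', ∃ e : Equiv.Perm (Fin (k + 1)), ∀ a n,
        T.V n (Im p (Z i a)) (Z j (e a)))
    {N N' : Set ℕ} (hN : N.Infinite) (hN' : N'.Infinite)
    (hB : BFR S S (D N) (D N') (max γ (Ordinal.omega0 * g0) + Ordinal.omega0) (dg G)) :
    (∀ i ∈ N, ∃ j ∈ N', ∑ a, (Z i a).ncard = ∑ a, (Z j a).ncard) ∧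
    ∀ i ∈ N, ∀ i' ∈ N, i ≠ i' → ∃ j ∈ N', ∃ j' ∈ N', j ≠ j' ∧
      (Finset.univ.sup fun a => Finset.univ.sup fun b => DCD_dl T Z i a i' b) =
        Finset.univ.sup fun a => Finset.univ.sup fun b => DCD_dl T Z j a j' b := by
  obtain ⟨hI1, -⟩ := hIMG L M S F
  have hfin : ∀ i, (⋃ a, Z i a).Finite := fun i => Set.finite_iUnion fun a => (hFS.fin _ (hZ i a)).1
  have hpos : ∀ i ∈ N, ∀ i' ∈ N, ∃ p : Set (M × M), p.Finite ∧ dg G ⊆ p ∧
      (∀ a ∈ p, a.1 ∈ D N ∧ a.2 ∈ D N') ∧ BFR S S (D N) (D N') (max γ (Ordinal.omega0 * g0)) p ∧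
      (∀ a, Dm p (Z i a)) ∧ ∀ a, Dm p (Z i' a) := by
    intro i hi i' hi'
    obtain ⟨n, x, -, hx⟩ := ((hfin i).union (hfin i')).fin_param
    have hxD : ∀ l, x l ∈ D N := by
      intro l
      have : x l ∈ (⋃ a, Z i a) ∪ ⋃ a, Z i' a := by rw [← hx]; exact mem_range_self l
      rcases this with h | h
      · obtain ⟨a, ha⟩ := mem_iUnion.mp h
        exact (hD N hN).2.2 i hi a ha
      · obtain ⟨a, ha⟩ := mem_iUnion.mp h
        exact (hD N hN).2.2 i' hi' a ha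
    have hB1 : BFR S S (D N) (D N') (max γ (Ordinal.omega0 * g0) + n) (dg G) :=
      hB.mono (add_le_add_right (Ordinal.natCast_lt_omega0 n).le _)
    obtain ⟨y, hyD, hB2⟩ := BFR.forth_many n hB1 x hxD
    refine ⟨dg G ∪ range fun l => (x l, y l), (hG.image _).union (finite_range _),
      subset_union_left, ?_, hB2, ?_, ?_⟩
    · rintro a (⟨z, hz, rfl⟩ | ⟨l, rfl⟩)
      · exact ⟨(hD N hN).2.1 hz, (hD N' hN').2.1 hz⟩
      · exact ⟨hxD l, hyD l⟩
    · intro a z hz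
      have : z ∈ range x := by rw [hx]; exact Or.inl (mem_iUnion.mpr ⟨a, hz⟩)
      obtain ⟨l, rfl⟩ := this
      exact ⟨y l, Or.inr ⟨l, rfl⟩⟩
    · intro a z hz
      have : z ∈ range x := by rw [hx]; exact Or.inr (mem_iUnion.mpr ⟨a, hz⟩)
      obtain ⟨l, rfl⟩ := this
      exact ⟨y l, Or.inr ⟨l, rfl⟩⟩
  constructor
  · intro i hi
    obtain ⟨p, hpf, hpG, hpD, hpB, hp1, -⟩ := hpos i hi i hi
    obtain ⟨j, hj, e, he⟩ := hdec N N' hN hN' p hpf hpG hpD (hpB.mono (le_max_left _ _)) i hi hp1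
    refine ⟨j, hj, ?_⟩
    rw [← Equiv.sum_comp e (fun a => (Z j a).ncard)]
    refine Finset.sum_congr rfl fun a _ => ?_
    have h1 := (hI1 p (Z i a) hpB.atEq (hp1 a)).1
    have h2 := (hFS.vm 0 _ _ (he a 0)).2.2
    rw [Set.ncard_def, Set.ncard_def, ← h1, h2]
  · intro i hi i' hi' hii
    obtain ⟨p, hpf, hpG, hpD, hpB, hp1, hp2⟩ := hpos i hi i' hi'
    obtain ⟨j, hj, e, he⟩ := hdec N N' hN hN' p hpf hpG hpD (hpB.mono (le_max_left _ _)) i hi hp1
    obtain ⟨j', hj', e', he'⟩ :=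
      hdec N N' hN hN' p hpf hpG hpD (hpB.mono (le_max_left _ _)) i' hi' hp2
    have hPs : Ps S F g0 (D N) (D N') p := by
      exact ⟨hpf, (image_mono hFG).trans hpG, hpD, hpB.mono (le_max_right _ _)⟩
    have hV : ∀ n a b, T.V n (Z i a) (Z i' b) ↔ T.V n (Z j (e a)) (Z j' (e' b)) := by
      intro n a b
      rw [hFS.vv _ _ p (hD N hN).1 (hD N' hN').1 hPs n _ _ (hp1 a) (hp2 b)]
      constructor
      · intro h
        exact hFS.vt n _ _ _ (hFS.vs n _ _ (he a n)) (hFS.vt n _ _ _ h (he' b n))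
      · intro h
        exact hFS.vt n _ _ _ (he a n) (hFS.vt n _ _ _ h (hFS.vs n _ _ (he' b n)))
    refine ⟨j, hj, j', hj', ?_, ?_⟩
    · rintro rfl
      have h1 : ∀ n, T.V n (Z i 0) (Z i' (e'.symm (e 0))) := by
        intro n
        rw [hV]
        simp only [Equiv.apply_symm_apply]
        exact hFS.vr n _ (hZ _ _)
      exact hii (hsep _ _ _ _ h1).1
    · have h1 : ∀ a b, DCD_dl T Z i a i' b = DCD_dl T Z j (e a) j' (e' b) := by
        intro a b
        unfold DCD_dl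
        simp only [hV]
      simp only [h1]
      rw [← DCD_sup e fun a => Finset.univ.sup fun b => DCD_dl T Z j a j' b]
      refine congrArg _ ?_
      funext a
      exact DCD_sup e' fun b => DCD_dl T Z j (e a) j' b

/-- (DCD) the decoding lemma -/
theorem thm_DCD (hIMG : St_IMG) (hPRF : St_PRF) : St_DCD := by
  intro L M S F T g0 k Z G γ D hFS hZ hsep hG hFG hγ hD hdec
  classical
  -- the hypotheses of the combinatorial lemma
  have hcl : ∀ n b b', b ∈ T.Bk → b' ∈ T.Bk →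
      (T.V n b b' ↔ {c | T.V n b c} = {c | T.V n b' c}) := by
    intro n b b' hb hb'
    constructor
    · intro h
      ext c
      exact ⟨fun h1 => hFS.vt n _ _ _ (hFS.vs n _ _ h) h1, fun h1 => hFS.vt n _ _ _ h h1⟩
    · intro h
      have h1 : b' ∈ {c | T.V n b' c} := hFS.vr n b' hb'
      rw [← h] at h1
      exact h1
  have hP1 : ∀ n i a j b, (i ≠ j ∨ a ≠ b) → (n < DCD_dl T Z i a j b ↔
      {c | T.V n (Z i a) c} = {c | T.V n (Z j b) c}) := by
    intro n i a j b hne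
    rw [← hcl n _ _ (hZ i a) (hZ j b)]
    have hex : {n | ¬ T.V n (Z i a) (Z j b)}.Nonempty := by
      by_contra hcon
      rw [Set.not_nonempty_iff_eq_empty] at hcon
      have h1 : ∀ n, T.V n (Z i a) (Z j b) := by
        intro n
        by_contra h2
        have : n ∈ {n | ¬ T.V n (Z i a) (Z j b)} := h2
        rw [hcon] at this
        exact this
      obtain ⟨h3, h4⟩ := hsep i a j b h1
      rcases hne with h | h
      · exact h h3
      · exact h h4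
    unfold DCD_dl
    constructor
    · intro h
      by_contra h1
      exact Nat.notMem_of_lt_sInf h h1
    · intro h
      by_contra h1
      push Not at h1
      exact Nat.sInf_mem hex (hFS.vd _ _ _ _ h1 h)
  have hP2 : ∀ n s, {c : Set (Set M) | ∃ i a, (Z i a).ncard ≤ s ∧
      c = {c | T.V n (Z i a) c}}.Finite := by
    intro n s
    have hR : ∀ k' : ℕ, ∃ R : Set (Set M), R.Finite ∧ ∀ b ∈ T.Bk, b.encard = k' →
        ∃ c ∈ R, T.V n c b := fun k' => hFS.vf n k'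
    choose R hRf hRc using hR
    have hfin : (⋃ k' ∈ Finset.range (s + 1), (fun c => {c' | T.V n c c'}) '' R k').Finite :=
      Set.Finite.biUnion (Finset.finite_toSet _) fun k' _ => (hRf k').image _
    refine hfin.subset ?_
    rintro c ⟨i, a, hs, rfl⟩
    have hf := (hFS.fin _ (hZ i a)).1
    obtain ⟨c, hcR, hc⟩ := hRc (Z i a).ncard (Z i a) (hZ i a) hf.cast_ncard_eq.symm
    refine mem_iUnion₂.mpr ⟨(Z i a).ncard, ?_, c, hcR, ?_⟩
    · exact Finset.mem_range.mpr (by omega)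
    · have h1 := hFS.vm n _ _ hc
      exact (hcl n c (Z i a) h1.1 h1.2.1).mp hc
  obtain ⟨φ, hφ, hφI⟩ := hPRF (Set (Set M)) k (fun i a => (Z i a).ncard) (DCD_dl T Z)
    (fun n i a => {c | T.V n (Z i a) c}) hP1 hP2
  -- the family of sets
  have hNinf : ∀ f, (φ '' DCD_I f).Infinite := fun f =>
    (DCD_I_inf f).image hφ.injective.injOn
  have hom : max γ (Ordinal.omega0 * g0) + Ordinal.omega0 < om1 :=
    add_lt_om1 (max_lt hγ (DCD_om hFS.gl)) omega_lt_om1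
  have hX : ∀ f : ℕ → Bool, (D (φ '' DCD_I f)).Countable ∧ (D (φ '' DCD_I f)).Infinite ∧
      G ⊆ D (φ '' DCD_I f) := by
    intro f
    obtain ⟨h1, h2, h3⟩ := hD _ (hNinf f)
    refine ⟨h1.1, ?_, h2⟩
    have hne : ∀ i, (Z i 0).Nonempty := fun i => (hFS.fin _ (hZ i 0)).2.1
    choose x hx using hne
    have hxinj : Function.Injective x := by
      intro i j hij
      have h4 : (Z i 0 ∩ Z j 0).Nonempty := ⟨x i, hx i, by rw [hij]; exact hx j⟩
      have h5 := hFS.dis _ (hZ i 0) _ (hZ j 0) h4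
      refine (hsep i 0 j 0 fun n => ?_).1
      rw [h5]
      exact hFS.vr n _ (hZ j 0)
    refine ((hNinf f).image hxinj.injOn).mono ?_
    rintro _ ⟨i, hi, rfl⟩
    exact h3 i hi 0 (hx i)
  obtain ⟨f, g, hfg, hB⟩ := hFS.pig (fun f => D (φ '' DCD_I f)) G _ hG hFG hom hX
  have hB' : BFR S S (D (φ '' DCD_I g)) (D (φ '' DCD_I f))
      (max γ (Ordinal.omega0 * g0) + Ordinal.omega0) (dg G) := by
    refine hB.symm ?_
    rintro a ⟨z, hz, rfl⟩
    exact ⟨z, hz, rfl⟩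
  have hk1 := DCD_key hIMG hFS hZ hsep hG hFG hD hdec (hNinf f) (hNinf g) hB
  have hk2 := DCD_key hIMG hFS hZ hsep hG hFG hD hdec (hNinf g) (hNinf f) hB'
  refine hfg (DCD_I_inj (hφI _ _ (DCD_I_inf f) (DCD_I_inf g) ?_ ?_))
  · intro m
    constructor
    · rintro ⟨i, hi, rfl⟩
      obtain ⟨_, ⟨j, hj, rfl⟩, hs⟩ := hk1.1 (φ i) ⟨i, hi, rfl⟩
      exact ⟨j, hj, hs⟩
    · rintro ⟨i, hi, rfl⟩
      obtain ⟨_, ⟨j, hj, rfl⟩, hs⟩ := hk2.1 (φ i) ⟨i, hi, rfl⟩
      exact ⟨j, hj, hs⟩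
  · intro m
    constructor
    · rintro ⟨i, hi, i', hi', hne, rfl⟩
      obtain ⟨_, ⟨j, hj, rfl⟩, _, ⟨j', hj', rfl⟩, hjj, hs⟩ := hk1.2 (φ i) ⟨i, hi, rfl⟩ (φ i')
        ⟨i', hi', rfl⟩ fun h => hne (hφ.injective h)
      exact ⟨j, hj, j', hj', fun h => hjj (by rw [h]), hs⟩
    · rintro ⟨i, hi, i', hi', hne, rfl⟩
      obtain ⟨_, ⟨j, hj, rfl⟩, _, ⟨j', hj', rfl⟩, hjj, hs⟩ := hk2.2 (φ i) ⟨i, hi, rfl⟩ (φ i')
        ⟨i', hi', rfl⟩ fun h => hne (hφ.injective h)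
      exact ⟨j, hj, j', hj', fun h => hjj (by rw [h]), hs⟩

end HEI
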