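import Pool.Agent.HEI.StG

/-!
# HEI: the sets `𝔻_Ω`
-/

set_option autoImplicit false
set_option linter.unusedVariables false

namespace HEI

open Set Pool.Agent.Helper5.DU Pool.Agent.Helper6.Str Pool.Agent.Helper79.VC
  Pool.Agent.Helper97.LO Pool.Agent.Helper97.VC HER HERN

section

variable {L : FirstOrder.Language.{0, 0}} {M : Type} {S : L.Structure M} {F : Set M} {T : Dt M}
  {g0 : Ordinal.{0}}

private theorem DDM_un (h : FS S F T g0) {D : Set M} {C : Set (Set M)} (hD : Un T D)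
    (hC : C ⊆ T.Bk) : Un T (D ∪ ⋃₀ C) := by
  refine ⟨hD.1.trans subset_union_left, ?_, ?_⟩
  · apply union_subset hD.2.1
    exact (sUnion_subset_sUnion hC).trans subset_union_right
  · rintro b hb ⟨x, hx, hx' | ⟨c, hc, hxc⟩⟩
    · exact (hD.2.2 b hb ⟨x, hx, hx'⟩).trans subset_union_left
    · have h1 : b = c := h.dis b hb c (hC hc) ⟨x, hx, hxc⟩
      subst h1
      exact (subset_sUnion_of_mem hc).trans subset_union_right

private theorem DDM_ctb (h : FS S F T g0) {D : Set M} {C : Set (Set M)} (hD : D.Countable)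
    (hC : C ⊆ T.Bk) (hCc : C.Countable) : (D ∪ ⋃₀ C).Countable :=
  hD.union (hCc.sUnion fun c hc => (h.fin c (hC hc)).1.countable)

private theorem DDM_1 (h : FS S F T g0) {Ω D : Set M} {C : Set (Set M)} (hD : DD T Ω D)
    (hCc : C.Countable) (hC : C ⊆ T.Bk) : DD T Ω (D ∪ ⋃₀ C) := by
  refine ⟨DDM_ctb h hD.1 hC hCc, DDM_un h hD.2.1 hC, hD.2.2.1.trans subset_union_left, ?_⟩
  intro b hb hbΩ n
  rcases hD.2.2.2 b hb hbΩ n with h1 | h1
  · exact Or.inl (h1.mono fun b' hb' => ⟨hb'.1, hb'.2.1, hb'.2.2.trans subset_union_left⟩)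
  · exact Or.inr fun b' hb' => (h1 b' hb').trans subset_union_left

private theorem DDM_2 (h : FS S F T g0) {Ω Ω' D : Set M} (hs : Ω ⊆ Ω') (hD : DD T Ω' D) :
    DD T Ω D := by
  refine ⟨hD.1, hD.2.1, hs.trans hD.2.2.1, ?_⟩
  intro b hb hbΩ n
  by_cases h1 : ∀ b', T.V n b b' → b' ⊆ D
  · exact Or.inr h1
  · push Not at h1
    obtain ⟨b', hb', hbD⟩ := h1
    have h2 : ¬ b' ⊆ Ω' := fun h3 => hbD (h3.trans hD.2.2.1)
    have h3 : b' ∈ T.Bk := (h.vm n b b' hb').2.1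
    rcases hD.2.2.2 b' h3 h2 n with h4 | h4
    · refine Or.inl (h4.mono fun c hc => ⟨h.vt n b b' c hb' hc.1, fun h5 => hc.2.1 (h5.trans hs),
        hc.2.2⟩)
    · exact absurd (h4 b' (h.vr n b' h3)) hbD

private theorem DDM_A (h : FS S F T g0) : Un T T.A := by
  refine ⟨Subset.rfl, subset_union_left, ?_⟩
  rintro b hb ⟨x, hx, hx'⟩
  exact absurd hx' ((disjoint_left.1 (h.fin b hb).2.2) hx)

private theorem DDM_6 (h : FS S F T g0) {Ω : Set M} {Q : Set (Set M)} (hc : Ω.Countable)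
    (hU : Un T Ω)
    (hQ : ∀ b ∈ T.Bk, ¬ b ⊆ Ω → ∀ n, {c | c ∈ Q ∧ T.V n b c ∧ ¬ c ⊆ Ω}.Infinite) :
    ∃ D, DD T Ω D ∧ ∀ c ∈ T.Bk, c ⊆ D → c ⊆ Ω ∨ c ∈ Q := by
  classical
  choose R hRf hR using h.vf
  have hZ : ∀ (n : ℕ) (c : Set M), ∃ Z : Set (Set M), Z.Countable ∧
      Z ⊆ {c' | c' ∈ Q ∧ T.V n c c' ∧ ¬ c' ⊆ Ω} ∧
      ({c' | c' ∈ Q ∧ T.V n c c' ∧ ¬ c' ⊆ Ω}.Infinite → Z.Infinite) := by
    intro n c
    by_cases h1 : {c' | c' ∈ Q ∧ T.V n c c' ∧ ¬ c' ⊆ Ω}.Infinite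
    · refine ⟨range fun i => (h1.natEmbedding _ i : Set M), countable_range _, ?_, fun _ => ?_⟩
      · rintro _ ⟨i, rfl⟩
        exact (h1.natEmbedding _ i).2
      · exact infinite_range_of_injective fun i j hij =>
          (h1.natEmbedding _).injective (Subtype.ext hij)
    · exact ⟨∅, countable_empty, empty_subset _, fun h2 => absurd h2 h1⟩
  choose Z hZc hZs hZi using hZ
  obtain ⟨C, hC⟩ : ∃ C : Set (Set M), C = ⋃ n, ⋃ k, ⋃ c ∈ R n k, Z n c := ⟨_, rfl⟩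
  have hCm : ∀ c ∈ C, c ∈ Q ∧ c ∈ T.Bk ∧ ¬ c ⊆ Ω := by
    intro c hc'
    rw [hC] at hc'
    simp only [mem_iUnion] at hc'
    obtain ⟨n, k, c0, -, hc0⟩ := hc'
    obtain ⟨h1, h2, h3⟩ := hZs n c0 hc0
    exact ⟨h1, (h.vm _ _ _ h2).2.1, h3⟩
  have hCB : C ⊆ T.Bk := fun c hc' => (hCm c hc').2.1
  have hCc : C.Countable := by
    rw [hC]
    exact countable_iUnion fun n => countable_iUnion fun k =>
      (hRf n k).countable.biUnion fun c _ => hZc n c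
  refine ⟨Ω ∪ ⋃₀ C, ⟨DDM_ctb h hc hCB hCc, DDM_un h hU hCB, subset_union_left, ?_⟩, ?_⟩
  · intro b hb hbΩ n
    left
    have hbf := (h.fin b hb).1
    obtain ⟨c, hcR, hcb⟩ := hR n b.ncard b hb (by rw [hbf.cast_ncard_eq])
    have h1 : {c' | c' ∈ Q ∧ T.V n c c' ∧ ¬ c' ⊆ Ω}.Infinite :=
      (hQ b hb hbΩ n).mono fun c' hc' => ⟨hc'.1, h.vt n c b c' hcb hc'.2.1, hc'.2.2⟩
    refine (hZi n c h1).mono fun b' hb' => ?_
    obtain ⟨h2, h3, h4⟩ := hZs n c hb'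
    refine ⟨h.vt n b c b' (h.vs n c b hcb) h3, h4, ?_⟩
    have h5 : b' ∈ C := by
      rw [hC]
      simp only [mem_iUnion]
      exact ⟨n, b.ncard, c, hcR, hb'⟩
    exact (subset_sUnion_of_mem h5).trans subset_union_right
  · intro c hcB hcD
    obtain ⟨x, hx⟩ := (h.fin c hcB).2.1
    rcases hcD hx with h1 | ⟨c', hc', hx'⟩
    · exact Or.inl (hU.2.2 c hcB ⟨x, hx, h1⟩)
    · have h2 : c = c' := h.dis c hcB c' (hCB hc') ⟨x, hx, hx'⟩
      subst h2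
      exact Or.inr (hCm c hc').1

private theorem DDM_9 (h : FS S F T g0) {E : Set M} (hE : E.Finite) :
    {b | b ∈ T.Bk ∧ ¬ Disjoint b E}.Finite := by
  refine (hE.biUnion (t := fun x => {b | b ∈ T.Bk ∧ x ∈ b}) fun x _ => ?_).subset ?_
  · refine Set.Subsingleton.finite fun b hb b' hb' => ?_
    exact h.dis b hb.1 b' hb'.1 ⟨x, hb.2, hb'.2⟩
  · rintro b ⟨hb, hd⟩
    rw [not_disjoint_iff] at hd
    obtain ⟨x, hx, hxE⟩ := hd
    simp only [mem_iUnion]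
    exact ⟨x, hxE, hb, hx⟩

end

theorem thm_DDM : St_DDM := by
  intro L M S F T g0 h
  refine ⟨fun Ω D C hD hCc hC => DDM_1 h hD hCc hC, fun Ω Ω' D _ _ hs hD => DDM_2 h hs hD,
    fun Ω D hU hD => DDM_2 h hU.1 hD, ?_, ?_, fun Ω Q hc hU hQ => DDM_6 h hc hU hQ, ?_, ?_,
    fun E hE => DDM_9 h hE⟩
  · intro Ω hU
    refine ⟨(hU 0).1.trans (subset_iUnion Ω 0), iUnion_subset fun i => (hU i).2.1, ?_⟩
    rintro b hb ⟨x, hx, hx'⟩
    rw [mem_iUnion] at hx'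
    obtain ⟨i, hi⟩ := hx'
    exact ((hU i).2.2 b hb ⟨x, hx, hi⟩).trans (subset_iUnion Ω i)
  · intro Ω b hU hb
    constructor
    · intro h1
      rw [disjoint_iff_inter_eq_empty]
      by_contra h2
      exact h1 (hU.2.2 b hb (nonempty_iff_ne_empty.2 h2))
    · intro h1 h2
      obtain ⟨x, hx⟩ := (h.fin b hb).2.1
      exact (disjoint_left.1 h1) hx (h2 hx)
  · intro Ω D hp hD b hb hbΩ n
    rcases hD.2.2.2 b hb hbΩ n with h1 | h1
    · exact h1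
    · exact (hp b hb hbΩ n).mono fun b' hb' => ⟨hb'.1, hb'.2, h1 b' hb'.1⟩
  · intro Ω E hc hU hE hEX hp
    obtain ⟨D, hD, -⟩ := DDM_6 h (Q := T.Bk) hc hU fun b hb hbΩ n =>
      (hp b hb hbΩ n).mono fun b' hb' => ⟨(h.vm _ _ _ hb'.1).2.1, hb'.1, hb'.2⟩
    have h1 := DDM_9 h hE
    refine ⟨D ∪ ⋃₀ {b | b ∈ T.Bk ∧ ¬ Disjoint b E},
      DDM_1 h hD h1.countable fun b hb => hb.1, ?_⟩
    intro x hx
    rcases hEX hx with h2 | ⟨b, hb, hxb⟩
    · exact Or.inl (hD.2.1.1 h2)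
    · exact Or.inr ⟨b, ⟨hb, not_disjoint_iff.2 ⟨x, hxb, hx⟩⟩, hxb⟩

end HEI
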