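import Pool.Agent.HEI.StE

/-!
# HEI [DEN]: dense sets (helper58)
-/

set_option autoImplicit false
set_option linter.unusedVariables false

namespace HEI

open Set Pool.Agent.Helper5.DU Pool.Agent.Helper6.Str Pool.Agent.Helper79.VC
  Pool.Agent.Helper97.LO Pool.Agent.Helper97.VC HER HERN

theorem thm_DEN (hGRP : St_GRP) (hINF : St_INF) (hBLK : St_BLK) (hCNJ : St_CNJ) (hUTL : St_UTL)
    (hLVF : St_LVF) : St_DEN := by
  intro L M S F m A D hLv hDE
  obtain ⟨-, hAD, hBD, hinf⟩ := hDE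
  have f1 : ∀ x ∉ A, ∀ n, Gx S F n univ x := fun x hx => (hLVF L M S F m A hLv x hx).1
  have f3 : ∀ x ∉ A, ∀ y ∈ Bi S F univ x, y ∉ A ∧ Bi S F univ y = Bi S F univ x :=
    fun x hx => (hLVF L M S F m A hLv x hx).2.2.1
  have bsub : ∀ n x, Bl S F n univ x ⊆ Bi S F univ x := fun n x =>
    subset_iUnion (fun n => Bl S F n univ x) n
  have bself : ∀ n x, Gx S F n univ x → x ∈ Bl S F n univ x := fun n x h =>
    ((hBLK L M S F n univ).2.1 x h).2
  have biself : ∀ x ∉ A, x ∈ Bi S F univ x := fun x hx => bsub 0 x (bself 0 x (f1 x hx 0))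
  have cjs : ∀ n X a b, Cj S F n X a b → Cj S F n X b a := by
    rintro n X a b ⟨σ, h1, h2⟩
    exact ⟨σ⁻¹, (hGRP L M S F n X).2.2.1 σ h1, by rw [← h2]; simp⟩
  have cjt : ∀ n X a b c, Cj S F n X a b → Cj S F n X b c → Cj S F n X a c := by
    rintro n X a b c ⟨σ, h1, h2⟩ ⟨τ, h3, h4⟩
    exact ⟨τ * σ, (hGRP L M S F n X).2.1 τ σ h3 h1, by rw [Equiv.Perm.mul_apply, h2, h4]⟩
  -- (C)
  have hC : ∀ (n : ℕ) (s : Set M), s.Finite → s ⊆ D → ∀ (k : ℕ) (z : Set M), z.Finite →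
      (z \ D).ncard = k → ∃ τ : Equiv.Perm M, Ph S F n univ τ ∧ (∀ x ∈ s, τ x = x) ∧
        ∀ x ∈ z, τ x ∈ D := by
    intro n s hs hsD k
    induction k using Nat.strong_induction_on with
    | _ k ih =>
      intro z hz hk
      by_cases hzD : z ⊆ D
      · exact ⟨1, (hGRP L M S F n univ).1, fun _ _ => rfl, fun x hx => hzD hx⟩
      obtain ⟨x, hxz, hxD⟩ := not_subset.1 hzD
      have hxA : x ∉ A := fun h => hxD (hAD h)
      obtain ⟨B, ⟨y, hyD, hyA, hcj, rfl⟩, hB⟩ :=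
        ((hinf n x hxA).sdiff ((hs.union hz).image (Bi S F univ))).nonempty
      have hdis : ∀ w ∈ s ∪ z, w ∉ Bi S F univ y := by
        intro w hw hwy
        exact hB ⟨w, hw, (f3 y hyA w hwy).2⟩
      have hxy : x ∉ Bi S F univ y := hdis x (Or.inr hxz)
      obtain ⟨σ, hσ, hσx⟩ := hcj
      have hnot : σ x ∉ Bl S F n univ x := by
        intro h
        have h1 := (f3 x hxA _ (bsub n x h)).2
        rw [hσx] at h1
        apply hxy
        rw [h1]
        exact biself x hxA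
      obtain ⟨τ1, h1, -, h2, h3⟩ := (hUTL L M S F n univ).2.2.1 x σ (f1 x hxA n) hσ hnot
      have hbσ : Bl S F n univ (σ x) = σ '' Bl S F n univ x :=
        ((hBLK L M S F n univ).2.2.2.2.1 σ x hσ (f1 x hxA n)).2
      have h4 : ∀ w ∈ Bl S F n univ x, τ1 w ∈ D := by
        intro w hw
        rw [h2 w hw]
        refine hBD y hyD hyA (bsub n y ?_)
        rw [← hσx, hbσ]
        exact mem_image_of_mem σ hw
      have h5 : ∀ w ∈ s ∪ z, w ∉ Bl S F n univ x → τ1 w = w := by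
        intro w hw hwx
        by_contra h6
        rcases h3 w h6 with h7 | h7
        · exact hwx h7
        · rw [hσx] at h7
          exact hdis w hw (bsub n y h7)
      have h6 : ∀ w ∈ s, w ∉ Bl S F n univ x := by
        intro w hw hwx
        obtain ⟨h7, h8⟩ := f3 x hxA w (bsub n x hwx)
        refine hxD (hBD w (hsD hw) h7 ?_)
        rw [h8]
        exact biself x hxA
      have hlt : ((τ1 '' z) \ D).ncard < k := by
        rw [← hk]
        refine ncard_lt_ncard ?_ (hz.subset sdiff_subset)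
        have hsub : (τ1 '' z) \ D ⊆ z \ D := by
          rintro _ ⟨⟨w, hw, rfl⟩, hwD⟩
          by_cases hwx : w ∈ Bl S F n univ x
          · exact absurd (h4 w hwx) hwD
          · rw [h5 w (Or.inr hw) hwx] at hwD ⊢
            exact ⟨hw, hwD⟩
        refine ⟨hsub, fun h => ?_⟩
        obtain ⟨⟨w, hw, hwx⟩, -⟩ := h ⟨hxz, hxD⟩
        by_cases hwx' : w ∈ Bl S F n univ x
        · apply hxD
          rw [← hwx]
          exact h4 w hwx'
        · rw [h5 w (Or.inr hw) hwx'] at hwx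
          rw [hwx] at hwx'
          exact hwx' (bself n x (f1 x hxA n))
      obtain ⟨τ2, g1, g2, g3⟩ := ih _ hlt (τ1 '' z) (hz.image _) rfl
      refine ⟨τ2 * τ1, (hGRP L M S F n univ).2.1 τ2 τ1 g1 h1, fun w hw => ?_, fun w hw => ?_⟩
      · rw [Equiv.Perm.mul_apply, h5 w (Or.inl hw) (h6 w hw), g2 w hw]
      · rw [Equiv.Perm.mul_apply]
        exact g3 _ (mem_image_of_mem _ hw)
  -- (1)
  have p1 : ∀ n σ, Ph S F n D σ → Ph S F n univ σ := by
    rintro n σ ⟨hf, hsD, hTE⟩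
    refine ⟨hf, fun x _ => mem_univ x, ?_⟩
    intro q hq hqn
    have hqf : q.Finite := finite_of_encard_le_coe hqn
    obtain ⟨τ, hτ, hτs, hτz⟩ := hC n {x | σ x ≠ x} hf (fun x hx => hsD x hx) _
      (Prod.fst '' q) (hqf.image _) rfl
    have hcomm : ∀ w, σ (τ w) = τ (σ w) := by
      intro w
      by_cases hw : σ w = w
      · rw [hw]
        by_contra h
        have h1 := hτs (τ w) h
        have h2 := τ.injective h1
        rw [h2] at h
        exact h hw
      · have h1 : σ (σ w) ≠ σ w := fun h => hw (σ.injective h)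
        rw [hτs w hw, hτs (σ w) h1]
    have hTτ : TE S F n {a : M × M | a.1 ∈ (univ : Set M) ∧ a.2 = τ a.1} := hτ.2.2
    have hT1 : TE S F n {a : M × M | τ a.1 ∈ D ∧ a.2 = σ (τ a.1)} :=
      hTτ.comp hTE fun a ha => ⟨τ a.1, ⟨mem_univ _, rfl⟩, ⟨ha.1, ha.2⟩⟩
    have hT2 : TE S F n {a : M × M | τ a.1 ∈ D ∧ a.2 = σ a.1} := by
      refine hT1.comp hTτ.symm fun a ha => ⟨σ (τ a.1), ⟨ha.1, rfl⟩, mem_univ _, ?_⟩
      show σ (τ a.1) = τ a.2
      rw [hcomm, ha.2]
    exact hT2 q (fun a ha => ⟨hτz a.1 ⟨a, ha, rfl⟩, (hq ha).2⟩) hqn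
  -- good sets
  have p2 : ∀ n B, Gs S F n D B → Gs S F n univ B := by
    rintro n B ⟨b, w, ⟨h1, h2, h3⟩, h4⟩
    refine ⟨b, w, ⟨fun i p => mem_univ _, h2, fun i j hij => ?_⟩, h4⟩
    have hdj : Dj (w i) (w j) := ⟨fun p q h => (h2 i p i q h).2, fun p q h => (h2 j p j q h).2,
      fun p q h => hij (h2 i p j q h).1⟩
    obtain ⟨σ, hσ⟩ := (hGRP L M S F n D).2.2.2.2.2.1 _ (w i) (w j) hdj
    have h5 := ((hGRP L M S F n D).2.2.2.2.2.2 _ (w i) (w j) σ hdj hσ (h1 i) (h1 j)).2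
      (h3 i j hij)
    exact ((hGRP L M S F n univ).2.2.2.2.2.2 _ (w i) (w j) σ hdj hσ (fun _ => mem_univ _)
      fun _ => mem_univ _).1 (p1 n σ h5)
  have p3 : ∀ n B, B ⊆ D → Gs S F n univ B → Gs S F n D B := by
    rintro n B hBD' ⟨b, w, ⟨-, h2, h3⟩, h4⟩
    have hdj : ∀ i j, i ≠ j → Dj (w i) (w j) := fun i j hij =>
      ⟨fun p q h => (h2 i p i q h).2, fun p q h => (h2 j p j q h).2,
        fun p q h => hij (h2 i p j q h).1⟩
    obtain ⟨v, hv1, hv2⟩ := hINF L M S F n D (Fin (b + 1)) (w 0) fun k => by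
      have hzf : (⋃ i ∈ Finset.range (k + 1), range (w i)).Finite :=
        Finite.biUnion (Finset.finite_toSet _) fun i _ => finite_range _
      have hBf : B.Finite := by
        rw [← h4]
        exact finite_range _
      obtain ⟨τ, hτ, hτs, hτz⟩ := hC n B hBf hBD' _ _ hzf rfl
      have hin : ∀ (i : Fin (k + 1)) p, τ (w i p) ∈ D := by
        intro i p
        refine hτz _ (mem_iUnion₂.2 ⟨(i : ℕ), Finset.mem_range.2 i.2, mem_range_self p⟩)
      refine ⟨fun i p => τ (w i p), ⟨hin, fun i p j q h => ?_, fun i j hij => ?_⟩, ?_⟩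
      · have h5 := h2 i p j q (τ.injective h)
        exact ⟨Fin.ext h5.1, h5.2⟩
      · have hij' : (i : ℕ) ≠ j := fun h => hij (Fin.ext h)
        have hsw : Sw S F n (univ \ ∅) (w i) (w j) := by
          rw [sdiff_empty]
          exact ⟨hdj i j hij', fun _ => mem_univ _, fun _ => mem_univ _, h3 i j hij'⟩
        have h5 := (hUTL L M S F n univ).1 (b + 1) (w i) (w j) ∅ τ hτ hsw
        rw [image_empty, sdiff_empty] at h5
        exact ((hUTL L M S F n univ).2.2.2.2 (Fin (b + 1)) D _ _ (subset_univ _) h5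
          fun p => ⟨hin i p, hin j p⟩).2.2.2
      · funext p
        exact hτs _ (h4 ▸ mem_range_self p)
    exact ⟨b, v, hv1, by rw [hv2, h4]⟩
  have p4 : ∀ n, ∀ x ∈ D, Gx S F n univ x → Bl S F n univ x ⊆ D := by
    intro n x hx hg
    by_cases hxA : x ∈ A
    · exact fun y hy => hAD (hLv.cl.bl n x y hxA hg hy)
    · exact (bsub n x).trans (hBD x hx hxA)
  have p5 : ∀ n, ∀ x ∈ D, Gx S F n univ x → Gs S F n D (Bl S F n univ x) := fun n x hx hg =>
    p3 n _ (p4 n x hx hg) ((hBLK L M S F n univ).2.1 x hg).1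
  have p6 : ∀ n, ∀ x ∈ D, Gx S F n univ x → Bl S F n D x = Bl S F n univ x := by
    intro n x hx hg
    refine Subset.antisymm (fun y hy => hy _ (p5 n x hx hg) (bself n x hg)) fun y hy B hB hxB =>
      hy B (p2 n B hB) hxB
  have p7 : ∀ n, ∀ x ∈ D, ∀ y ∈ D, Gx S F n univ x → Cj S F n univ x y →
      y ∉ Bl S F n univ x → Cj S F n D x y := by
    rintro n x hx y hy hg ⟨σ, hσ, rfl⟩ hnot
    obtain ⟨τ, h1, -, h2, h3⟩ := (hUTL L M S F n univ).2.2.1 x σ hg hσ hnot
    have hgy := ((hBLK L M S F n univ).2.2.2.2.1 σ x hσ hg).1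
    refine ⟨τ, (hGRP L M S F n univ).2.2.2.2.1 D τ (subset_univ _) (fun w hw => ?_) h1,
      h2 x (bself n x hg)⟩
    rcases h3 w hw with h | h
    · exact p4 n x hx hg h
    · exact p4 n _ hy hgy h
  refine ⟨p1, fun n x hx => ⟨?_, fun h => ⟨_, p5 n x hx h, bself n x h⟩⟩,
    fun n x hx h => ⟨p6 n x hx h, p4 n x hx h⟩, fun n x hx y hy hg => ⟨?_, fun hcj => ?_⟩⟩
  · rintro ⟨B, hB, hxB⟩
    exact ⟨B, p2 n B hB, hxB⟩
  · rintro ⟨σ, h1, h2⟩
    exact ⟨σ, p1 n σ h1, h2⟩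
  · by_cases hyx : y ∈ Bl S F n univ x
    · have hgD : Gx S F n D x := ⟨_, p5 n x hx hg, bself n x hg⟩
      obtain ⟨τ, h1, -, -, h2⟩ := (hUTL L M S F n D).2.1 x ∅ hgD finite_empty
      rw [p6 n x hx hg, empty_union] at h2
      have hτx : τ x ∉ Bl S F n univ x := fun h =>
        Set.disjoint_left.1 h2 (mem_image_of_mem τ (bself n x hg)) h
      have hτD : τ x ∈ D := by
        by_contra h
        have h3 : τ (τ x) = τ x := by
          by_contra h4
          exact h (h1.2.1 _ h4)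
        have h4 := τ.injective h3
        rw [h4] at h
        exact h hx
      have hxz : Cj S F n D x (τ x) := ⟨τ, h1, rfl⟩
      have hxz' : Cj S F n univ x (τ x) := ⟨τ, p1 n τ h1, rfl⟩
      obtain ⟨hgy, hby⟩ := (hBLK L M S F n univ).2.2.1 x y hg hyx
      have hyz : Cj S F n D y (τ x) := by
        refine p7 n y hy (τ x) hτD hgy (cjt n univ _ _ _ (cjs n univ _ _ hcj) hxz') ?_
        rw [hby]
        exact hτx
      exact cjt n D _ _ _ hxz (cjs n D _ _ hyz)
    · exact p7 n x hx y hy hg hcj hyx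

end HEI
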