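import Pool.Agent.HEI.StI

/-!
# HEI: no bad sets, no boundary blocks (helper94)
-/

set_option autoImplicit false
set_option linter.unusedVariables false

namespace HEI

open Set Pool.Agent.Helper5.DU Pool.Agent.Helper6.Str Pool.Agent.Helper79.VC
  Pool.Agent.Helper97.LO Pool.Agent.Helper97.VC HER HERN

theorem thm_EMP (hD : St_DDM) (hP : St_GPD) : St_EMP := by
  intro L M S F T g0 g Ω hF hG hN E hE hEX h hh b hb
  obtain ⟨-, -, -, -, -, -, -, -, hD9⟩ := hD L M S F T g0 hF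
  have hUn : Un T Ω := hG.1.2.2.2.1
  obtain ⟨ZZ, hZZ⟩ : ∃ ZZ : Set (Set M), ZZ = {z | z ∈ T.Bk ∧ ¬ z ⊆ Ω ∧ ¬ Disjoint z E} := ⟨_, rfl⟩
  have hZf : ZZ.Finite := (hD9 E hE).subset (by
    rw [hZZ]
    exact fun z hz => ⟨hz.1, hz.2.2⟩)
  have hZb : ∀ z ∈ ZZ, z ∈ T.Bk ∧ ¬ z ⊆ Ω := by
    intro z hz
    rw [hZZ] at hz
    exact ⟨hz.1, hz.2.1⟩
  obtain ⟨E', hE'⟩ : ∃ E' : Set M, E' = (E ∩ Ω) ∪ ⋃₀ ZZ := ⟨_, rfl⟩
  have hsub : E ⊆ E' := by
    intro x hx
    rw [hE']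
    by_cases hxΩ : x ∈ Ω
    · exact Or.inl ⟨hx, hxΩ⟩
    · right
      rcases hEX hx with h1 | ⟨c, hc, hxc⟩
      · exact absurd (hUn.1 h1) hxΩ
      · refine ⟨c, ?_, hxc⟩
        rw [hZZ]
        exact ⟨hc, fun h1 => hxΩ (h1 hxc), fun h1 => disjoint_left.1 h1 hxc hx⟩
  have hE'f : E'.Finite := by
    rw [hE']
    exact (hE.subset inter_subset_left).union
      (hZf.sUnion fun c hc => (hF.fin c (hZb c hc).1).1)
  have hfr : ∀ c, Fr T Ω E c → Fr T Ω E' c := by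
    intro c hc
    refine ⟨hc.1, hc.2.1, ?_⟩
    rw [hE', disjoint_union_right, disjoint_sUnion_right]
    refine ⟨hc.2.2.mono_right inter_subset_left, fun d hd => ?_⟩
    by_contra hcd
    rw [not_disjoint_iff_nonempty_inter] at hcd
    have h2 := hF.dis c hc.1 d (hZb d hd).1 hcd
    rw [hZZ] at hd
    apply hd.2.2
    rw [← h2]
    exact hc.2.2
  have heb : ∀ c, Eb S F T Ω h E' b c → Eb S F T Ω h E b c := by
    rintro c ⟨k, w, w', hw, hw', hwb, hwc, hEe⟩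
    refine ⟨k, w, w', hw, hw', hwb, hwc, ?_⟩
    haveI : Finite E' := hE'f.to_subtype
    haveI : Finite E := hE.to_subtype
    obtain ⟨-, -, h3, -⟩ := hP L M S F T g0 g Ω hF hG (E' ⊕ Fin k)
    have h4 := h3 h (E ⊕ Fin k) (Sum.map (inclusion hsub) id) (tp E' w) (tp E' w') hEe
    have h5 : ∀ u : Fin k → M, (fun i => tp E' u (Sum.map (inclusion hsub) id i)) = tp E u := by
      intro u
      funext i
      rcases i with i | i
      · rfl
      · rfl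
    rw [h5, h5] at h4
    exact h4
  have hbx : Bx S F T Ω h E' b := by
    refine ⟨hfr b hb.1, ?_⟩
    rintro ⟨-, n, hn⟩
    exact hb.2 ⟨hb.1, n, fun b' hb' hf => heb b' (hn b' hb' (hfr b' hf))⟩
  have hbZ : b ∉ ZZ := by
    rw [hZZ]
    exact fun h1 => h1.2.2 hb.1.2.2
  apply hN (E ∩ Ω) (hE.subset inter_subset_left) inter_subset_right (insert b ZZ)
  refine ⟨hZf.insert b, ?_, b, mem_insert _ _, h, hh, ?_⟩
  · rintro z (hz | hz)
    · rw [hz]
      exact ⟨hb.1.1, hb.1.2.1⟩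
    · exact hZb z hz
  · rw [insert_diff_self_of_notMem hbZ, ← hE']
    exact hbx

end HEI
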