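import Pool.Agent.HEI.StH

/-!
# HEI [EXG]: the exchange property (helper2)
-/

set_option autoImplicit false
set_option linter.unusedVariables false

namespace HEI

open Set Pool.Agent.Helper5.DU Pool.Agent.Helper6.Str Pool.Agent.Helper79.VC
  Pool.Agent.Helper97.LO Pool.Agent.Helper97.VC HER HERN

/-- the relation of the exchange property is visible -/
private theorem EXG_vr (hIMG : St_IMG) (hTRN : St_TRN) {L : FirstOrder.Language.{0, 0}}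
    {M : Type} {S : L.Structure M} {F : Set M} {T : Dt M} {g0 g : Ordinal.{0}} {Ω E : Set M}
    (hFS : FS S F T g0) (hF3 : F3 T) (hGp : Gp S F T g0 g Ω) (hE : E.Finite) :
    Vr S F T Ω (g + 1) E (fun b u => Bx S F T Ω g (E ∪ u) b) := by
  intro D D' p hD hD' hPs hgE b u hb hu hFb hFu
  obtain ⟨-, -, im3, im4, -, -, -, im8⟩ := hIMG L M S F
  have hat : AtEq S S p := hPs.2.2.2.atEq
  by_cases hbu : b = u
  · subst hbu
    constructor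
    · intro h
      exfalso
      obtain ⟨x, hx⟩ := (hFS.fin b hFb.1).2.1
      exact disjoint_left.mp h.1.2.2 hx (Or.inr hx)
    · intro h
      exfalso
      obtain ⟨x, hx⟩ := (hFS.fin b hFb.1).2.1
      obtain ⟨y, hy⟩ := hb x hx
      have hy' : y ∈ Im p b := ⟨x, hx, hy⟩
      exact disjoint_left.mp h.1.2.2 hy' (Or.inr hy')
  · have hdisj : Disjoint b u := by
      rw [Set.disjoint_iff_inter_eq_empty, ← Set.not_nonempty_iff_eq_empty]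
      intro hne
      exact hbu (hFS.dis b hFb.1 u hFu.1 hne)
    have hFr : Fr T Ω (E ∪ u) b :=
      ⟨hFb.1, hFb.2.1, disjoint_union_right.mpr ⟨hFb.2.2, hdisj⟩⟩
    obtain ⟨kE, e, he, heE⟩ := hE.fin_param
    obtain ⟨ku, wu, hwu, hwu'⟩ := (hFS.fin u hFu.1).1.fin_param
    obtain ⟨kb, wb, hwb, hwb'⟩ := (hFS.fin b hFb.1).1.fin_param
    obtain ⟨wu', h1, h2, -⟩ := im4 p ku wu hat (by rw [hwu']; exact hu)
    obtain ⟨wb', h3, h4, -⟩ := im4 p kb wb hat (by rw [hwb']; exact hb)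
    have hEe : Ee S F T Ω (g + 1) (Sum.elim (Sum.elim e wu) wb)
        (Sum.elim (Sum.elim e wu') wb') := by
      refine Relation.TransGen.single ⟨D, D', hD, hD',
        im8 (g + 1) (g + 1) D D' p _ le_rfl hPs ?_ subset_union_left⟩
      refine union_subset hPs.2.1 ?_
      rintro _ ⟨i, rfl⟩
      rcases i with (i | i) | i
      · exact hgE ⟨e i, heE ▸ mem_range_self i, rfl⟩
      · exact h1 i
      · exact h3 i
    have hr1 : range (Sum.elim e wu) = E ∪ u := by rw [Sum.elim_range, heE, hwu']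
    have hr2 : range (Sum.elim e wu') = E ∪ Im p u := by rw [Sum.elim_range, heE, h2, hwu']
    have h5 := hTRN L M S F T g0 g Ω hFS hF3 hGp (Fin kE ⊕ Fin ku) (Sum.elim e wu)
      (Sum.elim e wu') kb wb wb' hEe (by rw [hr1, hwb']; exact hFr)
    rw [hr1, hr2, hwb', h4, hwb'] at h5
    exact h5.2.2

/-- [EXG] -/
theorem thm_EXG (hIMG : St_IMG) (hDDM : St_DDM) (hVCU : St_VCU) (hEQB : St_EQB)
    (hBXY : St_BXY) (hTRN : St_TRN) (hCOL : St_COL) (hCLC : St_CLC) (hEXQ : St_EXQ) :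
    St_EXG := by
  intro L M S F T g0 g Ω E b v hFS hF3 hGp hE hET hFb hFv hbv hnb hbz
  by_contra hnv
  have hgl : g < om1 := hGp.1.2.1
  have hperf := hGp.2
  obtain ⟨-, -, -, -, -, -, -, -, dd9⟩ := hDDM L M S F T g0 hFS
  have hblk : ∀ u ∈ T.Bk, u.Finite ∧ u ⊆ T.X := fun u hu =>
    ⟨(hFS.fin u hu).1, fun x hx => Or.inr ⟨u, hu, hx⟩⟩
  have hEu : ∀ u ∈ T.Bk, (E ∪ u).Finite ∧ E ∪ u ⊆ T.X := fun u hu =>
    ⟨hE.union (hblk u hu).1, union_subset hET (hblk u hu).2⟩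
  obtain ⟨h, hh, hBx⟩ := hbz
  have hadd : ∀ (a : Ordinal.{0}) (n : ℕ), a < om1 → a + n < om1 := fun a n ha =>
    add_lt_om1 ha (natCast_lt_om1 n)
  -- the level
  obtain ⟨g1, hg1, hgg1, hBx1⟩ : ∃ g1 < om1, g ≤ g1 ∧ Bx S F T Ω g1 (E ∪ v) b := by
    refine ⟨max g h, max_lt hgl hh, le_max_left _ _, ?_⟩
    obtain ⟨-, -, -, -, -, eq6, -⟩ :=
      hEQB L M S F T g0 g Ω (E ∪ v) hFS hGp (hEu v hFv.1).1 (hEu v hFv.1).2
    exact (eq6 h (max g h) b (le_max_right _ _)).2 hBx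
  have hGp1 : Gp S F T g0 g1 Ω :=
    ⟨(hVCU L M S F T g0 hFS).1 g g1 Ω hgg1 hg1 hGp.1, hGp.2⟩
  have h7 : g1 + 7 < om1 := by exact_mod_cast hadd g1 7 hg1
  have h5 : g1 + 5 < om1 := by exact_mod_cast hadd g1 5 hg1
  have hInb : In S F T Ω (g1 + 7) E b := by
    by_contra hn
    exact hnb ⟨g1 + 7, h7, hFb, hn⟩
  have hdvb : Disjoint v b := by
    rw [Set.disjoint_iff_inter_eq_empty, ← Set.not_nonempty_iff_eq_empty]
    intro hne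
    exact hbv (hFS.dis v hFv.1 b hFb.1 hne).symm
  have hFv' : Fr T Ω (E ∪ b) v := ⟨hFv.1, hFv.2.1, disjoint_union_right.mpr ⟨hFv.2.2, hdvb⟩⟩
  have hInv : In S F T Ω (g1 + 5) (E ∪ b) v := by
    by_contra hn
    exact hnv ⟨g1 + 5, h5, hFv', hn⟩
  obtain ⟨n, m, c, hc⟩ := hEXQ L M S F T g0 g1 Ω E b v hFS hF3 hGp1 hE hET hFb hFv hbv hInb
    hInv hBx1
  -- colours
  obtain ⟨kv, hkv⟩ : ∃ k : ℕ, v.encard = k := ⟨v.ncard, ((hblk v hFv.1).1.cast_ncard_eq).symm⟩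
  obtain ⟨Rr, hRf, hRr⟩ := hFS.vf n kv
  have : Finite Rr := hRf.to_subtype
  classical
  let col : Set M → Option Rr := fun b' =>
    if hx : ∃ r ∈ Rr, T.V n r (c b') then some ⟨hx.choose, hx.choose_spec.1⟩ else none
  have hcol : ∀ b', T.V m b b' → Fr T Ω E b' → ∃ r : Rr, col b' = some r ∧ T.V n r (c b') := by
    intro b' hb' hFb'
    obtain ⟨hc1, hc2, hc3, -⟩ := hc b' hb' hFb'
    have hx : ∃ r ∈ Rr, T.V n r (c b') := hRr (c b') hc1 (hc3.trans hkv)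
    refine ⟨⟨hx.choose, hx.choose_spec.1⟩, ?_, hx.choose_spec.2⟩
    simp only [col]
    rw [dif_pos hx]
  obtain ⟨κ, b1, k, hmk, hmb1, hb1Ω, hdense⟩ := hCOL L M S F T g0 g1 Ω E b m (Option Rr) col hFS
    hGp1 hE hFb.1 hFb.2.1
  have hb1B : b1 ∈ T.Bk := (hFS.vm _ _ _ hmb1).2.1
  have hVm : ∀ b', T.V k b1 b' → T.V m b b' := fun b' hb' =>
    hFS.vt m b b1 b' hmb1 (hFS.vd m k b1 b' hmk hb')
  -- two elements of the first class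
  have hinf1 := hdense b1 (hFS.vr k b1 hb1B) hb1Ω k
  obtain ⟨b2, hb2⟩ := hinf1.nonempty
  obtain ⟨b2', hb2', hne2⟩ : ∃ b2', b2' ∈ {b' | T.V k b1 b' ∧ Fr T Ω E b' ∧ col b' = κ} ∧
      b2' ≠ b2 := by
    obtain ⟨y, hy⟩ := (hinf1.sdiff (Set.finite_singleton b2)).nonempty
    exact ⟨y, hy.1, hy.2⟩
  obtain ⟨r0, hr0, -⟩ := hcol b2 (hVm b2 hb2.1) hb2.2.1
  have hκ : κ = some r0 := hb2.2.2.symm.trans hr0
  set v1 := c b2 with hv1
  obtain ⟨hv1B, hv1Ω, -, -⟩ := hc b2 (hVm b2 hb2.1) hb2.2.1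
  have hVv1 : ∀ b', T.V k b1 b' → Fr T Ω E b' → col b' = κ → T.V n v1 (c b') := by
    intro b' h1 h2 h3
    obtain ⟨r, hr, hr'⟩ := hcol b' (hVm b' h1) h2
    obtain ⟨r2, hr2, hr2'⟩ := hcol b2 (hVm b2 hb2.1) hb2.2.1
    have e1 : r = r2 := Option.some.inj (hr.symm.trans (h3.trans (hb2.2.2.symm.trans hr2)))
    rw [e1] at hr'
    exact hFS.vt n _ _ _ (hFS.vs n _ _ hr2') hr'
  have hfin1 : ∀ b', T.V k b1 b' → Fr T Ω E b' → col b' = κ →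
      {u | T.V n v1 u ∧ Fr T Ω E u ∧ ¬ Bx S F T Ω g1 (E ∪ u) b'}.Finite := by
    intro b' h1 h2 h3
    refine (hc b' (hVm b' h1) h2).2.2.2.subset ?_
    rintro u ⟨hu1, hu2, hu3⟩
    exact ⟨hFS.vt n _ _ _ (hFS.vs n _ _ (hVv1 b' h1 h2 h3)) hu1, hu2, hu3⟩
  -- free blocks of a class
  have hfree : ∀ w ∈ T.Bk, ¬ w ⊆ Ω → ∀ j, {u | T.V j w u ∧ Fr T Ω E u}.Infinite := by
    intro w hw hwΩ j
    refine ((hperf w hw hwΩ j).sdiff (dd9 E hE)).mono ?_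
    rintro u ⟨⟨hu1, hu2⟩, hu3⟩
    refine ⟨hu1, (hFS.vm _ _ _ hu1).2.1, hu2, ?_⟩
    by_contra hd
    exact hu3 ⟨(hFS.vm _ _ _ hu1).2.1, hd⟩
  obtain ⟨v3, hv3, hFv3⟩ := (hfree v1 hv1B hv1Ω n).nonempty
  -- separation of the classes
  obtain ⟨b3, hb3, hb3Ω, j, hj⟩ : ∃ b3, T.V k b1 b3 ∧ ¬ b3 ⊆ Ω ∧ ∃ j, ¬ T.V j b3 v3 := by
    by_contra hcon
    push Not at hcon
    have hnTh : ¬ Th T b2 := by
      intro hTh
      refine hne2 (hTh b2' fun j => ?_)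
      exact hFS.vt j _ _ _ (hcon b2 hb2.1 hb2.2.1.2.1 j)
        (hFS.vs j _ _ (hcon b2' hb2'.1 hb2'.2.1.2.1 j))
    have hIs : Is T b2 := (hF3 b2 hb2.2.1.1).resolve_left hnTh
    obtain ⟨u, ⟨hu1, hu2⟩, hu3⟩ :=
      ((hfree v1 hv1B hv1Ω n).sdiff (hfin1 b2 hb2.1 hb2.2.1 hb2.2.2)).nonempty
    have hBxu : Bx S F T Ω g1 (E ∪ u) b2 := by
      by_contra hn
      exact hu3 ⟨hu1, hu2, hn⟩
    obtain ⟨-, -, -, -, -, -, -, eq8, -⟩ := hEQB L M S F T g0 g1 Ω (E ∪ u) hFS hGp1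
      (hEu u hu2.1).1 (hEu u hu2.1).2
    exact hBxu.2 (eq8 b2 hIs hBxu.1)
  have hb3B : b3 ∈ T.Bk := (hFS.vm _ _ _ hb3).2.1
  refine hCLC L M S F T g0 g1 (g1 + 1) Ω E (fun b' u => Bx S F T Ω g1 (E ∪ u) b') b3 v3
    (max j k) (max j n) {b' | T.V (max j k) b3 b' ∧ Fr T Ω E b' ∧ col b' = κ} hFS hGp1
    (add_one_lt_om1 hg1) hE hET hb3B hFv3.1 hb3Ω hFv3.2.1 ?_ ?_ ?_ ?_ ?_
    (EXG_vr hIMG hTRN hFS hF3 hGp1 hE)
  · intro x h1 h2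
    refine hj (hFS.vt j _ _ _ (hFS.vd j _ _ _ (le_max_left _ _) h1)
      (hFS.vs j _ _ (hFS.vd j _ _ _ (le_max_left _ _) h2)))
  · rintro b' ⟨h1, h2, -⟩
    exact ⟨h1, h2⟩
  · intro b' h1 h2 m'
    have h3 : T.V k b1 b' := hFS.vt k _ _ _ hb3 (hFS.vd k _ _ _ (le_max_right _ _) h1)
    refine (hdense b' h3 h2 (max m' (max j k))).mono ?_
    rintro b'' ⟨h4, h5, h6⟩
    exact ⟨⟨hFS.vt _ _ _ _ h1 (hFS.vd _ _ _ _ (le_max_right _ _) h4), h5, h6⟩,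
      hFS.vd _ _ _ _ (le_max_left _ _) h4⟩
  · rintro b' ⟨h1, h2, h3⟩
    refine (hfin1 b' (hFS.vt k _ _ _ hb3 (hFS.vd k _ _ _ (le_max_right _ _) h1)) h2 h3).subset ?_
    rintro u ⟨hu1, hu2, hu3⟩
    exact ⟨hFS.vt n _ _ _ hv3 (hFS.vd n _ _ _ (le_max_right _ _) hu1), hu2, hu3⟩
  · intro u hu1 hu2
    refine (hBXY L M S F T g0 g1 Ω (E ∪ u) hFS hF3 hGp1 (hEu u hu2.1).1
      (hEu u hu2.1).2).2.subset ?_
    rintro b' ⟨-, -, h3⟩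
    exact h3

end HEI
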