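import Pool.Agent.HEI.StG

/-!
# HEI [EXP]: extension by elements of Ω and of blocks which are met (helper34)
-/

set_option autoImplicit false
set_option linter.unusedVariables false

namespace HEI

open Set Pool.Agent.Helper5.DU Pool.Agent.Helper6.Str Pool.Agent.Helper79.VC
  Pool.Agent.Helper97.LO Pool.Agent.Helper97.VC HER HERN

/-- one step -/
theorem EXP_step (hIMG : St_IMG) (hDDM : St_DDM) {L : FirstOrder.Language.{0, 0}} {M : Type}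
    {S : L.Structure M} {F : Set M} {T : Dt M} {g0 g : Ordinal.{0}} {Ω : Set M}
    (hFS : FS S F T g0) (hGp : Gp S F T g0 g Ω) {β : Type} {x x' : β → M} {k : ℕ}
    {u : Fin k → M} (h : Pp S F T Ω (g + 1) x x')
    (hu : ∀ j, u j ∈ Ω ∨ ∃ b ∈ T.Bk, u j ∈ b ∧ ∃ i, x i ∈ b) :
    ∃ u' : Fin k → M, (∀ j, u' j ∈ Ω ∨ ∃ b ∈ T.Bk, u' j ∈ b ∧ ∃ i, x' i ∈ b) ∧
      Pp S F T Ω g (Sum.elim x u) (Sum.elim x' u') := by
  obtain ⟨D, D', hD, hD', hp⟩ := h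
  obtain ⟨-, -, -, -, -, i6, -, i8⟩ := hIMG L M S F
  obtain ⟨-, -, d3, -⟩ := hDDM L M S F T g0 hFS
  have hUΩ : Un T Ω := hGp.1.2.2.2.1
  -- the finite sets
  have hch : ∀ j, ∃ b : Set M, b.Finite ∧ b ⊆ D ∧ u j ∈ b ∧
      (u j ∈ Ω ∨ (b ∈ T.Bk ∧ ∃ i, x i ∈ b)) := by
    intro j
    rcases hu j with h | ⟨b, hb, hub, i, hi⟩
    · exact ⟨{u j}, finite_singleton _, singleton_subset_iff.2 (hD.2.2.1 h), rfl, Or.inl h⟩
    · refine ⟨b, (hFS.fin b hb).1, ?_, hub, Or.inr ⟨hb, i, hi⟩⟩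
      have hxD : x i ∈ D := (hp.2.2.1 (x i, x' i) (Or.inr (mem_prs i))).1
      exact hD.2.1.2.2 b hb ⟨x i, hi, hxD⟩
  choose b hbf hbD hub hb using hch
  obtain ⟨p', hpp, hp', hDm⟩ := (i6 g D D' _ (⋃ j, b j) hp (finite_iUnion hbf)).1
    (iUnion_subset hbD)
  have hDmj : ∀ j, Dm p' (b j) := fun j y hy => hDm y (mem_iUnion.2 ⟨j, hy⟩)
  choose u' hu' using fun j => hDmj j (u j) (hub j)
  refine ⟨u', ?_, D, D', hD, hD', ?_⟩
  · intro j
    rcases hb j with h | ⟨hbB, i, hi⟩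
    · left
      exact (hGp.1.2.2.2.2 D D' p' hD hD' hp' (u j, u' j) (hu' j)).1 h
    · right
      refine ⟨Im p' (b j), ?_, ⟨u j, hub j, hu' j⟩, i, ⟨x i, hi, hpp (Or.inr (mem_prs i))⟩⟩
      refine (hFS.vb D D' p' (d3 Ω D hUΩ hD) (d3 Ω D' hUΩ hD') ?_ (b j) (hDmj j)).1 hbB
      exact i8 g g0 D D' p' p' hGp.1.1 hp' Subset.rfl hp'.2.1
  · refine i8 g g D D' p' _ le_rfl hp' ?_ subset_union_left
    rintro a (ha | ⟨i, rfl⟩)
    · exact hp'.2.1 ha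
    · rcases i with i | j
      · exact hpp (Or.inr (mem_prs i))
      · exact hu' j

/-- [EXP] -/
theorem thm_EXP (hIMG : St_IMG) (hDDM : St_DDM) : St_EXP := by
  intro L M S F T g0 g Ω hFS hGp β _ x x' k u h hu
  induction h with
  | single h =>
    obtain ⟨u', h1, h2⟩ := EXP_step hIMG hDDM hFS hGp h hu
    exact ⟨u', h1, Relation.TransGen.single h2⟩
  | tail _ h ih =>
    obtain ⟨u1, h1, h2⟩ := ih
    obtain ⟨u', h3, h4⟩ := EXP_step hIMG hDDM hFS hGp h h1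
    exact ⟨u', h3, Relation.TransGen.tail h2 h4⟩

end HEI
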