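import Pool.Agent.HEI.StG

/-!
# HEI [EXT]: extension by interior blocks
-/

set_option autoImplicit false

namespace HEI

open Set Pool.Agent.Helper5.DU Pool.Agent.Helper6.Str Pool.Agent.Helper79.VC
  Pool.Agent.Helper97.LO Pool.Agent.Helper97.VC HER HERN

variable {L : FirstOrder.Language.{0, 0}} {M : Type}

/-- two labellings of the same set -/
theorem EXT_label {k k1 : ℕ} (w : Fin k → M) (w1 : Fin k1 → M) (hw : Function.Injective w)
    (hw1 : Function.Injective w1) (h : range w1 = range w) :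
    ∃ e : Fin k → Fin k1, (∀ i, w1 (e i) = w i) ∧ Function.Injective e ∧
      Function.Surjective e := by
  have h1 : ∀ i, ∃ j, w1 j = w i := fun i => by
    have h2 : w i ∈ range w1 := by
      rw [h]
      exact mem_range_self i
    exact h2
  choose e he using h1
  refine ⟨e, he, fun i j hij => ?_, fun j => ?_⟩
  · apply hw
    rw [← he i, ← he j, hij]
  · have h2 : w1 j ∈ range w := by
      rw [← h]
      exact mem_range_self j
    obtain ⟨i, hi⟩ := h2
    refine ⟨i, hw1 ?_⟩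
    rw [he, hi]

/-- one step -/
theorem EXT_step (hI : St_IMG) (hD : St_DDM) (hP : St_GPD) (hQ : St_EQB) (hT : St_TRN)
    (S : L.Structure M) (F : Set M) (T : Dt M) (g0 g : Ordinal.{0}) (Ω : Set M)
    (hFS : FS S F T g0) (hF3 : F3 T) (hG : Gp S F T g0 g Ω) {β : Type} [Finite β]
    (x x' : β → M) (k : ℕ) (w : Fin k → M) (h : Pp S F T Ω (g + 2) x x')
    (hw : Function.Injective w) (hin : In S F T Ω g (range x) (range w)) :
    ∃ w' : Fin k → M, Function.Injective w' ∧ In S F T Ω g (range x') (range w') ∧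
      Ee S F T Ω g (Sum.elim x w) (Sum.elim x' w') := by
  obtain ⟨D, D', hDD, hDD', hPs⟩ := h
  obtain ⟨-, -, -, -, -, -, d7, -, d9⟩ := hD L M S F T g0 hFS
  obtain ⟨-, -, -, i4, -, i6, -, i8⟩ := hI L M S F
  have hE : (range x).Finite := finite_range x
  have hxD : ∀ i, x i ∈ D ∧ x' i ∈ D' := fun i => hPs.2.2.1 (x i, x' i) (Or.inr ⟨i, rfl⟩)
  have hEX : range x ⊆ T.X := by
    rintro _ ⟨i, rfl⟩
    exact hDD.2.1.2.1 (hxD i).1
  obtain ⟨-, -, -, -, -, -, -, -, q9, -, -, q12⟩ := hQ L M S F T g0 g Ω (range x) hFS hG hE hEX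
  obtain ⟨n, hn⟩ := q9 _ hin
  have hinf := d7 Ω D hG.2 hDD (range w) hin.1.1 hin.1.2.1 n
  obtain ⟨d, ⟨hd1, hd2, hd3⟩, hd4⟩ : ∃ d, (T.V n (range w) d ∧ ¬ d ⊆ Ω ∧ d ⊆ D) ∧
      Disjoint d (range x) := by
    by_contra hcon
    push Not at hcon
    refine hinf ((d9 (range x) hE).subset ?_)
    rintro d ⟨h1, h2, h3⟩
    exact ⟨(hFS.vm _ _ _ h1).2.1, hcon d ⟨h1, h2, h3⟩⟩
  have hFr : Fr T Ω (range x) d := ⟨(hFS.vm _ _ _ hd1).2.1, hd2, hd4⟩
  obtain ⟨hInd, hEb⟩ := hn d hd1 hFr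
  obtain ⟨k1, w1, v1, hw1, hv1, hrw1, hrv1, hee⟩ := (q12 β x g (range w) d rfl).1 hEb
  obtain ⟨e, he, he1, he2⟩ := EXT_label w w1 hw hw1 hrw1
  obtain ⟨v, hv⟩ : ∃ v : Fin k → M, v = fun i => v1 (e i) := ⟨_, rfl⟩
  have hvinj : Function.Injective v := by
    rw [hv]
    exact hv1.comp he1
  have hvr : range v = d := by
    rw [hv, ← hrv1]
    exact he2.range_comp v1
  have hee1 : Ee S F T Ω g (Sum.elim x w) (Sum.elim x v) := by
    have h1 := (hP L M S F T g0 g Ω hFS hG (β ⊕ Fin k1)).2.2.1 g (β ⊕ Fin k) (Sum.map id e)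
      _ _ hee
    have h2 : (fun i => Sum.elim x w1 (Sum.map id e i)) = Sum.elim x w := by
      funext i
      rcases i with i | i
      · rfl
      · exact he i
    have h3 : (fun i => Sum.elim x v1 (Sum.map id e i)) = Sum.elim x v := by
      funext i
      rcases i with i | i
      · rfl
      · rw [hv]
        rfl
    rw [h2, h3] at h1
    exact h1
  have hg2 : g + 2 = g + 1 + 1 := by
    rw [add_assoc, one_add_one_eq_two]
  rw [hg2] at hPs
  obtain ⟨p', hpp', hPs', hDm⟩ := (i6 (g + 1) D D' _ d hPs (hFS.fin d hFr.1).1).1 hd3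
  have hat : AtEq S S p' := hPs'.2.2.2.atEq
  rw [← hvr] at hDm
  obtain ⟨w', hw'1, -, hw'3⟩ := i4 p' k v hat hDm
  have hPp : Pp S F T Ω (g + 1) (Sum.elim x v) (Sum.elim x' w') := by
    refine ⟨D, D', hDD, hDD', i8 (g + 1) (g + 1) D D' p' _ le_rfl hPs' ?_ subset_union_left⟩
    rintro a (ha | ⟨i, rfl⟩)
    · exact hpp' (Or.inl ha)
    · rcases i with i | i
      · exact hpp' (Or.inr ⟨i, rfl⟩)
      · exact hw'1 i
  have hE1 : Ee S F T Ω (g + 1) (Sum.elim x v) (Sum.elim x' w') := Relation.TransGen.single hPp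
  have hFrv : Fr T Ω (range x) (range v) := by
    rw [hvr]
    exact hFr
  obtain ⟨-, hIn, -⟩ := hT L M S F T g0 g Ω hFS hF3 hG β x x' k v w' hE1 hFrv
  refine ⟨w', hw'3 hvinj, hIn.1 ?_, hee1.trans ?_⟩
  · rw [hvr]
    exact hInd
  · exact (hP L M S F T g0 g Ω hFS hG (β ⊕ Fin k)).2.2.2.1 g (g + 1) Ω _ _
      (le_add_of_nonneg_right bot_le) hG.1.2.2.2.1 Subset.rfl hE1

theorem thm_EXT (hI : St_IMG) (hD : St_DDM) (hP : St_GPD) (hQ : St_EQB) (hT : St_TRN) :
    St_EXT := by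
  intro L M S F T g0 g Ω hFS hF3 hG β _ x x' k w hE hw hin
  have key : ∀ y, Relation.TransGen (fun y y' : β → M => Pp S F T Ω (g + 2) y y') x y →
      ∃ w' : Fin k → M, Function.Injective w' ∧ In S F T Ω g (range y) (range w') ∧
        Ee S F T Ω g (Sum.elim x w) (Sum.elim y w') := by
    intro y hy
    induction hy with
    | single h => exact EXT_step hI hD hP hQ hT S F T g0 g Ω hFS hF3 hG x _ k w h hw hin
    | tail h1 h2 ih =>
      obtain ⟨w', hw', hin', hee⟩ := ih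
      obtain ⟨w'', hw'', hin'', hee'⟩ :=
        EXT_step hI hD hP hQ hT S F T g0 g Ω hFS hF3 hG _ _ k w' h2 hw' hin'
      exact ⟨w'', hw'', hin'', hee.trans hee'⟩
  exact key x' hE

end HEI
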