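import Pool.Agent.HEI.StE
import Pool.Agent.HEI.ORB

/-!
# HEI [FCL]: finitely many classes of blocks of given size (helper9)
-/

set_option autoImplicit false
set_option linter.unusedVariables false

namespace HEI

open Set Pool.Agent.Helper5.DU Pool.Agent.Helper6.Str Pool.Agent.Helper79.VC
  Pool.Agent.Helper97.LO Pool.Agent.Helper97.VC HER HERN

section

variable {L : FirstOrder.Language.{0, 0}} {M : Type} {S : L.Structure M} {F : Set M} {n : ℕ}

/-- infinitely many rows without conjugate members are impossible -/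
theorem FCL_rows (hG : St_GRP) (hF : F.Finite) (hR : RowsP S F) (hn : 1 ≤ n) (c : ℕ)
    (w : ℕ → ℕ → Fin (c + 1) → M) (hw1 : ∀ i, Ro S F n univ (w i))
    (hne : ∀ i j, i ≠ j → ∀ k l, ¬ ORB_C S F n (w i k) (w j l)) : False := by
  classical
  -- choice of disjoint members
  obtain ⟨v, hv1, hv2⟩ := ORB_choose (fun t => range (w (Nat.unpair t).1)) (by
    intro t E hE
    obtain ⟨i, hi⟩ := ORB_avoid (hw1 (Nat.unpair t).1) E hE
    exact ⟨_, ⟨i, rfl⟩, hi⟩)
  choose e he using hv1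
  have hv3 : ∀ s t, s ≠ t → Disjoint (range (v s)) (range (v t)) := by
    intro s t hst
    rcases lt_or_gt_of_ne hst with h | h
    · exact (hv2 s t h).symm
    · exact hv2 t s h
  obtain ⟨W, hW⟩ : ∃ W : ℕ → ℕ → Fin (c + 1) → M, W = fun i k => v (Nat.pair i k) := ⟨_, rfl⟩
  obtain ⟨ee, hee⟩ : ∃ ee : ℕ → ℕ → ℕ, ee = fun i k => e (Nat.pair i k) := ⟨_, rfl⟩
  have hWe : ∀ i k, W i k = w i (ee i k) := by
    intro i k
    rw [hW, hee]
    have := he (Nat.pair i k)
    simp only [Nat.unpair_pair] at this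
    exact this.symm
  have hWd : ∀ i k j l, (i, k) ≠ (j, l) → Disjoint (range (W i k)) (range (W j l)) := by
    intro i k j l h
    rw [hW]
    refine hv3 _ _ fun h2 => h ?_
    have h3 := congrArg Nat.unpair h2
    simpa using h3
  have hWinj : ∀ i k, Function.Injective (W i k) := by
    intro i k p q hpq
    rw [hWe] at hpq
    exact ((hw1 i).2.1 _ p _ q hpq).2
  have hWdj : ∀ i k j l, (i, k) ≠ (j, l) → Dj (W i k) (W j l) := by
    intro i k j l h
    refine ⟨hWinj i k, hWinj j l, fun p q hpq => ?_⟩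
    exact (disjoint_left.1 (hWd i k j l h)) ⟨p, rfl⟩ ⟨q, hpq.symm⟩
  -- witnesses
  have hwit : ∀ i k j l, i ≠ j → ∃ q ⊆ SW univ (W i k) (W j l), q.encard ≤ n ∧
      ¬ AtEq S S (dg F ∪ q) := by
    intro i k j l hij
    by_contra h2
    push Not at h2
    have h3 : TE S F n (SW univ (W i k) (W j l)) := fun q hq hqn => h2 q hq hqn
    have h4 := ORB_C_of_TE hG (hWdj i k j l (fun h => hij (congrArg Prod.fst h))) h3
    rw [hWe, hWe] at h4
    exact hne i j hij _ _ h4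
  have hwit' : ∀ i k j l, ∃ q : Set (M × M), q.Countable ∧ (i ≠ j →
      q ⊆ SW univ (W i k) (W j l) ∧ q.encard ≤ n ∧ ¬ AtEq S S (dg F ∪ q)) := by
    intro i k j l
    by_cases hij : i = j
    · exact ⟨∅, countable_empty, fun h => (h hij).elim⟩
    · obtain ⟨q, h2, h3, h4⟩ := hwit i k j l hij
      exact ⟨q, (finite_of_encard_le_coe h3).countable, fun _ => ⟨h2, h3, h4⟩⟩
  choose q hq1 hq2 using hwit'
  obtain ⟨X, hX⟩ : ∃ X : Set M, X = F ∪ (⋃ i, ⋃ k, range (W i k)) ∪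
      ⋃ i, ⋃ k, ⋃ j, ⋃ l, Prod.fst '' q i k j l := ⟨_, rfl⟩
  have hXc : X.Countable := by
    rw [hX]
    refine (hF.countable.union ?_).union ?_
    · exact countable_iUnion fun i => countable_iUnion fun k => (finite_range _).countable
    · exact countable_iUnion fun i => countable_iUnion fun k => countable_iUnion fun j =>
        countable_iUnion fun l => (hq1 i k j l).image _
  have hXW : ∀ i k p, W i k p ∈ X := by
    intro i k p
    rw [hX]
    exact Or.inl (Or.inr (mem_iUnion.2 ⟨i, mem_iUnion.2 ⟨k, ⟨p, rfl⟩⟩⟩))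
  have hXF : F ⊆ X := by
    rw [hX]
    exact fun x hx => Or.inl (Or.inl hx)
  have hXq : ∀ i k j l, ∀ a ∈ q i k j l, a.1 ∈ X := by
    intro i k j l a ha
    rw [hX]
    exact Or.inr (mem_iUnion.2 ⟨i, mem_iUnion.2 ⟨k, mem_iUnion.2 ⟨j, mem_iUnion.2 ⟨l,
      ⟨a, ha, rfl⟩⟩⟩⟩⟩)
  refine hR F X n (Fin (c + 1)) W hF hXc hXF inter_subset_right ⟨?_, ?_, ?_, ?_⟩
  · intro i k p _
    refine ⟨hXW i k p, ?_⟩
    rw [hWe]
    exact ORB_notF (hw1 i) hn _ p
  · intro i k p j l r _ _ h2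
    by_cases h3 : (i, k) = (j, l)
    · obtain ⟨rfl, rfl⟩ := Prod.mk.inj h3
      exact ⟨rfl, rfl, hWinj i k h2⟩
    · exact ((disjoint_left.1 (hWd i k j l h3)) ⟨p, rfl⟩ ⟨r, h2.symm⟩).elim
  · intro i k l _ _ hkl
    have h2 : (i, k) ≠ (i, l) := fun h => hkl (congrArg Prod.snd h)
    have h3 : ee i k ≠ ee i l := by
      intro h3
      have h4 := hWd i k i l h2
      rw [hWe, hWe, h3] at h4
      exact (disjoint_left.1 h4) ⟨0, rfl⟩ ⟨0, rfl⟩
    have h4 := (hw1 i).2.2 _ _ h3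
    rw [← hWe, ← hWe] at h4
    refine h4.anti ?_
    rintro a ((⟨h5, -, h6, h7⟩ | h5) | h5)
    · exact Or.inl (Or.inl ⟨h5, mem_univ _, h6, h7⟩)
    · exact Or.inl (Or.inr h5)
    · exact Or.inr h5
  · intro i j k l hij _ _ hT
    obtain ⟨h2, h3, h4⟩ := hq2 i k j l hij
    refine h4 (hT _ ?_ h3)
    intro a ha
    rcases h2 ha with (⟨h5, -, h6, h7⟩ | h5) | h5
    · exact Or.inl (Or.inl ⟨h5, hXq i k j l a ha, h6, h7⟩)
    · exact Or.inl (Or.inr h5)
    · exact Or.inr h5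

/-- finite blocks are good sets of every level -/
theorem FCL_good (hB : St_BLK) (hV : St_LVF) {m : ℕ → ℕ} {A : Set M} (h : Lv S F m A) {x : M}
    (hx : x ∉ A) (hfin : (Bi S F univ x).Finite) : Gs S F n univ (Bi S F univ x) := by
  obtain ⟨h1, -, -, -, -, -, -, h8⟩ := hV L M S F m A h x hx
  obtain ⟨l, hl⟩ := h8 hfin
  have h2 : Bi S F univ x = Bl S F (max n l) univ x := by
    apply Subset.antisymm
    · rw [hl]
      exact ((hB L M S F l univ).2.2.2.2.2.2 (max n l) x (le_max_right _ _) (h1 _)).2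
    · exact subset_iUnion (fun k => Bl S F k univ x) (max n l)
  rw [h2]
  exact (hB L M S F n univ).2.2.2.2.2.1 (max n l) _ (le_max_left _ _)
    ((hB L M S F (max n l) univ).2.1 x (h1 _)).1

theorem FCL_pos (hG : St_GRP) (hB : St_BLK) (hV : St_LVF) {m : ℕ → ℕ} {A : Set M}
    (h : Lv S F m A) (hR : RowsP S F) (hfin : ∀ x ∉ A, (Bi S F univ x).Finite) (hn : 1 ≤ n)
    (k : ℕ) : ∃ R : Set (Set M), R.Finite ∧
    ∀ b ∈ (T0 S F A).Bk, b.encard = k → ∃ c ∈ R, (T0 S F A).V n c b := by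
  classical
  rcases k with _ | c
  · refine ⟨∅, finite_empty, ?_⟩
    rintro b ⟨x, hx, rfl⟩ hb
    have h1 := (hV L M S F m A h x hx).2.2.2.2.1
    rw [Nat.cast_zero, encard_eq_zero] at hb
    rw [hb] at h1
    exact h1.elim
  by_contra hcon
  push Not at hcon
  obtain ⟨b, hb, hb'⟩ := exists_seq_of_forall_finset_exists
    (fun b : Set M => b ∈ (T0 S F A).Bk ∧ b.encard = ((c + 1 : ℕ) : ℕ∞))
    (fun b b' => ¬ (T0 S F A).V n b b') (by
      intro s hs
      obtain ⟨y, h1, h2, h3⟩ := hcon (↑s : Set (Set M)) s.finite_toSet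
      exact ⟨y, ⟨h1, h2⟩, fun x hx => h3 x hx⟩)
  have h1 : ∀ i, ∃ w : ℕ → Fin (c + 1) → M, Ro S F n univ w ∧ range (w 0) = b i := by
    intro i
    obtain ⟨x, hx, hxb⟩ := (hb i).1
    obtain ⟨d, w, hw1, hw2⟩ := FCL_good (n := n) hB hV h hx (hfin x hx)
    rw [← hxb] at hw2
    have h2 : (range (w 0)).encard = ((d + 1 : ℕ) : ℕ∞) := by
      rw [← image_univ, (show Function.Injective (w 0) from
        fun p q hpq => (hw1.2.1 0 p 0 q hpq).2).encard_image, encard_univ,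
        ENat.card_eq_coe_fintype_card, Fintype.card_fin]
    rw [hw2, (hb i).2] at h2
    have h3 : c = d := by
      have := ENat.natCast_inj.1 h2
      omega
    subst h3
    exact ⟨w, hw1, hw2⟩
  choose w hw1 hw2 using h1
  have hlt : ∀ i j, i < j → ∀ k l, ¬ ORB_C S F n (w i k) (w j l) := by
    intro i j hij k l hc
    have h2 := ORB_C_trans hG (ORB_C_trans hG (ORB_C_row hG (hw1 i) 0 k) hc)
      (ORB_C_row hG (hw1 j) l 0)
    obtain ⟨σ, h3, h4⟩ := h2
    refine hb' i j hij ⟨(hb i).1, (hb j).1, σ, h3, ?_⟩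
    rw [← hw2 i, ← hw2 j, ← range_comp]
    congr 1
    funext p
    exact h4 p
  have hne : ∀ i j, i ≠ j → ∀ k l, ¬ ORB_C S F n (w i k) (w j l) := by
    intro i j hij k l hc
    rcases lt_or_gt_of_ne hij with h | h
    · exact hlt i j h k l hc
    · exact hlt j i h l k (ORB_C_symm hG hc)
  exact FCL_rows hG h.ff hR hn c w hw1 hne

end

theorem thm_FCL (hG : St_GRP) (hB : St_BLK) (hC : St_CNJ) (hV : St_LVF) : St_FCL := by
  intro L M S F m A n k h hR hfin
  rcases Nat.eq_zero_or_pos n with rfl | hn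
  · obtain ⟨R, hR1, hR2⟩ := FCL_pos (n := 1) hG hB hV h hR hfin le_rfl k
    refine ⟨R, hR1, fun b hb hbk => ?_⟩
    obtain ⟨c, hc, h1, h2, σ, h3, h4⟩ := hR2 b hb hbk
    exact ⟨c, hc, h1, h2, σ, (hG L M S F 1 univ).2.2.2.1 0 σ (Nat.zero_le _) h3, h4⟩
  · exact FCL_pos hG hB hV h hR hfin hn k

end HEI
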