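import Pool.Agent.HEI.StE

/-!
# HEI: exchanges of blocks
-/

set_option autoImplicit false
set_option linter.unusedVariables false

namespace HEI

open Set Pool.Agent.Helper5.DU Pool.Agent.Helper6.Str Pool.Agent.Helper79.VC
  Pool.Agent.Helper97.LO Pool.Agent.Helper97.VC HER HERN

section

variable {L : FirstOrder.Language.{0, 0}} {M : Type} {S : L.Structure M} {F : Set M}

/-- a finite `∞`-block is good at all levels -/
private theorem FEX_gs (hB : St_BLK) (hV : St_LVF) {m : ℕ → ℕ} {A : Set M} (h : Lv S F m A)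
    {x : M} (hx : x ∉ A) (hf : (Bi S F univ x).Finite) (n : ℕ) :
    Gs S F n univ (Bi S F univ x) := by
  obtain ⟨h1, -, -, -, -, -, -, h8⟩ := hV L M S F m A h x hx
  obtain ⟨l, hl⟩ := h8 hf
  have h2 : Bl S F (max n l) univ x = Bi S F univ x := by
    apply Subset.antisymm
    · exact subset_iUnion (fun n => Bl S F n univ x) (max n l)
    · rw [hl]
      exact ((hB L M S F l univ).2.2.2.2.2.2 (max n l) x (le_max_right _ _) (h1 _)).2
  rw [← h2]
  exact (hB L M S F n univ).2.2.2.2.2.1 (max n l) _ (le_max_left _ _)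
    ((hB L M S F (max n l) univ).2.1 x (h1 _)).1

private theorem FEX_one (hB : St_BLK) (hC : St_CNJ) (hV : St_LVF) {m : ℕ → ℕ} {A : Set M}
    (h : Lv S F m A) (hf : ∀ x ∉ A, (Bi S F univ x).Finite) {b b' : Set M} (hne : b ≠ b') (n : ℕ)
    (hv : (T0 S F A).V n b b') : ∃ (k : ℕ) (w w' : Fin k → M), range w = b ∧ range w' = b' ∧
      Sw S F n univ w w' := by
  obtain ⟨⟨x, hx, rfl⟩, ⟨x', hx', rfl⟩, σ, hσ, hσb⟩ := hv
  obtain ⟨k, w, hw, hr⟩ := (hf x hx).fin_param
  have hd : ∀ p q, σ (w p) ≠ w q := by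
    intro p q hpq
    have h1 : w q ∈ Bi S F univ x := by
      rw [← hr]
      exact ⟨q, rfl⟩
    have h2 : w q ∈ Bi S F univ x' := by
      rw [← hσb, ← hpq]
      exact ⟨w p, by
        rw [← hr]
        exact ⟨p, rfl⟩, rfl⟩
    have h3 := ((hV L M S F m A h x hx).2.2.1 _ h1).2
    have h4 := ((hV L M S F m A h x' hx').2.2.1 _ h2).2
    exact hne (h3.symm.trans h4)
  have hg : Gs S F n univ (range w) := by
    rw [hr]
    exact FEX_gs hB hV h hx (hf x hx) n
  have h5 := (hC L M S F n univ σ hσ).1 (Fin k) w hw hg hd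
  refine ⟨k, w, fun p => σ (w p), hr, ?_, h5⟩
  rw [← hσb, ← hr, ← range_comp]
  rfl

private theorem FEX_sw {b b' : Set M} {k : ℕ} {w w' : Fin k → M} (hr : range w = b)
    (hr' : range w' = b') (f : b → b') (hf : ∀ p (hp : w p ∈ b), (f ⟨w p, hp⟩ : M) = w' p) :
    SW univ w w' = SW univ (fun x : b => (x : M)) (fun x : b => (f x : M)) := by
  have h1 : range (fun x : b => (x : M)) = b := Subtype.range_coe
  have hm : ∀ p, w p ∈ b := fun p => by
    rw [← hr]
    exact ⟨p, rfl⟩
  have h2 : range (fun x : b => (f x : M)) = b' := by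
    apply Subset.antisymm
    · rintro _ ⟨x, rfl⟩
      exact (f x).2
    · intro y hy
      rw [← hr'] at hy
      obtain ⟨p, rfl⟩ := hy
      exact ⟨⟨w p, hm p⟩, hf p (hm p)⟩
  have h3 : prs w w' = prs (fun x : b => (x : M)) (fun x : b => (f x : M)) := by
    apply Subset.antisymm
    · rintro _ ⟨p, rfl⟩
      exact ⟨⟨w p, hm p⟩, by
        show (w p, (f ⟨w p, hm p⟩ : M)) = (w p, w' p)
        rw [hf p (hm p)]⟩
    · rintro _ ⟨⟨x, hx⟩, rfl⟩
      have hx2 := hx
      rw [← hr] at hx2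
      obtain ⟨p, rfl⟩ := hx2
      exact ⟨p, by
        show (w p, w' p) = (w p, (f ⟨w p, hx⟩ : M))
        rw [hf p hx]⟩
  have h4 : prs w' w = prs (fun x : b => (f x : M)) (fun x : b => (x : M)) := by
    apply Subset.antisymm
    · rintro _ ⟨p, rfl⟩
      exact ⟨⟨w p, hm p⟩, by
        show ((f ⟨w p, hm p⟩ : M), w p) = (w' p, w p)
        rw [hf p (hm p)]⟩
    · rintro _ ⟨⟨x, hx⟩, rfl⟩
      have hx2 := hx
      rw [← hr] at hx2
      obtain ⟨p, rfl⟩ := hx2
      exact ⟨p, by
        show (w' p, w p) = ((f ⟨w p, hx⟩ : M), w p)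
        rw [hf p hx]⟩
  unfold SW
  rw [h1, h2, h3, h4, hr, hr']

end

theorem thm_FEX (hG : St_GRP) (hB : St_BLK) (hC : St_CNJ) (hV : St_LVF) : St_FEX := by
  intro L M S F m A h hf b b' hne
  refine ⟨fun n hv => FEX_one hB hC hV h hf hne n hv, fun hv => ?_⟩
  classical
  have h1 := fun n => FEX_one hB hC hV h hf hne n (hv n)
  choose k w w' hr hr' hs using h1
  have hmb : ∀ n p, w n p ∈ b := fun n p => by
    rw [← hr n]
    exact ⟨p, rfl⟩
  have hmb' : ∀ n p, w' n p ∈ b' := fun n p => by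
    rw [← hr' n]
    exact ⟨p, rfl⟩
  -- the bijections
  have h2 : ∀ n, ∃ f : b → b', ∀ p (hp : w n p ∈ b), (f ⟨w n p, hp⟩ : M) = w' n p := by
    intro n
    have h3 : ∀ x : b, ∃ p, w n p = x := fun x => by
      have h4 : (x : M) ∈ range (w n) := by
        rw [hr n]
        exact x.2
      exact h4
    choose g hg using h3
    refine ⟨fun x => ⟨w' n (g x), hmb' n _⟩, fun p hp => ?_⟩
    show w' n (g ⟨w n p, hp⟩) = w' n p
    rw [(hs n).1.1 (hg ⟨w n p, hp⟩)]
  choose f hfp using h2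
  have hb : b.Finite := by
    rw [← hr 0]
    exact finite_range _
  have hb' : b'.Finite := by
    rw [← hr' 0]
    exact finite_range _
  have : Finite b := hb
  have : Finite b' := hb'
  obtain ⟨f0, hf0⟩ := Finite.exists_infinite_fiber f
  have hinf : ∀ n, ∃ l, n ≤ l ∧ f l = f0 := by
    intro n
    have h3 : (f ⁻¹' {f0}).Infinite := infinite_coe_iff.1 hf0
    obtain ⟨l, hl, hnl⟩ := h3.exists_gt n
    exact ⟨l, hnl.le, hl⟩
  -- the exchange
  have hTE : ∀ n, TE S F n (SW univ (fun x : b => (x : M)) (fun x : b => (f0 x : M))) := by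
    intro n
    obtain ⟨l, hl, hl2⟩ := hinf n
    have h3 := (hs l).2.2.2
    rw [FEX_sw (hr l) (hr' l) (f l) (hfp l), hl2] at h3
    exact h3.le hl
  have hdj : Dj (fun x : b => (x : M)) (fun x : b => (f0 x : M)) := by
    obtain ⟨l, -, hl2⟩ := hinf 0
    refine ⟨fun x y hxy => Subtype.ext hxy, ?_, ?_⟩
    · intro x y hxy
      have hx : (x : M) ∈ range (w l) := by
        rw [hr l]
        exact x.2
      have hy : (y : M) ∈ range (w l) := by
        rw [hr l]
        exact y.2
      obtain ⟨p, hp⟩ := hx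
      obtain ⟨q, hq⟩ := hy
      have hx' : x = ⟨w l p, hmb l p⟩ := Subtype.ext hp.symm
      have hy' : y = ⟨w l q, hmb l q⟩ := Subtype.ext hq.symm
      have h3 : (f0 x : M) = w' l p := by
        rw [hx', ← hl2]
        exact hfp l p _
      have h4 : (f0 y : M) = w' l q := by
        rw [hy', ← hl2]
        exact hfp l q _
      have h5 : w' l p = w' l q := h3.symm.trans (Eq.trans hxy h4)
      rw [hx', hy', (hs l).1.2.1 h5]
    · intro x y hxy
      have hx : (x : M) ∈ range (w l) := by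
        rw [hr l]
        exact x.2
      have hy : (y : M) ∈ range (w l) := by
        rw [hr l]
        exact y.2
      obtain ⟨p, hp⟩ := hx
      obtain ⟨q, hq⟩ := hy
      have hy' : y = ⟨w l q, hmb l q⟩ := Subtype.ext hq.symm
      have h4 : (f0 y : M) = w' l q := by
        rw [hy', ← hl2]
        exact hfp l q _
      exact (hs l).1.2.2 p q (hp.trans (Eq.trans hxy h4))
  obtain ⟨-, -, -, -, -, hex, -⟩ := hG L M S F 0 univ
  obtain ⟨σ, hσ1, hσ2, hσ3⟩ := hex b _ _ hdj
  have hrg : range (fun x : b => (x : M)) = b := Subtype.range_coe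
  have hrg' : range (fun x : b => (f0 x : M)) = b' := by
    obtain ⟨l, -, hl2⟩ := hinf 0
    apply Subset.antisymm
    · rintro _ ⟨x, rfl⟩
      exact (f0 x).2
    · intro y hy
      rw [← hr' l] at hy
      obtain ⟨p, rfl⟩ := hy
      refine ⟨⟨w l p, hmb l p⟩, ?_⟩
      show (f0 ⟨w l p, hmb l p⟩ : M) = w' l p
      rw [← hl2]
      exact hfp l p _
  refine ⟨σ, ?_, ?_, ?_, ?_⟩
  · intro x
    by_cases hx : x ∈ range (fun x : b => (x : M))
    · obtain ⟨p, rfl⟩ := hx
      rw [hσ1, hσ2]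
    · by_cases hx' : x ∈ range (fun x : b => (f0 x : M))
      · obtain ⟨p, rfl⟩ := hx'
        rw [hσ2, hσ1]
      · rw [hσ3 x hx hx', hσ3 x hx hx']
  · intro x hx
    by_contra hne2
    rw [not_or] at hne2
    refine hx (hσ3 x ?_ ?_)
    · rw [hrg]
      exact hne2.1
    · rw [hrg']
      exact hne2.2
  · apply Subset.antisymm
    · rintro _ ⟨x, hx, rfl⟩
      have h3 := hσ1 ⟨x, hx⟩
      have h4 : σ x = (f0 ⟨x, hx⟩ : M) := h3
      rw [h4]
      exact (f0 ⟨x, hx⟩).2
    · intro y hy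
      rw [← hrg'] at hy
      obtain ⟨x, rfl⟩ := hy
      exact ⟨x, x.2, hσ1 x⟩
  · have hsub : {a : M × M | a.2 = σ a.1} ⊆
        SW univ (fun x : b => (x : M)) (fun x : b => (f0 x : M)) := by
      rintro ⟨x, y⟩ hxy
      have hxy' : y = σ x := hxy
      subst hxy'
      by_cases hx : x ∈ range (fun x : b => (x : M))
      · obtain ⟨p, rfl⟩ := hx
        rw [hσ1]
        exact Or.inl (Or.inr ⟨p, rfl⟩)
      · by_cases hx' : x ∈ range (fun x : b => (f0 x : M))
        · obtain ⟨p, rfl⟩ := hx'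
          rw [hσ2]
          exact Or.inr ⟨p, rfl⟩
        · rw [hσ3 x hx hx']
          exact Or.inl (Or.inl ⟨rfl, mem_univ _, hx, hx'⟩)
    refine ⟨fun p hp q hq => ?_, fun n R v hv => ?_⟩
    · have hp' : p.2 = σ p.1 := hp
      have hq' : q.2 = σ q.1 := hq
      rw [hp', hq']
      exact σ.injective.eq_iff.symm
    · have h3 := hTE n (range v) (by
        rintro _ ⟨i, rfl⟩
        exact hsub (hv i)) (by
        rw [← image_univ]
        refine (encard_image_le _ _).trans ?_
        rw [encard_univ, ENat.card_eq_coe_fintype_card, Fintype.card_fin])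
      exact h3.2 n R v fun i => Or.inr ⟨i, rfl⟩

end HEI
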