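import Pool.Agent.HEI.StE
import Pool.Agent.HERN.TE

/-!
# HEI: the fine system of the structure (helper24)
-/

set_option autoImplicit false
set_option linter.unusedVariables false

namespace HEI

open Set Pool.Agent.Helper5.DU Pool.Agent.Helper6.Str Pool.Agent.Helper79.VC
  Pool.Agent.Helper97.LO Pool.Agent.Helper97.VC HER HERN

section FSA

variable {L : FirstOrder.Language.{0, 0}} {M : Type} {S : L.Structure M}
  {F A D D' : Set M} {p : Set (M × M)}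

/-! ## images -/

theorem FSA_im_encard (h : AtEq S S p) {b : Set M} (hb : Dm p b) :
    (Im p b).encard = b.encard := by
  have hb' : ∀ x : M, ∃ y, x ∈ b → (x, y) ∈ p := by
    intro x
    by_cases hx : x ∈ b
    · obtain ⟨y, hy⟩ := hb x hx
      exact ⟨y, fun _ => hy⟩
    · exact ⟨x, fun h => absurd h hx⟩
  choose f hf using hb'
  have h1 : Im p b = f '' b := by
    ext y
    constructor
    · rintro ⟨x, hx, hxy⟩
      exact ⟨x, hx, (h.1 _ (hf x hx) _ hxy).1 rfl⟩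
    · rintro ⟨x, hx, rfl⟩
      exact ⟨x, hx, hf x hx⟩
  rw [h1]
  refine InjOn.encard_image ?_
  intro x hx x' hx' he
  exact (h.1 _ (hf x hx) _ (hf x' hx')).2 he

theorem FSA_im_im (h : AtEq S S p) {b : Set M} (hb : Dm p b) :
    Im (Prod.swap ⁻¹' p) (Im p b) = b := by
  ext x
  constructor
  · rintro ⟨y, ⟨x', hx', hxy'⟩, hyx⟩
    have h1 : (x, y) ∈ p := hyx
    have h2 : x' = x := (h.1 _ hxy' _ h1).2 rfl
    exact h2 ▸ hx'
  · intro hx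
    obtain ⟨y, hy⟩ := hb x hx
    exact ⟨y, ⟨x, hx, hy⟩, hy⟩

theorem FSA_dm_im {b : Set M} : Dm (Prod.swap ⁻¹' p) (Im p b) := by
  rintro y ⟨x, hx, hxy⟩
  exact ⟨x, hxy⟩

theorem FSA_ps_symm {g : Ordinal.{0}} (h : Ps S F g D D' p) :
    Ps S F g D' D (Prod.swap ⁻¹' p) := by
  obtain ⟨h1, h2, h3, h4⟩ := h
  refine ⟨h1.preimage Prod.swap_injective.injOn, ?_, fun a ha => ?_, h4.swap⟩
  · rintro _ ⟨x, hx, rfl⟩
    exact h2 ⟨x, hx, rfl⟩
  · exact ⟨(h3 _ ha).2, (h3 _ ha).1⟩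

/-! ## levels -/

theorem FSA_lev {γ : Ordinal.{0}} (h : Ps S F γ D D' p) : BFR S S D D' γ p :=
  h.2.2.2.mono (Ordinal.le_mul_right γ Ordinal.omega0_pos)

/-- all large blocks are the `∞`-block -/
theorem FSA_bl (hBLK : St_BLK) {m : ℕ → ℕ} (hL : Lv S F m A) (hLVF : St_LVF) {x : M}
    (hx : x ∉ A) (hf : (Bi S F univ x).Finite) :
    ∃ l, ∀ n, l ≤ n → Bl S F n univ x = Bi S F univ x := by
  obtain ⟨h1, h2, h3, h4, h5, h6, h7, h8⟩ := hLVF L M S F m A hL x hx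
  obtain ⟨l, hl⟩ := h8 hf
  refine ⟨l, fun n hn => ?_⟩
  refine Subset.antisymm (subset_iUnion (fun n => Bl S F n univ x) n) ?_
  rw [hl]
  obtain ⟨-, -, -, -, -, -, h9⟩ := hBLK L M S F l univ
  exact (h9 n x hn (h1 n)).2

/-- images of blocks are blocks -/
theorem FSA_b1 (hBLK : St_BLK) (hVIS : St_VIS) (hLVF : St_LVF) (hDEN : St_DEN) {m : ℕ → ℕ}
    (hL : Lv S F m A) (hfin : ∀ x ∉ A, (Bi S F univ x).Finite) (hD : DE S F A D)
    (hD' : DE S F A D') {γ : Ordinal.{0}} (hγ : Ordinal.omega0 * 4 ≤ γ) (hp : Ps S F γ D D' p)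
    (hA : ∀ a ∈ p, a.1 ∈ A ↔ a.2 ∈ A) {b : Set M} (hb : Dm p b) (hbk : b ∈ (T0 S F A).Bk) :
    Im p b ∈ (T0 S F A).Bk := by
  obtain ⟨x, hx, rfl⟩ := hbk
  have hlev := FSA_lev hp
  obtain ⟨hp1, hp2, hp3, hp4⟩ := hp
  have hxb : x ∈ Bi S F univ x := (hLVF L M S F m A hL x hx).2.2.2.2.1
  obtain ⟨y, hy⟩ := hb x hxb
  have hyA : y ∉ A := fun h => hx ((hA _ hy).2 h)
  obtain ⟨l, hl⟩ := FSA_bl hBLK hL hLVF hx (hfin x hx)
  obtain ⟨l', hl'⟩ := FSA_bl hBLK hL hLVF hyA (hfin y hyA)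
  have hn1 := hl (max l l') (le_max_left _ _)
  have hn2 := hl' (max l l') (le_max_right _ _)
  have hgx := (hLVF L M S F m A hL x hx).1 (max l l')
  have hgy := (hLVF L M S F m A hL y hyA).1 (max l l')
  have hxD : x ∈ D := (hp3 _ hy).1
  have hyD : y ∈ D' := (hp3 _ hy).2
  obtain ⟨-, h1, h2, -⟩ := hDEN L M S F m A D hL hD
  obtain ⟨-, h1', h2', -⟩ := hDEN L M S F m A D' hL hD'
  have h3 := (h2 _ x hxD hgx).1
  have h3' := (h2' _ y hyD hgy).1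
  have hgxD := (h1 _ x hxD).2 hgx
  obtain ⟨-, -, v3, -, v5, -⟩ := hVIS L M S F D D' γ p hL.ff hγ hp2 hp3 hlev
  have hsub : Im p (Bi S F univ x) ⊆ Bi S F univ y := by
    rintro z ⟨u, hu, huz⟩
    have h4 := (v3 _ _ hy _ huz hgxD).1 (by
      show u ∈ Bl S F (max l l') D x
      rw [h3, hn1]
      exact hu)
    have h5 : z ∈ Bl S F (max l l') D' y := h4
    rw [h3', hn2] at h5
    exact h5
  have hcard : (Bi S F univ x).encard = (Bi S F univ y).encard := by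
    have h6 := v5 _ _ hy hgxD
    have h7 : (Bl S F (max l l') D x).encard = (Bl S F (max l l') D' y).encard := h6
    rw [h3, h3', hn1, hn2] at h7
    exact h7
  refine ⟨y, hyA, ?_⟩
  refine Finite.eq_of_subset_of_encard_le ((hfin y hyA).subset hsub) hsub ?_
  rw [FSA_im_encard hp4.atEq hb, hcard]

/-- neighbourhoods correspond -/
theorem FSA_v1 (hGRP : St_GRP) (hVIS : St_VIS) (hDEN : St_DEN) (hFEX : St_FEX) {m : ℕ → ℕ}
    (hL : Lv S F m A) (hfin : ∀ x ∉ A, (Bi S F univ x).Finite)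
    (hD' : DE S F A D') {γ : Ordinal.{0}} (hγ : Ordinal.omega0 * 4 ≤ γ) (hp : Ps S F γ D D' p)
    {n : ℕ} {b b' : Set M} (hb : Dm p b) (hb' : Dm p b') (h1 : Im p b ∈ (T0 S F A).Bk)
    (h2 : Im p b' ∈ (T0 S F A).Bk) (hV : (T0 S F A).V n b b') :
    (T0 S F A).V n (Im p b) (Im p b') := by
  have hlev := FSA_lev hp
  obtain ⟨hp1, hp2, hp3, hp4⟩ := hp
  obtain ⟨g1, g2, g3, g4, g5, g6, g7⟩ := hGRP L M S F n univ
  by_cases hbb : b = b'
  · subst hbb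
    exact ⟨h1, h1, 1, g1, by simp⟩
  obtain ⟨hF1, -⟩ := hFEX L M S F m A hL hfin b b' hbb
  obtain ⟨k, w, w', rfl, rfl, hw1, hw2, hw3, hw4⟩ := hF1 n hV
  choose v hv using fun i => hb (w i) (mem_range_self i)
  choose v' hv' using fun i => hb' (w' i) (mem_range_self i)
  have hsw : Sw S F n (D \ ∅) w w' := by
    rw [sdiff_empty]
    refine ⟨hw1, fun i => (hp3 _ (hv i)).1, fun i => (hp3 _ (hv' i)).1, hw4.anti ?_⟩
    refine union_subset_union_left _ (union_subset_union_left _ ?_)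
    rintro a ⟨a1, a2, a3, a4⟩
    exact ⟨a1, mem_univ _, a3, a4⟩
  have hsw' := ((hVIS L M S F D D' γ p hL.ff hγ hp2 hp3 hlev).1 (Fin k) w w' v v' ∅ ∅ n
    (fun i => ⟨hv i, hv' i⟩) (fun x hx => absurd hx (notMem_empty x))
    (fun x hx => absurd hx (notMem_empty x))).1 hsw
  rw [sdiff_empty] at hsw'
  obtain ⟨s1, s2, s3, s4⟩ := hsw'
  obtain ⟨σ, hσ⟩ := g6 (Fin k) v v' s1
  obtain ⟨-, -, -, -, -, -, d7⟩ := hGRP L M S F n D'
  have hph : Ph S F n D' σ := (d7 (Fin k) v v' σ s1 hσ s2 s3).2 s4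
  have hph' : Ph S F n univ σ := (hDEN L M S F m A D' hL hD').1 n σ hph
  have hr : ∀ (u t : Fin k → M), (∀ i, (u i, t i) ∈ p) → Im p (range u) = range t := by
    intro u t hut
    ext z
    constructor
    · rintro ⟨_, ⟨i, rfl⟩, hi⟩
      exact ⟨i, (hp4.atEq.1 _ (hut i) _ hi).1 rfl⟩
    · rintro ⟨i, rfl⟩
      exact ⟨u i, mem_range_self i, hut i⟩
  refine ⟨h1, h2, σ, hph', ?_⟩
  rw [hr w v hv, hr w' v' hv', ← range_comp]
  congr 1
  funext i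
  exact hσ.1 i

end FSA

theorem thm_FSA (hGRP : St_GRP) (hBLK : St_BLK) (hVIS : St_VIS) (hLVF : St_LVF)
    (hDEN : St_DEN) (hAVI : St_AVI) (hFCL : St_FCL) (hFEX : St_FEX) (hFDE : St_FDE) :
    St_FSA := by
  intro L M S F m A hL hR hfin
  obtain ⟨γ, hγ1, hγ4, hav⟩ := hAVI L M S F m A hL
  have hde : ∀ D, DD (T0 S F A) A D → DE S F A D := fun D h => hFDE L M S F m A D hL hfin h
  have hva : ∀ D D' p, DD (T0 S F A) A D → DD (T0 S F A) A D' → Ps S F γ D D' p →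
      ∀ a ∈ p, a.1 ∈ A ↔ a.2 ∈ A := fun D D' p h h' hp =>
    hav D D' p (hde D h) (hde D' h') hp.1 hp.2.1 hp.2.2.1 (FSA_lev hp)
  have hvb : ∀ D D' p, DD (T0 S F A) A D → DD (T0 S F A) A D' → Ps S F γ D D' p →
      ∀ b, Dm p b → b ∈ (T0 S F A).Bk → Im p b ∈ (T0 S F A).Bk := fun D D' p h h' hp b hb =>
    FSA_b1 hBLK hVIS hLVF hDEN hL hfin (hde D h) (hde D' h') hγ4 hp (hva D D' p h h' hp) hb
  have hvv : ∀ D D' p, DD (T0 S F A) A D → DD (T0 S F A) A D' → Ps S F γ D D' p →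
      ∀ n b b', Dm p b → Dm p b' → (T0 S F A).V n b b' →
        (T0 S F A).V n (Im p b) (Im p b') := fun D D' p h h' hp n b b' hb hb' hV =>
    FSA_v1 hGRP hVIS hDEN hFEX hL hfin (hde D' h') hγ4 hp hb hb' (hvb D D' p h h' hp b hb hV.1)
      (hvb D D' p h h' hp b' hb' hV.2.1) hV
  have hcl : ∀ x ∉ A, ∀ y ∈ Bi S F univ x, y ∉ A ∧ Bi S F univ y = Bi S F univ x :=
    fun x hx => (hLVF L M S F m A hL x hx).2.2.1
  have hself : ∀ x ∉ A, x ∈ Bi S F univ x := fun x hx => (hLVF L M S F m A hL x hx).2.2.2.2.1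
  refine ⟨γ, ⟨hL.pig, hL.ff, hL.ac, hL.fa, ?_, ?_, ?_, ?_, ?_, ?_, ?_, ?_, ?_, hγ1, hva, ?_,
    ?_⟩, ?_⟩
  · rintro _ ⟨x, hx, rfl⟩
    refine ⟨hfin x hx, ⟨x, hself x hx⟩, ?_⟩
    rw [Set.disjoint_left]
    intro y hy
    exact (hcl x hx y hy).1
  · rintro _ ⟨x, hx, rfl⟩ _ ⟨x', hx', rfl⟩ ⟨y, hy, hy'⟩
    rw [← (hcl x hx y hy).2, ← (hcl x' hx' y hy').2]
  · rintro n b b' ⟨h1, h2, σ, hσ, rfl⟩
    exact ⟨h1, h2, (σ.injective.encard_image b).symm⟩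
  · intro n b hb
    exact ⟨hb, hb, 1, (hGRP L M S F n univ).1, by simp⟩
  · rintro n b b' ⟨h1, h2, σ, hσ, rfl⟩
    refine ⟨h2, h1, σ⁻¹, (hGRP L M S F n univ).2.2.1 σ hσ, ?_⟩
    rw [← image_comp]
    have h3 : (⇑σ⁻¹ ∘ ⇑σ) = id := by
      funext x
      simp
    rw [h3, image_id]
  · rintro n b b' b'' ⟨h1, h2, σ, hσ, rfl⟩ ⟨h3, h4, τ, hτ, rfl⟩
    refine ⟨h1, h4, τ * σ, (hGRP L M S F n univ).2.1 τ σ hτ hσ, ?_⟩
    rw [← image_comp]
    rfl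
  · rintro n k b b' hnk ⟨h1, h2, σ, hσ, h3⟩
    exact ⟨h1, h2, σ, (hGRP L M S F k univ).2.2.2.1 n σ hnk hσ, h3⟩
  · intro n k
    exact hFCL L M S F m A n k hL hR hfin
  · intro b b' hbb
    exact (hFEX L M S F m A hL hfin b b' hbb).2
  · intro D D' p h h' hp b hb
    refine ⟨hvb D D' p h h' hp b hb, fun hI => ?_⟩
    have h1 := hvb D' D _ h' h (FSA_ps_symm hp) _ FSA_dm_im hI
    rwa [FSA_im_im hp.2.2.2.atEq hb] at h1
  · intro D D' p h h' hp n b b' hb hb'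
    refine ⟨hvv D D' p h h' hp n b b' hb hb', fun hI => ?_⟩
    have h1 := hvv D' D _ h' h (FSA_ps_symm hp) n _ _ FSA_dm_im FSA_dm_im hI
    rwa [FSA_im_im hp.2.2.2.atEq hb, FSA_im_im hp.2.2.2.atEq hb'] at h1
  · rw [eq_univ_iff_forall]
    intro x
    by_cases hx : x ∈ A
    · exact Or.inl hx
    · exact Or.inr ⟨_, ⟨x, hx, rfl⟩, hself x hx⟩

end HEI
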