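import Pool.Agent.HEI.StG

/-!
# HEI [GPD]: equivalence of tuples (helper51)
-/

set_option autoImplicit false
set_option linter.unusedVariables false

namespace HEI

open Set Pool.Agent.Helper5.DU Pool.Agent.Helper6.Str Pool.Agent.Helper79.VC
  Pool.Agent.Helper97.LO Pool.Agent.Helper97.VC HER HERN

variable {L : FirstOrder.Language.{0, 0}} {M : Type} {S : L.Structure M} {F : Set M} {T : Dt M}
  {g0 : Ordinal.{0}} {Ω : Set M} {β : Type}

/-- a property of pairs of tuples which holds for each step and is transitive -/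
theorem GPD_ind {r : (β → M) → (β → M) → Prop} {Q : (β → M) → (β → M) → Prop}
    (h1 : ∀ x y, r x y → Q x y) (h2 : ∀ x y z, Q x y → Q y z → Q x z) {x y : β → M}
    (h : Relation.TransGen r x y) : Q x y := by
  induction h with
  | single h => exact h1 _ _ h
  | tail _ h ih => exact h2 _ _ _ ih (h1 _ _ h)

theorem GPD_symm {r : (β → M) → (β → M) → Prop} (h1 : ∀ x y, r x y → r y x) {x y : β → M}
    (h : Relation.TransGen r x y) : Relation.TransGen r y x := by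
  induction h with
  | single h => exact Relation.TransGen.single (h1 _ _ h)
  | tail _ h ih => exact (Relation.TransGen.single (h1 _ _ h)).trans ih

theorem GPD_map {β' : Type} {r : (β → M) → (β → M) → Prop} {r' : (β' → M) → (β' → M) → Prop}
    (f : (β → M) → (β' → M)) (h1 : ∀ x y, r x y → r' (f x) (f y)) {x y : β → M}
    (h : Relation.TransGen r x y) : Relation.TransGen r' (f x) (f y) := by
  induction h with
  | single h => exact Relation.TransGen.single (h1 _ _ h)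
  | tail _ h ih => exact ih.tail (h1 _ _ h)

/-- the pairs are in `D × D'` -/
theorem GPD_mem {D D' : Set M} (hFA : F ⊆ T.A) (hD : Un T D) (hD' : Un T D') {x x' : β → M}
    (hx : ∀ i, x i ∈ D) (hx' : ∀ i, x' i ∈ D') :
    ∀ a ∈ dg F ∪ prs x x', a.1 ∈ D ∧ a.2 ∈ D' := by
  rintro a (⟨y, hy, rfl⟩ | ⟨i, rfl⟩)
  · exact ⟨hD.1 (hFA hy), hD'.1 (hFA hy)⟩
  · exact ⟨hx i, hx' i⟩

theorem GPD_fin [Finite β] (hF : F.Finite) (x x' : β → M) : (dg F ∪ prs x x').Finite :=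
  (hF.image _).union (finite_range _)

/-- one step between members of a set of `𝔻_Ω` -/
theorem GPD_refl [Finite β] (hFS : FS S F T g0) {D : Set M} (hD : DD T Ω D) {x : β → M}
    (hx : ∀ i, x i ∈ D) (h : Ordinal.{0}) : Pp S F T Ω h x x := by
  refine ⟨D, D, hD, hD, GPD_fin hFS.ff x x, subset_union_left,
    GPD_mem hFS.fa hD.2.1 hD.2.1 hx hx, BFR.refl S D _ ?_⟩
  rintro a (⟨y, hy, rfl⟩ | ⟨i, rfl⟩)
  · exact ⟨hD.2.1.1 (hFS.fa hy), rfl⟩
  · exact ⟨hx i, rfl⟩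

theorem GPD_pp_symm [Finite β] (hFS : FS S F T g0) {h : Ordinal.{0}} {x x' : β → M}
    (hp : Pp S F T Ω h x x') : Pp S F T Ω h x' x := by
  obtain ⟨D, D', hD, hD', hfin, hdg, hmem, hB⟩ := hp
  have hx : ∀ i, x i ∈ D ∧ x' i ∈ D' := fun i => hmem (x i, x' i) (Or.inr ⟨i, rfl⟩)
  refine ⟨D', D, hD', hD, GPD_fin hFS.ff x' x, subset_union_left,
    GPD_mem hFS.fa hD'.2.1 hD.2.1 (fun i => (hx i).2) (fun i => (hx i).1), hB.symm ?_⟩
  rintro a (⟨y, hy, rfl⟩ | ⟨i, rfl⟩)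
  · exact Or.inl ⟨y, hy, rfl⟩
  · exact Or.inr ⟨i, rfl⟩

theorem GPD_pp_comp {α : Type} [Finite α] [Finite β] (hFS : FS S F T g0) (e : α → β)
    {h : Ordinal.{0}} {x x' : β → M} (hp : Pp S F T Ω h x x') :
    Pp S F T Ω h (fun i => x (e i)) (fun i => x' (e i)) := by
  obtain ⟨D, D', hD, hD', hfin, hdg, hmem, hB⟩ := hp
  have hx : ∀ i, x i ∈ D ∧ x' i ∈ D' := fun i => hmem (x i, x' i) (Or.inr ⟨i, rfl⟩)
  refine ⟨D, D', hD, hD', GPD_fin hFS.ff _ _, subset_union_left,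
    GPD_mem hFS.fa hD.2.1 hD'.2.1 (fun i => (hx _).1) (fun i => (hx _).2), BFR.anti ?_ hB⟩
  rintro a (⟨y, hy, rfl⟩ | ⟨i, rfl⟩)
  · exact Or.inl ⟨y, hy, rfl⟩
  · exact Or.inr ⟨e i, rfl⟩

theorem GPD_om {h h' : Ordinal.{0}} (hh : h ≤ h') : Ordinal.omega0 * h ≤ Ordinal.omega0 * h' :=
  mul_le_mul_right hh _

theorem GPD_ps {g g' : Ordinal.{0}} {D D' : Set M} {p : Set (M × M)} (hg : g ≤ g')
    (h : Ps S F g' D D' p) : Ps S F g D D' p :=
  ⟨h.1, h.2.1, h.2.2.1, h.2.2.2.mono (GPD_om hg)⟩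

/-- what is preserved by a step -/
structure GPD_Q (S : L.Structure M) (F : Set M) (T : Dt M) (Ω : Set M) (x x' : β → M) : Prop where
  mem : ∀ i, x i ∈ T.X ∧ x' i ∈ T.X
  at' : AtEq S S (dg F ∪ prs x x')
  om : ∀ i, x i ∈ Ω ↔ x' i ∈ Ω
  aa : ∀ i, x i ∈ T.A ↔ x' i ∈ T.A
  bk : ∀ (α : Type) (e : α → β), range (fun i => x (e i)) ∈ T.Bk ↔
    range (fun i => x' (e i)) ∈ T.Bk
  vv : ∀ (α α' : Type) (e : α → β) (e' : α' → β) (n : ℕ),
    T.V n (range fun i => x (e i)) (range fun i => x (e' i)) ↔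
    T.V n (range fun i => x' (e i)) (range fun i => x' (e' i))

theorem GPD_Q_trans {x y z : β → M} (h : GPD_Q S F T Ω x y) (h' : GPD_Q S F T Ω y z) :
    GPD_Q S F T Ω x z where
  mem i := ⟨(h.mem i).1, (h'.mem i).2⟩
  at' := by
    refine AtEq.comp' h.at' h'.at' ?_
    rintro a (⟨y, hy, rfl⟩ | ⟨i, rfl⟩)
    · exact ⟨y, Or.inl ⟨y, hy, rfl⟩, Or.inl ⟨y, hy, rfl⟩⟩
    · exact ⟨y i, Or.inr ⟨i, rfl⟩, Or.inr ⟨i, rfl⟩⟩
  om i := (h.om i).trans (h'.om i)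
  aa i := (h.aa i).trans (h'.aa i)
  bk α e := (h.bk α e).trans (h'.bk α e)
  vv α α' e e' n := (h.vv α α' e e' n).trans (h'.vv α α' e e' n)

theorem GPD_step (hIMG : St_IMG) (hDDM : St_DDM) (hFS : FS S F T g0) {g : Ordinal.{0}}
    (hVs : Vs S F T g0 g Ω) {x x' : β → M} (hp : Pp S F T Ω g x x') :
    GPD_Q S F T Ω x x' := by
  obtain ⟨-, -, -, -, i5, -, -, -⟩ := hIMG L M S F
  obtain ⟨-, -, d3, -, -, -, -, -, -⟩ := hDDM L M S F T g0 hFS
  obtain ⟨D, D', hD, hD', hps⟩ := hp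
  obtain ⟨hg, hgl, hΩc, hΩu, hvis⟩ := hVs
  have hps0 : Ps S F g0 D D' (dg F ∪ prs x x') := GPD_ps hg hps
  have hDA := d3 Ω D hΩu hD
  have hDA' := d3 Ω D' hΩu hD'
  have hx : ∀ i, x i ∈ D ∧ x' i ∈ D' := fun i => hps.2.2.1 (x i, x' i) (Or.inr ⟨i, rfl⟩)
  have hat : AtEq S S (dg F ∪ prs x x') := hps.2.2.2.atEq
  have him : ∀ (α : Type) (e : α → β), Dm (dg F ∪ prs x x') (range fun i => x (e i)) ∧
      Im (dg F ∪ prs x x') (range fun i => x (e i)) = range fun i => x' (e i) := fun α e =>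
    i5 _ α _ _ hat fun i => Or.inr ⟨e i, rfl⟩
  refine ⟨fun i => ⟨hD.2.1.2.1 (hx i).1, hD'.2.1.2.1 (hx i).2⟩, hat, fun i => ?_, fun i => ?_,
    fun α e => ?_, fun α α' e e' n => ?_⟩
  · exact hvis D D' _ hD hD' hps (x i, x' i) (Or.inr ⟨i, rfl⟩)
  · exact hFS.va D D' _ hDA hDA' hps0 (x i, x' i) (Or.inr ⟨i, rfl⟩)
  · rw [hFS.vb D D' _ hDA hDA' hps0 _ (him α e).1, (him α e).2]
  · rw [hFS.vv D D' _ hDA hDA' hps0 n _ _ (him α e).1 (him α' e').1, (him α e).2, (him α' e').2]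

/-- [GPD] -/
theorem thm_GPD (hIMG : St_IMG) (hDDM : St_DDM) : St_GPD := by
  intro L M S F T g0 g Ω hFS hGp β _
  obtain ⟨-, d2, -, -, -, -, -, d8, -⟩ := hDDM L M S F T g0 hFS
  have hVs := hGp.1
  have hΩc : Ω.Countable := hVs.2.2.1
  have hΩu : Un T Ω := hVs.2.2.2.1
  refine ⟨?_, ?_, ?_, ?_, ?_, ?_⟩
  · intro h x hx
    obtain ⟨D, hD, hE⟩ := d8 Ω (range x) hΩc hΩu (finite_range x)
      (by rintro _ ⟨i, rfl⟩; exact hx i) hGp.2
    exact Relation.TransGen.single (GPD_refl hFS hD (fun i => hE ⟨i, rfl⟩) h)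
  · intro h x x' hxx
    exact GPD_symm (fun y y' => GPD_pp_symm hFS) hxx
  · intro h α _ e x x' hxx
    exact GPD_map (fun y i => y (e i)) (fun y y' => GPD_pp_comp hFS e) hxx
  · intro h h' Ω' x x' hh hΩ' hsub hxx
    refine GPD_map (fun y => y) (fun y y' => ?_) hxx
    rintro ⟨D, D', hD, hD', hps⟩
    exact ⟨D, D', d2 Ω Ω' D hΩu hΩ' hsub hD, d2 Ω Ω' D' hΩu hΩ' hsub hD', GPD_ps hh hps⟩
  · intro x x' hxx
    have h1 : GPD_Q S F T Ω x x' :=
      GPD_ind (Q := fun y y' => GPD_Q S F T Ω y y') (r := fun y y' => Pp S F T Ω g y y')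
        (fun y y' h => GPD_step hIMG hDDM hFS hVs h) (fun _ _ _ h h' => GPD_Q_trans h h') hxx
    exact ⟨h1.mem, h1.at', h1.om, h1.aa, h1.bk, h1.vv⟩
  · intro b b' σ h x hb hb' hbΩ hbΩ' hσσ hσ hσb hσat hx
    have hbX : ∀ c ∈ T.Bk, c ⊆ T.X := fun c hc y hy => Or.inr ⟨c, hc, hy⟩
    have hσb' : σ '' b' = b := by
      rw [← hσb, ← image_comp]
      have : σ ∘ σ = id := funext hσσ
      rw [this, image_id]
    obtain ⟨D, hD, hE⟩ := d8 Ω (range x ∪ (b ∪ b')) hΩc hΩu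
      ((finite_range x).union ((hFS.fin b hb).1.union (hFS.fin b' hb').1))
      (by
        rintro y (⟨i, rfl⟩ | hy | hy)
        · exact hx i
        · exact hbX b hb hy
        · exact hbX b' hb' hy) hGp.2
    have hDσ : ∀ y ∈ D, σ y ∈ D := by
      intro y hy
      by_cases hyy : σ y = y
      · rwa [hyy]
      · rcases hσ y hyy with h1 | h1
        · refine hE (Or.inr (Or.inr ?_))
          rw [← hσb]
          exact mem_image_of_mem _ h1
        · refine hE (Or.inr (Or.inl ?_))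
          rw [← hσb']
          exact mem_image_of_mem _ h1
    have hDim : D = σ '' D := by
      refine Subset.antisymm (fun y hy => ⟨σ y, hDσ y hy, hσσ y⟩) ?_
      rintro _ ⟨y, hy, rfl⟩
      exact hDσ y hy
    have hFσ : ∀ y ∈ F, σ y = y := by
      intro y hy
      by_contra hyy
      have hyA := hFS.fa hy
      rcases hσ y hyy with h1 | h1
      · exact disjoint_left.mp (hFS.fin b hb).2.2 h1 hyA
      · exact disjoint_left.mp (hFS.fin b' hb').2.2 h1 hyA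
    have hxD : ∀ i, x i ∈ D := fun i => hE (Or.inl ⟨i, rfl⟩)
    refine Relation.TransGen.single ⟨D, D, hD, hD, GPD_fin hFS.ff _ _, subset_union_left,
      GPD_mem hFS.fa hD.2.1 hD.2.1 hxD (fun i => hDσ _ (hxD i)), ?_⟩
    refine BFR.of_map σ σ.injective.injOn hDim ?_ _ ?_
    · intro n R v hv
      exact hσat.2 n R (fun i => (v i, σ (v i))) fun i => rfl
    · rintro a (⟨y, hy, rfl⟩ | ⟨i, rfl⟩)
      · exact ⟨hD.2.1.1 (hFS.fa hy), (hFσ y hy).symm⟩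
      · exact ⟨hxD i, rfl⟩

end HEI
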