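import Pool.Agent.HEI.StE

/-!
# HEI [IMG]: images under positions (helper29)
-/

set_option autoImplicit false
set_option linter.unusedVariables false

namespace HEI

open Set Pool.Agent.Helper5.DU Pool.Agent.Helper6.Str Pool.Agent.Helper79.VC
  Pool.Agent.Helper97.LO Pool.Agent.Helper97.VC HER HERN

variable {L : FirstOrder.Language.{0, 0}} {M : Type} {S : L.Structure M}

theorem IMG_u1 {p : Set (M × M)} (h : AtEq S S p) {x y y' : M} (h1 : (x, y) ∈ p)
    (h2 : (x, y') ∈ p) : y = y' := (h.1 _ h1 _ h2).1 rfl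

theorem IMG_u2 {p : Set (M × M)} (h : AtEq S S p) {x x' y : M} (h1 : (x, y) ∈ p)
    (h2 : (x', y) ∈ p) : x = x' := (h.1 _ h1 _ h2).2 rfl

theorem IMG_fun {p : Set (M × M)} {b : Set M} (h : AtEq S S p) (hb : Dm p b) :
    ∃ f : M → M, (∀ x ∈ b, (x, f x) ∈ p) ∧ InjOn f b ∧ Im p b = f '' b := by
  classical
  refine ⟨fun x => if hx : x ∈ b then (hb x hx).choose else x, ?_, ?_, ?_⟩
  · intro x hx
    simp only [dif_pos hx]
    exact (hb x hx).choose_spec
  · intro x hx x' hx' e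
    simp only [dif_pos hx, dif_pos hx'] at e
    have h1 := (hb x hx).choose_spec
    have h2 := (hb x' hx').choose_spec
    rw [← e] at h2
    exact IMG_u2 h h1 h2
  · ext y
    constructor
    · rintro ⟨x, hx, hxy⟩
      refine ⟨x, hx, ?_⟩
      simp only [dif_pos hx]
      exact IMG_u1 h (hb x hx).choose_spec hxy
    · rintro ⟨x, hx, rfl⟩
      refine ⟨x, hx, ?_⟩
      simp only [dif_pos hx]
      exact (hb x hx).choose_spec

theorem IMG_sub {p : Set (M × M)} {b b' : Set M} (h : AtEq S S p) (hb : Dm p b) :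
    Im p b ⊆ Im p b' ↔ b ⊆ b' := by
  constructor
  · intro hs x hx
    obtain ⟨y, hy⟩ := hb x hx
    obtain ⟨x', hx', hy'⟩ := hs ⟨x, hx, hy⟩
    rwa [IMG_u2 h hy hy']
  · rintro hs y ⟨x, hx, hxy⟩
    exact ⟨x, hs hx, hxy⟩

/-- [IMG] -/
theorem thm_IMG : St_IMG := by
  intro L M S F
  refine ⟨?_, ?_, ?_, ?_, ?_, ?_, ?_, ?_⟩
  · -- 1
    intro p b h hb
    obtain ⟨f, hf1, hf2, hf3⟩ := IMG_fun h hb
    refine ⟨?_, ?_, ?_, ?_⟩
    · rw [hf3]
      exact hf2.encard_image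
    · ext x
      constructor
      · rintro ⟨y, ⟨x', hx', h1⟩, h2⟩
        have h3 : (x, y) ∈ p := h2
        rwa [IMG_u2 h h3 h1]
      · intro hx
        obtain ⟨y, hy⟩ := hb x hx
        exact ⟨y, ⟨x, hx, hy⟩, hy⟩
    · rintro y ⟨x, hx, hxy⟩
      exact ⟨x, hxy⟩
    · intro p' hp h'
      refine ⟨?_, fun x hx => ?_⟩
      · ext y
        constructor
        · rintro ⟨x, hx, hxy⟩
          obtain ⟨y', hy'⟩ := hb x hx
          rw [IMG_u1 h' hxy (hp hy')]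
          exact ⟨x, hx, hy'⟩
        · rintro ⟨x, hx, hxy⟩
          exact ⟨x, hx, hp hxy⟩
      · obtain ⟨y, hy⟩ := hb x hx
        exact ⟨y, hp hy⟩
  · -- 2
    intro p b b' h hb hb'
    refine ⟨?_, IMG_sub h hb, ?_, ?_, ?_⟩
    · constructor
      · intro e
        exact Subset.antisymm ((IMG_sub h hb).1 e.subset) ((IMG_sub h hb').1 e.symm.subset)
      · rintro rfl
        rfl
    · rw [Set.disjoint_left, Set.disjoint_left]
      constructor
      · intro hd x hx hx'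
        obtain ⟨y, hy⟩ := hb x hx
        exact hd ⟨x, hx, hy⟩ ⟨x, hx', hy⟩
      · rintro hd y ⟨x, hx, hxy⟩ ⟨x', hx', hxy'⟩
        rw [IMG_u2 h hxy hxy'] at hx
        exact hd hx hx'
    · rintro x (hx | hx)
      · exact hb x hx
      · exact hb' x hx
    · ext y
      constructor
      · rintro ⟨x, hx | hx, hxy⟩
        · exact Or.inl ⟨x, hx, hxy⟩
        · exact Or.inr ⟨x, hx, hxy⟩
      · rintro (⟨x, hx, hxy⟩ | ⟨x, hx, hxy⟩)
        · exact ⟨x, Or.inl hx, hxy⟩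
        · exact ⟨x, Or.inr hx, hxy⟩
  · -- 3
    intro p E h hE
    have hE' : ∀ x ∈ E, (x, x) ∈ p := fun x hx => hE (mem_dg.2 ⟨hx, rfl⟩)
    refine ⟨fun x hx => ⟨x, hE' x hx⟩, ?_⟩
    ext y
    constructor
    · rintro ⟨x, hx, hxy⟩
      rwa [← IMG_u1 h (hE' x hx) hxy]
    · intro hy
      exact ⟨y, hy, hE' y hy⟩
  · -- 4
    intro p k w h hw
    choose w' hw' using fun i => hw (w i) ⟨i, rfl⟩
    refine ⟨w', hw', ?_, ?_⟩
    · ext y
      constructor
      · rintro ⟨i, rfl⟩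
        exact ⟨w i, ⟨i, rfl⟩, hw' i⟩
      · rintro ⟨_, ⟨i, rfl⟩, hxy⟩
        exact ⟨i, IMG_u1 h (hw' i) hxy⟩
    · intro hi i j e
      apply hi
      have h1 := hw' i
      rw [e] at h1
      exact IMG_u2 h h1 (hw' j)
  · -- 5
    intro p β w w' h hw
    refine ⟨?_, ?_⟩
    · rintro _ ⟨i, rfl⟩
      exact ⟨_, hw i⟩
    · ext y
      constructor
      · rintro ⟨_, ⟨i, rfl⟩, hxy⟩
        exact ⟨i, IMG_u1 h (hw i) hxy⟩
      · rintro ⟨i, rfl⟩
        exact ⟨w i, ⟨i, rfl⟩, hw i⟩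
  · -- 6
    rintro g D D' p b ⟨h1, h2, h3, h4⟩ hb
    obtain ⟨k, w, hwi, hw⟩ := hb.fin_param
    have h5 : BFR S S D D' (Ordinal.omega0 * g + k) p := by
      refine h4.mono ?_
      rw [mul_add, mul_one]
      gcongr
      exact (Ordinal.nat_lt_omega0 k).le
    refine ⟨fun hbD => ?_, fun hbD => ?_⟩
    · obtain ⟨y, hy, h6⟩ := BFR.forth_many k h5 w fun i => hbD (hw ▸ ⟨i, rfl⟩)
      refine ⟨_, subset_union_left, ⟨h1.union (finite_range _), h2.trans subset_union_left, ?_, h6⟩,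
        ?_⟩
      · rintro a (ha | ⟨i, rfl⟩)
        · exact h3 a ha
        · exact ⟨hbD (hw ▸ ⟨i, rfl⟩), hy i⟩
      · intro x hx
        rw [← hw] at hx
        obtain ⟨i, rfl⟩ := hx
        exact ⟨y i, Or.inr ⟨i, rfl⟩⟩
    · obtain ⟨y, hy, h6⟩ := BFR.back_many k h5 w fun i => hbD (hw ▸ ⟨i, rfl⟩)
      refine ⟨_, range y, subset_union_left,
        ⟨h1.union (finite_range _), h2.trans subset_union_left, ?_, h6⟩, ?_, ?_, ?_⟩
      · rintro a (ha | ⟨i, rfl⟩)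
        · exact h3 a ha
        · exact ⟨hy i, hbD (hw ▸ ⟨i, rfl⟩)⟩
      · rintro _ ⟨i, rfl⟩
        exact hy i
      · rintro _ ⟨i, rfl⟩
        exact ⟨w i, Or.inr ⟨i, rfl⟩⟩
      · rw [← hw]
        ext z
        constructor
        · rintro ⟨_, ⟨i, rfl⟩, hxy⟩
          exact ⟨i, IMG_u1 h6.atEq (Or.inr ⟨i, rfl⟩) hxy⟩
        · rintro ⟨i, rfl⟩
          exact ⟨y i, ⟨i, rfl⟩, Or.inr ⟨i, rfl⟩⟩
  · -- 7
    rintro g D D' p ⟨h1, h2, h3, h4⟩
    refine ⟨h1.preimage Prod.swap_injective.injOn, ?_, ?_, h4.swap⟩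
    · intro a ha
      have h5 := mem_dg.1 ha
      apply h2
      apply mem_dg.2
      simp only [Prod.fst_swap, Prod.snd_swap]
      aesop
    · intro a ha
      exact (h3 _ ha).symm
  · -- 8
    rintro g g' D D' p p' hg ⟨h1, h2, h3, h4⟩ hp hF
    refine ⟨h1.subset hp, hF, fun a ha => h3 a (hp ha), BFR.anti hp (h4.mono ?_)⟩
    gcongr

end HEI
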