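import Pool.Agent.HEI.StG

/-!
# HEI: classes meet neighbourhoods without interior blocks in finite sets (helper33)
-/

set_option autoImplicit false
set_option linter.unusedVariables false

namespace HEI

open Set Pool.Agent.Helper5.DU Pool.Agent.Helper6.Str Pool.Agent.Helper79.VC
  Pool.Agent.Helper97.LO Pool.Agent.Helper97.VC HER HERN

theorem ITA_mul {g : Ordinal.{0}} (hg : g < om1) : Ordinal.omega0 * g < om1 := by
  rw [lt_om1_iff] at hg ⊢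
  rw [Ordinal.card_mul, Ordinal.card_omega0]
  calc Cardinal.aleph0 * g.card ≤ Cardinal.aleph0 * Cardinal.aleph0 := by gcongr
    _ = Cardinal.aleph0 := Cardinal.aleph0_mul_aleph0

theorem thm_ITA (hIMG : St_IMG) (hDDM : St_DDM) (hEQB : St_EQB) (hITS : St_ITS)
    (hDCD : St_DCD) : St_ITA := by
  classical
  intro L M S F T g0 g Ω E n0 b0 d0 hFS hF3 hGp hEf hEX hU
  by_contra hfin
  have hinf : {c | T.V n0 b0 c ∧ Fr T Ω E c ∧ Eb S F T Ω g E d0 c}.Infinite := hfin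
  obtain ⟨i1, i2, i3, i4, i5, i6, i7, i8⟩ := hIMG L M S F
  obtain ⟨d1, d2, d3, d4, d5, d6, d7, d8, d9⟩ := hDDM L M S F T g0 hFS
  obtain ⟨e1, e2, e3, e4, e5, e6, e7, e8, e9, e10, e11, e12⟩ :=
    hEQB L M S F T g0 g Ω E hFS hGp hEf hEX
  have its := hITS L M S F T g0 g Ω E n0 b0 hFS hF3 hGp hEf hEX hU
  obtain ⟨⟨hgg, hgo, hΩc, hΩU, hΩv⟩, hperf⟩ := hGp
  obtain ⟨c, hcinj, hc⟩ : ∃ c : ℕ → Set M, Function.Injective c ∧
      ∀ i, T.V n0 b0 (c i) ∧ Fr T Ω E (c i) ∧ Eb S F T Ω g E d0 (c i) :=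
    ⟨fun i => (hinf.natEmbedding _ i : Set M),
      fun i j h => (hinf.natEmbedding _).injective (Subtype.ext h),
      fun i => (hinf.natEmbedding _ i).2⟩
  -- a block of the neighbourhood which is not equivalent
  obtain ⟨b1, hb1V, hb1F, hb1E⟩ := ((its (c 0) (hc 0).1 (hc 0).2.1).2 n0 d0).nonempty
  have hb0b1 : T.V n0 b0 b1 := hFS.vt n0 _ _ _ (hc 0).1 hb1V
  -- the set `D_0`
  have hQ : ∀ b ∈ T.Bk, ¬ b ⊆ Ω → ∀ n,
      {d | d ∈ {d | ¬ (T.V n0 b0 d ∧ Fr T Ω E d ∧ Eb S F T Ω g E d0 d)} ∧ T.V n b d ∧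
        ¬ d ⊆ Ω}.Infinite := by
    intro b hb hbΩ n
    by_cases hA : ∃ d, T.V n0 b0 d ∧ Fr T Ω E d ∧ T.V (max n n0) b d
    · obtain ⟨d, h1, h2, h3⟩ := hA
      refine ((its d h1 h2).2 (max n n0) d0).mono ?_
      rintro e ⟨h4, h5, h6⟩
      refine ⟨fun h => h6 h.2.2, ?_, h5.2.1⟩
      exact hFS.vd n _ _ _ (le_max_left _ _) (hFS.vt _ _ _ _ h3 h4)
    · refine (hperf b hb hbΩ (max n n0)).mono ?_
      rintro e ⟨h4, h5⟩
      exact ⟨fun h => hA ⟨e, h.1, h.2.1, h4⟩, hFS.vd n _ _ _ (le_max_left _ _) h4, h5⟩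
  obtain ⟨D0, hD0, hD0Q⟩ := d6 Ω _ hΩc hΩU hQ
  set Eh : Set (Set M) := {b | b ∈ T.Bk ∧ ¬ Disjoint b E} with hEh
  have hEhf : Eh.Finite := d9 E hEf
  set CN : Set ℕ → Set (Set M) := fun N => Eh ∪ {b1} ∪ c '' N with hCN
  set D : Set ℕ → Set M := fun N => D0 ∪ ⋃₀ (CN N) with hD
  have hCNc : ∀ N, (CN N).Countable := fun N =>
    (hEhf.countable.union (countable_singleton _)).union ((to_countable N).image c)
  have hCNB : ∀ N, CN N ⊆ T.Bk := by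
    rintro N b ((hb | hb) | ⟨i, -, rfl⟩)
    · exact hb.1
    · rw [mem_singleton_iff] at hb
      rw [hb]
      exact hb1F.1
    · exact (hc i).2.1.1
  have hDD : ∀ N, DD T Ω (D N) := fun N => d1 Ω D0 (CN N) hD0 (hCNc N) (hCNB N)
  have hAΩ : T.A ⊆ Ω := hΩU.1
  have hΩD0 : Ω ⊆ D0 := hD0.2.2.1
  have hED : ∀ N, E ⊆ D N := by
    intro N x hx
    rcases hEX hx with h | ⟨b, hb, hxb⟩
    · exact Or.inl (hΩD0 (hAΩ h))
    · refine Or.inr ⟨b, Or.inl (Or.inl ⟨hb, ?_⟩), hxb⟩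
      exact fun h => Set.disjoint_left.1 h hxb hx
  have hb1D : ∀ N, b1 ⊆ D N := fun N x hx => Or.inr ⟨b1, Or.inl (Or.inr rfl), hx⟩
  have hcD : ∀ N, ∀ i ∈ N, c i ⊆ D N := fun N i hi x hx =>
    Or.inr ⟨c i, Or.inr ⟨i, hi, rfl⟩, hx⟩
  -- the blocks of the class in `D N`
  have hcls : ∀ N, ∀ d ∈ T.Bk, d ⊆ D N → T.V n0 b0 d → Fr T Ω E d → Eb S F T Ω g E d0 d →
      ∃ i ∈ N, d = c i := by
    intro N d hd hdD h1 h2 h3
    obtain ⟨x, hx⟩ := (hFS.fin d hd).2.1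
    rcases hdD hx with h | ⟨b, hb, hxb⟩
    · exfalso
      have h4 : d ⊆ D0 := hD0.2.1.2.2 d hd ⟨x, hx, h⟩
      rcases hD0Q d hd h4 with h5 | h5
      · exact h2.2.1 h5
      · exact h5 ⟨h1, h2, h3⟩
    · have hdb : d = b := hFS.dis d hd b (hCNB N hb) ⟨x, hx, hxb⟩
      rcases hb with (hb | hb) | ⟨i, hi, hib⟩
      · exfalso
        rw [← hdb] at hb
        exact hb.2 h2.2.2
      · exfalso
        rw [mem_singleton_iff] at hb
        rw [hdb, hb] at h3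
        exact hb1E h3
      · exact ⟨i, hi, hdb.trans hib.symm⟩
  -- decoding
  refine hDCD L M S F T g0 0 (fun i _ => c i) (F ∪ E ∪ b1) (Ordinal.omega0 * g) D hFS
    (fun i a => (hc i).2.1.1) ?_ ?_ ?_ (ITA_mul hgo) ?_ ?_
  · intro i a j b h
    refine ⟨?_, Fin.ext (by have h1 := a.2; have h2 := b.2; omega)⟩
    exact (hcinj ((its (c i) (hc i).1 (hc i).2.1).1 (c j) h)).symm
  · exact (hFS.ff.union hEf).union (hFS.fin b1 hb1F.1).1
  · exact fun x hx => Or.inl (Or.inl hx)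
  · intro N hN
    refine ⟨d3 Ω (D N) hΩU (hDD N), ?_, fun i hi a => hcD N i hi⟩
    rintro x ((hx | hx) | hx)
    · exact Or.inl (hΩD0 (hAΩ (hFS.fa hx)))
    · exact hED N hx
    · exact hb1D N hx
  · intro N N' hN hN' p hpf hpG hpD hB i hi hDm
    have hAt : AtEq S S p := hB.atEq
    have hPs : Ps S F g (D N) (D N') p :=
      ⟨hpf, (image_mono fun x hx => Or.inl (Or.inl hx)).trans hpG, hpD, hB⟩
    have hPs0 : Ps S F g0 (D N) (D N') p := i8 g g0 _ _ p p hgg hPs Subset.rfl hPs.2.1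
    have hpE : dg E ⊆ p := (image_mono fun x hx => Or.inl (Or.inr hx)).trans hpG
    have hpb : dg b1 ⊆ p := (image_mono fun x hx => Or.inr hx).trans hpG
    obtain ⟨hDmb, hImb⟩ := i3 p b1 hAt hpb
    obtain ⟨hFc, hEc⟩ := e11 (D N) (D N') p (c i) (hDD N) (hDD N') hPs hpE (hDm 0) (hc i).2.1
    have hV1 : T.V n0 b1 (c i) := hFS.vt n0 _ _ _ (hFS.vs n0 _ _ hb0b1) (hc i).1
    have hV2 := (hFS.vv (D N) (D N') p (d3 Ω _ hΩU (hDD N)) (d3 Ω _ hΩU (hDD N')) hPs0 n0 b1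
      (c i) hDmb (hDm 0)).1 hV1
    rw [hImb] at hV2
    have hsub : Im p (c i) ⊆ D N' := by
      rintro y ⟨x, -, hxy⟩
      exact (hpD _ hxy).2
    obtain ⟨j, hj, hcj⟩ := hcls N' (Im p (c i)) hFc.1 hsub (hFS.vt n0 _ _ _ hb0b1 hV2) hFc
      (e3 _ _ _ (hc i).2.2 hEc)
    refine ⟨j, hj, 1, fun a n => ?_⟩
    rw [hcj]
    exact hFS.vr n _ (hc j).2.1.1

end HEI
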