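import Pool.Agent.HEI.StG

/-!
# HEI, ITB: interior blocks are dense
-/

set_option autoImplicit false
set_option linter.unusedVariables false

namespace HEI

open Set Pool.Agent.Helper5.DU Pool.Agent.Helper6.Str Pool.Agent.Helper79.VC
  Pool.Agent.Helper97.LO Pool.Agent.Helper97.VC HER HERN

theorem ITB_om {g : Ordinal.{0}} (h : g < om1) : Ordinal.omega0 * g < om1 := by
  rw [lt_om1_iff] at h ⊢
  rw [Ordinal.card_mul, Ordinal.card_omega0]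
  exact (Cardinal.mul_le_max_of_aleph0_le_left le_rfl).trans (max_le le_rfl h)

section

variable {L : FirstOrder.Language.{0, 0}} {M : Type} {S : L.Structure M} {F : Set M} {T : Dt M}
  {g0 : Ordinal.{0}}

/-- `Ω` together with a countable set of blocks -/
theorem ITB_DD (hF : FS S F T g0) {Ω : Set M} (hΩ : Ω.Countable) (hU : Un T Ω) {C : Set (Set M)}
    (hC : C.Countable) (hCB : C ⊆ T.Bk)
    (hd : ∀ b ∈ T.Bk, ¬ b ⊆ Ω → ∀ n, {b' | T.V n b b' ∧ ¬ b' ⊆ Ω ∧ b' ∈ C}.Infinite) :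
    DD T Ω (Ω ∪ ⋃₀ C) := by
  refine ⟨hΩ.union (hC.sUnion fun b hb => (hF.fin b (hCB hb)).1.countable), ⟨?_, ?_, ?_⟩,
    subset_union_left, ?_⟩
  · exact hU.1.trans subset_union_left
  · refine union_subset hU.2.1 ?_
    rintro x ⟨b, hb, hx⟩
    exact Or.inr ⟨b, hCB hb, hx⟩
  · rintro b hb ⟨x, hxb, hx⟩
    rcases hx with hx | ⟨c, hc, hxc⟩
    · exact (hU.2.2 b hb ⟨x, hxb, hx⟩).trans subset_union_left
    · have : b = c := hF.dis b hb c (hCB hc) ⟨x, hxb, hxc⟩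
      rw [this]
      exact (subset_sUnion_of_mem hc).trans subset_union_right
  · intro b hb hbΩ n
    refine Or.inl ((hd b hb hbΩ n).mono ?_)
    rintro c ⟨h1, h2, h3⟩
    exact ⟨h1, h2, (subset_sUnion_of_mem h3).trans subset_union_right⟩

theorem ITB_mem (hF : FS S F T g0) {Ω : Set M} (hU : Un T Ω) {C : Set (Set M)} (hCB : C ⊆ T.Bk)
    {c : Set M} (hc : c ∈ T.Bk) (hcΩ : ¬ c ⊆ Ω) (h : c ⊆ Ω ∪ ⋃₀ C) : c ∈ C := by
  obtain ⟨x, hx⟩ := (hF.fin c hc).2.1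
  rcases h hx with h1 | ⟨b, hb, h1⟩
  · exact absurd (hU.2.2 c hc ⟨x, hx, h1⟩) hcΩ
  · rw [hF.dis c hc b (hCB hb) ⟨x, hx, h1⟩]
    exact hb

end

theorem thm_ITB (h1 : St_IMG) (h2 : St_DDM) (h3 : St_RQE) (h4 : St_SEQ) (h5 : St_EQB)
    (h6 : St_ITS) (h7 : St_ITA) (h8 : St_DCD) : St_ITB := by
  intro L M S F T g0 g Ω E n0 b0 hF hF3 hG hE hEX hb0 hb0Ω
  by_contra hno
  push Not at hno
  have hno' : ∀ c, T.V n0 b0 c → Fr T Ω E c → ¬ In S F T Ω g E c := hno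
  obtain ⟨i1, i2, i3, i4, i5, i6, i7, i8⟩ := h1 L M S F
  obtain ⟨d1, d2, d3, d4, d5, d6, d7, d8, d9⟩ := h2 L M S F T g0 hF
  obtain ⟨e1, e2, e3, e4, e5, e6, e7, e8, e9, e10, e11, e12⟩ := h5 L M S F T g0 g Ω E hF hG hE hEX
  have its := h6 L M S F T g0 g Ω E n0 b0 hF hF3 hG hE hEX hno'
  have ita := fun d0 => h7 L M S F T g0 g Ω E n0 b0 d0 hF hF3 hG hE hEX hno'
  have hU : Un T Ω := hG.1.2.2.2.1
  have hΩc : Ω.Countable := hG.1.2.2.1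
  have hg0g : g0 ≤ g := hG.1.1
  have hg1 : g < om1 := hG.1.2.1
  have hEf := d9 E hE
  -- the set `U`
  set U : Set (Set M) := {c | T.V n0 b0 c ∧ Fr T Ω E c} with hUdef
  have hUinf : U.Infinite := by
    have h := (hG.2 b0 hb0 hb0Ω n0).sdiff hEf
    refine h.mono ?_
    rintro c ⟨⟨hc1, hc2⟩, hc3⟩
    have hcB : c ∈ T.Bk := (hF.vm _ _ _ hc1).2.1
    refine ⟨hc1, hcB, hc2, ?_⟩
    by_contra hc4
    exact hc3 ⟨hcB, hc4⟩
  have hUfin : ∀ d0, {c | c ∈ U ∧ Eb S F T Ω g E d0 c}.Finite := by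
    intro d0
    refine (ita d0).subset ?_
    rintro c ⟨⟨hc1, hc2⟩, hc3⟩
    exact ⟨hc1, hc2, hc3⟩
  obtain ⟨b1, hb1⟩ := hUinf.nonempty
  obtain ⟨q, hq1, hq2⟩ := h3 L M S F T g0 Ω hF ⟨b0, hb0, hb0Ω⟩
  -- the choice
  let P : ℕ → Set (Set M × Set M) → Set M × Set M → Prop := fun s X a =>
    T.V (q s).1 (q s).2 a.1 ∧ ¬ a.1 ⊆ Ω ∧ (∀ x ∈ X, a.1 ≠ x.1) ∧
    (∀ x ∈ X, ¬ (a.1 ∈ U ∧ Eb S F T Ω g E x.2 a.1)) ∧ a.2 ∈ U ∧ ¬ Eb S F T Ω g E b1 a.2 ∧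
    (∀ x ∈ X, ¬ Eb S F T Ω g E x.2 a.2) ∧ (∀ x ∈ X, ¬ Eb S F T Ω g E x.1 a.2) ∧
    ¬ Eb S F T Ω g E a.1 a.2
  have hP : ∀ n X, X.Finite → ∃ a, P n X a := by
    intro s X hX
    have k1 := hG.2 (q s).2 (hq1 s).1 (hq1 s).2 (q s).1
    have k2 : (Prod.fst '' X ∪ ⋃ x ∈ X, {c | c ∈ U ∧ Eb S F T Ω g E x.2 c}).Finite :=
      (hX.image _).union (hX.biUnion fun x _ => hUfin x.2)
    obtain ⟨d, ⟨hd1, hd2⟩, hd3⟩ := (k1.sdiff k2).nonempty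
    have k3 : ({c | c ∈ U ∧ Eb S F T Ω g E b1 c} ∪ ({c | c ∈ U ∧ Eb S F T Ω g E d c} ∪
        ((⋃ x ∈ X, {c | c ∈ U ∧ Eb S F T Ω g E x.2 c}) ∪
          ⋃ x ∈ X, {c | c ∈ U ∧ Eb S F T Ω g E x.1 c}))).Finite :=
      (hUfin b1).union ((hUfin d).union ((hX.biUnion fun x _ => hUfin x.2).union
        (hX.biUnion fun x _ => hUfin x.1)))
    obtain ⟨c, hc1, hc2⟩ := (hUinf.sdiff k3).nonempty
    refine ⟨(d, c), hd1, hd2, fun x hx hh => hd3 (Or.inl ⟨x, hx, hh.symm⟩), fun x hx hh =>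
      hd3 (Or.inr (mem_biUnion hx hh)), hc1, fun hh => hc2 (Or.inl ⟨hc1, hh⟩), fun x hx hh =>
      hc2 (Or.inr (Or.inr (Or.inl (mem_biUnion hx ⟨hc1, hh⟩)))), fun x hx hh =>
      hc2 (Or.inr (Or.inr (Or.inr (mem_biUnion hx ⟨hc1, hh⟩)))), fun hh =>
      hc2 (Or.inr (Or.inl ⟨hc1, hh⟩))⟩
  obtain ⟨s, hs⟩ := h4 _ P hP
  have hs1 : ∀ i, T.V (q i).1 (q i).2 (s i).1 := fun i => (hs i).1
  have hs2 : ∀ i, ¬ (s i).1 ⊆ Ω := fun i => (hs i).2.1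
  have hs3 : ∀ i j, j < i → (s i).1 ≠ (s j).1 := fun i j hij => (hs i).2.2.1 _ ⟨j, hij, rfl⟩
  have hs4 : ∀ i j, j < i → ¬ ((s i).1 ∈ U ∧ Eb S F T Ω g E (s j).2 (s i).1) :=
    fun i j hij => (hs i).2.2.2.1 _ ⟨j, hij, rfl⟩
  have hs5 : ∀ i, (s i).2 ∈ U := fun i => (hs i).2.2.2.2.1
  have hs6 : ∀ i, ¬ Eb S F T Ω g E b1 (s i).2 := fun i => (hs i).2.2.2.2.2.1
  have hs7 : ∀ i j, j < i → ¬ Eb S F T Ω g E (s j).2 (s i).2 :=
    fun i j hij => (hs i).2.2.2.2.2.2.1 _ ⟨j, hij, rfl⟩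
  have hs8 : ∀ i j, j < i → ¬ Eb S F T Ω g E (s j).1 (s i).2 :=
    fun i j hij => (hs i).2.2.2.2.2.2.2.1 _ ⟨j, hij, rfl⟩
  have hs9 : ∀ i, ¬ Eb S F T Ω g E (s i).1 (s i).2 := fun i => (hs i).2.2.2.2.2.2.2.2
  have hd_inj : Function.Injective fun i => (s i).1 := by
    intro i j hij
    rcases lt_trichotomy i j with h | h | h
    · exact absurd hij.symm (hs3 j i h)
    · exact h
    · exact absurd hij (hs3 i j h)
  have hsB : ∀ i, (s i).1 ∈ T.Bk := fun i => (hF.vm _ _ _ (hs1 i)).2.1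
  have hcB : ∀ i, (s i).2 ∈ T.Bk := fun i => (hs5 i).2.1
  -- the sets `D N`
  let C : Set ℕ → Set (Set M) := fun N =>
    {b | b ∈ T.Bk ∧ ¬ Disjoint b E} ∪ ({b1} ∪ (range (fun i => (s i).1) ∪ (fun i => (s i).2) '' N))
  have hCB : ∀ N, C N ⊆ T.Bk := by
    intro N
    rintro b (hb | hb | ⟨i, rfl⟩ | ⟨i, _, rfl⟩)
    · exact hb.1
    · rw [mem_singleton_iff] at hb
      rw [hb]; exact hb1.2.1
    · exact hsB i
    · exact hcB i
  have hCc : ∀ N, (C N).Countable := fun N =>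
    hEf.countable.union ((countable_singleton b1).union ((countable_range _).union
      ((Set.to_countable N).image _)))
  have hD : ∀ N, DD T Ω (Ω ∪ ⋃₀ C N) := by
    intro N
    refine ITB_DD hF hΩc hU (hCc N) (hCB N) ?_
    intro b hb hbΩ n
    have k1 := (hq2 n b hb hbΩ).image (f := fun i => (s i).1) hd_inj.injOn
    refine k1.mono ?_
    rintro _ ⟨i, ⟨hi1, hi2⟩, rfl⟩
    refine ⟨hF.vt _ _ _ _ hi2 ?_, hs2 i, Or.inr (Or.inr (Or.inl ⟨i, rfl⟩))⟩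
    have k2 := hs1 i
    rwa [hi1] at k2
  have hED : ∀ N, E ⊆ Ω ∪ ⋃₀ C N := by
    intro N x hx
    rcases hEX hx with h | ⟨b, hb, hxb⟩
    · exact Or.inl (hU.1 h)
    · exact Or.inr ⟨b, Or.inl ⟨hb, fun hdis => disjoint_left.mp hdis hxb hx⟩, hxb⟩
  refine h8 L M S F T g0 0 (fun i _ => (s i).2) (F ∪ (E ∪ b1)) (Ordinal.omega0 * g)
    (fun N => Ω ∪ ⋃₀ C N) hF (fun i _ => hcB i) ?_ ?_ subset_union_left (ITB_om hg1) ?_ ?_
  · intro i a j b hab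
    refine ⟨?_, Fin.ext (by omega)⟩
    have hth := (its (s i).2 (hs5 i).1 (hs5 i).2).1 _ hab
    rcases lt_trichotomy i j with h | h | h
    · exact absurd (by rw [hth]; exact e1 _ (hs5 i).2) (hs7 j i h)
    · exact h
    · exact absurd (by rw [hth]; exact e1 _ (hs5 i).2) (hs7 i j h)
  · exact hF.ff.union (hE.union (hF.fin b1 hb1.2.1).1)
  · intro N hN
    refine ⟨d3 Ω _ hU (hD N), ?_, ?_⟩
    · refine union_subset (hF.fa.trans (hU.1.trans subset_union_left)) (union_subset (hED N) ?_)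
      exact (subset_sUnion_of_mem (Or.inr (Or.inl rfl))).trans subset_union_right
    · intro i hi _
      exact (subset_sUnion_of_mem (Or.inr (Or.inr (Or.inr ⟨i, hi, rfl⟩)))).trans subset_union_right
  · intro N N' hN hN' p hp hGp hpD hbf i hi hdm
    have hdg : ∀ {A B : Set M}, A ⊆ B → dg A ⊆ dg B := fun h => image_mono h
    have hPs : Ps S F g (Ω ∪ ⋃₀ C N) (Ω ∪ ⋃₀ C N') p :=
      ⟨hp, (hdg subset_union_left).trans hGp, hpD, hbf⟩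
    have hPs0 : Ps S F g0 (Ω ∪ ⋃₀ C N) (Ω ∪ ⋃₀ C N') p :=
      i8 g g0 _ _ p p hg0g hPs Subset.rfl hPs.2.1
    have hat : AtEq S S p := hbf.atEq
    have hdE : dg E ⊆ p := (hdg (subset_union_left.trans subset_union_right)).trans hGp
    have hdb : dg b1 ⊆ p := (hdg (subset_union_right.trans subset_union_right)).trans hGp
    obtain ⟨hm1, hm2⟩ := i3 p b1 hat hdb
    have hdi : Dm p (s i).2 := hdm 0
    obtain ⟨hfr, heb⟩ := e11 _ _ p (s i).2 (hD N) (hD N') hPs hdE hdi (hs5 i).2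
    have hv : T.V n0 b1 (Im p (s i).2) := by
      have k1 := (hF.vv _ _ p (d3 Ω _ hU (hD N)) (d3 Ω _ hU (hD N')) hPs0 n0 b1 (s i).2 hm1 hdi).1
        (hF.vt _ _ _ _ (hF.vs _ _ _ hb1.1) (hs5 i).1)
      rwa [hm2] at k1
    have hv0 : T.V n0 b0 (Im p (s i).2) := hF.vt _ _ _ _ hb1.1 hv
    have hsub : Im p (s i).2 ⊆ Ω ∪ ⋃₀ C N' := by
      rintro y ⟨x, _, hxy⟩
      exact (hpD _ hxy).2
    have hmem := ITB_mem hF hU (hCB N') hfr.1 hfr.2.1 hsub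
    rcases hmem with hb | hb | ⟨j, hj⟩ | ⟨j, hjN, hj⟩
    · exact absurd hfr.2.2 hb.2
    · rw [mem_singleton_iff] at hb
      rw [hb] at heb
      exact absurd (e2 _ _ heb) (hs6 i)
    · exfalso
      have hj' : (s j).1 = Im p (s i).2 := hj
      rw [← hj'] at heb hfr hv0
      rcases lt_trichotomy i j with h | h | h
      · exact hs4 j i h ⟨⟨hv0, hfr⟩, heb⟩
      · rw [← h] at heb
        exact hs9 i (e2 _ _ heb)
      · exact hs8 i j h (e2 _ _ heb)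
    · refine ⟨j, hjN, Equiv.refl _, fun a n => ?_⟩
      have hj' : (s j).2 = Im p (s i).2 := hj
      show T.V n (Im p (s i).2) (s j).2
      rw [← hj']
      exact hF.vr n _ (hcB j)

end HEI
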