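import Pool.Agent.HEI.StG

/-!
# HEI ITD: infinitely many interior blocks
-/

set_option autoImplicit false
set_option linter.unusedVariables false

namespace HEI

open Set Pool.Agent.Helper5.DU Pool.Agent.Helper6.Str Pool.Agent.Helper79.VC
  Pool.Agent.Helper97.LO Pool.Agent.Helper97.VC HER HERN

theorem thm_ITD (hD : St_DDM) (hE : St_EQB) (hI : St_ITB) : St_ITD := by
  intro L M S F T g0 g Ω E n b hFS hF3 hGp hEf hEX hb hbΩ hY
  obtain ⟨-, -, -, -, -, -, -, -, h9⟩ := hD L M S F T g0 hFS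
  obtain ⟨-, -, -, -, -, -, -, -, -, h10, -, -⟩ := hE L M S F T g0 g Ω E hFS hGp hEf hEX
  have hinf := hGp.2 b hb hbΩ n
  have hZ : {b' | T.V n b b' ∧ Fr T Ω E b'}.Infinite := by
    have h1 : ({b' | T.V n b b' ∧ ¬ b' ⊆ Ω} \ {b | b ∈ T.Bk ∧ ¬ Disjoint b E}).Infinite :=
      hinf.sdiff (h9 E hEf)
    refine h1.mono ?_
    rintro c ⟨⟨hc1, hc2⟩, hc3⟩
    have hcB := (hFS.vm n b c hc1).2.1
    refine ⟨hc1, hcB, hc2, ?_⟩
    by_contra hcon
    exact hc3 ⟨hcB, hcon⟩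
  apply hZ
  refine hY.subset ?_
  rintro b' ⟨h1, h2⟩
  refine ⟨h1, ?_⟩
  have hch : ∀ m : ℕ, ∃ c, T.V (max m n) b' c ∧ c ∈ {c | T.V n b c ∧ In S F T Ω g E c} := by
    intro m
    obtain ⟨c, hc1, hc2, hc3⟩ :=
      hI L M S F T g0 g Ω E (max m n) b' hFS hF3 hGp hEf hEX h2.1 h2.2.1
    exact ⟨c, hc1, hFS.vt n b b' c h1 (hFS.vd n (max m n) b' c (le_max_right _ _) hc1), hc3⟩
  choose f hf1 hf2 using hch
  have : Finite {c | T.V n b c ∧ In S F T Ω g E c} := hY.to_subtype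
  obtain ⟨y, hy⟩ := Finite.exists_infinite_fiber
    (fun m : ℕ => (⟨f m, hf2 m⟩ : {c | T.V n b c ∧ In S F T Ω g E c}))
  have hy' := Set.infinite_coe_iff.mp hy
  have hall : ∀ m, T.V m b' y.1 := by
    intro m
    obtain ⟨k, hk1, hk2⟩ := hy'.exists_gt m
    have hk3 : f k = y.1 := congrArg Subtype.val hk1
    have h3 := hf1 k
    rw [hk3] at h3
    exact hFS.vd m (max k n) b' y.1 (hk2.le.trans (le_max_left _ _)) h3
  exact h10 y.1 b' (fun m => hFS.vs m b' y.1 (hall m)) y.2.2 h2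

end HEI
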