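import Pool.Agent.HEI.StG

/-!
# HEI [ITS]: neighbourhoods without interior blocks (helper34)
-/

set_option autoImplicit false
set_option linter.unusedVariables false

namespace HEI

open Set Pool.Agent.Helper5.DU Pool.Agent.Helper6.Str Pool.Agent.Helper79.VC
  Pool.Agent.Helper97.LO Pool.Agent.Helper97.VC HER HERN

/-- [ITS] -/
theorem thm_ITS (hDDM : St_DDM) (hEQB : St_EQB) : St_ITS := by
  intro L M S F T g0 g Ω E n0 b0 hFS hF3 hGp hE hEX hU
  obtain ⟨-, e2, e3, -, -, -, -, e8, -⟩ := hEQB L M S F T g0 g Ω E hFS hGp hE hEX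
  obtain ⟨-, -, -, -, -, -, -, -, d9⟩ := hDDM L M S F T g0 hFS
  have hfin := d9 E hE
  have hth : ∀ c, T.V n0 b0 c → Fr T Ω E c → Th T c := by
    intro c hc hF
    rcases hF3 c hF.1 with h | h
    · exact h
    · exact absurd (e8 c h hF) (hU c hc hF)
  intro c hc hF
  refine ⟨hth c hc hF, ?_⟩
  have main : ∀ n d0, n0 ≤ n →
      {d | T.V n c d ∧ Fr T Ω E d ∧ ¬ Eb S F T Ω g E d0 d}.Infinite := by
    intro n d0 hn hY
    have hinf : {d | T.V n c d ∧ ¬ d ⊆ Ω}.Infinite := hGp.2 c hF.1 hF.2.1 n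
    obtain ⟨c1, hc1, hc1'⟩ := (hinf.sdiff (hY.union hfin)).nonempty
    have hVc1 : T.V n c c1 := hc1.1
    have hFc1 : Fr T Ω E c1 := by
      refine ⟨(hFS.vm n c c1 hVc1).2.1, hc1.2, ?_⟩
      by_contra hd
      exact hc1' (Or.inr ⟨(hFS.vm n c c1 hVc1).2.1, hd⟩)
    have hEc1 : Eb S F T Ω g E d0 c1 := by
      by_contra he
      exact hc1' (Or.inl ⟨hVc1, hFc1, he⟩)
    have hVb : T.V n0 b0 c1 := hFS.vt n0 b0 c c1 hc (hFS.vd n0 n c c1 hn hVc1)
    have ht := hth c1 hVb hFc1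
    have hsep : ∀ y ∈ {d | T.V n c d ∧ Fr T Ω E d ∧ ¬ Eb S F T Ω g E d0 d},
        ∃ k, ¬ T.V k c1 y := by
      intro y hy
      by_contra hcon
      push Not at hcon
      have := ht y hcon
      rw [this] at hy
      exact hy.2.2 hEc1
    choose! κ hκ using hsep
    obtain ⟨K, hK⟩ := (hY.image κ).bddAbove
    refine hU c1 hVb hFc1 ⟨hFc1, max n K, ?_⟩
    intro d hVd hFd
    have hd : d ∉ {d | T.V n c d ∧ Fr T Ω E d ∧ ¬ Eb S F T Ω g E d0 d} := by
      intro hd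
      refine hκ d hd (hFS.vd (κ d) (max n K) c1 d ?_ hVd)
      exact le_trans (hK (mem_image_of_mem κ hd)) (le_max_right _ _)
    have hVcd : T.V n c d := hFS.vt n c c1 d hVc1 (hFS.vd n (max n K) c1 d (le_max_left _ _) hVd)
    have hEd : Eb S F T Ω g E d0 d := by
      by_contra he
      exact hd ⟨hVcd, hFd, he⟩
    exact e3 c1 d0 d (e2 d0 c1 hEc1) hEd
  intro n d0
  refine (main (max n n0) d0 (le_max_right _ _)).mono ?_
  rintro d ⟨h1, h2, h3⟩
  exact ⟨hFS.vd n (max n n0) c d (le_max_left _ _) h1, h2, h3⟩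

end HEI
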