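import Pool.Agent.HEI.StH

/-!
# HEI: minimal bad sets (helper94)
-/

set_option autoImplicit false
set_option linter.unusedVariables false

namespace HEI

open Set Pool.Agent.Helper5.DU Pool.Agent.Helper6.Str Pool.Agent.Helper79.VC
  Pool.Agent.Helper97.LO Pool.Agent.Helper97.VC HER HERN

theorem thm_MNX (hD : St_DDM) (hX : St_EXG) : St_MNX := by
  intro L M S F T g0 g Ω a Z hF h3 hG ha haΩ hM z hz
  obtain ⟨⟨hZf, hZb, z0, hz0, hB0⟩, hmin⟩ := hM
  by_cases hzz : z = z0
  · rw [hzz]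
    exact hB0
  obtain ⟨-, -, -, -, hD5, -⟩ := hD L M S F T g0 hF
  have hUn : Un T Ω := hG.1.2.2.2.1
  obtain ⟨E, hE⟩ : ∃ E : Set M, E = a ∪ ⋃₀ (Z \ {z0, z}) := ⟨_, rfl⟩
  have hEf : E.Finite := by
    rw [hE]
    exact ha.union ((hZf.subset diff_subset).sUnion fun c hc => (hF.fin c (hZb c hc.1).1).1)
  have hEX : E ⊆ T.X := by
    rw [hE]
    refine union_subset (haΩ.trans hUn.2.1) (sUnion_subset fun c hc => ?_)
    exact (subset_sUnion_of_mem (hZb c hc.1).1).trans subset_union_right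
  have hfr : ∀ c ∈ Z, (c = z0 ∨ c = z) → Fr T Ω E c := by
    intro c hc hcz
    refine ⟨(hZb c hc).1, (hZb c hc).2, ?_⟩
    have h1 : Disjoint c Ω := (hD5 Ω c hUn (hZb c hc).1).1 (hZb c hc).2
    rw [hE, disjoint_union_right]
    refine ⟨h1.mono_right haΩ, ?_⟩
    rw [disjoint_sUnion_right]
    intro d hd
    by_contra hcd
    rw [not_disjoint_iff_nonempty_inter] at hcd
    have h2 := hF.dis c (hZb c hc).1 d (hZb d hd.1).1 hcd
    apply hd.2
    rw [← h2]
    rcases hcz with h | h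
    · rw [h]; exact mem_insert _ _
    · rw [h]; exact mem_insert_of_mem _ rfl
  have hu1 : E ∪ z = a ∪ ⋃₀ (Z \ {z0}) := by
    rw [hE, union_assoc]
    congr 1
    ext x
    constructor
    · rintro (⟨c, hc, hx⟩ | hx)
      · exact ⟨c, ⟨hc.1, fun h => hc.2 (by rw [mem_singleton_iff] at h; rw [h]; exact mem_insert _ _)⟩,
          hx⟩
      · exact ⟨z, ⟨hz, hzz⟩, hx⟩
    · rintro ⟨c, hc, hx⟩
      by_cases h : c = z
      · right; rw [← h]; exact hx
      · left
        refine ⟨c, ⟨hc.1, ?_⟩, hx⟩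
        rintro (h1 | h1)
        · exact hc.2 h1
        · exact h h1
  have hu2 : E ∪ z0 = a ∪ ⋃₀ (Z \ {z}) := by
    rw [hE, union_assoc]
    congr 1
    ext x
    constructor
    · rintro (⟨c, hc, hx⟩ | hx)
      · exact ⟨c, ⟨hc.1, fun h => hc.2 (by
          rw [mem_singleton_iff] at h; rw [h]; exact mem_insert_of_mem _ rfl)⟩, hx⟩
      · exact ⟨z0, ⟨hz0, fun h => hzz (Eq.symm h)⟩, hx⟩
    · rintro ⟨c, hc, hx⟩
      by_cases h : c = z0
      · right; rw [← h]; exact hx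
      · left
        refine ⟨c, ⟨hc.1, ?_⟩, hx⟩
        rintro (h1 | h1)
        · exact h h1
        · exact hc.2 h1
  have hnb : ¬ Bz S F T Ω E z0 := by
    intro hb
    have h1 : Bd S F T Ω a (Z \ {z}) := by
      refine ⟨hZf.subset diff_subset, fun c hc => hZb c hc.1, z0, ⟨hz0, fun h => hzz (Eq.symm h)⟩, ?_⟩
      have h2 : (Z \ {z}) \ {z0} = Z \ {z0, z} := by
        ext c
        constructor
        · rintro ⟨⟨h3, h4⟩, h5⟩
          refine ⟨h3, ?_⟩
          rintro (h6 | h6)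
          · exact h5 h6
          · exact h4 h6
        · rintro ⟨h3, h4⟩
          exact ⟨⟨h3, fun h => h4 (mem_insert_of_mem _ h)⟩, fun h => h4 (by
            rw [mem_singleton_iff] at h; rw [h]; exact mem_insert _ _)⟩
      rw [h2, ← hE]
      exact hb
    have h2 := hmin _ diff_subset h1
    rw [← h2] at hz
    exact hz.2 rfl
  have h1 := hX L M S F T g0 g Ω E z0 z hF h3 hG hEf hEX (hfr z0 hz0 (Or.inl rfl))
    (hfr z hz (Or.inr rfl)) (fun h => hzz h.symm) hnb (by rw [hu1]; exact hB0)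
  rw [hu2] at h1
  exact h1

end HEI
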