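import Pool.Agent.HEI.StE

/-!
# HEI [MUL]: only finitely many types of blocks which are neither thin nor isolated
-/

set_option autoImplicit false
set_option linter.unusedVariables false

namespace HEI

open Set Pool.Agent.Helper5.DU Pool.Agent.Helper6.Str Pool.Agent.Helper79.VC
  Pool.Agent.Helper97.LO Pool.Agent.Helper97.VC HER HERN

namespace MUL

variable {L : FirstOrder.Language.{0, 0}} {M : Type} {S : L.Structure M} {F : Set M} {T : Dt M}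
  {g0 : Ordinal.{0}}

/-- the type of a block -/
def ty (T : Dt M) (b : Set M) : Set (Set M) := {c | ∀ n, T.V n b c}

theorem ty_eq (h : FS S F T g0) {b c : Set M} (hbc : ∀ n, T.V n b c) : ty T b = ty T c := by
  ext d
  exact ⟨fun hd n => h.vt n c b d (h.vs n b c (hbc n)) (hd n),
    fun hd n => h.vt n b c d (hbc n) (hd n)⟩

theorem mem_of_ty_eq (h : FS S F T g0) {b c : Set M} (hc : c ∈ T.Bk) (hbc : ty T b = ty T c) :
    ∀ n, T.V n b c := by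
  have h1 : c ∈ ty T c := fun n => h.vr n c hc
  rw [← hbc] at h1
  exact h1

theorem is_congr (h : FS S F T g0) {b c : Set M} (hbc : ∀ n, T.V n b c) (hb : Is T b) :
    Is T c := by
  obtain ⟨n, hn⟩ := hb
  exact ⟨n, fun d hd m => h.vt m c b d (h.vs m b c (hbc m))
    (hn d (h.vt n b c d (hbc n) hd) m)⟩

theorem cla (h : FS S F T g0) (rp : Set (Set M) → Set M)
    (hrp : ∀ b ∈ T.Bk, ∀ n, T.V n b (rp (ty T b))) (Q : Set (Set M))
    (hQ : ∀ b, b ∈ Q ↔ b ∈ T.Bk ∧ (Is T b ∨ b = rp (ty T b))) (n : ℕ) (b : Set M)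
    (hf : {c | c ∈ Q ∧ T.V n b c}.Finite) (c : Set M) (hc : T.V n b c) : c ∈ Q := by
  have hcB : c ∈ T.Bk := (h.vm n b c hc).2.1
  have h1 : ∀ r : Set M, ∃ m, T.V m c r → ∀ m', T.V m' c r := by
    intro r
    by_cases h2 : ∀ m', T.V m' c r
    · exact ⟨0, fun _ => h2⟩
    · push Not at h2
      obtain ⟨m, hm⟩ := h2
      exact ⟨m, fun h3 => absurd h3 hm⟩
  choose f hf' using h1
  refine (hQ c).2 ⟨hcB, Or.inl ⟨max n (hf.toFinset.sup f), fun b' hb' m => ?_⟩⟩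
  have hb'B : b' ∈ T.Bk := (h.vm _ _ _ hb').2.1
  have hr := hrp b' hb'B
  set r := rp (ty T b') with hrdef
  have hrB : r ∈ T.Bk := (h.vm _ _ _ (hr 0)).2.1
  have hty : ty T b' = ty T r := ty_eq h hr
  have hrQ : r ∈ Q := (hQ r).2 ⟨hrB, Or.inr (by rw [← hty])⟩
  have hrP : r ∈ {c | c ∈ Q ∧ T.V n b c} := by
    refine ⟨hrQ, h.vt n b c r hc (h.vt n c b' r ?_ (hr n))⟩
    exact h.vd n _ c b' (le_max_left _ _) hb'
  have hle : f r ≤ max n (hf.toFinset.sup f) :=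
    le_trans (Finset.le_sup (f := f) (hf.mem_toFinset.2 hrP)) (le_max_right _ _)
  have h3 : T.V (f r) c r := h.vt _ c b' r (h.vd _ _ c b' hle hb') (hr _)
  exact h.vt m c r b' (hf' r h3 m) (h.vs m b' r (hr m))

theorem exK (h : FS S F T g0) (Q : Set (Set M))
    (hQ : ∀ n b, {c | c ∈ Q ∧ T.V n b c}.Finite → ∀ c, T.V n b c → c ∈ Q) :
    ∃ K : Set (Set M), K.Countable ∧ K ⊆ Q ∧ (∀ c ∈ K, c ∈ T.Bk) ∧ ∀ n, ∀ b ∈ T.Bk,
      (∀ c, T.V n b c → c ∈ K) ∨ {c | c ∈ K ∧ T.V n b c}.Infinite := by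
  have h1 : ∀ (n : ℕ) (r : Set M), ∃ K0 : Set (Set M), K0.Countable ∧
      K0 ⊆ {c | c ∈ Q ∧ T.V n r c} ∧ ((∀ c, T.V n r c → c ∈ K0) ∨ K0.Infinite) := by
    intro n r
    by_cases h2 : {c | c ∈ Q ∧ T.V n r c}.Finite
    · exact ⟨_, h2.countable, subset_rfl, Or.inl fun c hc => ⟨hQ n r h2 c hc, hc⟩⟩
    · have h3 : {c | c ∈ Q ∧ T.V n r c}.Infinite := h2
      refine ⟨range fun i => (Set.Infinite.natEmbedding _ h3 i : Set M), countable_range _, ?_,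
        Or.inr ?_⟩
      · rintro _ ⟨i, rfl⟩
        exact (Set.Infinite.natEmbedding _ h3 i).2
      · exact infinite_range_of_injective
          (Subtype.val_injective.comp (Set.Infinite.natEmbedding _ h3).injective)
  choose K0 hK1 hK2 hK3 using h1
  choose R hR1 hR2 using h.vf
  refine ⟨⋃ n, ⋃ k, ⋃ r ∈ R n k, K0 n r, ?_, ?_, ?_, ?_⟩
  · refine countable_iUnion fun n => countable_iUnion fun k => ?_
    exact (hR1 n k).countable.biUnion fun r _ => hK1 n r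
  · intro c hc
    simp only [mem_iUnion] at hc
    obtain ⟨n, k, r, hr, hc⟩ := hc
    exact (hK2 n r hc).1
  · intro c hc
    simp only [mem_iUnion] at hc
    obtain ⟨n, k, r, hr, hc⟩ := hc
    exact (h.vm n r c (hK2 n r hc).2).2.1
  · intro n b hb
    obtain ⟨r, hr, hrb⟩ := hR2 n b.ncard b hb ((h.fin b hb).1.cast_ncard_eq).symm
    have hsub : K0 n r ⊆ ⋃ n, ⋃ k, ⋃ r ∈ R n k, K0 n r := by
      intro c hc
      simp only [mem_iUnion]
      exact ⟨n, b.ncard, r, hr, hc⟩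
    rcases hK3 n r with h2 | h2
    · exact Or.inl fun c hc => hsub (h2 c (h.vt n r b c hrb hc))
    · refine Or.inr (h2.mono fun c hc => ⟨hsub hc, ?_⟩)
      exact h.vt n b r c (h.vs n r b hrb) (hK2 n r hc).2

theorem dd (h : FS S F T g0) (K B : Set (Set M)) (hB : B.Countable) (hBB : ∀ c ∈ B, c ∈ T.Bk)
    (hKB : K ⊆ B) (hK : ∀ n, ∀ b ∈ T.Bk,
      (∀ c, T.V n b c → c ∈ K) ∨ {c | c ∈ K ∧ T.V n b c}.Infinite) :
    DD T T.A (T.A ∪ ⋃₀ B) ∧ ∀ c ∈ T.Bk, c ⊆ T.A ∪ ⋃₀ B → c ∈ B := by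
  have key : ∀ c ∈ T.Bk, (c ∩ (T.A ∪ ⋃₀ B)).Nonempty → c ∈ B := by
    rintro c hc ⟨x, hx, hx' | ⟨d, hd, hxd⟩⟩
    · exact absurd hx' (disjoint_left.1 (h.fin c hc).2.2 hx)
    · rw [h.dis c hc d (hBB d hd) ⟨x, hx, hxd⟩]
      exact hd
  have hsub : ∀ c ∈ B, c ⊆ T.A ∪ ⋃₀ B := fun c hc x hx => Or.inr ⟨c, hc, hx⟩
  refine ⟨⟨?_, ⟨?_, ?_, ?_⟩, ?_, ?_⟩, ?_⟩
  · exact h.ac.union (hB.sUnion fun c hc => (h.fin c (hBB c hc)).1.countable)
  · exact subset_union_left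
  · exact union_subset_union_right _ (sUnion_subset_sUnion fun c hc => hBB c hc)
  · exact fun c hc hne => hsub c (key c hc hne)
  · exact subset_union_left
  · intro b hb hbA n
    rcases hK n b hb with h1 | h1
    · exact Or.inr fun b' hb' => hsub b' (hKB (h1 b' hb'))
    · refine Or.inl (h1.mono fun c hc => ⟨hc.2, ?_, hsub c (hKB hc.1)⟩)
      intro h2
      have hcB := hBB c (hKB hc.1)
      obtain ⟨x, hx⟩ := (h.fin c hcB).2.1
      exact disjoint_left.1 (h.fin c hcB).2.2 hx (h2 hx)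
  · intro c hc hcs
    obtain ⟨x, hx⟩ := (h.fin c hc).2.1
    exact key c hc ⟨x, hx, hcs hx⟩

/-- the image of a block which is not isolated is not isolated -/
theorem not_is (hI : St_IMG) (h : FS S F T g0) {D D' : Set M} {p : Set (M × M)}
    (hD : DD T T.A D) (hD' : DD T T.A D') (hp : Ps S F (g0 + 1) D D' p) {b : Set M}
    (hb : b ∈ T.Bk) (hbp : Dm p b) (hnb : ¬ Is T b) : ¬ Is T (Im p b) := by
  obtain ⟨I1, I2, I3, I4, I5, I6, I7, I8⟩ := hI L M S F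
  have hat : AtEq S S p := hp.2.2.2.atEq
  rintro ⟨n, hn⟩
  have h1 : ∃ d, T.V n b d ∧ ∃ m, ¬ T.V m b d := by
    by_contra h2
    push Not at h2
    exact hnb ⟨n, h2⟩
  obtain ⟨d, hd, m, hm⟩ := h1
  have hdB : d ∈ T.Bk := (h.vm n b d hd).2.1
  have hdA : ¬ d ⊆ T.A := by
    intro h2
    obtain ⟨x, hx⟩ := (h.fin d hdB).2.1
    exact disjoint_left.1 (h.fin d hdB).2.2 hx (h2 hx)
  have h2 : ∃ d', T.V (max n m) d d' ∧ d' ⊆ D := by
    rcases hD.2.2.2 d hdB hdA (max n m) with h3 | h3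
    · obtain ⟨d', hd'⟩ := h3.nonempty
      exact ⟨d', hd'.1, hd'.2.2⟩
    · exact ⟨d, h.vr _ d hdB, h3 d (h.vr _ d hdB)⟩
  obtain ⟨d', hdd', hd'D⟩ := h2
  have hd'B : d' ∈ T.Bk := (h.vm _ d d' hdd').2.1
  have hVn : T.V n b d' := h.vt n b d d' hd (h.vd n _ d d' (le_max_left _ _) hdd')
  have hVm : ¬ T.V m b d' := by
    intro h3
    exact hm (h.vt m b d' d h3 (h.vs m d d' (h.vd m _ d d' (le_max_right _ _) hdd')))
  obtain ⟨p', hpp', hp', hdm⟩ := (I6 g0 D D' p d' hp (h.fin d' hd'B).1).1 hd'D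
  have hat' : AtEq S S p' := hp'.2.2.2.atEq
  obtain ⟨hIm, hDm⟩ := (I1 p b hat hbp).2.2.2 p' hpp' hat'
  have hv := h.vv D D' p' hD hD' hp'
  have h4 : T.V n (Im p b) (Im p' d') := by
    rw [← hIm]
    exact (hv n b d' hDm hdm).1 hVn
  have h5 := hn _ h4 m
  rw [← hIm] at h5
  exact hVm ((hv m b d' hDm hdm).2 h5)

end MUL

open MUL in
theorem thm_MUL (hI : St_IMG) (hDC : St_DCD) : St_MUL := by
  intro L M S F T g0 h
  by_contra hfin
  have hinf : {t : Set (Set M) | ∃ b ∈ T.Bk, ¬ Is T b ∧ ¬ Th T b ∧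
      t = {c | ∀ n, T.V n b c}}.Infinite := hfin
  obtain ⟨I1, I2, I3, I4, I5, I6, I7, I8⟩ := hI L M S F
  choose b hb hIs hTh ht using fun j => (Set.Infinite.natEmbedding _ hinf j).2
  have hinj : ∀ i j, ty T (b i) = ty T (b j) → i = j := by
    intro i j hij
    apply (Set.Infinite.natEmbedding _ hinf).injective
    apply Subtype.ext
    rw [ht i, ht j]
    exact hij
  have hex : ∀ j, ∃ b', (∀ n, T.V n (b j) b') ∧ b' ≠ b j := by
    intro j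
    have h1 := hTh j
    unfold Th at h1
    push Not at h1
    exact h1
  choose b' hb' hne using hex
  have hb'B : ∀ j, b' j ∈ T.Bk := fun j => (h.vm 0 _ _ (hb' j 0)).2.1
  have hexr : ∀ τ : Set (Set M), ∃ r : Set M, (∀ j, ty T (b j) = τ → r = b j) ∧
      ∀ c ∈ T.Bk, ty T c = τ → ∀ n, T.V n c r := by
    intro τ
    by_cases h1 : ∃ j, ty T (b j) = τ
    · obtain ⟨j, hj⟩ := h1
      refine ⟨b j, fun i hi => ?_, fun c hc hcτ => ?_⟩
      · rw [hinj i j (hi.trans hj.symm)]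
      · exact mem_of_ty_eq h (hb j) (hcτ.trans hj.symm)
    · by_cases h2 : ∃ c ∈ T.Bk, ty T c = τ
      · obtain ⟨c, hc, hcτ⟩ := h2
        refine ⟨c, fun i hi => absurd ⟨i, hi⟩ h1, fun c' hc' hcτ' => ?_⟩
        exact mem_of_ty_eq h hc (hcτ'.trans hcτ.symm)
      · exact ⟨∅, fun i hi => absurd ⟨i, hi⟩ h1, fun c hc hcτ => absurd ⟨c, hc, hcτ⟩ h2⟩
  choose rp hrp1 hrp2 using hexr
  have hrpb : ∀ j, rp (ty T (b j)) = b j := fun j => hrp1 _ j rfl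
  have hrp : ∀ c ∈ T.Bk, ∀ n, T.V n c (rp (ty T c)) := fun c hc => hrp2 _ c hc rfl
  set Q : Set (Set M) := {c | c ∈ T.Bk ∧ (Is T c ∨ c = rp (ty T c))} with hQdef
  have hQ : ∀ c, c ∈ Q ↔ c ∈ T.Bk ∧ (Is T c ∨ c = rp (ty T c)) := fun c => Iff.rfl
  obtain ⟨K, hK1, hK2, hK3, hK4⟩ := exK h Q (cla h rp hrp Q hQ)
  have hbQ : ∀ j, b j ∈ Q := fun j => (hQ _).2 ⟨hb j, Or.inr (hrpb j).symm⟩
  have hcount : ∀ N : Set ℕ, (K ∪ range b ∪ b' '' N).Countable := fun N =>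
    (hK1.union (countable_range b)).union ((to_countable N).image b')
  have hBk : ∀ N : Set ℕ, ∀ c ∈ K ∪ range b ∪ b' '' N, c ∈ T.Bk := by
    rintro N c ((hc | ⟨j, rfl⟩) | ⟨j, hj, rfl⟩)
    · exact hK3 c hc
    · exact hb j
    · exact hb'B j
  have hKs : ∀ N : Set ℕ, K ⊆ K ∪ range b ∪ b' '' N := fun N c hc => Or.inl (Or.inl hc)
  have hdd := fun N : Set ℕ => dd h K (K ∪ range b ∪ b' '' N) (hcount N) (hBk N) (hKs N) hK4
  have hform : ∀ (N : Set ℕ) (c : Set M), c ∈ K ∪ range b ∪ b' '' N → ¬ Is T c →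
      c = rp (ty T c) ∨ ∃ j ∈ N, c = b' j := by
    rintro N c ((hc | ⟨j, rfl⟩) | ⟨j, hj, rfl⟩) hnc
    · exact Or.inl (((hQ c).1 (hK2 hc)).2.resolve_left hnc)
    · exact Or.inl (hrpb j).symm
    · exact Or.inr ⟨j, hj, rfl⟩
  have hγ : Ordinal.omega0.{0} * (g0 + 1) < om1 := by
    have h1 := add_one_lt_om1 h.gl
    rw [lt_om1_iff] at h1 ⊢
    rw [Ordinal.card_mul, Ordinal.card_omega0]
    exact (mul_le_mul' le_rfl h1).trans_eq Cardinal.aleph0_mul_aleph0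
  refine hDC L M S F T g0 0 (fun j _ => b j) F (Ordinal.omega0 * (g0 + 1))
    (fun N => T.A ∪ ⋃₀ (K ∪ range b ∪ b' '' N)) h (fun i _ => hb i) ?_ h.ff subset_rfl hγ ?_ ?_
  · intro i a j c hij
    exact ⟨hinj i j (ty_eq h hij), Fin.ext (by omega)⟩
  · intro N hN
    refine ⟨(hdd N).1, h.fa.trans subset_union_left, fun i hi a x hx => ?_⟩
    exact Or.inr ⟨b i, Or.inl (Or.inr ⟨i, rfl⟩), hx⟩
  · intro N N' hN hN' p hpf hFp hpD hbf i hi hdm
    have hDN := (hdd N).1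
    have hDN' := (hdd N').1
    have hps : Ps S F (g0 + 1) (T.A ∪ ⋃₀ (K ∪ range b ∪ b' '' N))
        (T.A ∪ ⋃₀ (K ∪ range b ∪ b' '' N')) p := ⟨hpf, hFp, hpD, hbf⟩
    have hps0 := I8 (g0 + 1) g0 _ _ p p (le_add_right le_rfl) hps subset_rfl hFp
    have hdm0 : Dm p (b i) := hdm 0
    have hat : AtEq S S p := hbf.atEq
    have hcB : Im p (b i) ∈ T.Bk := (h.vb _ _ p hDN hDN' hps0 (b i) hdm0).1 (hb i)
    have hcN : Im p (b i) ⊆ T.A ∪ ⋃₀ (K ∪ range b ∪ b' '' N') := by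
      rintro y ⟨x, hx, hxy⟩
      exact (hpD _ hxy).2
    have hnc : ¬ Is T (Im p (b i)) := not_is hI h hDN hDN' hps (hb i) hdm0 (hIs i)
    have hb'N : b' i ⊆ T.A ∪ ⋃₀ (K ∪ range b ∪ b' '' N) := fun x hx =>
      Or.inr ⟨b' i, Or.inr ⟨i, hi, rfl⟩, hx⟩
    obtain ⟨p', hpp', hp', hdm'⟩ := (I6 g0 _ _ p (b' i) hps (h.fin _ (hb'B i)).1).1 hb'N
    have hat' : AtEq S S p' := hp'.2.2.2.atEq
    obtain ⟨hIm, hDm⟩ := (I1 p (b i) hat hdm0).2.2.2 p' hpp' hat'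
    have hv := h.vv _ _ p' hDN hDN' hp'
    have hV : ∀ n, T.V n (Im p (b i)) (Im p' (b' i)) := by
      intro n
      rw [← hIm]
      exact (hv n _ _ hDm hdm').1 (hb' i n)
    have hne' : Im p (b i) ≠ Im p' (b' i) := by
      intro h1
      rw [← hIm] at h1
      exact hne i ((I2 p' _ _ hat' hDm hdm').1.1 h1).symm
    have hc'B : Im p' (b' i) ∈ T.Bk := (h.vm 0 _ _ (hV 0)).2.1
    have hc'N : Im p' (b' i) ⊆ T.A ∪ ⋃₀ (K ∪ range b ∪ b' '' N') := by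
      rintro y ⟨x, hx, hxy⟩
      exact (hp'.2.2.1 _ hxy).2
    have hnc' : ¬ Is T (Im p' (b' i)) := fun h1 =>
      hnc (is_congr h (fun n => h.vs n _ _ (hV n)) h1)
    have hty : ty T (Im p (b i)) = ty T (Im p' (b' i)) := ty_eq h hV
    have h1 := hform N' _ ((hdd N').2 _ hcB hcN) hnc
    have h2 := hform N' _ ((hdd N').2 _ hc'B hc'N) hnc'
    have h3 : ∃ j ∈ N', ty T (Im p (b i)) = ty T (b j) := by
      rcases h1 with h1 | ⟨j, hj, h1⟩
      · rcases h2 with h2 | ⟨j, hj, h2⟩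
        · exact absurd (h1.trans ((congrArg rp hty).trans h2.symm)) hne'
        · exact ⟨j, hj, by rw [hty, h2, ty_eq h (hb' j)]⟩
      · exact ⟨j, hj, by rw [h1, ty_eq h (hb' j)]⟩
    obtain ⟨j, hj, hj'⟩ := h3
    exact ⟨j, hj, Equiv.refl _, fun a n => mem_of_ty_eq h (hb j) hj' n⟩

end HEI
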