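import Pool.Agent.HEI.StG

/-!
# HEI [PFT]: perfect visible sets (helper49)
-/

set_option autoImplicit false
set_option linter.unusedVariables false

namespace HEI

open Set Pool.Agent.Helper5.DU Pool.Agent.Helper6.Str Pool.Agent.Helper79.VC
  Pool.Agent.Helper97.LO Pool.Agent.Helper97.VC HER HERN

section

variable {L : FirstOrder.Language.{0, 0}} {M : Type} {S : L.Structure M} {F : Set M} {T : Dt M}
  {g0 : Ordinal.{0}}

/-- the members of the class of `b` at level `n` which are not in `Ω` -/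
def PFT_Y (T : Dt M) (Ω : Set M) (n : ℕ) (b : Set M) : Set (Set M) :=
  {b' | T.V n b b' ∧ ¬ b' ⊆ Ω}

/-- the blocks with a class almost contained in `Ω` -/
def PFT_B (T : Dt M) (Ω : Set M) : Set (Set M) :=
  {b | b ∈ T.Bk ∧ ∃ n, (PFT_Y T Ω n b).Finite}

/-- the union of `Ω` and these blocks -/
def PFT_O (T : Dt M) (Ω : Set M) : Set M := Ω ∪ ⋃₀ PFT_B T Ω

theorem PFT_Y_eq (hF : FS S F T g0) {Ω : Set M} {n : ℕ} {b b' : Set M} (h : T.V n b b') :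
    PFT_Y T Ω n b = PFT_Y T Ω n b' := by
  ext c
  constructor
  · rintro ⟨h1, h2⟩
    exact ⟨hF.vt n _ _ _ (hF.vs n _ _ h) h1, h2⟩
  · rintro ⟨h1, h2⟩
    exact ⟨hF.vt n _ _ _ h h1, h2⟩

/-- the class of a block has a representative in a countable set -/
theorem PFT_rep (hF : FS S F T g0) : ∃ C : Set (ℕ × Set M), C.Countable ∧
    ∀ b ∈ T.Bk, ∀ n, ∃ c, (n, c) ∈ C ∧ T.V n c b := by
  choose R hR1 hR2 using hF.vf
  refine ⟨⋃ n : ℕ, ⋃ k : ℕ, (fun c => (n, c)) '' R n k, ?_, ?_⟩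
  · exact countable_iUnion fun n => countable_iUnion fun k => ((hR1 n k).image _).countable
  · intro b hb n
    obtain ⟨k, hk⟩ : ∃ k : ℕ, b.encard = k := by
      have := (hF.fin b hb).1
      exact ⟨b.ncard, (this.cast_ncard_eq).symm⟩
    obtain ⟨c, hc, hcb⟩ := hR2 n k b hb hk
    exact ⟨c, mem_iUnion.2 ⟨n, mem_iUnion.2 ⟨k, c, hc, rfl⟩⟩, hcb⟩

theorem PFT_ctb (hF : FS S F T g0) {Ω : Set M} (hΩ : Ω.Countable) : (PFT_O T Ω).Countable := by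
  obtain ⟨C, hC1, hC2⟩ := PFT_rep hF
  have h1 : (⋃ z ∈ {z : ℕ × Set M | z ∈ C ∧ (PFT_Y T Ω z.1 z.2).Finite},
      PFT_Y T Ω z.1 z.2).Countable := by
    refine (hC1.mono fun z hz => hz.1).biUnion fun z hz => hz.2.countable
  have h2 : PFT_O T Ω ⊆ Ω ∪ ⋃₀ ((⋃ z ∈ {z : ℕ × Set M | z ∈ C ∧ (PFT_Y T Ω z.1 z.2).Finite},
      PFT_Y T Ω z.1 z.2) ∩ T.Bk) := by
    rintro x (hx | ⟨b, ⟨hb, n, hn⟩, hxb⟩)
    · exact Or.inl hx
    · by_cases hbΩ : b ⊆ Ω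
      · exact Or.inl (hbΩ hxb)
      · right
        obtain ⟨c, hc, hcb⟩ := hC2 b hb n
        refine ⟨b, ⟨?_, hb⟩, hxb⟩
        refine mem_iUnion₂.2 ⟨(n, c), ⟨hc, ?_⟩, hcb, hbΩ⟩
        rw [PFT_Y_eq hF hcb]
        exact hn
  refine (hΩ.union ?_).mono h2
  exact Countable.sUnion (h1.mono inter_subset_left) fun b hb => (hF.fin b hb.2).1.countable

theorem PFT_un (hF : FS S F T g0) {Ω : Set M} (hΩ : Un T Ω) : Un T (PFT_O T Ω) := by
  obtain ⟨h1, h2, h3⟩ := hΩ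
  refine ⟨h1.trans subset_union_left, ?_, ?_⟩
  · rintro x (hx | ⟨b, hb, hxb⟩)
    · exact h2 hx
    · exact Or.inr ⟨b, hb.1, hxb⟩
  · rintro b hb ⟨x, hxb, hx | ⟨b', hb', hxb'⟩⟩
    · exact (h3 b hb ⟨x, hxb, hx⟩).trans subset_union_left
    · have h4 : b = b' := hF.dis b hb b' hb'.1 ⟨x, hxb, hxb'⟩
      subst h4
      intro y hy
      exact Or.inr ⟨b, hb', hy⟩

/-- one direction of the visibility -/
theorem PFT_dir (hI : St_IMG) (hD : St_DDM) (hF : FS S F T g0) {g : Ordinal.{0}} {Ω : Set M}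
    (hV : Vs S F T g0 g Ω) (D D' : Set M) (p : Set (M × M)) (hD1 : DD T (PFT_O T Ω) D)
    (hD2 : DD T (PFT_O T Ω) D') (hp : Ps S F (g + 1 + 1) D D' p) (a : M × M) (ha : a ∈ p)
    (h1 : a.1 ∈ PFT_O T Ω) : a.2 ∈ PFT_O T Ω := by
  obtain ⟨i1, i2, i3, i4, i5, i6, i7, i8⟩ := hI L M S F
  obtain ⟨d1, d2, d3, d4, d5, d6, d7, d8, d9⟩ := hD L M S F T g0 hF
  obtain ⟨hg0, hg1, hΩc, hΩu, hΩv⟩ := hV
  have hΩu' := PFT_un hF hΩu
  have hsub : Ω ⊆ PFT_O T Ω := subset_union_left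
  have e1 : DD T Ω D := d2 Ω _ D hΩu hΩu' hsub hD1
  have e2 : DD T Ω D' := d2 Ω _ D' hΩu hΩu' hsub hD2
  have a1 : DD T T.A D := d3 Ω D hΩu e1
  have a2 : DD T T.A D' := d3 Ω D' hΩu e2
  have hgle : g ≤ g + 1 := le_self_add
  have hgle2 : g ≤ g + 1 + 1 := hgle.trans le_self_add
  by_cases hΩ1 : a.1 ∈ Ω
  · have hp0 : Ps S F g D D' p := i8 _ _ D D' p p hgle2 hp Subset.rfl hp.2.1
    exact hsub ((hΩv D D' p e1 e2 hp0 a ha).1 hΩ1)
  · obtain ⟨b, ⟨hb, n, hn⟩, hab⟩ : ∃ b ∈ PFT_B T Ω, a.1 ∈ b := by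
      rcases h1 with h1 | h1
      · exact absurd h1 hΩ1
      · exact h1
    have haD : a.1 ∈ D := (hp.2.2.1 a ha).1
    have hbD : b ⊆ D := e1.2.1.2.2 b hb ⟨a.1, hab, haD⟩
    obtain ⟨p', hpp', hp', hDm⟩ := (i6 (g + 1) D D' p b hp (hF.fin b hb).1).1 hbD
    have hp'0 : Ps S F g0 D D' p' :=
      i8 _ _ D D' p' p' (hg0.trans hgle) hp' Subset.rfl hp'.2.1
    have hb' : Im p' b ∈ T.Bk := (hF.vb D D' p' a1 a2 hp'0 b hDm).1 hb
    have hab' : a.2 ∈ Im p' b := ⟨a.1, hab, hpp' ha⟩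
    by_cases hsubΩ : Im p' b ⊆ Ω
    · exact hsub (hsubΩ hab')
    · right
      refine ⟨Im p' b, ⟨hb', n, ?_⟩, hab'⟩
      by_contra hinf
      -- infinitely many members of the class in `D'`
      have hinf2 : {c | T.V n (Im p' b) c ∧ ¬ c ⊆ Ω ∧ c ⊆ D'}.Infinite := by
        rcases e2.2.2.2 (Im p' b) hb' hsubΩ n with h | h
        · exact h
        · intro hfin
          apply hinf
          refine hfin.subset ?_
          rintro c ⟨hc1, hc2⟩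
          exact ⟨hc1, hc2, h c hc1⟩
      obtain ⟨W, hW1, hW2⟩ := hinf2.exists_subset_card_eq (hn.toFinset.card + 1)
      -- pull back
      have hEfin : (⋃₀ (W : Set (Set M))).Finite := by
        refine W.finite_toSet.sUnion ?_
        intro c hc
        exact (hF.fin c (hF.vm n _ _ (hW1 hc).1).2.1).1
      have hED' : ⋃₀ (W : Set (Set M)) ⊆ D' := by
        rintro x ⟨c, hc, hxc⟩
        exact (hW1 hc).2.2 hxc
      obtain ⟨p'', c, hp'p'', hp'', hcD, hDmc, hImc⟩ := (i6 g D D' p' _ hp' hEfin).2 hED'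
      have hat : AtEq S S p'' := hp''.2.2.2.atEq
      obtain ⟨j1, j2, j3, j4⟩ := i1 p'' c hat hDmc
      have hq : Ps S F g D' D (Prod.swap ⁻¹' p'') := i7 g D D' p'' hp''
      have hq0 : Ps S F g0 D' D (Prod.swap ⁻¹' p'') := i8 _ _ D' D _ _ hg0 hq Subset.rfl hq.2.1
      have hatq : AtEq S S (Prod.swap ⁻¹' p'') := hq.2.2.2.atEq
      rw [hImc] at j3
      have hDmw : ∀ w ∈ W, Dm (Prod.swap ⁻¹' p'') w := by
        intro w hw x hx
        exact j3 x ⟨w, hw, hx⟩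
      have hDmb : Dm p'' b := by
        intro x hx
        obtain ⟨y, hy⟩ := hDm x hx
        exact ⟨y, hp'p'' hy⟩
      obtain ⟨k1, k2, k3, k4⟩ := i1 p' b hp'.2.2.2.atEq hDm
      obtain ⟨l1, l2, l3, l4⟩ := i1 p'' b hat hDmb
      have hIm2 : Im p'' b = Im p' b := (k4 p'' hp'p'' hat).1
      rw [hIm2] at l2 l3
      -- the map of blocks
      have hmap : ∀ w ∈ W, Im (Prod.swap ⁻¹' p'') w ∈ PFT_Y T Ω n b := by
        intro w hw
        obtain ⟨hw1, hw2, hw3⟩ := hW1 hw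
        refine ⟨?_, ?_⟩
        · have h5 := (hF.vv D' D _ a2 a1 hq0 n (Im p' b) w l3 (hDmw w hw)).1 hw1
          rw [l2] at h5
          exact h5
        · intro h6
          apply hw2
          intro y hy
          obtain ⟨x, hx⟩ := hDmw w hw y hy
          have h7 : x ∈ Im (Prod.swap ⁻¹' p'') w := ⟨y, hy, hx⟩
          exact (hΩv D' D _ e2 e1 hq (y, x) hx).2 (h6 h7)
      have hinj : Set.InjOn (fun w => Im (Prod.swap ⁻¹' p'') w) (W : Set (Set M)) := by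
        intro w hw w' hw' hww
        exact ((i2 _ w w' hatq (hDmw w hw) (hDmw w' hw')).1).1 hww
      have hle := Finset.card_le_card_of_injOn (s := W) (t := hn.toFinset)
        (fun w => Im (Prod.swap ⁻¹' p'') w) (fun w hw => by
          rw [Finset.mem_coe, Finite.mem_toFinset]
          exact hmap w hw) hinj
      omega

theorem PFT_step (hI : St_IMG) (hD : St_DDM) (hF : FS S F T g0) {g : Ordinal.{0}} {Ω : Set M}
    (hV : Vs S F T g0 g Ω) : Vs S F T g0 (g + 1 + 1) (PFT_O T Ω) := by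
  refine ⟨?_, add_one_lt_om1 (add_one_lt_om1 hV.2.1), PFT_ctb hF hV.2.2.1,
    PFT_un hF hV.2.2.2.1, ?_⟩
  · exact hV.1.trans ((le_self_add : g ≤ g + 1).trans le_self_add)
  · intro D D' p hD1 hD2 hp a ha
    constructor
    · exact PFT_dir hI hD hF hV D D' p hD1 hD2 hp a ha
    · intro h
      obtain ⟨i1, i2, i3, i4, i5, i6, i7, i8⟩ := hI L M S F
      exact PFT_dir hI hD hF hV D' D _ hD2 hD1 (i7 _ D D' p hp) (a.2, a.1)
        (by simpa using ha) h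

end

theorem thm_PFT (hI : St_IMG) (hD : St_DDM) (hC : St_VCU) : St_PFT := by
  intro L M S F T g0 hF
  obtain ⟨C, hC1, hC2⟩ := PFT_rep hF
  obtain ⟨v1, v2, v3⟩ := hC L M S F T g0 hF
  have hch : ∀ z : ℕ × Set M, ∃ (h : Ordinal.{0}) (Θ : Set M), Vs S F T g0 h Θ ∧
      ((∃ g Ω, Vs S F T g0 g Ω ∧ (PFT_Y T Ω z.1 z.2).Finite) →
        ∀ b', T.V z.1 z.2 b' → b' ⊆ Θ) := by
    intro z
    by_cases hz : ∃ g Ω, Vs S F T g0 g Ω ∧ (PFT_Y T Ω z.1 z.2).Finite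
    · obtain ⟨g, Ω, hV, hfin⟩ := hz
      refine ⟨g + 1 + 1, PFT_O T Ω, PFT_step hI hD hF hV, fun _ b' hb' => ?_⟩
      intro x hx
      refine Or.inr ⟨b', ⟨(hF.vm _ _ _ hb').2.1, z.1, ?_⟩, hx⟩
      rw [← PFT_Y_eq hF hb']
      exact hfin
    · exact ⟨g0, T.A, v2, fun h => absurd h hz⟩
  choose H Θ hV hΘ using hch
  obtain ⟨f, hf⟩ : ∃ f : ℕ → ℕ × Set M, C ⊆ range f :=
    Set.countable_iff_exists_subset_range.1 hC1
  obtain ⟨g, hg, hgle⟩ := v3 (fun i => H (f i)) (fun i => Θ (f i)) (fun i => hV (f i))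
  refine ⟨g, ⋃ i, Θ (f i), hg, fun h Ω hΩ hsub => ?_⟩
  have key : ∀ b ∈ T.Bk, ∀ n, (∃ b', T.V n b b' ∧ ¬ b' ⊆ ⋃ i, Θ (f i)) →
      {b' | T.V n b b' ∧ ¬ b' ⊆ Ω}.Infinite := by
    rintro b hb n ⟨b', hbb', hb'⟩ hfin
    obtain ⟨c, hc, hcb⟩ := hC2 b hb n
    obtain ⟨i, hi⟩ := hf hc
    apply hb'
    have h1 : (PFT_Y T Ω n c).Finite := by
      rw [PFT_Y_eq hF hcb]
      exact hfin
    have h2 := hΘ (f i) (by
      rw [hi]
      exact ⟨h, Ω, hΩ, h1⟩) b' (by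
      rw [hi]
      exact hF.vt n _ _ _ hcb hbb')
    exact h2.trans (subset_iUnion (fun i => Θ (f i)) i)
  refine ⟨⟨hΩ, fun b hb hbΩ n => ?_⟩, key⟩
  exact key b hb n ⟨b, hF.vr n b hb, fun h3 => hbΩ (h3.trans hsub)⟩

end HEI
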