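import Pool.Agent.HEI.StE

/-!
# HEI: perfect sequences (helper33)
-/

set_option autoImplicit false
set_option linter.unusedVariables false

namespace HEI

open Set Pool.Agent.Helper5.DU Pool.Agent.Helper6.Str Pool.Agent.Helper79.VC
  Pool.Agent.Helper97.LO Pool.Agent.Helper97.VC HER HERN

/-- limits along an ultrafilter -/
theorem PRF_lim {K : Type} (f : ℕ → K) (F : Set K) (hF : F.Finite) (hf : ∀ i, f i ∈ F) :
    ∃ c, ∀ᶠ i in (Filter.hyperfilter ℕ : Filter ℕ), f i = c := by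
  have h : (⋃ c ∈ F, {i | f i = c}) ∈ Filter.hyperfilter ℕ :=
    Filter.mem_of_superset Filter.univ_mem fun i _ => mem_iUnion₂.2 ⟨f i, hf i, rfl⟩
  obtain ⟨c, hc, h2⟩ := (Ultrafilter.finite_biUnion_mem_iff hF).1 h
  exact ⟨c, h2⟩

/-- the subsequence -/
theorem PRF_psi {K : Type} {k : ℕ} (κ : ℕ → ℕ → Fin (k + 1) → K)
    (hfin : ∀ n, {c | ∃ i a, c = κ n i a}.Finite) :
    ∃ (c : ℕ → Fin (k + 1) → K) (ψ : ℕ → ℕ), StrictMono ψ ∧
      ∀ i n a, n ≤ i → κ n (ψ i) a = c n a := by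
  have h1 : ∀ n a, ∃ c, ∀ᶠ i in (Filter.hyperfilter ℕ : Filter ℕ), κ n i a = c :=
    fun n a => PRF_lim (fun i => κ n i a) _ (hfin n) fun i => ⟨i, a, rfl⟩
  choose c hc using h1
  have h2 : ∀ i, ∃ᶠ j in Filter.atTop, ∀ n ≤ i, ∀ a, κ n j a = c n a := by
    intro i
    have h3 : ∀ᶠ j in (Filter.hyperfilter ℕ : Filter ℕ), ∀ n ∈ Finset.range (i + 1),
        ∀ a, κ n j a = c n a := by
      rw [Filter.eventually_all_finset]
      intro n _
      rw [Filter.eventually_all]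
      exact hc n
    have h4 : ∀ᶠ j in (Filter.hyperfilter ℕ : Filter ℕ), ∀ n ≤ i, ∀ a, κ n j a = c n a := by
      filter_upwards [h3] with j hj n hn
      exact hj n (Finset.mem_range.2 (by omega))
    exact h4.frequently.filter_mono Nat.hyperfilter_le_atTop
  obtain ⟨ψ, hψ, h⟩ := Filter.extraction_forall_of_frequently h2
  exact ⟨c, ψ, hψ, fun i n a hn => h i n hn a⟩

/-- case 1: unbounded sums -/
theorem PRF_unb (σ : ℕ → ℕ) (h : ∀ s, ∃ i, s < σ i) :
    ∃ φ : ℕ → ℕ, StrictMono φ ∧ StrictMono fun i => σ (φ i) := by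
  have h1 : ∀ N s, ∃ i, N ≤ i ∧ s < σ i := by
    intro N s
    obtain ⟨i, hi⟩ := h (max s ((Finset.range N).sup σ))
    refine ⟨i, ?_, (le_max_left _ _).trans_lt hi⟩
    by_contra hN
    push Not at hN
    have h2 : σ i ≤ (Finset.range N).sup σ := Finset.le_sup (Finset.mem_range.2 hN)
    have h3 := (le_max_right s ((Finset.range N).sup σ)).trans_lt hi
    omega
  choose g hg1 hg2 using h1
  let φ : ℕ → ℕ := fun n => Nat.rec (g 0 0) (fun _ p => g (p + 1) (σ p)) n
  have hφ : ∀ n, φ (n + 1) = g (φ n + 1) (σ (φ n)) := fun n => rfl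
  refine ⟨φ, strictMono_nat_of_lt_succ fun n => ?_, strictMono_nat_of_lt_succ fun n => ?_⟩
  · rw [hφ]
    exact hg1 (φ n + 1) (σ (φ n))
  · show σ (φ n) < σ (φ (n + 1))
    rw [hφ]
    exact hg2 (φ n + 1) (σ (φ n))

/-- case 2: the sequence with prescribed separation levels -/
theorem PRF_bdd {K : Type} {k : ℕ} (δ : ℕ → Fin (k + 1) → ℕ → Fin (k + 1) → ℕ)
    (κ : ℕ → ℕ → Fin (k + 1) → K)
    (hδ : ∀ n i a j b, (i ≠ j ∨ a ≠ b) → (n < δ i a j b ↔ κ n i a = κ n j b))
    (hfin : ∀ n, {c | ∃ i a, c = κ n i a}.Finite) :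
    ∃ (φ μ : ℕ → ℕ), StrictMono φ ∧ StrictMono μ ∧ ∀ i j, i < j →
      (Finset.univ.sup fun a => Finset.univ.sup fun b => δ (φ i) a (φ j) b) = μ i := by
  classical
  obtain ⟨c, ψ, hψ, hc⟩ := PRF_psi κ hfin
  -- limits
  have hlim : ∀ b : Fin (k + 1), ∀ i a i' a', (∀ n, κ n (ψ i) a = c n b) →
      (∀ n, κ n (ψ i') a' = c n b) → i = i' := by
    intro b i a i' a' h h'
    by_contra hne
    have h1 : ψ i ≠ ψ i' := fun h => hne (hψ.injective h)
    have h2 := (hδ (δ (ψ i) a (ψ i') a') (ψ i) a (ψ i') a' (Or.inl h1)).2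
      ((h _).trans (h' _).symm)
    exact lt_irrefl _ h2
  have hex : ∀ b : Fin (k + 1), ∃ N, ∀ i, N ≤ i → ∀ a, ∃ n, κ n (ψ i) a ≠ c n b := by
    intro b
    by_cases h : ∃ i a, ∀ n, κ n (ψ i) a = c n b
    · obtain ⟨i, a, hi⟩ := h
      refine ⟨i + 1, fun i' hi' a' => ?_⟩
      by_contra hcon
      push Not at hcon
      have := hlim b i a i' a' hi hcon
      omega
    · push Not at h
      exact ⟨0, fun i _ a => h i a⟩
  choose N hN using hex
  set N0 : ℕ := Finset.univ.sup N with hN0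
  have hN' : ∀ i, N0 ≤ i → ∀ a b, ∃ n, κ n (ψ i) a ≠ c n b := fun i hi a b =>
    hN b i ((Finset.le_sup (Finset.mem_univ b)).trans hi) a
  -- separation levels
  have hν : ∀ i, ∀ a b, ∃ ν : ℕ, N0 ≤ i → (κ ν (ψ i) a ≠ c ν b ∧
      ∀ n < ν, κ n (ψ i) a = c n b) := by
    intro i a b
    by_cases hi : N0 ≤ i
    · refine ⟨Nat.find (hN' i hi a b), fun _ => ⟨Nat.find_spec (hN' i hi a b), fun n hn => ?_⟩⟩
      have := Nat.find_min (hN' i hi a b) hn
      push Not at this
      exact this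
    · exact ⟨0, fun h => absurd h hi⟩
  choose ν hν using hν
  have hval : ∀ i, N0 ≤ i → ∀ a b, ∀ j, ν i a b ≤ j → i ≠ j →
      δ (ψ i) a (ψ j) b = ν i a b := by
    intro i hi a b j hj hij
    obtain ⟨h1, h2⟩ := hν i a b hi
    have hne : ψ i ≠ ψ j := fun h => hij (hψ.injective h)
    apply le_antisymm
    · by_contra hlt
      push Not at hlt
      have h3 := (hδ (ν i a b) (ψ i) a (ψ j) b (Or.inl hne)).1 hlt
      rw [hc j (ν i a b) b hj] at h3
      exact h1 h3
    · by_contra hlt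
      push Not at hlt
      have h3 : κ (δ (ψ i) a (ψ j) b) (ψ i) a = κ (δ (ψ i) a (ψ j) b) (ψ j) b := by
        rw [hc j _ b (hlt.le.trans hj)]
        exact h2 _ hlt
      exact lt_irrefl _ ((hδ _ (ψ i) a (ψ j) b (Or.inl hne)).2 h3)
  set μ0 : ℕ → ℕ := fun i => Finset.univ.sup fun a => Finset.univ.sup fun b => ν i a b with hμ0
  have hνμ : ∀ i a b, ν i a b ≤ μ0 i := fun i a b =>
    (Finset.le_sup (f := fun b => ν i a b) (Finset.mem_univ b)).trans
      (Finset.le_sup (f := fun a => Finset.univ.sup fun b => ν i a b) (Finset.mem_univ a))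
  have hμi : ∀ i, N0 ≤ i → i < μ0 i := by
    intro i hi
    refine lt_of_lt_of_le ?_ (hνμ i 0 0)
    by_contra hle
    push Not at hle
    exact (hν i 0 0 hi).1 (hc i _ 0 hle)
  have hΔ : ∀ i, N0 ≤ i → ∀ j, μ0 i ≤ j → i ≠ j →
      (Finset.univ.sup fun a => Finset.univ.sup fun b => δ (ψ i) a (ψ j) b) = μ0 i := by
    intro i hi j hj hij
    rw [hμ0]
    refine Finset.sup_congr rfl fun a _ => Finset.sup_congr rfl fun b _ => ?_
    exact hval i hi a b j ((hνμ i a b).trans hj) hij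
  -- the sequence
  let θ : ℕ → ℕ := fun n => Nat.rec N0 (fun _ p => μ0 p) n
  have hθ : ∀ n, θ (n + 1) = μ0 (θ n) := fun n => rfl
  have hθN : ∀ n, N0 ≤ θ n := by
    intro n
    induction n with
    | zero => exact le_rfl
    | succ n ih =>
      rw [hθ]
      exact ih.trans (hμi _ ih).le
  have hθm : StrictMono θ := strictMono_nat_of_lt_succ fun n => by
    rw [hθ]
    exact hμi _ (hθN n)
  refine ⟨fun n => ψ (θ n), fun n => μ0 (θ n), hψ.comp hθm, ?_, ?_⟩
  · exact strictMono_nat_of_lt_succ fun n => by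
      show μ0 (θ n) < μ0 (θ (n + 1))
      rw [← hθ n]
      exact hμi (θ (n + 1)) (hθN (n + 1))
  · intro i j hij
    refine hΔ (θ i) (hθN i) (θ j) ?_ (hθm hij).ne
    rw [← hθ]
    exact hθm.monotone hij

theorem thm_PRF : St_PRF := by
  classical
  intro K k sz δ κ hδ hfin
  by_cases hb : ∀ s, ∃ i, s < ∑ a, sz i a
  · obtain ⟨φ, h1, h2⟩ := PRF_unb (fun i => ∑ a, sz i a) hb
    refine ⟨φ, h1, fun I J _ _ hs _ => ?_⟩
    have hsub : ∀ I J : Set ℕ, (∀ m, (∃ i ∈ I, m = ∑ a, sz (φ i) a) →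
        ∃ i ∈ J, m = ∑ a, sz (φ i) a) → I ⊆ J := by
      intro I J h i hi
      obtain ⟨j, hj, hij⟩ := h _ ⟨i, hi, rfl⟩
      have : i = j := h2.injective hij
      rw [this]
      exact hj
    exact Subset.antisymm (hsub I J fun m => (hs m).1) (hsub J I fun m => (hs m).2)
  · push Not at hb
    obtain ⟨s, hs⟩ := hb
    have hfin' : ∀ n, {c | ∃ i a, c = κ n i a}.Finite := by
      intro n
      refine (hfin n s).subset ?_
      rintro c ⟨i, a, rfl⟩
      refine ⟨i, a, le_trans ?_ (hs i), rfl⟩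
      exact Finset.single_le_sum (f := fun a => sz i a) (fun _ _ => Nat.zero_le _)
        (Finset.mem_univ a)
    obtain ⟨φ, μ, h1, h2, h3⟩ := PRF_bdd δ κ hδ hfin'
    refine ⟨φ, h1, fun I J hI hJ _ hs => ?_⟩
    have hsym : ∀ i j, i ≠ j →
        (Finset.univ.sup fun a => Finset.univ.sup fun b => δ (φ i) a (φ j) b) =
        Finset.univ.sup fun a => Finset.univ.sup fun b => δ (φ j) a (φ i) b := by
      intro i j hij
      have hne : φ i ≠ φ j := fun h => hij (h1.injective h)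
      rw [Finset.sup_comm]
      refine Finset.sup_congr rfl fun a _ => Finset.sup_congr rfl fun b _ => ?_
      apply le_antisymm
      · by_contra hlt
        push Not at hlt
        have e1 := (hδ _ (φ i) b (φ j) a (Or.inl hne)).1 hlt
        exact lt_irrefl _ ((hδ _ (φ j) a (φ i) b (Or.inl hne.symm)).2 e1.symm)
      · by_contra hlt
        push Not at hlt
        have e1 := (hδ _ (φ j) a (φ i) b (Or.inl hne.symm)).1 hlt
        exact lt_irrefl _ ((hδ _ (φ i) b (φ j) a (Or.inl hne)).2 e1.symm)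
    have hmin : ∀ i j, i ≠ j →
        (Finset.univ.sup fun a => Finset.univ.sup fun b => δ (φ i) a (φ j) b) =
          μ (min i j) := by
      intro i j hij
      rcases lt_or_gt_of_ne hij with h | h
      · rw [h3 i j h, min_eq_left h.le]
      · rw [hsym i j hij, h3 j i h, min_eq_right h.le]
    have hsub : ∀ I J : Set ℕ, I.Infinite → (∀ m, (∃ i ∈ I, ∃ j ∈ I, i ≠ j ∧
        m = Finset.univ.sup fun a => Finset.univ.sup fun b => δ (φ i) a (φ j) b) →
        ∃ i ∈ J, ∃ j ∈ J, i ≠ j ∧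
        m = Finset.univ.sup fun a => Finset.univ.sup fun b => δ (φ i) a (φ j) b) → I ⊆ J := by
      intro I J hI h i hi
      obtain ⟨j, hj, hij⟩ := hI.exists_gt i
      obtain ⟨i', hi', j', hj', hne, hm⟩ := h _ ⟨i, hi, j, hj, hij.ne, rfl⟩
      rw [h3 i j hij, hmin i' j' hne] at hm
      have := h2.injective hm
      rw [this]
      rcases min_choice i' j' with e | e
      · rw [e]
        exact hi'
      · rw [e]
        exact hj'
    exact Subset.antisymm (hsub I J hI fun m => (hs m).1) (hsub J I hJ fun m => (hs m).2)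

end HEI
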