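import Pool.Agent.HEI.StG

/-!
# HEI, module RQE: enumeration of the requirements
-/

set_option autoImplicit false
set_option linter.unusedVariables false

namespace HEI

open Set Pool.Agent.Helper5.DU Pool.Agent.Helper6.Str Pool.Agent.Helper79.VC
  Pool.Agent.Helper97.LO Pool.Agent.Helper97.VC HER HERN

theorem thm_RQE : St_RQE := by
  classical
  intro L M S F T g0 Ω hFS hb
  obtain ⟨b0, hb0, hb0Ω⟩ := hb
  choose R hRf hR using hFS.vf
  -- representatives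
  have hrep : ∀ a : ℕ × Set M, ∃ r : Set M, (r ∈ T.Bk ∧ ¬ r ⊆ Ω) ∧
      ((∃ b, T.V a.1 a.2 b ∧ ¬ b ⊆ Ω) → T.V a.1 a.2 r) := by
    intro a
    by_cases h : ∃ b, T.V a.1 a.2 b ∧ ¬ b ⊆ Ω
    · obtain ⟨b, hb1, hb2⟩ := h
      exact ⟨b, ⟨(hFS.vm _ _ _ hb1).2.1, hb2⟩, fun _ => hb1⟩
    · exact ⟨b0, ⟨hb0, hb0Ω⟩, fun h' => absurd h' h⟩
  choose rep hrep1 hrep2 using hrep
  -- the countable set of the pairs
  set Q : Set (ℕ × Set M) := ⋃ n : ℕ, ⋃ k : ℕ, (fun c => (n, c)) '' R n k with hQ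
  have hQc : (insert ((0 : ℕ), b0) Q).Countable := by
    refine Set.Countable.insert _ ?_
    rw [hQ]
    refine Set.countable_iUnion fun n => Set.countable_iUnion fun k => ?_
    exact ((hRf n k).image _).countable
  obtain ⟨f, hf⟩ := hQc.exists_eq_range ⟨_, Set.mem_insert _ _⟩
  refine ⟨fun s => ((f s.unpair.1).1, rep (f s.unpair.1)), fun s => hrep1 _, ?_⟩
  intro n b hbk hbΩ
  have hfin := (hFS.fin b hbk).1
  obtain ⟨c, hcR, hcV⟩ := hR n b.ncard b hbk (by rw [hfin.cast_ncard_eq])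
  have hmem : ((n, c) : ℕ × Set M) ∈ insert ((0 : ℕ), b0) Q := by
    right
    rw [hQ]
    simp only [Set.mem_iUnion]
    exact ⟨n, b.ncard, c, hcR, rfl⟩
  rw [hf] at hmem
  obtain ⟨i, hi⟩ := hmem
  have hV : T.V n b (rep (n, c)) :=
    hFS.vt _ _ _ _ (hFS.vs _ _ _ hcV) (hrep2 (n, c) ⟨b, hcV, hbΩ⟩)
  have hinj : Function.Injective (fun j : ℕ => Nat.pair i j) := by
    intro j j' hjj
    have := congrArg Nat.unpair hjj
    simp only [Nat.unpair_pair, Prod.mk.injEq, true_and] at this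
    exact this
  refine (Set.infinite_range_of_injective hinj).mono ?_
  rintro _ ⟨j, rfl⟩
  simp only [Set.mem_ofPred_eq, Nat.unpair_pair]
  rw [hi]
  exact ⟨rfl, hV⟩

end HEI
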