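import Pool.Agent.HEI.StG

/-!
# HEI: recursion
-/

set_option autoImplicit false
set_option linter.unusedVariables false

namespace HEI

open Set Pool.Agent.Helper5.DU Pool.Agent.Helper6.Str Pool.Agent.Helper79.VC
  Pool.Agent.Helper97.LO Pool.Agent.Helper97.VC HER HERN

/-- the sequence defined by strong recursion -/
noncomputable def SEQ_s {α : Type} (f : ℕ → Set α → α) (n : ℕ) : α :=
  f n {a | ∃ i : Fin n, a = SEQ_s f i.1}
termination_by n
decreasing_by exact i.2

/-- [SEQ] recursion -/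
theorem thm_SEQ : St_SEQ := by
  intro α P h
  obtain ⟨a0, -⟩ := h 0 ∅ finite_empty
  have : Nonempty α := ⟨a0⟩
  choose! f hf using h
  refine ⟨SEQ_s f, fun n => ?_⟩
  have h1 : {a | ∃ i : Fin n, a = SEQ_s f i.1} = SEQ_s f '' {i | i < n} := by
    ext a
    constructor
    · rintro ⟨i, hi⟩
      exact ⟨i.1, i.2, hi.symm⟩
    · rintro ⟨i, hi, hia⟩
      exact ⟨⟨i, hi⟩, hia.symm⟩
  have h2 : SEQ_s f n = f n (SEQ_s f '' {i | i < n}) := by
    rw [← h1]
    exact SEQ_s.eq_1 f n
  rw [h2]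
  exact hf n _ ((finite_lt_nat n).image _)

end HEI
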