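import Pool.Agent.HEI.StI

/-!
# HEI: all tuples have equivalent tuples in `D`
-/

set_option autoImplicit false
set_option linter.unusedVariables false

namespace HEI

open Set Pool.Agent.Helper5.DU Pool.Agent.Helper6.Str Pool.Agent.Helper79.VC
  Pool.Agent.Helper97.LO Pool.Agent.Helper97.VC HER HERN

private theorem STA_om {h : Ordinal.{0}} (hh : h < om1) : h + 2 < om1 := by
  have h2 : ((2 : ℕ) : Ordinal.{0}) < om1 := natCast_lt_om1 2
  have h3 : h + ((2 : ℕ) : Ordinal.{0}) < om1 := add_lt_om1 hh h2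
  simpa using h3

theorem thm_STA (hG : St_GPD) (hX : St_XTD) : St_STA := by
  intro L M S F T g0 g Ω D hFS hF3 hGp hB hD k
  induction k with
  | zero =>
    intro h x hg hh hx
    exact ⟨x, fun i => i.elim0, (hG L M S F T g0 g Ω hFS hGp (Fin 0)).1 h x hx⟩
  | succ k ih =>
    intro h x hg hh hx
    obtain ⟨y0, hy0, he⟩ := ih (h + 2) (fun i => x i.castSucc)
      (hg.trans (le_add_of_nonneg_right zero_le)) (STA_om hh) (fun i => hx _)
    obtain ⟨u', hu', he'⟩ := hX L M S F T g0 g Ω hFS hF3 hGp hB h D k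
      (fun i => x i.castSucc) y0 (x (Fin.last k)) hg hh hD he hy0 (hx _)
    refine ⟨(Fin.snoc (α := fun _ => M) y0 u' : Fin (k + 1) → M), ?_, ?_⟩
    · intro i
      refine Fin.lastCases ?_ (fun j => ?_) i
      · rw [Fin.snoc_last]
        exact hu'
      · rw [Fin.snoc_castSucc]
        exact hy0 j
    · have h1 : (Fin.snoc (α := fun _ => M) (fun i : Fin k => x i.castSucc) (x (Fin.last k)) :
          Fin (k + 1) → M) = x := Fin.snoc_init_self x
      rw [h1] at he'
      exact he'

end HEI
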