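import Pool.Agent.HEI.StI

/-!
# HEI [STB]: the equivalence relations are constant from some level on (helper34)
-/

set_option autoImplicit false
set_option linter.unusedVariables false

namespace HEI

open Set Pool.Agent.Helper5.DU Pool.Agent.Helper6.Str Pool.Agent.Helper79.VC
  Pool.Agent.Helper97.LO Pool.Agent.Helper97.VC HER HERN

/-- [STB] -/
theorem thm_STB (hGPD : St_GPD) (hSTA : St_STA) : St_STB := by
  classical
  intro L M S F T g0 g Ω D hFS hF3 hGp hB hD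
  have hUn : Un T Ω := hGp.1.2.2.2.1
  have hg : g < om1 := hGp.1.2.1
  -- countably many pairs of tuples of `D`
  have hDc : Countable D := hD.1.to_subtype
  have hch : ∀ i : Σ k : ℕ, (Fin k → D) × (Fin k → D), ∃ h < om1,
      (∃ h1 < om1, ¬ Ee S F T Ω h1 (fun j => ((i.2.1 j : D) : M)) (fun j => ((i.2.2 j : D) : M))) →
      ¬ Ee S F T Ω h (fun j => ((i.2.1 j : D) : M)) (fun j => ((i.2.2 j : D) : M)) := by
    intro i
    by_cases h : ∃ h1 < om1,
        ¬ Ee S F T Ω h1 (fun j => ((i.2.1 j : D) : M)) (fun j => ((i.2.2 j : D) : M))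
    · obtain ⟨h1, h2, h3⟩ := h
      exact ⟨h1, h2, fun _ => h3⟩
    · exact ⟨g, hg, fun h' => absurd h' h⟩
  choose ℓ hℓ hℓ' using hch
  obtain ⟨g2, hg2, hb⟩ := exists_bound hℓ
  refine ⟨max g g2, le_max_left _ _, max_lt hg hg2, ?_⟩
  intro h k x x' hgh hh hE
  have hgh' : g ≤ h := le_trans (le_max_left _ _) hgh
  obtain ⟨-, p2, -, p4, p5, -⟩ := hGPD L M S F T g0 g Ω hFS hGp (Fin k)
  have hEg : Ee S F T Ω g x x' := p4 g _ Ω x x' (le_max_left _ _) hUn Subset.rfl hE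
  have hX := (p5 x x' hEg).1
  obtain ⟨y, hy, hxy⟩ := hSTA L M S F T g0 g Ω D hFS hF3 hGp hB hD k h x hgh' hh
    (fun i => (hX i).1)
  obtain ⟨y', hy', hxy'⟩ := hSTA L M S F T g0 g Ω D hFS hF3 hGp hB hD k h x' hgh' hh
    (fun i => (hX i).2)
  have e1 : Ee S F T Ω (max g g2) y y' := by
    have a1 := p4 _ _ Ω _ _ hgh hUn Subset.rfl (p2 h x y hxy)
    have a2 := p4 _ _ Ω _ _ hgh hUn Subset.rfl hxy'
    exact (a1.trans hE).trans a2
  have e2 : Ee S F T Ω h y y' := by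
    by_contra hcon
    have h3 := hℓ' ⟨k, fun j => ⟨y j, hy j⟩, fun j => ⟨y' j, hy' j⟩⟩ ⟨h, hh, hcon⟩
    have h4 := hb ⟨k, fun j => ⟨y j, hy j⟩, fun j => ⟨y' j, hy' j⟩⟩
    exact h3 (p4 _ _ Ω _ _ (le_trans h4 (le_max_right _ _)) hUn Subset.rfl e1)
  exact (hxy.trans e2).trans (p2 h x' y' hxy')

end HEI
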