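import Pool.Agent.HEI.StE

/-!
# HEI: thin or isolated
-/

set_option autoImplicit false
set_option linter.unusedVariables false

namespace HEI

open Set Pool.Agent.Helper5.DU Pool.Agent.Helper6.Str Pool.Agent.Helper79.VC
  Pool.Agent.Helper97.LO Pool.Agent.Helper97.VC HER HERN

variable {L : FirstOrder.Language.{0, 0}} {M : Type}

/-- the types of the blocks which are neither thin nor isolated -/
def THN_TT (T : Dt M) : Set (Set (Set M)) :=
  {t | ∃ b ∈ T.Bk, ¬ Is T b ∧ ¬ Th T b ∧ t = {c | ∀ n, T.V n b c}}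

/-- choice of countable sets of blocks -/
structure THN_Kc (K : Set (Set M) → Set (Set M)) : Prop where
  sub : ∀ t, K t ⊆ t
  ctb : ∀ t, (K t).Countable
  eq : ∀ t, t.Countable → K t = t
  inf : ∀ t, ¬ t.Countable → (K t).Infinite

theorem THN_Kex : ∃ K : Set (Set M) → Set (Set M), THN_Kc K := by
  have h : ∀ t : Set (Set M), ∃ K : Set (Set M), K ⊆ t ∧ K.Countable ∧
      (t.Countable → K = t) ∧ (¬ t.Countable → K.Infinite) := by
    intro t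
    by_cases ht : t.Countable
    · exact ⟨t, Subset.rfl, ht, fun _ => rfl, fun h => absurd ht h⟩
    · have hinf : t.Infinite := fun hf => ht hf.countable
      refine ⟨range fun i : ℕ => (hinf.natEmbedding t i : Set M), ?_, countable_range _,
        fun h => absurd h ht, fun _ => ?_⟩
      · rintro _ ⟨i, rfl⟩
        exact (hinf.natEmbedding t i).2
      · refine infinite_range_of_injective fun i j hij => ?_
        exact (hinf.natEmbedding t).injective (Subtype.ext hij)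
  choose K h1 h2 h3 h4 using h
  exact ⟨K, h1, h2, h3, h4⟩

/-- the new system -/
def THN_T1 (T : Dt M) (K : Set (Set M) → Set (Set M)) : Dt M where
  A := T.A ∪ ⋃₀ {b | ∃ t ∈ THN_TT T, b ∈ K t}
  Bk := {b | b ∈ T.Bk ∧ (Is T b ∨ Th T b)}
  V := fun n b b' => T.V n b b' ∧ (b ∈ T.Bk ∧ (Is T b ∨ Th T b)) ∧
    (b' ∈ T.Bk ∧ (Is T b' ∨ Th T b'))

section

variable {S : L.Structure M} {F : Set M} {T : Dt M} {g0 : Ordinal.{0}}
  {K : Set (Set M) → Set (Set M)}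

theorem THN_is (h : FS S F T g0) {b c : Set M} (hbc : ∀ n, T.V n b c) (hb : Is T b) : Is T c := by
  obtain ⟨n, hn⟩ := hb
  exact ⟨n, fun b' hb' m => h.vt _ _ _ _ (h.vs _ _ _ (hbc m)) (hn b' (h.vt _ _ _ _ (hbc n) hb') m)⟩

theorem THN_th {b c : Set M} (hbc : ∀ n, T.V n b c) (hb : Th T b) : Th T c := by
  have := hb c hbc
  subst this
  exact hb

theorem THN_mem (h : FS S F T g0) (hK : THN_Kc K) {t : Set (Set M)} (ht : t ∈ THN_TT T)
    {c : Set M} (hc : c ∈ K t) :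
    c ∈ T.Bk ∧ ¬ Is T c ∧ ¬ Th T c ∧ c ∈ K {d | ∀ n, T.V n c d} := by
  obtain ⟨b, hb, hbI, hbT, rfl⟩ := ht
  have hbc : ∀ n, T.V n b c := hK.sub _ hc
  have hcb : ∀ n, T.V n c b := fun n => h.vs _ _ _ (hbc n)
  refine ⟨(h.vm 0 _ _ (hbc 0)).2.1, fun h' => hbI (THN_is h hcb h'), fun h' => hbT (THN_th hcb h'),
    ?_⟩
  have : {d | ∀ n, T.V n c d} = {d | ∀ n, T.V n b d} := by
    ext d
    exact ⟨fun hd n => h.vt _ _ _ _ (hbc n) (hd n), fun hd n => h.vt _ _ _ _ (hcb n) (hd n)⟩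
  rw [this]
  exact hc

theorem THN_A (h : FS S F T g0) (hK : THN_Kc K) {x : M} : x ∈ (THN_T1 T K).A ↔
    x ∈ T.A ∨ ∃ c, x ∈ c ∧ c ∈ T.Bk ∧ ¬ Is T c ∧ ¬ Th T c ∧ c ∈ K {d | ∀ n, T.V n c d} := by
  constructor
  · rintro (hx | ⟨c, ⟨t, ht, hc⟩, hxc⟩)
    · exact Or.inl hx
    · exact Or.inr ⟨c, hxc, THN_mem h hK ht hc⟩
  · rintro (hx | ⟨c, hxc, h1, h2, h3, h4⟩)
    · exact Or.inl hx
    · exact Or.inr ⟨c, ⟨_, ⟨c, h1, h2, h3, rfl⟩, h4⟩, hxc⟩

theorem THN_subA (h : FS S F T g0) (hK : THN_Kc K) {c : Set M} (h1 : c ∈ T.Bk) (h2 : ¬ Is T c)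
    (h3 : ¬ Th T c) (h4 : c ∈ K {d | ∀ n, T.V n c d}) : c ⊆ (THN_T1 T K).A :=
  fun _ hx => (THN_A h hK).2 (Or.inr ⟨c, hx, h1, h2, h3, h4⟩)

theorem THN_dA (h : FS S F T g0) {b : Set M} (hb : b ∈ T.Bk) {x : M} (hx : x ∈ b) : x ∉ T.A :=
  fun hA => Set.disjoint_left.1 (h.fin b hb).2.2 hx hA

theorem THN_blk (h : FS S F T g0) (hK : THN_Kc K) {b : Set M} (hb : b ∈ T.Bk) {x : M}
    (hx : x ∈ b) (hA : x ∈ (THN_T1 T K).A) :
    ¬ Is T b ∧ ¬ Th T b ∧ b ∈ K {d | ∀ n, T.V n b d} := by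
  rcases (THN_A h hK).1 hA with h1 | ⟨c, hxc, h1, h2, h3, h4⟩
  · exact absurd h1 (THN_dA h hb hx)
  · have : b = c := h.dis b hb c h1 ⟨x, hx, hxc⟩
    subst this
    exact ⟨h2, h3, h4⟩

theorem THN_blk2 (h : FS S F T g0) {b : Set M} (hb : b ∈ T.Bk) {x : M}
    (hx : x ∈ b) (hX : x ∈ (THN_T1 T K).X) (hA : x ∉ (THN_T1 T K).A) : Is T b ∨ Th T b := by
  rcases hX with h1 | ⟨c, ⟨hc, hc2⟩, hxc⟩
  · exact absurd h1 hA
  · have : b = c := h.dis b hb c hc ⟨x, hx, hxc⟩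
    subst this
    exact hc2

theorem THN_X (h : FS S F T g0) (hK : THN_Kc K) : (THN_T1 T K).X ⊆ T.X := by
  rintro x (hx | ⟨c, hc, hxc⟩)
  · rcases (THN_A h hK).1 hx with h1 | ⟨c, hxc, h1, -⟩
    · exact Or.inl h1
    · exact Or.inr ⟨c, h1, hxc⟩
  · exact Or.inr ⟨c, hc.1, hxc⟩

/-- dense sets of the new system are dense -/
theorem THN_DD (h : FS S F T g0) (hK : THN_Kc K) {D : Set M}
    (hD : DD (THN_T1 T K) (THN_T1 T K).A D) : DD T T.A D := by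
  obtain ⟨h1, ⟨h2, h3, h4⟩, h5, h6⟩ := hD
  have hA : T.A ⊆ D := fun x hx => h2 (Or.inl hx)
  have hnA : ∀ c ∈ T.Bk, ¬ c ⊆ T.A := fun c hc hcA => by
    obtain ⟨x, hx⟩ := (h.fin c hc).2.1
    exact THN_dA h hc hx (hcA hx)
  refine ⟨h1, ⟨hA, h3.trans (THN_X h hK), ?_⟩, hA, ?_⟩
  · rintro b hb ⟨x, hxb, hxD⟩
    by_cases hxA : x ∈ (THN_T1 T K).A
    · obtain ⟨e1, e2, e3⟩ := THN_blk h hK hb hxb hxA
      exact (THN_subA h hK hb e1 e2 e3).trans h2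
    · exact h4 b ⟨hb, THN_blk2 h hb hxb (h3 hxD) hxA⟩ ⟨x, hxb, hxD⟩
  · intro b hb hbA n
    by_cases hall : ∀ b', T.V n b b' → b' ⊆ D
    · exact Or.inr hall
    · left
      push Not at hall
      obtain ⟨b', hb', hbD⟩ := hall
      have hb'B := (h.vm _ _ _ hb').2.1
      by_cases hT : Is T b' ∨ Th T b'
      · rcases h6 b' ⟨hb'B, hT⟩ (fun hs => hbD (hs.trans h2)) n with hi | hi
        · refine hi.mono ?_
          rintro c ⟨hc1, hc2, hc3⟩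
          exact ⟨h.vt _ _ _ _ hb' hc1.1, hnA c hc1.2.2.1, hc3⟩
        · exact absurd (hi b' ⟨h.vr n b' hb'B, ⟨hb'B, hT⟩, ⟨hb'B, hT⟩⟩) hbD
      · push Not at hT
        have hnK : b' ∉ K {d | ∀ n, T.V n b' d} := fun hk =>
          hbD ((THN_subA h hK hb'B hT.1 hT.2 hk).trans h2)
        have hnc : ¬ {d | ∀ n, T.V n b' d}.Countable := fun hc => by
          rw [hK.eq _ hc] at hnK
          exact hnK fun n => h.vr n b' hb'B
        refine (hK.inf _ hnc).mono fun c hc => ?_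
        obtain ⟨e1, e2, e3, e4⟩ := THN_mem h hK ⟨b', hb'B, hT.1, hT.2, rfl⟩ hc
        exact ⟨h.vt _ _ _ _ hb' (hK.sub _ hc n), hnA c e1, (THN_subA h hK e1 e2 e3 e4).trans h2⟩

theorem THN_ex (h : FS S F T g0) {D : Set M} (hD : DD T T.A D) {d : Set M} (hd : d ∈ T.Bk)
    (n : ℕ) : ∃ d', d' ⊆ D ∧ T.V n d d' := by
  have hnA : ¬ d ⊆ T.A := fun hcA => by
    obtain ⟨x, hx⟩ := (h.fin d hd).2.1
    exact THN_dA h hd hx (hcA hx)
  rcases hD.2.2.2 d hd hnA n with h1 | h1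
  · obtain ⟨d', h2⟩ := h1.nonempty
    exact ⟨d', h2.2.2, h2.1⟩
  · exact ⟨d, h1 d (h.vr n d hd), h.vr n d hd⟩

theorem THN_half (hImg : St_IMG) (h : FS S F T g0) (hK : THN_Kc K) {D D' : Set M}
    {p : Set (M × M)} (hD : DD (THN_T1 T K) (THN_T1 T K).A D)
    (hD' : DD (THN_T1 T K) (THN_T1 T K).A D') (hp : Ps S F (g0 + 1 + 1) D D' p) {a : M × M}
    (ha : a ∈ p) (h1 : a.1 ∈ (THN_T1 T K).A) : a.2 ∈ (THN_T1 T K).A := by
  obtain ⟨i1, i2, -, -, -, i6, -, i8⟩ := hImg L M S F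
  have hDT := THN_DD h hK hD
  have hDT' := THN_DD h hK hD'
  have hle1 : g0 ≤ g0 + 1 := le_self_add
  have hle2 : g0 ≤ g0 + 1 + 1 := hle1.trans le_self_add
  have hp0 : Ps S F g0 D D' p := i8 _ _ _ _ _ _ hle2 hp Subset.rfl hp.2.1
  rcases (THN_A h hK).1 h1 with h2 | ⟨b, hab, hb, hbI, hbT, hbK⟩
  · exact Or.inl ((h.va D D' p hDT hDT' hp0 a ha).1 h2)
  · have hbA : b ⊆ (THN_T1 T K).A := THN_subA h hK hb hbI hbT hbK
    have hbD : b ⊆ D := hbA.trans hD.2.1.1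
    obtain ⟨c, hcD, hcb, hbc⟩ : ∃ c, c ⊆ D ∧ c ≠ b ∧ ∀ n, T.V n b c := by
      have hex : ∃ c ∈ K {d | ∀ n, T.V n b d}, c ≠ b := by
        by_cases hc : {d | ∀ n, T.V n b d}.Countable
        · rw [hK.eq _ hc]
          by_contra hcon
          push Not at hcon
          exact hbT fun c hc => hcon c hc
        · obtain ⟨c, hc1, hc2⟩ := (hK.inf _ hc).exists_notMem_finite (finite_singleton b)
          exact ⟨c, hc1, hc2⟩
      obtain ⟨c, hc, hcb⟩ := hex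
      obtain ⟨e1, e2, e3, e4⟩ := THN_mem h hK ⟨b, hb, hbI, hbT, rfl⟩ hc
      exact ⟨c, (THN_subA h hK e1 e2 e3 e4).trans hD.2.1.1, hcb, hK.sub _ hc⟩
    obtain ⟨p1, hpp1, hp1, hb1⟩ := (i6 _ _ _ _ _ hp (h.fin b hb).1).1 hbD
    have hp10 : Ps S F g0 D D' p1 := i8 _ _ _ _ _ _ hle1 hp1 Subset.rfl hp1.2.1
    have hbB : Im p1 b ∈ T.Bk := (h.vb D D' p1 hDT hDT' hp10 b hb1).1 hb
    have ha2 : a.2 ∈ Im p1 b := ⟨a.1, hab, hpp1 ha⟩
    have hnT : ¬ Th T (Im p1 b) := by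
      intro hT
      obtain ⟨p2, hpp2, hp2, hc2⟩ :=
        (i6 _ _ _ _ _ hp1 (h.fin c (h.vm 0 b c (hbc 0)).2.1).1).1 hcD
      have e := (i1 p1 b hp1.2.2.2.atEq hb1).2.2.2 p2 hpp2 hp2.2.2.2.atEq
      have hv : ∀ n, T.V n (Im p1 b) (Im p2 c) := fun n => by
        have := (h.vv D D' p2 hDT hDT' hp2 n b c e.2 hc2).1 (hbc n)
        rwa [e.1] at this
      have h3 := hT _ hv
      rw [← e.1] at h3
      exact hcb ((i2 p2 c b hp2.2.2.2.atEq hc2 e.2).1.1 h3)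
    have hnI : ¬ Is T (Im p1 b) := by
      rintro ⟨n, hn⟩
      apply hbI
      refine ⟨n, fun d hd m => ?_⟩
      by_contra hm
      have hdB := (h.vm _ _ _ hd).2.1
      obtain ⟨d', hd'D, hd'⟩ := THN_ex h hDT hdB (max n m)
      have hd'B := (h.vm _ _ _ hd').2.1
      have e1 : T.V n b d' := h.vt _ _ _ _ hd (h.vd _ _ _ _ (le_max_left _ _) hd')
      have e2 : ¬ T.V m b d' := fun h' =>
        hm (h.vt _ _ _ _ h' (h.vs _ _ _ (h.vd _ _ _ _ (le_max_right _ _) hd')))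
      obtain ⟨p2, hpp2, hp2, hd2⟩ := (i6 _ _ _ _ _ hp1 (h.fin d' hd'B).1).1 hd'D
      have e := (i1 p1 b hp1.2.2.2.atEq hb1).2.2.2 p2 hpp2 hp2.2.2.2.atEq
      have f1 := (h.vv D D' p2 hDT hDT' hp2 n b d' e.2 hd2).1 e1
      have f2 := fun h' => e2 ((h.vv D D' p2 hDT hDT' hp2 m b d' e.2 hd2).2 h')
      rw [e.1] at f1 f2
      exact f2 (hn _ f1 m)
    by_contra hcon
    rcases THN_blk2 h hbB ha2 (hD'.2.1.2.1 (hp.2.2.1 a ha).2) hcon with h3 | h3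
    · exact hnI h3
    · exact hnT h3

theorem THN_va (hImg : St_IMG) (h : FS S F T g0) (hK : THN_Kc K) {D D' : Set M}
    {p : Set (M × M)} (hD : DD (THN_T1 T K) (THN_T1 T K).A D)
    (hD' : DD (THN_T1 T K) (THN_T1 T K).A D') (hp : Ps S F (g0 + 1 + 1) D D' p) {a : M × M}
    (ha : a ∈ p) : a.1 ∈ (THN_T1 T K).A ↔ a.2 ∈ (THN_T1 T K).A := by
  refine ⟨THN_half hImg h hK hD hD' hp ha, fun h2 => ?_⟩
  obtain ⟨-, -, -, -, -, -, i7, -⟩ := hImg L M S F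
  exact THN_half hImg h hK hD' hD (i7 _ _ _ _ hp) (a := a.swap) (by simpa using ha) h2

theorem THN_vb (hImg : St_IMG) (h : FS S F T g0) (hK : THN_Kc K) {D D' : Set M}
    {p : Set (M × M)} (hD : DD (THN_T1 T K) (THN_T1 T K).A D)
    (hD' : DD (THN_T1 T K) (THN_T1 T K).A D') (hp : Ps S F (g0 + 1 + 1) D D' p) {b : Set M}
    (hb : Dm p b) : b ∈ (THN_T1 T K).Bk ↔ Im p b ∈ (THN_T1 T K).Bk := by
  obtain ⟨i1, i2, -, -, -, i6, -, i8⟩ := hImg L M S F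
  have hDT := THN_DD h hK hD
  have hDT' := THN_DD h hK hD'
  have hle2 : g0 ≤ g0 + 1 + 1 := (le_self_add : g0 ≤ g0 + 1).trans le_self_add
  have hp0 : Ps S F g0 D D' p := i8 _ _ _ _ _ _ hle2 hp Subset.rfl hp.2.1
  have hvb := h.vb D D' p hDT hDT' hp0 b hb
  have key : ∀ c ∈ T.Bk, ∀ x ∈ c, x ∈ (THN_T1 T K).X →
      (c ∈ (THN_T1 T K).Bk ↔ x ∉ (THN_T1 T K).A) := by
    intro c hc x hx hxX
    constructor
    · rintro ⟨-, h1 | h1⟩ h2
      · exact (THN_blk h hK hc hx h2).1 h1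
      · exact (THN_blk h hK hc hx h2).2.1 h1
    · exact fun h1 => ⟨hc, THN_blk2 h hc hx hxX h1⟩
  have main : b ∈ T.Bk → (b ∈ (THN_T1 T K).Bk ↔ Im p b ∈ (THN_T1 T K).Bk) := by
    intro hbB
    obtain ⟨x, hx⟩ := (h.fin b hbB).2.1
    obtain ⟨y, hy⟩ := hb x hx
    rw [key b hbB x hx (hD.2.1.2.1 (hp.2.2.1 _ hy).1),
      key (Im p b) (hvb.1 hbB) y ⟨x, hx, hy⟩ (hD'.2.1.2.1 (hp.2.2.1 _ hy).2)]
    exact not_congr (THN_va hImg h hK hD hD' hp hy)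
  constructor
  · exact fun h1 => (main h1.1).1 h1
  · exact fun h1 => (main (hvb.2 h1.1)).2 h1

theorem THN_FS (hImg : St_IMG) (h : FS S F T g0) (hK : THN_Kc K)
    (hfin : (THN_TT T).Finite) : FS S F (THN_T1 T K) (g0 + 1 + 1) where
  pig := h.pig
  ff := h.ff
  ac := by
    refine h.ac.union ?_
    have e : {b | ∃ t ∈ THN_TT T, b ∈ K t} = ⋃ t ∈ THN_TT T, K t := by
      ext b; simp
    refine Set.Countable.sUnion ?_ ?_
    · rw [e]
      exact hfin.countable.biUnion fun t _ => hK.ctb t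
    · rintro b ⟨t, ht, hb⟩
      exact (h.fin b (THN_mem h hK ht hb).1).1.countable
  fa := h.fa.trans subset_union_left
  fin := by
    rintro b ⟨hb, hb2⟩
    refine ⟨(h.fin b hb).1, (h.fin b hb).2.1, Set.disjoint_left.2 fun x hx hA => ?_⟩
    obtain ⟨e1, e2, -⟩ := THN_blk h hK hb hx hA
    rcases hb2 with h1 | h1
    · exact e1 h1
    · exact e2 h1
  dis := fun b hb b' hb' hn => h.dis b hb.1 b' hb'.1 hn
  vm := fun n b b' hv => ⟨hv.2.1, hv.2.2, (h.vm _ _ _ hv.1).2.2⟩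
  vr := fun n b hb => ⟨h.vr n b hb.1, hb, hb⟩
  vs := fun n b b' hv => ⟨h.vs _ _ _ hv.1, hv.2.2, hv.2.1⟩
  vt := fun n b b' b'' hv hw => ⟨h.vt _ _ _ _ hv.1 hw.1, hv.2.1, hw.2.2⟩
  vd := fun n k b b' hnk hv => ⟨h.vd _ _ _ _ hnk hv.1, hv.2⟩
  vf := by
    intro n k
    obtain ⟨R, hR, h1⟩ := h.vf n k
    classical
    let f : Set M → Set M := fun c =>
      if hc : ∃ c', c' ∈ (THN_T1 T K).Bk ∧ T.V n c c' then hc.choose else c
    refine ⟨f '' R, hR.image f, fun b hb hk => ?_⟩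
    obtain ⟨c, hc, hcb⟩ := h1 b hb.1 hk
    have hex : ∃ c', c' ∈ (THN_T1 T K).Bk ∧ T.V n c c' := ⟨b, hb, hcb⟩
    refine ⟨f c, mem_image_of_mem f hc, ?_⟩
    have hf : f c = hex.choose := dif_pos hex
    rw [hf]
    exact ⟨h.vt _ _ _ _ (h.vs _ _ _ hex.choose_spec.2) hcb, hex.choose_spec.1, hb⟩
  au := fun b b' hne hv => h.au b b' hne fun n => (hv n).1
  gl := add_one_lt_om1 (add_one_lt_om1 h.gl)
  va := fun D D' p hD hD' hp a ha => THN_va hImg h hK hD hD' hp ha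
  vb := fun D D' p hD hD' hp b hb => THN_vb hImg h hK hD hD' hp hb
  vv := by
    intro D D' p hD hD' hp n b b' hb hb'
    have i8 := (hImg L M S F).2.2.2.2.2.2.2
    have hle2 : g0 ≤ g0 + 1 + 1 := (le_self_add : g0 ≤ g0 + 1).trans le_self_add
    have hp0 : Ps S F g0 D D' p := i8 _ _ _ _ _ _ hle2 hp Subset.rfl hp.2.1
    have e1 := THN_vb hImg h hK hD hD' hp hb
    have e2 := THN_vb hImg h hK hD hD' hp hb'
    have e3 := h.vv D D' p (THN_DD h hK hD) (THN_DD h hK hD') hp0 n b b' hb hb'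
    constructor
    · rintro ⟨h1, h2, h3⟩
      exact ⟨e3.1 h1, e1.1 h2, e2.1 h3⟩
    · rintro ⟨h1, h2, h3⟩
      exact ⟨e3.2 h1, e1.2 h2, e2.2 h3⟩

theorem THN_F3 : F3 (THN_T1 T K) := by
  rintro b ⟨hb, h1 | h1⟩
  · obtain ⟨n, hn⟩ := h1
    exact Or.inr ⟨n, fun b' hb' m => ⟨hn b' hb'.1 m, hb'.2⟩⟩
  · exact Or.inl fun b' hb' => h1 b' fun n => (hb' n).1

/-! ## Back and forth -/

/-- automorphisms of the system -/
def THN_au (S : L.Structure M) (T : Dt M) (τ : Equiv.Perm M) : Prop :=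
  (∀ (n : ℕ) (R : L.Relations n) (w : Fin n → M), S.RelMap R w ↔ S.RelMap R fun i => τ (w i)) ∧
    ∀ x, τ x ∈ T.X ↔ x ∈ T.X

theorem THN_bfr (h : FS S F T g0) (hK : THN_Kc K) (γ : Ordinal.{0}) : ∀ (p : Set (M × M)),
    p.Finite → (∃ τ, THN_au S T τ ∧ ∀ a ∈ p, a.1 ∈ T.X ∧ a.2 = τ a.1 ∧ a.2 ∈ (THN_T1 T K).X) →
    BFR S S T.X (THN_T1 T K).X γ p := by
  induction γ using WellFoundedLT.induction with
  | _ γ ih =>
  rintro p hp ⟨τ, ⟨hτ1, hτ2⟩, hpτ⟩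
  rw [BFR.def]
  refine ⟨⟨fun a ha b hb => ?_, fun n R v hv => ?_⟩, fun β hβ => ⟨fun u hu => ?_, fun v hv => ?_⟩⟩
  · rw [(hpτ a ha).2.1, (hpτ b hb).2.1]
    exact τ.injective.eq_iff.symm
  · rw [hτ1 n R]
    have : (fun i => τ (v i).1) = fun i => (v i).2 := funext fun i => ((hpτ _ (hv i)).2.1).symm
    rw [this]
  · by_cases hX : τ u ∈ (THN_T1 T K).X
    · refine ⟨τ u, hX, ih β hβ _ (hp.insert _) ⟨τ, ⟨hτ1, hτ2⟩, ?_⟩⟩
      rintro a (rfl | ha)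
      · exact ⟨hu, rfl, hX⟩
      · exact hpτ a ha
    · have huX : τ u ∈ T.X := (hτ2 u).2 hu
      rcases huX with hA | ⟨c, hc, huc⟩
      · exact absurd (Or.inl (Or.inl hA)) hX
      · have hcT : ¬ (Is T c ∨ Th T c) := fun h1 => hX (Or.inr ⟨c, ⟨hc, h1⟩, huc⟩)
        push Not at hcT
        have hcK : c ∉ K {d | ∀ n, T.V n c d} := fun h1 =>
          hX (Or.inl (THN_subA h hK hc hcT.1 hcT.2 h1 huc))
        have hnc : ¬ {d | ∀ n, T.V n c d}.Countable := fun h1 => by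
          rw [hK.eq _ h1] at hcK
          exact hcK fun n => h.vr n c hc
        have hcd : ∀ y ∈ c, y ∉ (THN_T1 T K).X := by
          intro y hy hyX
          by_cases hyA : y ∈ (THN_T1 T K).A
          · exact hcK (THN_blk h hK hc hy hyA).2.2
          · rcases THN_blk2 h hc hy hyX hyA with h1 | h1
            · exact hcT.1 h1
            · exact hcT.2 h1
        obtain ⟨c', hc', hdis⟩ : ∃ c' ∈ K {d | ∀ n, T.V n c d}, ∀ a ∈ p, a.2 ∉ c' := by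
          by_contra hcon
          push Not at hcon
          apply hK.inf _ hnc
          choose f hf1 hf2 using hcon
          have hfin : (Prod.snd '' p).Finite := hp.image _
          have hB : ∀ d ∈ K {d | ∀ n, T.V n c d}, d ∈ T.Bk := fun d hd =>
            (THN_mem h hK ⟨c, hc, hcT.1, hcT.2, rfl⟩ hd).1
          have : (K {d | ∀ n, T.V n c d}) ⊆
              ⋃ y ∈ Prod.snd '' p, {d | d ∈ T.Bk ∧ y ∈ d} := by
            intro d hd
            simp only [mem_iUnion]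
            exact ⟨(f d hd).2, mem_image_of_mem _ (hf1 d hd), hB d hd, hf2 d hd⟩
          refine (hfin.biUnion fun y _ => ?_).subset this
          refine Set.Subsingleton.finite ?_
          rintro d ⟨hd1, hd2⟩ e ⟨he1, he2⟩
          exact h.dis d hd1 e he1 ⟨y, hd2, he2⟩
        have hcc' : ∀ n, T.V n c c' := hK.sub _ hc'
        have hc'B := (h.vm 0 _ _ (hcc' 0)).2.1
        have hne : c ≠ c' := fun e => hcK (by rw [← e] at hc'; exact hc')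
        obtain ⟨ρ, hρ1, hρ2, hρ3, hρ4⟩ := h.au c c' hne hcc'
        have hc'A : c' ⊆ (THN_T1 T K).A := by
          obtain ⟨e1, e2, e3, e4⟩ := THN_mem h hK ⟨c, hc, hcT.1, hcT.2, rfl⟩ hc'
          exact THN_subA h hK e1 e2 e3 e4
        have hρc : ∀ x ∈ c, ρ x ∈ c' := fun x hx => by rw [← hρ3]; exact mem_image_of_mem _ hx
        have hρc' : ∀ x ∈ c', ρ x ∈ c := fun x hx => by
          rw [← hρ3] at hx
          obtain ⟨y, hy, rfl⟩ := hx
          rw [hρ1]; exact hy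
        have hρX : ∀ x, ρ x ∈ T.X ↔ x ∈ T.X := by
          intro x
          by_cases hx : ρ x = x
          · rw [hx]
          · rcases hρ2 x hx with h1 | h1
            · exact ⟨fun _ => Or.inr ⟨c, hc, h1⟩, fun _ => Or.inr ⟨c', hc'B, hρc x h1⟩⟩
            · exact ⟨fun _ => Or.inr ⟨c', hc'B, h1⟩, fun _ => Or.inr ⟨c, hc, hρc' x h1⟩⟩
        have hX' : ρ (τ u) ∈ (THN_T1 T K).X := Or.inl (hc'A (hρc _ huc))
        refine ⟨ρ (τ u), hX', ih β hβ _ (hp.insert _) ⟨τ.trans ρ, ⟨?_, ?_⟩, ?_⟩⟩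
        · intro n R w
          rw [hτ1 n R w]
          exact hρ4.2 n R (fun i => (τ (w i), ρ (τ (w i)))) fun i => rfl
        · intro x
          rw [Equiv.trans_apply, hρX, hτ2]
        · rintro a (rfl | ha)
          · exact ⟨hu, rfl, hX'⟩
          · obtain ⟨e1, e2, e3⟩ := hpτ a ha
            refine ⟨e1, ?_, e3⟩
            rw [Equiv.trans_apply, ← e2]
            by_contra hcon
            rcases hρ2 a.2 (fun e => hcon e.symm) with h1 | h1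
            · exact hcd _ h1 e3
            · exact hdis a ha h1
  · have hvX : v ∈ T.X := THN_X h hK hv
    refine ⟨τ.symm v, ?_, ih β hβ _ (hp.insert _) ⟨τ, ⟨hτ1, hτ2⟩, ?_⟩⟩
    · rw [← hτ2]
      simpa using hvX
    · rintro a (rfl | ha)
      · refine ⟨?_, by simp, hv⟩
        rw [← hτ2]
        simpa using hvX
      · exact hpτ a ha

end

theorem thm_THN (hImg : St_IMG) (hMul : St_MUL) : St_THN := by
  intro L M S F T g0 h
  obtain ⟨K, hK⟩ := THN_Kex (M := M)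
  refine ⟨THN_T1 T K, g0 + 1 + 1, THN_FS hImg h hK (hMul L M S F T g0 h), THN_F3, fun γ => ?_⟩
  refine THN_bfr h hK γ ∅ finite_empty ⟨1, ⟨fun n R w => Iff.rfl, fun x => Iff.rfl⟩, ?_⟩
  intro a ha
  exact absurd ha (notMem_empty a)

end HEI
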