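import Pool.Agent.HEI.StG

/-!
# HEI [TRN]: transport of boundary blocks (helper80)
-/

set_option autoImplicit false
set_option linter.unusedVariables false

namespace HEI

open Set Pool.Agent.Helper5.DU Pool.Agent.Helper6.Str Pool.Agent.Helper79.VC
  Pool.Agent.Helper97.LO Pool.Agent.Helper97.VC HER HERN

variable {L : FirstOrder.Language.{0, 0}} {M : Type} {S : L.Structure M} {F : Set M} {T : Dt M}
  {g0 g : Ordinal.{0}} {Ω : Set M}

theorem TRN_gp (hIMG : St_IMG) (h : Gp S F T g0 g Ω) : Gp S F T g0 (g + 1) Ω := by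
  obtain ⟨⟨h1, h2, h3, h4, h5⟩, h6⟩ := h
  refine ⟨⟨h1.trans le_self_add, add_one_lt_om1 h2, h3, h4,
    fun D D' p hD hD' hp => h5 D D' p hD hD' ?_⟩, h6⟩
  exact (hIMG L M S F).2.2.2.2.2.2.2 (g + 1) g D D' p p le_self_add hp Subset.rfl hp.2.1

theorem TRN_pp (hIMG : St_IMG) {D D' : Set M} (hD : DD T Ω D) (hD' : DD T Ω D')
    {p : Set (M × M)} (hp : Ps S F g D D' p) {β : Type} {y y' : β → M}
    (h : ∀ i, (y i, y' i) ∈ p) : Pp S F T Ω g y y' := by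
  refine ⟨D, D', hD, hD', (hIMG L M S F).2.2.2.2.2.2.2 g g D D' p _ le_rfl hp
    (union_subset hp.2.1 ?_) subset_union_left⟩
  rintro _ ⟨i, rfl⟩
  exact h i

theorem TRN_symm (hIMG : St_IMG) {β : Type} {y y' : β → M} (h : Pp S F T Ω g y y') :
    Pp S F T Ω g y' y := by
  obtain ⟨D, D', hD, hD', h1⟩ := h
  exact TRN_pp hIMG hD' hD ((hIMG L M S F).2.2.2.2.2.2.1 g D D' _ h1)
    (fun i => Or.inr ⟨i, rfl⟩)

theorem TRN_step (hIMG : St_IMG) (hDDM : St_DDM) (hEQB : St_EQB)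
    (hBXY : St_BXY) (hFS : FS S F T g0) (hF3 : F3 T) (hG : Gp S F T g0 g Ω) {β : Type} [Finite β]
    {x x' : β → M} {k : ℕ} {w w' : Fin k → M}
    (h : Pp S F T Ω (g + 1) (Sum.elim x w) (Sum.elim x' w'))
    (hX : ∀ i, x i ∈ T.X) (hX' : ∀ i, x' i ∈ T.X)
    (hFr' : Fr T Ω (range x') (range w'))
    (hI : In S F T Ω g (range x) (range w)) : In S F T Ω g (range x') (range w') := by
  classical
  obtain ⟨im1, im2, im3, im4, im5, im6, im7, im8⟩ := hIMG L M S F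
  obtain ⟨dd1, dd2, dd3, dd4, dd5, dd6, dd7, dd8, dd9⟩ := hDDM L M S F T g0 hFS
  have hrX : range x ⊆ T.X := by
    rintro _ ⟨i, rfl⟩
    exact hX i
  have hrX' : range x' ⊆ T.X := by
    rintro _ ⟨i, rfl⟩
    exact hX' i
  obtain ⟨-, -, -, -, -, -, -, -, -, -, -, e12⟩ :=
    hEQB L M S F T g0 g Ω (range x) hFS hG (finite_range x) hrX
  obtain ⟨f1, f2, f3, f4, f5, f6, f7, f8, f9, f10, f11, f12⟩ :=
    hEQB L M S F T g0 g Ω (range x') hFS hG (finite_range x') hrX'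
  obtain ⟨D, D', hD, hD', hP⟩ := h
  have hUn : Un T Ω := hG.1.2.2.2.1
  have hDA := dd3 Ω D hUn hD
  have hDA' := dd3 Ω D' hUn hD'
  obtain ⟨-, n, hn⟩ := hI
  have key : ∀ d', d' ⊆ D' → T.V n (range w') d' → Fr T Ω (range x') d' →
      Eb S F T Ω g (range x') (range w') d' := by
    intro d' hd'D hV hFd'
    obtain ⟨p', d, hpp, hP', hdD, hDm, hIm⟩ :=
      (im6 g D D' _ d' hP (hFS.fin d' hFd'.1).1).2 hd'D
    have hat : AtEq S S p' := hP'.2.2.2.atEq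
    have hpx : ∀ i, (x i, x' i) ∈ p' := fun i => hpp (Or.inr ⟨Sum.inl i, rfl⟩)
    have hpw : ∀ i, (w i, w' i) ∈ p' := fun i => hpp (Or.inr ⟨Sum.inr i, rfl⟩)
    obtain ⟨hDx, hIx⟩ := im5 p' β x x' hat hpx
    obtain ⟨hDw, hIw⟩ := im5 p' (Fin k) w w' hat hpw
    have hP0 : Ps S F g0 D D' p' := im8 g g0 D D' p' p' hG.1.1 hP' Subset.rfl hP'.2.1
    have hdB : d ∈ T.Bk := by
      rw [hFS.vb D D' p' hDA hDA' hP0 d hDm, hIm]
      exact hFd'.1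
    have hdΩ : ¬ d ⊆ Ω := by
      intro hs
      apply hFd'.2.1
      rw [← hIm]
      rintro z ⟨u, hu, huz⟩
      exact (hG.1.2.2.2.2 D D' p' hD hD' hP' (u, z) huz).1 (hs hu)
    have hdE : Disjoint d (range x) := by
      rw [← (im2 p' d (range x) hat hDm hDx).2.2.1, hIm, hIx]
      exact hFd'.2.2
    have hVd : T.V n (range w) d := by
      rw [hFS.vv D D' p' hDA hDA' hP0 n (range w) d hDw hDm, hIw, hIm]
      exact hV
    obtain ⟨k₁, w1, v1, hw1, hv1, hw1r, hv1r, hE⟩ :=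
      (e12 β x g (range w) d rfl).1 (hn d hVd ⟨hdB, hdΩ, hdE⟩)
    obtain ⟨w1', hw1p, hw1r', hw1i⟩ := im4 p' k₁ w1 hat (by rw [hw1r]; exact hDw)
    obtain ⟨v1', hv1p, hv1r', hv1i⟩ := im4 p' k₁ v1 hat (by rw [hv1r]; exact hDm)
    have s1 : Pp S F T Ω g (Sum.elim x w1) (Sum.elim x' w1') :=
      TRN_pp hIMG hD hD' hP' (by rintro (i | i); exacts [hpx i, hw1p i])
    have s2 : Pp S F T Ω g (Sum.elim x v1) (Sum.elim x' v1') :=
      TRN_pp hIMG hD hD' hP' (by rintro (i | i); exacts [hpx i, hv1p i])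
    refine (f12 β x' g (range w') d' rfl).2
      ⟨k₁, w1', v1', hw1i hw1, hv1i hv1, ?_, ?_, ?_⟩
    · rw [hw1r', hw1r, hIw]
    · rw [hv1r', hv1r, hIm]
    · exact ((Relation.TransGen.single (TRN_symm hIMG s1)).trans hE).trans
        (Relation.TransGen.single s2)
  by_contra hc
  obtain ⟨-, hBy⟩ := (hBXY L M S F T g0 g Ω (range x') hFS hF3 hG (finite_range x') hrX').1 _
    ⟨hFr', hc⟩
  obtain ⟨c, hVc, hInc, hnE⟩ := hBy n
  obtain ⟨m, hm⟩ := f9 c hInc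
  have hinf := dd7 Ω D' hG.2 hD' c hInc.1.1 hInc.1.2.1 (max m n)
  obtain ⟨d', ⟨hd1, hd2, hd3⟩, hd4⟩ := (hinf.sdiff (dd9 (range x') (finite_range x'))).nonempty
  have hdB : d' ∈ T.Bk := (hFS.vm _ _ _ hd1).2.1
  have hdE : Disjoint d' (range x') := by
    by_contra hne
    exact hd4 ⟨hdB, hne⟩
  have hdF : Fr T Ω (range x') d' := ⟨hdB, hd2, hdE⟩
  have hVn : T.V n (range w') d' :=
    hFS.vt n _ _ _ hVc (hFS.vd n _ _ _ (le_max_right m n) hd1)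
  have h1 := key d' hd3 hVn hdF
  have h2 := (hm d' (hFS.vd m _ _ _ (le_max_left m n) hd1) hdF).2
  exact hnE (f3 _ _ _ h1 (f2 _ _ h2))

theorem TRN_one (hIMG : St_IMG) (hDDM : St_DDM) (hGPD : St_GPD) (hEQB : St_EQB)
    (hBXY : St_BXY) (hFS : FS S F T g0) (hF3 : F3 T) (hG : Gp S F T g0 g Ω) {β : Type} [Finite β]
    {x x' : β → M} {k : ℕ} {w w' : Fin k → M}
    (h : Pp S F T Ω (g + 1) (Sum.elim x w) (Sum.elim x' w'))
    (hFr : Fr T Ω (range x) (range w)) : Fr T Ω (range x') (range w') ∧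
    (In S F T Ω g (range x) (range w) ↔ In S F T Ω g (range x') (range w')) := by
  obtain ⟨-, -, -, -, g5, -⟩ := hGPD L M S F T g0 (g + 1) Ω hFS (TRN_gp hIMG hG) (β ⊕ Fin k)
  obtain ⟨hXX, hat, hΩ, -, hB, -⟩ := g5 _ _ (Relation.TransGen.single h)
  have hX : ∀ i, x i ∈ T.X := fun i => (hXX (Sum.inl i)).1
  have hX' : ∀ i, x' i ∈ T.X := fun i => (hXX (Sum.inl i)).2
  have hFr' : Fr T Ω (range x') (range w') := by
    refine ⟨(hB (Fin k) Sum.inr).1 hFr.1, ?_, ?_⟩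
    · intro hs
      apply hFr.2.1
      rintro _ ⟨i, rfl⟩
      exact (hΩ (Sum.inr i)).2 (hs ⟨i, rfl⟩)
    · rw [Set.disjoint_left]
      rintro _ ⟨i, rfl⟩ ⟨j, hj⟩
      have h1 := (hat.1 (w i, w' i) (Or.inr ⟨Sum.inr i, rfl⟩) (x j, x' j)
        (Or.inr ⟨Sum.inl j, rfl⟩)).2 hj.symm
      exact Set.disjoint_left.1 hFr.2.2 ⟨i, rfl⟩ ⟨j, h1.symm⟩
  exact ⟨hFr', fun hI => TRN_step hIMG hDDM hEQB hBXY hFS hF3 hG h hX hX' hFr' hI,
    fun hI => TRN_step hIMG hDDM hEQB hBXY hFS hF3 hG (TRN_symm hIMG h) hX' hX hFr hI⟩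

/-- [TRN] -/
theorem thm_TRN (hIMG : St_IMG) (hDDM : St_DDM) (hGPD : St_GPD) (hEQB : St_EQB)
    (hBXY : St_BXY) : St_TRN := by
  intro L M S F T g0 g Ω hFS hF3 hG β _ x x' k w w' h hFr
  have main : ∀ y y' : β ⊕ Fin k → M, Ee S F T Ω (g + 1) y y' →
      Fr T Ω (range (y ∘ Sum.inl)) (range (y ∘ Sum.inr)) →
      Fr T Ω (range (y' ∘ Sum.inl)) (range (y' ∘ Sum.inr)) ∧
      (In S F T Ω g (range (y ∘ Sum.inl)) (range (y ∘ Sum.inr)) ↔
        In S F T Ω g (range (y' ∘ Sum.inl)) (range (y' ∘ Sum.inr))) := by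
    intro y y' hE hy
    induction hE with
    | single hE =>
      refine TRN_one hIMG hDDM hGPD hEQB hBXY hFS hF3 hG ?_ hy
      rw [Sum.elim_comp_inl_inr, Sum.elim_comp_inl_inr]
      exact hE
    | @tail u v _ hE ih =>
      obtain ⟨h1, h2⟩ := TRN_one (x := u ∘ Sum.inl) (w := u ∘ Sum.inr)
        (x' := v ∘ Sum.inl) (w' := v ∘ Sum.inr) hIMG hDDM hGPD hEQB hBXY hFS hF3 hG
        (by rw [Sum.elim_comp_inl_inr, Sum.elim_comp_inl_inr]; exact hE) ih.1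
      exact ⟨h1, ih.2.trans h2⟩
  obtain ⟨h1, h2⟩ := main _ _ h hFr
  have h3 : Fr T Ω (range x') (range w') := h1
  have h4 : In S F T Ω g (range x) (range w) ↔ In S F T Ω g (range x') (range w') := h2
  exact ⟨h3, h4, fun hb => ⟨h3, fun hi => hb.2 (h4.2 hi)⟩, fun hb => ⟨hFr, fun hi => hb.2 (h4.1 hi)⟩⟩

end HEI
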