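import Pool.Agent.HEI.StH

/-!
# HEI, module VBA: minimal bad sets are visible in subsets of a countable set
-/

set_option autoImplicit false
set_option linter.unusedVariables false

namespace HEI

open Set Pool.Agent.Helper5.DU Pool.Agent.Helper6.Str Pool.Agent.Helper79.VC
  Pool.Agent.Helper97.LO Pool.Agent.Helper97.VC HER HERN

/-- one level for all finite subsets of a countable set -/
theorem VBA_lev (hQ : St_EQB) {L : FirstOrder.Language.{0, 0}} {M : Type} (S : L.Structure M)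
    (F : Set M) (T : Dt M) (g0 g : Ordinal.{0}) (Ω Ds : Set M) (hFS : FS S F T g0)
    (hG : Gp S F T g0 g Ω) (hD : Ds.Countable) : ∃ h, g ≤ h ∧ h < om1 ∧
    ∀ e z : Set M, e.Finite → e ⊆ T.X → e ⊆ Ds → z.Finite → z ⊆ Ds → Bz S F T Ω e z →
      Bx S F T Ω h e z := by
  classical
  have : Countable Ds := hD.to_subtype
  have hex : ∀ i : Finset Ds × Finset Ds, ∃ γ : Ordinal.{0}, γ < om1 ∧
      (Bz S F T Ω ((fun x : Ds => (x : M)) '' (i.1 : Set Ds))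
        ((fun x : Ds => (x : M)) '' (i.2 : Set Ds)) →
      Bx S F T Ω γ ((fun x : Ds => (x : M)) '' (i.1 : Set Ds))
        ((fun x : Ds => (x : M)) '' (i.2 : Set Ds))) := by
    intro i
    by_cases h : Bz S F T Ω ((fun x : Ds => (x : M)) '' (i.1 : Set Ds))
      ((fun x : Ds => (x : M)) '' (i.2 : Set Ds))
    · obtain ⟨γ, h1, h2⟩ := h
      exact ⟨γ, h1, fun _ => h2⟩
    · exact ⟨g, hG.1.2.1, fun h1 => absurd h1 h⟩
  choose f hf1 hf2 using hex
  obtain ⟨γ, hγ, hb⟩ := exists_bound hf1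
  refine ⟨max g γ, le_max_left _ _, max_lt hG.1.2.1 hγ, fun e z he heX heD hz hzD hB => ?_⟩
  have hlift : ∀ s : Set M, s.Finite → s ⊆ Ds → ∃ t : Finset Ds,
      (fun x : Ds => (x : M)) '' (t : Set Ds) = s := by
    intro s hs hsD
    have h1 : ((fun x : Ds => (x : M)) ⁻¹' s).Finite :=
      hs.preimage (Subtype.val_injective.injOn)
    refine ⟨h1.toFinset, ?_⟩
    rw [Finite.coe_toFinset]
    ext x
    constructor
    · rintro ⟨y, hy, rfl⟩
      exact hy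
    · intro hx
      exact ⟨⟨x, hsD hx⟩, hx, rfl⟩
  obtain ⟨t1, h1⟩ := hlift e he heD
  obtain ⟨t2, h2⟩ := hlift z hz hzD
  have h3 := hb (t1, t2)
  have h4 : Bx S F T Ω (f (t1, t2)) e z := by
    have h5 := hf2 (t1, t2)
    change Bz S F T Ω ((fun x : Ds => (x : M)) '' (t1 : Set Ds))
      ((fun x : Ds => (x : M)) '' (t2 : Set Ds)) → Bx S F T Ω (f (t1, t2))
      ((fun x : Ds => (x : M)) '' (t1 : Set Ds)) ((fun x : Ds => (x : M)) '' (t2 : Set Ds)) at h5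
    rw [h1, h2] at h5
    exact h5 hB
  exact ((hQ L M S F T g0 g Ω e hFS hG he heX).2.2.2.2.2.1 _ _ z
    (h3.trans (le_max_right g γ))).2 h4

theorem thm_VBA (hI : St_IMG) (hQ : St_EQB) (hV : St_VBT) : St_VBA := by
  intro L M S F T g0 g Ω Ds hFS hF3 hG hDs
  obtain ⟨h0, hg, ho, hlev⟩ := VBA_lev hQ S F T g0 g Ω Ds hFS hG hDs
  obtain ⟨i1, i2, i3, i4, i5, i6, i7, i8⟩ := hI L M S F
  have hUn : Un T Ω := hG.1.2.2.2.1
  -- transport of bad sets
  have key : ∀ D D' p, DD T Ω D → DD T Ω D' → D ⊆ Ds → D' ⊆ Ds → Ps S F (h0 + 1) D D' p →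
      ∀ (a : Set M) (Z : Set (Set M)), a.Finite → a ⊆ Ω → Dm p a → (∀ z ∈ Z, Dm p z) →
      Bd S F T Ω a Z → Bd S F T Ω (Im p a) (Im p '' Z) := by
    rintro D D' p hD hD' hDs1 hDs2 hp a Z ha haΩ hpa hpZ ⟨hZ, hZb, z, hz, hBz⟩
    obtain ⟨⟨h1, h2, h3, h4⟩, h5⟩ := hV L M S F T g0 g h0 Ω hFS hF3 hG hg ho D D' p hD hD' hp a Z
      ha haΩ hZ hZb hpa hpZ
    have hdom : ∀ b : Set M, Dm p b → b ⊆ Ds := by
      intro b hb x hx
      obtain ⟨y, hy⟩ := hb x hx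
      exact hDs1 (hp.2.2.1 _ hy).1
    refine ⟨h3, h4, Im p z, ⟨z, hz, rfl⟩, h0, ho, h5 z hz ?_⟩
    refine hlev _ _ ?_ ?_ ?_ (hFS.fin z (hZb z hz).1).1 (hdom z (hpZ z hz)) hBz
    · refine ha.union ?_
      refine Finite.sUnion (hZ.subset sdiff_subset) fun t ht => ?_
      exact (hFS.fin t (hZb t ht.1).1).1
    · refine union_subset (haΩ.trans hUn.2.1) (sUnion_subset fun t ht => ?_)
      exact (subset_sUnion_of_mem (hZb t ht.1).1).trans subset_union_right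
    · exact union_subset (hdom a hpa) (sUnion_subset fun t ht => hdom t (hpZ t ht.1))
  refine ⟨h0 + 1, hg.trans (le_self_add), add_one_lt_om1 ho, ?_⟩
  intro D D' p hD hD' hDs1 hDs2 hp a Z ha haΩ hZb hpa hpZ
  have hAt : AtEq S S p := by
    have := hp.2.2.2
    rw [BFR.def] at this
    exact this.1
  obtain ⟨⟨ha1, ha2, -, -⟩, -⟩ := hV L M S F T g0 g h0 Ω hFS hF3 hG hg ho D D' p hD hD' hp a ∅
    ha haΩ finite_empty (by simp) hpa (by simp)
  have hinv : ∀ b : Set M, Dm p b → Im (Prod.swap ⁻¹' p) (Im p b) = b ∧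
      Dm (Prod.swap ⁻¹' p) (Im p b) := fun b hb => ⟨(i1 p b hAt hb).2.1, (i1 p b hAt hb).2.2.1⟩
  have hiff : ∀ Z' : Set (Set M), (∀ z ∈ Z', Dm p z) →
      (Bd S F T Ω a Z' ↔ Bd S F T Ω (Im p a) (Im p '' Z')) := by
    intro Z' hZ'
    refine ⟨key D D' p hD hD' hDs1 hDs2 hp a Z' ha haΩ hpa hZ', fun hB => ?_⟩
    have h1 := key D' D (Prod.swap ⁻¹' p) hD' hD hDs2 hDs1 (i7 _ _ _ _ hp) (Im p a) (Im p '' Z')
      ha2 ha1 (hinv a hpa).2 (by
        rintro _ ⟨z, hz, rfl⟩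
        exact (hinv z (hZ' z hz)).2) hB
    rw [(hinv a hpa).1] at h1
    have h2 : Im (Prod.swap ⁻¹' p) '' (Im p '' Z') = Z' := by
      rw [image_image]
      ext z
      constructor
      · rintro ⟨z', hz', rfl⟩
        change Im (Prod.swap ⁻¹' p) (Im p z') ∈ Z'
        rw [(hinv z' (hZ' z' hz')).1]
        exact hz'
      · intro hz
        exact ⟨z, hz, (hinv z (hZ' z hz)).1⟩
    rwa [h2] at h1
  constructor
  · rintro ⟨h1, h2⟩
    refine ⟨(hiff Z hpZ).1 h1, fun Y hY hB => ?_⟩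
    have h3 : Im p '' {z | z ∈ Z ∧ Im p z ∈ Y} = Y := by
      ext y
      constructor
      · rintro ⟨z, hz, rfl⟩
        exact hz.2
      · intro hy
        obtain ⟨z, hz, rfl⟩ := hY hy
        exact ⟨z, ⟨hz, hy⟩, rfl⟩
    have h4 := h2 {z | z ∈ Z ∧ Im p z ∈ Y} (fun z hz => hz.1)
      ((hiff _ fun z hz => hpZ z hz.1).2 (by rw [h3]; exact hB))
    rw [← h3, h4]
  · rintro ⟨h1, h2⟩
    refine ⟨(hiff Z hpZ).2 h1, fun Z' hZ' hB => ?_⟩
    have h3 := h2 (Im p '' Z') (image_mono hZ') ((hiff Z' fun z hz => hpZ z (hZ' hz)).1 hB)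
    refine Subset.antisymm hZ' fun z hz => ?_
    have h4 : Im p z ∈ Im p '' Z' := by
      rw [h3]
      exact ⟨z, hz, rfl⟩
    obtain ⟨z', hz', h5⟩ := h4
    have h6 := (i2 p z' z hAt (hpZ z' (hZ' hz')) (hpZ z hz)).1.1 h5
    rwa [h6] at hz'

end HEI
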