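import Pool.Agent.HEI.StH

/-!
# HEI: transport of bad sets along positions (helper24)
-/

set_option autoImplicit false
set_option linter.unusedVariables false

namespace HEI

open Set Pool.Agent.Helper5.DU Pool.Agent.Helper6.Str Pool.Agent.Helper79.VC
  Pool.Agent.Helper97.LO Pool.Agent.Helper97.VC HER HERN

theorem thm_VBT (hIMG : St_IMG) (hDDM : St_DDM) (hTRN : St_TRN) : St_VBT := by
  intro L M S F T g0 g h Ω hFS hF3 hGp hgh hh D D' p hD hD' hp a Z ha haΩ hZ hZb hda hdZ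
  obtain ⟨-, i2, -, -, i5, -, -, i8⟩ := hIMG L M S F
  obtain ⟨⟨v1, v2, v3, v4, v5⟩, hperf⟩ := hGp
  have hdgF : dg F ⊆ p := hp.2.1
  have hat : AtEq S S p := hp.2.2.2.atEq
  have hh1 : h ≤ h + 1 := by
    have h1 : (0 : Ordinal.{0}) ≤ 1 := zero_le_one
    simp
  have hpg : Ps S F g D D' p := i8 (h + 1) g D D' p p (hgh.trans hh1) hp Subset.rfl hdgF
  have hpg0 : Ps S F g0 D D' p :=
    i8 (h + 1) g0 D D' p p ((v1.trans hgh).trans hh1) hp Subset.rfl hdgF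
  have hGh : Gp S F T g0 h Ω := ⟨⟨v1.trans hgh, hh, v3, v4, fun D1 D1' p1 h1 h2 h3 =>
    v5 D1 D1' p1 h1 h2 (i8 h g D1 D1' p1 p1 hgh h3 Subset.rfl h3.2.1)⟩, hperf⟩
  have hΩ := v5 D D' p hD hD' hpg
  obtain ⟨-, -, d3, -⟩ := hDDM L M S F T g0 hFS
  have hDA := d3 Ω D v4 hD
  have hDA' := d3 Ω D' v4 hD'
  refine ⟨⟨?_, ?_, hZ.image _, ?_⟩, ?_⟩
  · rintro y ⟨x, hx, hxy⟩
    exact (hΩ _ hxy).1 (haΩ hx)
  · refine (hp.1.image Prod.snd).subset ?_
    rintro y ⟨x, hx, hxy⟩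
    exact ⟨(x, y), hxy, rfl⟩
  · rintro _ ⟨z, hz, rfl⟩
    refine ⟨(hFS.vb D D' p hDA hDA' hpg0 z (hdZ z hz)).1 (hZb z hz).1, fun hsub => ?_⟩
    refine (hZb z hz).2 fun x hx => ?_
    obtain ⟨y, hy⟩ := hdZ z hz x hx
    exact (hΩ _ hy).2 (hsub ⟨x, hx, hy⟩)
  · intro z hz hB
    obtain ⟨hzk, hzΩ⟩ := hZb z hz
    have himE : Im p (a ∪ ⋃₀ (Z \ {z})) = Im p a ∪ ⋃₀ (Im p '' Z \ {Im p z}) := by
      ext y
      constructor
      · rintro ⟨x, hx | ⟨c, ⟨hcZ, hcz⟩, hxc⟩, hxy⟩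
        · exact Or.inl ⟨x, hx, hxy⟩
        · exact Or.inr ⟨Im p c, ⟨⟨c, hcZ, rfl⟩, fun he =>
            hcz ((i2 p c z hat (hdZ c hcZ) (hdZ z hz)).1.1 he)⟩, ⟨x, hxc, hxy⟩⟩
      · rintro (⟨x, hx, hxy⟩ | ⟨_, ⟨⟨c, hcZ, rfl⟩, hne⟩, ⟨x, hx, hxy⟩⟩)
        · exact ⟨x, Or.inl hx, hxy⟩
        · refine ⟨x, Or.inr ⟨c, ⟨hcZ, fun he => hne ?_⟩, hx⟩, hxy⟩
          have he' : c = z := he
          rw [he']
          rfl
    rw [← himE]
    have hEf : (a ∪ ⋃₀ (Z \ {z})).Finite := by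
      refine ha.union ((hZ.subset sdiff_subset).sUnion ?_)
      intro c hc
      exact (hFS.fin c (hZb c hc.1).1).1
    have hEd : Dm p (a ∪ ⋃₀ (Z \ {z})) := by
      rintro x (hx | ⟨c, hc, hxc⟩)
      · exact hda x hx
      · exact hdZ c hc.1 x hxc
    obtain ⟨E, hE⟩ : ∃ E : Set M, E = a ∪ ⋃₀ (Z \ {z}) := ⟨_, rfl⟩
    rw [← hE] at hB hEf hEd ⊢
    have : Finite E := hEf.to_subtype
    obtain ⟨k, w, hwi, hw⟩ := (hFS.fin z hzk).1.fin_param
    choose x' hx' using fun e : E => hEd e e.2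
    choose w' hw' using fun i : Fin k => hdZ z hz (w i) (by rw [← hw]; exact mem_range_self i)
    have hpr : ∀ i : E ⊕ Fin k, (Sum.elim (fun e : E => (e : M)) w i, Sum.elim x' w' i) ∈ p := by
      rintro (e | i)
      · exact hx' e
      · exact hw' i
    have hEe : Ee S F T Ω (h + 1) (Sum.elim (fun e : E => (e : M)) w) (Sum.elim x' w') := by
      refine Relation.TransGen.single ⟨D, D', hD, hD', ?_⟩
      refine i8 (h + 1) (h + 1) D D' p _ le_rfl hp ?_ subset_union_left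
      refine union_subset hdgF ?_
      rintro _ ⟨i, rfl⟩
      exact hpr i
    have hr : range (fun e : E => (e : M)) = E := Subtype.range_coe
    have h1 := hTRN L M S F T g0 h Ω hFS hF3 hGh E (fun e : E => (e : M)) x' k w w' hEe (by
      rw [hr, hw]
      exact hB.1)
    have h2 := h1.2.2.1 (by
      rw [hr, hw]
      exact hB)
    have h3 := (i5 p E (fun e : E => (e : M)) x' hat hx').2
    have h4 := (i5 p (Fin k) w w' hat hw').2
    rw [← h3, ← h4, hr, hw] at h2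
    exact h2

end HEI
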