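import Pool.Agent.HEI.StG

/-!
# HEI [VCU]: unions of visible sets (helper9)
-/

set_option autoImplicit false
set_option linter.unusedVariables false

namespace HEI

open Set Pool.Agent.Helper5.DU Pool.Agent.Helper6.Str Pool.Agent.Helper79.VC
  Pool.Agent.Helper97.LO Pool.Agent.Helper97.VC HER HERN

theorem VCU_ps {L : FirstOrder.Language.{0, 0}} {M : Type} {S : L.Structure M} {F : Set M}
    {g g' : Ordinal.{0}} (h : g ≤ g') {D D' : Set M} {p : Set (M × M)}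
    (hp : Ps S F g' D D' p) : Ps S F g D D' p :=
  ⟨hp.1, hp.2.1, hp.2.2.1, BFR.mono (mul_le_mul_right h Ordinal.omega0) hp.2.2.2⟩

theorem thm_VCU (hD : St_DDM) : St_VCU := by
  intro L M S F T g0 hFS
  obtain ⟨-, h2, -, h4, -⟩ := hD L M S F T g0 hFS
  refine ⟨?_, ?_, ?_⟩
  · rintro g g' Ω hgg hg' ⟨h5, h6, h7, h8, h9⟩
    exact ⟨h5.trans hgg, hg', h7, h8, fun D D' p hD1 hD2 hp => h9 D D' p hD1 hD2 (VCU_ps hgg hp)⟩
  · refine ⟨le_rfl, hFS.gl, hFS.ac, ⟨Subset.rfl, subset_union_left, ?_⟩, hFS.va⟩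
    rintro b hb ⟨x, hx, hxA⟩
    exact ((disjoint_left.1 (hFS.fin b hb).2.2) hx hxA).elim
  · intro g Ω h
    obtain ⟨γ, hγ, hγ'⟩ := exists_bound (f := g) fun i => (h i).2.1
    refine ⟨γ, ⟨(h 0).1.trans (hγ' 0), hγ, countable_iUnion fun i => (h i).2.2.1,
      h4 Ω fun i => (h i).2.2.2.1, ?_⟩, hγ'⟩
    intro D D' p hD1 hD2 hp a ha
    have h5 : ∀ i, DD T (Ω i) D := fun i => h2 (Ω i) (⋃ i, Ω i) D (h i).2.2.2.1
      (h4 Ω fun i => (h i).2.2.2.1) (subset_iUnion Ω i) hD1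
    have h6 : ∀ i, DD T (Ω i) D' := fun i => h2 (Ω i) (⋃ i, Ω i) D' (h i).2.2.2.1
      (h4 Ω fun i => (h i).2.2.2.1) (subset_iUnion Ω i) hD2
    have h7 : ∀ i, a.1 ∈ Ω i ↔ a.2 ∈ Ω i := fun i =>
      (h i).2.2.2.2 D D' p (h5 i) (h6 i) (VCU_ps (hγ' i) hp) a ha
    rw [mem_iUnion, mem_iUnion]
    exact exists_congr h7

end HEI
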