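import Pool.Agent.HEI.StI

/-!
# HEI [XTD]: extension in dense sets (helper29)
-/

set_option autoImplicit false
set_option linter.unusedVariables false

namespace HEI

open Set Pool.Agent.Helper5.DU Pool.Agent.Helper6.Str Pool.Agent.Helper79.VC
  Pool.Agent.Helper97.LO Pool.Agent.Helper97.VC HER HERN

theorem XTD_snoc {M : Type} {k m : ℕ} (x : Fin k → M) (w : Fin m → M) (j : Fin m) :
    (fun i : Fin (k + 1) => Sum.elim x w
      ((Fin.snoc (α := fun _ => Fin k ⊕ Fin m) (fun i => Sum.inl i) (Sum.inr j) :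
        Fin (k + 1) → Fin k ⊕ Fin m) i)) =
    (Fin.snoc (α := fun _ => M) x (w j) : Fin (k + 1) → M) := by
  funext i
  refine Fin.lastCases ?_ (fun i => ?_) i
  · simp only [Fin.snoc_last, Sum.elim_inr]
  · simp only [Fin.snoc_castSucc, Sum.elim_inl]

/-- [XTD] -/
theorem thm_XTD (hDDM : St_DDM) (hVCU : St_VCU) (hGPD : St_GPD) (hEQB : St_EQB)
    (hEXT : St_EXT) (hEXP : St_EXP) : St_XTD := by
  classical
  intro L M S F T g0 g Ω hFS hF3 hGp hB h D k x x' u hgh hh1 hD hE hxD huX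
  have hGh : Gp S F T g0 h Ω := ⟨(hVCU L M S F T g0 hFS).1 g h Ω hgh hh1 hGp.1, hGp.2⟩
  have hUn : Un T Ω := hGp.1.2.2.2.1
  have hle2 : h ≤ h + 2 := le_self_add
  have hle12 : h + 1 ≤ h + 2 := by
    apply add_le_add_right
    exact_mod_cast (by norm_num : (1 : ℕ) ≤ 2)
  have hEh : Ee S F T Ω h x x' :=
    (hGPD L M S F T g0 h Ω hFS hGh (Fin k)).2.2.2.1 h (h + 2) Ω x x' hle2 hUn
      Subset.rfl hE
  have hE1 : Ee S F T Ω (h + 1) x x' :=
    (hGPD L M S F T g0 h Ω hFS hGh (Fin k)).2.2.2.1 (h + 1) (h + 2) Ω x x' hle12 hUn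
      Subset.rfl hE
  have hX := ((hGPD L M S F T g0 h Ω hFS hGh (Fin k)).2.2.2.2.1 x x' hEh).1
  by_cases hcase : u ∈ Ω ∨ ∃ b ∈ T.Bk, u ∈ b ∧ ∃ i, x i ∈ b
  · obtain ⟨u', hu', hEu⟩ := hEXP L M S F T g0 h Ω hFS hGh (Fin k) x x' 1 (fun _ => u) hE1
      (fun _ => hcase)
    refine ⟨u' 0, ?_, ?_⟩
    · rcases hu' 0 with h1 | ⟨b, hb, hub, i, hi⟩
      · exact hD.2.2.1 h1
      · exact hD.2.1.2.2 b hb ⟨x' i, hi, hxD i⟩ hub
    · have h2 := (hGPD L M S F T g0 h Ω hFS hGh (Fin k ⊕ Fin 1)).2.2.1 h (Fin (k + 1))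
        (Fin.snoc (α := fun _ => Fin k ⊕ Fin 1) (fun i => Sum.inl i) (Sum.inr 0)) _ _ hEu
      rw [XTD_snoc, XTD_snoc] at h2
      exact h2
  · push Not at hcase
    obtain ⟨huΩ, hblk⟩ := hcase
    rcases huX with huA | ⟨b, hb, hub⟩
    · exact absurd (hUn.1 huA) huΩ
    have hFr : Fr T Ω (range x) b := by
      refine ⟨hb, fun hbΩ => huΩ (hbΩ hub), ?_⟩
      rw [Set.disjoint_left]
      rintro a ha ⟨i, rfl⟩
      exact hblk b hb hub i ha
    have hIn : In S F T Ω h (range x) b := by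
      by_contra hn
      refine hB (range x) (finite_range x) ?_ h hh1 b ⟨hFr, hn⟩
      rintro _ ⟨i, rfl⟩
      exact (hX i).1
    obtain ⟨m, w, hwi, hwr⟩ := (hFS.fin b hb).1.fin_param
    rw [← hwr] at hIn
    obtain ⟨w', hw'i, hw'In, hEw⟩ := hEXT L M S F T g0 h Ω hFS hF3 hGh (Fin k) x x' m w hE hwi hIn
    have hX' : range x' ⊆ T.X := by
      rintro _ ⟨i, rfl⟩
      exact (hX i).2
    have hEQ := hEQB L M S F T g0 h Ω (range x') hFS hGh (finite_range x') hX'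
    obtain ⟨n, hn⟩ := hEQ.2.2.2.2.2.2.2.2.1 _ hw'In
    have hDD := hDDM L M S F T g0 hFS
    have hinf := hDD.2.2.2.2.2.2.1 Ω D hGp.2 hD (range w') hw'In.1.1 hw'In.1.2.1 n
    have hfin := hDD.2.2.2.2.2.2.2.2 (range x') (finite_range x')
    obtain ⟨d, ⟨hd1, hd2, hd3⟩, hd4⟩ := (hinf.sdiff hfin).nonempty
    have hdBk : d ∈ T.Bk := (hFS.vm _ _ _ hd1).2.1
    have hdFr : Fr T Ω (range x') d := by
      refine ⟨hdBk, hd2, ?_⟩
      by_contra hdis
      exact hd4 ⟨hdBk, hdis⟩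
    have hEb := (hn d hd1 hdFr).2
    obtain ⟨k', w1, w1', hw1i, hw1'i, hw1r, hw1'r, hEe⟩ :=
      (hEQ.2.2.2.2.2.2.2.2.2.2.2 (Fin k) x' h _ _ rfl).1 hEb
    -- relabel
    have hπ : ∀ j : Fin m, ∃ j' : Fin k', w1 j' = w' j := by
      intro j
      have : w' j ∈ range w1 := by rw [hw1r]; exact ⟨j, rfl⟩
      exact this
    choose π hπ using hπ
    have h3 := (hGPD L M S F T g0 h Ω hFS hGh (Fin k ⊕ Fin k')).2.2.1 h (Fin k ⊕ Fin m)
        (Sum.map id π) _ _ hEe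
    have h4 : (fun i => Sum.elim x' w1 (Sum.map id π i)) = Sum.elim x' w' := by
      funext i
      rcases i with i | i
      · rfl
      · exact hπ i
    have h5 : (fun i => Sum.elim x' w1' (Sum.map id π i)) = Sum.elim x' (fun i => w1' (π i)) := by
      funext i
      rcases i with i | i
      · rfl
      · rfl
    rw [h4, h5] at h3
    have h6 : Ee S F T Ω h (Sum.elim x w) (Sum.elim x' (fun i => w1' (π i))) :=
      Relation.TransGen.trans hEw h3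
    obtain ⟨j, hj⟩ : u ∈ range w := by rw [hwr]; exact hub
    refine ⟨w1' (π j), hd3 (by rw [← hw1'r]; exact ⟨_, rfl⟩), ?_⟩
    have h7 := (hGPD L M S F T g0 h Ω hFS hGh (Fin k ⊕ Fin m)).2.2.1 h (Fin (k + 1))
        (Fin.snoc (α := fun _ => Fin k ⊕ Fin m) (fun i => Sum.inl i) (Sum.inr j)) _ _ h6
    rw [XTD_snoc, XTD_snoc, hj] at h7
    exact h7

end HEI
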