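import Pool.Agent.HEI.ALLA
import Pool.Agent.HEI.IMG
import Pool.Agent.HEI.DEN
import Pool.Agent.HEI.AVI
import Pool.Agent.HEI.FCL
import Pool.Agent.HEI.FEX
import Pool.Agent.HEI.FSA
import Pool.Agent.HEI.PRF
import Pool.Agent.HEI.DCD
import Pool.Agent.HEI.MUL
import Pool.Agent.HEI.THN
import Pool.Agent.HEI.DDM
import Pool.Agent.HEI.VCU
import Pool.Agent.HEI.PFT
import Pool.Agent.HEI.RQE
import Pool.Agent.HEI.SEQ
import Pool.Agent.HEI.GPD
import Pool.Agent.HEI.EQB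
import Pool.Agent.HEI.ITS
import Pool.Agent.HEI.ITA
import Pool.Agent.HEI.ITB
import Pool.Agent.HEI.ITD
import Pool.Agent.HEI.BYF
import Pool.Agent.HEI.BXY
import Pool.Agent.HEI.TRN
import Pool.Agent.HEI.EXT
import Pool.Agent.HEI.EXP
import Pool.Agent.HEI.EMP
import Pool.Agent.HEI.XTD
import Pool.Agent.HEI.STA
import Pool.Agent.HEI.STB
import Pool.Agent.HEI.BAF
import Pool.Agent.HEI.CLS
import Pool.Agent.HEI.BXF
import Pool.Agent.HEI.COL
import Pool.Agent.HEI.EXQ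
import Pool.Agent.HEI.EXG
import Pool.Agent.HEI.MNX
import Pool.Agent.HEI.VBT
import Pool.Agent.HEI.VBA

/-!
# HEI: modules of parts E and G together
-/

set_option autoImplicit false

namespace HEI

theorem all_DEN : St_DEN := thm_DEN thm_GRP all_INF all_BLK all_CNJ all_UTL all_LVF

theorem all_AVI : St_AVI := thm_AVI thm_GRP all_BLK all_VIS all_LVF all_DEN

theorem all_FSA_of (hFDE : St_FDE) : St_FSA :=
  thm_FSA thm_GRP all_BLK all_VIS all_LVF all_DEN all_AVI
    (thm_FCL thm_GRP all_BLK all_CNJ all_LVF) (thm_FEX thm_GRP all_BLK all_CNJ all_LVF) hFDE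

theorem all_DCD : St_DCD := thm_DCD thm_IMG thm_PRF

theorem all_THN : St_THN := thm_THN thm_IMG (thm_MUL thm_IMG all_DCD)

theorem all_VCU : St_VCU := thm_VCU thm_DDM

theorem all_PFT : St_PFT := thm_PFT thm_IMG thm_DDM all_VCU

theorem all_GPD : St_GPD := thm_GPD thm_IMG thm_DDM

theorem all_EQB : St_EQB := thm_EQB thm_IMG all_GPD

theorem all_ITS : St_ITS := thm_ITS thm_DDM all_EQB

theorem all_ITA : St_ITA := thm_ITA thm_IMG thm_DDM all_EQB all_ITS all_DCD

theorem all_ITB : St_ITB :=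
  thm_ITB thm_IMG thm_DDM thm_RQE thm_SEQ all_EQB all_ITS all_ITA all_DCD

theorem all_ITD : St_ITD := thm_ITD thm_DDM all_EQB all_ITB

theorem all_BXY : St_BXY :=
  thm_BXY all_EQB all_ITD (thm_BYF thm_IMG thm_DDM all_EQB all_ITD all_DCD)

theorem all_TRN : St_TRN := thm_TRN thm_IMG thm_DDM all_GPD all_EQB all_BXY

theorem all_EXT : St_EXT := thm_EXT thm_IMG thm_DDM all_GPD all_EQB all_TRN

theorem all_EXP : St_EXP := thm_EXP thm_IMG thm_DDM

theorem all_EMP : St_EMP := thm_EMP thm_DDM all_GPD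

theorem all_XTD : St_XTD := thm_XTD thm_DDM all_VCU all_GPD all_EQB all_EXT all_EXP

theorem all_BAF : St_BAF :=
  thm_BAF thm_DDM all_VCU all_GPD all_XTD (thm_STB all_GPD (thm_STA all_GPD all_XTD))

theorem all_BXF : St_BXF := thm_BXF all_VCU all_EQB all_BXY

theorem all_EXQ : St_EXQ :=
  thm_EXQ thm_IMG thm_DDM all_VCU all_GPD all_EQB all_BXY all_TRN all_EXT

theorem all_EXG_of (hCLC : St_CLC) : St_EXG :=
  thm_EXG thm_IMG thm_DDM all_VCU all_EQB all_BXY all_TRN (thm_COL thm_DDM) hCLC all_EXQ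

theorem all_MNX_of (hCLC : St_CLC) : St_MNX := thm_MNX thm_DDM (all_EXG_of hCLC)

theorem all_VBT : St_VBT := thm_VBT thm_IMG thm_DDM all_TRN

theorem all_VBA : St_VBA := thm_VBA thm_IMG all_EQB all_VBT

end HEI
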