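import Pool.Agent.HERN.St

/-!
# HEI: hereditary classes of structures of unbounded arity, definitions

Paper: `HEI_paper.md` in the team store. `S` is a structure on the uncountable set `M`, `F` a finite
set of constants, `n` the level: only the atomic types of sets of at most `n` elements over `F` are
used at level `n`.
-/

set_option autoImplicit false
set_option linter.unusedVariables false

namespace HEI

open Set Pool.Agent.Helper5.DU Pool.Agent.Helper6.Str Pool.Agent.Helper79.VC
  Pool.Agent.Helper97.LO Pool.Agent.Helper97.VC HER HERN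

variable {L : FirstOrder.Language.{0, 0}} {M : Type}

/-! ## Finitary permutations, rows, blocks -/

/-- The finitary permutation `σ` moves only elements of `X` and preserves the `n`-types over `F`
of the tuples of `X`: `σ ∈ Φ_n(X)`. -/
def Ph (S : L.Structure M) (F : Set M) (n : ℕ) (X : Set M) (σ : Equiv.Perm M) : Prop :=
  {x | σ x ≠ x}.Finite ∧ (∀ x, σ x ≠ x → x ∈ X) ∧ TE S F n {a | a.1 ∈ X ∧ a.2 = σ a.1}

/-- the permutation `σ` exchanges the tuples `w` and `w'` and fixes all other elements -/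
def Xc {β : Type} (w w' : β → M) (σ : Equiv.Perm M) : Prop :=
  (∀ p, σ (w p) = w' p) ∧ (∀ p, σ (w' p) = w p) ∧ ∀ x, x ∉ range w → x ∉ range w' → σ x = x

/-- the exchange of the disjoint injective tuples `w`, `w'` of `X` is in `Φ_n(X)` -/
def Sw (S : L.Structure M) (F : Set M) (n : ℕ) (X : Set M) {β : Type} (w w' : β → M) : Prop :=
  Dj w w' ∧ (∀ p, w p ∈ X) ∧ (∀ p, w' p ∈ X) ∧ TE S F n (SW X w w')

/-- a row: pairwise disjoint injective tuples of `X`, all exchanges are in `Φ_n(X)` -/
def Ro (S : L.Structure M) (F : Set M) (n : ℕ) (X : Set M) {J β : Type} (w : J → β → M) : Prop :=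
  (∀ i p, w i p ∈ X) ∧ (∀ i p j q, w i p = w j q → i = j ∧ p = q) ∧
    ∀ i j, i ≠ j → TE S F n (SW X (w i) (w j))

/-- good sets: ranges of members of infinite rows -/
def Gs (S : L.Structure M) (F : Set M) (n : ℕ) (X : Set M) (B : Set M) : Prop :=
  ∃ (b : ℕ) (w : ℕ → Fin (b + 1) → M), Ro S F n X w ∧ range (w 0) = B

/-- good elements: elements of good sets -/
def Gx (S : L.Structure M) (F : Set M) (n : ℕ) (X : Set M) (x : M) : Prop :=
  ∃ B, Gs S F n X B ∧ x ∈ B

/-- the block of a good element: the smallest good set which contains it -/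
def Bl (S : L.Structure M) (F : Set M) (n : ℕ) (X : Set M) (x : M) : Set M :=
  {y | ∀ B, Gs S F n X B → x ∈ B → y ∈ B}

/-- `y` is conjugate to `x` under `Φ_n(X)` -/
def Cj (S : L.Structure M) (F : Set M) (n : ℕ) (X : Set M) (x y : M) : Prop :=
  ∃ σ, Ph S F n X σ ∧ σ x = y

/-- the `∞`-block of `x` -/
def Bi (S : L.Structure M) (F : Set M) (X : Set M) (x : M) : Set M := ⋃ n, Bl S F n X x

/-! ## Closed sets -/

/-- Closed sets of exceptional elements; `m n` is the bound for the size of the blocks of level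
`n`. -/
structure Cls (S : L.Structure M) (F : Set M) (m : ℕ → ℕ) (A : Set M) : Prop where
  gd : ∀ n x, ¬ Gx S F n univ x → x ∈ A
  sz : ∀ n x, ¬ (Bl S F n univ x).encard ≤ m n → x ∈ A
  bl : ∀ n x y, x ∈ A → Gx S F n univ x → y ∈ Bl S F n univ x → y ∈ A
  ob : ∀ n x, {B | ∃ y, Cj S F n univ x y ∧ y ∉ A ∧ B = Bi S F univ y}.Finite →
    ∀ y, Cj S F n univ x y → y ∈ A

/-- the data: `A` is the least closed set -/
structure Lv (S : L.Structure M) (F : Set M) (m : ℕ → ℕ) (A : Set M) : Prop where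
  pig : Pig S F
  ff : F.Finite
  mm : Monotone m
  ac : A.Countable
  fa : F ⊆ A
  cl : Cls S F m A
  least : ∀ A' : Set M, Cls S F m A' → A ⊆ A'
  orb : ∀ n, ∃ R : Set M, R.Finite ∧ (∀ y ∈ R, y ∉ A) ∧ ∀ x ∉ A, ∃ y ∈ R, Cj S F n univ y x

/-! ## Extendable sets -/

/-- The finite set `w` can be exchanged with a proper subset `range v` of a block `C` of level
`m' ≥ m`; the exchange preserves the `m`-types of the tuples which avoid `C \ range v`. -/
def Em (S : L.Structure M) (F : Set M) (m : ℕ) (X : Set M) (w : Set M) : Prop :=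
  ∃ (m' : ℕ) (y : M) (k : ℕ) (u v : Fin k → M), m ≤ m' ∧ y ∈ X ∧ Gx S F m' X y ∧
    Disjoint w (Bl S F m' X y) ∧ range u = w ∧ range v ⊆ Bl S F m' X y ∧
    range v ≠ Bl S F m' X y ∧ Sw S F m (X \ (Bl S F m' X y \ range v)) u v

/-- extendable sets -/
def Xt (S : L.Structure M) (F : Set M) (X : Set M) (w : Set M) : Prop :=
  ∀ m0, ∃ m, m0 ≤ m ∧ Em S F m X w

/-- `y` is in a finite `∞`-block which is not extendable -/
def Wm (S : L.Structure M) (F : Set M) (A : Set M) (y : M) : Prop :=
  y ∉ A ∧ (Bi S F univ y).Finite ∧ ¬ Xt S F univ (Bi S F univ y)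

/-! ## Unions of pieces -/

/-- The block of level `n` of `x` can be exchanged with a subset of `P`; the exchange preserves the
`n`-types of the tuples which avoid the rest of `P`. -/
def Rx (S : L.Structure M) (F : Set M) (n : ℕ) (x : M) (P : Set M) : Prop :=
  ∃ (k : ℕ) (u v : Fin k → M), range u = Bl S F n univ x ∧ range v ⊆ P ∧
    Sw S F n (univ \ (P \ range v)) u v

/-- the same for infinitely many blocks `P` of one class in `A` -/
def Ra (S : L.Structure M) (F : Set M) (A : Set M) (n : ℕ) (x : M) : Prop :=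
  ∃ (m' : ℕ) (y : M), n ≤ m' ∧ y ∈ A ∧ Gx S F m' univ y ∧ Rx S F n x (Bl S F m' univ y) ∧
    {B | ∃ z ∈ A, Cj S F m' univ y z ∧ B = Bl S F m' univ z}.Infinite

/-- `C` is a countable set of pieces (blocks of elements outside of `A`), at most one in each
`∞`-block, each piece has partners at all levels, and `A ∪ ⋃₀ C` is dense. -/
structure PD (S : L.Structure M) (F : Set M) (A : Set M) (C : Set (Set M)) : Prop where
  ctb : C.Countable
  pc : ∀ P ∈ C, ∃ (x : M) (l : ℕ), x ∉ A ∧ P = Bl S F l univ x ∧ ∀ n, l ≤ n →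
    {P' | P' ∈ C ∧ ∃ x', x' ∉ A ∧ Cj S F n univ x x' ∧ P' = Bl S F l univ x'}.Infinite
  ds : ∀ P ∈ C, ∀ P' ∈ C, ∀ x ∈ P, ∀ x' ∈ P', Bi S F univ x = Bi S F univ x' → P = P'
  rd : ∀ n, ∀ x ∉ A, {P | P ∈ C ∧ Rx S F n x P}.Infinite ∨ Ra S F A n x

/-- the orbit of `x` under `Φ_n(D)` is in `A` -/
def T2 (S : L.Structure M) (F : Set M) (A : Set M) (n : ℕ) (D : Set M) (x : M) : Prop :=
  ∀ y, Cj S F n D x y → y ∈ A

/-- `x` is good at all levels in `D` and its orbits are not in `A` -/
def T1 (S : L.Structure M) (F : Set M) (A : Set M) (D : Set M) (x : M) : Prop :=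
  ∀ n, Gx S F n D x ∧ ¬ T2 S F A n D x

end HEI
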