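import Pool.Agent.HEI.Defs

/-!
# HEI: fine systems, definitions for parts E and G
-/

set_option autoImplicit false
set_option linter.unusedVariables false

namespace HEI

open Set Pool.Agent.Helper5.DU Pool.Agent.Helper6.Str Pool.Agent.Helper79.VC
  Pool.Agent.Helper97.LO Pool.Agent.Helper97.VC HER HERN

variable {L : FirstOrder.Language.{0, 0}} {M : Type}

/-! ## Dense sets for part E -/

/-- dense sets which are unions of `A` and `∞`-blocks -/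
def DE (S : L.Structure M) (F A D : Set M) : Prop :=
  D.Countable ∧ A ⊆ D ∧ (∀ x ∈ D, x ∉ A → Bi S F univ x ⊆ D) ∧
    ∀ n, ∀ x ∉ A, {B | ∃ y ∈ D, y ∉ A ∧ Cj S F n univ x y ∧ B = Bi S F univ y}.Infinite

/-! ## Fine systems -/

/-- data of a fine system: the countable set `A`, the set `Bk` of the blocks, the neighbourhoods:
`V n b b'` means that the block `b'` is in the `n`-th neighbourhood of the block `b`. -/
structure Dt (M : Type) where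
  /-- the exceptional elements -/
  A : Set M
  /-- the blocks -/
  Bk : Set (Set M)
  /-- the neighbourhoods -/
  V : ℕ → Set M → Set M → Prop

/-- the underlying set -/
def Dt.X (T : Dt M) : Set M := T.A ∪ ⋃₀ T.Bk

/-- the image of the set `b` under the set of pairs `p` -/
def Im (p : Set (M × M)) (b : Set M) : Set M := {y | ∃ x ∈ b, (x, y) ∈ p}

/-- `b` is contained in the domain of `p` -/
def Dm (p : Set (M × M)) (b : Set M) : Prop := ∀ x ∈ b, ∃ y, (x, y) ∈ p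

/-- unions of `A` and blocks -/
def Un (T : Dt M) (X : Set M) : Prop :=
  T.A ⊆ X ∧ X ⊆ T.X ∧ ∀ b ∈ T.Bk, (b ∩ X).Nonempty → b ⊆ X

/-- `D ∈ 𝔻_Ω` -/
def DD (T : Dt M) (Ω D : Set M) : Prop :=
  D.Countable ∧ Un T D ∧ Ω ⊆ D ∧ ∀ b ∈ T.Bk, ¬ b ⊆ Ω → ∀ n,
    {b' | T.V n b b' ∧ ¬ b' ⊆ Ω ∧ b' ⊆ D}.Infinite ∨ ∀ b', T.V n b b' → b' ⊆ D

/-- `p` is a finite set of pairs of `D × D'` which contains the pairs of `F` and is a position of
level `ω * g` -/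
def Ps (S : L.Structure M) (F : Set M) (g : Ordinal.{0}) (D D' : Set M) (p : Set (M × M)) :
    Prop :=
  p.Finite ∧ dg F ⊆ p ∧ (∀ a ∈ p, a.1 ∈ D ∧ a.2 ∈ D') ∧ BFR S S D D' (Ordinal.omega0 * g) p

/-- fine systems -/
structure FS (S : L.Structure M) (F : Set M) (T : Dt M) (g0 : Ordinal.{0}) : Prop where
  pig : Pig S F
  ff : F.Finite
  ac : T.A.Countable
  fa : F ⊆ T.A
  fin : ∀ b ∈ T.Bk, b.Finite ∧ b.Nonempty ∧ Disjoint b T.A
  dis : ∀ b ∈ T.Bk, ∀ b' ∈ T.Bk, (b ∩ b').Nonempty → b = b'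
  vm : ∀ n b b', T.V n b b' → b ∈ T.Bk ∧ b' ∈ T.Bk ∧ b.encard = b'.encard
  vr : ∀ n, ∀ b ∈ T.Bk, T.V n b b
  vs : ∀ n b b', T.V n b b' → T.V n b' b
  vt : ∀ n b b' b'', T.V n b b' → T.V n b' b'' → T.V n b b''
  vd : ∀ n k b b', n ≤ k → T.V k b b' → T.V n b b'
  vf : ∀ n k : ℕ, ∃ R : Set (Set M), R.Finite ∧ ∀ b ∈ T.Bk, b.encard = k → ∃ c ∈ R, T.V n c b
  au : ∀ b b', b ≠ b' → (∀ n, T.V n b b') → ∃ σ : Equiv.Perm M, (∀ x, σ (σ x) = x) ∧
    (∀ x, σ x ≠ x → x ∈ b ∨ x ∈ b') ∧ σ '' b = b' ∧ AtEq S S {a | a.2 = σ a.1}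
  gl : g0 < om1
  va : ∀ D D' p, DD T T.A D → DD T T.A D' → Ps S F g0 D D' p → ∀ a ∈ p, a.1 ∈ T.A ↔ a.2 ∈ T.A
  vb : ∀ D D' p, DD T T.A D → DD T T.A D' → Ps S F g0 D D' p → ∀ b, Dm p b →
    (b ∈ T.Bk ↔ Im p b ∈ T.Bk)
  vv : ∀ D D' p, DD T T.A D → DD T T.A D' → Ps S F g0 D D' p → ∀ n b b', Dm p b → Dm p b' →
    (T.V n b b' ↔ T.V n (Im p b) (Im p b'))

/-- thin blocks -/
def Th (T : Dt M) (b : Set M) : Prop := ∀ b', (∀ n, T.V n b b') → b' = b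

/-- isolated blocks -/
def Is (T : Dt M) (b : Set M) : Prop := ∃ n, ∀ b', T.V n b b' → ∀ m, T.V m b b'

/-- every block is thin or isolated -/
def F3 (T : Dt M) : Prop := ∀ b ∈ T.Bk, Th T b ∨ Is T b

/-! ## Visible sets -/

/-- `(g, Ω) ∈ 𝕍` -/
def Vs (S : L.Structure M) (F : Set M) (T : Dt M) (g0 g : Ordinal.{0}) (Ω : Set M) : Prop :=
  g0 ≤ g ∧ g < om1 ∧ Ω.Countable ∧ Un T Ω ∧
    ∀ D D' p, DD T Ω D → DD T Ω D' → Ps S F g D D' p → ∀ a ∈ p, a.1 ∈ Ω ↔ a.2 ∈ Ω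

/-- perfect visible sets -/
def Gp (S : L.Structure M) (F : Set M) (T : Dt M) (g0 g : Ordinal.{0}) (Ω : Set M) : Prop :=
  Vs S F T g0 g Ω ∧ ∀ b ∈ T.Bk, ¬ b ⊆ Ω → ∀ n, {b' | T.V n b b' ∧ ¬ b' ⊆ Ω}.Infinite

/-! ## Equivalence of tuples -/

/-- one step: `x` and `x'` correspond in sets of `𝔻_Ω` -/
def Pp (S : L.Structure M) (F : Set M) (T : Dt M) (Ω : Set M) (g : Ordinal.{0}) {β : Type}
    (x x' : β → M) : Prop :=
  ∃ D D', DD T Ω D ∧ DD T Ω D' ∧ Ps S F g D D' (dg F ∪ prs x x')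

/-- the transitive closure -/
def Ee (S : L.Structure M) (F : Set M) (T : Dt M) (Ω : Set M) (g : Ordinal.{0}) {β : Type}
    (x x' : β → M) : Prop :=
  Relation.TransGen (fun y y' : β → M => Pp S F T Ω g y y') x x'

/-- the block `b` is not in `Ω` and does not meet `E` -/
def Fr (T : Dt M) (Ω E : Set M) (b : Set M) : Prop := b ∈ T.Bk ∧ ¬ b ⊆ Ω ∧ Disjoint b E

/-- the tuple of all elements of `E` followed by `w` -/
def tp {β : Type} (E : Set M) (w : β → M) : E ⊕ β → M := Sum.elim (fun e => (e : M)) w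

/-- the blocks `b` and `b'` are equivalent over the finite set `E` -/
def Eb (S : L.Structure M) (F : Set M) (T : Dt M) (Ω : Set M) (g : Ordinal.{0}) (E : Set M)
    (b b' : Set M) : Prop :=
  ∃ (k : ℕ) (w w' : Fin k → M), Function.Injective w ∧ Function.Injective w' ∧ range w = b ∧
    range w' = b' ∧ Ee S F T Ω g (tp E w) (tp E w')

/-- interior blocks over `E` -/
def In (S : L.Structure M) (F : Set M) (T : Dt M) (Ω : Set M) (g : Ordinal.{0}) (E : Set M)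
    (b : Set M) : Prop :=
  Fr T Ω E b ∧ ∃ n, ∀ b', T.V n b b' → Fr T Ω E b' → Eb S F T Ω g E b b'

/-- boundary blocks over `E` -/
def Bx (S : L.Structure M) (F : Set M) (T : Dt M) (Ω : Set M) (g : Ordinal.{0}) (E : Set M)
    (b : Set M) : Prop :=
  Fr T Ω E b ∧ ¬ In S F T Ω g E b

/-- blocks near which there are interior blocks which are not equivalent -/
def By (S : L.Structure M) (F : Set M) (T : Dt M) (Ω : Set M) (g : Ordinal.{0}) (E : Set M)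
    (b : Set M) : Prop :=
  Fr T Ω E b ∧ ∀ n, ∃ c, T.V n b c ∧ In S F T Ω g E c ∧ ¬ Eb S F T Ω g E b c

/-- boundary blocks over `E` of some countable level -/
def Bz (S : L.Structure M) (F : Set M) (T : Dt M) (Ω E : Set M) (b : Set M) : Prop :=
  ∃ g < om1, Bx S F T Ω g E b

/-- bad sets of blocks over `a` -/
def Bd (S : L.Structure M) (F : Set M) (T : Dt M) (Ω a : Set M) (Z : Set (Set M)) : Prop :=
  Z.Finite ∧ (∀ z ∈ Z, z ∈ T.Bk ∧ ¬ z ⊆ Ω) ∧ ∃ z ∈ Z, Bz S F T Ω (a ∪ ⋃₀ (Z \ {z})) z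

/-- minimal bad sets of blocks over `a` -/
def Mb (S : L.Structure M) (F : Set M) (T : Dt M) (Ω a : Set M) (Z : Set (Set M)) : Prop :=
  Bd S F T Ω a Z ∧ ∀ Z', Z' ⊆ Z → Bd S F T Ω a Z' → Z' = Z

end HEI
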