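import Pool.Agent.HEI.StG

/-!
# HEI [EQB]: equivalence of blocks (helper77)

Statement and proof: see `St_EQB` in `Pool/Agent/HEI/StG.lean`.
-/

set_option autoImplicit false
set_option linter.unusedVariables false

namespace HEI

open Set Pool.Agent.Helper5.DU Pool.Agent.Helper6.Str Pool.Agent.Helper79.VC
  Pool.Agent.Helper97.LO Pool.Agent.Helper97.VC HER HERN

variable {L : FirstOrder.Language.{0, 0}} {M : Type} {S : L.Structure M} {F : Set M}
  {T : Dt M} {g0 g : Ordinal.{0}} {Ω E : Set M}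

/-- enumeration of a finite set -/
theorem EQB_enum {b : Set M} (hb : b.Finite) :
    ∃ (k : ℕ) (w : Fin k → M), Function.Injective w ∧ range w = b := by
  have hf : Finite b := hb
  obtain ⟨k, ⟨e⟩⟩ := Finite.exists_equiv_fin b
  refine ⟨k, fun i => (e.symm i : M), fun i j hij => e.symm.injective (Subtype.ext hij), ?_⟩
  ext x
  constructor
  · rintro ⟨i, rfl⟩
    exact (e.symm i).2
  · intro hx
    exact ⟨e ⟨x, hx⟩, by simp⟩

/-- two labellings of the same set -/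
theorem EQB_perm {k k' : ℕ} {w : Fin k → M} {v : Fin k' → M} (hw : Function.Injective w)
    (h : range w ⊆ range v) : ∃ π : Fin k → Fin k', (∀ i, v (π i) = w i) ∧
      Function.Injective π := by
  have h1 : ∀ i, ∃ j, v j = w i := fun i => h (mem_range_self i)
  choose π hπ using h1
  refine ⟨π, hπ, fun i j hij => hw ?_⟩
  rw [← hπ i, ← hπ j, hij]

theorem EQB_elem {β : Type} {k : ℕ} {x : β → M} {w : Fin k → M} {X : Set M} (hx : ∀ i, x i ∈ X)
    (hw : ∀ i, w i ∈ X) : ∀ i, Sum.elim x w i ∈ X := by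
  rintro (i | i)
  · exact hx i
  · exact hw i

theorem EQB_tp_mem {k : ℕ} {w : Fin k → M} (hE : E ⊆ T.X) (hw : ∀ i, w i ∈ T.X) :
    ∀ i, tp E w i ∈ T.X :=
  EQB_elem (fun e => hE e.2) hw

theorem EQB_bX {b : Set M} (hb : b ∈ T.Bk) : b ⊆ T.X := fun x hx =>
  Or.inr ⟨b, hb, hx⟩

/-- [EQB] (1) -/
theorem EQB_1 (hP : St_GPD) (hF : FS S F T g0) (hG : Gp S F T g0 g Ω) (hEf : E.Finite)
    (hE : E ⊆ T.X) (h : Ordinal.{0}) (b : Set M) (hb : Fr T Ω E b) :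
    Eb S F T Ω h E b b := by
  have hEf' : Finite E := hEf
  obtain ⟨k, w, hw, hwb⟩ := EQB_enum (hF.fin b hb.1).1
  refine ⟨k, w, w, hw, hw, hwb, hwb, ?_⟩
  refine (hP L M S F T g0 g Ω hF hG (E ⊕ Fin k)).1 h (tp E w) (EQB_tp_mem hE fun i => ?_)
  exact EQB_bX hb.1 (by rw [← hwb]; exact mem_range_self i)

/-- [EQB] (2) -/
theorem EQB_2 (hP : St_GPD) (hF : FS S F T g0) (hG : Gp S F T g0 g Ω) (hEf : E.Finite)
    (h : Ordinal.{0}) (b b' : Set M) (hb : Eb S F T Ω h E b b') : Eb S F T Ω h E b' b := by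
  have hEf' : Finite E := hEf
  obtain ⟨k, w, w', h1, h2, h3, h4, h5⟩ := hb
  exact ⟨k, w', w, h2, h1, h4, h3,
    (hP L M S F T g0 g Ω hF hG (E ⊕ Fin k)).2.1 h _ _ h5⟩

/-- [EQB] (3) -/
theorem EQB_3 (hP : St_GPD) (hF : FS S F T g0) (hG : Gp S F T g0 g Ω) (hEf : E.Finite)
    (h : Ordinal.{0}) (b b' b'' : Set M) (hb : Eb S F T Ω h E b b')
    (hb' : Eb S F T Ω h E b' b'') : Eb S F T Ω h E b b'' := by
  have hEf' : Finite E := hEf
  obtain ⟨k, w, w', h1, h2, h3, h4, h5⟩ := hb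
  obtain ⟨k', v, v', h6, h7, h8, h9, h10⟩ := hb'
  obtain ⟨π, hπ, hπi⟩ := EQB_perm (v := v) h2 (by rw [h4, h8])
  obtain ⟨ρ, hρ, hρi⟩ := EQB_perm (v := w') h6 (by rw [h4, h8])
  have hkk : k = k' := le_antisymm
    (by simpa using Fintype.card_le_of_injective π hπi)
    (by simpa using Fintype.card_le_of_injective ρ hρi)
  have hπs : Function.Surjective π := by
    subst hkk
    exact Finite.injective_iff_surjective.1 hπi
  have h11 := (hP L M S F T g0 g Ω hF hG (E ⊕ Fin k')).2.2.1 h (E ⊕ Fin k)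
    (Sum.map id π) _ _ h10
  have e1 : (fun i => tp E v (Sum.map id π i)) = tp E w' := by
    funext i
    rcases i with i | i
    · rfl
    · exact hπ i
  have e2 : (fun i => tp E v' (Sum.map id π i)) = tp E (fun i => v' (π i)) := by
    funext i
    rcases i with i | i
    · rfl
    · rfl
  rw [e1, e2] at h11
  refine ⟨k, w, fun i => v' (π i), h1, h7.comp hπi, h3, ?_, Relation.TransGen.trans h5 h11⟩
  rw [← h9]
  ext x
  constructor
  · rintro ⟨i, rfl⟩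
    exact mem_range_self _
  · rintro ⟨i, rfl⟩
    obtain ⟨j, rfl⟩ := hπs i
    exact mem_range_self j

/-- [EQB] (4) -/
theorem EQB_4 (hP : St_GPD) (hF : FS S F T g0) (hG : Gp S F T g0 g Ω) (hEf : E.Finite)
    (b b' : Set M) (hb : Eb S F T Ω g E b b') (hfr : Fr T Ω E b) : Fr T Ω E b' := by
  have hEf' : Finite E := hEf
  obtain ⟨k, w, w', h1, h2, h3, h4, h5⟩ := hb
  obtain ⟨e1, e2, e3, e4, e5, e6⟩ := (hP L M S F T g0 g Ω hF hG (E ⊕ Fin k)).2.2.2.2.1 _ _ h5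
  obtain ⟨f1, f2, f3⟩ := hfr
  have hr : ∀ v : Fin k → M, (range fun i => tp E v (Sum.inr i)) = range v := fun v => rfl
  have hUn : Un T Ω := hG.1.2.2.2.1
  refine ⟨?_, ?_, ?_⟩
  · have h6 := e5 (Fin k) Sum.inr
    rw [hr, hr, h3, h4] at h6
    exact h6.1 f1
  · intro h6
    obtain ⟨x, hx⟩ := (hF.fin b f1).2.1
    have hxw := hx
    rw [← h3] at hxw
    obtain ⟨i, hi⟩ := hxw
    have h7 : w' i ∈ Ω := h6 (by rw [← h4]; exact mem_range_self i)
    have h8 : w i ∈ Ω := (e3 (Sum.inr i)).2 h7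
    rw [hi] at h8
    exact f2 (hUn.2.2 b f1 ⟨x, hx, h8⟩)
  · rw [Set.disjoint_left]
    intro y hy hyE
    rw [← h4] at hy
    obtain ⟨i, hi⟩ := hy
    have h6 := e2.1 (w i, w' i) (Or.inr ⟨Sum.inr i, rfl⟩) (y, y) (Or.inr ⟨Sum.inl ⟨y, hyE⟩, rfl⟩)
    have h7 : w i = y := h6.2 hi
    refine Set.disjoint_left.1 f3 ?_ hyE
    rw [← h3, ← h7]
    exact mem_range_self i

/-- [EQB] (5) -/
theorem EQB_5 (hP : St_GPD) (hF : FS S F T g0) (hG : Gp S F T g0 g Ω) (hEf : E.Finite)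
    (h h' : Ordinal.{0}) (b b' : Set M) (hh : h ≤ h') (hb : Eb S F T Ω h' E b b') :
    Eb S F T Ω h E b b' := by
  have hEf' : Finite E := hEf
  obtain ⟨k, w, w', h1, h2, h3, h4, h5⟩ := hb
  exact ⟨k, w, w', h1, h2, h3, h4, (hP L M S F T g0 g Ω hF hG (E ⊕ Fin k)).2.2.2.1 h h' Ω _ _ hh
    hG.1.2.2.2.1 Subset.rfl h5⟩

/-- [EQB] (7) -/
theorem EQB_7 (hP : St_GPD) (hF : FS S F T g0) (hG : Gp S F T g0 g Ω) (hEf : E.Finite)
    (hE : E ⊆ T.X) (h : Ordinal.{0}) (b b' : Set M) (hV : ∀ n, T.V n b b') (hb : Fr T Ω E b)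
    (hb' : Fr T Ω E b') : Eb S F T Ω h E b b' := by
  have hEf' : Finite E := hEf
  by_cases hbb : b = b'
  · subst hbb
    exact EQB_1 hP hF hG hEf hE h b hb
  obtain ⟨σ, s1, s2, s3, s4⟩ := hF.au b b' hbb hV
  obtain ⟨k, w, hw, hwb⟩ := EQB_enum (hF.fin b hb.1).1
  have h1 := (hP L M S F T g0 g Ω hF hG (E ⊕ Fin k)).2.2.2.2.2 b b' σ h (tp E w) hb.1 hb'.1
    hb.2.1 hb'.2.1 s1 s2 s3 s4 (EQB_tp_mem hE fun i =>
      EQB_bX hb.1 (by rw [← hwb]; exact mem_range_self i))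
  have e1 : (fun i => σ (tp E w i)) = tp E (fun i => σ (w i)) := by
    funext i
    rcases i with e | i
    · show σ (e : M) = (e : M)
      by_contra h2
      rcases s2 _ h2 with h3 | h3
      · exact Set.disjoint_left.1 hb.2.2 h3 e.2
      · exact Set.disjoint_left.1 hb'.2.2 h3 e.2
    · rfl
  rw [e1] at h1
  refine ⟨k, w, fun i => σ (w i), hw, σ.injective.comp hw, hwb, ?_, h1⟩
  rw [← s3, ← hwb, ← range_comp]
  rfl

/-- [EQB] (9) -/
theorem EQB_9 (hP : St_GPD) (hF : FS S F T g0) (hG : Gp S F T g0 g Ω) (hEf : E.Finite)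
    (b : Set M) (hb : In S F T Ω g E b) : ∃ n, ∀ b', T.V n b b' → Fr T Ω E b' →
      In S F T Ω g E b' ∧ Eb S F T Ω g E b b' := by
  obtain ⟨h1, n, hn⟩ := hb
  refine ⟨n, fun b' h2 h3 => ⟨⟨h3, n, fun c h4 h5 => ?_⟩, hn b' h2 h3⟩⟩
  exact EQB_3 hP hF hG hEf g b' b c (EQB_2 hP hF hG hEf g b b' (hn b' h2 h3))
    (hn c (hF.vt n b b' c h2 h4) h5)

/-- [EQB] (12) -/
theorem EQB_12 (hP : St_GPD) (hF : FS S F T g0) (hG : Gp S F T g0 g Ω) (hEf : E.Finite)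
    (β : Type) [Finite β] (x : β → M) (h : Ordinal.{0}) (b b' : Set M) (hx : range x = E) :
    Eb S F T Ω h E b b' ↔ ∃ (k : ℕ) (w w' : Fin k → M), Function.Injective w ∧
      Function.Injective w' ∧ range w = b ∧ range w' = b' ∧
      Ee S F T Ω h (Sum.elim x w) (Sum.elim x w') := by
  have hEf' : Finite E := hEf
  constructor
  · rintro ⟨k, w, w', h1, h2, h3, h4, h5⟩
    refine ⟨k, w, w', h1, h2, h3, h4, ?_⟩
    have h6 := (hP L M S F T g0 g Ω hF hG (E ⊕ Fin k)).2.2.1 h (β ⊕ Fin k)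
      (Sum.map (fun i => (⟨x i, by rw [← hx]; exact mem_range_self i⟩ : E)) id) _ _ h5
    have e1 : ∀ v : Fin k → M, (fun i : β ⊕ Fin k => tp E v (Sum.map (fun i =>
        (⟨x i, by rw [← hx]; exact mem_range_self i⟩ : E)) id i)) = Sum.elim x v := by
      intro v
      funext i
      rcases i with i | i
      · rfl
      · rfl
    rw [e1, e1] at h6
    exact h6
  · rintro ⟨k, w, w', h1, h2, h3, h4, h5⟩
    refine ⟨k, w, w', h1, h2, h3, h4, ?_⟩
    have h7 : ∀ e : E, ∃ i, x i = e := by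
      rintro ⟨e, he⟩
      rw [← hx] at he
      exact he
    choose f hf using h7
    have h6 := (hP L M S F T g0 g Ω hF hG (β ⊕ Fin k)).2.2.1 h (E ⊕ Fin k)
      (Sum.map f id) _ _ h5
    have e1 : ∀ v : Fin k → M, (fun i : E ⊕ Fin k => Sum.elim x v (Sum.map f id i)) = tp E v := by
      intro v
      funext i
      rcases i with i | i
      · exact hf i
      · rfl
    rw [e1, e1] at h6
    exact h6

/-- [EQB] -/
theorem thm_EQB (hI : St_IMG) (hP : St_GPD) : St_EQB := by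
  intro L M S F T g0 g Ω E hF hG hEf hE
  refine ⟨EQB_1 hP hF hG hEf hE g, EQB_2 hP hF hG hEf g, EQB_3 hP hF hG hEf g,
    EQB_4 hP hF hG hEf, EQB_5 hP hF hG hEf, ?_, EQB_7 hP hF hG hEf hE g, ?_,
    EQB_9 hP hF hG hEf, ?_, ?_, EQB_12 hP hF hG hEf⟩
  · intro h h' b hh
    have h1 : In S F T Ω h' E b → In S F T Ω h E b := by
      rintro ⟨h2, n, hn⟩
      exact ⟨h2, n, fun b' h3 h4 => EQB_5 hP hF hG hEf h h' b b' hh (hn b' h3 h4)⟩
    exact ⟨h1, fun h2 => ⟨h2.1, fun h3 => h2.2 (h1 h3)⟩⟩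
  · rintro b ⟨n, hn⟩ hfr
    exact ⟨hfr, n, fun b' h1 h2 => EQB_7 hP hF hG hEf hE g b b' (hn b' h1) hfr h2⟩
  · intro b b' hV hb hb'
    obtain ⟨n, hn⟩ := EQB_9 hP hF hG hEf b hb
    exact (hn b' (hV n) hb').1
  · intro D D' p b hD hD' hp hpE hpb hfr
    obtain ⟨k, w, hw, hwb⟩ := EQB_enum (hF.fin b hfr.1).1
    have hat : AtEq S S p := hp.2.2.2.atEq
    obtain ⟨w', h1, h2, h3⟩ := (hI L M S F).2.2.2.1 p k w hat (by rw [hwb]; exact hpb)
    rw [hwb] at h2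
    have h4 : Eb S F T Ω g E b (Im p b) := by
      refine ⟨k, w, w', hw, h3 hw, hwb, h2, Relation.TransGen.single ⟨D, D', hD, hD', ?_⟩⟩
      refine (hI L M S F).2.2.2.2.2.2.2 g g D D' p _ le_rfl hp ?_ subset_union_left
      rintro a (ha | ⟨i, rfl⟩)
      · exact hp.2.1 ha
      · rcases i with e | i
        · exact hpE ⟨e, e.2, rfl⟩
        · exact h1 i
    exact ⟨EQB_4 hP hF hG hEf b _ h4 hfr, h4⟩

end HEI
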