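import Pool.Agent.HEI.StH

/-!
# HEI [EXQ]: the relation behind the exchange property (helper17)
-/

set_option autoImplicit false
set_option linter.unusedVariables false

namespace HEI

open Set Pool.Agent.Helper5.DU Pool.Agent.Helper6.Str Pool.Agent.Helper79.VC
  Pool.Agent.Helper97.LO Pool.Agent.Helper97.VC HER HERN

section

variable {L : FirstOrder.Language.{0, 0}} {M : Type} {S : L.Structure M} {F Ω E b v : Set M}
  {T : Dt M} {g0 g : Ordinal.{0}}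

/-- perfect visible pairs at higher levels -/
theorem EXQ_gp (hV : St_VCU) (hFS : FS S F T g0) (hG : Gp S F T g0 g Ω) (n : ℕ) :
    Gp S F T g0 (g + n) Ω :=
  ⟨(hV L M S F T g0 hFS).1 g (g + n) Ω le_self_add
    (add_lt_om1 hG.1.2.1 (natCast_lt_om1 n)) hG.1, hG.2⟩

/-- lower levels -/
theorem EXQ_mono (hGPD : St_GPD) (hFS : FS S F T g0) (hG : Gp S F T g0 g Ω) {β : Type} [Finite β]
    {h h' : Ordinal.{0}} {x x' : β → M} (hh : h ≤ h') (he : Ee S F T Ω h' x x') :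
    Ee S F T Ω h x x' :=
  (hGPD L M S F T g0 g Ω hFS hG β).2.2.2.1 h h' Ω x x' hh hG.1.2.2.2.1 Subset.rfl he

/-- reindexing -/
theorem EXQ_re (hGPD : St_GPD) (hFS : FS S F T g0) (hG : Gp S F T g0 g Ω) {β α : Type}
    [Finite β] [Finite α] (e : α → β) {h : Ordinal.{0}} {x x' : β → M} {y y' : α → M}
    (he : Ee S F T Ω h x x') (hy : ∀ i, y i = x (e i)) (hy' : ∀ i, y' i = x' (e i)) :
    Ee S F T Ω h y y' := by
  have h1 := (hGPD L M S F T g0 g Ω hFS hG β).2.2.1 h α e x x' he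
  rw [show y = fun i => x (e i) from funext hy, show y' = fun i => x' (e i) from funext hy']
  exact h1

/-- a block is a subset of `T.X` -/
theorem EXQ_sub (hb : b ∈ T.Bk) : b ⊆ T.X := fun x hx => Or.inr ⟨b, hb, hx⟩

theorem EXQ_range {k : ℕ} (E : Set M) (w : Fin k → M) :
    range (Sum.elim (fun e : E => (e : M)) w) = E ∪ range w := by
  rw [Set.Sum.elim_range, Subtype.range_coe]

/-- (a) -/
theorem EXQ_a (hGPD : St_GPD) (hEQB : St_EQB) (hTRN : St_TRN) (hFS : FS S F T g0) (hF3 : F3 T)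
    (hG : Gp S F T g0 g Ω) (hE : E.Finite) (hEX : E ⊆ T.X) (hb : b ∈ T.Bk)
    (hI : In S F T Ω (g + 1) (E ∪ b) v) (hB : Bx S F T Ω g (E ∪ v) b) :
    ∃ n, ∀ v', T.V n v v' → Fr T Ω (E ∪ b) v' → Bx S F T Ω g (E ∪ v') b := by
  obtain ⟨hFr, n, hn⟩ := hI
  refine ⟨n, fun v' hv' hF' => ?_⟩
  have h1 := hn v' hv' hF'
  have hbf := (hFS.fin b hb).1
  have : Finite E := hE
  obtain ⟨k, w, hw, rfl⟩ := hbf.fin_param
  obtain ⟨-, -, -, -, -, -, -, -, -, -, -, h12⟩ := hEQB L M S F T g0 g Ω (E ∪ range w) hFS hG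
    (hE.union hbf) (union_subset hEX (EXQ_sub hb))
  obtain ⟨l, z, z', hz, hz', rfl, rfl, hEe⟩ := (h12 (E ⊕ Fin k)
    (Sum.elim (fun e : E => (e : M)) w) (g + 1) v v' (EXQ_range E w)).1 h1
  have h2 : Ee S F T Ω (g + 1) (Sum.elim (Sum.elim (fun e : E => (e : M)) z) w)
      (Sum.elim (Sum.elim (fun e : E => (e : M)) z') w) := by
    refine EXQ_re hGPD hFS hG (Sum.elim (Sum.elim (fun a => Sum.inl (Sum.inl a))
      (fun i => Sum.inr i)) (fun j => Sum.inl (Sum.inr j))) hEe ?_ ?_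
    · rintro ((a | i) | j) <;> rfl
    · rintro ((a | i) | j) <;> rfl
  have h3 := hTRN L M S F T g0 g Ω hFS hF3 hG (E ⊕ Fin l)
    (Sum.elim (fun e : E => (e : M)) z) (Sum.elim (fun e : E => (e : M)) z') k w w h2
    (by rw [EXQ_range]; exact hB.1)
  rw [EXQ_range, EXQ_range] at h3
  exact h3.2.2.1 hB

/-- (b), (c) -/
theorem EXQ_b (hDDM : St_DDM) (hVCU : St_VCU) (hGPD : St_GPD) (hBXY : St_BXY) (hTRN : St_TRN)
    (hEXT : St_EXT) (hFS : FS S F T g0) (hF3 : F3 T) (hG : Gp S F T g0 g Ω) (hE : E.Finite)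
    (hEX : E ⊆ T.X) (hb : b ∈ T.Bk) (n : ℕ)
    (hn : ∀ v', T.V n v v' → Fr T Ω (E ∪ b) v' → Bx S F T Ω g (E ∪ v') b)
    (hI : In S F T Ω (g + 5) (E ∪ b) v) (b' : Set M) (hF' : Fr T Ω E b')
    (hEb : Eb S F T Ω (g + 7) E b b') :
    ∃ c, c ∈ T.Bk ∧ ¬ c ⊆ Ω ∧ c.encard = v.encard ∧
      {u | T.V n c u ∧ Fr T Ω E u ∧ ¬ Bx S F T Ω g (E ∪ u) b'}.Finite := by
  have : Finite E := hE
  obtain ⟨k, w, w', hw, hw', rfl, rfl, hEe⟩ := hEb
  have hvf := (hFS.fin v hI.1.1).1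
  obtain ⟨l, z, hz, rfl⟩ := hvf.fin_param
  have hG1 : Gp S F T g0 (g + 1) Ω := by
    have := EXQ_gp hVCU hFS hG 1
    rwa [Nat.cast_one] at this
  have hG5 : Gp S F T g0 (g + 5) Ω := by
    have := EXQ_gp hVCU hFS hG 5
    rwa [Nat.cast_ofNat] at this
  have h7 : g + 7 = g + 5 + 2 := by
    rw [add_assoc]
    congr 1
    norm_num
  rw [h7] at hEe
  obtain ⟨z', hz', hI', hEe'⟩ := hEXT L M S F T g0 (g + 5) Ω hFS hF3 hG5 (E ⊕ Fin k) (tp E w)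
    (tp E w') l z hEe hz (by unfold tp; rw [EXQ_range]; exact hI)
  have hr1 : range (tp E w) = E ∪ range w := EXQ_range E w
  have hr2 : range (tp E w') = E ∪ range w' := EXQ_range E w'
  rw [hr2] at hI'
  obtain ⟨hc1, hc2, hc3⟩ := hI'.1
  refine ⟨range z', hc1, hc2, ?_, ?_⟩
  · rw [← image_univ, ← image_univ, hz'.encard_image, hz.encard_image]
  -- the exceptional blocks
  have hEfin : (E ∪ range w' ∪ range z').Finite :=
    (hE.union (finite_range w')).union (finite_range z')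
  have hEsub : E ∪ range w' ∪ range z' ⊆ T.X :=
    union_subset (union_subset hEX (EXQ_sub hF'.1)) (EXQ_sub hc1)
  obtain ⟨-, -, -, -, -, -, -, -, h9⟩ := hDDM L M S F T g0 hFS
  refine ((h9 _ hEfin).union ((hBXY L M S F T g0 (g + 1) Ω (E ∪ range w' ∪ range z') hFS hF3 hG1
    hEfin hEsub).2)).subset ?_
  rintro u ⟨hu1, hu2, hu3⟩
  by_contra hcon
  rw [mem_union, not_or] at hcon
  obtain ⟨hc4, hc5⟩ := hcon
  have hdisj : Disjoint u (E ∪ range w' ∪ range z') := by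
    by_contra h
    exact hc4 ⟨hu2.1, h⟩
  have hFu : Fr T Ω (E ∪ range w' ∪ range z') u := ⟨hu2.1, hu2.2.1, hdisj⟩
  have hIu : In S F T Ω (g + 1) (E ∪ range w' ∪ range z') u := by
    by_contra h
    exact hc5 ⟨hFu, h⟩
  obtain ⟨j, y, hy, rfl⟩ := (hFS.fin u hu2.1).1.fin_param
  have hle : g + 1 + 2 ≤ g + 5 := by
    rw [add_assoc]
    refine add_le_add_right ?_ g
    norm_num
  have hback : Ee S F T Ω (g + 1 + 2) (Sum.elim (tp E w') z') (Sum.elim (tp E w) z) :=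
    EXQ_mono hGPD hFS hG hle ((hGPD L M S F T g0 g Ω hFS hG _).2.1 _ _ _ hEe')
  obtain ⟨y', hy', hIy, hEy⟩ := hEXT L M S F T g0 (g + 1) Ω hFS hF3 hG1 ((E ⊕ Fin k) ⊕ Fin l)
    (Sum.elim (tp E w') z') (Sum.elim (tp E w) z) j y hback hy
    (by rw [Set.Sum.elim_range, hr2]; exact hIu)
  rw [Set.Sum.elim_range, hr1] at hIy
  -- neighbourhoods
  obtain ⟨-, -, -, -, h5, -⟩ := hGPD L M S F T g0 (g + 1) Ω hFS hG1 (((E ⊕ Fin k) ⊕ Fin l) ⊕ Fin j)
  obtain ⟨-, -, -, -, -, h5'⟩ := h5 _ _ hEy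
  have hVn : T.V n (range z) (range y') :=
    (h5' (Fin l) (Fin j) (fun i => Sum.inl (Sum.inr i)) (fun i => Sum.inr i) n).1 hu1
  have hFy : Fr T Ω (E ∪ range w) (range y') :=
    ⟨hIy.1.1, hIy.1.2.1, hIy.1.2.2.mono_right subset_union_left⟩
  have hBy := hn (range y') hVn hFy
  -- transport
  have h6 : Ee S F T Ω (g + 1) (Sum.elim (Sum.elim (fun e : E => (e : M)) y') w)
      (Sum.elim (Sum.elim (fun e : E => (e : M)) y) w') := by
    refine (hGPD L M S F T g0 g Ω hFS hG _).2.1 _ _ _ ?_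
    refine EXQ_re hGPD hFS hG (Sum.elim (Sum.elim (fun a => Sum.inl (Sum.inl (Sum.inl a)))
      (fun i => Sum.inr i)) (fun i => Sum.inl (Sum.inl (Sum.inr i)))) hEy ?_ ?_
    · rintro ((a | i) | i) <;> rfl
    · rintro ((a | i) | i) <;> rfl
  have h8 := hTRN L M S F T g0 g Ω hFS hF3 hG (E ⊕ Fin j)
    (Sum.elim (fun e : E => (e : M)) y') (Sum.elim (fun e : E => (e : M)) y) k w w' h6
    (by rw [EXQ_range]; exact hBy.1)
  rw [EXQ_range, EXQ_range] at h8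
  exact hu3 (h8.2.2.1 hBy)

end

theorem thm_EXQ (hIMG : St_IMG) (hDDM : St_DDM) (hVCU : St_VCU) (hGPD : St_GPD) (hEQB : St_EQB)
    (hBXY : St_BXY) (hTRN : St_TRN) (hEXT : St_EXT) : St_EXQ := by
  intro L M S F T g0 g Ω E b v hFS hF3 hG hE hEX hFb hFv hbv hIb hIv hB
  classical
  have hbf := (hFS.fin b hFb.1).1
  have hIv1 : In S F T Ω (g + 1) (E ∪ b) v := by
    obtain ⟨-, -, -, -, -, h6, -⟩ := hEQB L M S F T g0 g Ω (E ∪ b) hFS hG (hE.union hbf)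
      (union_subset hEX (EXQ_sub hFb.1))
    refine (h6 (g + 1) (g + 5) v ?_).1 hIv
    refine add_le_add_right ?_ g
    norm_num
  obtain ⟨n, hn⟩ := EXQ_a hGPD hEQB hTRN hFS hF3 hG hE hEX hFb.1 hIv1 hB
  obtain ⟨m, hm⟩ := hIb.2
  have h1 : ∀ b', ∃ c, T.V m b b' → Fr T Ω E b' → c ∈ T.Bk ∧ ¬ c ⊆ Ω ∧ c.encard = v.encard ∧
      {u | T.V n c u ∧ Fr T Ω E u ∧ ¬ Bx S F T Ω g (E ∪ u) b'}.Finite := by
    intro b'
    by_cases h : T.V m b b' ∧ Fr T Ω E b'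
    · obtain ⟨c, hc⟩ := EXQ_b hDDM hVCU hGPD hBXY hTRN hEXT hFS hF3 hG hE hEX hFb.1 n hn hIv b'
        h.2 (hm b' h.1 h.2)
      exact ⟨c, fun _ _ => hc⟩
    · exact ⟨∅, fun h2 h3 => absurd ⟨h2, h3⟩ h⟩
  choose c hc using h1
  exact ⟨n, m, c, hc⟩

end HEI
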