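import Pool.Agent.HEI.StA
import Pool.Agent.HERN.TE

/-!
# HEI, module LVR: rows at all levels
-/

set_option autoImplicit false
set_option linter.unusedVariables false

namespace HEI

open Set Pool.Agent.Helper5.DU Pool.Agent.Helper6.Str Pool.Agent.Helper79.VC
  Pool.Agent.Helper97.LO Pool.Agent.Helper97.VC HER HERN

/-- the uncountable row for a structure with blocks -/
theorem LVR_row {L : FirstOrder.Language.{0, 0}} {M : Type} (S : L.Structure M) (F : Set M)
    (hF : F.Finite) (A : Set M) (B : M → Set M) (m : ℕ) (hB : BlkN S A B)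
    (hm : ∀ x ∉ A, (B x).encard ≤ m)
    (hu : ∀ x ∉ A, ¬ {y | y ∉ A ∧ BIN S A B x y}.Countable) :
    ∃ N : Set M, N.Countable ∧ ∀ x ∉ N, ∃ (b : ℕ) (V : Set (Fin b → M)), b ≤ m ∧
      ¬ V.Countable ∧ (∀ v ∈ V, ∀ v' ∈ V, ∀ p q, v p = v' q → v = v' ∧ p = q) ∧
      (∀ v ∈ V, ∀ v' ∈ V, v ≠ v' → AtEq S S (dg F ∪ SW univ v v')) ∧ ∃ v ∈ V, x ∈ range v := by
  classical
  have hfin : ∀ x ∉ A, (B x).Finite := fun x hx => Set.finite_of_encard_le_coe (hm x hx)
  have hblk : ∀ x ∉ A, ∀ y ∉ A, ∀ z, z ∈ B x → z ∈ B y → B x = B y := by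
    intro x hx y hy z h1 h2
    rw [← (hB.out x hx z h1).2, (hB.out y hy z h2).2]
  refine ⟨A ∪ ⋃ f ∈ F \ A, B f, ?_, fun x hx => ?_⟩
  · refine hB.ctbl.union ?_
    refine (hF.subset sdiff_subset).countable.biUnion fun f hf => ?_
    exact (hfin f hf.2).countable
  have hxA : x ∉ A := fun h => hx (Or.inl h)
  have hxF : ∀ z ∈ B x, z ∉ F := by
    intro z hz hzF
    apply hx
    right
    have h1 := hB.out x hxA z hz
    rw [mem_iUnion₂]
    refine ⟨z, ⟨hzF, h1.1⟩, ?_⟩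
    rw [h1.2]
    exact hB.self x hxA
  have : Finite (B x) := (hfin x hxA).to_subtype
  set b := Nat.card (B x) with hb
  set e : Fin b ≃ B x := (Finite.equivFin (B x)).symm with he
  set w : Fin b → M := fun i => (e i : M) with hw
  have hwi : Function.Injective w := fun i j h => e.injective (Subtype.ext h)
  have hwB : ∀ i, w i ∈ B x := fun i => (e i).2
  have hwr : ∀ z ∈ B x, ∃ i, w i = z := fun z hz => ⟨e.symm ⟨z, hz⟩, by simp [hw]⟩
  -- the blocks
  set BB : Set (Set M) := {D | ∃ y, y ∉ A ∧ BIN S A B x y ∧ (∀ z ∈ B y, z ∉ F) ∧ B y = D} with hBB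
  have hex : ∀ D : Set M, ∃ h : M → M, D ∈ BB → BijOn h (B x) D ∧
      AtEq S S (dg A ∪ {a | a.1 ∈ B x ∧ a.2 = h a.1}) := by
    intro D
    by_cases hD : D ∈ BB
    · obtain ⟨y, hy, ⟨h, h1, h2, h3⟩, -, rfl⟩ := hD
      exact ⟨h, fun _ => ⟨h1, h3⟩⟩
    · exact ⟨id, fun h => absurd h hD⟩
  choose h hh using hex
  have hBr : ∀ D ∈ BB, ∀ z ∈ D, z ∉ A ∧ z ∉ F ∧ B z = D := by
    rintro D ⟨y, hy, -, hyF, rfl⟩ z hz
    exact ⟨(hB.out y hy z hz).1, hyF z hz, (hB.out y hy z hz).2⟩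
  have hxBB : B x ∈ BB := by
    refine ⟨x, hxA, ⟨id, bijOn_id _, rfl, atEq_diag S ?_⟩, hxF, rfl⟩
    rintro a (⟨z, -, rfl⟩ | ha)
    · rfl
    · exact ha.2.symm
  have hBBu : ¬ BB.Countable := by
    intro hc
    apply hu x hxA
    have h1 : {y | y ∉ A ∧ BIN S A B x y} ⊆ (⋃ f ∈ F \ A, B f) ∪ ⋃ D ∈ BB, D := by
      rintro y ⟨hy, hbin⟩
      by_cases hyF : ∀ z ∈ B y, z ∉ F
      · right
        rw [mem_iUnion₂]
        exact ⟨B y, ⟨y, hy, hbin, hyF, rfl⟩, hB.self y hy⟩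
      · left
        push Not at hyF
        obtain ⟨z, hz, hzF⟩ := hyF
        have h2 := hB.out y hy z hz
        rw [mem_iUnion₂]
        refine ⟨z, ⟨hzF, h2.1⟩, ?_⟩
        rw [h2.2]
        exact hB.self y hy
    refine Countable.mono h1 (Countable.union ?_ ?_)
    · refine (hF.subset sdiff_subset).countable.biUnion fun f hf => ?_
      exact (hfin f hf.2).countable
    · refine hc.biUnion fun D hD => ?_
      obtain ⟨y, hy, -, -, rfl⟩ := hD
      exact (hfin y hy).countable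
  set V : Set (Fin b → M) := (fun D => h D ∘ w) '' BB with hV
  have hrange : ∀ D ∈ BB, range (h D ∘ w) = D := by
    intro D hD
    ext z
    constructor
    · rintro ⟨i, rfl⟩
      exact (hh D hD).1.mapsTo (hwB i)
    · intro hz
      obtain ⟨u, hu1, hu2⟩ := (hh D hD).1.surjOn hz
      obtain ⟨i, rfl⟩ := hwr u hu1
      exact ⟨i, hu2⟩
  have hinj : ∀ D ∈ BB, Function.Injective (h D ∘ w) := by
    intro D hD i j hij
    exact hwi ((hh D hD).1.injOn (hwB i) (hwB j) hij)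
  refine ⟨b, V, ?_, ?_, ?_, ?_, ?_⟩
  · have h1 := hm x hxA
    rw [← (hfin x hxA).cast_ncard_eq] at h1
    have h2 : (B x).ncard ≤ m := by exact_mod_cast h1
    exact h2
  · intro hc
    apply hBBu
    have h1 : BB ⊆ range '' V := by
      intro D hD
      exact ⟨h D ∘ w, ⟨D, hD, rfl⟩, hrange D hD⟩
    exact (hc.image _).mono h1
  · rintro _ ⟨D, hD, rfl⟩ _ ⟨D', hD', rfl⟩ p q hpq
    have h1 : (h D ∘ w) p ∈ D := (hrange D hD).subset (mem_range_self p)
    have h2 : (h D' ∘ w) q ∈ D' := (hrange D' hD').subset (mem_range_self q)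
    have h3 : D = D' := by
      rw [← (hBr D hD _ h1).2.2, ← (hBr D' hD' _ h2).2.2]
      exact congrArg B hpq
    subst h3
    exact ⟨rfl, hinj D hD hpq⟩
  · rintro _ ⟨D, hD, rfl⟩ _ ⟨D', hD', rfl⟩ hne
    have hDD : D ≠ D' := by
      rintro rfl
      exact hne rfl
    set v := h D ∘ w with hv
    set v' := h D' ∘ w with hv'
    have hvD : ∀ i, v i ∈ D := fun i => (hrange D hD).subset (mem_range_self i)
    have hvD' : ∀ i, v' i ∈ D' := fun i => (hrange D' hD').subset (mem_range_self i)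
    -- the isomorphisms
    have h1 : ∀ D ∈ BB, AtEq S S (dg A ∪ prs w (h D ∘ w)) := by
      intro D hD
      refine (hh D hD).2.anti (union_subset_union_right _ ?_)
      rintro _ ⟨i, rfl⟩
      exact ⟨hwB i, rfl⟩
    have h2 : ∀ D ∈ BB, ∀ D' ∈ BB, AtEq S S (dg A ∪ prs (h D ∘ w) (h D' ∘ w)) := by
      intro D hD D' hD'
      have h3 : AtEq S S (dg A ∪ prs (h D ∘ w) w) := by
        refine HERN.AtEq.symm' (h1 D hD) ?_
        rintro a (⟨z, hz, rfl⟩ | ⟨i, rfl⟩)
        · exact Or.inl ⟨z, hz, rfl⟩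
        · exact Or.inr ⟨i, rfl⟩
      refine HERN.AtEq.comp' h3 (h1 D' hD') ?_
      rintro a (⟨z, hz, rfl⟩ | ⟨i, rfl⟩)
      · exact ⟨z, Or.inl ⟨z, hz, rfl⟩, Or.inl ⟨z, hz, rfl⟩⟩
      · exact ⟨w i, Or.inr ⟨i, rfl⟩, Or.inr ⟨i, rfl⟩⟩
    set P : Set (M × M) := {a ∈ SW univ v v' | a.1 ∉ A ∧ a.2 ∉ A} with hP
    -- the three kinds of pairs
    have hcase : ∀ a ∈ P, (a.1 ∈ D ∧ a ∈ prs v v') ∨ (a.1 ∈ D' ∧ a ∈ prs v' v) ∨
        (a.1 = a.2 ∧ a.1 ∉ D ∧ a.1 ∉ D') := by
      rintro a ⟨(⟨ha1, -, ha2, ha3⟩ | ha) | ha, -, -⟩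
      · right; right
        rw [hrange D hD] at ha2
        rw [hrange D' hD'] at ha3
        exact ⟨ha1, ha2, ha3⟩
      · left
        obtain ⟨i, rfl⟩ := ha
        exact ⟨hvD i, i, rfl⟩
      · right; left
        obtain ⟨i, rfl⟩ := ha
        exact ⟨hvD' i, i, rfl⟩
    have hBa : ∀ a ∈ P, B a.2 = Equiv.swap D D' (B a.1) := by
      intro a ha
      rcases hcase a ha with ⟨h3, i, rfl⟩ | ⟨h3, i, rfl⟩ | ⟨h3, h4, h5⟩
      · change B (v' i) = Equiv.swap D D' (B (v i))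
        rw [(hBr D hD _ (hvD i)).2.2, (hBr D' hD' _ (hvD' i)).2.2, Equiv.swap_apply_left]
      · change B (v i) = Equiv.swap D D' (B (v' i))
        rw [(hBr D hD _ (hvD i)).2.2, (hBr D' hD' _ (hvD' i)).2.2, Equiv.swap_apply_right]
      · have h6 : a.1 ∈ B a.1 := hB.self _ ha.2.1
        rw [Equiv.swap_apply_of_ne_of_ne, h3]
        · rintro h7
          rw [h7] at h6
          exact h4 h6
        · rintro h7
          rw [h7] at h6
          exact h5 h6
    have hmain : AtEq S S (dg A ∪ P) := by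
      refine hB.cross P (fun a ha => ha.2) ?_ ?_
      · intro a ha a' ha'
        rw [hBa a ha, hBa a' ha']
        exact (Equiv.injective _).eq_iff.symm
      · intro z hz
        by_cases hzD : B z = D
        · refine (h2 D hD D' hD').anti (union_subset_union_right _ ?_)
          rintro a ⟨ha, haz⟩
          rw [hzD] at haz
          rcases hcase a ha with ⟨-, h4⟩ | ⟨h3, -⟩ | ⟨-, h3, -⟩
          · exact h4
          · exfalso
            apply hDD
            rw [← (hBr D hD _ haz).2.2, (hBr D' hD' _ h3).2.2]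
          · exact absurd haz h3
        · by_cases hzD' : B z = D'
          · refine (h2 D' hD' D hD).anti (union_subset_union_right _ ?_)
            rintro a ⟨ha, haz⟩
            rw [hzD'] at haz
            rcases hcase a ha with ⟨h3, -⟩ | ⟨-, h4⟩ | ⟨-, -, h3⟩
            · exfalso
              apply hDD
              rw [← (hBr D hD _ h3).2.2, (hBr D' hD' _ haz).2.2]
            · exact h4
            · exact absurd haz h3
          · refine atEq_diag S ?_
            rintro a (⟨u, -, rfl⟩ | ⟨ha, haz⟩)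
            · rfl
            · have h3 := (hB.out z hz a.1 haz).2
              rcases hcase a ha with ⟨h4, -⟩ | ⟨h4, -⟩ | ⟨h4, -⟩
              · exact absurd (h3 ▸ (hBr D hD _ h4).2.2) hzD
              · exact absurd (h3 ▸ (hBr D' hD' _ h4).2.2) hzD'
              · exact h4
    refine hmain.anti ?_
    have hsub : SW univ v v' ⊆ dg A ∪ P := by
      intro a ha
      by_cases ha1 : a.1 ∈ A ∨ a.2 ∈ A
      · left
        rcases ha with (⟨h3, -⟩ | ⟨i, rfl⟩) | ⟨i, rfl⟩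
        · rw [mem_dg]
          rcases ha1 with h4 | h4
          · exact ⟨h4, h3⟩
          · exact ⟨h3 ▸ h4, h3⟩
        · exfalso
          rcases ha1 with h4 | h4
          · exact (hBr D hD _ (hvD i)).1 h4
          · exact (hBr D' hD' _ (hvD' i)).1 h4
        · exfalso
          rcases ha1 with h4 | h4
          · exact (hBr D' hD' _ (hvD' i)).1 h4
          · exact (hBr D hD _ (hvD i)).1 h4
      · right
        push Not at ha1
        exact ⟨ha, ha1⟩
    refine union_subset ?_ hsub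
    refine Subset.trans ?_ hsub
    rintro _ ⟨f, hf, rfl⟩
    left; left
    refine ⟨rfl, mem_univ _, ?_, ?_⟩
    · change f ∉ range v
      rw [hrange D hD]
      exact fun h3 => (hBr D hD f h3).2.1 hf
    · change f ∉ range v'
      rw [hrange D' hD']
      exact fun h3 => (hBr D' hD' f h3).2.1 hf
  · refine ⟨h (B x) ∘ w, ⟨B x, hxBB, rfl⟩, ?_⟩
    rw [hrange _ hxBB]
    exact hB.self x hxA

theorem thm_LVR (hR : St_RED) (hL : St_LVL) : St_LVR := by
  intro L M S F hC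
  have key : ∀ n : ℕ, ∃ (m : ℕ) (N : Set M), N.Countable ∧
      ∀ x ∉ N, ∃ (b : ℕ) (V : Set (Fin b → M)), b ≤ m ∧ ¬ V.Countable ∧
      (∀ v ∈ V, ∀ v' ∈ V, ∀ p q, v p = v' q → v = v' ∧ p = q) ∧
      (∀ v ∈ V, ∀ v' ∈ V, v ≠ v' → TE S F n (SW univ v v')) ∧ ∃ v ∈ V, x ∈ range v := by
    intro n
    obtain ⟨L', S', h1, h2, h3⟩ := hR L M S F (max n 2) (le_max_right _ _) hC
    obtain ⟨A, B, m, h4, h5, h6⟩ := hL L' M S' F (max n 2) (le_max_right _ _) h1 h2
    obtain ⟨N, hN, h7⟩ := LVR_row S' F hC.fin A B m h4 h5 h6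
    refine ⟨m, N, hN, fun x hx => ?_⟩
    obtain ⟨b, V, hb, hV, hd, ht, hv⟩ := h7 x hx
    refine ⟨b, V, hb, hV, hd, fun v hv v' hv' hne => ?_, hv⟩
    exact ((h3 _).1 (ht v hv v' hv' hne)).le (le_max_left _ _)
  choose m N hN h using key
  refine ⟨fun n => (Finset.range (n + 1)).sup m, N, ?_, hN, fun n x hx => ?_⟩
  · intro a b hab
    exact Finset.sup_mono (Finset.range_mono (by omega))
  · obtain ⟨b, V, hb, hV⟩ := h n x hx
    refine ⟨b, V, hb.trans ?_, hV⟩
    exact Finset.le_sup (f := m) (Finset.mem_range.2 (Nat.lt_succ_self n))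

end HEI
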