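import Pool.Agent.HEI.Defs

/-!
# HEI: statements, parts A (levels), B (blocks), C (the set `A`), D (finite `∞`-blocks)

The docstrings contain complete proofs. `(w w')` denotes the exchange of the disjoint tuples `w`,
`w'`. `TE S F n p`: every `q ⊆ p` with at most `n` pairs satisfies `AtEq S S (dg F ∪ q)`
(`Pool/Agent/HERN/Defs.lean`, lemmas in `Pool/Agent/HERN/TE.lean`).
-/

set_option autoImplicit false
set_option linter.unusedVariables false

namespace HEI

open Set Pool.Agent.Helper5.DU Pool.Agent.Helper6.Str Pool.Agent.Helper79.VC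
  Pool.Agent.Helper97.LO Pool.Agent.Helper97.VC HER HERN

/-! ## A. Levels -/

/-- [RED] (2 h) the structure of the `n`-types. Hypotheses of `thm_RED`: `HERN.St_FTN`,
`HERN.St_ROWS`, `HERN.St_ORDB`, `HERN.St_SYM`.
Proof. `L'.Relations k` is empty for `k ≠ n`, `L'.Relations n = Σ k, L.Relations k × (Fin k → F ⊕ Fin n)`,
no functions; `S'.RelMap (k, R, π) x = S.RelMap R (fun i => Sum.elim coe x (π i))`.
Last statement, `←`: the `n` pairs of a tuple of `dg F ∪ p` which are not in `dg F` form a `q ⊆ p`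
with at most `n` elements (equality: two pairs, `2 ≤ n`). `→`: for `q ⊆ p` with at most `n` elements,
`q ≠ ∅`, enumerate `q` by `Fin n` (with repetitions); a tuple of `dg F ∪ q` is given by a `π`; for
`q = ∅` `atEq_diag`.
`Cx S' F`: `fin`, `unc` are the same. `pig`: `AtEq S S p`, `dg F ⊆ p` imply `AtEq S' S' p`, so by
induction on `γ` `BFR S S X Y γ p → BFR S' S' X Y γ p` for `dg F ⊆ p`; apply `Pig S F`. `vq`: apply
`VQp S` to the parameters `g` together with an enumeration of `F`: one gets `N, T, F', g', u`; `T'` is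
the `L'`-structure on `N` defined as `S'`, the elements of `F` being interpreted by the
corresponding values of `g'` (the set `F1` of these values is added to `F'`); `Pig T F'` implies
`Pig T (F' ∪ F1)` and as before `Pig T' (F' ∪ F1)`; `AtEq S T` of the sets in `VQp` implies
`AtEq S' T'`. `ft`, `rows`, `ord`, `sym`: by the hypotheses (`Infinite M` because `M` is
uncountable). -/
def St_RED : Prop := ∀ (L : FirstOrder.Language.{0, 0}) (M : Type) (S : L.Structure M)
  (F : Set M) (n : ℕ), 2 ≤ n → Cx S F →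
  ∃ (L' : FirstOrder.Language.{0, 0}) (S' : L'.Structure M),
    (∀ k, n < k → IsEmpty (L'.Relations k)) ∧ Cx S' F ∧
    ∀ p : Set (M × M), AtEq S' S' (dg F ∪ p) ↔ TE S F n p

/-- [LVL] (1 h) the blocks of level `n`. Hypotheses of `thm_LVL`: `HERN.St_PN0`, `St_PNS`, `St_REP`,
`St_CLX`, `St_BK0`, `St_SIZ`.
Proof. As `Pool/Agent/HERN/MAINN.lean` (with `n` in place of `max r 2`), and the proof of
`thm_FIT` in `Pool/Agent/HERN/FIT.lean`, where the additional conclusion `(B' x).encard ≤ m` is the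
`have hsm` of that proof (copy the proof). -/
def St_LVL : Prop := ∀ (L : FirstOrder.Language.{0, 0}) (M : Type) (S : L.Structure M)
  (F : Set M) (n : ℕ), 2 ≤ n → (∀ k, n < k → IsEmpty (L.Relations k)) → Cx S F →
  ∃ (A : Set M) (B : M → Set M) (m : ℕ), BlkN S A B ∧ (∀ x ∉ A, (B x).encard ≤ m) ∧
    ∀ x ∉ A, ¬ {y | y ∉ A ∧ BIN S A B x y}.Countable

/-- [LVR] (1.5 h) rows at all levels. Hypotheses of `thm_LVR`: `St_RED`, `St_LVL`.
Proof. Level `n ≥ 2`: `S'` from [RED], `A`, `B`, `m` from [LVL] for `S'`. Let `x ∉ A ∪ F`, `w` an injective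
enumeration of the finite set `B x` (`b ≤ m` elements). For each `y ∉ A` with `BIN S' A B x y` there is
`h_y : B x → B y`, `dg A ∪ {(z, h_y z)}` preserves the atomic types of `S'`. The uncountably many `y`
lie in uncountably many blocks (they are finite); choose one `y` in each block (for the block of `x`
choose `x` and the identity); `V` = the set of the tuples `h_y ∘ w`. Two different members `v`, `v'`
have ranges `B y ≠ B y'`, so they are disjoint. `TE S F n (SW univ v v')`: by the last statement of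
[RED] it is enough that `AtEq S' S' (dg F ∪ SW univ v v')`; this set is contained in
`dg A ∪ p`, `p` = the pairs of `SW univ v v'` with coordinates not in `A`; `BlkN.cross`: inside `B y`
`p` is the isomorphism `h_y' ∘ h_y⁻¹` over `A` (composition), inside `B y'` its inverse, inside the other
blocks the identity. Levels `0`, `1`: use level `2` (`TE.le`). `m n` = maximum of the bounds of the
levels `≤ max n 2`. Put `F` and `A` in `N n`. -/
def St_LVR : Prop := ∀ (L : FirstOrder.Language.{0, 0}) (M : Type) (S : L.Structure M)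
  (F : Set M), Cx S F → ∃ (m : ℕ → ℕ) (N : ℕ → Set M), Monotone m ∧ (∀ n, (N n).Countable) ∧
  ∀ n, ∀ x ∉ N n, ∃ (b : ℕ) (V : Set (Fin b → M)), b ≤ m n ∧ ¬ V.Countable ∧
    (∀ v ∈ V, ∀ v' ∈ V, ∀ p q, v p = v' q → v = v' ∧ p = q) ∧
    (∀ v ∈ V, ∀ v' ∈ V, v ≠ v' → TE S F n (SW univ v v')) ∧ ∃ v ∈ V, x ∈ range v

/-! ## B. Blocks -/

/-- [GRP] (1 h) permutations. Proof. As `Pool/Agent/HERN/NAB.lean` (`NAB` for `NA`); `Ph σ` is `NA σ`
together with finiteness and support in `X` (then `σ x ∈ X ↔ x ∈ X`). -/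
def St_GRP : Prop := ∀ (L : FirstOrder.Language.{0, 0}) (M : Type) (S : L.Structure M)
  (F : Set M) (n : ℕ) (X : Set M),
  Ph S F n X 1 ∧ (∀ σ τ, Ph S F n X σ → Ph S F n X τ → Ph S F n X (σ * τ)) ∧
  (∀ σ, Ph S F n X σ → Ph S F n X σ⁻¹) ∧
  (∀ (k : ℕ) σ, k ≤ n → Ph S F n X σ → Ph S F k X σ) ∧
  (∀ (Y : Set M) σ, Y ⊆ X → (∀ x, σ x ≠ x → x ∈ Y) → Ph S F n X σ → Ph S F n Y σ) ∧
  (∀ (β : Type) (w w' : β → M), Dj w w' → ∃ σ, Xc w w' σ) ∧
  ∀ (β : Type) [Finite β] (w w' : β → M) (σ : Equiv.Perm M), Dj w w' → Xc w w' σ →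
    (∀ p, w p ∈ X) → (∀ p, w' p ∈ X) → (Ph S F n X σ ↔ TE S F n (SW X w w'))

/-- [INF] (1 h) arbitrarily long rows. Hypothesis of `thm_INF`: `St_GRP`.
Proof. Write `v ~ v'` if `v`, `v'` are disjoint injective tuples of `X` and `(v v')` is in `Φ_n(X)`. If
`v, v'` are disjoint and `v ~ w`, `v' ~ w` then `v ~ v'` (`(v v') = (v w)(v' w)(v w)`). Let `K` be a maximal
set of pairwise disjoint tuples `v ~ w`, different from `w` (Zorn, or choose successively). `{w} ∪ K`
is a row. If `K` is finite, a row of length `> b + b |K| + 1` containing `w` (`b = |β|`) has another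
member disjoint from all members of `K`: contradiction. So there is an infinite row (choose
successively: given `v_0 = w, ..., v_k` in a row, a long row containing `w` has a member disjoint
from all of them). -/
def St_INF : Prop := ∀ (L : FirstOrder.Language.{0, 0}) (M : Type) (S : L.Structure M)
  (F : Set M) (n : ℕ) (X : Set M) (β : Type) [Finite β] [Nonempty β] (w : β → M),
  (∀ k : ℕ, ∃ v : Fin (k + 1) → β → M, Ro S F n X v ∧ v 0 = w) →
  ∃ v : ℕ → β → M, Ro S F n X v ∧ v 0 = w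

/-- [INT] (2 h) intersection and difference of good sets. Hypothesis of `thm_INT`: `St_GRP`.
Proof. Rows `w_i` with `range w_0 = B`, `w'_j` with `range w'_0 = B'`. INTERSECTION. `P = {p | w_0 p ∈ B'}`.
For almost all `i` `w_i` is disjoint from `B'`, for almost all `j` `w'_j` is disjoint from `B`. Fix such a
`j`, `t = (w'_0 w'_j)`. For almost all `i` `w_i` is disjoint from `B'` and `w'_j`; `s_i = (w_0 w_i)`. Then
`t s_i t⁻¹` exchanges `t w_0` and `w_i`; `t w_0 = w_0` outside of `P`. So `c_i = s_i (t s_i t⁻¹)` is a `3`-cycle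
of the tuples `w_0^P`, `w_i^P`, `u = (t w_0)^P` (`w^P` = restriction to `P`) and fixes everything else. The
`c_i`, `i` in an infinite set, generate the double exchanges `(a b)(c d)` of the tuples `w_0^P`, `w_i^P`;
`(a b)` with `a, b` among `w_0^P, w_i^P` is in `Φ_n(X)`: a set of at most `n` elements misses two of the
other tuples `c`, `d`, on it `(a b)` acts as `(a b)(c d)`. So `w_0^P, w_i^P, ...` is a row (infinitely
many `i`), its first member has the range `B ∩ B'`. DIFFERENCE. `B' ⊂ B`; by the first part (with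
`P = {p | w_0 p ∈ B'}`) the `w_i^P` (`i = 0` and almost all `i`) form a row; `(w w_i)` times `(w^P w_i^P)` is
the exchange of the complementary parts. See also `Pool/Agent/HERN/RPR.lean`, `RGB.lean`. -/
def St_INT : Prop := ∀ (L : FirstOrder.Language.{0, 0}) (M : Type) (S : L.Structure M)
  (F : Set M) (n : ℕ) (X B B' : Set M), Gs S F n X B → Gs S F n X B' →
  ((B ∩ B').Nonempty → Gs S F n X (B ∩ B')) ∧ (B' ⊂ B → Gs S F n X (B \ B'))

/-- [BLK] (1.5 h) blocks. Hypotheses of `thm_BLK`: `St_GRP`, `St_INT`.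
Proof. Good sets are finite and nonempty. (1) a good set containing `x` of minimal size is contained in
every good set containing `x` ([INT]), so it is `Bl x`. (2) `y ∈ Bl x`, so `Bl y ⊆ Bl x`. If `x ∉ Bl y`
then `Bl x \ Bl y` is good ([INT]) and contains `x`: contradiction. So `x ∈ Bl y`, `Bl x ⊆ Bl y`.
(3) `σ ∈ Φ_n(X)` maps rows to rows (`σ (v v') σ⁻¹ = (σ v σ v')`). (4) rows of level `m` are rows of
level `n ≤ m`. -/
def St_BLK : Prop := ∀ (L : FirstOrder.Language.{0, 0}) (M : Type) (S : L.Structure M)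
  (F : Set M) (n : ℕ) (X : Set M),
  (∀ B, Gs S F n X B → B.Finite ∧ B.Nonempty ∧ B ⊆ X) ∧
  (∀ x, Gx S F n X x → Gs S F n X (Bl S F n X x) ∧ x ∈ Bl S F n X x) ∧
  (∀ x y, Gx S F n X x → y ∈ Bl S F n X x → Gx S F n X y ∧ Bl S F n X y = Bl S F n X x) ∧
  (∀ σ B, Ph S F n X σ → Gs S F n X B → Gs S F n X (σ '' B)) ∧
  (∀ σ x, Ph S F n X σ → Gx S F n X x →
    Gx S F n X (σ x) ∧ Bl S F n X (σ x) = σ '' Bl S F n X x) ∧
  (∀ (m : ℕ) B, n ≤ m → Gs S F m X B → Gs S F n X B) ∧
  ∀ (m : ℕ) x, n ≤ m → Gx S F m X x → Gx S F n X x ∧ Bl S F n X x ⊆ Bl S F m X x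

/-- [CNJ] (1 h) conjugate good sets can be exchanged. Hypotheses of `thm_CNJ`: `St_GRP`, `St_BLK`.
Proof. `w` enumerates the good set `B`, `σ w` is disjoint from `w`. `B` is the range of the member
`v_0` of a row `v_i`, `v_0 = w π` for a bijection `π`. Choose `i` such that `v_i` is disjoint from the
support of `σ`, from `B` and `σ B`. `(v_0 v_i) ∈ Φ_n(X)`, conjugation by `σ`: `(σ v_0 v_i)`; the product
`(v_0 v_i)(σ v_0 v_i)(v_0 v_i)` is `(v_0 σ v_0)`, this is also `(w σ w)`. Second statement: if `x` is good,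
`σ x = y` and `y ∉ Bl x`, then `σ (Bl x) = Bl y` is disjoint from `Bl x` ([BLK]). -/
def St_CNJ : Prop := ∀ (L : FirstOrder.Language.{0, 0}) (M : Type) (S : L.Structure M)
  (F : Set M) (n : ℕ) (X : Set M) (σ : Equiv.Perm M), Ph S F n X σ →
  (∀ (β : Type) (w : β → M), Function.Injective w → Gs S F n X (range w) →
    (∀ p q, σ (w p) ≠ w q) → Sw S F n X w (fun p => σ (w p))) ∧
  ∀ x, Gx S F n X x → σ x ∉ Bl S F n X x → ∀ (k : ℕ) (w : Fin k → M), Function.Injective w →
    range w = Bl S F n X x → Sw S F n X w (fun p => σ (w p)) ∧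
      range (fun p => σ (w p)) = Bl S F n X (σ x)

/-- [UTL] (1 h) utilities. Hypotheses of `thm_UTL`: `St_GRP`, `St_BLK`, `St_CNJ`.
Proof. (1) the exchange of `σ u` and `σ v` is `σ (u v) σ⁻¹`; if `q` is a set of at most `n` pairs of it with
first coordinates outside of `σ W`, then it is the composition of three sets of pairs which preserve
the atomic types over `F` (`σ⁻¹` preserves `n`-types on `X`, then `(u v)`, then `σ`). (2) a member `w_i` of a
row with `range w_0 = Bl y`, disjoint from the finite set `E ∪ Bl y`, `τ = (w_0 w_i)`. (3) `τ` = the exchange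
of [CNJ]. (4) if `σ y ∉ Bl y` use (3); otherwise `σ (Bl y) = Bl y`: choose a member `w_i` of a row with
`range w_0 = Bl y` disjoint from `E`, `Bl y` and the support of `σ`; `τ1 = (w_0 w_i)`, `τ2 = (σ w_0, w_i) =
σ (w_0 w_i) σ⁻¹`; `τ2 (τ1 x) = σ x` for `x ∈ Bl y`. (5) `SW Y u v ⊆ SW X u v`. -/
def St_UTL : Prop := ∀ (L : FirstOrder.Language.{0, 0}) (M : Type) (S : L.Structure M)
  (F : Set M) (n : ℕ) (X : Set M),
  (∀ (k : ℕ) (u v : Fin k → M) (W : Set M) (σ : Equiv.Perm M), Ph S F n X σ →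
    Sw S F n (X \ W) u v →
    Sw S F n (X \ (σ '' W)) (fun i => σ (u i)) (fun i => σ (v i))) ∧
  (∀ (y : M) (E : Set M), Gx S F n X y → E.Finite → ∃ τ : Equiv.Perm M, Ph S F n X τ ∧
    (∀ x, τ (τ x) = x) ∧ (∀ x, τ x ≠ x → x ∈ Bl S F n X y ∨ τ x ∈ Bl S F n X y) ∧
    Disjoint (τ '' Bl S F n X y) (E ∪ Bl S F n X y)) ∧
  (∀ (y : M) (σ : Equiv.Perm M), Gx S F n X y → Ph S F n X σ → σ y ∉ Bl S F n X y →
    ∃ τ : Equiv.Perm M, Ph S F n X τ ∧ (∀ x, τ (τ x) = x) ∧
    (∀ x ∈ Bl S F n X y, τ x = σ x) ∧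
    ∀ x, τ x ≠ x → x ∈ Bl S F n X y ∨ x ∈ Bl S F n X (σ y)) ∧
  (∀ (y : M) (σ : Equiv.Perm M) (E : Set M), Gx S F n X y → Ph S F n X σ → E.Finite →
    Disjoint E (Bl S F n X y) → Disjoint E (Bl S F n X (σ y)) →
    ∃ τ : Equiv.Perm M, Ph S F n X τ ∧ (∀ x ∈ Bl S F n X y, τ x = σ x) ∧
      ∀ x ∈ E, τ x = x) ∧
  ∀ (β : Type) (Y : Set M) (w v : β → M), Y ⊆ X → Sw S F n X w v →
    (∀ i, w i ∈ Y ∧ v i ∈ Y) → Sw S F n Y w v

/-- [ORB] (1 h) finitely many orbits. Hypotheses of `thm_ORB`: `St_GRP`, `St_BLK`, `St_CNJ`.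
Proof. Suppose not. A block with at most `b` elements meets at most `b` orbits; so there are
infinitely many `x_i` of this kind whose blocks `B_i` are pairwise not conjugate (no `σ ∈ Φ_n(M)`
with `σ B_i = B_j`) and have the same number `s` of elements. `B_i` is the range of the first member of a
row; choose successively members `w i 0, ..., w i i` of the row of `B_i` such that all chosen tuples are
disjoint from each other and from `F`. For `i ≠ j` the exchange `(w_ik w_jl)` is not in `Φ_n(M)`: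
choose a set of at most `n` pairs of `SW univ (w_ik) (w_jl)` which is not preserved; `X` = `F`, all
`w i k p`, and all coordinates of these pairs (countable). Then `Rows S F n X w`: contradiction to
`RowsP S F` (with `G = F`). (`w i k p ∉ F` for `n ≥ 1`: an element of `F` is not moved by `Φ_1`; for
`n = 0` all elements are conjugate under `Φ_0`, one orbit.) -/
def St_ORB : Prop := ∀ (L : FirstOrder.Language.{0, 0}) (M : Type) (S : L.Structure M)
  (F : Set M) (n b : ℕ), F.Finite → RowsP S F → ∃ R : Set M, R.Finite ∧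
    ∀ x, Gx S F n univ x → (Bl S F n univ x).encard ≤ b → ∃ y ∈ R, Cj S F n univ y x

/-- [VIS] (2.5 h) the blocks are visible. Hypotheses of `thm_VIS`: `St_GRP`, `St_INF`, `St_BLK`,
`St_CNJ`, `St_UTL`.
Proof. (1) Let `(w w')` be in `Φ_n(X \ W)`, `q ⊆ SW (Y \ W') v v'` with at most `n` pairs. By at most `2n`
moves extend `p` by the coordinates of the pairs of `q` (`y ∈ Y`, answer `x ∈ X`): `p' ⊇ p`, still
`AtEq S S p'`. `y ∉ W'` gives `x ∉ W` (`W' = p(W)`, `AtEq` respects equality), `y ∉ range v` gives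
`x ∉ range w`, `v i` corresponds to `w i`. So the pairs of `q` correspond to pairs of
`SW (X \ W) w w'`, `AtEq S S (dg F ∪ q)` by composition (`AtEq.comp'`, `symm'`). Only levels below
`ω` are used; everything is symmetric in `X`, `Y` (`BFR.symm`).
(2) `x` good in `X`: extend `p` by a good set `B = range w_0` containing `x` (finitely many moves);
for every `k` extend by the members `w_1, ..., w_k` of the row: by (1) their images form a row of
length `k + 1` in `Y` which contains the image of `w_0`: [INF]. So the image of a good set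
`B ⊆ dom p` is good. (3) extend `p` by `Bl x`; its image `C` is good and contains `y`; if `Bl y` were a
proper subset of `C`, its preimage would be a good proper subset of `Bl x` containing `x`. So
`Bl y = C`. (4) `Cj n X x x'`: if `x' ∉ Bl x` use the exchange of `Bl x` and `Bl x'` ([CNJ], [BLK]) and (1).
If `x' ∈ Bl x`: choose a member `w_i` of a row with `range w_0 = Bl x` off the support of `σ`, `x''` the
element of `w_i` corresponding to `x`: `x` and `x'` are both conjugate to `x''` by exchanges as before.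
(5) follows from (3). (6) extend `p` by the block of `y` and use (1) with `W = Bl m' X y \ range v`.
All this needs finitely many moves followed by conditions of levels `< ω * 2`; `γ ≥ ω * 4` is more than
enough (after finitely many moves the level is still `≥ ω * 3`). -/
def St_VIS : Prop := ∀ (L : FirstOrder.Language.{0, 0}) (M : Type) (S : L.Structure M)
  (F X Y : Set M) (γ : Ordinal.{0}) (p : Set (M × M)), F.Finite →
  Ordinal.omega0 * 4 ≤ γ → dg F ⊆ p → (∀ a ∈ p, a.1 ∈ X ∧ a.2 ∈ Y) → BFR S S X Y γ p →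
  (∀ (β : Type) [Finite β] (w w' v v' : β → M) (W W' : Set M) (n : ℕ),
    (∀ i, (w i, v i) ∈ p ∧ (w' i, v' i) ∈ p) → (∀ x ∈ W, ∃ y ∈ W', (x, y) ∈ p) →
    (∀ y ∈ W', ∃ x ∈ W, (x, y) ∈ p) → (Sw S F n (X \ W) w w' ↔ Sw S F n (Y \ W') v v')) ∧
  (∀ n, ∀ a ∈ p, (Gx S F n X a.1 ↔ Gx S F n Y a.2)) ∧
  (∀ n, ∀ a ∈ p, ∀ a' ∈ p, Gx S F n X a.1 →
    (a'.1 ∈ Bl S F n X a.1 ↔ a'.2 ∈ Bl S F n Y a.2)) ∧
  (∀ n, ∀ a ∈ p, ∀ a' ∈ p, Gx S F n X a.1 → (Cj S F n X a.1 a'.1 ↔ Cj S F n Y a.2 a'.2)) ∧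
  (∀ n, ∀ a ∈ p, Gx S F n X a.1 →
    (Bl S F n X a.1).encard = (Bl S F n Y a.2).encard) ∧
  ∀ (n k : ℕ) (w v : Fin k → M), Function.Injective w → (∀ i, (w i, v i) ∈ p) →
    (Em S F n X (range w) ↔ Em S F n Y (range v))

/-! ## C. The set `A` -/

/-- [CLA] (2 h) the least closed set. Hypotheses of `thm_CLA`: `St_GRP`, `St_BLK`, `St_ORB`, `St_LVR`.
Proof. `m`, `N` from [LVR]; replace `N n` by `N n ∪ F`. (a) `x ∉ N n`: `x` is in a member `v` of an
uncountable row `V` of `b`-tuples, `b ≤ m n`: `range v` is good (an infinite sequence of members of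
`V` starting with `v`), so `|Bl x| ≤ b`; the exchanges `(v v')`, `v' ∈ V`, show that the orbit of `x` at
level `n` is uncountable. (b) INTERSECTIONS of closed sets are closed: clear for `gd`, `sz`, `bl`; `ob`: if
`A = ⋂ A_i` and the set of `∞`-blocks of the conjugates of `x` outside of `A` is finite, the same is
true for `A_i`, so the orbit is in `A_i`. `A` := intersection of all closed sets. (c) There is a COUNTABLE
closed set: `N' = ⋃ n, N n`, `Q = N' ∪ {y | ∃ n, ∃ x ∈ N', x good at level n, y ∈ Bl_n x}`. `gd`, `sz`: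
by (a) such `x` are in `N n`. `bl`: `y ∈ Q`, `z ∈ Bl_k y`. If `y ∈ N'` clear. Otherwise `y ∈ Bl_n x`,
`x ∈ N'`; if `k ≤ n` then `z ∈ Bl_k y ⊆ Bl_n y = Bl_n x`; if `k > n` then `x ∈ Bl_n x = Bl_n y ⊆ Bl_k y`, so
`Bl_k y = Bl_k x ∋ z` ([BLK]). `ob`: if the orbit `V_n(x)` is countable, all its elements are in `N n`
by (a). If it is uncountable, then its elements outside of the countable set `Q` are good at all levels
(by `gd`) and lie in infinitely many `∞`-blocks, as `∞`-blocks are countable. (d) `F ⊆ A`: elements of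
`F` are not good at level `1` (`Φ_1` does not move them; a good set containing one would be
exchanged). (e) `orb`: by [ORB] with `b = m n`: for `x ∉ A` `x` is good, `|Bl_n x| ≤ m n`; from the finite
set `R` choose for every `y ∈ R` conjugate to an element outside of `A` such an element instead.
`pig`, `ff` from `Cx S F`. -/
def St_CLA : Prop := ∀ (L : FirstOrder.Language.{0, 0}) (M : Type) (S : L.Structure M)
  (F : Set M), Cx S F → ∃ (m : ℕ → ℕ) (A : Set M), Lv S F m A

/-- [LVF] (0.5 h) elements outside of `A`. Hypotheses of `thm_LVF`: `St_GRP`, `St_BLK`.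
Proof. (1), (2): `gd`, `sz`. (3) `y ∈ Bl_n x`; `y ∉ A` by `bl` (`x ∈ Bl_n y`); for `k ≥ n`
`Bl_k y = Bl_k x` ([BLK]), the blocks increase with `k`. (4) by `ob`: otherwise `x ∈ A`. (5) `Bi x` is
the increasing union of the finite sets `Bl_n x`. (6) `Cj` is an equivalence relation, decreasing in the
level. (7) if `Bi x` is finite it is equal to `Bl_l x` for some `l`. -/
def St_LVF : Prop := ∀ (L : FirstOrder.Language.{0, 0}) (M : Type) (S : L.Structure M)
  (F : Set M) (m : ℕ → ℕ) (A : Set M), Lv S F m A → ∀ x ∉ A,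
  (∀ n, Gx S F n univ x) ∧ (∀ n, (Bl S F n univ x).encard ≤ m n) ∧
  (∀ y ∈ Bi S F univ x, y ∉ A ∧ Bi S F univ y = Bi S F univ x) ∧
  (∀ n, {B | ∃ y, Cj S F n univ x y ∧ y ∉ A ∧ B = Bi S F univ y}.Infinite) ∧
  x ∈ Bi S F univ x ∧ (Bi S F univ x).Countable ∧
  (∀ n y z, Cj S F n univ x y → Cj S F n univ x z → Cj S F n univ y z) ∧
  ((Bi S F univ x).Finite → ∃ l, Bi S F univ x = Bl S F l univ x)

/-! ## D. Finite `∞`-blocks

Throughout `Lv S F m A`, `PD S F A C`, `D = A ∪ ⋃₀ C`. -/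

/-- [MOV] (2.5 h) moving tuples into `D`. Hypotheses of `thm_MOV`: `St_GRP`, `St_BLK`, `St_CNJ`,
`St_UTL`, `St_LVF`.
Proof. Let `B_1, ..., B_r` be the blocks `Bl_n x` of the elements `x ∈ z \ K`, `x ∉ A`, with `¬ Bl_n x ⊆ D`
(finitely many, pairwise disjoint, disjoint from `A` and from `K` by the hypothesis, finite by `sz`).
Induction on `r`. `PD.rd` for `B_1 = Bl_n x`: in the first case there are infinitely many pieces
`P ∈ C` with `Rx S F n x P`, they are finite and pairwise disjoint (`ds`, [LVF]), so there is one, `P_1`,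
which is disjoint from `z`, `K`, all `B_i` and the sets `P_i` already chosen; `range u = B_1`,
`range v ⊆ P_1`; let `e_1` be the exchange of `u` and `v`. It preserves the `n`-types of the tuples which
avoid `P_1 \ range v`. In the second case (`Ra`) `y ∈ A`, `Gx m' y`, `n ≤ m'`, `(u v)` exchanges `B_1` with a
subset of `Bl_m' y`; the blocks `Bl_m' y'`, `y' ∈ A` conjugate to `y`, are pairwise disjoint or equal, there are
infinitely many and they are in `A` (`Cls.bl`); let `P_1` be one of them which is disjoint from the given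
finite sets and from `Bl_m' y`, `τ ∈ Φ_m'(M)` the exchange of `Bl_m' y` and `P_1` ([UTL] (3)); it fixes the
elements of `B_1` (`B_1` is disjoint from `A`). By [UTL] (1) the exchange `e_1` of `u` and `τ v` preserves
the `n`-types of the tuples which avoid `P_1 \ τ (range v)`. In both cases `e_1` fixes `K` pointwise, maps
`z ∩ B_1` into `P_1 ⊆ D`, fixes the other elements of `z`, and preserves the `n`-types of the subsets of
`z ∪ K`. Go on with `e_1 z` and `B_2` (`e_1 z` avoids `P_2` if `P_2` is also disjoint from `P_1`). -/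
def St_MOV : Prop := ∀ (L : FirstOrder.Language.{0, 0}) (M : Type) (S : L.Structure M)
  (F : Set M) (m : ℕ → ℕ) (A : Set M) (C : Set (Set M)) (n : ℕ) (z K : Set M),
  Lv S F m A → PD S F A C → z.Finite → K.Finite →
  (∀ x ∈ z, x ∉ K → x ∉ A → ¬ Bl S F n univ x ⊆ A ∪ ⋃₀ C → Disjoint (Bl S F n univ x) K) →
  ∃ e : Equiv.Perm M, (∀ x ∈ K, e x = x) ∧
    (∀ x ∈ z, x ∉ K → e x ∈ A ∪ ⋃₀ C ∧ e x ∉ K) ∧
    TE S F n {a | a.1 ∈ z ∪ K ∧ a.2 = e a.1}

/-- [RDV] (1 h) permutations of `D` with support in full blocks. Hypotheses of `thm_RDV`: `St_GRP`,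
`St_BLK`, `St_LVF`, `St_MOV`.
Proof. Let `q` be a set of at most `n` pairs `(x, σ x)`, `z` the set of the first coordinates, `K` the
support of `σ` (finite, contained in `D`). If `x ∈ z \ K`, `x ∉ A`, `¬ Bl_n x ⊆ D` and `w ∈ Bl_n x ∩ K` then
`w ∉ A` ([LVF]), `Bl_n w = Bl_n x ⊆ D` by the hypothesis: contradiction. So [MOV] gives `e`; `e z ⊆ D`,
and `σ (e x) = e (σ x)` for `x ∈ z`. Types over `F`: `z` and `e z` have the same type, `e z` and `σ e z` because
`σ ∈ Φ_n(D)`, `σ e z = e σ z` and `σ z` because `σ z ⊆ z ∪ K`. -/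
def St_RDV : Prop := ∀ (L : FirstOrder.Language.{0, 0}) (M : Type) (S : L.Structure M)
  (F : Set M) (m : ℕ → ℕ) (A : Set M) (C : Set (Set M)) (n : ℕ) (σ : Equiv.Perm M),
  Lv S F m A → PD S F A C → Ph S F n (A ∪ ⋃₀ C) σ →
  (∀ x, σ x ≠ x → x ∈ A ∨ Bl S F n univ x ⊆ A ∪ ⋃₀ C) → Ph S F n univ σ

/-- [PBL] (2.5 h) the blocks of the elements of pieces in `D`. Hypotheses of `thm_PBL`: `St_GRP`,
`St_BLK`, `St_CNJ`, `St_UTL`, `St_LVF`, `St_RDV`.
Proof. `P = Bl_l x ∈ C` as in `PD.pc`, `y ∈ P`. For `k ≥ l` and a partner `P' = Bl_l x'`, `σ ∈ Φ_k(M)`,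
`σ x = x'`, `P' ≠ P`: `x' ∉ Bl_k x` (by `ds`: the `∞`-blocks are different), so the exchange `τ` of
`Bl_k x` and `Bl_k x'` along `σ` is in `Φ_k(M)` ([CNJ]); `D ∩ Bl_k x = P`, `D ∩ Bl_k x' = P'` (`ds`), so
the exchange `t` of `P` and `P'` along `σ` is in `Φ_k(D)`: its `k`-types on `D` are those of `τ`. Two
different partners `P_i`, `P_j` can be exchanged along `σ_j σ_i⁻¹` in the same way. So `P` is good in `D` at
level `k`, and `y` is conjugate in `D` at level `k` to elements of infinitely many `P'`.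
LEVEL `n ≤ l`: `B = Bl_n y ⊆ Bl_l y = P`. The images of `B` under the exchanges `t_i` (level `l`) form a row of
`D`: `B` is good in `D` ([CNJ] in `M`, restriction to `D`), so `Bl_n^D y ⊆ B`. Let `Q ⊂ B` be good in
`D`, `Q_1` a member of its row disjoint from `P`. `u = (Q Q_1) ∈ Φ_n(D)`. For partners `P_i` disjoint from
`Q_1`: `t_i u t_i⁻¹ = (t_i Q, Q_1)`, so `(t_i Q, t_j Q) = (t_i Q, Q_1)(t_j Q, Q_1)(t_i Q, Q_1) ∈ Φ_n(D)`, its
support is in `P_i ∪ P_j` where the `n`-blocks are contained in `D`: by [RDV] it is in `Φ_n(M)`. So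
`t_i Q` is good in `M`, a proper subset of the `n`-block `t_i B` of `M`: contradiction.
LEVEL `n ≥ l`: `P` is good in `D`; `Bl_n^D y ⊇ Bl_l^D y = P` ([BLK]); so `Bl_n^D y = P`. Sizes:
`|P| = |Bl_l x| ≤ m l ≤ m n`. -/
def St_PBL : Prop := ∀ (L : FirstOrder.Language.{0, 0}) (M : Type) (S : L.Structure M)
  (F : Set M) (m : ℕ → ℕ) (A : Set M) (C : Set (Set M)), Lv S F m A → PD S F A C →
  ∀ P ∈ C, ∃ l, ∀ y ∈ P, y ∉ A ∧ P = Bl S F l univ y ∧ (∀ n, Gx S F n (A ∪ ⋃₀ C) y) ∧
    (∀ n, n ≤ l → Bl S F n (A ∪ ⋃₀ C) y = Bl S F n univ y) ∧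
    (∀ n, l ≤ n → Bl S F n (A ∪ ⋃₀ C) y = P) ∧ (∀ n, Bl S F n (A ∪ ⋃₀ C) y ⊆ P) ∧
    Bi S F (A ∪ ⋃₀ C) y = P ∧ (∀ n, (Bl S F n (A ∪ ⋃₀ C) y).encard ≤ m n) ∧
    ∀ n, {P' | P' ∈ C ∧ ∃ y' ∈ P', Cj S F n (A ∪ ⋃₀ C) y y'}.Infinite

/-- [AEL] (2 h) elements of `A` which are good in `D`. Hypotheses of `thm_AEL`: `St_GRP`, `St_BLK`,
`St_CNJ`, `St_UTL`, `St_RDV`, `St_PBL`.
Proof. (1) if `y ∈ Bl_n^D x` is not in `A` then `y ∈ P ∈ C`, `Bl_n^D x = Bl_n^D y ⊆ P` ([PBL]) and `P` is
disjoint from `A`: contradiction to `x ∈ A`. (2) `Cj k D x y` implies `Cj n D x y`. (3) Let `T2 n x`,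
`v = Bl_n^D x`, `v_i` (`i ∈ ℕ`) the members of a row with `v_0 = v`; they contain conjugates of `x`, so they are
in `A` by `T2` and (1). The exchanges `(v v_i)` have support in `A`, so they are in `Φ_n(M)` by [RDV].
`k ≤ n`: `v' = Bl_k^D x ⊆ v`; `v'_i` = image of `v'` in `v_i`; `(v' v'_i) ∈ Φ_k(D)` ([CNJ] in `D`), support in
`A`: in `Φ_k(M)`; also `(v'_i v'_j)`. So `v'` is good in `M` at level `k`, `x` is good and
`u = Bl_k x ⊆ v'`. The images `u_i` of `u` in `v_i` are exchangeable with `u` in `Φ_k(M)` ([CNJ] in `M`),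
supports in `A ⊆ D`: in `Φ_k(D)` ([GRP]); so `u` is good in `D` and `v' ⊆ u`. (4) `T2 n x`, `Cj n D x y`: if
`y ∉ Bl_n^D x` the exchange of the two blocks ([CNJ]) has support in `A`: [RDV]. If `y ∈ Bl_n^D x`: both
are conjugate to an element of a third block (`v_i` disjoint from the support of `σ`, `σ x = y`). (5) (2)
and (3) for all `k`. -/
def St_AEL : Prop := ∀ (L : FirstOrder.Language.{0, 0}) (M : Type) (S : L.Structure M)
  (F : Set M) (m : ℕ → ℕ) (A : Set M) (C : Set (Set M)) (x : M), Lv S F m A → PD S F A C →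
  x ∈ A →
  (∀ n, Gx S F n (A ∪ ⋃₀ C) x → Bl S F n (A ∪ ⋃₀ C) x ⊆ A) ∧
  (∀ n k, n ≤ k → T2 S F A n (A ∪ ⋃₀ C) x → T2 S F A k (A ∪ ⋃₀ C) x) ∧
  (∀ n k, k ≤ n → Gx S F n (A ∪ ⋃₀ C) x → T2 S F A n (A ∪ ⋃₀ C) x → Gx S F k univ x ∧
    Bl S F k (A ∪ ⋃₀ C) x = Bl S F k univ x) ∧
  (∀ n y, Gx S F n (A ∪ ⋃₀ C) x → T2 S F A n (A ∪ ⋃₀ C) x → Cj S F n (A ∪ ⋃₀ C) x y →
    Cj S F n univ x y) ∧
  ((∀ n, Gx S F n (A ∪ ⋃₀ C) x) → (∃ n, T2 S F A n (A ∪ ⋃₀ C) x) → ∀ k, Gx S F k univ x ∧
    Bl S F k (A ∪ ⋃₀ C) x = Bl S F k univ x)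

/-- [ASH] (2.5 h) uniform visibility of `A`. Hypotheses of `thm_ASH`: `St_GRP`, `St_BLK`, `St_CNJ`, `St_UTL`,
`St_VIS`, `St_LVF`, `St_PBL`, `St_AEL`.
Proof. For `x ∈ A` and a countable ordinal `γ` let `(*)_γ(x)` be: for all `C, C', p, y` with `PD C`,
`PD C'`, `BFR S S D D' γ p`, `dg F ⊆ p`, `p` finite, `p ⊆ D × D'`, `(y, x) ∈ p`, `y ∈ ⋃₀ C` one has
`T1 S F A D' x`. Let `A# = {x ∈ A | ∃ γ < ω₁, (*)_γ(x)}`. Claim: `A#` is closed (`Cls`); so `A ⊆ A#` and
the supremum of the `γ_x` (`A` is countable) satisfies the statement. All `γ` below are `≥ ω * 5`. Note: by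
[VIS] and [PBL] `x` is good in `D'` at all levels. `gd`: if `x` is not good at level `n` in `M`, then
`T2` at some level is impossible by [AEL] (5): `T1`. `sz`: `|Bl_n x| > m n`; `|Bl_n^D' x| =
|Bl_n^D y| ≤ m n` ([VIS] (5), [PBL]); if `T2` at some level, `Bl_n^D' x = Bl_n x`: contradiction. `bl`:
`x ∈ A#`, `x` good at level `n`, `x_1 ∈ Bl_n x` (so `x_1 ∈ A` as `A` is closed); put
`γ = γ_x + ω * 5`. Let `(y_1, x_1) ∈ p` and suppose `T2 k x_1` in `D'`, wlog `k ≥ n`. `x ∈ Bl_n x_1 =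
Bl_n^D' x_1 ⊆ D'`; a move gives `y ∈ D`, `(y, x)` added to `p`; `y ∈ Bl_n^D y_1` ([VIS] (3)), so
`y ∈ ⋃₀ C` ([PBL]). So `T1 x` in `D'`. But `T2 k x`: if `σ ∈ Φ_k(D')`, `x ∈ Bl_k^D' x_1`, then
`σ x ∈ Bl_k^D' (σ x_1) ⊆ A` ([AEL] (1) for `σ x_1 ∈ A`, [BLK]). `ob`: let the
orbit `V_n(x_0)` outside of `A#` meet only `r` `∞`-blocks. Then it is in `A` (`A` closed, `A# ⊆ A`). Let
`x ∈ V_n(x_0)`; `γ` = supremum of the `γ_x'`, `x' ∈ V_n(x_0) ∩ A#`, plus `ω * 5`. Let `(y, x) ∈ p`, suppose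
`T2 k x` in `D'`, wlog `k ≥ n`. By [PBL] there are `y_0, ..., y_r` conjugate to `y` at level `k` in `D`, in
different pieces. Moves give `x_0', ..., x_r' ∈ D'`, conjugate to `x` in `D'` at level `k` ([VIS]
(4)), so in `A`, `T2 k x_i'`, and in different `∞`-blocks of `D'` ([VIS] (3)); by [AEL] (3), (5) these are the
`∞`-blocks of `M`; by [AEL] (4) `x_i' ∈ V_k(x) ⊆ V_n(x_0)`. One of them is not in the `r` `∞`-blocks, so it is
in `A#`; `(y_i, x_i')` shows `T1 x_i'`: contradiction to `T2 k x_i'`. -/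
def St_ASH : Prop := ∀ (L : FirstOrder.Language.{0, 0}) (M : Type) (S : L.Structure M)
  (F : Set M) (m : ℕ → ℕ) (A : Set M), Lv S F m A → ∃ γ < om1, Ordinal.omega0 * 5 ≤ γ ∧
  ∀ (C C' : Set (Set M)) (p : Set (M × M)) (x y : M), PD S F A C → PD S F A C' → p.Finite →
    dg F ⊆ p → (∀ a ∈ p, a.1 ∈ A ∪ ⋃₀ C ∧ a.2 ∈ A ∪ ⋃₀ C') →
    BFR S S (A ∪ ⋃₀ C) (A ∪ ⋃₀ C') γ p → (y, x) ∈ p → y ∈ ⋃₀ C → x ∈ A →
    T1 S F A (A ∪ ⋃₀ C') x

/-- [TYI] (2 h) sizes of the `∞`-blocks of elements of `A`. Hypotheses of `thm_TYI`: `St_GRP`, `St_BLK`,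
`St_CNJ`, `St_UTL`, `St_LVF`, `St_RDV`, `St_PBL`.
Proof. `w = Bi^D x` is finite, so `w = Bl_n^D x` for `n ≥ n_1`; `w ⊆ A` (blocks of pieces are in pieces).
For `n ≥ n_1` choose (not `T2 n x`) `y_n ∉ A` conjugate to `x` in `D` at level `n`, `y_n ∈ P_n ∈ C`,
`v_n = Bl_n^D y_n`; `|v_n| = |w|`. If for some `n ≥ n_1` `Bl_n y_n ⊄ D` then `n > l(P_n)` and `v_n = P_n`
([PBL]), `P_n ≠ Bi y_n`: done. Otherwise `Bl_n y_n ⊆ D` for all `n ≥ n_1`; then `v_n = Bl_n y_n`
(`n ≤ l`: [PBL]; `n > l`: `v_n = P_n = D ∩ Bi y_n ⊇ Bl_n y_n ⊇ P_n`). The exchange `(w v_n) ∈ Φ_n(D)` ([CNJ]) is in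
`Φ_n(M)` by [RDV]. So `w` is an `n`-block of `M`, `w = Bl_n x`, conjugate to `v_n`, for all `n ≥ n_1`.
`A \ w` is closed: `gd`: elements `z` of `w` are good at all levels. `sz`: `z ∈ w`: `z` is conjugate at level
`n' = max n n_1` to an element of `v_n'`, outside of `A`: `|Bl_n z| ≤ m n`. `bl`: `z ∈ A \ w`, `z' ∈ Bl_n z`:
`z' ∈ A`; if `z' ∈ w` then `z ∈ Bl_n z' ⊆ Bl_n' z' = w`: contradiction. `ob`: the orbit of `z` at level `n`
outside of `A \ w` meets finitely many `∞`-blocks, so also outside of `A`: the orbit is in `A`; it does not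
meet `w` because elements of `w` are conjugate at level `n` to elements outside of `A`. So
`A ⊆ A \ w` (`least`): contradiction to `x ∈ w ⊆ A`. -/
def St_TYI : Prop := ∀ (L : FirstOrder.Language.{0, 0}) (M : Type) (S : L.Structure M)
  (F : Set M) (m : ℕ → ℕ) (A : Set M) (C : Set (Set M)) (x : M), Lv S F m A → PD S F A C →
  x ∈ A → T1 S F A (A ∪ ⋃₀ C) x → (Bi S F (A ∪ ⋃₀ C) x).Finite →
  ∃ P ∈ C, (Bi S F (A ∪ ⋃₀ C) x).encard = P.encard ∧ ∃ y ∈ P, P ≠ Bi S F univ y

/-- [EXC] (1.5 h) composition of exchanges. Hypotheses of `thm_EXC`: `St_GRP`, `St_BLK`, `St_CNJ`, `St_UTL`.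
Proof. `z` a set with at most `n` elements avoiding `C2 \ range (h2 h)`: here `Q = range v ⊆ C = Bl_m' y`,
`v2 : Fin k → M` is the image of `v` under the exchange `(u2 v2)`, `range u2 = C`. Choose a conjugate copy
`C*` of `C` at level `m'` (a member of a row) disjoint from `z`, `range u`, `C`, `C2`, `τ = (C C*)`. Then
`(u, τ v) ∈ Φ_n(M \ (C* \ τ Q))` (conjugate `(u v)` by `τ`, `n ≤ m'`) and `(τ u2, v2) ∈ Φ_n(M \ (C2 \ range v2))`.
`(u, v3)` with `v3 = (u2 v2) v` acts on `z` as `(u, τ v)(τ v, v3)(u, τ v)`; in each of the three steps the tuple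
avoids the required set (`z` is disjoint from `C*`), and `(τ v, v3)` acts on the tuple as `(τ u2, v2)`. -/
def St_EXC : Prop := ∀ (L : FirstOrder.Language.{0, 0}) (M : Type) (S : L.Structure M)
  (F : Set M) (n m' k k2 : ℕ) (y : M) (u v : Fin k → M) (u2 v2 : Fin k2 → M) (C2 : Set M)
  (e : Fin k → Fin k2), n ≤ m' → Gx S F m' univ y → C2.Finite →
  range v ⊆ Bl S F m' univ y → Sw S F n (univ \ (Bl S F m' univ y \ range v)) u v →
  range u2 = Bl S F m' univ y → range v2 ⊆ C2 → Sw S F n (univ \ (C2 \ range v2)) u2 v2 →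
  Disjoint (range u) C2 → Disjoint (range u) (Bl S F m' univ y) → (∀ i, v i = u2 (e i)) →
  Sw S F n (univ \ (C2 \ range (fun i => v2 (e i)))) u (fun i => v2 (e i))

/-- [EXA] (2.5 h) extendable pieces in `D`. Hypotheses of `thm_EXA`: `St_GRP`, `St_BLK`, `St_CNJ`, `St_UTL`,
`St_LVF`, `St_RDV`, `St_PBL`, `St_EXC`.
Proof. (0) If `y ∈ A` is good at level `m'` in `M` and infinitely many of the blocks of its conjugates at
level `m'` are in `A`, then `C0 = Bl_m' y` is also the `m'`-block of `y` in `D`: `C0` is good in `D` (its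
conjugates in `A`, exchanges have support in `A ⊆ D`); a good set `v ⊆ C0` of `D` is good in `M`
(`(C0 C_i) ∈ Φ_m'(D)`, so `(v, v_i) ∈ Φ_m'(D)` by [CNJ], [RDV]). (a) `P = Bl_l x` truncated, `m0` given.
Choose `m1 ≥ m0, l` with `B = Bl_m1 x ≠ P`. `PD.rd` for `B`: first case: `P' ∈ C` (different from `P`),
`(u v) ∈ Φ_m1(M \ (P' \ range v))`, `range u = B`. Restrict `u`, `v` to `P ⊂ B`: `Q = v(P) ⊂ range v ⊆ P'`;
`P' = Bl_k^D y` for `y ∈ P'`, `k` large ([PBL]). A tuple of `D` which avoids `P' \ Q` meets `B` only in `P`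
(`D ∩ B = P`), so `(u v)` acts on it as `(P Q)`: `Em m1 D P`. Second case: the same with
`Bl_m' z`, `z ∈ A`, by (0). (b) `P = Bi y0` natural, `Xt S F univ P`: for infinitely many `m`: `Em m univ P`:
`m' ≥ m`, `y`, `Q0 ⊂ C0 = Bl_m' y`. If `y ∈ A` or `y ∉ A` but infinitely many of the conjugates `Bl_m' z` of
`C0` are in `A`: conjugate to one of these disjoint from `P`, (0): `Em m D P`. Otherwise only finitely
many conjugates are in `A` and we may conjugate so that `y ∉ A` (there are infinitely many conjugates,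
choose one disjoint from `P`). `PD.rd` for `Bl_m' y`: `P' ∈ C`, `(u2 v2)`, `range u2 = Bl_m' y`: [EXC] gives the
exchange of `P` and `v2(Q0) ⊂ range v2 ⊆ P'` and `P' = Bl_k^D` of its elements: `Em m D P` (restriction from
`M` to `D`); similarly in the second case of `PD.rd`. -/
def St_EXA : Prop := ∀ (L : FirstOrder.Language.{0, 0}) (M : Type) (S : L.Structure M)
  (F : Set M) (m : ℕ → ℕ) (A : Set M) (C : Set (Set M)), Lv S F m A → PD S F A C →
  ∀ P ∈ C, (∀ y ∈ P, P ≠ Bi S F univ y ∨ Xt S F univ P) → Xt S F (A ∪ ⋃₀ C) P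

/-- [EXB] (2.5 h) pieces which are not extendable. Hypotheses of `thm_EXB`: `St_GRP`, `St_BLK`, `St_CNJ`, `St_UTL`,
`St_LVF`, `St_RDV`, `St_MOV`, `St_PBL`, `St_AEL`.
Proof. `P = Bi y0 = Bl_n y0`, `n ≤ k`, `Em k D P`: `m' ≥ k`, `y`, `CD = Bl_m'^D y`, `Q = range v ⊂ CD`. CASE 1.
`y ∈ P' ∈ C`. `CM = Bl_m' y ⊇ CD` ([PBL]: `CD = Bl_m' y` or `CD = P' ⊆ Bl_m' y`). Claim `(P Q) ∈ Φ_k(M \ (CM \ Q))`: let `z` be a set of at most `k` elements avoiding
`CM \ Q`. Apply [MOV] (level `k`) with `K = P ∪ CM`: the `k`-blocks which meet `z \ K` and are not in `D`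
are disjoint from `K` (`CM` is a union of `k`-blocks as `k ≤ m'`, or it is in `A`; `P` is a `k`-block). One gets
`e` with `e z ⊆ D ∪ K`, `e z ∩ K = z ∩ K`, so `e z ⊆ D` avoids `CD \ Q`, `e` fixes `P ∪ Q` pointwise and commutes
with the exchange on the relevant elements: type of `z` = type of `e z` = type of `(P Q) e z` = type of
`(P Q) z` (the last equality: [MOV] preserves the types of the subsets of `z ∪ K`; the elements of
`(P Q) z` are in `z ∪ K`). So `Em k univ P` (`range v ≠ CM`, `P` is disjoint from `CM`: different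
`∞`-blocks). CASE 2. `y ∈ A`. If `T2 m' y` in `D`: `CD = Bl_m' y`
([AEL] (3)), then as in case 1. If not `T2 m' y`: there is `y'` in a piece,
conjugate to `y` in `D` at level `m'`, and by [PBL] one in a piece `P' ≠ P`; conjugate the exchange by
`(CD, Bl_m'^D y')` ([CNJ]), whose support is disjoint from `P`: case 1. -/
def St_EXB : Prop := ∀ (L : FirstOrder.Language.{0, 0}) (M : Type) (S : L.Structure M)
  (F : Set M) (m : ℕ → ℕ) (A : Set M) (C : Set (Set M)), Lv S F m A → PD S F A C →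
  ∀ P ∈ C, ∀ y ∈ P, P = Bi S F univ y → ∀ n k, P = Bl S F n univ y → n ≤ k →
    Em S F k (A ∪ ⋃₀ C) P → Em S F k univ P

/-- [WMX] (2 h) blocks which are not extendable. Hypotheses of `thm_WMX`: `St_GRP`, `St_BLK`, `St_CNJ`, `St_UTL`,
`St_LVF`.
Proof. `Bi y` is finite, `Bi y = Bl_l y` for large `l`; choose `l` such that also `Em k univ (Bi y)` is false
for all `k ≥ l`. Let `y'` be conjugate to `y` at level `l`, `y' ∉ A`. If `y' ∈ Bi y` clear. Otherwise
`σ ∈ Φ_l(M)`, `σ y = y'`, `Bl_l y' = σ (Bi y)`, and `(Bi y, Bl_l y') ∈ Φ_l(M)` ([CNJ]). If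
`Bi y' ≠ Bl_l y'` then `Bl_m' y' ≠ Bl_l y'` for some `m' > l`, and `Em l univ (Bi y)` with `v` = the enumeration
of `Bl_l y'`: contradiction. If `Em k univ (Bl_l y')` for some `k ≥ l`: `m' ≥ k`, `y2`, `(u v)`,
`range v ⊂ Bl_m' y2`; conjugating by an element of `Φ_m'(M)` fixing `Bi y'` we may assume that `Bl_m' y2` is
disjoint from `Bi y`. Conjugate by `(Bi y, Bl_l y')`: `(Bi y, range v)` preserves the `l`-types of tuples
avoiding `Bl_m' y2 \ range v`: `Em l univ (Bi y)`: contradiction. -/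
def St_WMX : Prop := ∀ (L : FirstOrder.Language.{0, 0}) (M : Type) (S : L.Structure M)
  (F : Set M) (m : ℕ → ℕ) (A : Set M) (y : M), Lv S F m A → Wm S F A y →
  ∃ l, ∀ y', y' ∉ A → Cj S F l univ y y' → Bi S F univ y' = Bl S F l univ y' ∧
    ∀ k, l ≤ k → ¬ Em S F k univ (Bi S F univ y')

/-- [REC] (1 h) dovetailing. Proof. Choose successively elements for the requirements (`T n e` for
already chosen `e`, `U r`), each requirement being considered infinitely often, with a new key. -/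
def St_REC : Prop := ∀ (X K : Type) (key : X → K) (T : ℕ → X → Set X) (U : ℕ → Set X),
  (∀ n e, (key '' T n e).Infinite) → (∀ r, (key '' U r).Infinite) →
  ∃ E : Set X, E.Countable ∧ (∀ e ∈ E, ∀ e' ∈ E, key e = key e' → e = e') ∧
    (∀ e ∈ E, ∀ n, (E ∩ T n e).Infinite) ∧ ∀ r, (E ∩ U r).Infinite

/-- [GRW] (3 h) how the requirements `PD.rd` can be satisfied. Hypotheses of `thm_GRW`: `St_GRP`,
`St_BLK`, `St_CNJ`, `St_UTL`, `St_LVF`, `St_EXC`.
Proof. Suppose that the first two alternatives are false. Call `(y, l)` a state if `y ∉ A`, `n ≤ l`,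
`Bi y ≠ Bi x`, `Rx S F n x (Bl_l y)`. There is a state (a conjugate `y` of `x` at level `n` in another
`∞`-block, `l = n`). In a state `l` may be increased (the condition in `Rx` becomes weaker). If `Bi y` is
infinite the size of `Bl_l y` becomes `> K`, and it is not `Bi y`. If `Bi y` is finite take
`Bl_l y = Bi y`. `y` is not `Wm` (second alternative), so `Xt univ (Bi y)`: `Em k univ (Bi y)` for some `k ≥ l`:
`m' ≥ k`, `y2`, `(u2 v2)`, `range v2 ⊂ Bl_m' y2`, size larger than that of `Bi y`. If infinitely many of the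
blocks `Bl_m' z`, `z` conjugate to `y2` at level `m'`, are in `A` then [EXC] (with `Bl_l y`, `C2 = Bl_m' z`
disjoint from `Bl_n x`) gives `Ra S F A n x`: contradiction. So we may choose `y2 ∉ A` (a conjugate, in an
`∞`-block different from `Bi x`; there are infinitely many conjugate blocks and finitely many in `A`; note that
infinitely many different `∞`-blocks occur by [LVF]), and by [EXC] `(y2, m')` is a state with larger block.
Iterate: sizes `> K`, and in the final state either `Bi y` is infinite and `Bl_l y ≠ Bi y`, or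
`Bl_l y = Bi y`, extendable. (For the first application of [EXC] the exchange `Bl_n x → Bl_l y` is
the one of `Rx`; the enumeration of `Bl_l y` and of `range v` are related by a map `e`.) -/
def St_GRW : Prop := ∀ (L : FirstOrder.Language.{0, 0}) (M : Type) (S : L.Structure M)
  (F : Set M) (m : ℕ → ℕ) (A : Set M) (n : ℕ) (x : M), Lv S F m A → x ∉ A →
  Ra S F A n x ∨ (∃ y, Wm S F A y ∧ Rx S F n x (Bi S F univ y)) ∨
  ∀ K : ℕ, ∃ (y : M) (l : ℕ), y ∉ A ∧ n ≤ l ∧ Rx S F n x (Bl S F l univ y) ∧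
    Bi S F univ y ≠ Bi S F univ x ∧ (K : ℕ∞) < (Bl S F l univ y).encard ∧
    (Bl S F l univ y ≠ Bi S F univ y ∨
      (Bl S F l univ y = Bi S F univ y ∧ Xt S F univ (Bi S F univ y)))

/-- [RXC] (1 h) the relation `Rx` for conjugate elements. Hypotheses of `thm_RXC`: `St_GRP`, `St_BLK`,
`St_CNJ`, `St_UTL`.
Proof. (1) conjugate the exchange by `σ ∈ Φ_n(M)` with `σ x = x'`; if `P` is disjoint from the support of
`σ` then `σ` preserves the complement of `P \ range v`, and `Rx x' P`. The support is finite, so this excludes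
only finitely many of pairwise disjoint sets `P`. (2) `τ ∈ Φ_k(M)`, `k ≥ n`, `τ P = P'` where `P = Bl_l y` is
the block of level `l ≤ k`: if `Bl_n x` is disjoint from the `∞`-blocks of `y` and `y'` use the exchange of
`Bl_k y` and `Bl_k y'` ([CNJ]), which fixes `Bl_n x` pointwise. -/
def St_RXC : Prop := ∀ (L : FirstOrder.Language.{0, 0}) (M : Type) (S : L.Structure M)
  (F : Set M) (m : ℕ → ℕ) (A : Set M) (n : ℕ), Lv S F m A →
  (∀ x x', x ∉ A → Cj S F n univ x x' → ∃ E : Set M, E.Finite ∧ ∀ P, Disjoint P E →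
    Rx S F n x P → Rx S F n x' P) ∧
  (∀ x x', x ∉ A → Cj S F n univ x x' → Ra S F A n x → Ra S F A n x') ∧
  ∀ x y y' l k, x ∉ A → y ∉ A → y' ∉ A → n ≤ k → l ≤ k → Cj S F k univ y y' →
    Bi S F univ x ≠ Bi S F univ y → Bi S F univ x ≠ Bi S F univ y' →
    Rx S F n x (Bl S F l univ y) → Rx S F n x (Bl S F l univ y')

/-- [EFM] (3 h) the set of pieces. Hypotheses of `thm_EFM`: `St_GRP`, `St_BLK`, `St_CNJ`, `St_UTL`, `St_LVF`,
`St_WMX`, `St_REC`, `St_GRW`, `St_RXC`.
Proof. Objects `(y, l, tag)`, `y ∉ A`, `tag` = true (`ext`) or false (`max`: `y` is `Wm` and `l` is as in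
[WMX]). `key = Bi y`, `T n (y, l, tag)` = the `(y', l, tag)` with `y' ∉ A`, `Cj (max n l) y y'`: infinitely
many keys by [LVF] (4); for `tag = max` `y'` is again `Wm`, `l` as in [WMX] for `y'` (`Cj` is
transitive). Requirements `U`: let `(n, x)` run through the countably many pairs, `x` in the finite set of
representatives of the orbits of level `n` (`Lv.orb`). If `Ra S F A n x`: none. If the second alternative of
[GRW] holds: `U` = the `(y', l, max)` with `Rx S F n x (Bl_l y')`; infinitely many keys: conjugates of `y` at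
level `max n l` ([RXC] (3), [LVF] (4)). Otherwise for every `K`: `U_K` = the `(y, l, ext)` with `n ≤ l`,
`Rx S F n x (Bl_l y)`, size `> K`, and `Bl_l y ≠ Bi y` or extendable: infinitely many keys: if one of them has
`Bl_l y ≠ Bi y`, say `Bl_l' y ≠ Bl_l y`, take conjugates of `y` at level `max l l'` ([RXC] (3)); if all have
`Bl_l y = Bi y` take larger and larger sizes. Moreover `U_K` = the `(y, l, ext)` with `Bl_l y ≠ Bi y`, size
`> K` (conjugates of `x0`, `Bi x0` infinite). [REC] gives `E`. Let `E1` be the part of `E` with `tag = ext`,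
`E0` the rest. Choose `k_0^0 < k_0^1 < k_1^0 < ...` such that: every `k_j^ε` is the size of `Bl_l y` for
some `(y, l, ext) ∈ E` with `Bl_l y ≠ Bi y` or extendable, and for every requirement `(n, x)` of the third kind there
are infinitely many `j` such that for both `ε` some `(y, l, ext) ∈ E` of size `k_j^ε` satisfies it. For
`f : ℕ → Bool` let `C f` be the set of the pieces `Bl_l y` of `(y, l, max) ∈ E` and of those `(y, l, ext) ∈ E`
whose size is one of the `k_j^(f j)`. `PD`: `pc`: `E ∩ T n e` is infinite, the members have the same tag and the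
same size as `e` (conjugate). `ds`: keys are injective. `rd`: for `x' ∉ A` let `x` be its representative at
level `n`: [RXC] (1), (2) (the pieces are pairwise disjoint). -/
def St_EFM : Prop := ∀ (L : FirstOrder.Language.{0, 0}) (M : Type) (S : L.Structure M)
  (F : Set M) (m : ℕ → ℕ) (A : Set M) (x0 : M), Lv S F m A → x0 ∉ A →
  ¬ (Bi S F univ x0).Finite →
  ∃ (C : (ℕ → Bool) → Set (Set M)) (k : ℕ → Bool → ℕ),
    (∀ j ε i δ, k j ε = k i δ → j = i ∧ ε = δ) ∧ (∀ f, PD S F A (C f)) ∧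
    (∀ f, ∀ P ∈ C f, (∀ y ∈ P, Wm S F A y ∧ P = Bi S F univ y) ∨
      ∃ j, P.encard = (k j (f j) : ℕ∞)) ∧
    ∀ f j, ∃ P ∈ C f, P.encard = (k j (f j) : ℕ∞) ∧ P.Nonempty ∧
      ∀ y ∈ P, P ≠ Bi S F univ y ∨ Xt S F univ P

/-- [BFT] (2 h) the `∞`-blocks outside of `A` are finite. Hypotheses of `thm_BFT`: `St_GRP`, `St_BLK`,
`St_VIS`, `St_LVF`, `St_PBL`, `St_AEL`, `St_ASH`, `St_TYI`, `St_EXA`, `St_EXB`, `St_WMX`, `St_EFM`.
Proof. Otherwise `C f`, `k` from [EFM], `D f = A ∪ ⋃₀ C f`, `G = F`, `γ'` = `γ` of [ASH] `+ ω`. `Pig S F`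
gives `f ≠ g` with `BFR S S (D f) (D g) γ' (dg F)`. Let `f j ≠ g j`, `K = k j (f j)`; `K` is not of the
form `k i (g i)`. `P ∈ C f` of size `K` as in the last statement of [EFM]: `Xt S F (D f) P` ([EXA]); `P` is the
`∞`-block of its elements in `D f` ([PBL]). Moves for all elements of `P`: `P' ⊆ D g`, `p` = `dg F` and the
pairs. By [VIS]: `P'` is the `∞`-block in `D g` of its elements (`Bl_n` correspond for all `n`), size `K`,
`Xt S F (D g) P'` ([VIS] (6)). Let `x ∈ P'`, `(y, x) ∈ p`. (a) `x ∉ A`: `x ∈ P'' ∈ C g`, `P' = P''` ([PBL]).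
Its size is `K`, so by the third statement of [EFM] `x` is `Wm`, `P' = Bi x`, not `Xt univ (Bi x)`: `Em k univ P'` is
false for large `k`, so `Em k (D g) P'` is false for large `k` ([EXB]): contradiction. (b) `x ∈ A`: `T1`
by [ASH], [TYI]: `K = |P''|`, `P'' ∈ C g`, `P'' ≠ Bi y''`: by the third statement of [EFM] (first case
impossible) `|P''| = k i (g i)`: contradiction. (`D f` is infinite and countable.) -/
def St_BFT : Prop := ∀ (L : FirstOrder.Language.{0, 0}) (M : Type) (S : L.Structure M)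
  (F : Set M) (m : ℕ → ℕ) (A : Set M), Lv S F m A → ∀ x ∉ A, (Bi S F univ x).Finite

end HEI
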