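import Pool.Agent.HEI.DefsG
import Pool.Agent.HEI.StA

/-!
# HEI: statements, part E (fine systems)

The docstrings contain complete proofs. All hypotheses of the theorems are statements of this file,
of `StA.lean` and `HERN`.
-/

set_option autoImplicit false
set_option linter.unusedVariables false

namespace HEI

open Set Pool.Agent.Helper5.DU Pool.Agent.Helper6.Str Pool.Agent.Helper79.VC
  Pool.Agent.Helper97.LO Pool.Agent.Helper97.VC HER HERN

/-- the fine system of the structure -/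
def T0 {L : FirstOrder.Language.{0, 0}} {M : Type} (S : L.Structure M) (F A : Set M) : Dt M where
  A := A
  Bk := {b | ∃ x, x ∉ A ∧ b = Bi S F univ x}
  V := fun n b b' => (∃ x, x ∉ A ∧ b = Bi S F univ x) ∧ (∃ x, x ∉ A ∧ b' = Bi S F univ x) ∧
    ∃ σ : Equiv.Perm M, Ph S F n univ σ ∧ σ '' b = b'

/-! ## Utilities -/

/-- [IMG] (1.5 h) images under positions. Hypotheses of `thm_IMG`: none.
Proof. `AtEq S S p` says in particular that `p` is a bijection between its domain and its range: (1)-(5).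
(6) `Ps (g + 1)`: `ω * (g + 1) = ω * g + ω ≥ ω * g + k`, `BFR.forth_many` (`VB/B.lean`), applied to an
enumeration of `b`. (7) `BFR.symm`. (8) `BFR.mono`, `BFR.anti`. -/
def St_IMG : Prop := ∀ (L : FirstOrder.Language.{0, 0}) (M : Type) (S : L.Structure M)
  (F : Set M),
  (∀ (p : Set (M × M)) (b : Set M), AtEq S S p → Dm p b → (Im p b).encard = b.encard ∧
    Im (Prod.swap ⁻¹' p) (Im p b) = b ∧ Dm (Prod.swap ⁻¹' p) (Im p b) ∧
    ∀ p', p ⊆ p' → AtEq S S p' → Im p' b = Im p b ∧ Dm p' b) ∧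
  (∀ (p : Set (M × M)) (b b' : Set M), AtEq S S p → Dm p b → Dm p b' →
    (Im p b = Im p b' ↔ b = b') ∧ (Im p b ⊆ Im p b' ↔ b ⊆ b') ∧
    (Disjoint (Im p b) (Im p b') ↔ Disjoint b b') ∧ Dm p (b ∪ b') ∧
    Im p (b ∪ b') = Im p b ∪ Im p b') ∧
  (∀ (p : Set (M × M)) (E : Set M), AtEq S S p → dg E ⊆ p → Dm p E ∧ Im p E = E) ∧
  (∀ (p : Set (M × M)) (k : ℕ) (w : Fin k → M), AtEq S S p → Dm p (range w) →
    ∃ w' : Fin k → M, (∀ i, (w i, w' i) ∈ p) ∧ range w' = Im p (range w) ∧
      (Function.Injective w → Function.Injective w')) ∧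
  (∀ (p : Set (M × M)) (β : Type) (w w' : β → M), AtEq S S p → (∀ i, (w i, w' i) ∈ p) →
    Dm p (range w) ∧ Im p (range w) = range w') ∧
  (∀ (g : Ordinal.{0}) (D D' : Set M) (p : Set (M × M)) (b : Set M), Ps S F (g + 1) D D' p →
    b.Finite → (b ⊆ D → ∃ p', p ⊆ p' ∧ Ps S F g D D' p' ∧ Dm p' b) ∧
      (b ⊆ D' → ∃ p' c, p ⊆ p' ∧ Ps S F g D D' p' ∧ c ⊆ D ∧ Dm p' c ∧ Im p' c = b)) ∧
  (∀ (g : Ordinal.{0}) (D D' : Set M) (p : Set (M × M)), Ps S F g D D' p →
    Ps S F g D' D (Prod.swap ⁻¹' p)) ∧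
  ∀ (g g' : Ordinal.{0}) (D D' : Set M) (p p' : Set (M × M)), g' ≤ g → Ps S F g D D' p →
    p' ⊆ p → dg F ⊆ p' → Ps S F g' D D' p'

/-! ## Dense sets -/

/-- [DEN] (2 h) dense sets. Hypotheses of `thm_DEN`: `St_GRP`, `St_INF`, `St_BLK`, `St_CNJ`, `St_UTL`,
`St_LVF`.
Proof. (C) For finite `z` and a finite `s ⊆ D` there is `τ ∈ Φ_n(M)` which fixes `s` pointwise, with
`τ z ⊆ D`: let `x ∈ z \ D`; `x ∉ A`, `Bi x` is disjoint from `D` (otherwise it would be contained in `D`).
By `DE` there are infinitely many `∞`-blocks `Bi y ⊆ D` with `y ∉ A`, `Cj n x y`; choose one disjoint from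
`s`, `z` (and the finite sets used before); the exchange of `Bl_n x` and `Bl_n y` ([UTL] (3)) fixes
`s` and the elements of `z` outside of `Bl_n x`, and moves the others into `D`. Go on (the number of
elements of `z` outside of `D` decreases). (1) `σ ∈ Φ_n(D)`, `q` a set of at most `n` pairs of
`σ`, `z` the first coordinates; `s` = support of `σ`; `τ` from (C) commutes with `σ`; `z`, `τ z`,
`σ τ z = τ σ z`, `σ z` have the same type. (2) A row of `D` is a row of `M` by (1). Let `B ⊆ D` be good in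
`M` at level `n`, `w_i` a row with `range w_0 = B`; for every `k` choose `τ ∈ Φ_n(M)` fixing `B`, with
`τ w_i ⊆ D` for `i ≤ k`: rows of `D` of every finite length starting with `w_0`; [INF]: `B` is good in
`D`. For `x ∈ D` good, `Bl_n x ⊆ D` (`Cls.bl` if `x ∈ A`, otherwise `Bl_n x ⊆ Bi x ⊆ D`): so `x` is good in
`D`. (3) the good sets of `D` are the good sets of `M` which are contained in `D`; `Bl_n x` is one of them.
(4) `→`: (1). `←`: `σ x = y`. If `y ∉ Bl_n x` the exchange of `Bl_n x` and `Bl_n y` has its support in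
`D`: `Φ_n(D)` by [GRP]. If `y ∈ Bl_n x` use a third block in `D` (a member of a row of `D`, off the support of
`σ`): `x` and `y` are both conjugate to one of its elements. -/
def St_DEN : Prop := ∀ (L : FirstOrder.Language.{0, 0}) (M : Type) (S : L.Structure M)
  (F : Set M) (m : ℕ → ℕ) (A D : Set M), Lv S F m A → DE S F A D →
  (∀ n σ, Ph S F n D σ → Ph S F n univ σ) ∧
  (∀ n, ∀ x ∈ D, (Gx S F n D x ↔ Gx S F n univ x)) ∧
  (∀ n, ∀ x ∈ D, Gx S F n univ x → Bl S F n D x = Bl S F n univ x ∧ Bl S F n univ x ⊆ D) ∧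
  ∀ n, ∀ x ∈ D, ∀ y ∈ D, Gx S F n univ x → (Cj S F n D x y ↔ Cj S F n univ x y)

/-- [AVI] (2 h) `A` is visible. Hypotheses of `thm_AVI`: `St_GRP`, `St_BLK`, `St_VIS`, `St_LVF`,
`St_DEN`.
Proof. As [ASH], but simpler. Let `A#` be the set of the `x ∈ A` for which there is a countable
`γ ≥ ω * 5` such that `(y, x) ∈ p` (`p` as in the statement, level `γ`) implies `y ∈ A`. Claim: `A#` is closed
(`Cls`); then `A ⊆ A#`, and the supremum of the countably many `γ_x` satisfies one half of the statement,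
the other half by symmetry (`BFR.symm`). `gd`: if `x` is not good at level `n` in `M`, then not in `D'`
([DEN]), `y` is not good in `D` ([VIS]), not in `M`, `y ∈ A`. `sz`: `|Bl_n y| = |Bl_n x|` ([VIS] (5), [DEN]).
`bl`: `x ∈ A#`, `x` good at level `n`, `x_1 ∈ Bl_n x`, `γ = γ_x + ω * 5`, `(y_1, x_1) ∈ p`; `x_1` is good,
`x ∈ Bl_n x_1 ⊆ D'`; a move gives `(y, x)`, `y ∈ Bl_n y_1` ([VIS] (3)), `y ∈ A` as `x ∈ A#`, so
`y_1 ∈ Bl_n y ⊆ A`. `ob`: let `V_n(x_0)` outside of `A#` meet only `r` `∞`-blocks; then `V_n(x_0) ⊆ A` as `A` is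
closed; `x ∈ V_n(x_0)`, `γ` = supremum of the `γ_x'`, `x' ∈ V_n(x_0) ∩ A#`, plus `ω * 5`; `(y, x) ∈ p`.
Suppose `y ∉ A`. By `DE` there are `y_0, ..., y_r ∈ D \ A` conjugate to `y` at level `n`, in different
`∞`-blocks. Moves give `x_i`, conjugate to `x` at level `n` ([VIS] (4), [DEN] (4); `x` is good as `y` is), so in
`V_n(x_0)`, in different `∞`-blocks ([VIS] (3), [DEN]; `x_i` is good at all levels), so one `x_i` is in `A#`, and
`(y_i, x_i)` shows `y_i ∈ A`: contradiction. -/
def St_AVI : Prop := ∀ (L : FirstOrder.Language.{0, 0}) (M : Type) (S : L.Structure M)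
  (F : Set M) (m : ℕ → ℕ) (A : Set M), Lv S F m A → ∃ γ < om1, Ordinal.omega0 * 4 ≤ γ ∧
  ∀ (D D' : Set M) (p : Set (M × M)), DE S F A D → DE S F A D' → p.Finite → dg F ⊆ p →
    (∀ a ∈ p, a.1 ∈ D ∧ a.2 ∈ D') → BFR S S D D' γ p → ∀ a ∈ p, a.1 ∈ A ↔ a.2 ∈ A

/-- [FCL] (1.5 h) finitely many classes of blocks of given size. Hypotheses of `thm_FCL`: `St_GRP`,
`St_BLK`, `St_CNJ`, `St_LVF`.
Proof. Suppose not. Then there are blocks `b_i` (`i ∈ ℕ`) with `k` elements, no `V n b_i b_j` for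
`i ≠ j` (choose successively: a finite `R` is not enough). `b_i = Bi x_i = Bl_l x_i` for large `l`
([LVF]), so `b_i` is good at level `max n l`, so at level `n` ([BLK]): the range of the first member of a
row of level `n` of `k`-tuples (`k = b + 1`). Choose successively members `w i 0, ..., w i i` of the row of
`b_i` such that all chosen tuples are disjoint from each other and from `F`. The exchange of `w i k` and
`w j l`, `i ≠ j`, is not in `Φ_n(M)`, otherwise a product of three exchanges maps `b_i` onto `b_j`. Now as in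
[ORB] (`Pool/Agent/HEI/ORB.lean`): `Rows S F n X w` contradicts `RowsP S F`. (For `n = 0` all sets of
size `k` are conjugate.) -/
def St_FCL : Prop := ∀ (L : FirstOrder.Language.{0, 0}) (M : Type) (S : L.Structure M)
  (F : Set M) (m : ℕ → ℕ) (A : Set M) (n k : ℕ), Lv S F m A → RowsP S F →
  (∀ x ∉ A, (Bi S F univ x).Finite) → ∃ R : Set (Set M), R.Finite ∧
    ∀ b ∈ (T0 S F A).Bk, b.encard = k → ∃ c ∈ R, (T0 S F A).V n c b

/-- [FEX] (1.5 h) exchanges of blocks. Hypotheses of `thm_FEX`: `St_GRP`, `St_BLK`, `St_CNJ`, `St_LVF`.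
Proof. (1) `b = Bi x` is equal to `Bl_l x` for large `l`, so it is good at level `n` ([BLK]); `b'` is disjoint
from `b` (`∞`-blocks, [LVF]); [CNJ] (1) for `σ` with `σ '' b = b'`. (2) For every `n` there is a bijection
`h_n : b → b'` such that the exchange along `h_n` preserves the `n`-types; there are only finitely many
bijections, one `h` occurs for infinitely many `n`, so (`TE.le`) for all `n`. Every finite tuple of
pairs of the exchange `σ` along `h` is contained in a `q` with at most `n` elements for some `n`, so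
`AtEq S S {a | a.2 = σ a.1}`. -/
def St_FEX : Prop := ∀ (L : FirstOrder.Language.{0, 0}) (M : Type) (S : L.Structure M)
  (F : Set M) (m : ℕ → ℕ) (A : Set M), Lv S F m A → (∀ x ∉ A, (Bi S F univ x).Finite) →
  ∀ b b', b ≠ b' →
    (∀ n, (T0 S F A).V n b b' → ∃ (k : ℕ) (w w' : Fin k → M), range w = b ∧ range w' = b' ∧
      Sw S F n univ w w') ∧
    ((∀ n, (T0 S F A).V n b b') → ∃ σ : Equiv.Perm M, (∀ x, σ (σ x) = x) ∧
      (∀ x, σ x ≠ x → x ∈ b ∨ x ∈ b') ∧ σ '' b = b' ∧ AtEq S S {a | a.2 = σ a.1})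

/-- [FDE] (1 h) fine dense sets are dense. Hypotheses of `thm_FDE`: `St_GRP`, `St_BLK`, `St_LVF`.
Proof. Let `DD (T0) A D`, `x ∉ A`. The set of the `Bi y`, `y ∉ A`, `Cj n x y`, is infinite ([LVF] (4)). If all these
blocks are contained in `D`, done. Otherwise let `Bi y` be one which is not contained in `D`; by
`DD` (the second alternative is false for `b = Bi y` at level `n`) infinitely many blocks
`c = σ '' Bi y ⊆ D`, `σ ∈ Φ_n(M)`; `σ y ∈ c` is conjugate to `x`, `c = Bi (σ y)` ([LVF] (3)). The other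
conditions of `DE` are clear (`Un`). -/
def St_FDE : Prop := ∀ (L : FirstOrder.Language.{0, 0}) (M : Type) (S : L.Structure M)
  (F : Set M) (m : ℕ → ℕ) (A D : Set M), Lv S F m A → (∀ x ∉ A, (Bi S F univ x).Finite) →
  DD (T0 S F A) A D → DE S F A D

/-- [FSA] (2 h) the fine system of the structure. Hypotheses of `thm_FSA`: `St_GRP`, `St_BLK`,
`St_CNJ`, `St_VIS`, `St_LVF`, `St_DEN`, `St_AVI`, `St_FCL`, `St_FEX`, `St_FDE`.
Proof. `g0 = γ` of [AVI] (`γ ≤ ω * γ`, `ω * 4 ≤ γ`). `fin`, `dis`, `vm`, `vr`, `vs`, `vt`, `vd`: [LVF], [GRP]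
(`Ph` at level `k ≥ n` implies level `n`). `vf`: [FCL]. `au`: [FEX]. `va`: [AVI], [FDE]. `vb`: let
`b = Bi x ⊆ D`, `b` contained in the domain of `p`, `(x, y) ∈ p`; `y ∉ A`. `b = Bl_n x` for `n ≥ l`;
`|Bl_n y| = |Bl_n^D' y| = |Bl_n^D x| = |b|` for `n ≥ l` ([VIS] (5), [DEN]), so `Bi y = Bl_l y` has the size of `b`;
`Im p b ⊆ Bl_l y` ([VIS] (3)) has the same size: `Im p b = Bi y`. The converse by symmetry (`p` is a
bijection, `BFR.symm`). `vv`: let `V n b b'`; if `b = b'` use `vb`. Otherwise [FEX]: `w`, `w'` with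
`Sw n univ w w'`, so `Sw n D w w'` (`TE.anti`), [VIS] (1) with `W = W' = ∅`: `Sw n D' v v'` for the
corresponding tuples, the exchange of `v`, `v'` is in `Φ_n(D')`, so in `Φ_n(M)` ([DEN], [GRP]). The converse
by symmetry. `X = univ`: every `x ∉ A` is in `Bi x`. -/
def St_FSA : Prop := ∀ (L : FirstOrder.Language.{0, 0}) (M : Type) (S : L.Structure M)
  (F : Set M) (m : ℕ → ℕ) (A : Set M), Lv S F m A → RowsP S F →
  (∀ x ∉ A, (Bi S F univ x).Finite) → ∃ g0, FS S F (T0 S F A) g0 ∧ (T0 S F A).X = univ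

/-! ## Decoding -/

/-- [PRF] (2.5 h) perfect sequences (combinatorics). Hypotheses of `thm_PRF`: none.
`κ n i a` is the class of level `n` of the object `(i, a)`, `δ` the separation level of two different
objects. Proof. CASE 1: the sums `∑ a, sz i a` are unbounded: choose `φ` such that they are strictly
increasing along `φ`; `I` is determined by the set of these sums. CASE 2: they are bounded by `s`. Then
`i ↦ (κ n i a)_a` has finitely many values for every `n`: there is a subsequence `ψ` (diagonal argument)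
such that for every `n` `κ n (ψ i) a` is the same for all `i ≥ n`. Call `(i, a)` a limit for `b` if for
every `n` `κ n (ψ i) a = κ n (ψ j) b` for all large `j`. For given `b` there is at most one limit (two
different limits have `n < δ` for all `n`): drop the finitely many `i` concerned. For the others and all
`a, b` there is `n` with `κ n (ψ i) a ≠ κ n (ψ j) b` for all large `j`, so `δ ≤ n` for large `j`, and
`δ (ψ i) a (ψ j) b` is constant for large `j` (it is determined by the `κ n' (ψ j) b`, `n' ≤ n`). So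
`Δ i j = sup_{a, b} δ (ψ i) a (ψ j) b` is constant `= μ i` for large `j`. `μ i ≥ n + 1` for `i ≥ n` (take
`a = b`). Choose `i_0 < i_1 < ...` with `Δ i_s i_t = μ i_s` for all `s < t` and `μ i_s` strictly
increasing; `φ s = ψ i_s`. `δ` is symmetric, so for infinite `I` the second set is `{μ i_s | s ∈ I}`,
which determines `I`. -/
def St_PRF : Prop := ∀ (K : Type) (k : ℕ) (sz : ℕ → Fin (k + 1) → ℕ)
  (δ : ℕ → Fin (k + 1) → ℕ → Fin (k + 1) → ℕ) (κ : ℕ → ℕ → Fin (k + 1) → K),
  (∀ n i a j b, (i ≠ j ∨ a ≠ b) → (n < δ i a j b ↔ κ n i a = κ n j b)) →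
  (∀ n s, {c | ∃ i a, sz i a ≤ s ∧ c = κ n i a}.Finite) →
  ∃ φ : ℕ → ℕ, StrictMono φ ∧ ∀ I J : Set ℕ, I.Infinite → J.Infinite →
    (∀ m, (∃ i ∈ I, m = ∑ a, sz (φ i) a) ↔ ∃ i ∈ J, m = ∑ a, sz (φ i) a) →
    (∀ m, (∃ i ∈ I, ∃ j ∈ I, i ≠ j ∧
        m = Finset.univ.sup fun a => Finset.univ.sup fun b => δ (φ i) a (φ j) b) ↔
      ∃ i ∈ J, ∃ j ∈ J, i ≠ j ∧
        m = Finset.univ.sup fun a => Finset.univ.sup fun b => δ (φ i) a (φ j) b) → I = J

/-- [DCD] (2.5 h) the decoding lemma. Hypotheses of `thm_DCD`: `St_IMG`, `St_PRF`.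
Proof. `δ i a j b` = the least `n` with `¬ V n (Z i a) (Z j b)` (it exists for `(i, a) ≠ (j, b)`),
`κ n i a = {c | V n (Z i a) c}`, `sz i a` = number of elements of `Z i a`. The hypotheses of [PRF] hold
(`vs`, `vt`, `vd`; `vf` for the sizes `≤ s`). Let `φ` be as in [PRF]; for `f : ℕ → Bool` let
`I_f = {2 j + f j | j}` (as numbers) and `N_f = φ '' I_f`; `I_f` determines `f`. `Pig S F` for the sets
`D N_f`, `G` and the level `γ' = max γ (ω * g0) + ω` (`D N` is infinite as it contains infinitely many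
blocks) gives `f ≠ g` with `BFR S S (D N_f) (D N_g) γ' (dg G)`. For `i ∈ N_f` finitely many moves give
`p` of level `≥ γ`, `≥ ω * g0` with `⋃ a, Z i a` in its domain, and `j ∈ N_g`, `e` as in the hypothesis:
`|Z i a| = |Im p (Z i a)| = |Z j (e a)|` (`vm`), so the sums of the sizes are equal. For `i ≠ i' ∈ N_f`
let `p` cover both, `j, e`, `j', e'`: `V n (Z i a) (Z i' b)` iff `V n (Im p (Z i a)) (Im p (Z i' b))`
(`vv`) iff `V n (Z j (e a)) (Z j' (e' b))` (`vs`, `vt`); `j ≠ j'`: otherwise `e a = e' b` for some `a`,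
`b`, and `V n (Z i a) (Z i' b)` for all `n`, `i = i'`. So the suprema of the `δ` are equal. By symmetry
(`BFR.symm`) the two sets in [PRF] are the same for `I_f` and `I_g`: `I_f = I_g`, `f = g`. -/
def St_DCD : Prop := ∀ (L : FirstOrder.Language.{0, 0}) (M : Type) (S : L.Structure M)
  (F : Set M) (T : Dt M) (g0 : Ordinal.{0}) (k : ℕ) (Z : ℕ → Fin (k + 1) → Set M) (G : Set M)
  (γ : Ordinal.{0}) (D : Set ℕ → Set M), FS S F T g0 → (∀ i a, Z i a ∈ T.Bk) →
  (∀ i a j b, (∀ n, T.V n (Z i a) (Z j b)) → i = j ∧ a = b) → G.Finite → F ⊆ G → γ < om1 →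
  (∀ N : Set ℕ, N.Infinite → DD T T.A (D N) ∧ G ⊆ D N ∧ ∀ i ∈ N, ∀ a, Z i a ⊆ D N) →
  (∀ N N' : Set ℕ, N.Infinite → N'.Infinite → ∀ p : Set (M × M), p.Finite → dg G ⊆ p →
    (∀ a ∈ p, a.1 ∈ D N ∧ a.2 ∈ D N') → BFR S S (D N) (D N') γ p → ∀ i ∈ N,
    (∀ a, Dm p (Z i a)) → ∃ j ∈ N', ∃ e : Equiv.Perm (Fin (k + 1)), ∀ a n,
      T.V n (Im p (Z i a)) (Z j (e a))) → False

/-! ## Types with several copies -/

/-- [MUL] (2.5 h) only finitely many types of blocks which are neither thin nor isolated. Hypotheses of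
`thm_MUL`: `St_IMG`, `St_DCD`.
Proof. The type of `b` is `{c | ∀ n, V n b c}`. Suppose there are blocks `b_j` (`j ∈ ℕ`) of pairwise
different types, not isolated, `b'_j ≠ b_j` of the type of `b_j`. Choose a block `rep τ` in every type,
the block `b_j` in the type of `b_j`. Let `Q` be the set of the blocks which are isolated or of the form
`rep τ`. For every class `t = {c | V n b c}` a subset of `Q ∩ t` is infinite or `t ⊆ Q`: if `t` contains
infinitely many types then `Q ∩ t` is infinite; otherwise each block of `t` is isolated (the finitely many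
other types are separated at some level), `t ⊆ Q`. There are countably many classes (`vf`); let `D_0` be
`A` together with, for each class, a countable infinite subset of `Q ∩ t`, or `t` if `t` is finite.
`D_N = D_0 ∪ ⋃ j, b_j ∪ ⋃ j ∈ N, b'_j`. `DD T A D_N`. The not isolated blocks in `D_N` are of the form
`rep τ` or `b'_j`, `j ∈ N`. [DCD] with `k = 0`, `Z j = b_j`, `G = F`, `γ = ω * (g0 + 1)`: let `p` be as there,
`b_j` in its domain, `c = Im p b_j` (a block by `vb`). (i) `c` is not isolated: suppose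
`V n c d → ∀ m, V m c d`. `b_j` is not isolated: there are `d`, `m` with `V n b_j d`, `¬ V m b_j d`; by
`DD` there is `d' ⊆ D_N` with `V (max n m) d d'`; extend `p` by `d'` ([IMG] (6)), `d'' = Im p' d'`:
`V n c d''`, `¬ V m c d''`: contradiction. (ii) extend `p` by `b'_j`: `c' = Im p' b'_j ≠ c`, of the type of
`c`, `c' ⊆ D_N'`. So the type of `c` contains two blocks of `D_N'` and is not isolated: it is the type of
some `b_i` with `i ∈ N'`. -/
def St_MUL : Prop := ∀ (L : FirstOrder.Language.{0, 0}) (M : Type) (S : L.Structure M)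
  (F : Set M) (T : Dt M) (g0 : Ordinal.{0}), FS S F T g0 →
  {t : Set (Set M) | ∃ b ∈ T.Bk, ¬ Is T b ∧ ¬ Th T b ∧ t = {c | ∀ n, T.V n b c}}.Finite

/-- [THN] (3 h) thin or isolated. Hypotheses of `thm_THN`: `St_IMG`, `St_MUL`.
Proof. Let `𝒯` be the finite set of [MUL]. For `t ∈ 𝒯` let `K t ⊆ t` be countable, `K t = t` if `t` is
countable, `K t` infinite otherwise; `T1.A = A ∪` the blocks in the `K t`, `T1.Bk` = the blocks of types not
in `𝒯`, `T1.V` = restriction of `V` to `T1.Bk`. (1) `DD T1 T1.A D → DD T T.A D`: let `b ∈ T.Bk`, `n`, and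
suppose some `b'` with `V n b b'` is not contained in `D`. If `b' ∈ T1.Bk` then by `DD T1` infinitely
many `c ∈ T1.Bk`, `c ⊆ D` with `V n b' c`. Otherwise `b'` is in some `t ∈ 𝒯`, not in `K t`, so `K t` is
infinite, and its members `c ⊆ T1.A ⊆ D` satisfy `V n b' c`. (2) `FS S F T1 (g0 + 2)`: `va`: an element of
`D` is in `T1.A` iff it is in `A` or its block `b` is not isolated and there is a block `c ⊆ D`,
`c ≠ b` of the type of `b`; for (`DD T1`-)sets `D`, `D'` and `Ps (g0 + 2)` both conditions are respected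
(extend `p` by the block; not isolated as in [MUL] (i)). `vb`, `vv`: from `T` and `va`. `vf`: choose
representatives in `T1.Bk`. `au` from `T`. The rest is clear. (3) `F3 T1`: a block whose type is not in `𝒯`
is thin or isolated. (4) `BFR S S T.X T1.X γ ∅`: positions are the sets `{(x, τ x) | x ∈ s}`, `s ⊆ T.X`
finite, `τ` a product of finitely many exchanges of blocks of the same type in `𝒯` (`au`; so
`AtEq S S {a | a.2 = τ a.1}`, `τ '' T.X = T.X`), `τ '' s ⊆ T1.X`. Forth: `u ∈ T.X`; if `τ u ∈ T1.X` add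
`u`. Otherwise `τ u ∈ c ∈ t`, `c ∉ K t`; `K t` is infinite, let `c' ∈ K t` be disjoint from `τ '' s`; `c` is
disjoint from `T1.X`; let `ρ` be the exchange of `c` and `c'`; replace `τ` by `ρ τ`. Back: `v ∈ T1.X`: add
`u = τ⁻¹ v`. -/
def St_THN : Prop := ∀ (L : FirstOrder.Language.{0, 0}) (M : Type) (S : L.Structure M)
  (F : Set M) (T : Dt M) (g0 : Ordinal.{0}), FS S F T g0 →
  ∃ (T1 : Dt M) (g1 : Ordinal.{0}), FS S F T1 g1 ∧ F3 T1 ∧
    ∀ γ : Ordinal.{0}, BFR S S T.X T1.X γ ∅

end HEI
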