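import Pool.Agent.HEI.StE

/-!
# HEI: statements, part G (first half: G1-G7)

The docstrings contain complete proofs. Always `FS S F T g0`. `Fr` blocks over `E`: blocks which are
not contained in `Ω` and do not meet the finite set `E`.
-/

set_option autoImplicit false
set_option linter.unusedVariables false

namespace HEI

open Set Pool.Agent.Helper5.DU Pool.Agent.Helper6.Str Pool.Agent.Helper79.VC
  Pool.Agent.Helper97.LO Pool.Agent.Helper97.VC HER HERN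

/-- [DDM] (1.5 h) the sets `𝔻_Ω`. Hypotheses of `thm_DDM`: none.
Proof. (1) clear. (2) let `DD T Ω' D`, `b ∈ Bk` not in `Ω`. If there is `b'` with `V n b b'`, `b'` not
contained in `D`, then `b'` is not in `Ω'` (`Ω' ⊆ D`), and `DD T Ω' D` for `b'` (its second alternative is
false) gives infinitely many `c ⊆ D`, `V n b' c`, not in `Ω'`, so not in `Ω`. Otherwise the second
alternative holds for `b`. (3) (2) for `Un T T.A`. (4) clear. (5) `Un`. (6) There are countably many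
classes `{c | V n b c}` (`vf`, blocks are finite); for each class of a `b` not in `Ω` choose a countable
infinite set of `c ∈ Q`, `V n b c`, not in `Ω`; `D` = `Ω` and all these blocks. A block contained in `D` is
contained in `Ω` or is one of the chosen blocks (`dis`, `Un`). (7) the second alternative of `DD` and
perfectness give the first one. (8) (6) for `Q` = all blocks, (1) for the blocks which meet `E`. (9) `dis`,
`E` finite. -/
def St_DDM : Prop := ∀ (L : FirstOrder.Language.{0, 0}) (M : Type) (S : L.Structure M)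
  (F : Set M) (T : Dt M) (g0 : Ordinal.{0}), FS S F T g0 →
  (∀ (Ω D : Set M) (C : Set (Set M)), DD T Ω D → C.Countable → C ⊆ T.Bk →
    DD T Ω (D ∪ ⋃₀ C)) ∧
  (∀ Ω Ω' D : Set M, Un T Ω → Un T Ω' → Ω ⊆ Ω' → DD T Ω' D → DD T Ω D) ∧
  (∀ Ω D : Set M, Un T Ω → DD T Ω D → DD T T.A D) ∧
  (∀ Ω : ℕ → Set M, (∀ i, Un T (Ω i)) → Un T (⋃ i, Ω i)) ∧
  (∀ (Ω : Set M) (b : Set M), Un T Ω → b ∈ T.Bk → (¬ b ⊆ Ω ↔ Disjoint b Ω)) ∧
  (∀ (Ω : Set M) (Q : Set (Set M)), Ω.Countable → Un T Ω →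
    (∀ b ∈ T.Bk, ¬ b ⊆ Ω → ∀ n, {c | c ∈ Q ∧ T.V n b c ∧ ¬ c ⊆ Ω}.Infinite) →
    ∃ D, DD T Ω D ∧ ∀ c ∈ T.Bk, c ⊆ D → c ⊆ Ω ∨ c ∈ Q) ∧
  (∀ Ω D : Set M, (∀ b ∈ T.Bk, ¬ b ⊆ Ω → ∀ n, {b' | T.V n b b' ∧ ¬ b' ⊆ Ω}.Infinite) →
    DD T Ω D → ∀ b ∈ T.Bk, ¬ b ⊆ Ω → ∀ n,
    {b' | T.V n b b' ∧ ¬ b' ⊆ Ω ∧ b' ⊆ D}.Infinite) ∧
  (∀ Ω E : Set M, Ω.Countable → Un T Ω → E.Finite → E ⊆ T.X →
    (∀ b ∈ T.Bk, ¬ b ⊆ Ω → ∀ n, {b' | T.V n b b' ∧ ¬ b' ⊆ Ω}.Infinite) →
    ∃ D, DD T Ω D ∧ E ⊆ D) ∧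
  ∀ E : Set M, E.Finite → {b | b ∈ T.Bk ∧ ¬ Disjoint b E}.Finite

/-- [VCU] (1 h) unions of visible sets. Hypotheses of `thm_VCU`: `St_DDM`.
Proof. (1) `BFR.mono`, `ω * g ≤ ω * g'`. (2) `FS.va`; `T.A` is countable, `Un T T.A`. (3) `g` = a countable
upper bound of the `g i` (`exists_bound`); `D, D' ∈ 𝔻_{⋃ Ω i}` are in `𝔻_{Ω i}` ([DDM] (2), (4)). -/
def St_VCU : Prop := ∀ (L : FirstOrder.Language.{0, 0}) (M : Type) (S : L.Structure M)
  (F : Set M) (T : Dt M) (g0 : Ordinal.{0}), FS S F T g0 →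
  (∀ g g' Ω, g ≤ g' → g' < om1 → Vs S F T g0 g Ω → Vs S F T g0 g' Ω) ∧
  Vs S F T g0 g0 T.A ∧
  ∀ (g : ℕ → Ordinal.{0}) (Ω : ℕ → Set M), (∀ i, Vs S F T g0 (g i) (Ω i)) →
    ∃ h, Vs S F T g0 h (⋃ i, Ω i) ∧ ∀ i, g i ≤ h

/-- [PFT] (2.5 h) perfect visible sets. Hypotheses of `thm_PFT`: `St_IMG`, `St_DDM`, `St_VCU`.
Proof. STEP 1: `Vs g Ω` implies `Vs (g + 2) Ω'` with `Ω' = Ω ∪` all blocks `b` for which for some `n` the set
`Y_n(b) = {b' | V n b b' ∧ ¬ b' ⊆ Ω}` is finite. Countable: there are countably many classes, and such a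
block is in `Ω` or in the finite set `Y_n(b)` of its class. `Un`: clear. Visible: let `D, D' ∈ 𝔻_{Ω'} ⊆ 𝔻_Ω`,
`Ps (g + 2) D D' p`, `a ∈ p`, `a.1 ∈ Ω' \ Ω`, in the block `b`; extend `p` by `b` (level `g + 1`),
`b' = Im p b`; `Y_n(b)` is finite with `k` elements. If `Y_n(b')` is infinite then `D'` contains `k + 1`
members of it (`DD T Ω D'`: either infinitely many members or all); pull them back (level `g`): `k + 1`
members of `Y_n(b)`: contradiction. So `b' ⊆ Ω'`, `a.2 ∈ Ω'`; by symmetry. STEP 2: for each of the countably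
many classes `t = {b' | V n b b'}` such that `{b' ∈ t | ¬ b' ⊆ Ω}` is finite for some `(g, Ω) ∈ 𝕍` choose
such a pair; then `t ⊆ Ω'` for the pair `(g + 2, Ω')` of step 1 (all members of `t` have the class `t`).
`(g, Ω0)` = the union of all these pairs ([VCU]; if there is none take `T.A`). Let `Vs h Ω`, `Ω0 ⊆ Ω`, `t` a
class which is not contained in `Ω0`: then `{b' ∈ t | ¬ b' ⊆ Ω}` is infinite, otherwise `t ⊆ Ω0` by the
choice. `Gp h Ω` follows: `b ⊄ Ω` implies that the class of `b` is not contained in `Ω0`. -/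
def St_PFT : Prop := ∀ (L : FirstOrder.Language.{0, 0}) (M : Type) (S : L.Structure M)
  (F : Set M) (T : Dt M) (g0 : Ordinal.{0}), FS S F T g0 →
  ∃ g Ω0, Vs S F T g0 g Ω0 ∧ ∀ h Ω, Vs S F T g0 h Ω → Ω0 ⊆ Ω → Gp S F T g0 h Ω ∧
    ∀ b ∈ T.Bk, ∀ n, (∃ b', T.V n b b' ∧ ¬ b' ⊆ Ω0) → {b' | T.V n b b' ∧ ¬ b' ⊆ Ω}.Infinite

/-- [RQE] (1 h) enumeration of the requirements. Hypotheses of `thm_RQE`: none.
Proof. There are countably many classes `{c | V n b c}`: for every `n` and every size finitely many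
(`vf`). Choose for each class of a `b` not in `Ω` a representative not in `Ω`; enumerate the pairs
(`n`, representative) so that each one occurs infinitely often. -/
def St_RQE : Prop := ∀ (L : FirstOrder.Language.{0, 0}) (M : Type) (S : L.Structure M)
  (F : Set M) (T : Dt M) (g0 : Ordinal.{0}) (Ω : Set M), FS S F T g0 →
  (∃ b ∈ T.Bk, ¬ b ⊆ Ω) → ∃ q : ℕ → ℕ × Set M, (∀ s, (q s).2 ∈ T.Bk ∧ ¬ (q s).2 ⊆ Ω) ∧
    ∀ n, ∀ b ∈ T.Bk, ¬ b ⊆ Ω → {s | (q s).1 = n ∧ T.V n b (q s).2}.Infinite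

/-- [SEQ] (0.4 h) recursion. Hypotheses of `thm_SEQ`: none. Proof. Strong recursion (e.g. build the finite
lists `[s 0, ..., s (n - 1)]` by recursion). -/
def St_SEQ : Prop := ∀ (α : Type) (P : ℕ → Set α → α → Prop),
  (∀ n X, X.Finite → ∃ a, P n X a) → ∃ s : ℕ → α, ∀ n, P n (s '' {i | i < n}) (s n)

/-- [GPD] (2.5 h) equivalence of tuples. Hypotheses of `thm_GPD`: `St_IMG`, `St_DDM`.
Proof. (1) `D` from [DDM] (8) with `range x ⊆ D`; `BFR.refl`. (2) `BFR.symm` for each step. (3) each step: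
`prs (x ∘ e) (x' ∘ e) ⊆ prs x x'`. (4) `BFR.mono`, [DDM] (2). (5) for one step: `D, D' ∈ 𝔻_Ω ⊆ 𝔻_A`
([DDM] (3)), `g0 ≤ g`: `FS.va`, `vb`, `vv`, `Gp` (visibility of `Ω`), [IMG] (4), (5) (`Im p (range (x ∘ e)) =
range (x' ∘ e)`), `D ⊆ T.X`; then along the chain; `AtEq` by composition (`AtEq.comp'`). (6) `D` from
[DDM] (8) with `x`, `b`, `b'` in `D`; `σ` maps `D` onto `D`, fixes `F` (`F ⊆ T.A` is disjoint from the
blocks); `BFR S S D D γ` of a set of pairs of `σ` (`BFR.of_map` for `σ`). -/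
def St_GPD : Prop := ∀ (L : FirstOrder.Language.{0, 0}) (M : Type) (S : L.Structure M)
  (F : Set M) (T : Dt M) (g0 g : Ordinal.{0}) (Ω : Set M), FS S F T g0 → Gp S F T g0 g Ω →
  ∀ (β : Type) [Finite β],
  (∀ (h : Ordinal.{0}) (x : β → M), (∀ i, x i ∈ T.X) → Ee S F T Ω h x x) ∧
  (∀ (h : Ordinal.{0}) (x x' : β → M), Ee S F T Ω h x x' → Ee S F T Ω h x' x) ∧
  (∀ (h : Ordinal.{0}) (α : Type) [Finite α] (e : α → β) (x x' : β → M), Ee S F T Ω h x x' →
    Ee S F T Ω h (fun i => x (e i)) (fun i => x' (e i))) ∧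
  (∀ (h h' : Ordinal.{0}) (Ω' : Set M) (x x' : β → M), h ≤ h' → Un T Ω' → Ω ⊆ Ω' →
    Ee S F T Ω' h' x x' → Ee S F T Ω h x x') ∧
  (∀ x x' : β → M, Ee S F T Ω g x x' → (∀ i, x i ∈ T.X ∧ x' i ∈ T.X) ∧
    AtEq S S (dg F ∪ prs x x') ∧ (∀ i, x i ∈ Ω ↔ x' i ∈ Ω) ∧ (∀ i, x i ∈ T.A ↔ x' i ∈ T.A) ∧
    (∀ (α : Type) (e : α → β), range (fun i => x (e i)) ∈ T.Bk ↔
      range (fun i => x' (e i)) ∈ T.Bk) ∧
    ∀ (α α' : Type) (e : α → β) (e' : α' → β) (n : ℕ),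
      T.V n (range fun i => x (e i)) (range fun i => x (e' i)) ↔
      T.V n (range fun i => x' (e i)) (range fun i => x' (e' i))) ∧
  ∀ (b b' : Set M) (σ : Equiv.Perm M) (h : Ordinal.{0}) (x : β → M), b ∈ T.Bk → b' ∈ T.Bk →
    ¬ b ⊆ Ω → ¬ b' ⊆ Ω → (∀ x, σ (σ x) = x) → (∀ x, σ x ≠ x → x ∈ b ∨ x ∈ b') →
    σ '' b = b' → AtEq S S {a | a.2 = σ a.1} → (∀ i, x i ∈ T.X) →
    Ee S F T Ω h x (fun i => σ (x i))

/-- [EQB] (2.5 h) equivalence of blocks. Hypotheses of `thm_EQB`: `St_IMG`, `St_DDM`, `St_GPD`.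
Proof. (1)-(3), (5), (6): [GPD] (1)-(4) (two labellings of the same block differ by a permutation of
`Fin k`; reindexing). (4) [GPD] (5): `range w' ∈ Bk`; `Ω`: a block is contained in `Ω` iff one of its
elements is in `Ω`; `b'` does not meet `E`: the tuple `tp E w'` has the same equalities as `tp E w`
(`AtEq`). (7) `b ≠ b'`: `σ` from `FS.au` fixes the elements of `E`, [GPD] (6), (3). (8) `Is T b`: all `b'`
with `V n b b'` have the type of `b`; (7). (9) let `n` be as in `In E b`; for `b'` with `V n b b'`, `Fr`: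
`Eb b b'`, and for `c` with `V n b' c`, `Fr`: `V n b c`, so `Eb b c`, `Eb b' c`. (10) by (9). (11) `w` an
enumeration of `b`, `w'` the corresponding enumeration of `Im p b` ([IMG] (4)); the step `Pp` of
`tp E w`, `tp E w'` is given by `D`, `D'` and a subset of `p`. -/
def St_EQB : Prop := ∀ (L : FirstOrder.Language.{0, 0}) (M : Type) (S : L.Structure M)
  (F : Set M) (T : Dt M) (g0 g : Ordinal.{0}) (Ω E : Set M), FS S F T g0 →
  Gp S F T g0 g Ω → E.Finite → E ⊆ T.X →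
  (∀ b, Fr T Ω E b → Eb S F T Ω g E b b) ∧
  (∀ b b', Eb S F T Ω g E b b' → Eb S F T Ω g E b' b) ∧
  (∀ b b' b'', Eb S F T Ω g E b b' → Eb S F T Ω g E b' b'' → Eb S F T Ω g E b b'') ∧
  (∀ b b', Eb S F T Ω g E b b' → Fr T Ω E b → Fr T Ω E b') ∧
  (∀ (h h' : Ordinal.{0}) b b', h ≤ h' → Eb S F T Ω h' E b b' → Eb S F T Ω h E b b') ∧
  (∀ (h h' : Ordinal.{0}) b, h ≤ h' → (In S F T Ω h' E b → In S F T Ω h E b) ∧
    (Bx S F T Ω h E b → Bx S F T Ω h' E b)) ∧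
  (∀ b b', (∀ n, T.V n b b') → Fr T Ω E b → Fr T Ω E b' → Eb S F T Ω g E b b') ∧
  (∀ b, Is T b → Fr T Ω E b → In S F T Ω g E b) ∧
  (∀ b, In S F T Ω g E b → ∃ n, ∀ b', T.V n b b' → Fr T Ω E b' →
    In S F T Ω g E b' ∧ Eb S F T Ω g E b b') ∧
  (∀ b b', (∀ n, T.V n b b') → In S F T Ω g E b → Fr T Ω E b' → In S F T Ω g E b') ∧
  (∀ D D' p b, DD T Ω D → DD T Ω D' → Ps S F g D D' p → dg E ⊆ p → Dm p b → Fr T Ω E b →
    Fr T Ω E (Im p b) ∧ Eb S F T Ω g E b (Im p b)) ∧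
  ∀ (β : Type) [Finite β] (x : β → M) (h : Ordinal.{0}) b b', range x = E →
    (Eb S F T Ω h E b b' ↔ ∃ (k : ℕ) (w w' : Fin k → M), Function.Injective w ∧
      Function.Injective w' ∧ range w = b ∧ range w' = b' ∧
      Ee S F T Ω h (Sum.elim x w) (Sum.elim x w'))

/-! ## Interior blocks -/

/-- [ITS] (1.5 h) neighbourhoods without interior blocks. Hypotheses of `thm_ITS`: `St_DDM`, `St_EQB`.
Let `U = {c | V n0 b0 c ∧ Fr c}`, no member of `U` is interior. Proof. `c ∈ U` is thin: otherwise it is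
isolated (`F3`) and interior ([EQB] (8)). Let `n`, `d0` be given, wlog `n0 ≤ n`, and suppose
`Y = {d | V n c d ∧ Fr d ∧ ¬ Eb d0 d}` is finite. `{d | V n c d ∧ Fr d}` is infinite (perfect; only
finitely many blocks meet `E`). Let `c1` be a member which is not in `Y`; `c1 ∈ U` is thin, so there is
`k ≥ n` such that no member of `Y` is in `{d | V k c1 d}`. For `d` with `V k c1 d`, `Fr d`: `V n c d`, `d ∉ Y`,
so `Eb d0 d`; also `Eb d0 c1`; so `Eb c1 d`: `c1` is interior, contradiction. -/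
def St_ITS : Prop := ∀ (L : FirstOrder.Language.{0, 0}) (M : Type) (S : L.Structure M)
  (F : Set M) (T : Dt M) (g0 g : Ordinal.{0}) (Ω E : Set M) (n0 : ℕ) (b0 : Set M),
  FS S F T g0 → F3 T → Gp S F T g0 g Ω → E.Finite → E ⊆ T.X →
  (∀ c, T.V n0 b0 c → Fr T Ω E c → ¬ In S F T Ω g E c) →
  ∀ c, T.V n0 b0 c → Fr T Ω E c → Th T c ∧ ∀ n d0,
    {d | T.V n c d ∧ Fr T Ω E d ∧ ¬ Eb S F T Ω g E d0 d}.Infinite

/-- [ITA] (2.5 h) classes meet such neighbourhoods in finite sets. Hypotheses of `thm_ITA`: `St_IMG`,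
`St_DDM`, `St_EQB`, `St_ITS`, `St_DCD`.
Proof. `U` as in [ITS]. Suppose there are different `c_i ∈ U` (`i ∈ ℕ`), `Eb d0 c_i`; they are thin. By [ITS] there is
`b1 ∈ U` with `¬ Eb d0 b1`. Let `Q` be the set of the blocks `d` which do not satisfy
(`V n0 b0 d`, `Fr d` and `Eb d0 d`). The hypothesis of [DDM] (6): let `b ∈ Bk`, `b ⊄ Ω`, `n` given,
`N = max n n0`. If some `d ∈ U` satisfies `V N b d` use [ITS] for `d` and `N`. Otherwise the infinitely many
`d` with `V N b d`, `d ⊄ Ω` which do not meet `E` are not in `U`, so in `Q`. Let `D_0` be as in [DDM] (6),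
`D_N = D_0 ∪ E^ ∪ b1 ∪ ⋃ i ∈ N, c_i`, `E^` = the blocks which meet `E` (`E ⊆ D_N`: `E ⊆ T.X`). The blocks `c` in
`D_N` with `V n0 b0 c`, `Fr c`, `Eb d0 c` are the `c_i`, `i ∈ N`. Apply [DCD] with `k = 0`, `Z i = c_i`,
`G = F ∪ E ∪ b1`, `γ = ω * g`: let `p` be as there, `c' = Im p c_i`. `Fr c'` and `Eb c_i c'` by [EQB] (11);
`V n0 b1 c_i` implies `V n0 b1 c'` (`vv`, `Im p b1 = b1`), so `V n0 b0 c'`; `c' ⊆ D_N'`. So `c' = c_j` for some
`j ∈ N'`. -/
def St_ITA : Prop := ∀ (L : FirstOrder.Language.{0, 0}) (M : Type) (S : L.Structure M)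
  (F : Set M) (T : Dt M) (g0 g : Ordinal.{0}) (Ω E : Set M) (n0 : ℕ) (b0 d0 : Set M),
  FS S F T g0 → F3 T → Gp S F T g0 g Ω → E.Finite → E ⊆ T.X →
  (∀ c, T.V n0 b0 c → Fr T Ω E c → ¬ In S F T Ω g E c) →
  {c | T.V n0 b0 c ∧ Fr T Ω E c ∧ Eb S F T Ω g E d0 c}.Finite

/-- [ITB] (3 h) interior blocks are dense. Hypotheses of `thm_ITB`: `St_IMG`, `St_DDM`, `St_RQE`, `St_SEQ`,
`St_EQB`, `St_ITS`, `St_ITA`, `St_DCD`.
Proof. Suppose not: no member of `U = {c | V n0 b0 c ∧ Fr c}` is interior; by [ITA] every class of `Eb` meets `U`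
in a finite set; `U` is infinite (perfect). Let `b1 ∈ U`, `q` from [RQE]. By [SEQ] choose pairs `(d_s, c_s)`
(`s ∈ ℕ`) of blocks with: `V (q s).1 (q s).2 d_s`, `d_s ⊄ Ω`, `d_s ≠ d_i` for `i < s`, not (`d_s ∈ U` and
`Eb c_i d_s`) for `i < s`; `c_s ∈ U`, not `Eb b1 c_s`, not `Eb c_i c_s` for `i < s`, not `Eb d_i c_s` for
`i ≤ s` (finitely many blocks are excluded in both cases). `D_N = Ω ∪ E^ ∪ b1 ∪ ⋃ s, d_s ∪ ⋃ i ∈ N, c_i`
(`E^` = the blocks which meet `E`); `DD T Ω D_N`, so `DD T T.A D_N` ([DDM] (3)). [DCD] with `k = 0`,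
`Z i = c_i` (thin by [ITS], different), `G = F ∪ E ∪ b1`, `γ = ω * g`: let `p` be as there, `i ∈ N`,
`c' = Im p c_i`. As in [ITA] `Fr c'`, `Eb c_i c'`, `V n0 b0 c'`, `c' ⊆ D_N'`. So `c'` is a block of `D_N'`, not
in `Ω`, not meeting `E`, not `b1`; not `d_s`: for `s ≤ i` by the choice of `c_i`, for `s > i` by the choice of
`d_s`. So `c' = c_j`, `j ∈ N'` (and `j = i`). -/
def St_ITB : Prop := ∀ (L : FirstOrder.Language.{0, 0}) (M : Type) (S : L.Structure M)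
  (F : Set M) (T : Dt M) (g0 g : Ordinal.{0}) (Ω E : Set M) (n0 : ℕ) (b0 : Set M),
  FS S F T g0 → F3 T → Gp S F T g0 g Ω → E.Finite → E ⊆ T.X → b0 ∈ T.Bk → ¬ b0 ⊆ Ω →
  ∃ c, T.V n0 b0 c ∧ Fr T Ω E c ∧ In S F T Ω g E c

/-- [ITD] (1 h) infinitely many interior blocks. Hypotheses of `thm_ITD`: `St_DDM`, `St_EQB`, `St_ITB`.
Proof. Suppose `Y = {c | V n b c ∧ In c}` is finite. There are infinitely many `b'` with `V n b b'`, `Fr b'`. For
each of them and each `m ≥ n` [ITB] gives `c` with `V m b' c`, `In c`, so `c ∈ Y`; the same `c` occurs for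
infinitely many `m`, so `V m b' c` for all `m`, `In b'` by [EQB] (10), `b' ∈ Y`: contradiction. -/
def St_ITD : Prop := ∀ (L : FirstOrder.Language.{0, 0}) (M : Type) (S : L.Structure M)
  (F : Set M) (T : Dt M) (g0 g : Ordinal.{0}) (Ω E : Set M) (n : ℕ) (b : Set M),
  FS S F T g0 → F3 T → Gp S F T g0 g Ω → E.Finite → E ⊆ T.X → b ∈ T.Bk → ¬ b ⊆ Ω →
  {c | T.V n b c ∧ In S F T Ω g E c}.Infinite

/-! ## Boundary blocks -/

/-- [BYF] (2.5 h) finitely many blocks near non equivalent interior blocks. Hypotheses of `thm_BYF`: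
`St_IMG`, `St_DDM`, `St_EQB`, `St_ITD`, `St_DCD`.
Proof. A block `b` with `By b` is not isolated (otherwise `c` has the type of `b`, `Eb b c` by [EQB] (7)), so thin.
Suppose `By b_i` for different `b_i` (`i ∈ ℕ`). [DDM] (6) for `Q = {c | In c}` ([ITD]) gives `D_0`;
`D_N = D_0 ∪ E^ ∪ ⋃ i ∈ N, b_i`, `E^` = the blocks which meet `E`. [DCD] with `k = 0`, `Z i = b_i`,
`G = F ∪ E`, `γ = ω * (g + 1)`: let `p` be as there, `i ∈ N`, `b' = Im p b_i`; `Fr b'`, `Eb b_i b'`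
([EQB] (11)). Suppose `b'` is not a `b_j`, `j ∈ N'`. Then `b'` is a block of `D_0`, not in `Ω`: `In b'`. By
[EQB] (9) there is `n` with `Eb b' d'` for all `d'` with `V n b' d'`, `Fr d'`. `By b_i`: there is `c` with
`V n b_i c`, `In c`, `¬ Eb b_i c`. By [EQB] (9) and [DDM] (7) there is `d ⊆ D_N` with `V n c d`, `Fr d`,
`Eb c d`. Extend `p` by `d` ([IMG] (6), level `g`), `d' = Im p' d`: `V n b_i d` (`vt`), so `V n b' d'`, `Fr d'`,
`Eb d d'`, so `Eb b' d'`. So `Eb b_i b'`, `Eb b' d'`, `Eb d' d`, `Eb d c`: contradiction. -/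
def St_BYF : Prop := ∀ (L : FirstOrder.Language.{0, 0}) (M : Type) (S : L.Structure M)
  (F : Set M) (T : Dt M) (g0 g : Ordinal.{0}) (Ω E : Set M),
  FS S F T g0 → F3 T → Gp S F T g0 g Ω → E.Finite → E ⊆ T.X → {b | By S F T Ω g E b}.Finite

/-- [BXY] (1 h) finitely many boundary blocks. Hypotheses of `thm_BXY`: `St_EQB`, `St_ITD`, `St_BYF`.
Proof. Let `Bx b`, suppose `¬ By b`: there is `n0` such that `Eb b c` for all interior `c` with `V n0 b c`. For
every `n ≥ n0`, as `b` is not interior, there is `d_n` with `V n b d_n`, `Fr d_n`, `¬ Eb b d_n`. Claim `By d_n`: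
otherwise there is `m ≥ n0` such that `Eb d_n c` for all interior `c` with `V m d_n c`; such a `c` exists
([ITD]); `V n0 b c`, so `Eb b c`, `Eb b d_n`: contradiction. By [BYF] `d_n = d` for infinitely many `n`, so
`V n b d` for all `n` and `Eb b d` ([EQB] (7)): contradiction. -/
def St_BXY : Prop := ∀ (L : FirstOrder.Language.{0, 0}) (M : Type) (S : L.Structure M)
  (F : Set M) (T : Dt M) (g0 g : Ordinal.{0}) (Ω E : Set M),
  FS S F T g0 → F3 T → Gp S F T g0 g Ω → E.Finite → E ⊆ T.X →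
  (∀ b, Bx S F T Ω g E b → By S F T Ω g E b) ∧ {b | Bx S F T Ω g E b}.Finite

/-! ## Transport and extension -/

/-- [TRN] (2.5 h) transport of boundary blocks. Hypotheses of `thm_TRN`: `St_IMG`, `St_DDM`, `St_GPD`,
`St_EQB`, `St_BXY`.
Proof. By [GPD] (5) (level `g + 1`; `Gp` holds for `g + 1` as well) all pairs of the chain are of the same
kind (`Fr`: as in [EQB] (4)), so we may assume one step `Pp (g + 1)`, given by `D`, `D'`, `p`. By symmetry it is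
enough: `b = range w` interior over `E = range x` implies `b' = range w'` interior over `E' = range x'`. Let
`n` be such that `Eb g E b d` for all `d` with `V n b d`, `Fr E d`. (i) Let `d' ⊆ D'`, `V n b' d'`, `Fr E' d'`:
pull back `d'` ([IMG] (6), level `g`): `d ⊆ D`, `V n b d`, `Fr E d`, so `Eb g E b d`: [EQB] (12): `Ee g` of
`(x, w1)`, `(x, v1)` with labellings `w1` of `b`, `v1` of `d`; also `Ee g` of `(x, w1)` and `(x', w1')`, of
`(x, v1)` and `(x', v1')` (steps by `D`, `D'`), so `Eb g E' b' d'`. (ii) Suppose `b'` is not interior: `By b'`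
([BXY]): there is `c` with `V n b' c`, `In g E' c`, `¬ Eb g E' b' c`. By [EQB] (9), [DDM] (7) there is
`d' ⊆ D'` with `V n c d'`, `Fr E' d'`, `Eb g E' c d'`; `V n b' d'`, so `Eb g E' b' d'` by (i): contradiction. -/
def St_TRN : Prop := ∀ (L : FirstOrder.Language.{0, 0}) (M : Type) (S : L.Structure M)
  (F : Set M) (T : Dt M) (g0 g : Ordinal.{0}) (Ω : Set M), FS S F T g0 → F3 T →
  Gp S F T g0 g Ω → ∀ (β : Type) [Finite β] (x x' : β → M) (k : ℕ) (w w' : Fin k → M),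
  Ee S F T Ω (g + 1) (Sum.elim x w) (Sum.elim x' w') → Fr T Ω (range x) (range w) →
  Fr T Ω (range x') (range w') ∧
    (In S F T Ω g (range x) (range w) ↔ In S F T Ω g (range x') (range w')) ∧
    (Bx S F T Ω g (range x) (range w) ↔ Bx S F T Ω g (range x') (range w'))

/-- [EXT] (2 h) extension by interior blocks. Hypotheses of `thm_EXT`: `St_IMG`, `St_DDM`, `St_GPD`,
`St_EQB`, `St_TRN`.
Proof. By induction on the chain it is enough to treat one step `Pp (g + 2)` (the conclusion is the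
hypothesis for the next step, `Ee g` is transitive), given by `D`, `D'`, `p`. `b = range w`, `n` as in [EQB] (9); by
[DDM] (7) there is `d ⊆ D` with `V n b d`, `Fr d`, so `In d`, `Eb b d`: by [EQB] (12) and reindexing there is a
labelling `v` of `d` with `Ee g` of `(x, w)`, `(x, v)`. Extend `p` by `d` ([IMG] (6), level `g + 1`), `w'` = the
labelling of `Im p' d` corresponding to `v`: `Pp (g + 1)` of `(x, v)`, `(x', w')`. So `Ee g` of `(x, w)`,
`(x', w')`; `In g (range x') (range w')` by [TRN]. -/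
def St_EXT : Prop := ∀ (L : FirstOrder.Language.{0, 0}) (M : Type) (S : L.Structure M)
  (F : Set M) (T : Dt M) (g0 g : Ordinal.{0}) (Ω : Set M), FS S F T g0 → F3 T →
  Gp S F T g0 g Ω → ∀ (β : Type) [Finite β] (x x' : β → M) (k : ℕ) (w : Fin k → M),
  Ee S F T Ω (g + 2) x x' → Function.Injective w → In S F T Ω g (range x) (range w) →
  ∃ w' : Fin k → M, Function.Injective w' ∧ In S F T Ω g (range x') (range w') ∧
    Ee S F T Ω g (Sum.elim x w) (Sum.elim x' w')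

/-- [EXP] (1.5 h) extension by elements of `Ω` and of blocks which are met. Hypotheses of `thm_EXP`:
`St_IMG`, `St_DDM`, `St_GPD`.
Proof. By induction on the chain one step `Pp (g + 1)` with `D`, `D'`, `p`. `u j ∈ D`: `Ω ⊆ D`, `D` is a union of
blocks. Extend `p` by the `u j` and by the blocks concerned ([IMG] (6), level `g`): `u' j`; `u j ∈ Ω` implies
`u' j ∈ Ω` (visibility of `Ω`), `u j, x i ∈ b` implies `u' j, x' i ∈ Im p' b ∈ Bk`. -/
def St_EXP : Prop := ∀ (L : FirstOrder.Language.{0, 0}) (M : Type) (S : L.Structure M)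
  (F : Set M) (T : Dt M) (g0 g : Ordinal.{0}) (Ω : Set M), FS S F T g0 →
  Gp S F T g0 g Ω → ∀ (β : Type) [Finite β] (x x' : β → M) (k : ℕ) (u : Fin k → M),
  Ee S F T Ω (g + 1) x x' → (∀ j, u j ∈ Ω ∨ ∃ b ∈ T.Bk, u j ∈ b ∧ ∃ i, x i ∈ b) →
  ∃ u' : Fin k → M, (∀ j, u' j ∈ Ω ∨ ∃ b ∈ T.Bk, u' j ∈ b ∧ ∃ i, x' i ∈ b) ∧
    Ee S F T Ω g (Sum.elim x u) (Sum.elim x' u')

end HEI
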