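import Pool.Agent.HEI.StG

/-!
# HEI: statements, part H (exchange property, minimal bad sets)

The docstrings contain complete proofs. Always `FS S F T g0`, `F3 T`, `(g, Ω)` is a perfect visible
pair: `Gp S F T g0 g Ω`. If `g ≤ h < ω₁` then `Gp S F T g0 h Ω` ([VCU] (1)), so the statements of part G
hold at level `h`. Blocks not contained in `Ω` are disjoint from `Ω` ([DDM] (5)). If `b ∈ T.Bk`,
`¬ b ⊆ Ω`, `E` is finite, then infinitely many `b'` satisfy `V n b b'`, `Fr T Ω E b'` (`Gp`, [DDM] (9)).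
-/

set_option autoImplicit false
set_option linter.unusedVariables false

namespace HEI

open Set Pool.Agent.Helper5.DU Pool.Agent.Helper6.Str Pool.Agent.Helper79.VC
  Pool.Agent.Helper97.LO Pool.Agent.Helper97.VC HER HERN

/-- the relation `R` between blocks is visible over `E` at level `h` -/
def Vr {L : FirstOrder.Language.{0, 0}} {M : Type} (S : L.Structure M) (F : Set M) (T : Dt M)
    (Ω : Set M) (h : Ordinal.{0}) (E : Set M) (R : Set M → Set M → Prop) : Prop :=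
  ∀ D D' p, DD T Ω D → DD T Ω D' → Ps S F h D D' p → dg E ⊆ p → ∀ b v, Dm p b → Dm p v →
    Fr T Ω E b → Fr T Ω E v → (R b v ↔ R (Im p b) (Im p v))

/-! ## G8. Coding by two classes -/

/-- [CLS] (3 h) alternating sequences. Hypotheses of `thm_CLS`: `St_DDM`, `St_RQE`, `St_SEQ`.
Proof. `U` = the blocks of `V k b1`, `t` = the blocks of `V n v1`; they are disjoint. `b0` = any element of
`U1`, `v0 ∈ t` with `Fr T Ω E v0`, `R b0 v0` (infinitely many free `v ∈ t`, almost all satisfy `R b0 v`). `q` =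
enumeration of the requirements ([RQE]). `S0`: for each `j` for which the set of the `b'` with
`V (q j).1 (q j).2 b'`, `¬ b' ⊆ Ω`, `b' ∉ U`, `b' ∉ t` is infinite choose a countable infinite subset;
`S0` = union. Let `π` be given. By [SEQ] choose `s i`, different from the `s l`, `l < i`: `s 0 = b0`,
`s 1 = v0`. If `2 ≤ i`, `π i = false`, `j` = the number of the `l < i` with `π l = false`, `(m, b) = q j`: `s i ∈ U1`, not
`R (s i) (s l)` for all `l < i` with `s l ∈ t` free over `E` (this excludes finitely many elements of `U1`), and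
`V m b (s i)` if `{b' ∈ U1 | V m b b'}` is infinite. If `2 ≤ i`, `π i = true`, `j` = the number of the `l < i`
with `π l = true`, `(m, v) = q j`: `s i ∈ t`, `Fr T Ω E (s i)`, `R (s l) (s i)` for all `l < i` with `s l ∈ U1` (this
excludes finitely many), and `V m v (s i)` if `{v' ∈ t | V m v v' ∧ Fr T Ω E v'}` is infinite.
`D = Ω ∪ ⋃ S0 ∪ ⋃ i, s i ∪` the blocks which meet `E`. `DD T Ω D`: let `b ∈ T.Bk`, `¬ b ⊆ Ω`, `m0` be given,
`m = max m0 (max k n)`; there are infinitely many blocks of `V m b` in `D`, not in `Ω`: if `b ∈ U` then all blocks of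
`V m b` are in `U`; `V m b (q j).2`, `(q j).1 = m` for infinitely many `j`, and for these `j`
`{b' ∈ U1 | V m (q j).2 b'}` is infinite, so infinitely many `s i` are in `V m b`. If `b ∈ t` the same. Otherwise
all blocks of `V m b` are outside of `U` and `t`, and infinitely many of them are in `S0`.
The last two statements: a block `b ⊆ D` with `Fr T Ω E b` is in `S0` or it is an `s i` (blocks are pairwise
disjoint and nonempty); elements of `S0` are not in `U` and not in `t`; `s i ∈ U` iff `π i = false`. -/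
def St_CLS : Prop := ∀ (L : FirstOrder.Language.{0, 0}) (M : Type) (S : L.Structure M)
  (F : Set M) (T : Dt M) (g0 g : Ordinal.{0}) (Ω E : Set M) (R : Set M → Set M → Prop)
  (b1 v1 : Set M) (k n : ℕ) (U1 : Set (Set M)), FS S F T g0 → Gp S F T g0 g Ω → E.Finite →
  E ⊆ T.X → b1 ∈ T.Bk → v1 ∈ T.Bk → ¬ b1 ⊆ Ω → ¬ v1 ⊆ Ω →
  (∀ b, T.V k b1 b → ¬ T.V n v1 b) → (∀ b ∈ U1, T.V k b1 b ∧ Fr T Ω E b) →
  (∀ b, T.V k b1 b → ¬ b ⊆ Ω → ∀ m, {b' | b' ∈ U1 ∧ T.V m b b'}.Infinite) →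
  (∀ b ∈ U1, {v | T.V n v1 v ∧ Fr T Ω E v ∧ ¬ R b v}.Finite) →
  (∀ v, T.V n v1 v → Fr T Ω E v → {b | b ∈ U1 ∧ R b v}.Finite) →
  ∃ b0 ∈ U1, ∃ v0, T.V n v1 v0 ∧ Fr T Ω E v0 ∧ ∀ π : ℕ → Bool, π 0 = false → π 1 = true →
    (∀ i, ∃ j, i < j ∧ π j = false) → (∀ i, ∃ j, i < j ∧ π j = true) →
    ∃ (s : ℕ → Set M) (D : Set M), Function.Injective s ∧ s 0 = b0 ∧ s 1 = v0 ∧ DD T Ω D ∧
      E ⊆ D ∧ (∀ i, π i = false → s i ∈ U1) ∧
      (∀ i, π i = true → T.V n v1 (s i) ∧ Fr T Ω E (s i)) ∧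
      (∀ i j, π i = false → π j = true → (R (s i) (s j) ↔ i < j)) ∧
      (∀ b, T.V k b1 b → Fr T Ω E b → (b ⊆ D ↔ ∃ i, π i = false ∧ b = s i)) ∧
      ∀ b, T.V n v1 b → Fr T Ω E b → (b ⊆ D ↔ ∃ i, π i = true ∧ b = s i)

/-- [CLC] (3 h) there is no such pair of classes with a visible relation. Hypotheses of `thm_CLC`:
`St_IMG`, `St_DDM`, `St_VCU`, `St_CLS`.
Proof. `b0`, `v0` from [CLS]. For `f : ℕ → Bool` let `π_f` be the sequence: first `false, true`, then for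
`j = 0, 1, ...` `1 + f j` times `false` followed by one `true`. `D_f`, `s_f` from [CLS]. Let
`c_f j = #{i < j | π_f i = false}`; `N_f = {c_f j | π_f j = true} = {1} ∪ {1 + Σ_(i ≤ j) (1 + f i) | j ∈ ℕ}` determines `f`.
`G = F ∪ E ∪ b0 ∪ v0`, `h' = max h g` (so `Gp` at level `h'`, [VCU] (1)), `γ = ω * (h' + 1)`. `Pig S F` gives
`f ≠ f'` with `BFR S S D_f D_f' γ (dg G)` (`G ⊆ D_f`; `D_f` is countable, infinite because it contains
infinitely many blocks). Claim: `N_f ⊆ N_f'` (then, by symmetry, equality: contradiction). Let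
`v = s_f j`, `π_f j = true`, `ν = c_f j`; the blocks `b` with `V k b1 b`, `Fr T Ω E b`, `b ⊆ D_f`, `R b v` are the
`ν` blocks `s_f i`, `i < j`, `π_f i = false`. Extend `dg G` by all their elements and those of `v` (finitely many
moves, `BFR.forth_many`, or [IMG] (6)): `p` with `Ps S F h' D_f D_f' p`. `Im p v` is a block (`FS.vb`), `V n v1 (Im p v)`
(`FS.vv` with `Im p v0 = v0`, `vt`), not contained in `Ω` (`Vs` at level `h'`), disjoint from `E` (`p` is
injective and `dg E ⊆ p`, [IMG] (2), (3)); so `Im p v = s_f' j'` with `π_f' j' = true`. The images of the `ν`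
blocks are `ν` different blocks `b'` with `V k b1 b'`, `Fr T Ω E b'`, contained in `D_f'`, `R b' (Im p v)` (`Vr`).
So `c_f' j' ≥ ν`. If `c_f' j' ≥ ν + 1`: after `v ↦ Im p v` take moves back (`BFR.symm`, [IMG] (6)) for `ν + 1`
blocks of `D_f'`: one gets `ν + 1` blocks `b` in `D_f` with `V k b1 b`, `Fr T Ω E b`, `R b v`: contradiction. -/
def St_CLC : Prop := ∀ (L : FirstOrder.Language.{0, 0}) (M : Type) (S : L.Structure M)
  (F : Set M) (T : Dt M) (g0 g h : Ordinal.{0}) (Ω E : Set M) (R : Set M → Set M → Prop)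
  (b1 v1 : Set M) (k n : ℕ) (U1 : Set (Set M)), FS S F T g0 → Gp S F T g0 g Ω → h < om1 →
  E.Finite → E ⊆ T.X → b1 ∈ T.Bk → v1 ∈ T.Bk → ¬ b1 ⊆ Ω → ¬ v1 ⊆ Ω →
  (∀ b, T.V k b1 b → ¬ T.V n v1 b) → (∀ b ∈ U1, T.V k b1 b ∧ Fr T Ω E b) →
  (∀ b, T.V k b1 b → ¬ b ⊆ Ω → ∀ m, {b' | b' ∈ U1 ∧ T.V m b b'}.Infinite) →
  (∀ b ∈ U1, {v | T.V n v1 v ∧ Fr T Ω E v ∧ ¬ R b v}.Finite) →
  (∀ v, T.V n v1 v → Fr T Ω E v → {b | T.V k b1 b ∧ Fr T Ω E b ∧ R b v}.Finite) →
  Vr S F T Ω h E R → False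

/-! ## G9. Exchange -/

/-- [BXF] (1 h) `B_E` is finite. Hypotheses of `thm_BXF`: `St_VCU`, `St_EQB`, `St_BXY`.
Proof. If `{b | Bz b}` were infinite choose an infinite sequence of different blocks `b_i` with levels
`h_i < ω₁` (`Bx h_i b_i`); `h = ` a countable upper bound of `g` and the `h_i` (`exists_bound`); `Bx h b_i` by
[EQB] (6), but `{b | Bx h b}` is finite ([BXY] for `h`). So it is finite; `h` = an upper bound of `g` and of
levels of its elements; [EQB] (6). -/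
def St_BXF : Prop := ∀ (L : FirstOrder.Language.{0, 0}) (M : Type) (S : L.Structure M)
  (F : Set M) (T : Dt M) (g0 g : Ordinal.{0}) (Ω E : Set M), FS S F T g0 → F3 T →
  Gp S F T g0 g Ω → E.Finite → E ⊆ T.X → {b | Bz S F T Ω E b}.Finite ∧
  ∃ h, g ≤ h ∧ h < om1 ∧ ∀ h', h ≤ h' → h' < om1 → ∀ b, Bz S F T Ω E b ↔ Bx S F T Ω h' E b

/-- [COL] (1 h) a colour which is dense in a neighbourhood. Hypothesis of `thm_COL`: `St_DDM`.
Proof. Suppose not. Claim: for every finite set `K` of colours there are `k ≥ n0`, `b1`, `V n0 b0 b1`,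
`¬ b1 ⊆ Ω`, such that for all `κ ∈ K` the set `{b' | V k b1 b' ∧ Fr T Ω E b' ∧ c b' = κ}` is finite. `K = ∅`:
`b1 = b0`. Step `K ∪ {κ}`: the conclusion fails for `κ`, `b1`, `k`: there are `b`, `V k b1 b`, `¬ b ⊆ Ω`, and `m` such
that `{b' | V m b b' ∧ Fr T Ω E b' ∧ c b' = κ}` is finite; take `b`, `max m k`. For `K` = all colours:
`{b' | V k b1 b' ∧ Fr T Ω E b'}` is finite, contradiction to `Gp`, [DDM] (9). -/
def St_COL : Prop := ∀ (L : FirstOrder.Language.{0, 0}) (M : Type) (S : L.Structure M)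
  (F : Set M) (T : Dt M) (g0 g : Ordinal.{0}) (Ω E : Set M) (b0 : Set M) (n0 : ℕ) (C : Type)
  [Finite C] (c : Set M → C), FS S F T g0 → Gp S F T g0 g Ω → E.Finite → b0 ∈ T.Bk →
  ¬ b0 ⊆ Ω → ∃ (κ : C) (b1 : Set M) (k : ℕ), n0 ≤ k ∧ T.V n0 b0 b1 ∧ ¬ b1 ⊆ Ω ∧
    ∀ b, T.V k b1 b → ¬ b ⊆ Ω → ∀ m, {b' | T.V m b b' ∧ Fr T Ω E b' ∧ c b' = κ}.Infinite

/-- [EXQ] (2.5 h) the relation behind the exchange property. Hypotheses of `thm_EXQ`: `St_IMG`, `St_DDM`,
`St_VCU`, `St_GPD`, `St_EQB`, `St_BXY`, `St_TRN`, `St_EXT`. (`Gp S F T g0 (g + 9) Ω` is used only for the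
levels `g, ..., g + 9`.)
Proof. (a) `v` is interior over `E ∪ b` at level `g + 1`: there is `n` such that all `v'`, `V n v v'`, `Fr (E ∪ b) v'`, satisfy
`Eb (g+1) (E ∪ b) v v'`; by [TRN] (`x` = enumeration of `E` and `v`, labelled block `b`; the labelling of `b` is
fixed by the equivalence because the elements of `E ∪ b` are fixed) `Bx g (E ∪ v') b`. (b) `In (g+7) E b`: there is `m` such that all
`b'`, `V m b b'`, `Fr E b'`, satisfy `Eb (g+7) E b b'`. For such a `b'` [EXT] (`v` is interior over `E ∪ b` at level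
`g + 5`) gives a labelled block `v_b'` and `Ee (g+5)` between the tuples `(E, b, v)` and `(E, b', v_b')`;
`v_b'` is free over `E ∪ b'` and has the size of `v`. (c) Let `V n v_b' u`, `Fr (E ∪ b' ∪ v_b') u`, not
`Bx (g+1) (E ∪ b' ∪ v_b') u`. Then `u` is interior over `E ∪ b' ∪ v_b'` at level `g + 1`; [EXT] from the tuple
`(E, b', v_b')` to the tuple `(E, b, v)` (level `g + 3`) gives a labelled block `u'`, `Ee (g+1)` between `(E, b', v_b', u)` and
`(E, b, v, u')`, `V n v u'` ([GPD] (5)), `Fr (E ∪ b) u'`. By (a) `Bx g (E ∪ u') b`, by [TRN] `Bx g (E ∪ u) b'`. By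
[BXY] (level `g + 1`, and only finitely many blocks meet `b' ∪ v_b'`) the set of the exceptional `u` is finite:
`c b' = v_b'` satisfies the statement (`c` = anything for the other `b'`). -/
def St_EXQ : Prop := ∀ (L : FirstOrder.Language.{0, 0}) (M : Type) (S : L.Structure M)
  (F : Set M) (T : Dt M) (g0 g : Ordinal.{0}) (Ω E b v : Set M), FS S F T g0 → F3 T →
  Gp S F T g0 g Ω → E.Finite → E ⊆ T.X → Fr T Ω E b → Fr T Ω E v → b ≠ v →
  In S F T Ω (g + 7) E b → In S F T Ω (g + 5) (E ∪ b) v → Bx S F T Ω g (E ∪ v) b →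
  ∃ (n m : ℕ) (c : Set M → Set M), ∀ b', T.V m b b' → Fr T Ω E b' → c b' ∈ T.Bk ∧
    ¬ c b' ⊆ Ω ∧ (c b').encard = v.encard ∧
    {u | T.V n (c b') u ∧ Fr T Ω E u ∧ ¬ Bx S F T Ω g (E ∪ u) b'}.Finite

/-- [EXG] (3 h) the exchange property. Hypotheses of `thm_EXG`: `St_IMG`, `St_DDM`, `St_VCU`, `St_EQB`,
`St_BXY`, `St_TRN`, `St_BXF`, `St_COL`, `St_CLC`, `St_EXQ`.
Proof. Suppose not `Bz (E ∪ b) v`. Choose a level `g1 ≥ g` with `Bx g1 (E ∪ v) b` ([EQB] (6)). `b` is free over `E`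
and not `Bx`, so `In (g1+7) E b`; `In (g1+5) (E ∪ b) v`. [EXQ] (level `g1`): `n`, `m`, `c`. Colour the `b'` by the
class of `c b'` for `V n` (finitely many classes of blocks of the size of `v`: `FS.vf`; colours = the
elements of the finite set `R` of `vf` and one more). [COL] (`b0 = b`, `n0 = m`): `κ`, `b1`, `k ≥ m`, `V m b b1`, `κ`
dense in `V k b1`; the `b'` with `V k b1 b'`, `Fr E b'` are as in [EXQ], so `κ` is the colour of a class; let
`v1 = c b'` for one of them. `U1` = the `b'` with `V k b1 b'`, `Fr E b'`, colour `κ`. For `b' ∈ U1` almost all `u` with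
`V n v1 u`, `Fr E u` satisfy `R b' u := Bx g1 (E ∪ u) b'` ([EXQ]); for each such `u` only finitely many `b'` satisfy
it ([BXY]). Make the classes disjoint: let `V n v1 v3`, `Fr E v3`. There is `b3`, `V k b1 b3`, `¬ b3 ⊆ Ω`,
with `¬ V j b3 v3` for some `j`: otherwise all blocks of `V k b1` outside of `Ω` (infinitely many) have the same
type, they are not thin, so isolated (`F3`), so the elements of `U1` are interior over all finite sets over which they are free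
([EQB] (8)), contradiction to `Bx g1 (E ∪ u) b'`. Replace `b1`, `k` by `b3`, `max j k`, `U1` by its part in this
class, `v1`, `n` by `v3`, `max j n`. [CLC] with `R`, `h = g1 + 1`; `Vr`: `p` contains `dg E`, `b`, `v` in its domain:
one step `Pp (g1+1)` between the tuples `(E, v, b)` and `(E, Im p v, Im p b)`, [TRN]. -/
def St_EXG : Prop := ∀ (L : FirstOrder.Language.{0, 0}) (M : Type) (S : L.Structure M)
  (F : Set M) (T : Dt M) (g0 g : Ordinal.{0}) (Ω E b v : Set M), FS S F T g0 → F3 T →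
  Gp S F T g0 g Ω → E.Finite → E ⊆ T.X → Fr T Ω E b → Fr T Ω E v → b ≠ v →
  ¬ Bz S F T Ω E b → Bz S F T Ω (E ∪ v) b → Bz S F T Ω (E ∪ b) v

/-! ## G11. Minimal bad sets -/

/-- [MNX] (1 h) minimal bad sets. Hypotheses of `thm_MNX`: `St_DDM`, `St_EXG`.
Proof. `Bd`: there is `z0 ∈ Z` with `Bz (a ∪ ⋃₀ (Z \ {z0})) z0`. Let `z ∈ Z`, `z ≠ z0`, `E = a ∪ ⋃₀ (Z \ {z0, z})`.
`z0`, `z` are free over `E` (`FS.dis`; blocks not contained in `Ω` are disjoint from `Ω`). Not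
`Bz E z0`: otherwise `Z \ {z}` is bad, contradiction to the minimality. `E ∪ z = a ∪ ⋃₀ (Z \ {z0})`; [EXG] gives
`Bz (E ∪ z0) z`, `E ∪ z0 = a ∪ ⋃₀ (Z \ {z})`. -/
def St_MNX : Prop := ∀ (L : FirstOrder.Language.{0, 0}) (M : Type) (S : L.Structure M)
  (F : Set M) (T : Dt M) (g0 g : Ordinal.{0}) (Ω a : Set M) (Z : Set (Set M)), FS S F T g0 →
  F3 T → Gp S F T g0 g Ω → a.Finite → a ⊆ Ω → Mb S F T Ω a Z →
  ∀ z ∈ Z, Bz S F T Ω (a ∪ ⋃₀ (Z \ {z})) z

/-- [VBT] (2 h) transport of bad sets along positions. Hypotheses of `thm_VBT`: `St_IMG`, `St_DDM`,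
`St_GPD`, `St_TRN`.
Proof. [TRN] for one step `Pp (h + 1)` (given by `D`, `D'`) between the tuples `(x, w)`, `(x', w')`, `x` = enumeration of
`a ∪ ⋃₀ (Z \ {z})` (finite, contained in the domain of `p`), `w` = enumeration of `z`: `Bx h` of the images.
`Im p (a ∪ ⋃₀ (Z \ {z})) = Im p a ∪ ⋃₀ (Im p '' Z \ {Im p z})` ([IMG] (2)). Images of blocks are blocks
(`FS.vb`), not contained in `Ω` (`Vs`: the pairs of `p` respect `Ω`), `Im p a ⊆ Ω`. (`Ps (h + 1)` implies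
`Ps h` and `Ps g0`, [IMG] (8); `DD T Ω D` implies `DD T T.A D`, [DDM] (3).) -/
def St_VBT : Prop := ∀ (L : FirstOrder.Language.{0, 0}) (M : Type) (S : L.Structure M)
  (F : Set M) (T : Dt M) (g0 g h : Ordinal.{0}) (Ω : Set M), FS S F T g0 → F3 T →
  Gp S F T g0 g Ω → g ≤ h → h < om1 → ∀ D D' p, DD T Ω D → DD T Ω D' → Ps S F (h + 1) D D' p →
  ∀ (a : Set M) (Z : Set (Set M)), a.Finite → a ⊆ Ω → Z.Finite →
    (∀ z ∈ Z, z ∈ T.Bk ∧ ¬ z ⊆ Ω) → Dm p a → (∀ z ∈ Z, Dm p z) →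
    (Im p a ⊆ Ω ∧ (Im p a).Finite ∧ (Im p '' Z).Finite ∧ (∀ z ∈ Im p '' Z, z ∈ T.Bk ∧ ¬ z ⊆ Ω)) ∧
    ∀ z ∈ Z, Bx S F T Ω h (a ∪ ⋃₀ (Z \ {z})) z →
      Bx S F T Ω h (Im p a ∪ ⋃₀ (Im p '' Z \ {Im p z})) (Im p z)

/-- [VBA] (2 h) minimal bad sets are visible in subsets of a countable set. Hypotheses of `thm_VBA`: `St_IMG`,
`St_DDM`, `St_EQB`, `St_VBT`.
Proof. For the countably many finite `e ⊆ Ds` and blocks `z ⊆ Ds` with `Bz Ω e z` choose a level `< ω₁` with `Bx`;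
`h0` = a countable upper bound of these levels and `g`; then `Bz Ω e z` iff `Bx h0 e z` ([EQB] (6)); `h = h0 + 1`. (1) `Z' ⊆ Z`,
`Bd Ω a Z'`: `z ∈ Z'`, `Bz Ω (a ∪ ⋃₀ (Z' \ {z})) z`, so `Bx h0`; by [VBT] `Bd Ω (Im p a) (Im p '' Z')`. (2) The
converse: (1) for the inverse of `p` ([IMG] (7), (1)). (3) `Mb`: the subsets of `Im p '' Z` are the sets
`Im p '' Z'`, `Z' ⊆ Z`. (If `Z` is infinite or contains a block `⊆ Ω` both sides are false.) -/
def St_VBA : Prop := ∀ (L : FirstOrder.Language.{0, 0}) (M : Type) (S : L.Structure M)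
  (F : Set M) (T : Dt M) (g0 g : Ordinal.{0}) (Ω Ds : Set M), FS S F T g0 → F3 T →
  Gp S F T g0 g Ω → Ds.Countable → ∃ h, g ≤ h ∧ h < om1 ∧ ∀ D D' p, DD T Ω D → DD T Ω D' →
    D ⊆ Ds → D' ⊆ Ds → Ps S F h D D' p → ∀ (a : Set M) (Z : Set (Set M)), a.Finite → a ⊆ Ω →
    (∀ z ∈ Z, z ∈ T.Bk) → Dm p a → (∀ z ∈ Z, Dm p z) →
    (Mb S F T Ω a Z ↔ Mb S F T Ω (Im p a) (Im p '' Z))

end HEI
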