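import Pool.Agent.HEI.StG

/-!
# HEI: statements, part G (last part: G14, G15)

The docstrings contain complete proofs. Hypothesis (N): there are no bad sets; (B): there are no
boundary blocks.
-/

set_option autoImplicit false
set_option linter.unusedVariables false

namespace HEI

open Set Pool.Agent.Helper5.DU Pool.Agent.Helper6.Str Pool.Agent.Helper79.VC
  Pool.Agent.Helper97.LO Pool.Agent.Helper97.VC HER HERN

/-- [EMP] (1.5 h) no bad sets, no boundary blocks. Hypotheses of `thm_EMP`: `St_DDM`, `St_GPD`.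
Proof. Suppose `Bx h E b`. Let `a = E ∩ Ω`, `𝒵` the finite set of the blocks `z` with `¬ z ⊆ Ω` which meet `E`,
`E' = a ∪ ⋃₀ 𝒵`. `E ⊆ E'` (`E ⊆ T.X`; elements of `T.A` and of blocks contained in `Ω` are in `a`). A
block is `Fr` over `E` iff it is `Fr` over `E'` (`dis`). `Eb h E' c c'` implies `Eb h E c c'` (reindexing:
[GPD] (3) for `E ⊕ Fin k → E' ⊕ Fin k`). So `In h E' b` implies `In h E b`, and `Bx h E' b`. The set
`Z = insert b 𝒵` is bad over `a`: `b ∉ 𝒵`, `a ∪ ⋃₀ (Z \ {b}) = E'`, `Bz E' b`: contradiction. -/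
def St_EMP : Prop := ∀ (L : FirstOrder.Language.{0, 0}) (M : Type) (S : L.Structure M)
  (F : Set M) (T : Dt M) (g0 g : Ordinal.{0}) (Ω : Set M), FS S F T g0 →
  Gp S F T g0 g Ω → (∀ a : Set M, a.Finite → a ⊆ Ω → ∀ Z, ¬ Bd S F T Ω a Z) →
  ∀ E : Set M, E.Finite → E ⊆ T.X → ∀ h < om1, ∀ b, ¬ Bx S F T Ω h E b

/-- [XTD] (2 h) extension in dense sets. Hypotheses of `thm_XTD`: `St_DDM`, `St_VCU`, `St_GPD`, `St_EQB`,
`St_EXT`, `St_EXP`.
Proof. `Gp h Ω` ([VCU] (1)). Case 1: `u ∈ Ω` or `u` is in a block which meets `range x`. [EXP] with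
`Ee (h + 1) x x'` ([GPD] (4)) gives `u'` in `Ω` or in a block which meets `range x' ⊆ D`, so `u' ∈ D`. Case 2:
otherwise `u ∈ b ∈ T.Bk`, `b` is `Fr` over `range x` (`T.A ⊆ Ω`, `Un T Ω`), so interior of level `h` by (B). Let
`w` be an enumeration of `b`; [EXT] gives `w'`, `Ee h` of `(x, w)`, `(x', w')`, `In h (range x') (range w')`. By
[EQB] (9) and [DDM] (7) there is `d ⊆ D`, `Fr`, with `Eb h (range x') (range w') d`; by [EQB] (12) and
reindexing there is a labelling `v` of `d` with `Ee h` of `(x', w')`, `(x', v)`. So `Ee h` of `(x, w)`,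
`(x', v)`; reindex: `u' = v j` where `w j = u`. -/
def St_XTD : Prop := ∀ (L : FirstOrder.Language.{0, 0}) (M : Type) (S : L.Structure M)
  (F : Set M) (T : Dt M) (g0 g : Ordinal.{0}) (Ω : Set M), FS S F T g0 → F3 T →
  Gp S F T g0 g Ω →
  (∀ E : Set M, E.Finite → E ⊆ T.X → ∀ h < om1, ∀ b, ¬ Bx S F T Ω h E b) →
  ∀ (h : Ordinal.{0}) (D : Set M) (k : ℕ) (x x' : Fin k → M) (u : M), g ≤ h → h < om1 →
    DD T Ω D → Ee S F T Ω (h + 2) x x' → (∀ i, x' i ∈ D) → u ∈ T.X →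
    ∃ u' ∈ D, Ee S F T Ω h (Fin.snoc (α := fun _ => M) x u : Fin (k + 1) → M)
      (Fin.snoc (α := fun _ => M) x' u')

/-- [STA] (1 h) all tuples have equivalent tuples in `D`. Hypotheses of `thm_STA`: `St_GPD`, `St_XTD`.
Proof. Induction on `k` (for all `h`): `x = Fin.snoc x0 u`, `y0` in `D` with `Ee (h + 2) x0 y0` by induction,
[XTD]. `k = 0`: [GPD] (1). -/
def St_STA : Prop := ∀ (L : FirstOrder.Language.{0, 0}) (M : Type) (S : L.Structure M)
  (F : Set M) (T : Dt M) (g0 g : Ordinal.{0}) (Ω D : Set M), FS S F T g0 → F3 T →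
  Gp S F T g0 g Ω →
  (∀ E : Set M, E.Finite → E ⊆ T.X → ∀ h < om1, ∀ b, ¬ Bx S F T Ω h E b) → DD T Ω D →
  ∀ (k : ℕ) (h : Ordinal.{0}) (x : Fin k → M), g ≤ h → h < om1 → (∀ i, x i ∈ T.X) →
    ∃ y : Fin k → M, (∀ i, y i ∈ D) ∧ Ee S F T Ω h x y

/-- [STB] (1.5 h) the equivalence relations are constant from some level on. Hypotheses of `thm_STB`:
`St_GPD`, `St_STA`.
Proof. For each of the countably many pairs `(y, y')` of tuples of `D` of the same length such that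
`Ee h y y'` is false for some `h < om1` choose such an `h`; `g1 < om1` is an upper bound of `g` and of
these `h` (`exists_bound`). Let `Ee g1 x x'`, `g1 ≤ h < om1`; `x`, `x'` are in `T.X` ([GPD] (5)). By [STA]
there are `y`, `y'` in `D` with `Ee h x y`, `Ee h x' y'`. `Ee g1 y y'` ([GPD] (2), (4), transitivity). If
`Ee h y y'` were false, `Ee h1 y y'` would be false for the chosen `h1 ≤ g1`: contradiction to
[GPD] (4). So `Ee h y y'`, `Ee h x x'`. -/
def St_STB : Prop := ∀ (L : FirstOrder.Language.{0, 0}) (M : Type) (S : L.Structure M)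
  (F : Set M) (T : Dt M) (g0 g : Ordinal.{0}) (Ω D : Set M), FS S F T g0 → F3 T →
  Gp S F T g0 g Ω →
  (∀ E : Set M, E.Finite → E ⊆ T.X → ∀ h < om1, ∀ b, ¬ Bx S F T Ω h E b) → DD T Ω D →
  ∃ g1, g ≤ g1 ∧ g1 < om1 ∧ ∀ (h : Ordinal.{0}) (k : ℕ) (x x' : Fin k → M), g1 ≤ h →
    h < om1 → Ee S F T Ω g1 x x' → Ee S F T Ω h x x'

/-- [BAF] (1.5 h) back and forth. Hypotheses of `thm_BAF`: `St_DDM`, `St_VCU`, `St_GPD`, `St_XTD`, `St_STB`.
Proof. Let `D ∈ 𝔻_Ω` ([DDM] (8) with `E = ∅`), `g1` from [STB], `Gp g1 Ω` ([VCU] (1)). Claim: for all `γ` and all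
`x : Fin k → M`, `y : Fin k → M` with `Ee g1 x y`, `y` in `D` (`x` is in `T.X` by [GPD] (5)):
`BFR S S T.X D γ (dg F ∪ prs x y)`. Induction on `γ`: `AtEq` by [GPD] (5). Forth: `u ∈ T.X`; `Ee (g1 + 2) x y`
([STB]), [XTD] gives `u' ∈ D` with `Ee g1` of `Fin.snoc x u`, `Fin.snoc y u'`; its pairs are those of `x, y` and
`(u, u')`. Back: `v ∈ D`; choose `D' ∈ 𝔻_Ω` which contains `x` ([DDM] (8)); `Ee (g1 + 2) y x` ([GPD] (2)),
[XTD] for `D'` gives `u ∈ D' ⊆ T.X` with `Ee g1` of `Fin.snoc y v`, `Fin.snoc x u`. For `k = 0`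
`BFR S S T.X D γ (dg F)` for all `γ`, so `BFR S S T.X D γ ∅` (`BFR.anti`), `D` is countable. -/
def St_BAF : Prop := ∀ (L : FirstOrder.Language.{0, 0}) (M : Type) (S : L.Structure M)
  (F : Set M) (T : Dt M) (g0 g : Ordinal.{0}) (Ω : Set M), FS S F T g0 → F3 T →
  Gp S F T g0 g Ω →
  (∀ E : Set M, E.Finite → E ⊆ T.X → ∀ h < om1, ∀ b, ¬ Bx S F T Ω h E b) → TameX S T.X

end HEI
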