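import Pool.Agent.HEI.StH

/-!
# HEI: statements, part K (G10-G13: finitely many minimal bad sets, visible sets without bad sets)

The docstrings contain complete proofs. Conventions as in `StH.lean`.
-/

set_option autoImplicit false
set_option linter.unusedVariables false

namespace HEI

open Set Pool.Agent.Helper5.DU Pool.Agent.Helper6.Str Pool.Agent.Helper79.VC
  Pool.Agent.Helper97.LO Pool.Agent.Helper97.VC HER HERN

/-- `Ω` and all elements of the minimal bad sets over finite subsets of `Ω` -/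
def Op {L : FirstOrder.Language.{0, 0}} {M : Type} (S : L.Structure M) (F : Set M) (T : Dt M)
    (Ω : Set M) : Set M :=
  Ω ∪ ⋃₀ {z | ∃ (a : Set M) (Z : Set (Set M)), a.Finite ∧ a ⊆ Ω ∧ Mb S F T Ω a Z ∧ z ∈ Z}

/-- no block of `V n b` outside of `Ω` is equivalent over `a` to a block of `V n' b'` outside of
`Ω` -/
def Kl {L : FirstOrder.Language.{0, 0}} {M : Type} (S : L.Structure M) (F : Set M) (T : Dt M)
    (g : Ordinal.{0}) (Ω a : Set M) (n : ℕ) (b : Set M) (n' : ℕ) (b' : Set M) : Prop :=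
  ∀ c c', T.V n b c → T.V n' b' c' → ¬ c ⊆ Ω → ¬ c' ⊆ Ω → ¬ Eb S F T Ω g a c c'

/-! ## G10, G11. Finitely many minimal bad sets -/

/-- [LFN] (3 h) locally finite visible hypergraphs are finite. Hypotheses of `thm_LFN`: `St_IMG`, `St_DDM`,
`St_RQE`, `St_SEQ`, `St_DCD`.
Proof. Suppose `H` is infinite. (a) Every `z ∈ Z ∈ H` is thin: otherwise it is isolated (`F3`), and
infinitely many `z'` with `Fr T Ω E z'` have the type of `z` (`Is`, `Gp`, [DDM] (9)); the sets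
`insert z' (Z \ {z})`, `z' ∉ Z`, are in `H` (4), they are different and all contain a fixed element of
`Z \ {z}` (`k + 2 ≥ 2`): contradiction to (2). (b) For a finite set `X` of blocks let `N X` be the set
of all elements of the members of `H` which meet `X` (finite by (2)). `q` from [RQE] (there is a block not in
`Ω`). By [SEQ] choose pairs `(d_s, Z_s)`: `V (q s).1 (q s).2 d_s`, `¬ d_s ⊆ Ω`, `d_s ∉ X ∪ N X`, where `X` = the set of
all `d_i` and all elements of the `Z_i`, `i < s`; `Z_s ∈ H` disjoint from `X ∪ N X ∪ {d_s} ∪ N {d_s}` (only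
finitely many members of `H` meet this finite set). For `N ⊆ ℕ` let `D_N = Ω ∪ ⋃ s, d_s ∪ ⋃ i ∈ N, ⋃₀ Z_i ∪`
the blocks which meet `E`; `DD T Ω D_N` (by the `d_s`). CLAIM: if `Z ∈ H` and all `z ∈ Z` are contained in `D_N`
then `Z = Z_i` for some `i ∈ N`. The elements of `Z` are free over `E`, so each one is a `d_s` or an element of a
`Z_i`, `i ∈ N`. If two elements of `Z` were chosen at different times (`d_s` at time `2 s`, the elements of `Z_s` at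
time `2 s + 1`), the later one would be in `N {the earlier one}`: contradiction. So `Z = {d_s}` (impossible,
`Z` has `k + 2` elements) or `Z ⊆ Z_i`, so `Z = Z_i` (sizes). (c) `Ds = D_ℕ` is countable; `h` from (3),
[DCD] with `k + 1`, `Z i` = enumeration of `Z_i`, `G = F ∪ E`, `γ = ω * max h g`: the elements of all `Z_i` are
thin and the `Z_i` are disjoint, so they have different types. For `p` as there: `Z_i ∈ H`, so `Im p '' Z_i ∈ H` by (3), its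
elements are contained in `D_N'`, so it is `Z_j`, `j ∈ N'`; `Im p` is injective on blocks, so there is a
permutation `e` with `Im p (Z i a) = Z j (e a)`; `vr`. -/
def St_LFN : Prop := ∀ (L : FirstOrder.Language.{0, 0}) (M : Type) (S : L.Structure M)
  (F : Set M) (T : Dt M) (g0 g : Ordinal.{0}) (Ω E : Set M) (k : ℕ) (H : Set (Set (Set M))),
  FS S F T g0 → F3 T → Gp S F T g0 g Ω → E.Finite → E ⊆ T.X →
  (∀ Z ∈ H, Z.encard = (k + 2 : ℕ) ∧ ∀ z ∈ Z, Fr T Ω E z) →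
  (∀ b, {Z | Z ∈ H ∧ b ∈ Z}.Finite) →
  (∀ Ds : Set M, Ds.Countable → ∃ h < om1, ∀ D D' p, DD T Ω D → DD T Ω D' → D ⊆ Ds →
    D' ⊆ Ds → Ps S F h D D' p → dg E ⊆ p → ∀ Z ∈ H, (∀ z ∈ Z, Dm p z) → Im p '' Z ∈ H) →
  (∀ Z ∈ H, ∀ z ∈ Z, ∀ z', z' ∉ Z → Fr T Ω E z' → (∀ n, T.V n z z') →
    insert z' (Z \ {z}) ∈ H) → H.Finite

/-- [MBS] (2 h) exchange of blocks of one type. Hypotheses of `thm_MBS`: `St_IMG`, `St_DDM`, `St_GPD`,
`St_EQB`, `St_TRN`.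
Proof. `σ` from `FS.au` (`z ≠ z'`): `σ` exchanges `z` and `z'` and fixes all other elements, in particular those of
`a ⊆ Ω` (`z`, `z'` are disjoint from `Ω`). For every `h` with `g ≤ h < ω₁`, every set `Z'` of blocks and `y ∈ Z'`
(`Z'` finite, blocks not contained in `Ω`) `Bx h (a ∪ ⋃₀ (Z' \ {y})) y` iff `Bx h (a ∪ ⋃₀ (σZ' \ {σ y})) (σ y)`, where
`σ y = σ '' y`, `σZ'` = set of the `σ y`: [GPD] (6) (level `h + 1`) and [TRN] (`σ` is an involution, so one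
direction is enough). So `Bd a Z'` iff `Bd a σZ'` ([EQB] (6): levels may be increased), `Mb a Z'` iff
`Mb a σZ'`, and `σZ = insert z' (Z \ {z})`. -/
def St_MBS : Prop := ∀ (L : FirstOrder.Language.{0, 0}) (M : Type) (S : L.Structure M)
  (F : Set M) (T : Dt M) (g0 g : Ordinal.{0}) (Ω a : Set M) (Z : Set (Set M)) (z z' : Set M),
  FS S F T g0 → F3 T → Gp S F T g0 g Ω → a.Finite → a ⊆ Ω → Mb S F T Ω a Z → z ∈ Z →
  z' ∉ Z → z' ∈ T.Bk → ¬ z' ⊆ Ω → (∀ n, T.V n z z') → Mb S F T Ω a (insert z' (Z \ {z}))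

/-- [MNF] (2.5 h) finitely many minimal bad sets of size `k`. Hypotheses of `thm_MNF`: `St_IMG`, `St_DDM`,
`St_BXF`, `St_MNX`, `St_VBA`, `St_LFN`, `St_MBS`.
Proof. Claim, by induction on `j`: for every finite `Y0` with `|Y0| + j = k` the set of the `Z ⊇ Y0`, `Mb a Z`,
`|Z| = k`, is finite. `j = 0`: `Z = Y0`. `j = 1`: `Z = insert z Y0`, `Bz (a ∪ ⋃₀ Y0) z` by [MNX]: [BXF]. `j ≥ 2`: we may
assume that there is such a `Z`, so the elements of `Y0` are blocks not contained in `Ω`. `E = a ∪ ⋃₀ Y0`,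
`H` = the set of the `Z \ Y0`. [LFN] with `k = j - 2`: sizes clear; the elements of `Z \ Y0` are free over `E`
(`FS.dis`, [DDM] (5)). (2): `b ∈ Z \ Y0` means `insert b Y0 ⊆ Z`: induction hypothesis. (3): `h` from [VBA];
`dg E ⊆ p`, so `Im p a = a`, `Im p y = y` for `y ∈ Y0` ([IMG] (3)); `Mb a Z` implies `Mb a (Im p '' Z)`,
`Im p '' Z = Im p '' (Z \ Y0) ∪ Y0`, disjoint union ([IMG] (2)). (4): [MBS]. (`k = j` gives the statement.) -/
def St_MNF : Prop := ∀ (L : FirstOrder.Language.{0, 0}) (M : Type) (S : L.Structure M)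
  (F : Set M) (T : Dt M) (g0 g : Ordinal.{0}) (Ω a : Set M) (k : ℕ), FS S F T g0 →
  F3 T → Gp S F T g0 g Ω → a.Finite → a ⊆ Ω →
  {Z | Mb S F T Ω a Z ∧ Z.encard = (k : ℕ∞)}.Finite

/-! ## G12. The next visible set -/

/-- [MNL] (1 h) one level for all minimal bad sets. Hypotheses of `thm_MNL`: `St_VCU`, `St_EQB`, `St_MNX`,
`St_MNF`.
Proof. `Ω` is countable, so there are countably many finite `a ⊆ Ω`; a bad set is finite; by [MNF] there are countably many pairs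
`(a, Z)` with `Mb a Z`. `Z` is finite, its elements are finite: `Op Ω` is countable. For each `(a, Z)`, `z ∈ Z`
`Bz (a ∪ ⋃₀ (Z \ {z})) z` by [MNX]; choose a level `< ω₁`; `h` = a countable upper bound of these levels and `g`
(`exists_bound`); [EQB] (6). -/
def St_MNL : Prop := ∀ (L : FirstOrder.Language.{0, 0}) (M : Type) (S : L.Structure M)
  (F : Set M) (T : Dt M) (g0 g : Ordinal.{0}) (Ω : Set M), FS S F T g0 → F3 T →
  Gp S F T g0 g Ω → (Op S F T Ω).Countable ∧ ∃ h, g ≤ h ∧ h < om1 ∧ ∀ (a : Set M)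
    (Z : Set (Set M)), a.Finite → a ⊆ Ω → Mb S F T Ω a Z →
    ∀ z ∈ Z, Bx S F T Ω h (a ∪ ⋃₀ (Z \ {z})) z

/-- [VBB] (2 h) minimal bad sets are visible. Hypotheses of `thm_VBB`: `St_IMG`, `St_DDM`, `St_VBT`, `St_MNL`.
Proof. `h0` from [MNL], `h = h0 + 1`. (0) Every bad set (finite) contains a minimal one. (→) `Mb a Z`; [MNL] and [VBT]
(level `h0`): `Bd (Im p a) (Im p '' Z)`, `Im p a ⊆ Ω` finite. Let `Z1 ⊆ Im p '' Z` be bad over `Im p a`, `Z2 ⊆ Z1` minimal bad over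
`Im p a`, `Z' ⊆ Z` with `Im p '' Z' = Z2`. [MNL] for `Z2` and [VBT] for the inverse of `p` ([IMG] (7), (1)): `Z'` is bad
over `a`. So `Z' = Z`, `Z2 = Im p '' Z`, `Z1 = Im p '' Z`. (←) (→) for the inverse of `p`. -/
def St_VBB : Prop := ∀ (L : FirstOrder.Language.{0, 0}) (M : Type) (S : L.Structure M)
  (F : Set M) (T : Dt M) (g0 g : Ordinal.{0}) (Ω : Set M), FS S F T g0 → F3 T →
  Gp S F T g0 g Ω → ∃ h, g ≤ h ∧ h < om1 ∧ ∀ D D' p, DD T Ω D → DD T Ω D' →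
    Ps S F h D D' p → ∀ (a : Set M) (Z : Set (Set M)), a.Finite → a ⊆ Ω →
    (∀ z ∈ Z, z ∈ T.Bk) → Dm p a → (∀ z ∈ Z, Dm p z) →
    (Mb S F T Ω a Z ↔ Mb S F T Ω (Im p a) (Im p '' Z))

/-- [OPL] (2 h) the elements of the minimal bad sets. Hypotheses of `thm_OPL`: `St_IMG`, `St_DDM`, `St_MNL`,
`St_VBB`.
Proof. `h0` from [VBB], `h = h0 + 2`; every `h' ≥ h`, `h' < ω₁`, is also suitable (`BFR.mono`). `Op Ω` is countable ([MNL]); `Un T (Op Ω)`: elements of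
minimal bad sets are blocks, `FS.dis`. Let `D, D' ∈ 𝔻_(Op Ω) ⊆ 𝔻_Ω` ([DDM] (2)), `Ps h D D' p`, `(x, x') ∈ p`,
`x ∈ Op Ω`. If `x ∈ Ω` then `x' ∈ Ω` (`Vs`). Otherwise `x ∈ z ∈ Z`, `Mb a Z`, `a ⊆ Ω` finite; the elements of `Z` are
contained in `Op Ω ⊆ D`; extend `p` by `a ∪ ⋃₀ Z` ([IMG] (6), level `h0 + 1`): `p'`; [VBB]: `Mb (Im p' a) (Im p' '' Z)`,
`Im p' a ⊆ Ω`, `x' ∈ Im p' z`: `x' ∈ Op Ω`. The converse by symmetry ([IMG] (7)). -/
def St_OPL : Prop := ∀ (L : FirstOrder.Language.{0, 0}) (M : Type) (S : L.Structure M)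
  (F : Set M) (T : Dt M) (g0 g : Ordinal.{0}) (Ω : Set M), FS S F T g0 → F3 T →
  Gp S F T g0 g Ω → ∃ h, g ≤ h ∧ Vs S F T g0 h (Op S F T Ω)

/-! ## G13. Closure -/

/-- [STP] (2.5 h) one step. Hypotheses of `thm_STP`: `St_DDM`, `St_VCU`, `St_OPL`.
Proof. `Kl` is monotone: if `Kl g2 Ω2 a n b n' b'`, `Vs g2 Ω2`, `Vs g' Ω'`, `g2 ≤ g'`, `Ω2 ⊆ Ω'` then
`Kl g' Ω' a n b n' b'` (each step `Pp Ω' g'` is a step `Pp Ω2 g2`: [DDM] (2), `BFR.mono`). `Kl` depends only on the classes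
of `b`, `b'`: `V n b c` implies `Kl .. n b .. ↔ Kl .. n c ..` (`vs`, `vt`). There are countably many
finite `a ⊆ Ω` and countably many classes (representatives: `FS.vf`, one `R n k` for each `n`, `k`; blocks are finite). For each
`(a, n, c, n', c')` (`c`, `c'` representatives) for which some `(g2, Ω2)` exists as in the statement choose
one; the union of all these `Ω2`, of `Ω` and of `Op Ω` ([OPL]) is visible at some level which is an upper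
bound ([VCU] (3)). -/
def St_STP : Prop := ∀ (L : FirstOrder.Language.{0, 0}) (M : Type) (S : L.Structure M)
  (F : Set M) (T : Dt M) (g0 g : Ordinal.{0}) (Ω : Set M), FS S F T g0 → F3 T →
  Gp S F T g0 g Ω → ∃ g' Ω', Vs S F T g0 g' Ω' ∧ g ≤ g' ∧ Op S F T Ω ⊆ Ω' ∧
    ∀ (a : Set M) (n : ℕ) (b : Set M) (n' : ℕ) (b' : Set M), a.Finite → a ⊆ Ω → b ∈ T.Bk →
      b' ∈ T.Bk → (∃ g2 Ω2, Vs S F T g0 g2 Ω2 ∧ Ω ⊆ Ω2 ∧ Kl S F T g2 Ω2 a n b n' b') →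
      Kl S F T g' Ω' a n b n' b'

/-- [SQV] (1 h) the sequence of visible sets. Hypotheses of `thm_SQV`: `St_VCU`, `St_STP`.
Proof. Recursion: `(γ 0, Ω 0) = (g1, Ω1)`, `(γ (i+1), Ω (i+1))` from [STP] for `(γ i, Ω i)`: `Gp` by the hypothesis
(`Ω1 ⊆ Ω i`). [VCU] (3). -/
def St_SQV : Prop := ∀ (L : FirstOrder.Language.{0, 0}) (M : Type) (S : L.Structure M)
  (F : Set M) (T : Dt M) (g0 g1 : Ordinal.{0}) (Ω1 : Set M), FS S F T g0 → F3 T →
  Vs S F T g0 g1 Ω1 → (∀ h Ω, Vs S F T g0 h Ω → Ω1 ⊆ Ω → Gp S F T g0 h Ω) →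
  ∃ (γ : ℕ → Ordinal.{0}) (Ω : ℕ → Set M) (g : Ordinal.{0}), (∀ i, Vs S F T g0 (γ i) (Ω i)) ∧
    Ω1 ⊆ Ω 0 ∧ (∀ i, Op S F T (Ω i) ⊆ Ω (i + 1)) ∧ (∀ i, γ i ≤ γ (i + 1) ∧ γ i ≤ g) ∧
    Vs S F T g0 g (⋃ i, Ω i) ∧
    ∀ (i : ℕ) (a : Set M) (n : ℕ) (b : Set M) (n' : ℕ) (b' : Set M), a.Finite → a ⊆ Ω i →
      b ∈ T.Bk → b' ∈ T.Bk →
      (∃ g2 Ω2, Vs S F T g0 g2 Ω2 ∧ Ω i ⊆ Ω2 ∧ Kl S F T g2 Ω2 a n b n' b') →
      Kl S F T (γ (i + 1)) (Ω (i + 1)) a n b n' b'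

/-- [KIL] (3 h) the distance to the minimal bad sets is visible. Hypotheses of `thm_KIL`: `St_IMG`, `St_DDM`,
`St_VCU`, `St_GPD`, `St_EQB`, `St_MNX`, `St_MNF`, `St_VBB`, `St_OPL`.
Proof. `h1` from [VBB], `h2` from [OPL], `h = max (h1 + 1) h2` (`Vs h (Op Ω)` by [VCU] (1)). `k` = size of `Z`, `FF` = the
set of all elements of the `Z'` with `Mb a Z'`, `|Z'| = k`: a finite set of blocks ([MNF]), `⋃₀ FF ⊆ Op Ω`, `z ∈ FF`. `z` is
thin: otherwise isolated (`F3`) and interior over every set over which it is free ([EQB] (8)), but `Bz (a ∪ ⋃₀ (Z \ {z})) z`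
([MNX]). So there is `n1 ≥ m` with `¬ V n1 z' z` for all `z' ∈ FF`, `z' ≠ z`. If `V n1 z c`, `c ≠ z`, then there is a
largest `δ` with `V δ z c` (`z` is thin), and `δ c` is also the largest `n ≥ n1` such that `V n z' c` for some `z' ∈ FF`
(`V n z' c`, `n ≥ n1`, implies `V n1 z' z`, so `z' = z`). Choose `c1`: `V n1 z c1`, `¬ c1 ⊆ Op Ω` (so `c1 ≠ z`), `k1 = δ c1 + 1`; `c2`:
`V k1 z c2`, `¬ c2 ⊆ Op Ω`, `k2 = δ c2 + 1 > k1`. Let `V k1 c1 c`, `V k2 c2 c'`, `c`, `c'` not contained in `Op Ω`;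
then `δ c = δ c1 ≠ δ c2 = δ c'`. Claim: not `Eb (Op Ω) h a c c'`. Consider a chain of steps `Pp (Op Ω) h` from
`(a, w)` to `(a, w')`, `w`, `w'` enumerations of `c`, `c'`; its members are tuples `(a, w_i)` or more precisely `(x_i, w_i)`, `x_0 = x_r` =
the enumeration of `a`, `x_i` in `Ω`. INVARIANT of the chain: let `a_i = range x_i ⊆ Ω`, `FF_i` = the set of the elements of the
`Z'` with `Mb a_i Z'`, `|Z'| = k` (finite), `δ_i` = the largest `n` with `V n z' (range w_i)` for some `z' ∈ FF_i` (if there is one). One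
step, given by `D, D' ∈ 𝔻_(Op Ω) ⊆ 𝔻_Ω`, `p`: for `Z'` with `Mb a_i Z'`, `|Z'| = k`, extend `p` by `⋃₀ Z' ⊆ Op Ω ⊆ D`
(level `≥ h1`), `Mb a_(i+1) (Im p' '' Z')` by [VBB], `V n z' (range w_i)` iff `V n (Im p' z') (range w_(i+1))`; and
conversely (`⋃₀ FF_(i+1) ⊆ Op Ω ⊆ D'`). So for all `n`: (∃ z' ∈ FF_i, V n z' (range w_i)) iff
(∃ z' ∈ FF_(i+1), V n z' (range w_(i+1))). At the two ends `a_i = a`: so `δ c = δ c'`: contradiction. -/
def St_KIL : Prop := ∀ (L : FirstOrder.Language.{0, 0}) (M : Type) (S : L.Structure M)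
  (F : Set M) (T : Dt M) (g0 g : Ordinal.{0}) (Ω a : Set M) (Z : Set (Set M)) (z : Set M),
  FS S F T g0 → F3 T → Gp S F T g0 g Ω → a.Finite → a ⊆ Ω → Mb S F T Ω a Z → z ∈ Z →
  (∀ n, {b | T.V n z b ∧ ¬ b ⊆ Op S F T Ω}.Infinite) →
  ∃ h, Vs S F T g0 h (Op S F T Ω) ∧ ∀ m, ∃ (c1 c2 : Set M) (k1 k2 : ℕ), T.V m z c1 ∧
    T.V m z c2 ∧ ¬ c1 ⊆ Op S F T Ω ∧ ¬ c2 ⊆ Op S F T Ω ∧ Kl S F T h (Op S F T Ω) a k1 c1 k2 c2

/-- [CLO] (2 h) a visible set without bad sets. Hypotheses of `thm_CLO`: `St_DDM`, `St_VCU`, `St_EQB`, `St_OPL`,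
`St_SQV`, `St_KIL`.
Proof. `γ`, `Ω i`, `g` from [SQV], `Ω* = ⋃ Ω i`; `Ω i ⊆ Ω (i+1)`. `Gp g Ω*` (`Ω1 ⊆ Ω*`). Suppose `Bd Ω* a Z`; it contains a minimal
bad set, so we may assume `Mb Ω* a Z`; `Z` is not empty, `z ∈ Z`, `¬ z ⊆ Ω*`. `a ⊆ Ω i` for some `i`. For every `n` the set of the
`b` with `V n z b`, `¬ b ⊆ Op Ω*` is infinite: hypothesis (class form) for `Op Ω*` (visible by [OPL], contains `Ω1`), as
`V n z z` and `¬ z ⊆ Ω1`. [KIL]: `h`. Now `z` and `Ω (i+1)`: `Fr T (Ω (i+1)) a z`. Not `Bz (Ω (i+1)) a z`: otherwise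
`Mb (Ω (i+1)) a {z}` (`Bd`: `a ∪ ⋃₀ ∅ = a`; `∅` is not bad), so `z ⊆ Op (Ω (i+1)) ⊆ Ω (i+2) ⊆ Ω*`: contradiction. So
`In (γ (i+1)) (Ω (i+1)) a z`: there is `m` such that all `b'` with `V m z b'`, `Fr T (Ω (i+1)) a b'` satisfy
`Eb (γ (i+1)) (Ω (i+1)) a z b'`. `c1`, `c2`, `k1`, `k2` from [KIL] for this `m`; `c1`, `c2` are not contained in
`Ω (i+1) ⊆ Op Ω*`, so free over `a`; `Eb (γ (i+1)) (Ω (i+1)) a c1 c2` ([EQB] (2), (3)). But `Kl h (Op Ω*) a k1 c1 k2 c2`, so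
`Kl (γ (i+1)) (Ω (i+1)) a k1 c1 k2 c2` ([SQV]; `Ω i ⊆ Op Ω*`): contradiction (`vr`). -/
def St_CLO : Prop := ∀ (L : FirstOrder.Language.{0, 0}) (M : Type) (S : L.Structure M)
  (F : Set M) (T : Dt M) (g0 g1 : Ordinal.{0}) (Ω1 : Set M), FS S F T g0 → F3 T →
  Vs S F T g0 g1 Ω1 → (∀ h Ω, Vs S F T g0 h Ω → Ω1 ⊆ Ω → Gp S F T g0 h Ω ∧
    ∀ b ∈ T.Bk, ∀ n, (∃ b', T.V n b b' ∧ ¬ b' ⊆ Ω1) → {b' | T.V n b b' ∧ ¬ b' ⊆ Ω}.Infinite) →
  ∃ g Ω, Gp S F T g0 g Ω ∧ ∀ (a : Set M) (Z : Set (Set M)), a.Finite → a ⊆ Ω →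
    ¬ Bd S F T Ω a Z


end HEI
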